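import Pool.Agent.H893.Rd

/-!
# Systems
-/

set_option autoImplicit false
set_option linter.unusedVariables false
set_option linter.unusedSectionVars false

namespace Pool.Agent.H893

open Polynomial
open scoped NNReal

section aux

variable {k L : Type*} [Field k] [AddCommGroup L]

lemma exists_pos_ex {a : ℝ≥0} (h : a < 1) : ∃ η : ℝ, 0 < η ∧ a ≤ ex η := by
  by_cases h0 : a = 0
  · exact ⟨1, one_pos, by rw [h0]; exact zero_le⟩
  · obtain ⟨η, rfl⟩ := exists_ex h0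
    exact ⟨η, ex_lt_one.1 h, le_rfl⟩

lemma gt_of_coeff_zero {ω : L →+ ℝ} (hω : Function.Injective ω) {η : ℝ} (hη : 0 < η)
    {g : AddMonoidAlgebra k (L × ℕ)} (hg : g ∈ ge (k := k) (wX ω) 0) (h0 : g.coeff 0 = 0) :
    g ∈ gt (k := k) (wW ω η) 0 := by
  intro μ hμ
  have h1 := hg μ hμ
  rw [wX_apply] at h1
  rw [wW_apply]
  rcases h1.lt_or_eq with h2 | h2
  · have h3 : (0 : ℝ) ≤ μ.2 * η := by positivity
    linarith
  · have h3 : μ.1 = 0 := hω (by rw [← h2, map_zero])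
    have h4 : μ.2 ≠ 0 := by
      intro h4
      apply hμ
      have h5 : μ = 0 := Prod.ext h3 h4
      rw [h5, h0]
    have h5 : (0 : ℝ) < μ.2 := by exact_mod_cast Nat.pos_of_ne_zero h4
    rw [← h2, zero_add]
    positivity

lemma wW_zero (ω : L →+ ℝ) : wW ω 0 = wX ω := by
  ext μ
  rw [wW_apply, wX_apply, mul_zero, add_zero]

lemma sub_single_gt {ω : L →+ ℝ} {η : ℝ} {g : AddMonoidAlgebra k (L × ℕ)}
    (hω : Function.Injective ω) (hη : 0 < η) (hg : g ∈ ge (k := k) (wX ω) 0) :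
    g - AddMonoidAlgebra.single 0 (g.coeff 0) ∈ gt (k := k) (wW ω η) 0 := by
  apply gt_of_coeff_zero hω hη
  · refine Submodule.sub_mem _ hg (single_mem_ge fun _ => ?_)
    rw [map_zero]
  · rw [AddMonoidAlgebra.coeff_sub, Finsupp.sub_apply, AddMonoidAlgebra.coeff_single,
      Finsupp.single_eq_same, sub_self]

/-- Elements with given slice. -/
lemma exists_R {ω : L →+ ℝ} {A : ℝ} (ρ : k[X]) (hρ : (∀ a, ω a ≠ A) → ρ = 0) :
    ∃ R : AddMonoidAlgebra k (L × ℕ), R ∈ ge (k := k) (wX ω) A ∧ slice ω A R = ρ := by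
  classical
  by_cases ha : ∃ a, ω a = A
  · obtain ⟨a, ha⟩ := ha
    refine ⟨∑ t ∈ ρ.support, AddMonoidAlgebra.single (a, t) (ρ.coeff t), ?_, ?_⟩
    · refine Submodule.sum_mem _ fun s _ => single_mem_ge fun _ => ?_
      rw [wX_apply, ha]
    · rw [map_sum]
      conv_rhs => rw [ρ.as_sum_support]
      refine Finset.sum_congr rfl fun s _ => ?_
      rw [slice_single, if_pos ha]
  · push Not at ha
    refine ⟨0, Submodule.zero_mem _, ?_⟩
    rw [hρ ha, map_zero]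

end aux

section mon

variable {k K L : Type*} [Field k] [Field K] [Algebra k K] [AddCommGroup L]
  {v : Valuation K ℝ≥0}

lemma YS.v_Mon {ω ω' : L →+ ℝ} {η : ℝ} {e : (L × ℤ) ≃+ (L × ℤ)} {m : ℕ} (h : YS ω η ω' e m)
    {X : Multiplicative L →* Kˣ} {y : Kˣ}
    (hX : ∀ β, v (X (.ofAdd β) : K) = ex (ω β)) (hy : v (y : K) = ex η) (l : L × ℤ) :
    v (Mon X y (.ofAdd l) : K) = ex (ω' (e l).1) := by
  rw [Mon_apply, Units.val_mul, Units.val_zpow_eq_zpow_val, map_mul, map_zpow₀, hX, hy, h.wt,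
    ex_add, ex_zmul]

lemma XK_nX (e : (L × ℤ) ≃+ (L × ℤ)) (X : Multiplicative L →* (DualNumber K)ˣ)
    (y : (DualNumber K)ˣ) :
    XK k (nX e X y) = nX e (XK k X) (Units.map ((TrivSqZeroExt.fstHom k K K :
      DualNumber K →ₐ[k] K) : DualNumber K →* K) y) := by
  apply MonoidHom.ext
  intro β
  apply Units.ext
  change (((X (.ofAdd (e.symm (β.toAdd, 0)).1) * y ^ (e.symm (β.toAdd, 0)).2 :
      (DualNumber K)ˣ) : DualNumber K)).fst = _
  have h1 : (((X (.ofAdd (e.symm (β.toAdd, 0)).1) * y ^ (e.symm (β.toAdd, 0)).2 :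
      (DualNumber K)ˣ) : DualNumber K)).fst =
      ((Units.map ((TrivSqZeroExt.fstHom k K K : DualNumber K →ₐ[k] K) : DualNumber K →* K)
        (X (.ofAdd (e.symm (β.toAdd, 0)).1) * y ^ (e.symm (β.toAdd, 0)).2) : Kˣ) : K) := rfl
  rw [h1, map_mul, map_zpow]
  rfl

lemma fst_nu (e : (L × ℤ) ≃+ (L × ℤ)) (X : Multiplicative L →* (DualNumber K)ˣ)
    (y : (DualNumber K)ˣ) :
    (nu e X y : DualNumber K).fst = (nu e (XK k X) (Units.map ((TrivSqZeroExt.fstHom k K K :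
      DualNumber K →ₐ[k] K) : DualNumber K →* K) y) : K) := by
  have h1 : (nu e X y : DualNumber K).fst =
      ((Units.map ((TrivSqZeroExt.fstHom k K K : DualNumber K →ₐ[k] K) : DualNumber K →* K)
        (X (.ofAdd (e.symm (0, 1)).1) * y ^ (e.symm (0, 1)).2) : Kˣ) : K) := rfl
  rw [h1, map_mul, map_zpow]
  rfl

end mon

section sys

variable {k K L : Type*} [Field k] [Field K] [Algebra k K] [AddCommGroup L]
  [Module.Free ℤ L] [Module.Finite ℤ L] {v : Valuation K ℝ≥0}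

/-- The vertex of the polygon. -/
structure Vtx (ω : L →+ ℝ) (A b : ℝ) (d : ℕ) (f : (AddMonoidAlgebra k (L × ℕ))[X]) : Prop where
  A0 : 0 < A
  b0 : 0 ≤ b
  lv : Lv (wX ω) A d f
  sl : Slc 0 d b (LF ω A d f)
  uns : ∀ ρ : k[X], ((∀ a, ω a ≠ A) → ρ = 0) → ∃ j : ℕ, j < d ∧ ∃ i : ℕ,
    (i : ℝ) ≤ ((d : ℝ) - j) * b ∧ ((taylor ρ (LF ω A d f)).coeff j).coeff i ≠ 0

/-- A hypersurface through the point. -/
structure Sys (k : Type*) {K L : Type*} [Field k] [Field K] [Algebra k K] [AddCommGroup L]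
    (v : Valuation K ℝ≥0) (d : ℕ) (ω : L →+ ℝ) (X : Multiplicative L →* (DualNumber K)ˣ)
    (y z : DualNumber K) (f : (AddMonoidAlgebra k (L × ℕ))[X]) : Prop where
  inj : Function.Injective ω
  hX : ∀ β, v (X (.ofAdd β) : DualNumber K).fst = ex (ω β)
  hy : v y.fst < 1
  hz : v z.fst < 1
  gen : ∀ F : IntermediateField k K, (∀ β, (XK k X β : K) ∈ F) → y.fst ∈ F → z.fst ∈ F → F = ⊤
  fz : (EV k X y z f).fst = 0
  fne : EV k X y z f ≠ 0
  ge0 : ∀ j, f.coeff j ∈ ge (k := k) (wX ω) 0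
  top : (f.coeff d).coeff 0 ≠ 0
  low : ∀ j < d, (f.coeff j).coeff 0 = 0
  rr : ∀ x : K, x ≠ 0 → ∃ m : ℕ, m ≠ 0 ∧ ∃ a, v x ^ m = ex (ω a)

variable {d : ℕ} {ω : L →+ ℝ} {X : Multiplicative L →* (DualNumber K)ˣ}
    {y z : DualNumber K} {f : (AddMonoidAlgebra k (L × ℕ))[X]}

lemma Sys.v_d (hk : ∀ c : k, c ≠ 0 → v (algebraMap k K c) = 1) (S : Sys k v d ω X y z f) :
    v (ev k (XK k X) y.fst (f.coeff d)) = 1 := by
  obtain ⟨η, hη, hyη⟩ := exists_pos_ex S.hy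
  exact v_ev_unit hk S.hX hyη S.top (sub_single_gt S.inj hη (S.ge0 d))

lemma Sys.al (hk : ∀ c : k, c ≠ 0 → v (algebraMap k K c) = 1)
    (htr : Algebra.trdeg k K = ((Module.finrank ℤ L + 1 : ℕ) : Cardinal))
    (S : Sys k v d ω X y z f) : Function.Injective (ev k (XK k X) y.fst) := by
  refine inj_of_root htr (z := z.fst) S.gen ⟨d, ?_⟩ ((fst_EV X y z f).symm.trans S.fz)
  intro h
  have h1 := S.v_d hk
  rw [h, map_zero] at h1
  exact zero_ne_one h1

lemma Sys.d_pos (hk : ∀ c : k, c ≠ 0 → v (algebraMap k K c) = 1) (S : Sys k v d ω X y z f) :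
    0 < d := by
  by_contra hcon
  have hd : d = 0 := by omega
  subst hd
  have h1 := S.fz
  rw [fst_EV, EV_eq_sum _ _ _ _ (Nat.lt_succ_self f.natDegree), Finset.sum_range_succ'] at h1
  rw [pow_zero, mul_one] at h1
  obtain ⟨η, hη, hyη⟩ := exists_pos_ex S.hy
  have h2 : v (∑ j ∈ Finset.range f.natDegree, ev k (XK k X) y.fst (f.coeff (j + 1)) *
      z.fst ^ (j + 1)) < 1 := by
    refine v.map_sum_lt one_ne_zero fun j _ => ?_
    rw [map_mul, map_pow]
    have h3 : v (ev k (XK k X) y.fst (f.coeff (j + 1))) ≤ 1 := by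
      rw [← ex_zero]
      refine v_ev_le hk S.hX hyη (ge_mono le_rfl ?_)
      intro μ hμ
      have h4 := S.ge0 (j + 1) μ hμ
      rw [wX_apply] at h4
      rw [wW_apply]
      positivity
    calc v (ev k (XK k X) y.fst (f.coeff (j + 1))) * v z.fst ^ (j + 1)
        ≤ 1 * v z.fst ^ (j + 1) := mul_le_mul_of_nonneg_right h3 zero_le
      _ = v z.fst ^ (j + 1) := one_mul _
      _ < 1 := pow_lt_one₀ zero_le S.hz (Nat.succ_ne_zero j)
  have h3 := v.map_add_eq_of_lt_right (x := ∑ j ∈ Finset.range f.natDegree,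
    ev k (XK k X) y.fst (f.coeff (j + 1)) * z.fst ^ (j + 1))
    (y := ev k (XK k X) y.fst (f.coeff 0)) (by rw [S.v_d hk]; exact h2)
  rw [h1, map_zero, S.v_d hk] at h3
  exact zero_ne_one h3

lemma ev_mem {X : Multiplicative L →* Kˣ} {y : K} {F : IntermediateField k K}
    (hX : ∀ β, (X β : K) ∈ F) (hy : y ∈ F) (g : AddMonoidAlgebra k (L × ℕ)) :
    ev k X y g ∈ F := FE_le hX hy (ev_mem_FE X y g)

end sys

end Pool.Agent.H893
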