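import Pool.Agent.H893.ES
import Pool.Agent.H893.Sy

/-!
# Hypersurfaces through a point
-/

set_option autoImplicit false
set_option linter.unusedVariables false
set_option linter.unusedSectionVars false

namespace Pool.Agent.H893

open Polynomial
open scoped NNReal

section iter

variable {k K L : Type*} [Field k] [Field K] [Algebra k K] [AddCommGroup L]
  [Module.Free ℤ L] [Module.Finite ℤ L] {v : Valuation K ℝ≥0}

theorem es_iter (hk : ∀ c : k, c ≠ 0 → v (algebraMap k K c) = 1) (H : HypH k L v)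
    (htr : Algebra.trdeg k K = ((Module.finrank ℤ L + 1 : ℕ) : Cardinal)) (T : Finset K) :
    ∀ (N : ℕ) (ω : L →+ ℝ) (X : Multiplicative L →* Kˣ) (y : K) (η : ℝ), ES k v ω X y →
    0 < η → v y = ex η → (∀ a, ω a ≠ η) → (∀ t ∈ T, GM k ω X y N t) →
    ∃ (ω' : L →+ ℝ) (X' : Multiplicative L →* Kˣ) (y' : K), ES k v ω' X' y' ∧
      FE k X y ≤ FE k X' y' ∧ ∀ t ∈ T, GM k ω' X' y' 0 t := by
  classical
  intro N
  induction N using Nat.strong_induction_on with
  | _ N ih =>
  intro ω X y η S hη hyη hηω hT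
  rcases Nat.eq_zero_or_pos N with hN | hN
  · subst hN
    exact ⟨ω, X, y, S, le_rfl, hT⟩
  · obtain ⟨ω', X', y', η', S', hη', hyη', hηω', hT', hFE, -⟩ := ES.step hk H htr S hη hyη hηω
      T (fun _ => N) hT
    obtain ⟨ω2, X2, y2, S2, hFE2, hT2⟩ := ih (N / 2) (Nat.div_lt_self hN one_lt_two) ω' X' y' η'
      S' hη' hyη' hηω' hT'
    exact ⟨ω2, X2, y2, S2, hFE.trans hFE2, hT2⟩

end iter

section sys

variable {k K L : Type*} [Field k] [Field K] [Algebra k K] [AddCommGroup L]
  [Module.Free ℤ L] [Module.Finite ℤ L] {v : Valuation K ℝ≥0}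

/-- The constant lift of the coordinates. -/
noncomputable def XI (k : Type*) {K L : Type*} [Field k] [Field K] [Algebra k K] [AddCommGroup L]
    (X : Multiplicative L →* Kˣ) : Multiplicative L →* (DualNumber K)ˣ :=
  (Units.map ((TrivSqZeroExt.inlAlgHom k K K : K →ₐ[k] DualNumber K) : K →* DualNumber K)).comp X

lemma XK_XI (X : Multiplicative L →* Kˣ) : XK k (XI k X) = X := by
  ext β
  rfl

lemma ev_XI (X : Multiplicative L →* Kˣ) (y : K) (g : AddMonoidAlgebra k (L × ℕ)) :
    ev k (XI k X) (TrivSqZeroExt.inl y : DualNumber K) g =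
      (TrivSqZeroExt.inl (ev k X y g) : DualNumber K) :=
  ev_map (TrivSqZeroExt.inlAlgHom k K K : K →ₐ[k] DualNumber K) X y g

theorem sys_of_gm {ω : L →+ ℝ} {X : Multiplicative L →* Kˣ} {y : K} (S : ES k v ω X y) {z : K}
    (hz : v z < 1)
    (gen : ∀ F : IntermediateField k K, (∀ β, (X β : K) ∈ F) → y ∈ F → z ∈ F → F = ⊤)
    (n : ℕ) (c : ℕ → K) (hc : ∀ j, c j ≠ 0 → GM k ω X y 0 (c j))
    (h0 : ∑ j ∈ Finset.range n, c j * z ^ j = 0)
    (h1 : ∑ j ∈ Finset.range n, c j * (j * z ^ (j - 1)) ≠ 0) :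
    ∃ (d : ℕ) (f : (AddMonoidAlgebra k (L × ℕ))[X]),
      Sys k v d ω (XI k X) (TrivSqZeroExt.inl y) (TrivSqZeroExt.inl z + TrivSqZeroExt.inr 1) f := by
  classical
  have hrep : ∀ j, ∃ g h : AddMonoidAlgebra k (L × ℕ), c j * ev k X y h = ev k X y g ∧
      (c j ≠ 0 → Ordle ω 0 g) ∧ (c j = 0 → g = 0) ∧ Ordle ω 0 h := by
    intro j
    by_cases hj : c j = 0
    · refine ⟨0, 1, by rw [hj, zero_mul, map_zero], fun h => absurd hj h, fun _ => rfl, ?_⟩
      exact ordle_one S.inj
    · obtain ⟨g, h, h2, h3, h4⟩ := hc j hj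
      exact ⟨g, h, h2, fun _ => h3, fun h => absurd h hj, h4⟩
  choose g h hgh hg hg0 hh using hrep
  -- the common denominator
  have hprod : ∀ s : Finset ℕ, Ordle ω 0 (∏ i ∈ s, h i) := by
    intro s
    induction s using Finset.induction_on with
    | empty => rw [Finset.prod_empty]; exact ordle_one S.inj
    | insert a s ha ih =>
      rw [Finset.prod_insert ha]
      exact (hh a).mul S.inj ih
  set D := ev k X y (∏ i ∈ Finset.range n, h i) with hD
  have hD0 : D ≠ 0 := by
    intro h2
    exact (hprod (Finset.range n)).ne (S.al (by rw [map_zero]; exact h2))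
  let F0 : ℕ → AddMonoidAlgebra k (L × ℕ) := fun j => g j * ∏ i ∈ (Finset.range n).erase j, h i
  have hF0 : ∀ j ∈ Finset.range n, ev k X y (F0 j) = D * c j := by
    intro j hj
    have h2 : ∏ i ∈ Finset.range n, h i = h j * ∏ i ∈ (Finset.range n).erase j, h i :=
      (Finset.mul_prod_erase _ _ hj).symm
    rw [hD, h2, map_mul, map_mul, ← hgh]
    ring
  -- the exponents
  have hJ : ∀ j, ∃ β : L, c j ≠ 0 → F0 j ∈ ge (k := k) (wX ω) (ω β) ∧
      (F0 j).coeff (β, 0) ≠ 0 := by
    intro j
    by_cases hj : c j = 0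
    · exact ⟨0, fun h => absurd hj h⟩
    · obtain ⟨β, i, hi, h2, h3⟩ := (hg j hj).mul S.inj (hprod ((Finset.range n).erase j))
      obtain rfl : i = 0 := by omega
      exact ⟨β, fun _ => ⟨h2, h3⟩⟩
  choose B hB using hJ
  let J : Finset ℕ := (Finset.range n).filter fun j => c j ≠ 0
  have hJne : J.Nonempty := by
    by_contra hcon
    rw [Finset.not_nonempty_iff_eq_empty] at hcon
    apply h1
    refine Finset.sum_eq_zero fun j hj => ?_
    have h2 : c j = 0 := by
      by_contra h3
      have h4 : j ∈ J := Finset.mem_filter.2 ⟨hj, h3⟩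
      rw [hcon] at h4
      exact Finset.notMem_empty _ h4
    rw [h2, zero_mul]
  obtain ⟨j0, hj0, hmin⟩ := Finset.exists_min_image J (fun j => ω (B j)) hJne
  obtain ⟨hj0n, hj0c⟩ := Finset.mem_filter.1 hj0
  set b := B j0 with hb
  let f : (AddMonoidAlgebra k (L × ℕ))[X] := ∑ j ∈ Finset.range n,
    C (AddMonoidAlgebra.single (-b, 0) 1 * F0 j) * Polynomial.X ^ j
  have hfc : ∀ j, f.coeff j = if j < n then AddMonoidAlgebra.single (-b, 0) 1 * F0 j else 0 := by
    intro j
    simp only [f]
    rw [finsetSum_coeff]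
    simp only [coeff_C_mul, coeff_X_pow, mul_ite, mul_one, mul_zero]
    rw [Finset.sum_ite_eq]
    simp only [Finset.mem_range]
  have hcs : ∀ (g : AddMonoidAlgebra k (L × ℕ)),
      (AddMonoidAlgebra.single (-b, 0) 1 * g).coeff 0 = g.coeff (b, 0) := by
    intro g
    have h2 : (0 : L × ℕ) = (-b, 0) + (b, 0) := by
      rw [Prod.mk_add_mk, neg_add_cancel]
      rfl
    rw [h2, AddMonoidAlgebra.coeff_single_mul_add, one_mul]
  have hge0 : ∀ j, f.coeff j ∈ ge (k := k) (wX ω) 0 := by
    intro j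
    rw [hfc]
    split_ifs with hj
    · by_cases hcj : c j = 0
      · have h2 : F0 j = 0 := by
          simp only [F0]
          rw [hg0 j hcj, zero_mul]
        rw [h2, mul_zero]
        exact zero_mem _
      · have h2 := (hB j hcj).1
        have h3 := hmin j (Finset.mem_filter.2 ⟨Finset.mem_range.2 hj, hcj⟩)
        have h4 : (AddMonoidAlgebra.single (-b, 0) 1 : AddMonoidAlgebra k (L × ℕ)) ∈
            ge (k := k) (wX ω) (-ω b) := single_mem_ge fun _ => by
          rw [wX_apply, map_neg]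
        refine ge_mono ?_ (ge_mul h4 h2)
        linarith
    · exact zero_mem _
  have hex : ∃ j, (f.coeff j).coeff 0 ≠ 0 := by
    refine ⟨j0, ?_⟩
    rw [hfc, if_pos (Finset.mem_range.1 hj0n), hcs]
    exact (hB j0 hj0c).2
  have hfn : f.natDegree < n := by
    by_contra hcon
    have h2 := hfc f.natDegree
    rw [if_neg hcon] at h2
    have h3 : f = 0 := leadingCoeff_eq_zero.1 h2
    obtain ⟨j, hj⟩ := hex
    rw [h3, coeff_zero] at hj
    exact hj rfl
  have hevf : ∀ j ∈ Finset.range n, ev k X y (f.coeff j) = (X (.ofAdd (-b)) : K) * D * c j := by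
    intro j hj
    rw [hfc, if_pos (Finset.mem_range.1 hj), map_mul, hF0 j hj, ev_single]
    simp
    ring
  refine ⟨Nat.find hex, f, ?_⟩
  have hX0 : (X (.ofAdd (-b)) : K) * D ≠ 0 := mul_ne_zero (Units.ne_zero _) hD0
  exact
    { inj := S.inj
      hX := S.hX
      hy := S.hy
      hz := by
        rw [TrivSqZeroExt.fst_add, TrivSqZeroExt.fst_inl, TrivSqZeroExt.fst_inr, add_zero]
        exact hz
      gen := by
        rw [XK_XI]
        intro F h2 h3 h4
        rw [TrivSqZeroExt.fst_add, TrivSqZeroExt.fst_inl, TrivSqZeroExt.fst_inr, add_zero] at h4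
        exact gen F h2 h3 h4
      fz := by
        rw [fst_EV, XK_XI, TrivSqZeroExt.fst_add, TrivSqZeroExt.fst_inl, TrivSqZeroExt.fst_inr,
          TrivSqZeroExt.fst_inl, add_zero, EV_eq_sum _ _ _ _ hfn]
        have h2 : ∑ j ∈ Finset.range n, ev k X y (f.coeff j) * z ^ j =
            (X (.ofAdd (-b)) : K) * D * ∑ j ∈ Finset.range n, c j * z ^ j := by
          rw [Finset.mul_sum]
          refine Finset.sum_congr rfl fun j hj => ?_
          rw [hevf j hj]
          ring
        rw [h2, h0, mul_zero]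
      fne := by
        intro h2
        rw [EV_eq_sum _ _ _ _ hfn] at h2
        have h3 := congrArg TrivSqZeroExt.snd h2
        rw [TrivSqZeroExt.snd_zero, TrivSqZeroExt.snd_sum] at h3
        have h4 : ∑ j ∈ Finset.range n, (ev k (XI k X) (TrivSqZeroExt.inl y : DualNumber K)
            (f.coeff j) * (TrivSqZeroExt.inl z + TrivSqZeroExt.inr 1 : DualNumber K) ^ j).snd =
            (X (.ofAdd (-b)) : K) * D * ∑ j ∈ Finset.range n, c j * (j * z ^ (j - 1)) := by
          rw [Finset.mul_sum]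
          refine Finset.sum_congr rfl fun j hj => ?_
          rw [ev_XI, hevf j hj, TrivSqZeroExt.snd_mul, TrivSqZeroExt.snd_pow]
          simp
          ring
        rw [h4] at h3
        exact h1 ((mul_eq_zero.1 h3).resolve_left hX0)
      ge0 := hge0
      top := Nat.find_spec hex
      low := fun j hj => by
        by_contra h2
        exact Nat.find_min hex hj h2
      rr := S.rr }

end sys

end Pool.Agent.H893
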