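import Pool.Agent.H893.CH

/-!
# Strong uniformization of the fields of the points
-/

set_option autoImplicit false
set_option linter.unusedVariables false
set_option linter.unusedSectionVars false

universe u w

namespace Pool.Agent.H893

open Pool.Agent.W418.LU2 Polynomial
open scoped NNReal

section den

variable {F : Type u} [Field F]

/-- The denominators are powers of `β`. -/
def denR (A : Subring F) (β : F) (hβ : β ∈ A) : Subring F where
  carrier := {t | ∃ N : ℕ, β ^ N * t ∈ A}
  mul_mem' := by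
    rintro a b ⟨N, hN⟩ ⟨M, hM⟩
    refine ⟨N + M, ?_⟩
    have h : β ^ (N + M) * (a * b) = (β ^ N * a) * (β ^ M * b) := by ring
    rw [h]
    exact mul_mem hN hM
  one_mem' := ⟨0, by rw [pow_zero, one_mul]; exact one_mem _⟩
  add_mem' := by
    rintro a b ⟨N, hN⟩ ⟨M, hM⟩
    refine ⟨N + M, ?_⟩
    have h : β ^ (N + M) * (a + b) = β ^ M * (β ^ N * a) + β ^ N * (β ^ M * b) := by ring
    rw [h]
    exact add_mem (mul_mem (pow_mem hβ _) hN) (mul_mem (pow_mem hβ _) hM)
  zero_mem' := ⟨0, by rw [mul_zero]; exact zero_mem _⟩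
  neg_mem' := by
    rintro a ⟨N, hN⟩
    refine ⟨N, ?_⟩
    rw [mul_neg]
    exact neg_mem hN

lemma mem_denR {A : Subring F} {β : F} {hβ : β ∈ A} {t : F} :
    t ∈ denR A β hβ ↔ ∃ N : ℕ, β ^ N * t ∈ A := Iff.rfl

end den

section su

variable {k F : Type u} {L : Type w} [Field k] [Field F] [Algebra k F] [AddCommGroup L]
  [Module.Free ℤ L] [Module.Finite ℤ L] {v : Valuation F ℝ≥0}

/-- The denominators of the coordinates are monomials. -/
def DD (k : Type u) {F : Type u} {L : Type w} [Field k] [Field F] [Algebra k F]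
    [AddCommGroup L] [Module.Free ℤ L] [Module.Finite ℤ L] (A : Subring F) (ω : L →+ ℝ)
    (X : Multiplicative L →* Fˣ) (y : F) : Prop :=
  ∃ (β : F) (hβ : β ∈ A), GM k ω X y 0 β ∧ (∀ l, (X l : F) ∈ denR A β hβ) ∧ y ∈ denR A β hβ

theorem dd_iter (hk : ∀ c : k, c ≠ 0 → v (algebraMap k F c) = 1) (H : HypH k L v)
    (htr : Algebra.trdeg k F = ((Module.finrank ℤ L + 1 : ℕ) : Cardinal)) (A : Subring F)
    (hA : ∀ c, algebraMap k F c ∈ A) (T : Finset F) :
    ∀ (N : ℕ) (ω : L →+ ℝ) (X : Multiplicative L →* Fˣ) (y : F) (η : ℝ), ES k v ω X y →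
    0 < η → v y = ex η → (∀ a, ω a ≠ η) → DD k A ω X y → (∀ t ∈ T, GM k ω X y N t) →
    ∃ (ω' : L →+ ℝ) (X' : Multiplicative L →* Fˣ) (y' : F), ES k v ω' X' y' ∧ DD k A ω' X' y' ∧
      ∀ t ∈ T, GM k ω' X' y' 0 t := by
  classical
  intro N
  induction N using Nat.strong_induction_on with
  | _ N ih =>
  intro ω X y η S hη hyη hηω hD hT
  rcases Nat.eq_zero_or_pos N with hN | hN
  · subst hN
    exact ⟨ω, X, y, S, hD, hT⟩
  · obtain ⟨β, hβ, hβG, hXβ, n, hn⟩ := hD
    have hy0 : y ≠ 0 := by
      rintro rfl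
      rw [map_zero] at hyη
      exact ex_ne _ hyη.symm
    -- the new denominator
    set β1 := β ^ (n + 1) * y with hβ1
    have hβ1A : β1 ∈ A := by
      have h : β1 = β * (β ^ n * y) := by rw [hβ1]; ring
      rw [h]
      exact mul_mem hβ hn
    have hβ1G : GM k ω X y 1 β1 := by
      have h := (hβG.pow S.inj (n + 1)).mul S.inj (GM.ym (k := k) (X := X) (y := y) S.inj)
      rwa [zero_add] at h
    have hβ0 : β ≠ 0 := hβG.ne S.al
    have hle : denR A β hβ ≤ denR A β1 hβ1A := by
      have hβinv : β⁻¹ ∈ denR A β1 hβ1A := by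
        refine ⟨1, ?_⟩
        have h : β1 ^ 1 * β⁻¹ = β ^ n * y * (β * β⁻¹) := by
          rw [hβ1]
          ring
        rw [h, mul_inv_cancel₀ hβ0, mul_one]
        exact hn
      rintro t ⟨M, hM⟩
      have h1 : t = β⁻¹ ^ M * (β ^ M * t) := by
        rw [inv_pow, ← mul_assoc, inv_mul_cancel₀ (pow_ne_zero _ hβ0), one_mul]
      rw [h1]
      exact mul_mem (pow_mem hβinv M) ⟨0, by rw [pow_zero, one_mul]; exact hM⟩
    have hyinv : y⁻¹ ∈ denR A β1 hβ1A := by
      refine ⟨1, ?_⟩
      have h : β1 ^ 1 * y⁻¹ = β ^ (n + 1) := by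
        rw [hβ1]
        field_simp
      rw [h]
      exact pow_mem hβ _
    obtain ⟨ω', X', y', η', S', hη', hyη', hηω', hT', -, hB⟩ := ES.step hk H htr S hη hyη hηω
      (insert β1 T) (fun t => if t = β1 then 1 else N) (by
        intro t ht
        split_ifs with h
        · rw [h]
          exact hβ1G
        · rcases Finset.mem_insert.1 ht with h1 | h1
          · exact absurd h1 h
          · exact hT t h1)
    have hB' := hB (denR A β1 hβ1A) (fun c => ⟨0, by rw [pow_zero, one_mul]; exact hA c⟩)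
      (fun l => hle (hXβ l)) (hle ⟨n, hn⟩) hyinv
    refine ih (N / 2) (Nat.div_lt_self hN one_lt_two) ω' X' y' η' S' hη' hyη' hηω'
      ⟨β1, hβ1A, ?_, hB'.1, hB'.2⟩ ?_
    · have h := hT' β1 (Finset.mem_insert_self _ _)
      simpa using h
    · intro t ht
      have h := hT' t (Finset.mem_insert_of_mem ht)
      refine h.mono ?_
      split_ifs
      · have : 1 / 2 = 0 := by norm_num
        omega
      · exact le_rfl

lemma GM.mo {ω : L →+ ℝ} {X : Multiplicative L →* Fˣ} {y : F} {t : F}
    (S : ES k v ω X y) (a b : F) (ha : GM k ω X y 0 a) (hb : GM k ω X y 0 b)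
    (h : t * b = a) : GM k ω X y 0 t := by
  have h0 := hb.ne S.al
  have h1 : t = a * b⁻¹ := by
    rw [← h, mul_assoc, mul_inv_cancel₀ h0, mul_one]
  rw [h1]
  exact ha.mul S.inj (hb.inv S.al)

theorem su_of_es (hk : ∀ c : k, c ≠ 0 → v (algebraMap k F c) = 1) (H : HypH k L v)
    (htr : Algebra.trdeg k F = ((Module.finrank ℤ L + 1 : ℕ) : Cardinal)) {ω : L →+ ℝ}
    {X : Multiplicative L →* Fˣ} {y : F} {η : ℝ} (S : ES k v ω X y) (hη : 0 < η)
    (hyη : v y = ex η) (hηω : ∀ a, ω a ≠ η)
    (hgen : ∀ z : F, ∃ g h : AddMonoidAlgebra k (L × ℕ), ev k X y h ≠ 0 ∧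
      z * ev k X y h = ev k X y g) :
    ∃ U : Set F, U.Finite ∧ Pool.Agent.H176.DT.Mod v.valuationSubring
      (Subring.closure (Set.range (algebraMap k F) ∪ U)) ∧
      Pool.Agent.H176.DT.SU v.valuationSubring
      (Subring.closure (Set.range (algebraMap k F) ∪ U)) := by
  classical
  obtain ⟨s0, b0, hb0, -⟩ := exists_chart ω S.inj ∅ (by simp)
  have hA0 := AC_le hk S b0 hb0
  refine ⟨Set.range (fam b0 X y), Set.finite_range _, ⟨hA0, ?_⟩, ?_⟩
  · intro z
    obtain ⟨g, h, h0, hz⟩ := hgen z
    obtain ⟨ν1, hν1, h1⟩ := exists_shift b0 g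
    obtain ⟨ν2, hν2, h2⟩ := exists_shift b0 h
    have hs : ∀ (ν : L) (g : AddMonoidAlgebra k (L × ℕ)),
        ev k X y (AddMonoidAlgebra.single (ν, 0) 1 * g) = (X (.ofAdd ν) : F) * ev k X y g := by
      intro ν g
      rw [map_mul, ev_single]
      simp
    have h3 := ev_mem_AC (X := X) (y := y) b0 h1
    have h4 := ev_mem_AC (X := X) (y := y) b0 h2
    rw [hs] at h3 h4
    refine ⟨(X (.ofAdd ν2) : F) * ((X (.ofAdd ν1) : F) * ev k X y g),
      mul_mem (X_mem_AC b0 hν2) h3,
      (X (.ofAdd ν1) : F) * ((X (.ofAdd ν2) : F) * ev k X y h),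
      mul_mem (X_mem_AC b0 hν1) h4, ?_, ?_⟩
    · exact mul_ne_zero (Units.ne_zero _) (mul_ne_zero (Units.ne_zero _) h0)
    · rw [← hz]
      have h5 : (X (.ofAdd ν1) : F) ≠ 0 := Units.ne_zero _
      have h6 : (X (.ofAdd ν2) : F) ≠ 0 := Units.ne_zero _
      field_simp
  · intro G hG hG0
    set A := AC k b0 X y with hA
    change ∃ (T : Set F) (n : ℕ) (x : Fin n → F), Pool.Agent.H176.DT.St v.valuationSubring A T x ∧
      ∀ g ∈ G, PMon (Pool.Agent.H176.DT.PP v.valuationSubring A T) x g ∧
        (g ∈ v.valuationSubring → g ∈ Pool.Agent.H176.DT.PP v.valuationSubring A T)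
    choose a b hb hab using hgen
    -- the elements
    let G1 : Finset F := hG.toFinset ∪ Finset.univ.image (fam b0 X y)
    have hG1 : ∀ z ∈ G1, z ≠ 0 := by
      intro z hz
      rcases Finset.mem_union.1 hz with h | h
      · exact hG0 z (hG.mem_toFinset.1 h)
      · obtain ⟨o, -, rfl⟩ := Finset.mem_image.1 h
        rcases o with _ | j
        · change y ≠ 0
          rintro rfl
          rw [map_zero] at hyη
          exact ex_ne _ hyη.symm
        · exact Units.ne_zero _
    let T : Finset F := G1.biUnion fun z => {ev k X y (a z), ev k X y (b z)}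
    have hT : ∀ t ∈ T, ∃ N, GM k ω X y N t := by
      intro t ht
      obtain ⟨z, hz, h1⟩ := Finset.mem_biUnion.1 ht
      have h2 : ∃ g : AddMonoidAlgebra k (L × ℕ), g ≠ 0 ∧ t = ev k X y g := by
        rcases Finset.mem_insert.1 h1 with h2 | h2
        · refine ⟨a z, ?_, h2⟩
          intro h3
          have h4 := hab z
          rw [h3, map_zero] at h4
          exact (mul_ne_zero (hG1 z hz) (hb z)) h4
        · refine ⟨b z, ?_, Finset.mem_singleton.1 h2⟩
          intro h3
          apply hb z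
          rw [h3, map_zero]
      obtain ⟨g, hg, rfl⟩ := h2
      obtain ⟨N, hN⟩ := exists_ordle ω hg
      exact ⟨N, GM.of_ev S.inj hN⟩
    choose! Nf hNf using hT
    have hTN : ∀ t ∈ T, GM k ω X y (∑ t ∈ T, Nf t) t := fun t ht =>
      (hNf t ht).mono (Finset.single_le_sum (f := Nf) (fun _ _ => Nat.zero_le _) ht)
    -- the denominators
    set σ : L := ∑ j, b0 j with hσ
    have hreprσ : ∀ j, b0.repr σ j = 1 := by
      intro j
      rw [hσ, map_sum, Finsupp.finsetSum_apply, Finset.sum_eq_single j]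
      · rw [Module.Basis.repr_self, Finsupp.single_eq_same]
      · intro i _ hi
        rw [Module.Basis.repr_self, Finsupp.single_eq_of_ne]
        exact fun h => hi h.symm
      · simp
    have hDD : DD k A ω X y := by
      refine ⟨(X (.ofAdd σ) : F), X_mem_AC b0 ?_, GM.Xm S.inj σ, ?_, 0, ?_⟩
      · rw [mem_chartP]
        intro j
        rw [hreprσ]
        exact zero_le_one
      · intro l
        refine ⟨∑ j, (b0.repr l.toAdd j).natAbs, ?_⟩
        have h1 : (X (.ofAdd σ) : F) ^ (∑ j, (b0.repr l.toAdd j).natAbs) * (X l : F) =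
            (X (.ofAdd ((∑ j, (b0.repr l.toAdd j).natAbs) • σ + l.toAdd)) : F) := by
          rw [ofAdd_add, map_mul, Units.val_mul, ofAdd_nsmul, map_pow, Units.val_pow_eq_pow_val]
          rfl
        rw [h1]
        refine X_mem_AC b0 ?_
        rw [mem_chartP]
        intro j
        rw [map_add, map_nsmul, Finsupp.add_apply, Finsupp.smul_apply, hreprσ, nsmul_eq_mul,
          mul_one]
        have h2 := neg_abs_le (b0.repr l.toAdd j)
        rw [Int.abs_eq_natAbs] at h2
        have h3 : (b0.repr l.toAdd j).natAbs ≤ ∑ j, (b0.repr l.toAdd j).natAbs :=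
          Finset.single_le_sum (f := fun j => (b0.repr l.toAdd j).natAbs)
            (fun _ _ => Nat.zero_le _) (Finset.mem_univ j)
        have h4 : (((b0.repr l.toAdd j).natAbs : ℕ) : ℤ) ≤
            ((∑ j, (b0.repr l.toAdd j).natAbs : ℕ) : ℤ) := by exact_mod_cast h3
        linarith
      · rw [pow_zero, one_mul]
        exact y_mem_AC b0
    obtain ⟨ω', X', y', S', hD', hT'⟩ := dd_iter hk H htr A (alg_mem_AC b0) T _ ω X y η S hη hyη
      hηω hDD hTN
    obtain ⟨β, hβ, hβG, hXβ, hyβ⟩ := hD'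
    have hG2 : ∀ z ∈ G1, GM k ω' X' y' 0 z := by
      intro z hz
      refine GM.mo S' (ev k X y (a z)) (ev k X y (b z)) (hT' _ ?_) (hT' _ ?_) (hab z)
      · exact Finset.mem_biUnion.2 ⟨z, hz, Finset.mem_insert_self _ _⟩
      · exact Finset.mem_biUnion.2 ⟨z, hz, Finset.mem_insert_of_mem (Finset.mem_singleton_self _)⟩
    obtain ⟨s, b', hb', hch⟩ := chart hk S' (insert β G1) (by
      intro t ht
      rcases Finset.mem_insert.1 ht with h | h
      · rw [h]
        exact hβG
      · exact hG2 t h)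
    have hS' := AC_le hk S' b' hb'
    have hPP : Pool.Agent.H176.DT.PP v.valuationSubring A (Set.range (fam b' X' y')) =
        PC k v b' X' y' := by
      refine lo_eq hS' ?_ ?_
      · unfold AC
        rw [Subring.closure_le]
        rintro z (⟨c, rfl⟩ | hz)
        · exact Subring.subset_closure (Or.inl (alg_mem_AC b0 c))
        · exact Subring.subset_closure (Or.inr hz)
      · rw [Subring.closure_le]
        rintro z (hz | hz)
        · have h1 : A ≤ PC k v b' X' y' := by
            rw [hA, AC, Subring.closure_le]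
            rintro z (⟨c, rfl⟩ | ⟨o, rfl⟩)
            · exact le_lo _ _ (alg_mem_AC b' c)
            · refine (hch _ (Finset.mem_insert_of_mem (Finset.mem_union_right _
                (Finset.mem_image.2 ⟨o, Finset.mem_univ _, rfl⟩)))).2 ?_
              exact hA0 (fam_mem_AC b0 o)
          exact h1 hz
        · exact le_lo _ _ (Subring.subset_closure (Or.inr hz))
    let e : Fin (s + 1) ≃ Option (Fin s) := finSuccEquiv s
    have hrange : Set.range (fun i => fam b' X' y' (e i)) = Set.range (fam b' X' y') := by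
      ext z
      constructor
      · rintro ⟨i, rfl⟩
        exact ⟨_, rfl⟩
      · rintro ⟨o, rfl⟩
        exact ⟨e.symm o, by simp⟩
    have hPM : ∀ z, PMon (PC k v b' X' y') (fam b' X' y') z →
        PMon (PC k v b' X' y') (fun i => fam b' X' y' (e i)) z := by
      rintro z ⟨u, u0, u1, u2, δ, hz⟩
      refine ⟨u, u0, u1, u2, fun i => δ (e i), ?_⟩
      rw [hz]
      congr 1
      unfold mo
      exact (Equiv.prod_comp e fun o => fam b' X' y' o ^ δ o).symm
    refine ⟨Set.range (fam b' X' y'), s + 1, fun i => fam b' X' y' (e i), ⟨?_, ?_, ?_⟩, ?_⟩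
    · exact Set.finite_range _
    · rw [hPP]
      have h1 : AlgebraicIndependent k (fun i => fam b' X' y' (e i)) :=
        ((inj_iff b' X' y').1 S'.al).comp e e.injective
      have h2 := regP_alg v.valuationSubring (k := k) (fun c => vk_le hk c) (s + 1)
        (fun i => fam b' X' y' (e i)) (fun i => hS' (fam_mem_AC b' _)) h1
      rw [hrange] at h2
      exact h2
    · -- the denominator
      have h1 : ∀ o, ∃ N : ℕ, β ^ N * fam b' X' y' o ∈ A := by
        rintro (_ | j)
        · exact hyβ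
        · exact hXβ _
      choose M hM using h1
      have h2 : ∀ o, β ^ (∑ o, M o) * fam b' X' y' o ∈ A := by
        intro o
        have h3 : M o ≤ ∑ o, M o :=
          Finset.single_le_sum (f := M) (fun _ _ => Nat.zero_le _) (Finset.mem_univ o)
        obtain ⟨q, hq⟩ := Nat.exists_eq_add_of_le h3
        rw [hq, pow_add, mul_comm (β ^ M o), mul_assoc]
        exact mul_mem (pow_mem hβ _) (hM o)
      refine ⟨β ^ (∑ o, M o), pow_mem hβ _, ?_, ?_, fun i => h2 _⟩
      · rw [hPP]
        apply hPM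
        have h3 := (hch β (Finset.mem_insert_self _ _)).1
        have h4 : ∀ o, fam b' X' y' o ≠ 0 := ((inj_iff b' X' y').1 S'.al).ne_zero
        generalize (∑ o, M o) = n
        induction n with
        | zero => rw [pow_zero]; exact PMon.one
        | succ n ihn => rw [pow_succ]; exact ihn.mul h4 h3
      · rintro _ ⟨o, rfl⟩
        exact h2 o
    · intro g hg
      rw [hPP]
      have h1 := hch g (Finset.mem_insert_of_mem (Finset.mem_union_left _
        (hG.mem_toFinset.2 hg)))
      exact ⟨hPM _ h1.1, h1.2⟩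

end su

end Pool.Agent.H893
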