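import Pool.Agent.H893.D2
import Pool.Agent.H893.D3
import Pool.Agent.H893.SU

/-!
# The initial hypersurface
-/

set_option autoImplicit false
set_option linter.unusedVariables false
set_option linter.unusedSectionVars false

universe u

namespace Pool.Agent.H893

open Polynomial
open scoped NNReal

section coords

variable {K : Type u} [Field K] {v : Valuation K ℝ≥0} {r : ℕ}

/-- The exponents of the monomials. -/
noncomputable def omF (a : Fin r → ℝ) : (Fin r → ℤ) →+ ℝ where
  toFun m := ∑ i, (m i : ℝ) * a i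
  map_zero' := by simp
  map_add' := by
    intro m n
    simp only [Pi.add_apply, Int.cast_add, add_mul, Finset.sum_add_distrib]

lemma omF_apply (a : Fin r → ℝ) (m : Fin r → ℤ) : omF a m = ∑ i, (m i : ℝ) * a i := rfl

lemma ex_sum {ι : Type*} (s : Finset ι) (c : ι → ℝ) : ex (∑ i ∈ s, c i) = ∏ i ∈ s, ex (c i) := by
  classical
  induction s using Finset.induction_on with
  | empty => rw [Finset.sum_empty, Finset.prod_empty, ex_zero]
  | insert a s ha ih => rw [Finset.sum_insert ha, Finset.prod_insert ha, ex_add, ih]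

lemma ex_omF (a : Fin r → ℝ) (m : Fin r → ℤ) : ex (omF a m) = ∏ i, ex (a i) ^ m i := by
  rw [omF_apply, ex_sum]
  exact Finset.prod_congr rfl fun i _ => ex_zmul _ _

/-- The monomials. -/
noncomputable def Xr (x : Fin r → Kˣ) : Multiplicative (Fin r → ℤ) →* Kˣ where
  toFun m := ∏ i, x i ^ (m.toAdd i)
  map_one' := by simp
  map_mul' := by
    intro m n
    simp only [toAdd_mul, Pi.add_apply, zpow_add, Finset.prod_mul_distrib]

lemma Xr_apply (x : Fin r → Kˣ) (m : Fin r → ℤ) :
    (Xr x (.ofAdd m) : K) = ∏ i, (x i : K) ^ m i := by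
  change ((∏ i, x i ^ m i : Kˣ) : K) = _
  rw [Units.coe_prod]
  exact Finset.prod_congr rfl fun i _ => Units.val_zpow_eq_zpow_val _ _

lemma v_Xr {x : Fin r → Kˣ} {a : Fin r → ℝ} (hx : ∀ i, v (x i : K) = ex (a i))
    (m : Fin r → ℤ) : v (Xr x (.ofAdd m) : K) = ex (omF a m) := by
  rw [Xr_apply, map_prod, ex_omF]
  exact Finset.prod_congr rfl fun i _ => by rw [map_zpow₀, hx]

end coords

section ratio

variable {k K L : Type*} [Field k] [Field K] [Algebra k K] [AddCommGroup L]
  [Module.Free ℤ L] [Module.Finite ℤ L]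

lemma mem_FE_ratio {X : Multiplicative L →* Kˣ} {y z : K} (hz : z ∈ FE k X y) :
    ∃ g h : AddMonoidAlgebra k (L × ℕ), ev k X y h ≠ 0 ∧ z * ev k X y h = ev k X y g := by
  have hle : Algebra.adjoin k (Set.range (fam (Module.finBasis ℤ L) X y)) ≤
      (ev k X y).range := by
    rw [Algebra.adjoin_le_iff]
    rintro _ ⟨_ | j, rfl⟩
    · refine ⟨AddMonoidAlgebra.single (0, 1) 1, ?_⟩
      change ev k _ _ _ = y
      rw [ev_single]
      simp
    · refine ⟨AddMonoidAlgebra.single (Module.finBasis ℤ L j, 0) 1, ?_⟩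
      change ev k _ _ _ = (X (.ofAdd (Module.finBasis ℤ L j)) : K)
      rw [ev_single]
      simp
  obtain ⟨r, hr, s, hs, rfl⟩ := IntermediateField.mem_adjoin_iff_div.1 hz
  obtain ⟨g, rfl⟩ := hle hr
  obtain ⟨h, rfl⟩ := hle hs
  by_cases h0 : ev k X y h = 0
  · refine ⟨0, 1, ?_, ?_⟩
    · rw [map_one]
      exact one_ne_zero
    · change ev k X y g / ev k X y h * _ = _
      rw [h0, div_zero, zero_mul, map_zero]
  · exact ⟨g, h, h0, div_mul_cancel₀ _ h0⟩

end ratio

section part0

variable {k K : Type u} [Field k] [Field K] [Algebra k K] {v : Valuation K ℝ≥0}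

theorem part0 [Algebra.EssFiniteType k K] (p : ℕ) [Fact p.Prime] [CharP k p]
    (hk : ∀ c : k, c ≠ 0 → v (algebraMap k K c) = 1)
    (hres : ∀ x : K, v x ≤ 1 → ∃ c : k, v (x - algebraMap k K c) < 1)
    {r : ℕ} (hr : 0 < r) (htr : Algebra.trdeg k K = ((r + 1 : ℕ) : Cardinal))
    (H : HypH k (Fin r → ℤ) v) (x : Fin r → K) (hx0 : ∀ i, x i ≠ 0)
    (hind : ∀ m : Fin r → ℤ, ∏ i, v (x i) ^ m i = 1 → m = 0)
    (hrr : ∀ z : K, z ≠ 0 → ∃ n : ℕ, n ≠ 0 ∧ ∃ m : Fin r → ℤ, v z ^ n = ∏ i, v (x i) ^ m i) :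
    ∃ (d : ℕ) (ω : (Fin r → ℤ) →+ ℝ) (X : Multiplicative (Fin r → ℤ) →* (DualNumber K)ˣ)
      (y z : DualNumber K) (f : (AddMonoidAlgebra k ((Fin r → ℤ) × ℕ))[X]),
      Sys k v d ω X y z f := by
  classical
  have hCK : CharP K p := charP_of_injective_algebraMap (algebraMap k K).injective p
  have htr' : Algebra.trdeg k K = ((Module.finrank ℤ (Fin r → ℤ) + 1 : ℕ) : Cardinal) := by
    rw [Module.finrank_fin_fun]
    exact htr
  -- a small element
  obtain ⟨π, hπ0, hπ⟩ : ∃ π : K, π ≠ 0 ∧ v π < 1 := by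
    have h1 : v (x ⟨0, hr⟩) ≠ 1 := by
      intro h
      have h2 := hind (Pi.single ⟨0, hr⟩ 1) (by
        rw [Finset.prod_eq_single ⟨0, hr⟩]
        · rw [Pi.single_eq_same, zpow_one, h]
        · intro j _ hj
          rw [Pi.single_eq_of_ne hj, zpow_zero]
        · intro h; exact absurd (Finset.mem_univ _) h)
      have h3 := congrFun h2 ⟨0, hr⟩
      rw [Pi.single_eq_same] at h3
      exact one_ne_zero h3
    rcases lt_or_gt_of_ne h1 with h2 | h2
    · exact ⟨_, hx0 _, h2⟩
    · refine ⟨(x ⟨0, hr⟩)⁻¹, inv_ne_zero (hx0 _), ?_⟩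
      rw [map_inv₀]
      exact inv_lt_one_of_one_lt₀ h2
  -- the coordinates
  obtain ⟨w, hw1, hw2⟩ := exists_indep (v := v) p (n := r + 1) htr hπ0 hπ (r + 1) le_rfl
    (Fin.snoc x 1) (by
      intro i
      refine Fin.lastCases ?_ (fun j => ?_) i
      · rw [Fin.snoc_last]
        exact one_ne_zero
      · rw [Fin.snoc_castSucc]
        exact hx0 j)
  have hspan := span_eq_top p hk hres htr w hw2
  have hw0 : ∀ i, w i ≠ 0 := by
    intro i h
    have h1 := hw2.ne_zero i
    rw [h, map_zero] at h1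
    exact h1 rfl
  have hwx : ∀ i : Fin r, v (w i.castSucc) = v (x i) := by
    intro i
    rw [hw1, Fin.snoc_castSucc]
  have hex : ∀ i, ∃ a : ℝ, v (x i) = ex a := fun i =>
    exists_ex ((Valuation.ne_zero_iff _).2 (hx0 i))
  choose a ha using hex
  set X : Multiplicative (Fin r → ℤ) →* Kˣ := Xr fun i => Units.mk0 (w i.castSucc) (hw0 _) with hX
  set ω := omF a with hω
  have hXv : ∀ m, v (X (.ofAdd m) : K) = ex (ω m) := v_Xr fun i => by
    rw [Units.val_mk0, hwx, ha]
  have hexω : ∀ m, ex (ω m) = ∏ i, v (x i) ^ m i := by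
    intro m
    rw [hω, ex_omF]
    exact Finset.prod_congr rfl fun i _ => by rw [ha]
  have inj : Function.Injective ω := by
    rw [injective_iff_map_eq_zero]
    intro m hm
    apply hind
    rw [← hexω, hm, ex_zero]
  obtain ⟨y1, hy1, hyF⟩ := exists_small (v := v) hk hres (w (Fin.last r))
  have hmem : ∀ F : IntermediateField k K, FE k X y1 ≤ F → ∀ t ∈ Set.range w, t ∈ F := by
    rintro F hF _ ⟨i, rfl⟩
    refine Fin.lastCases ?_ (fun j => ?_) i
    · exact (hyF F).2 (hF (y_mem_FE X y1))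
    · have h1 := X_mem_FE (k := k) X y1 (.ofAdd (Pi.single j 1))
      have h2 : (X (.ofAdd (Pi.single j 1)) : K) = w j.castSucc := by
        rw [hX, Xr_apply, Finset.prod_eq_single j]
        · rw [Pi.single_eq_same, zpow_one, Units.val_mk0]
        · intro i _ hi
          rw [Pi.single_eq_of_ne hi, zpow_zero]
        · intro h; exact absurd (Finset.mem_univ _) h
      rw [h2] at h1
      exact hF h1
  have hsep : ∀ F : IntermediateField k K, FE k X y1 ≤ F → Algebra.FormallyUnramified F K :=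
    fun F hF => sep_of_span F (Set.range w) (hmem F hF) (by
      rw [← Set.range_comp]
      exact hspan)
  have hE : ∀ F : IntermediateField k K, Algebra.EssFiniteType F K := fun F =>
    Algebra.EssFiniteType.of_comp k F K
  have al : Function.Injective (ev k X y1) := by
    apply inj_of_alg htr'
    have h1 := hE (FE k X y1)
    have h2 := (Algebra.FormallyUnramified.iff_isSeparable (FE k X y1) K).1 (hsep _ le_rfl)
    infer_instance
  obtain ⟨ψ, c0, η, -, -, hψη, hη, hηω, -⟩ := ready hk H inj hXv al hy1.le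
  set y2 := y1 - evL k X ψ with hy2
  have hFE : FE k X y1 ≤ FE k X y2 := by
    refine FE_le (fun β => X_mem_FE _ _ _) ?_
    have h1 : evL k X ψ ∈ FE k X y2 := by
      have h0 := ev_mem_FE X y2 (inc k (Fin r → ℤ) ψ)
      rwa [ev_inc] at h0
    have h2 := add_mem (y_mem_FE (k := k) X y2) h1
    rwa [hy2, sub_add_cancel] at h2
  have S2 : ES k v ω X y2 := by
    refine ⟨inj, hXv, ?_, inj_mono htr' hFE al, ?_⟩
    · rw [hψη]
      exact ex_lt_one.2 hη
    · intro z hz
      obtain ⟨n, hn, m, hm⟩ := hrr z hz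
      exact ⟨n, hn, m, by rw [hm, hexω]⟩
  -- the primitive element
  have h1E := hE (FE k X y2)
  have h1U := hsep (FE k X y2) hFE
  have h1S := (Algebra.FormallyUnramified.iff_isSeparable (FE k X y2) K).1 h1U
  have h1F : Module.Finite (FE k X y2) K :=
    Algebra.FormallyUnramified.finite_of_free (FE k X y2) K
  obtain ⟨z0, hz0⟩ := Field.exists_primitive_element (FE k X y2) K
  obtain ⟨z, hz, hzF⟩ := exists_small (v := v) hk hres z0
  have gen : ∀ F : IntermediateField k K, FE k X y2 ≤ F → z ∈ F → F = ⊤ := by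
    intro F hF hzmem
    have h1 : IntermediateField.adjoin (FE k X y2) {z0} ≤
        IntermediateField.extendScalars hF := by
      rw [IntermediateField.adjoin_le_iff]
      rintro _ rfl
      exact (hzF F).2 hzmem
    rw [hz0] at h1
    rw [eq_top_iff]
    intro t _
    exact h1 (trivial : t ∈ (⊤ : IntermediateField (FE k X y2) K))
  set P := minpoly (FE k X y2) z with hP
  let c : ℕ → K := fun j => algebraMap (FE k X y2) K (P.coeff j)
  have hrep : ∀ j, ∃ g h : AddMonoidAlgebra k ((Fin r → ℤ) × ℕ), ev k X y2 h ≠ 0 ∧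
      c j * ev k X y2 h = ev k X y2 g := fun j => mem_FE_ratio (P.coeff j).2
  choose g h hh hgh using hrep
  let J : Finset ℕ := (Finset.range (P.natDegree + 1)).filter fun j => c j ≠ 0
  let T : Finset K := J.biUnion fun j => {ev k X y2 (g j), ev k X y2 (h j)}
  have hT : ∀ t ∈ T, ∃ N, GM k ω X y2 N t := by
    intro t ht
    obtain ⟨j, hj, h1⟩ := Finset.mem_biUnion.1 ht
    have h2 : ∃ g : AddMonoidAlgebra k ((Fin r → ℤ) × ℕ), g ≠ 0 ∧ t = ev k X y2 g := by
      rcases Finset.mem_insert.1 h1 with h2 | h2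
      · refine ⟨g j, ?_, h2⟩
        intro h3
        have h4 := hgh j
        rw [h3, map_zero] at h4
        exact (mul_ne_zero (Finset.mem_filter.1 hj).2 (hh j)) h4
      · refine ⟨h j, ?_, Finset.mem_singleton.1 h2⟩
        intro h3
        apply hh j
        rw [h3, map_zero]
    obtain ⟨g, hg, rfl⟩ := h2
    obtain ⟨N, hN⟩ := exists_ordle ω hg
    exact ⟨N, GM.of_ev S2.inj hN⟩
  choose! Nf hNf using hT
  have hTN : ∀ t ∈ T, GM k ω X y2 (∑ t ∈ T, Nf t) t := fun t ht =>
    (hNf t ht).mono (Finset.single_le_sum (f := Nf) (fun _ _ => Nat.zero_le _) ht)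
  obtain ⟨ω', X', y', S', hFE', hT'⟩ := es_iter hk H htr' T _ ω X y2 η S2 hη hψη hηω hTN
  have hcJ : ∀ j, c j ≠ 0 → j ∈ J := by
    intro j hj
    refine Finset.mem_filter.2 ⟨?_, hj⟩
    rw [Finset.mem_range]
    by_contra h1
    apply hj
    change algebraMap (FE k X y2) K (P.coeff j) = 0
    rw [coeff_eq_zero_of_natDegree_lt (by omega), map_zero]
  have hc : ∀ j, c j ≠ 0 → GM k ω' X' y' 0 (c j) := by
    intro j hj
    refine GM.mo S' (ev k X y2 (g j)) (ev k X y2 (h j)) (hT' _ ?_) (hT' _ ?_) (hgh j)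
    · exact Finset.mem_biUnion.2 ⟨j, hcJ j hj, Finset.mem_insert_self _ _⟩
    · exact Finset.mem_biUnion.2 ⟨j, hcJ j hj,
        Finset.mem_insert_of_mem (Finset.mem_singleton_self _)⟩
  have hsum0 : ∑ j ∈ Finset.range (P.natDegree + 1), c j * z ^ j = 0 := by
    rw [← minpoly.aeval (FE k X y2) z, aeval_eq_sum_range]
    exact Finset.sum_congr rfl fun j _ => (Algebra.smul_def _ _).symm
  have hsum1 : ∑ j ∈ Finset.range (P.natDegree + 1), c j * (j * z ^ (j - 1)) ≠ 0 := by
    have h1 : P.Separable := Algebra.IsSeparable.isSeparable (FE k X y2) z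
    have h2 := h1.aeval_derivative_ne_zero (x := z) (minpoly.aeval _ _)
    have h3 : derivative P = ∑ j ∈ Finset.range (P.natDegree + 1),
        C (P.coeff j * j) * Polynomial.X ^ (j - 1) := by
      conv_lhs => rw [P.as_sum_range_C_mul_X_pow]
      rw [derivative_sum]
      exact Finset.sum_congr rfl fun j _ => derivative_C_mul_X_pow _ _
    rw [h3, map_sum] at h2
    have h4 : ∑ j ∈ Finset.range (P.natDegree + 1), c j * (j * z ^ (j - 1)) =
        ∑ j ∈ Finset.range (P.natDegree + 1),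
          aeval z (C (P.coeff j * j) * Polynomial.X ^ (j - 1)) := by
      refine Finset.sum_congr rfl fun j _ => ?_
      rw [map_mul, aeval_C, map_mul, map_natCast, map_pow, aeval_X, mul_assoc]
    rw [h4]
    exact h2
  obtain ⟨d, f, hf⟩ := sys_of_gm S' hz (fun F h1 h2 h3 =>
    gen F (hFE'.trans (FE_le h1 h2)) h3) (P.natDegree + 1) c hc hsum0 hsum1
  exact ⟨d, ω', _, _, _, f, hf⟩

end part0

end Pool.Agent.H893
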