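import Pool.Agent.H893.VG

/-!
# Approximation
-/

set_option autoImplicit false
set_option linter.unusedVariables false
set_option linter.unusedSectionVars false

namespace Pool.Agent.H893

open Polynomial
open scoped NNReal

section laurent

variable {k K L : Type*} [Field k] [Field K] [Algebra k K] [AddCommGroup L]
  {v : Valuation K ℝ≥0}

/-- The field of fractions of the Laurent polynomials. -/
noncomputable def E0 (k : Type*) {K L : Type*} [Field k] [Field K] [Algebra k K] [AddCommGroup L]
    (X : Multiplicative L →* Kˣ) : IntermediateField k K :=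
  IntermediateField.adjoin k (Set.range fun β => (X β : K))

lemma evL_mem_E0 (X : Multiplicative L →* Kˣ) (g : AddMonoidAlgebra k L) :
    evL k X g ∈ E0 k X := by
  induction g using AddMonoidAlgebra.induction_linear with
  | zero => rw [map_zero]; exact zero_mem _
  | add f g hf hg => rw [map_add]; exact add_mem hf hg
  | single β c =>
    rw [evL_single]
    exact mul_mem ((E0 k X).algebraMap_mem c) (IntermediateField.subset_adjoin _ _ ⟨_, rfl⟩)

lemma mem_E0 {X : Multiplicative L →* Kˣ} {x : K} (hx : x ∈ E0 k X) :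
    ∃ A B : AddMonoidAlgebra k L, x = evL k X A / evL k X B := by
  have hle : Algebra.adjoin k (Set.range fun β => (X β : K)) ≤ (evL k X).range := by
    rw [Algebra.adjoin_le_iff]
    rintro _ ⟨β, rfl⟩
    refine ⟨AddMonoidAlgebra.single β.toAdd 1, ?_⟩
    change evL k X _ = _
    rw [evL_single]
    simp
  obtain ⟨r, hr, s, hs, rfl⟩ := IntermediateField.mem_adjoin_iff_div.1 hx
  obtain ⟨A, rfl⟩ := hle hr
  obtain ⟨B, rfl⟩ := hle hs
  exact ⟨A, B, rfl⟩

lemma v_E0 (hk : ∀ c : k, c ≠ 0 → v (algebraMap k K c) = 1) {ω : L →+ ℝ}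
    (hω : Function.Injective ω)
    {X : Multiplicative L →* Kˣ} (hX : ∀ β, v (X (.ofAdd β) : K) = ex (ω β)) {x : K}
    (hx : x ∈ E0 k X) (h0 : x ≠ 0) : ∃ a, v x = ex (ω a) := by
  obtain ⟨A, B, rfl⟩ := mem_E0 hx
  have hA : A ≠ 0 := by
    rintro rfl
    rw [map_zero, zero_div] at h0
    exact h0 rfl
  have hB : B ≠ 0 := by
    rintro rfl
    rw [map_zero, div_zero] at h0
    exact h0 rfl
  obtain ⟨a, -, -, ha⟩ := v_evL hk hω hX hA
  obtain ⟨b, -, -, hb⟩ := v_evL hk hω hX hB
  refine ⟨a - b, ?_⟩
  rw [map_div₀, ha, hb, map_sub, sub_eq_add_neg, ex_add, ex_neg, div_eq_mul_inv]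

/-- Common denominators. -/
lemma exists_common {X : Multiplicative L →* Kˣ} (hinj : Function.Injective (evL k X)) (n : ℕ)
    (c : ℕ → E0 k X) : ∃ (b : AddMonoidAlgebra k L) (A : ℕ → AddMonoidAlgebra k L),
      evL k X b ≠ 0 ∧ ∀ i < n, evL k X (A i) = evL k X b * (c i : K) := by
  induction n with
  | zero => exact ⟨1, 0, by rw [map_one]; exact one_ne_zero, fun i hi => absurd hi (by omega)⟩
  | succ n ih =>
    obtain ⟨b, A, hb, hA⟩ := ih
    by_cases h0 : (c n : K) = 0
    · refine ⟨b, fun i => if i = n then 0 else A i, hb, fun i hi => ?_⟩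
      rcases Nat.lt_succ_iff_lt_or_eq.1 hi with h | h
      · simp only [if_neg h.ne]
        exact hA i h
      · subst h
        simp [h0]
    · obtain ⟨A', B', h1⟩ := mem_E0 (c n).2
      have hB' : evL k X B' ≠ 0 := by
        intro h2
        rw [h2, div_zero] at h1
        exact h0 h1
      refine ⟨b * B', fun i => if i = n then b * A' else A i * B', ?_, fun i hi => ?_⟩
      · rw [map_mul]
        exact mul_ne_zero hb hB'
      · rcases Nat.lt_succ_iff_lt_or_eq.1 hi with h | h
        · simp only [if_neg h.ne]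
          rw [map_mul, map_mul, hA i h]
          ring
        · subst h
          simp only [if_true]
          rw [map_mul, map_mul, h1]
          field_simp

end laurent

section dvd

/-- Polynomials divide additive polynomials. -/
lemma exists_additive {E : Type*} [Field E] (p : ℕ) (P : E[X]) (hP : P ≠ 0) :
    ∃ c : ℕ → E, (∃ i < P.natDegree + 1, c i ≠ 0) ∧
      P ∣ ∑ i ∈ Finset.range (P.natDegree + 1), C (c i) * X ^ p ^ i := by
  classical
  let pb := AdjoinRoot.powerBasis hP
  have : Module.Finite E (AdjoinRoot P) := pb.finite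
  let T : (Fin (P.natDegree + 1) → E) →ₗ[E] AdjoinRoot P :=
    { toFun := fun c => ∑ i, c i • (AdjoinRoot.mk P (X ^ p ^ (i : ℕ)))
      map_add' := by
        intro a b
        simp [add_smul, Finset.sum_add_distrib]
      map_smul' := by
        intro a b
        simp [mul_smul, Finset.smul_sum] }
  have h1 : LinearMap.ker T ≠ ⊥ := by
    apply LinearMap.ker_ne_bot_of_finrank_lt
    rw [pb.finrank, Module.finrank_fin_fun, AdjoinRoot.powerBasis_dim]
    exact Nat.lt_succ_self _
  obtain ⟨c, hc, hc0⟩ := Submodule.exists_mem_ne_zero_of_ne_bot h1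
  refine ⟨fun i => if h : i < P.natDegree + 1 then c ⟨i, h⟩ else 0, ?_, ?_⟩
  · by_contra hcon
    push Not at hcon
    apply hc0
    funext i
    have h2 := hcon i i.2
    rw [dif_pos i.2] at h2
    exact h2
  · rw [← AdjoinRoot.mk_eq_zero, map_sum, Finset.sum_range]
    rw [LinearMap.mem_ker] at hc
    rw [← hc]
    change _ = ∑ i, c i • (AdjoinRoot.mk P (X ^ p ^ (i : ℕ)))
    refine Finset.sum_congr rfl fun i _ => ?_
    beta_reduce
    rw [dif_pos i.2, ← smul_eq_C_mul, AdjoinRoot.smul_mk]

end dvd

section main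

variable {k K L : Type*} [Field k] [Field K] [Algebra k K] [AddCommGroup L]
  [Module.Free ℤ L] [Module.Finite ℤ L] {v : Valuation K ℝ≥0}

theorem hypH [Algebra.EssFiniteType k K] (p : ℕ) [Fact p.Prime] [CharP k p]
    (hk : ∀ c : k, c ≠ 0 → v (algebraMap k K c) = 1)
    (hres : ∀ x : K, v x ≤ 1 → ∃ c : k, v (x - algebraMap k K c) < 1)
    (htr : Algebra.trdeg k K = ((Module.finrank ℤ L + 1 : ℕ) : Cardinal))
    (hNF : ¬ (valGroup v).FG) : HypH k L v := by
  classical
  intro ω X y hω hX al
  by_contra hcon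
  push Not at hcon
  have hp : p.Prime := Fact.out
  have : CharP K p := charP_of_injective_algebraMap (algebraMap k K).injective p
  have hinjL : Function.Injective (evL k X) := by
    intro a b h
    have h1 : ev k X y (inc k L a) = ev k X y (inc k L b) := by rw [ev_inc, ev_inc, h]
    have h2 := al h1
    ext β
    have h3 := congrArg (fun g => AddMonoidAlgebra.coeff g (β, 0)) h2
    simpa [inc_coeff] using h3
  -- the greedy expansion
  have hstep : ∀ φ : AddMonoidAlgebra k L, ∃ (β : L) (c : k), v (y - evL k X φ) = ex (ω β) ∧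
      v (y - evL k X (φ + AddMonoidAlgebra.single β c)) < ex (ω β) := by
    intro φ
    obtain ⟨β, hβ⟩ := hcon φ
    have h1 : v ((y - evL k X φ) * (X (.ofAdd (-β)) : K)) = 1 := by
      rw [map_mul, hβ, hX, map_neg, ← ex_add, add_neg_cancel, ex_zero]
    obtain ⟨c, hc⟩ := hres _ h1.le
    refine ⟨β, c, hβ, ?_⟩
    have h2 : y - evL k X (φ + AddMonoidAlgebra.single β c) =
        ((y - evL k X φ) * (X (.ofAdd (-β)) : K) - algebraMap k K c) * (X (.ofAdd β) : K) := by
      rw [map_add, evL_single, sub_mul, mul_assoc, ← Units.val_mul, ← map_mul, ← ofAdd_add,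
        neg_add_cancel, ofAdd_zero, map_one, Units.val_one, mul_one]
      ring
    rw [h2, map_mul, hX]
    calc v ((y - evL k X φ) * (X (.ofAdd (-β)) : K) - algebraMap k K c) * ex (ω β)
        < 1 * ex (ω β) := mul_lt_mul_of_pos_right hc (ex_pos _)
      _ = ex (ω β) := one_mul _
  choose bt ct h1 h2 using hstep
  let φs : ℕ → AddMonoidAlgebra k L := fun n =>
    Nat.rec 0 (fun _ φ => φ + AddMonoidAlgebra.single (bt φ) (ct φ)) n
  have hφ0 : φs 0 = 0 := rfl
  have hφs : ∀ n, φs (n + 1) = φs n + AddMonoidAlgebra.single (bt (φs n)) (ct (φs n)) :=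
    fun n => rfl
  let β : ℕ → L := fun n => bt (φs n)
  have hβv : ∀ n, v (y - evL k X (φs n)) = ex (ω (β n)) := fun n => h1 _
  have hγ : StrictMono fun n => ω (β n) := by
    refine strictMono_nat_of_lt_succ fun n => ?_
    rw [← ex_lt, ← hβv (n + 1), hφs]
    exact h2 (φs n)
  have hφsum : ∀ n, φs n = ∑ l ∈ Finset.range n, AddMonoidAlgebra.single (β l) (ct (φs l)) := by
    intro n
    induction n with
    | zero => rfl
    | succ n ih => rw [hφs, Finset.sum_range_succ, ← ih]
  let a : ℕ → E0 k X := fun n => ⟨evL k X (φs n), evL_mem_E0 X _⟩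
  have hya : ∀ j, v (y - algebraMap (E0 k X) K (a j)) = ex (ω (β j)) := fun j => hβv j
  -- additive polynomials
  have hadd : ∀ P : (E0 k X)[X], P ≠ 0 → ∃ A : (E0 k X)[X], A ≠ 0 ∧ P ∣ A ∧ EC v a A := by
    intro P hP
    obtain ⟨c, ⟨i1, hi1, hci1⟩, hdvd⟩ := exists_additive p P hP
    set n := P.natDegree + 1 with hn
    obtain ⟨b, A, hb, hA⟩ := exists_common hinjL n c
    let bE : E0 k X := ⟨evL k X b, evL_mem_E0 X _⟩
    let AE : ℕ → E0 k X := fun i => ⟨evL k X (A i), evL_mem_E0 X _⟩
    have hAE : ∀ i < n, AE i = bE * c i := fun i hi => Subtype.ext (hA i hi)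
    have hbE : bE ≠ 0 := fun h => hb (congrArg Subtype.val h)
    let G : (E0 k X)[X] := ∑ i ∈ Finset.range n, C (AE i) * Polynomial.X ^ p ^ i
    have hG : G = C bE * ∑ i ∈ Finset.range n, C (c i) * Polynomial.X ^ p ^ i := by
      rw [Finset.mul_sum]
      refine Finset.sum_congr rfl fun i hi => ?_
      rw [hAE i (Finset.mem_range.1 hi), C_mul]
      ring
    have hpinj : Function.Injective fun i : ℕ => p ^ i := Nat.pow_right_injective hp.two_le
    have hGc : ∀ i < n, G.coeff (p ^ i) = AE i := by
      intro i hi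
      change (∑ i ∈ Finset.range n, C (AE i) * Polynomial.X ^ p ^ i).coeff (p ^ i) = _
      rw [finsetSum_coeff, Finset.sum_eq_single_of_mem i (Finset.mem_range.2 hi)]
      · rw [coeff_C_mul, coeff_X_pow_self, mul_one]
      · intro j _ hj
        rw [coeff_C_mul, coeff_X_pow, if_neg, mul_zero]
        intro h
        exact hj (hpinj h.symm)
    have hG0 : G ≠ 0 := by
      intro h
      have h3 := hGc i1 hi1
      rw [h, coeff_zero, hAE i1 hi1] at h3
      exact mul_ne_zero hbE hci1 h3.symm
    have hAi1 : A i1 ≠ 0 := by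
      intro h
      have h3 := hA i1 hi1
      rw [h, map_zero] at h3
      have h4 : (c i1 : K) ≠ 0 := fun h5 => hci1 (Subtype.ext h5)
      exact mul_ne_zero hb h4 h3.symm
    refine ⟨G, hG0, hG ▸ hdvd.mul_left _, ?_⟩
    -- the values
    have hGeval : ∀ x : K, aeval x G = ∑ i ∈ Finset.range n, evL k X (A i) * x ^ p ^ i := by
      intro x
      change aeval x (∑ i ∈ Finset.range n, C (AE i) * Polynomial.X ^ p ^ i) = _
      rw [map_sum]
      refine Finset.sum_congr rfl fun i _ => ?_
      rw [map_mul, map_pow, aeval_X, aeval_C]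
      rfl
    have hGev : ∀ j, algebraMap (E0 k X) K (G.eval (a j)) = evL k X (Ad p A n (φs j)) := by
      intro j
      rw [Ad_apply, map_sum]
      change algebraMap (E0 k X) K ((∑ i ∈ Finset.range n, C (AE i) *
        Polynomial.X ^ p ^ i).eval (a j)) = _
      rw [eval_finsetSum, map_sum]
      refine Finset.sum_congr rfl fun i _ => ?_
      rw [eval_mul, eval_pow, eval_X, eval_C, map_mul, map_mul, map_pow, map_pow]
      rfl
    have hTne : (TT A n).Nonempty := by
      obtain ⟨γ, hγ'⟩ : ∃ γ, (A i1).coeff γ ≠ 0 := by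
        by_contra hcon2
        push Not at hcon2
        apply hAi1
        ext γ
        rw [hcon2 γ]
        rfl
      exact ⟨(i1, γ), mem_TT.2 ⟨hi1, hγ'⟩⟩
    obtain ⟨t0, ht0, J0, hJ0⟩ := exists_dom hγ (TT A n) hTne (fun t => (p : ℝ) ^ t.1)
      (fun t => ω t.2) (by
        intro t _ t' _ h3 h4
        apply Prod.ext
        · have h5 : p ^ t.1 = p ^ t'.1 := by exact_mod_cast h3
          exact hpinj h5
        · exact hω h4)
    have hD : ∀ j, J0 ≤ j → v (aeval y G - algebraMap (E0 k X) K (G.eval (a j))) =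
        ex (ω t0.2 + (p ^ t0.1 : ℕ) * ω (β j)) := by
      intro j hj
      have h3 : aeval y G - algebraMap (E0 k X) K (G.eval (a j)) =
          ∑ t ∈ TT A n, algebraMap k K ((A t.1).coeff t.2) * (X (.ofAdd t.2) : K) *
            (y - evL k X (φs j)) ^ p ^ t.1 := by
        have h4 : ∀ i, evL k X (A i) = ∑ γ ∈ (A i).coeff.support,
            algebraMap k K ((A i).coeff γ) * (X (.ofAdd γ) : K) := by
          intro i
          conv_lhs => rw [sum_single (A i)]
          rw [map_sum]
          exact Finset.sum_congr rfl fun γ _ => evL_single _ _ _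
        have h5 : aeval y G - algebraMap (E0 k X) K (G.eval (a j)) =
            ∑ i ∈ Finset.range n, evL k X (A i) * (y - evL k X (φs j)) ^ p ^ i := by
          rw [hGeval, hGev, Ad_apply, map_sum (evL k X), ← Finset.sum_sub_distrib]
          refine Finset.sum_congr rfl fun i _ => ?_
          rw [sub_pow_char_pow, map_mul, map_pow, mul_sub]
        rw [h5, TT, Finset.sum_biUnion]
        · refine Finset.sum_congr rfl fun i _ => ?_
          rw [Finset.sum_image (by
            intro γ _ γ' _ h6
            exact congrArg Prod.snd h6), h4, Finset.sum_mul]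
        · intro i _ i' _ hii
          rw [Function.onFun, Finset.disjoint_left]
          intro t ht ht'
          obtain ⟨γ, -, rfl⟩ := Finset.mem_image.1 ht
          obtain ⟨γ', -, h6⟩ := Finset.mem_image.1 ht'
          exact hii (congrArg Prod.fst h6).symm
      have hterm : ∀ t ∈ TT A n, v (algebraMap k K ((A t.1).coeff t.2) *
          (X (.ofAdd t.2) : K) * (y - evL k X (φs j)) ^ p ^ t.1) =
          ex (ω t.2 + (p : ℝ) ^ t.1 * ω (β j)) := by
        intro t ht
        rw [map_mul, map_mul, map_pow, hk _ (mem_TT.1 ht).2, one_mul, hX, hβv, ex_add]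
        congr 1
        rw [← ex_nmul]
        push_cast
        rfl
      rw [h3, v_sum_dom ht0, hterm t0 ht0]
      · push_cast
        rfl
      · intro t ht hne
        rw [hterm t ht, hterm t0 ht0, ex_lt]
        exact hJ0 j hj t ht hne
      · rw [hterm t0 ht0]
        exact ex_ne _
    rcases DI hγ (Nat.one_le_iff_ne_zero.2 (pow_ne_zero t0.1 hp.ne_zero)) hD with
      ⟨J', hJ', -⟩ | hB
    · exact ⟨J', fun j hj => by rw [hJ' j hj, hJ' J' le_rfl]⟩
    exfalso
    by_cases hbd : ∃ Cb : ℝ, ∀ j, ω (β j) ≤ Cb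
    · obtain ⟨Cb, hCb⟩ := hbd
      refine comb hω p hp.two_le (TT A n) hγ hCb (n0 := t0.1) (γ0 := t0.2) (J0 := J0) ?_ ?_
      · intro j hj t ht
        by_cases htt : t = t0
        · rw [htt]
        · exact (hJ0 j hj t ht htt).le
      · intro j hj
        have h3 := (hB j hj).1
        rw [hGev] at h3
        have h4 : Ad p A n (φs j) ≠ 0 := by
          intro h5
          rw [h5, map_zero, map_zero] at h3
          exact ex_ne _ h3.symm
        obtain ⟨e, he1, -, he2⟩ := v_evL hk hω hX h4
        rw [h3, ex_inj] at he2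
        have h5 : e = t0.2 + (p ^ t0.1) • β j := by
          apply hω
          rw [← he2, map_add, map_nsmul, nsmul_eq_mul]
        rw [hφsum, map_sum, AddMonoidAlgebra.coeff_sum, Finsupp.finsetSum_apply] at he1
        obtain ⟨l, hl, h6⟩ := Finset.exists_ne_zero_of_sum_ne_zero he1
        obtain ⟨t, ht, h7⟩ := Ad_single p A n h6
        exact ⟨l, Finset.mem_range.1 hl, t, ht, by rw [← h7, h5]⟩
    · push Not at hbd
      -- the unbounded case
      have hy0 : aeval y G = 0 := by
        by_contra h3
        obtain ⟨κ, hκ⟩ := exists_ex (x := v (aeval y G)) ((Valuation.ne_zero_iff _).2 h3)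
        have hpp : (0 : ℝ) < (p ^ t0.1 : ℕ) := by exact_mod_cast pow_pos hp.pos _
        obtain ⟨j0, hj0⟩ := hbd ((κ - ω t0.2) / (p ^ t0.1 : ℕ))
        have h4 := (hB (max J0 j0) (le_max_left _ _)).2
        rw [hκ, ex_le] at h4
        have h5 : ω (β j0) ≤ ω (β (max J0 j0)) := hγ.monotone (le_max_right _ _)
        rw [div_lt_iff₀ hpp] at hj0
        nlinarith
      rw [hGeval] at hy0
      have h3 : ev k X y (∑ i ∈ Finset.range n, inc k L (A i) * Yv k L ^ p ^ i) = 0 := by
        rw [map_sum, ← hy0]
        refine Finset.sum_congr rfl fun i _ => ?_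
        rw [map_mul, map_pow, ev_inc, Yv, ev_single]
        simp
      have h4 := al (h3.trans (map_zero (ev k X y)).symm)
      obtain ⟨γ, hγ'⟩ : ∃ γ, (A i1).coeff γ ≠ 0 := by
        by_contra hcon2
        push Not at hcon2
        apply hAi1
        ext γ
        rw [hcon2 γ]
        rfl
      have h5 := congrArg (fun g => AddMonoidAlgebra.coeff g (γ, p ^ i1)) h4
      simp only [AddMonoidAlgebra.coeff_sum, Finsupp.finsetSum_apply] at h5
      have hshift : ∀ (g : AddMonoidAlgebra k L) (m : ℕ) (γ : L) (m' : ℕ),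
          (inc k L g * Yv k L ^ m).coeff (γ, m') = if m' = m then g.coeff γ else 0 := by
        intro g m γ m'
        induction g using AddMonoidAlgebra.induction_linear with
        | zero => simp
        | add f g hf hg =>
          rw [map_add, add_mul, AddMonoidAlgebra.coeff_add, AddMonoidAlgebra.coeff_add,
            Finsupp.add_apply, Finsupp.add_apply, hf, hg]
          split_ifs <;> simp
        | single b' c' =>
          rw [inc_single, Yv, AddMonoidAlgebra.single_pow, AddMonoidAlgebra.single_mul_single,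
            AddMonoidAlgebra.coeff_single, AddMonoidAlgebra.coeff_single, Finsupp.single_apply,
            Finsupp.single_apply]
          simp only [Prod.smul_mk, smul_zero, smul_eq_mul, mul_one, Prod.mk_add_mk, add_zero,
            zero_add, one_pow, Prod.mk.injEq]
          by_cases h6 : b' = γ
          · by_cases h7 : m' = m
            · rw [if_pos ⟨h6, h7.symm⟩, if_pos h7, if_pos h6]
            · rw [if_neg, if_neg h7]
              rintro ⟨-, h8⟩
              exact h7 h8.symm
          · rw [if_neg, if_neg h6, ite_self]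
            rintro ⟨h8, -⟩
            exact h6 h8
      simp only [hshift] at h5
      rw [Finset.sum_eq_single_of_mem i1 (Finset.mem_range.2 hi1)] at h5
      · rw [if_pos rfl] at h5
        exact hγ' h5
      · intro i _ hii
        rw [if_neg]
        intro h6
        exact hii (hpinj h6.symm)
  have hall : ∀ g : (E0 k X)[X], EC v a g := fun g => all_EC hγ hya hadd g
  have hval : ∀ g : (E0 k X)[X], g ≠ 0 → ∃ b, v (aeval y g) = ex (ω b) := by
    intro g hg
    obtain ⟨j, h3, h4⟩ := value_y hγ hya hall hg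
    rw [h3]
    exact v_E0 hk hω hX (g.eval (a j)).2 fun h5 => h4 (Subtype.ext h5)
  -- the field generated by the coordinates
  have hadj : Algebra.adjoin k (Set.range (fam (Module.finBasis ℤ L) X y)) ≤
      ((aeval y : (E0 k X)[X] →ₐ[E0 k X] K).range.restrictScalars k) := by
    rw [Algebra.adjoin_le_iff]
    rintro _ ⟨_ | i, rfl⟩
    · exact ⟨Polynomial.X, aeval_X y⟩
    · exact ⟨C ⟨_, IntermediateField.subset_adjoin _ _ ⟨_, rfl⟩⟩, aeval_C _ _⟩
  have hFE : ∀ x : FE k X y, x ≠ 0 → ∃ b, v (algebraMap (FE k X y) K x) = ex (ω b) := by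
    intro x hx
    obtain ⟨r, hr, s, hs, h3⟩ := IntermediateField.mem_adjoin_iff_div.1 x.2
    obtain ⟨g, hg⟩ := hadj hr
    obtain ⟨g', hg'⟩ := hadj hs
    have hx' : (x : K) ≠ 0 := fun h => hx (Subtype.ext h)
    have hr0 : r ≠ 0 := by
      rintro rfl
      rw [zero_div] at h3
      exact hx' h3
    have hs0 : s ≠ 0 := by
      rintro rfl
      rw [div_zero] at h3
      exact hx' h3
    have hg0 : g ≠ 0 := by
      rintro rfl
      apply hr0
      rw [← hg]
      exact map_zero _
    have hg0' : g' ≠ 0 := by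
      rintro rfl
      apply hs0
      rw [← hg']
      exact map_zero _
    obtain ⟨b, hb⟩ := hval g hg0
    obtain ⟨b', hb'⟩ := hval g' hg0'
    refine ⟨b - b', ?_⟩
    change v (x : K) = _
    have hg1 : aeval y g = r := hg
    have hg1' : aeval y g' = s := hg'
    rw [h3, map_div₀, ← hg1, ← hg1', hb, hb', map_sub, sub_eq_add_neg, ex_add, ex_neg,
      div_eq_mul_inv]
  have halg := alg_of_inj htr al
  have hess : Algebra.EssFiniteType (FE k X y) K := Algebra.EssFiniteType.of_comp k _ _
  have hfin : Module.Finite (FE k X y) K := Algebra.finite_of_essFiniteType_of_isAlgebraic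
  exact hNF (vg_fg hFE fun a => ⟨_, hX a⟩)

end main

end Pool.Agent.H893
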