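import Pool.Agent.H893.G3_lin

/-!
# The order drops if the slope is less than one, over arbitrary ground fields
-/

set_option autoImplicit false
set_option linter.unusedVariables false
set_option linter.unusedSectionVars false

namespace Pool.Agent.H893

open Polynomial
open scoped NNReal

section g3b

variable {k K L : Type*} [Field k] [Field K] [Algebra k K] [AddCommGroup L]
  [Module.Free ℤ L] [Module.Finite ℤ L] {v : Valuation K ℝ≥0}
  {d : ℕ} {ω : L →+ ℝ} {X : Multiplicative L →* (DualNumber K)ˣ}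
    {y z : DualNumber K} {f : (AddMonoidAlgebra k (L × ℕ))[X]}

/-- The vertex monomial. -/
lemma Vtx.vert (hω : Function.Injective ω) {A b : ℝ} (hV : Vtx ω A b d f) :
    ∃ j < d, ∃ (i : ℕ) (β : L), (i : ℝ) = ((d : ℝ) - j) * b ∧ ω β = ((d : ℝ) - j) * A ∧
      (f.coeff j).coeff (β, i) ≠ 0 := by
  obtain ⟨j, hj, i, hi, h1⟩ := hV.uns 0 fun _ => rfl
  rw [taylor_zero] at h1
  have h2 : (i : ℝ) = ((d : ℝ) - j) * b := by
    apply le_antisymm hi
    by_contra hcon
    push Not at hcon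
    have h3 := hV.sl j hj i hcon
    rw [taylor_zero] at h3
    exact h1 h3
  rw [LF_coeff] at h1
  obtain ⟨β, hβ, h3⟩ := slice_ne ω hω h1
  exact ⟨j, hj, i, β, h2, hβ, h3⟩

lemma exists_eps (s : Finset ℝ) : ∃ ε : ℝ, 0 < ε ∧ ∀ x ∈ s, 0 < x → ε ≤ x := by
  classical
  induction s using Finset.induction_on with
  | empty => exact ⟨1, one_pos, fun x hx => absurd hx (Finset.notMem_empty x)⟩
  | insert a s _ ih =>
    obtain ⟨ε, hε, h1⟩ := ih
    by_cases ha : 0 < a
    · refine ⟨min ε a, lt_min hε ha, ?_⟩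
      intro x hx hx0
      rcases Finset.mem_insert.1 hx with rfl | h2
      · exact min_le_right _ _
      · exact (min_le_left _ _).trans (h1 x h2 hx0)
    · refine ⟨ε, hε, ?_⟩
      intro x hx hx0
      rcases Finset.mem_insert.1 hx with rfl | h2
      · exact absurd hx0 ha
      · exact h1 x h2 hx0

/-- The monomials near the vertex. -/
lemma Vtx.mono (hω : Function.Injective ω) {A b : ℝ} (hV : Vtx ω A b d f) :
    ∃ ε : ℝ, 0 < ε ∧ ∀ j : ℕ, j < d → ∀ μ : L × ℕ, (f.coeff j).coeff μ ≠ 0 →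
      (ω μ.1 = ((d : ℝ) - j) * A ∧ ((d : ℝ) - j) * b ≤ μ.2) ∨
        ((d : ℝ) - j) * A + ε ≤ ω μ.1 := by
  classical
  obtain ⟨ε, hε, h1⟩ := exists_eps ((Finset.range d).biUnion fun j =>
    (f.coeff j).coeff.support.image fun μ => ω μ.1 - ((d : ℝ) - j) * A)
  refine ⟨ε, hε, ?_⟩
  intro j hj μ hμ
  have h2 := hV.lv j μ hμ
  rw [wX_apply] at h2
  rcases h2.eq_or_lt with h3 | h3
  · left
    refine ⟨h3.symm, ?_⟩
    by_contra hcon
    push Not at hcon
    have h4 := hV.sl j hj μ.2 hcon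
    rw [taylor_zero, LF_coeff, h3, slice_coeff ω hω] at h4
    exact hμ h4
  · right
    have h4 := h1 (ω μ.1 - ((d : ℝ) - j) * A) (Finset.mem_biUnion.2 ⟨j, Finset.mem_range.2 hj,
      Finset.mem_image.2 ⟨μ, Finsupp.mem_support_iff.2 hμ, rfl⟩⟩) (by linarith)
    linarith

/-- Roots of polynomials whose reduction is a monomial. -/
lemma v_lt_one_of_root {c : ℕ → K} {N d : ℕ} (hdN : d < N) {z : K} (hz : v z ≤ 1)
    (h0 : ∑ j ∈ Finset.range N, c j * z ^ j = 0) (hcd : v (c d) = 1)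
    (hc : ∀ j, j ≠ d → v (c j) < 1) : v z < 1 := by
  by_contra hcon
  have hz1 : v z = 1 := le_antisymm hz (not_lt.1 hcon)
  have h1 : ∑ j ∈ (Finset.range N).erase d, c j * z ^ j = -(c d * z ^ d) := by
    have h2 := Finset.add_sum_erase (Finset.range N) (fun j => c j * z ^ j)
      (Finset.mem_range.2 hdN)
    rw [h0] at h2
    exact eq_neg_of_add_eq_zero_right h2
  have h2 : v (∑ j ∈ (Finset.range N).erase d, c j * z ^ j) < 1 := by
    refine v.map_sum_lt one_ne_zero fun j hj => ?_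
    rw [map_mul, map_pow, hz1, one_pow, mul_one]
    exact hc j (Finset.mem_erase.1 hj).1
  rw [h1, Valuation.map_neg, map_mul, map_pow, hcd, hz1, one_pow, mul_one] at h2
  exact lt_irrefl _ h2

/-- The case of slope zero. -/
theorem dropA0 (hk : ∀ c : k, c ≠ 0 → v (algebraMap k K c) = 1)
    (hres : ∀ x : K, v x ≤ 1 → ∃ c : k, v (x - algebraMap k K c) < 1)
    (S : Sys k v d ω X y z f) {A : ℝ} (hV : Vtx ω A 0 d f) (hA : ∃ a, ω a = A) :
    ∃ (y' z' : DualNumber K) (f' : (AddMonoidAlgebra k (L × ℕ))[X]) (d1 : ℕ), d1 < d ∧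
      Sys k v d1 ω X y' z' f' := by
  classical
  obtain ⟨a, ha⟩ := hA
  have hroot := S.root hk hV.A0.le hV.lv
  have hz1 : v (z * (X (.ofAdd (-a)) : DualNumber K)).fst ≤ 1 := by
    rw [TrivSqZeroExt.fst_mul, map_mul, S.hX, map_neg, ha]
    calc v z.fst * ex (-A) ≤ ex A * ex (-A) := mul_le_mul_of_nonneg_right hroot zero_le
      _ = 1 := by rw [← ex_add, add_neg_cancel, ex_zero]
  obtain ⟨c1, hc1⟩ := hres _ hz1
  have hG0 : ∀ j, (Zd a (d • a) f).coeff j ∈ ge (k := k) (wX ω) 0 := by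
    intro j
    refine ge_mono (le_of_eq ?_) (Zd_ge (hV.lv j))
    rw [map_nsmul, ha, nsmul_eq_mul]
    ring
  have hS2 := S.ps.div a (d • a) hG0 c1 hc1
  have hLF : LF ω 0 d (Zd a (d • a) f) = LF ω A d f := by
    ext1 j
    rw [LF_coeff, LF_coeff, Zd_coeff, mul_zero]
    have h1 := slice_shift (ω := ω) (j • a - d • a) (((d : ℝ) - j) * A) (f.coeff j)
    have h2 : ω (j • a - d • a) + ((d : ℝ) - j) * A = 0 := by
      rw [map_sub, map_nsmul, map_nsmul, ha, nsmul_eq_mul, nsmul_eq_mul]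
      ring
    rw [h2] at h1
    exact h1
  have hs : slice ω 0 (AddMonoidAlgebra.single (0 : L × ℕ) c1) = C c1 := by
    rw [slice_single, if_pos (by simp)]
    rfl
  have hLF2 : LF ω 0 d (taylor (AddMonoidAlgebra.single 0 c1) (Zd a (d • a) f)) =
      taylor (C c1) (LF ω A d f) := by
    rw [LF_taylor ω (A := 0) (by
      intro j
      rw [mul_zero]
      exact hG0 j) (single_mem_ge fun _ => by rw [map_zero]), hs, hLF]
  obtain ⟨j, hj, i, hi, h1⟩ := hV.uns (C c1) (fun h => absurd ha (h a))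
  have hi0 : i = 0 := by
    rw [mul_zero] at hi
    exact_mod_cast le_antisymm hi (Nat.cast_nonneg i)
  subst hi0
  have hne : ((taylor (AddMonoidAlgebra.single 0 c1) (Zd a (d • a) f)).coeff j).coeff (0, 0) ≠
      0 := by
    rw [← hLF2, LF_coeff, mul_zero] at h1
    have h2 := slice_coeff ω S.inj ((taylor (AddMonoidAlgebra.single 0 c1)
      (Zd a (d • a) f)).coeff j) 0 0
    rw [map_zero] at h2
    rw [← h2]
    exact h1
  have hex : ∃ j : ℕ, ((taylor (AddMonoidAlgebra.single 0 c1) (Zd a (d • a) f)).coeff j).coeff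
      0 ≠ 0 := ⟨j, hne⟩
  refine ⟨y, _, _, Nat.find hex, lt_of_le_of_lt (Nat.find_min' hex hne) hj,
    hS2.sys (Nat.find_spec hex) ?_⟩
  intro n hn
  by_contra h
  exact Nat.find_min hex hn h

/-- The order drops if the slope is less than one, over arbitrary ground fields. -/
theorem dropA1 (hk : ∀ c : k, c ≠ 0 → v (algebraMap k K c) = 1)
    (hres : ∀ x : K, v x ≤ 1 → ∃ c : k, v (x - algebraMap k K c) < 1)
    (hden : ∀ x y : ℝ, x < y → ∃ a, x < ω a ∧ ω a < y)
    (S : Sys k v d ω X y z f) {A b : ℝ} (hV : Vtx ω A b d f) (hb : b < 1) (hA : ∃ a, ω a = A)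
    (hbn : ∃ n : ℕ, b = n / d.factorial) :
    ∃ (y' z' : DualNumber K) (f' : (AddMonoidAlgebra k (L × ℕ))[X]) (d1 : ℕ), d1 < d ∧
      Sys k v d1 ω X y' z' f' := by
  classical
  rcases hV.b0.eq_or_lt with hb0 | hb0
  · subst hb0
    exact dropA0 hk hres S hV hA
  obtain ⟨a, ha⟩ := hA
  obtain ⟨n, hn⟩ := hbn
  obtain ⟨ε, hε, hmono⟩ := hV.mono S.inj
  obtain ⟨η, hη, hyη⟩ := exists_pos_ex S.hy
  have hD : (0 : ℝ) < (d.factorial : ℝ) := by exact_mod_cast d.factorial_pos
  have hdb : (0 : ℝ) < (d : ℝ) * b + 1 := by positivity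
  obtain ⟨β0, h1, h2⟩ := hden 0 (min η (ε / ((d : ℝ) * b + 1)) / d.factorial)
    (div_pos (lt_min hη (div_pos hε hdb)) hD)
  set β : L := d.factorial • β0 with hβd
  have hβ0 : ω β = d.factorial * ω β0 := by rw [hβd, map_nsmul, nsmul_eq_mul]
  have hβpos : 0 < ω β := by rw [hβ0]; positivity
  have hβlt : ω β < min η (ε / ((d : ℝ) * b + 1)) := by
    rw [lt_div_iff₀ hD] at h2
    rw [hβ0]
    linarith
  have hβη : ω β < η := lt_of_lt_of_le hβlt (min_le_left _ _)
  have hβε : ((d : ℝ) * b + 1) * ω β < ε := by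
    have h3 := lt_of_lt_of_le hβlt (min_le_right _ _)
    rw [lt_div_iff₀ hdb] at h3
    linarith
  have S1 := S.shift β hβpos (lt_of_le_of_lt hyη (ex_lt.2 hβη))
  set f1 := ShP β f with hf1
  set a1 : L := a + n • β0 with ha1d
  set A1 : ℝ := A + b * ω β with hA1d
  have ha1 : ω a1 = A1 := by
    rw [ha1d, map_add, ha, map_nsmul, nsmul_eq_mul, hA1d, hβ0, hn]
    field_simp
  have hA1pos : 0 < A1 := by
    have h3 := hV.A0
    have h4 := mul_pos hb0 hβpos
    rw [hA1d]
    linarith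
  -- weights after the change
  have hwt : ∀ j : ℕ, ∀ μ : L × ℕ, (f.coeff j).coeff μ ≠ 0 →
      (j < d → (ω μ.1 + μ.2 * ω β = ((d : ℝ) - j) * A1 ∧ (μ.2 : ℝ) = ((d : ℝ) - j) * b ∧
          ω μ.1 = ((d : ℝ) - j) * A) ∨
        ((d : ℝ) - j) * A1 < ω μ.1 + μ.2 * ω β) ∧
      (d ≤ j → 0 ≤ ω μ.1 ∧ 0 ≤ ω μ.1 + μ.2 * ω β) := by
    intro j μ hμ
    constructor
    · intro hj
      have hjd : (0 : ℝ) < (d : ℝ) - j := by
        have : (j : ℝ) < d := by exact_mod_cast hj
        linarith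
      rcases hmono j hj μ hμ with ⟨h3, h4⟩ | h3
      · rcases h4.eq_or_lt with h5 | h5
        · left
          refine ⟨?_, h5.symm, h3⟩
          rw [h3, ← h5, hA1d]
          ring
        · right
          rw [h3, hA1d]
          nlinarith
      · right
        have h4 : (0 : ℝ) ≤ μ.2 * ω β := by positivity
        have h5 : ((d : ℝ) - j) * (b * ω β) ≤ d * b * ω β := by
          have h6 : (0 : ℝ) ≤ j := Nat.cast_nonneg j
          have h7 := mul_pos hb0 hβpos
          nlinarith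
        rw [hA1d]
        nlinarith
    · intro hj
      have h3 := S.ge0 j μ hμ
      rw [wX_apply] at h3
      refine ⟨h3, ?_⟩
      positivity
  have hf1lv : Lv (wX ω) A1 d f1 := by
    intro j
    rw [hf1, ShP_coeff]
    refine Sh_ge ?_
    intro μ hμ
    rw [wW_apply]
    obtain ⟨h3, h4⟩ := hwt j μ hμ
    by_cases hj : j < d
    · rcases h3 hj with ⟨h5, -, -⟩ | h5
      · exact h5.ge
      · exact h5.le
    · push Not at hj
      have h5 : (d : ℝ) ≤ j := by exact_mod_cast hj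
      have h6 := (h4 hj).2
      nlinarith
  have hroot := S1.root hk hA1pos.le hf1lv
  set y1 := y * (X (.ofAdd (-β)) : DualNumber K) with hy1
  set z1 := z * (X (.ofAdd (-a1)) : DualNumber K) with hz1
  set f2 := Zd a1 (d • a1) f1 with hf2
  have hz1le : v z1.fst ≤ 1 := by
    rw [hz1, TrivSqZeroExt.fst_mul, map_mul, S.hX, map_neg, ha1]
    calc v z.fst * ex (-A1) ≤ ex A1 * ex (-A1) := mul_le_mul_of_nonneg_right hroot zero_le
      _ = 1 := by rw [← ex_add, add_neg_cancel, ex_zero]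
  have hG0 : ∀ j, f2.coeff j ∈ ge (k := k) (wX ω) 0 := by
    intro j
    refine ge_mono (le_of_eq ?_) (Zd_ge (hf1lv j))
    rw [map_nsmul, ha1, nsmul_eq_mul]
    ring
  -- the monomials of the new equation
  have hsup : ∀ (j : ℕ) (ν : L × ℕ), (f2.coeff j).coeff ν ≠ 0 →
      ∃ μ : L × ℕ, (f.coeff j).coeff μ ≠ 0 ∧ ν.2 = μ.2 ∧
        ω ν.1 = ((j : ℝ) - d) * A1 + (ω μ.1 + μ.2 * ω β) := by
    intro j ν hν
    rw [hf2, Zd_coeff] at hν
    obtain ⟨p, q, hp, hq, rfl⟩ := coeff_mul_ne hν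
    rw [AddMonoidAlgebra.coeff_single, Finsupp.single_apply] at hp
    have hp2 : (j • a1 - d • a1, 0) = p := by
      by_contra h3
      rw [if_neg h3] at hp
      exact hp rfl
    subst hp2
    rw [hf1, ShP_coeff] at hq
    obtain ⟨μ, hμ, rfl⟩ := Sh_ne β hq
    refine ⟨μ, hμ, ?_, ?_⟩
    · simp [shM]
    · simp only [shM, Prod.fst_add, map_add, map_sub, map_nsmul, nsmul_eq_mul, ha1]
      ring
  obtain ⟨η1, hη1, hyη1⟩ := exists_pos_ex S1.hy
  have hz1lt : v z1.fst < 1 := by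
    have h3 : (EV k X y1 z1 f2).fst = 0 := by
      rw [hz1, hf2, EV_Zd, TrivSqZeroExt.fst_mul, S1.fz, mul_zero]
    rw [fst_EV, EV_eq_sum _ _ _ _ (by omega : f2.natDegree < max f2.natDegree d + 1)] at h3
    refine v_lt_one_of_root (c := fun j => ev k (XK k X) y1.fst (f2.coeff j))
      (by omega : d < max f2.natDegree d + 1) hz1le h3 ?_ ?_
    · have h4 : f2.coeff d = f1.coeff d := by
        rw [hf2, Zd_coeff, sub_self]
        exact one_mul _
      rw [h4]
      exact S1.v_d hk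
    · intro j hj
      rw [← ex_zero]
      refine v_ev_lt hk S.hX hyη1 ?_
      intro ν hν
      obtain ⟨μ, hμ, h4, h5⟩ := hsup j ν hν
      rw [wW_apply, h5, h4]
      obtain ⟨h6, h7⟩ := hwt j μ hμ
      have h8 : (0 : ℝ) ≤ μ.2 * η1 := by positivity
      rcases lt_or_gt_of_ne hj with h9 | h9
      · rcases h6 h9 with ⟨h10, h11, -⟩ | h10
        · have h12 : (0 : ℝ) < μ.2 := by
            rw [h11]
            have : (j : ℝ) < d := by exact_mod_cast h9
            exact mul_pos (by linarith) hb0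
          rw [h10]
          have h13 := mul_pos h12 hη1
          linarith
        · linarith
      · have h10 := (h7 h9.le).2
        have h11 : (d : ℝ) < j := by exact_mod_cast h9
        have h12 : 0 < ((j : ℝ) - d) * A1 := mul_pos (by linarith) hA1pos
        linarith
  have hS2 := S1.ps.div a1 (d • a1) hG0 0 (by
    rw [map_zero, sub_zero]
    exact hz1lt)
  rw [AddMonoidAlgebra.single_zero, taylor_zero] at hS2
  -- the smallest index
  have hex : ∃ j : ℕ, j < d ∧ ∃ (i : ℕ) (β' : L), (i : ℝ) = ((d : ℝ) - j) * b ∧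
      ω β' = ((d : ℝ) - j) * A ∧ (f.coeff j).coeff (β', i) ≠ 0 := hV.vert S.inj
  set j0 := Nat.find hex with hj0
  obtain ⟨hj0d, i0, β', hi0, hβ', hcf⟩ := Nat.find_spec hex
  rw [← hj0] at hj0d hi0 hβ' hcf
  have hj0R : (j0 : ℝ) < d := by exact_mod_cast hj0d
  have h0 : (f2.coeff j0).coeff (0, i0) ≠ 0 := by
    have h3 := slice_shift (ω := ω) (j0 • a1 - d • a1) (((d : ℝ) - j0) * A1) (f1.coeff j0)
    have h4 : ω (j0 • a1 - d • a1) + ((d : ℝ) - j0) * A1 = 0 := by
      rw [map_sub, map_nsmul, map_nsmul, ha1, nsmul_eq_mul, nsmul_eq_mul]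
      ring
    rw [h4, ← Zd_coeff] at h3
    have h5 := slice_coeff ω S.inj (f2.coeff j0) 0 i0
    rw [map_zero, hf2, h3] at h5
    rw [hf2, ← h5]
    have h6 : ω (β' + i0 • β) = ((d : ℝ) - j0) * A1 := by
      rw [map_add, hβ', map_nsmul, nsmul_eq_mul, hi0, hA1d]
      ring
    rw [← h6, slice_coeff ω S.inj, hf1, ShP_coeff]
    have h7 := Sh_coeff β (f.coeff j0) (β', i0)
    rw [shM] at h7
    rw [h7]
    exact hcf
  have hsum : ((i0 + j0 : ℕ) : ℝ) = d * b + (1 - b) * j0 := by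
    push_cast
    rw [hi0]
    ring
  have hlt : i0 + j0 < d := by
    have h3 : ((i0 + j0 : ℕ) : ℝ) < d := by
      rw [hsum]
      nlinarith
    exact_mod_cast h3
  have hmin : ∀ i j : ℕ, (f2.coeff j).coeff (0, i) ≠ 0 →
      (i = i0 ∧ j = j0) ∨ i0 + j0 < i + j := by
    intro i j hij
    obtain ⟨μ, hμ, h4, h5⟩ := hsup j (0, i) hij
    change i = μ.2 at h4
    change ω 0 = _ at h5
    rw [map_zero] at h5
    obtain ⟨h6, h7⟩ := hwt j μ hμ
    rcases lt_trichotomy j d with h8 | h8 | h8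
    · rcases h6 h8 with ⟨h9, h10, h11⟩ | h9
      · have hPj : j < d ∧ ∃ (i : ℕ) (β' : L), (i : ℝ) = ((d : ℝ) - j) * b ∧
            ω β' = ((d : ℝ) - j) * A ∧ (f.coeff j).coeff (β', i) ≠ 0 :=
          ⟨h8, μ.2, μ.1, h10, h11, hμ⟩
        have h12 : j0 ≤ j := Nat.find_min' hex hPj
        rcases h12.eq_or_lt with h13 | h13
        · left
          refine ⟨?_, h13.symm⟩
          rw [h4]
          have h14 : (μ.2 : ℝ) = i0 := by rw [h10, hi0, h13]
          exact_mod_cast h14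
        · right
          have h14 : (j0 : ℝ) < j := by exact_mod_cast h13
          have h15 : ((i0 + j0 : ℕ) : ℝ) < ((i + j : ℕ) : ℝ) := by
            rw [hsum]
            push_cast
            rw [h4, h10]
            nlinarith
          exact_mod_cast h15
      · exfalso
        linarith
    · right
      omega
    · exfalso
      have h9 := (h7 h8.le).2
      have h11 : (d : ℝ) < j := by exact_mod_cast h8
      have h12 : 0 < ((j : ℝ) - d) * A1 := mul_pos (by linarith) hA1pos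
      linarith
  obtain ⟨y', f', h3⟩ := lin_change1 hk hS2 h0 hmin
  exact ⟨y', _, f', i0 + j0, hlt, h3⟩

end g3b

end Pool.Agent.H893
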