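import Pool.Agent.H893.P6
import Pool.Agent.H893.G3_drop

/-!
# The first part
-/

set_option autoImplicit false
set_option linter.unusedVariables false
set_option linter.unusedSectionVars false

namespace Pool.Agent.H893

open Polynomial
open scoped NNReal

section main

variable {k K L : Type*} [Field k] [Field K] [Algebra k K] [AddCommGroup L]
  [Module.Free ℤ L] [Module.Finite ℤ L] {v : Valuation K ℝ≥0}

variable {d : ℕ} {ω : L →+ ℝ} {X : Multiplicative L →* (DualNumber K)ˣ}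
    {y z : DualNumber K} {f : (AddMonoidAlgebra k (L × ℕ))[X]}

/-- The order drops if the value of the root is the level. -/
theorem dropC (p : ℕ) [Fact p.Prime] [CharP k p]
    (hk : ∀ c : k, c ≠ 0 → v (algebraMap k K c) = 1)
    (hres : ∀ x : K, v x ≤ 1 → ∃ c : k, v (x - algebraMap k K c) < 1) (H : HypH k L v)
    (htr : Algebra.trdeg k K = ((Module.finrank ℤ L + 1 : ℕ) : Cardinal))
    (hden : ∀ ω : L →+ ℝ, Function.Injective ω → ∀ x y : ℝ, x < y → ∃ a, x < ω a ∧ ω a < y)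
    (S : Sys k v d ω X y z f) {η : ℝ} (hη : 0 < η) (hyη : v y.fst = ex η)
    {A : ℝ} (hA : ∀ a, ω a ≠ A) (hV : Vtx ω A 0 d f)
    (hz : v z.fst = ex A) :
    ∃ (ω' : L →+ ℝ) (X' : Multiplicative L →* (DualNumber K)ˣ) (y' z' : DualNumber K)
      (f' : (AddMonoidAlgebra k (L × ℕ))[X]) (d1 : ℕ), d1 < d ∧
      Sys k v d1 ω' X' y' z' f' := by
  obtain ⟨a0, ha1, ha2⟩ := hden ω S.inj (max 0 (A - η)) A (max_lt hV.A0 (by linarith))
  have ha3 : 0 < ω a0 := lt_of_le_of_lt (le_max_left _ _) ha1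
  have ha4 : A - η < ω a0 := lt_of_le_of_lt (le_max_right _ _) ha1
  set A1 := A - ω a0 with hA1
  have hA10 : 0 < A1 := by linarith
  have hA1η : A1 < η := by linarith
  have hA1ω : ∀ a, ω a ≠ A1 := by
    intro a h
    apply hA (a + a0)
    rw [map_add, h, hA1]
    ring
  -- the division
  have hG0 : ∀ j, (Zd a0 (d • a0) f).coeff j ∈ ge (k := k) (wX ω) 0 := by
    intro j
    by_cases hj : j ≤ d
    · refine ge_mono ?_ (Zd_ge (hV.lv j))
      rw [map_nsmul, nsmul_eq_mul]
      have h1 : (0 : ℝ) ≤ (d : ℝ) - j := by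
        have : (j : ℝ) ≤ d := by exact_mod_cast hj
        linarith
      nlinarith
    · push Not at hj
      refine ge_mono ?_ (Zd_ge (S.ge0 j))
      rw [map_nsmul, nsmul_eq_mul]
      have h1 : (0 : ℝ) ≤ (j : ℝ) - d := by
        have : (d : ℝ) ≤ j := by exact_mod_cast hj.le
        linarith
      nlinarith
  have hGlv : Lv (wX ω) A1 d (Zd a0 (d • a0) f) := by
    intro j
    refine ge_mono (le_of_eq ?_) (Zd_ge (hV.lv j))
    rw [map_nsmul, nsmul_eq_mul, hA1]
    ring
  have hLF : LF ω A1 d (Zd a0 (d • a0) f) = LF ω A d f := by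
    ext1 j
    rw [LF_coeff, LF_coeff, Zd_coeff]
    have h1 := slice_shift (ω := ω) (j • a0 - d • a0) (((d : ℝ) - j) * A) (f.coeff j)
    have h2 : ω (j • a0 - d • a0) + ((d : ℝ) - j) * A = ((d : ℝ) - j) * A1 := by
      rw [map_sub, map_nsmul, map_nsmul, nsmul_eq_mul, nsmul_eq_mul, hA1]
      ring
    rw [h2] at h1
    exact h1
  have hz1 : v (z * (X (.ofAdd (-a0)) : DualNumber K)).fst = ex A1 := by
    rw [TrivSqZeroExt.fst_mul, map_mul, S.hX, map_neg, hz, ← ex_add]
    rfl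
  have hdiv := S.ps.div a0 (d • a0) hG0 0 (by
    rw [map_zero, sub_zero, hz1]
    exact ex_lt_one.2 hA10)
  rw [AddMonoidAlgebra.single_zero, taylor_zero, map_zero, sub_zero] at hdiv
  set z1 := z * (X (.ofAdd (-a0)) : DualNumber K) with hz1d
  set G := Zd a0 (d • a0) f with hG
  have hlin := hdiv.lin hk (-1)
  have hy1 : (y - algebraMap k (DualNumber K) (-1) * z1).fst = y.fst + z1.fst := by
    rw [map_neg, map_one, neg_mul, one_mul, sub_neg_eq_add, TrivSqZeroExt.fst_add]
  have hy1v : v (y - algebraMap k (DualNumber K) (-1) * z1).fst = ex A1 := by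
    rw [hy1, v.map_add_eq_of_lt_right (by rw [hyη, hz1]; exact ex_lt.2 hA1η), hz1]
  have hlv1 : Lv (wX ω) A1 d (Lc (-1) G) := Lc_lv _ hA10.le hGlv
  have hLF1 : LF ω A1 d (Lc (-1) G) = LF ω A d f := by rw [LF_Lc _ hA10 hGlv, hLF]
  have hd1 : ((Lc (-1) G).coeff d).coeff 0 ≠ 0 := by
    have h1 := LF_coeff ω A1 d (Lc (-1) G) d
    rw [hLF1, LF_coeff, sub_self, zero_mul, zero_mul] at h1
    have h2 := slice_coeff ω S.inj ((Lc (-1) G).coeff d) 0 0
    have h3 := slice_coeff ω S.inj (f.coeff d) 0 0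
    rw [map_zero, ← Prod.zero_eq_mk] at h2 h3
    rw [← h2, ← h1, h3]
    exact S.top
  have hlow1 : ∀ j < d, ((Lc (-1) G).coeff j).coeff 0 = 0 := by
    intro j hj
    by_contra h1
    have h2 := hlv1 j 0 h1
    rw [map_zero] at h2
    have h3 : (0 : ℝ) < (d : ℝ) - j := by
      have : (j : ℝ) < d := by exact_mod_cast hj
      linarith
    have h4 : 0 < ((d : ℝ) - j) * A1 := mul_pos h3 hA10
    linarith
  have hS1 := hlin.sys hd1 hlow1
  have hV1 : Vtx ω A1 0 d (Lc (-1) G) := by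
    refine ⟨hA10, le_rfl, hlv1, ?_, ?_⟩
    · rw [hLF1]
      exact hV.sl
    · intro ρ hρ
      rw [hLF1]
      exact hV.uns ρ fun _ => hρ hA1ω
  obtain ⟨ω', X', y', z', f', η', A', n, h1, h2, h3, h4, h5, h6, h7, h8, h9, h10⟩ :=
    P1v p hk H htr hS1 hA10 hy1v hA1ω hV1
  have hA' : A' = A1 := by
    rw [zero_mul, add_zero] at h7
    exact le_antisymm h7 h6
  rw [← hA'] at h5
  obtain ⟨y2, z2, f2, d2, h11, h12⟩ := dropA1 hk hres (hden ω' h1.inj) h1 h8
    ((h9 h5).2 zero_le_one) h5 ⟨n, rfl⟩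
  exact ⟨ω', X', y2, z2, f2, d2, h11, h12⟩

/-- The order drops. -/
theorem drop_aux (p : ℕ) [Fact p.Prime] [CharP k p]
    (hk : ∀ c : k, c ≠ 0 → v (algebraMap k K c) = 1)
    (hres : ∀ x : K, v x ≤ 1 → ∃ c : k, v (x - algebraMap k K c) < 1) (H : HypH k L v)
    (htr : Algebra.trdeg k K = ((Module.finrank ℤ L + 1 : ℕ) : Cardinal))
    (hden : ∀ ω : L →+ ℝ, Function.Injective ω → ∀ x y : ℝ, x < y → ∃ a, x < ω a ∧ ω a < y)
    (n : ℕ) : ∀ {ω : L →+ ℝ} {X : Multiplicative L →* (DualNumber K)ˣ}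
    {y z : DualNumber K} {f : (AddMonoidAlgebra k (L × ℕ))[X]} (S : Sys k v d ω X y z f)
    {η : ℝ} (hη : 0 < η) (hyη : v y.fst = ex η) (hηω : ∀ a, ω a ≠ η)
    {A : ℝ} (hV : Vtx ω A (n / d.factorial) d f),
    ∃ (ω' : L →+ ℝ) (X' : Multiplicative L →* (DualNumber K)ˣ) (y' z' : DualNumber K)
      (f' : (AddMonoidAlgebra k (L × ℕ))[X]) (d1 : ℕ), d1 < d ∧
      Sys k v d1 ω' X' y' z' f' := by
  induction n using Nat.strong_induction_on with
  | _ n ih =>
    intro ω X y z f S η hη hyη hηω A hV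
    have hD0 : (0 : ℝ) < d.factorial := by exact_mod_cast d.factorial_pos
    have hcmp : ∀ n' : ℕ, (n' : ℝ) / d.factorial < n / d.factorial → n' < n := by
      intro n' h
      rw [div_lt_div_iff_of_pos_right hD0] at h
      exact_mod_cast h
    by_cases hA : ∃ a, ω a = A
    · by_cases hb : (n : ℝ) / d.factorial < 1
      · obtain ⟨y2, z2, f2, d2, h11, h12⟩ := dropA1 hk hres (hden ω S.inj) S hV hb hA ⟨n, rfl⟩
        exact ⟨ω, X, y2, z2, f2, d2, h11, h12⟩
      · push Not at hb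
        obtain ⟨ω', X', y', z', f', η', A', n', h1, h2, h3, h4, h5, h6, h7, h8, h9, h10⟩ :=
          P1v p hk H htr S hη hyη hηω hV
        refine ih n' (hcmp n' ?_) h1 h2 h3 h4 h8
        by_cases hA' : ∃ a, ω' a = A'
        · obtain ⟨h11, h12⟩ := h9 hA'
          rcases hb.lt_or_eq with h13 | h13
          · linarith
          · have := h12 h13.ge
            linarith
        · push Not at hA'
          have := h10 hA'
          linarith
    · push Not at hA
      by_cases hb0 : (n : ℝ) / d.factorial = 0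
      · rw [hb0] at hV
        have hroot := S.root hk hV.A0.le hV.lv
        rcases hroot.lt_or_eq with h1 | h1
        · exact dropB hk H htr hden S hη hyη hηω hV h1
        · exact dropC p hk hres H htr hden S hη hyη hA hV h1
      · have hb1 : 0 < (n : ℝ) / d.factorial := lt_of_le_of_ne hV.b0 (Ne.symm hb0)
        obtain ⟨ω', X', y', z', f', η', A', n', h1, h2, h3, h4, h5, h6, h7, h8, h9, h10⟩ :=
          P1v p hk H htr S hη hyη hηω hV
        by_cases hA' : ∃ a, ω' a = A'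
        · obtain ⟨h11, h12⟩ := h9 hA'
          by_cases hb : (n : ℝ) / d.factorial ≤ 1
          · obtain ⟨y2, z2, f2, d2, h13, h14⟩ := dropA1 hk hres (hden ω' h1.inj) h1 h8 (h12 hb)
              hA' ⟨n', rfl⟩
            exact ⟨ω', X', y2, z2, f2, d2, h13, h14⟩
          · push Not at hb
            refine ih n' (hcmp n' ?_) h1 h2 h3 h4 h8
            linarith
        · push Not at hA'
          have := h10 hA'
          exact ih n' (hcmp n' (by linarith)) h1 h2 h3 h4 h8

/-- The first part: there is a hypersurface of order one. -/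
theorem part1 (p : ℕ) [Fact p.Prime] [CharP k p]
    (hk : ∀ c : k, c ≠ 0 → v (algebraMap k K c) = 1)
    (hres : ∀ x : K, v x ≤ 1 → ∃ c : k, v (x - algebraMap k K c) < 1) (H : HypH k L v)
    (htr : Algebra.trdeg k K = ((Module.finrank ℤ L + 1 : ℕ) : Cardinal))
    (hden : ∀ ω : L →+ ℝ, Function.Injective ω → ∀ x y : ℝ, x < y → ∃ a, x < ω a ∧ ω a < y)
    (d : ℕ) : ∀ {ω : L →+ ℝ} {X : Multiplicative L →* (DualNumber K)ˣ}
    {y z : DualNumber K} {f : (AddMonoidAlgebra k (L × ℕ))[X]} (S : Sys k v d ω X y z f),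
    ∃ (ω' : L →+ ℝ) (X' : Multiplicative L →* (DualNumber K)ˣ) (y' z' : DualNumber K)
      (f' : (AddMonoidAlgebra k (L × ℕ))[X]), Sys k v 1 ω' X' y' z' f' := by
  induction d using Nat.strong_induction_on with
  | _ d ih =>
    intro ω X y z f S
    have hd := S.d_pos hk
    by_cases hd1 : d = 1
    · subst hd1
      exact ⟨ω, X, y, z, f, S⟩
    · have hd2 : 2 ≤ d := by omega
      obtain ⟨y1, f1, η, h1, h2, h3, h4⟩ := P0 hk H htr S
      obtain ⟨ω', X', y', z', f', η', A', n, h5, h6, h7, h8, h9⟩ :=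
        P1s p hk H htr hd2 h1 h2 h3 h4
      obtain ⟨ω2, X2, y2, z2, f2, d2, h10, h11⟩ :=
        drop_aux p hk hres H htr hden n h5 h6 h7 h8 h9
      exact ih d2 h10 h11

end main

end Pool.Agent.H893
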