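import Pool.Agent.H893.P9
import Pool.Agent.H893.P6m
import Pool.Agent.H893.D4
import Pool.Agent.H893.KC

/-!
# Log uniformization of valuations of large rational rank
-/

set_option autoImplicit false
set_option linter.unusedVariables false
set_option linter.unusedSectionVars false

universe u

namespace Pool.Agent.H893

open Pool.Agent.W418.LU2
open Pool.Agent.H176.DT (Mod SU PP St)
open scoped NNReal

/-- Subgroups of the real numbers of rank at least two are dense. -/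
lemma dense_of_rank {r : ℕ} (hr : 2 ≤ r) (ω : (Fin r → ℤ) →+ ℝ) (hω : Function.Injective ω)
    (x y : ℝ) (hxy : x < y) : ∃ a, x < ω a ∧ ω a < y := by
  rcases AddSubgroup.dense_or_cyclic ω.range with h | ⟨g, hg⟩
  · obtain ⟨z, ⟨a, rfl⟩, h1⟩ := h.exists_between hxy
    exact ⟨a, h1.1, h1.2⟩
  · exfalso
    let e0 : Fin r → ℤ := Pi.single ⟨0, by omega⟩ 1
    let e1 : Fin r → ℤ := Pi.single ⟨1, by omega⟩ 1
    have hmem : ∀ e : Fin r → ℤ, ∃ n : ℤ, n • g = ω e := by
      intro e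
      have h1 : ω e ∈ ω.range := ⟨e, rfl⟩
      rw [hg, ← AddSubgroup.zmultiples_eq_closure] at h1
      exact AddSubgroup.mem_zmultiples_iff.1 h1
    obtain ⟨m, hm⟩ := hmem e0
    obtain ⟨n, hn⟩ := hmem e1
    have h1 : n • e0 = m • e1 := by
      apply hω
      rw [map_zsmul, map_zsmul, ← hm, ← hn, smul_smul, smul_smul, mul_comm]
    have h2 := congrFun h1 ⟨0, by omega⟩
    have h3 := congrFun h1 ⟨1, by omega⟩
    simp [e0, e1, Pi.single_apply] at h2 h3
    rw [h2, zero_smul] at hn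
    have h4 : e1 = 0 := hω (by rw [← hn, map_zero])
    have h5 := congrFun h4 ⟨1, by omega⟩
    simp [e1] at h5

theorem main_su {k K : Type u} [Field k] (p : ℕ) [Fact p.Prime] [CharP k p]
    [Field K] [Algebra k K] [Algebra.EssFiniteType k K] (v : Valuation K ℝ≥0)
    (hk : ∀ c : k, c ≠ 0 → v (algebraMap k K c) = 1)
    (hres : ∀ x : K, v x ≤ 1 → ∃ c : k, v (x - algebraMap k K c) < 1)
    (r : ℕ) (hr : 2 ≤ r) (htr : Algebra.trdeg k K = ((r + 1 : ℕ) : Cardinal))
    (x : Fin r → K) (hx0 : ∀ i, x i ≠ 0)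
    (hind : ∀ m : Fin r → ℤ, ∏ i, v (x i) ^ m i = 1 → m = 0)
    (hrr : ∀ z : K, z ≠ 0 → ∃ n : ℕ, n ≠ 0 ∧ ∃ m : Fin r → ℤ, v z ^ n = ∏ i, v (x i) ^ m i)
    (hNF : ¬ (valGroup v).FG) :
    ∃ U : Set K, U.Finite ∧
      Mod v.valuationSubring (Subring.closure (Set.range (algebraMap k K) ∪ U)) ∧
      SU v.valuationSubring (Subring.closure (Set.range (algebraMap k K) ∪ U)) := by
  have hp1 : ExpChar k p := inferInstance
  have htr' : Algebra.trdeg k K = ((Module.finrank ℤ (Fin r → ℤ) + 1 : ℕ) : Cardinal) := by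
    rw [Module.finrank_fin_fun]
    exact htr
  have H : HypH k (Fin r → ℤ) v := hypH p hk hres htr' hNF
  obtain ⟨d, ω, X, y, z, f, S⟩ := part0 p hk hres (by omega) htr H x hx0 hind hrr
  obtain ⟨ω', X', y', z', f', S'⟩ := part1 p hk hres H htr' (dense_of_rank hr) d S
  exact part2 hk H htr' S'

theorem main {k K : Type u} [Field k] (p : ℕ) [Fact p.Prime] [CharP k p]
    [Field K] [Algebra k K] [Algebra.EssFiniteType k K] (v : Valuation K ℝ≥0)
    (hk : ∀ c : k, c ≠ 0 → v (algebraMap k K c) = 1)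
    (hres : ∀ x : K, v x ≤ 1 → ∃ c : k, v (x - algebraMap k K c) < 1)
    (r : ℕ) (hr : 2 ≤ r) (htr : Algebra.trdeg k K = ((r + 1 : ℕ) : Cardinal))
    (x : Fin r → K) (hx0 : ∀ i, x i ≠ 0)
    (hind : ∀ m : Fin r → ℤ, ∏ i, v (x i) ^ m i = 1 → m = 0)
    (hrr : ∀ z : K, z ≠ 0 → ∃ n : ℕ, n ≠ 0 ∧ ∃ m : Fin r → ℤ, v z ^ n = ∏ i, v (x i) ^ m i)
    (hNF : ¬ (valGroup v).FG) (G : Set K) (hG : G.Finite) (A : Subring K)
    (hA : A = Subring.closure (Set.range (algebraMap k K) ∪ G))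
    (hAM : Mod v.valuationSubring A) : LogUnif v.valuationSubring A := by
  obtain ⟨U, hU, hM, hSU⟩ := main_su p v hk hres r hr htr x hx0 hind hrr hNF
  have hR : ((algebraMap k K).range : Set K) = Set.range (algebraMap k K) := rfl
  rw [← hR] at hM hSU hA
  exact fin_of_su v.valuationSubring (algebraMap k K).range U hU hM hSU A G hG hA hAM

end Pool.Agent.H893
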