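import Pool.Agent.H893.SA
import Pool.Agent.H893.Sy

/-!
# Charts
-/

set_option autoImplicit false
set_option linter.unusedVariables false
set_option linter.unusedSectionVars false

universe u w

namespace Pool.Agent.H893

open Pool.Agent.W418.LU2 Polynomial
open scoped NNReal

section ch

variable {k F : Type u} {L : Type w} [Field k] [Field F] [Algebra k F] [AddCommGroup L]
  [Module.Free ℤ L] [Module.Finite ℤ L] {v : Valuation F ℝ≥0} {ω : L →+ ℝ}
  {X : Multiplicative L →* Fˣ} {y : F} {s : ℕ}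

/-- The algebra of the chart. -/
noncomputable def AC (k : Type u) {F : Type u} {L : Type w} [Field k] [Field F] [Algebra k F]
    [AddCommGroup L] [Module.Free ℤ L] [Module.Finite ℤ L] {s : ℕ}
    (b : Module.Basis (Fin s) ℤ L) (X : Multiplicative L →* Fˣ) (y : F) : Subring F :=
  Subring.closure (Set.range (algebraMap k F) ∪ Set.range (fam b X y))

lemma alg_mem_AC (b : Module.Basis (Fin s) ℤ L) (c : k) : algebraMap k F c ∈ AC k b X y :=
  Subring.subset_closure (Or.inl ⟨c, rfl⟩)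

lemma fam_mem_AC (b : Module.Basis (Fin s) ℤ L) (o : Option (Fin s)) :
    fam b X y o ∈ AC k b X y :=
  Subring.subset_closure (Or.inr ⟨o, rfl⟩)

lemma ev_mem_AC (b : Module.Basis (Fin s) ℤ L) {g : AddMonoidAlgebra k (L × ℕ)}
    (hg : g ∈ inP k ((chartP b).prod ⊤)) : ev k X y g ∈ AC k b X y := by
  obtain ⟨P, rfl⟩ := Io_surj b hg
  rw [ev_Io]
  have h : ∀ P : MvPolynomial (Option (Fin s)) k,
      MvPolynomial.aeval (fam b X y) P ∈ AC k b X y := by
    intro P
    induction P using MvPolynomial.induction_on with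
    | C a =>
      rw [MvPolynomial.algHom_C]
      exact alg_mem_AC b a
    | add p q hp hq =>
      rw [map_add]
      exact add_mem hp hq
    | mul_X p o hp =>
      rw [map_mul, MvPolynomial.aeval_X]
      exact mul_mem hp (fam_mem_AC b o)
  exact h P

lemma X_mem_AC (b : Module.Basis (Fin s) ℤ L) {β : L} (hβ : β ∈ chartP b) :
    (X (.ofAdd β) : F) ∈ AC k b X y := by
  classical
  have h1 : ev k X y (AddMonoidAlgebra.single (β, 0) 1) = (X (.ofAdd β) : F) := by
    rw [ev_single]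
    simp
  rw [← h1]
  refine ev_mem_AC b ?_
  intro μ hμ
  rw [AddMonoidAlgebra.coeff_single, Finsupp.single_apply] at hμ
  split_ifs at hμ with h
  · rw [← h]
    exact ⟨hβ, trivial⟩
  · exact absurd rfl hμ

lemma y_mem_AC (b : Module.Basis (Fin s) ℤ L) : y ∈ AC k b X y := fam_mem_AC b none

lemma AC_le (hk : ∀ c : k, c ≠ 0 → v (algebraMap k F c) = 1) (S : ES k v ω X y)
    (b : Module.Basis (Fin s) ℤ L) (hb : ∀ j, 0 < ω (b j)) :
    AC k b X y ≤ v.valuationSubring.toSubring := by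
  unfold AC
  rw [Subring.closure_le]
  rintro z (⟨c, rfl⟩ | ⟨_ | j, rfl⟩)
  · exact vk_le hk c
  · exact S.hy.le
  · change v (X (.ofAdd (b j)) : F) ≤ 1
    rw [S.hX, ex_le_one]
    exact (hb j).le

/-- The local ring of the chart. -/
noncomputable def PC (k : Type u) {F : Type u} {L : Type w} [Field k] [Field F] [Algebra k F]
    [AddCommGroup L] [Module.Free ℤ L] [Module.Finite ℤ L] {s : ℕ} (v : Valuation F ℝ≥0)
    (b : Module.Basis (Fin s) ℤ L) (X : Multiplicative L →* Fˣ) (y : F) : Subring F :=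
  lo v.valuationSubring.toSubring (AC k b X y)

/-- The monomials. -/
lemma X_mo (b : Module.Basis (Fin s) ℤ L) (β : L) :
    (X (.ofAdd β) : F) = mo (fam b X y) fun o => Option.elim o 0 fun j => b.repr β j := by
  unfold mo
  rw [Fintype.prod_option]
  simp only [Option.elim_none, Option.elim_some, zpow_zero, one_mul, fam]
  have h1 : ∀ t : Finset (Fin s), ∏ j ∈ t, ((X (.ofAdd (b j)) : Fˣ) : F) ^ (b.repr β j) =
      (X (.ofAdd (∑ j ∈ t, b.repr β j • b j)) : F) := by
    classical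
    intro t
    induction t using Finset.induction_on with
    | empty => simp
    | insert a t ha ih =>
      rw [Finset.prod_insert ha, Finset.sum_insert ha, ih, ofAdd_add, map_mul, Units.val_mul,
        ofAdd_zsmul, map_zpow, Units.val_zpow_eq_zpow_val]
  rw [h1, b.sum_repr]

/-- Elements of order zero are monomials. -/
theorem chart (hk : ∀ c : k, c ≠ 0 → v (algebraMap k F c) = 1) (S : ES k v ω X y)
    (T : Finset F) (hT : ∀ t ∈ T, GM k ω X y 0 t) :
    ∃ (s : ℕ) (b : Module.Basis (Fin s) ℤ L), (∀ j, 0 < ω (b j)) ∧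
      ∀ t ∈ T, PMon (PC k v b X y) (fam b X y) t ∧
        (t ∈ v.valuationSubring → t ∈ PC k v b X y) := by
  classical
  have hrep : ∀ t : F, ∃ (g h : AddMonoidAlgebra k (L × ℕ)) (β γ : L), t ∈ T →
      t * ev k X y h = ev k X y g ∧ g ∈ ge (k := k) (wX ω) (ω β) ∧ g.coeff (β, 0) ≠ 0 ∧
        h ∈ ge (k := k) (wX ω) (ω γ) ∧ h.coeff (γ, 0) ≠ 0 := by
    intro t
    by_cases ht : t ∈ T
    · obtain ⟨g, h, h1, ⟨β, i, hi, h2, h3⟩, ⟨γ, j, hj, h4, h5⟩⟩ := hT t ht
      obtain rfl : i = 0 := by omega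
      obtain rfl : j = 0 := by omega
      exact ⟨g, h, β, γ, fun _ => ⟨h1, h2, h3, h4, h5⟩⟩
    · exact ⟨0, 0, 0, 0, fun h => absurd h ht⟩
  choose G H B C hGH using hrep
  let sh : L → AddMonoidAlgebra k (L × ℕ) → AddMonoidAlgebra k (L × ℕ) := fun β g =>
    AddMonoidAlgebra.single (-β, 0) 1 * g
  have hshc : ∀ (β : L) (g : AddMonoidAlgebra k (L × ℕ)) (μ : L × ℕ),
      (sh β g).coeff μ = g.coeff (β + μ.1, μ.2) := by
    intro β g μ
    have h1 : (β + μ.1, μ.2) = (β, 0) + μ := Prod.ext rfl (zero_add _).symm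
    have h2 : AddMonoidAlgebra.single (β, 0) 1 * sh β g = g := by
      change AddMonoidAlgebra.single (β, 0) 1 * (AddMonoidAlgebra.single (-β, 0) 1 * g) = g
      rw [← mul_assoc, AddMonoidAlgebra.single_mul_single]
      simp only [Prod.mk_add_mk, add_neg_cancel, add_zero, mul_one]
      exact one_mul g
    conv_rhs => rw [← h2, h1]
    rw [AddMonoidAlgebra.coeff_single_mul_add, one_mul]
  have hshge : ∀ (β : L) (g : AddMonoidAlgebra k (L × ℕ)), g ∈ ge (k := k) (wX ω) (ω β) →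
      sh β g ∈ ge (k := k) (wX ω) 0 := by
    intro β g hg μ hμ
    rw [hshc] at hμ
    have h1 := hg _ hμ
    rw [wX_apply] at h1 ⊢
    simp only [map_add] at h1
    linarith
  have hev : ∀ (β : L) (g : AddMonoidAlgebra k (L × ℕ)),
      ev k X y g = (X (.ofAdd β) : F) * ev k X y (sh β g) := by
    intro β g
    simp only [sh]
    rw [map_mul, ev_single, ofAdd_neg, map_inv, map_one, one_mul, pow_zero, mul_one, ← mul_assoc,
      Units.mul_inv, one_mul]
  let D0 : Finset L := T.biUnion fun t =>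
    ((sh (B t) (G t)).coeff.support ∪ (sh (C t) (H t)).coeff.support).image Prod.fst ∪
      {B t - C t}
  let D : Finset L := D0.filter fun d => 0 < ω d
  obtain ⟨s, b, hb, hD⟩ := exists_chart ω S.inj D (fun d hd => (Finset.mem_filter.1 hd).2)
  refine ⟨s, b, hb, fun t ht => ?_⟩
  obtain ⟨h1, h2, h3, h4, h5⟩ := hGH t ht
  have hS := AC_le hk S b hb
  have hpr : ∀ (β : L) (g : AddMonoidAlgebra k (L × ℕ)), g ∈ ge (k := k) (wX ω) (ω β) →
      g.coeff (β, 0) ≠ 0 → (∀ μ, (sh β g).coeff μ ≠ 0 → μ.1 ∈ D0) →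
      ev k X y (sh β g) ∈ AC k b X y ∧ v (ev k X y (sh β g)) = 1 := by
    intro β g hg hg0 hgD
    have h6 : sh β g ∈ inP k ((chartP b).prod ⊤) := by
      intro μ hμ
      refine ⟨?_, trivial⟩
      change μ.1 ∈ chartP b
      have h7 := hshge β g hg μ hμ
      rw [wX_apply] at h7
      rcases h7.lt_or_eq with h8 | h8
      · exact hD _ (Finset.mem_filter.2 ⟨hgD μ hμ, h8⟩)
      · have h9 : μ.1 = 0 := S.inj (by rw [← h8, map_zero])
        rw [h9]
        exact zero_mem _
    refine ⟨ev_mem_AC b h6, ?_⟩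
    have hy0 : y ≠ 0 := by
      intro h0
      have h7 : ev k X y (Yv k L) = 0 := by
        rw [Yv, ev_single, h0]
        simp
      have h8 : Yv k L = 0 := S.al (by rw [h7, map_zero])
      have h9 := congrArg (fun g => AddMonoidAlgebra.coeff g ((0 : L), 1)) h8
      rw [Yv] at h9
      simp only [AddMonoidAlgebra.coeff_single, AddMonoidAlgebra.coeff_zero,
        Finsupp.coe_zero, Pi.zero_apply] at h9
      rw [Finsupp.single_apply, if_pos rfl] at h9
      exact one_ne_zero h9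
    obtain ⟨η, hη⟩ := exists_ex (x := v y) ((Valuation.ne_zero_iff _).2 hy0)
    have hη0 : 0 < η := by
      have := S.hy
      rwa [hη, ex_lt_one] at this
    refine v_ev_unit hk S.hX hη.le (c := g.coeff (β, 0)) hg0 ?_
    refine gt_of_coeff_zero S.inj hη0 ?_ ?_
    · exact sub_mem (hshge β g hg) (single_mem_ge fun _ => by
        rw [map_zero])
    · rw [AddMonoidAlgebra.coeff_sub, Finsupp.sub_apply, hshc, AddMonoidAlgebra.coeff_single,
        Finsupp.single_eq_same]
      simp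
  have hD0 : ∀ μ, ((sh (B t) (G t)).coeff μ ≠ 0 ∨ (sh (C t) (H t)).coeff μ ≠ 0) →
      μ.1 ∈ D0 := by
    intro μ hμ
    refine Finset.mem_biUnion.2 ⟨t, ht, Finset.mem_union_left _ (Finset.mem_image.2 ⟨μ, ?_, rfl⟩)⟩
    rw [Finset.mem_union]
    exact hμ.imp Finsupp.mem_support_iff.2 Finsupp.mem_support_iff.2
  obtain ⟨hg1, hg2⟩ := hpr _ _ h2 h3 fun μ hμ => hD0 μ (Or.inl hμ)
  obtain ⟨hh1, hh2⟩ := hpr _ _ h4 h5 fun μ hμ => hD0 μ (Or.inr hμ)
  have hne : ∀ z : F, v z = 1 → z ≠ 0 := by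
    rintro z hz rfl
    rw [map_zero] at hz
    exact zero_ne_one hz
  have hinv : ∀ z : F, v z = 1 → z⁻¹ ∈ v.valuationSubring.toSubring := by
    intro z hz
    change v z⁻¹ ≤ 1
    rw [map_inv₀, hz, inv_one]
  set u1 := ev k X y (sh (B t) (G t)) with hu1
  set u2 := ev k X y (sh (C t) (H t)) with hu2
  have hu1P : u1 ∈ PC k v b X y := le_lo _ _ hg1
  have hu2P : u2 ∈ PC k v b X y := le_lo _ _ hh1
  have hu1P' : u1⁻¹ ∈ PC k v b X y := inv_mem_lo hS hu1P (hne _ hg2) (hinv _ hg2)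
  have hu2P' : u2⁻¹ ∈ PC k v b X y := inv_mem_lo hS hu2P (hne _ hh2) (hinv _ hh2)
  have ht1 : t = u1 * u2⁻¹ * (X (.ofAdd (B t - C t)) : F) := by
    rw [hev (B t) (G t), hev (C t) (H t), ← hu1, ← hu2] at h1
    have h6 : (X (.ofAdd (B t - C t)) : F) = (X (.ofAdd (B t)) : F) *
        (X (.ofAdd (C t)) : F)⁻¹ := by
      rw [ofAdd_sub, _root_.map_div, div_eq_mul_inv, Units.val_mul, Units.val_inv_eq_inv_val]
    have h7 : (X (.ofAdd (C t)) : F) ≠ 0 := Units.ne_zero _
    have h8 := hne _ hh2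
    rw [h6]
    field_simp
    linear_combination h1
  refine ⟨⟨u1 * u2⁻¹, mul_ne_zero (hne _ hg2) (inv_ne_zero (hne _ hh2)),
    mul_mem hu1P hu2P', ?_, fun o => Option.elim o 0 fun j => b.repr (B t - C t) j, ?_⟩,
    fun htV => ?_⟩
  · rw [mul_inv, inv_inv]
    exact mul_mem hu1P' hu2P
  · rw [← X_mo]
    exact ht1
  · rw [ht1]
    refine mul_mem (mul_mem hu1P hu2P') (le_lo _ _ (X_mem_AC b ?_))
    have h6 : 0 ≤ ω (B t - C t) := by
      have h7 : v t ≤ 1 := htV
      rw [ht1, map_mul, map_mul, map_inv₀, hg2, hh2, inv_one, mul_one, one_mul, S.hX,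
        ex_le_one] at h7
      exact h7
    rcases h6.lt_or_eq with h8 | h8
    · exact hD _ (Finset.mem_filter.2 ⟨Finset.mem_biUnion.2 ⟨t, ht,
        Finset.mem_union_right _ (Finset.mem_singleton_self _)⟩, h8⟩)
    · have h9 : B t - C t = 0 := S.inj (by rw [← h8, map_zero])
      rw [h9]
      exact zero_mem _

end ch

end Pool.Agent.H893
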