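import Mathlib

/-!
# Differentials of function fields
-/

set_option autoImplicit false
set_option linter.unusedVariables false
set_option linter.unusedSectionVars false

universe u

namespace Pool.Agent.H893

open Polynomial
open scoped NNReal TensorProduct

section kd

variable {k K : Type u} [Field k] [Field K] [Algebra k K]

/-- The elements whose differentials belong to `W`. -/
noncomputable def KW (W : Submodule K (KaehlerDifferential k K)) : IntermediateField k K where
  carrier := {x | KaehlerDifferential.D k K x ∈ W}
  mul_mem' := by
    intro a b ha hb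
    change KaehlerDifferential.D k K (a * b) ∈ W
    rw [Derivation.leibniz]
    exact add_mem (W.smul_mem _ hb) (W.smul_mem _ ha)
  one_mem' := by
    change KaehlerDifferential.D k K 1 ∈ W
    rw [Derivation.map_one_eq_zero]
    exact zero_mem _
  add_mem' := by
    intro a b ha hb
    change KaehlerDifferential.D k K (a + b) ∈ W
    rw [map_add]
    exact add_mem ha hb
  zero_mem' := by
    change KaehlerDifferential.D k K 0 ∈ W
    rw [map_zero]
    exact zero_mem _
  algebraMap_mem' := by
    intro c
    change KaehlerDifferential.D k K (algebraMap k K c) ∈ W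
    rw [Derivation.map_algebraMap]
    exact zero_mem _
  inv_mem' := by
    intro a ha
    change KaehlerDifferential.D k K a⁻¹ ∈ W
    rw [Derivation.leibniz_inv]
    exact W.smul_mem _ ha

lemma mem_KW {W : Submodule K (KaehlerDifferential k K)} {x : K} :
    x ∈ KW W ↔ KaehlerDifferential.D k K x ∈ W := Iff.rfl

theorem sep_of_span [Algebra.EssFiniteType k K] (F : IntermediateField k K) (s : Set K)
    (hs : ∀ x ∈ s, x ∈ F)
    (hspan : Submodule.span K (KaehlerDifferential.D k K '' s) = ⊤) :
    Algebra.FormallyUnramified F K := by
  refine ⟨⟨fun a b => ?_⟩⟩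
  have h0 : ∀ a : KaehlerDifferential F K, a = 0 := by
    intro a
    obtain ⟨a, rfl⟩ := KaehlerDifferential.map_surjective k F K a
    have h1 : a ∈ Submodule.span K (KaehlerDifferential.D k K '' s) := by
      rw [hspan]
      trivial
    induction h1 using Submodule.span_induction with
    | mem a ha =>
      obtain ⟨x, hx, rfl⟩ := ha
      rw [KaehlerDifferential.map_D]
      have h2 : algebraMap K K x = algebraMap F K ⟨x, hs x hx⟩ := rfl
      rw [h2, Derivation.map_algebraMap]
    | zero => rw [map_zero]
    | add a b _ _ ha hb => rw [map_add, ha, hb, add_zero]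
    | smul c a _ ha => rw [map_smul, ha, smul_zero]
  rw [h0 a, h0 b]

theorem span_of_sep [Algebra.EssFiniteType k K] (s : Set K)
    [Algebra.IsSeparable (IntermediateField.adjoin k s) K] :
    Submodule.span K (KaehlerDifferential.D k K '' s) = ⊤ := by
  set F := IntermediateField.adjoin k s with hF
  have hE : Algebra.EssFiniteType F K := Algebra.EssFiniteType.of_comp k F K
  have hU : Algebra.FormallyUnramified F K :=
    (Algebra.FormallyUnramified.iff_isSeparable F K).2 inferInstance
  set W := Submodule.span K (KaehlerDifferential.D k K '' s) with hW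
  have hFW : F ≤ KW W := by
    rw [hF, IntermediateField.adjoin_le_iff]
    intro x hx
    exact Submodule.subset_span ⟨x, hx, rfl⟩
  rw [eq_top_iff]
  intro a ha0
  clear ha0
  have h1 : a ∈ LinearMap.range (KaehlerDifferential.mapBaseChange k F K) := by
    rw [KaehlerDifferential.range_mapBaseChange, LinearMap.mem_ker]
    exact Subsingleton.elim _ _
  obtain ⟨a, rfl⟩ := h1
  induction a with
  | zero => rw [map_zero]; exact zero_mem _
  | add a b ha hb => rw [map_add]; exact add_mem ha hb
  | tmul c x =>
    rw [KaehlerDifferential.mapBaseChange_tmul]
    refine W.smul_mem _ ?_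
    have h2 : x ∈ Submodule.span F (Set.range (KaehlerDifferential.D k F)) := by
      rw [KaehlerDifferential.span_range_derivation]
      trivial
    induction h2 using Submodule.span_induction with
    | mem x hx =>
      obtain ⟨y, rfl⟩ := hx
      rw [KaehlerDifferential.map_D]
      exact hFW y.2
    | zero => rw [map_zero]; exact zero_mem _
    | add a b _ _ ha hb => rw [map_add]; exact add_mem ha hb
    | smul c a _ ha =>
      rw [map_smul]
      exact W.smul_mem (c : K) ha

lemma trdeg_le_of_span [Algebra.EssFiniteType k K] {m : ℕ} (w : Fin m → K)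
    (hspan : Submodule.span K (Set.range fun i => KaehlerDifferential.D k K (w i)) = ⊤) :
    Algebra.trdeg k K ≤ m := by
  set F := IntermediateField.adjoin k (Set.range w) with hF
  have hE : Algebra.EssFiniteType F K := Algebra.EssFiniteType.of_comp k F K
  have hU := sep_of_span F (Set.range w)
    (fun x hx => IntermediateField.subset_adjoin _ _ hx) (by rw [← Set.range_comp]; exact hspan)
  have hS : Algebra.IsSeparable F K := (Algebra.FormallyUnramified.iff_isSeparable F K).1 hU
  have h1 : Algebra.IsAlgebraic F K := inferInstance
  have h2 : Algebra.IsAlgebraic (Algebra.adjoin k (Set.range w)) K := by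
    exact IntermediateField.isAlgebraic_adjoin_iff_top.1 h1
  refine (Algebra.IsAlgebraic.trdeg_le_cardinalMk k (Set.range w)).trans ?_
  have h3 := Cardinal.mk_range_le_lift (f := w)
  simpa using h3

end kd

end Pool.Agent.H893
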