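import Pool.Agent.H893.D1

/-!
# Elements with given values and independent differentials
-/

set_option autoImplicit false
set_option linter.unusedVariables false
set_option linter.unusedSectionVars false

universe u

namespace Pool.Agent.H893

open Polynomial
open scoped NNReal TensorProduct

section mod

variable {k K : Type u} [Field k] [Field K] [Algebra k K] {v : Valuation K ℝ≥0}

lemma exists_mod (p : ℕ) [Fact p.Prime] [CharP K p]
    (W : Submodule K (KaehlerDifferential k K)) (hW : W ≠ ⊤) {π : K} (hπ0 : π ≠ 0)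
    (hπ : v π < 1) {x : K} (hx : x ≠ 0) :
    ∃ x', v x' = v x ∧ KaehlerDifferential.D k K x' ∉ W := by
  by_cases h : KaehlerDifferential.D k K x ∉ W
  · exact ⟨x, rfl, h⟩
  push Not at h
  have hp : p.Prime := Fact.out
  obtain ⟨t, ht⟩ : ∃ t, KaehlerDifferential.D k K t ∉ W := by
    by_contra hcon
    push Not at hcon
    apply hW
    rw [eq_top_iff, ← KaehlerDifferential.span_range_derivation, Submodule.span_le]
    rintro _ ⟨t, rfl⟩
    exact hcon t
  have ht0 : t ≠ 0 := by
    rintro rfl
    apply ht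
    rw [map_zero]
    exact zero_mem _
  have hvx : 0 < v x / v t := div_pos (zero_lt_iff.2 ((Valuation.ne_zero_iff _).2 hx))
    (zero_lt_iff.2 ((Valuation.ne_zero_iff _).2 ht0))
  obtain ⟨N, hN⟩ := exists_pow_lt_of_lt_one hvx hπ
  have hlt : v ((π ^ N) ^ p * t) < v x := by
    have hvt : 0 < v t := zero_lt_iff.2 ((Valuation.ne_zero_iff _).2 ht0)
    rw [lt_div_iff₀ hvt] at hN
    refine lt_of_le_of_lt ?_ hN
    rw [map_mul, map_pow, map_pow]
    refine mul_le_mul_of_nonneg_right ?_ zero_le
    exact pow_le_of_le_one zero_le (pow_le_one₀ zero_le hπ.le) hp.ne_zero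
  refine ⟨x + (π ^ N) ^ p * t, v.map_add_eq_of_lt_left hlt, ?_⟩
  rw [map_add, Derivation.leibniz, Derivation.leibniz_pow]
  intro hcon
  have h1 : (p : ℕ) • (π ^ N) ^ (p - 1) • KaehlerDifferential.D k K (π ^ N) = 0 := by
    rw [← Nat.cast_smul_eq_nsmul K, CharP.cast_eq_zero K p, zero_smul]
  rw [h1, smul_zero, add_zero] at hcon
  have h2 := (Submodule.add_mem_iff_right W h).1 hcon
  have h3 := W.smul_mem ((π ^ N) ^ p)⁻¹ h2
  rw [smul_smul, inv_mul_cancel₀ (pow_ne_zero _ (pow_ne_zero _ hπ0)), one_smul] at h3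
  exact ht h3

theorem exists_indep [Algebra.EssFiniteType k K] (p : ℕ) [Fact p.Prime] [CharP K p] {n : ℕ}
    (htr : Algebra.trdeg k K = (n : ℕ)) {π : K} (hπ0 : π ≠ 0) (hπ : v π < 1) :
    ∀ m ≤ n, ∀ x : Fin m → K, (∀ i, x i ≠ 0) → ∃ x' : Fin m → K, (∀ i, v (x' i) = v (x i)) ∧
      LinearIndependent K fun i => KaehlerDifferential.D k K (x' i) := by
  intro m
  induction m with
  | zero =>
    intro _ x _
    exact ⟨x, fun i => rfl, linearIndependent_empty_type⟩
  | succ m ih =>
    intro hm x hx
    obtain ⟨x', h1, h2⟩ := ih (by omega) (fun i => x i.castSucc) fun i => hx _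
    have hW : Submodule.span K (Set.range fun i => KaehlerDifferential.D k K (x' i)) ≠ ⊤ := by
      intro h
      have h3 := trdeg_le_of_span x' h
      rw [htr] at h3
      have h4 : n ≤ m := by exact_mod_cast h3
      omega
    obtain ⟨y, hy, hyW⟩ := exists_mod p _ hW hπ0 hπ (hx (Fin.last m))
    refine ⟨Fin.snoc x' y, ?_, ?_⟩
    · intro i
      refine Fin.lastCases ?_ (fun j => ?_) i
      · rw [Fin.snoc_last]
        exact hy
      · rw [Fin.snoc_castSucc]
        exact h1 j
    · have h3 : (fun i => KaehlerDifferential.D k K ((Fin.snoc x' y : Fin (m + 1) → K) i)) =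
          (Fin.snoc (fun i => KaehlerDifferential.D k K (x' i)) (KaehlerDifferential.D k K y) :
            Fin (m + 1) → KaehlerDifferential k K) :=
        Fin.comp_snoc (KaehlerDifferential.D k K) x' y
      rw [h3, linearIndependent_finSnoc]
      exact ⟨h2, hyW⟩

/-- The powers of linearly independent elements are linearly independent if the residue field is
the ground field. -/
theorem linIndep_pow (p : ℕ) [Fact p.Prime] [CharP k p]
    (hk : ∀ c : k, c ≠ 0 → v (algebraMap k K c) = 1)
    (hres : ∀ x : K, v x ≤ 1 → ∃ c : k, v (x - algebraMap k K c) < 1) (s : Finset K)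
    (hs : LinearIndepOn k _root_.id (s : Set K)) : LinearIndepOn k (· ^ p) (s : Set K) := by
  classical
  have hCK : CharP K p := charP_of_injective_algebraMap (algebraMap k K).injective p
  have hpp : p.Prime := Fact.out
  rw [linearIndepOn_finset_iff] at hs ⊢
  intro c hc
  let F : Subfield k := (frobenius k p).fieldRange
  let W : Submodule F k := Submodule.span F (Set.range fun a : s => c a)
  have hWf : Module.Finite F W := Module.Finite.span_of_finite F (Set.finite_range _)
  let b := Module.finBasis F W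
  have hcW : ∀ a : s, c a ∈ W := fun a => Submodule.subset_span ⟨a, rfl⟩
  have hb : ∀ a : s, ∃ β : Fin (Module.finrank F W) → k, c a = ∑ j, β j ^ p * (b j : k) := by
    intro a
    have h1 := b.sum_repr ⟨c a, hcW a⟩
    have h2 : ∀ j, ∃ β : k, β ^ p = ((b.repr ⟨c a, hcW a⟩ j : F) : k) := fun j => by
      obtain ⟨β, hβ⟩ := (b.repr ⟨c a, hcW a⟩ j).2
      exact ⟨β, hβ⟩
    choose β hβ using h2
    refine ⟨β, ?_⟩
    have h3 := congrArg (Subtype.val : W → k) h1
    rw [Submodule.coe_sum] at h3
    refine h3.symm.trans ?_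
    refine Finset.sum_congr rfl fun j _ => ?_
    rw [hβ]
    rfl
  choose β hβ using hb
  let A : Fin (Module.finrank F W) → K := fun j => ∑ a : s, algebraMap k K (β a j) * (a : K)
  have hbind : ∀ r : Fin (Module.finrank F W) → k, ∑ j, r j ^ p * (b j : k) = 0 →
      ∀ j, r j = 0 := by
    intro r hr j
    have h1 : ∑ j, (⟨r j ^ p, ⟨r j, rfl⟩⟩ : F) • b j = 0 := by
      apply Subtype.ext
      rw [Submodule.coe_sum]
      exact hr
    have h2 := Fintype.linearIndependent_iff.1 b.linearIndependent _ h1 j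
    have h3 := congrArg (Subtype.val : F → k) h2
    exact pow_eq_zero_iff hpp.ne_zero |>.1 h3
  have hsum : ∑ j, A j ^ p * algebraMap k K (b j : k) = 0 := by
    rw [← hc, ← Finset.sum_coe_sort s fun a => c a • a ^ p]
    have h1 : ∀ j, A j ^ p * algebraMap k K (b j : k) =
        ∑ a : s, algebraMap k K (β a j ^ p * (b j : k)) * (a : K) ^ p := by
      intro j
      change (∑ a : s, algebraMap k K (β a j) * (a : K)) ^ p * _ = _
      rw [sum_pow_char, Finset.sum_mul]
      refine Finset.sum_congr rfl fun a _ => ?_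
      rw [map_mul, map_pow, mul_pow]
      ring
    rw [Finset.sum_congr rfl fun j _ => h1 j, Finset.sum_comm]
    refine Finset.sum_congr rfl fun a _ => ?_
    rw [← Finset.sum_mul, ← map_sum, ← hβ a, Algebra.smul_def]
  have hA : ∀ j, A j = 0 := by
    by_contra hcon
    push Not at hcon
    obtain ⟨j1, hj1⟩ := hcon
    obtain ⟨j0, -, hj0⟩ := Finset.exists_max_image Finset.univ (fun j => v (A j)) ⟨j1, by simp⟩
    have hA0 : A j0 ≠ 0 := by
      intro h
      have h1 := hj0 j1 (Finset.mem_univ _)
      rw [h, map_zero, nonpos_iff_eq_zero] at h1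
      exact hj1 ((map_eq_zero v).1 h1)
    have hv0 : v (A j0) ≠ 0 := (Valuation.ne_zero_iff _).2 hA0
    have hB : ∀ j, v (A j / A j0) ≤ 1 := by
      intro j
      rw [map_div₀]
      exact div_le_one_of_le₀ (hj0 j (Finset.mem_univ _)) zero_le
    choose r hr using fun j => hres _ (hB j)
    have hsum2 : ∑ j, (A j / A j0) ^ p * algebraMap k K (b j : k) = 0 := by
      have h1 : ∑ j, (A j / A j0) ^ p * algebraMap k K (b j : k) =
          (∑ j, A j ^ p * algebraMap k K (b j : k)) / A j0 ^ p := by
        rw [Finset.sum_div]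
        refine Finset.sum_congr rfl fun j _ => ?_
        rw [div_pow]
        ring
      rw [h1, hsum, zero_div]
    have hr0 : ∑ j, r j ^ p * (b j : k) = 0 := by
      by_contra hne
      have h1 := hk _ hne
      have h2 : algebraMap k K (∑ j, r j ^ p * (b j : k)) =
          -∑ j, (A j / A j0 - algebraMap k K (r j)) ^ p * algebraMap k K (b j : k) := by
        have h3 : ∑ j, (A j / A j0 - algebraMap k K (r j)) ^ p * algebraMap k K (b j : k) =
            ∑ j, (A j / A j0) ^ p * algebraMap k K (b j : k) -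
              algebraMap k K (∑ j, r j ^ p * (b j : k)) := by
          rw [map_sum, ← Finset.sum_sub_distrib]
          refine Finset.sum_congr rfl fun j _ => ?_
          rw [sub_pow_char, map_mul, map_pow]
          ring
        rw [h3, hsum2, zero_sub, neg_neg]
      rw [h2, Valuation.map_neg] at h1
      refine absurd h1 (ne_of_lt (v.map_sum_lt one_ne_zero fun j _ => ?_))
      rw [map_mul, map_pow]
      have h4 : v (algebraMap k K (b j : k)) ≤ 1 := by
        by_cases h5 : (b j : k) = 0
        · rw [h5, map_zero, map_zero]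
          exact zero_le_one
        · exact (hk _ h5).le
      refine lt_of_le_of_lt (mul_le_of_le_one_right zero_le h4) ?_
      exact pow_lt_one₀ zero_le (hr j) hpp.ne_zero
    have h1 := hr j0
    rw [div_self hA0, hbind r hr0 j0, map_zero, sub_zero, map_one] at h1
    exact lt_irrefl _ h1
  have hβ0 : ∀ a j, β a j = 0 := by
    intro a j
    let g : K → k := fun t => if h : t ∈ s then β ⟨t, h⟩ j else 0
    have h1 := hs g (by
      rw [← Finset.sum_coe_sort s fun t => g t • _root_.id t]
      rw [← hA j]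
      refine Finset.sum_congr rfl fun t _ => ?_
      change (if h : (t : K) ∈ s then β ⟨t, h⟩ j else 0) • (t : K) = _
      rw [dif_pos t.2, Algebra.smul_def]) a a.2
    change (if h : (a : K) ∈ s then β ⟨a, h⟩ j else 0) = 0 at h1
    rwa [dif_pos a.2] at h1
  intro t ht
  rw [hβ ⟨t, ht⟩]
  refine Finset.sum_eq_zero fun j _ => ?_
  rw [hβ0, zero_pow hpp.ne_zero, zero_mul]

theorem span_eq_top [Algebra.EssFiniteType k K] (p : ℕ) [Fact p.Prime] [CharP k p]
    (hk : ∀ c : k, c ≠ 0 → v (algebraMap k K c) = 1)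
    (hres : ∀ x : K, v x ≤ 1 → ∃ c : k, v (x - algebraMap k K c) < 1) {n : ℕ}
    (htr : Algebra.trdeg k K = (n : ℕ)) (w : Fin n → K)
    (hw : LinearIndependent K fun i => KaehlerDifferential.D k K (w i)) :
    Submodule.span K (Set.range fun i => KaehlerDifferential.D k K (w i)) = ⊤ := by
  obtain ⟨s, hs, hsep⟩ :=
    exists_isTranscendenceBasis_and_isSeparable_of_linearIndepOn_pow_of_essFiniteType
      (k := k) (K := K) p Fact.out (fun s hs => linIndep_pow p hk hres s hs)
  have hcard : s.card = n := by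
    have h1 := hs.cardinalMk_eq_trdeg
    rw [htr, Cardinal.mk_coe_finset] at h1
    exact_mod_cast h1
  have h1 := span_of_sep (k := k) (s : Set K)
  have h2 : Module.finrank K (KaehlerDifferential k K) ≤ n := by
    have h3 := finrank_range_le_card (R := K) fun i : s => KaehlerDifferential.D k K (i : K)
    have h4 : Set.range (fun i : s => KaehlerDifferential.D k K (i : K)) =
        KaehlerDifferential.D k K '' (s : Set K) := by
      ext a
      constructor
      · rintro ⟨i, rfl⟩
        exact ⟨i, i.2, rfl⟩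
      · rintro ⟨i, hi, rfl⟩
        exact ⟨⟨i, hi⟩, rfl⟩
    rw [h4, Set.finrank, h1, finrank_top, Fintype.card_coe, hcard] at h3
    exact h3
  have h3 := hw.fintype_card_le_finrank
  rw [Fintype.card_fin] at h3
  exact hw.span_eq_top_of_card_eq_finrank' (by rw [Fintype.card_fin]; omega)

lemma exists_small (hk : ∀ c : k, c ≠ 0 → v (algebraMap k K c) = 1)
    (hres : ∀ x : K, v x ≤ 1 → ∃ c : k, v (x - algebraMap k K c) < 1) (z : K) :
    ∃ z' : K, v z' < 1 ∧ ∀ F : IntermediateField k K, z ∈ F ↔ z' ∈ F := by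
  by_cases h : v z ≤ 1
  · obtain ⟨c, hc⟩ := hres z h
    refine ⟨_, hc, fun F => ⟨fun h1 => sub_mem h1 (F.algebraMap_mem c), fun h1 => ?_⟩⟩
    have h2 := add_mem h1 (F.algebraMap_mem c)
    rwa [sub_add_cancel] at h2
  · push Not at h
    refine ⟨z⁻¹, ?_, fun F => ⟨fun h1 => inv_mem h1, fun h1 => ?_⟩⟩
    · rw [map_inv₀]
      exact inv_lt_one_of_one_lt₀ h
    · have h2 := inv_mem h1
      rwa [inv_inv] at h2

end mod

end Pool.Agent.H893
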