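import Pool.Agent.H893.LB

/-!
# The bound for the slope after a ramified step
-/

set_option autoImplicit false
set_option linter.unusedVariables false
set_option linter.unusedSectionVars false

namespace Pool.Agent.H893

open Polynomial

section slc

variable {k : Type*} [Field k]

/-- The slope at `c` is at least `b`. -/
def Slc (c : k) (d : ℕ) (b : ℝ) (G : k[X][X]) : Prop :=
  ∀ j : ℕ, j < d → og (((d : ℝ) - (j : ℝ)) * b) (taylor c (G.coeff j))

lemma Slc.all {c : k} {d : ℕ} {b : ℝ} {G : k[X][X]} (h : Slc c d b G) (hb : 0 ≤ b) (j : ℕ) :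
    og (((d : ℝ) - (j : ℝ)) * b) (taylor c (G.coeff j)) := by
  by_cases hj : j < d
  · exact h j hj
  · apply og_nonpos
    push Not at hj
    have h1 : (d : ℝ) ≤ j := by exact_mod_cast hj
    exact mul_nonpos_of_nonpos_of_nonneg (by linarith) hb

lemma Slc.taylor {c : k} {d : ℕ} {b : ℝ} {G : k[X][X]} (h : Slc c d b G) (hb : 0 ≤ b) {ρ : k[X]}
    (hρ : og b (taylor c ρ)) : Slc c d b (taylor ρ G) := by
  intro j hj
  rw [coeff_taylor G ρ j _ (Nat.lt_succ_self _), map_sum]
  refine og_sum _ _ fun i _ => ?_
  rw [taylor_mul, taylor_mul, taylor_pow]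
  have h1 : Polynomial.taylor c ((i.choose j : ℕ) : k[X]) = ((i.choose j : ℕ) : k[X]) := by
    rw [← C_eq_natCast, taylor_C]
  rw [h1]
  by_cases hij : i < j
  · rw [Nat.choose_eq_zero_of_lt hij]
    simpa using og_zero _
  · push Not at hij
    apply og_natCast_mul
    refine og_mono (le_of_eq ?_) (og_mul (h.all hb i) (og_pow hρ (i - j)))
    rw [Nat.cast_sub hij]
    ring

end slc

section main

variable {k : Type*} [Field k] (p : ℕ) [Fact p.Prime] [CharP k p]

/-- The coefficient below a gap. -/
lemma coeff_gap {d : ℕ} {G : k[X][X]} (hG : ∀ j, d < j → G.coeff j = 0) {j : ℕ} (hj : j < d)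
    (hgap : ∀ i, j < i → i < d → G.coeff i = 0) (ρ : k[X]) :
    (taylor ρ G).coeff j = G.coeff j + ((d.choose j : ℕ) : k[X]) * (G.coeff d * ρ ^ (d - j)) := by
  have hdeg : G.natDegree < d + 1 := by
    rw [Nat.lt_succ_iff, natDegree_le_iff_coeff_eq_zero]
    exact hG
  rw [coeff_taylor G ρ j (d + 1) hdeg, Finset.sum_range_succ]
  congr 1
  rw [Finset.sum_eq_single_of_mem j (Finset.mem_range.2 hj)]
  · simp
  · intro i hi hij
    rcases lt_or_gt_of_ne hij with h | h
    · rw [Nat.choose_eq_zero_of_lt h]
      simp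
    · rw [hgap i h (Finset.mem_range.1 hi), zero_mul, mul_zero]

include p in
theorem lemB {d : ℕ} (hd : 0 < d) {G : k[X][X]} {c0 : k} (hc0 : c0 ≠ 0) (hGd : G.coeff d = C c0)
    (hG : ∀ j, d < j → G.coeff j = 0) {τ w : ℝ} (hw : 0 ≤ w)
    (hiv : ∀ j : ℕ, j < d → iv (((d : ℝ) - j) * τ) (((d : ℝ) - j) * (τ + w)) (G.coeff j))
    {c : k} (hc : c ≠ 0) (hnp : ∀ ρ, G ≠ C (C c0) * (X - C ρ) ^ d) (ρ : k[X]) (b' : ℝ)
    (h : Slc c d b' (taylor ρ G)) : b' ≤ w + 1 / 2 ∧ (w ≤ 1 / 2 → b' < 1) := by
  have hp : p.Prime := Fact.out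
  by_cases hb' : b' < 0
  · exact ⟨by linarith, fun _ => by linarith⟩
  push Not at hb'
  obtain ⟨e, d', hpd', hde⟩ := Nat.exists_eq_pow_mul_and_not_dvd hd.ne' p hp.ne_one
  set q := p ^ e with hq
  have hq0 : 0 < q := pow_pos hp.pos e
  have hd'0 : 0 < d' := by
    rcases Nat.eq_zero_or_pos d' with h1 | h1
    · rw [h1, mul_zero] at hde
      omega
    · exact h1
  have hqd : q ≤ d := by
    rw [hde]
    exact Nat.le_mul_of_pos_right _ hd'0
  have hqR : ((p : ℝ) ^ e) = (q : ℝ) := by rw [hq]; push_cast; rfl
  have hd'k : ((d' : ℕ) : k) ≠ 0 := by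
    rw [Ne, CharP.cast_eq_zero_iff k p]
    exact hpd'
  suffices hmain : b' ≤ w ∨ (b' ≤ w + 1 / 2 ∧ (w ≤ 1 / 2 → b' < 1)) by
    rcases hmain with h1 | h1
    · exact ⟨by linarith, fun h2 => by linarith⟩
    · exact h1
  by_cases hcase : ∃ j, j < d ∧ d - j < q ∧ G.coeff j ≠ 0
  · -- case (ii)
    left
    obtain ⟨j, hj⟩ : ∃ j, (j < d ∧ d - j < q ∧ G.coeff j ≠ 0) ∧
        ∀ i, j < i → i < d → G.coeff i = 0 := by
      classical
      let P : ℕ → Prop := fun j => j < d ∧ d - j < q ∧ G.coeff j ≠ 0
      have hP : ∃ j, P j := hcase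
      obtain ⟨j0, hj0⟩ := hP
      refine ⟨Nat.findGreatest P d, Nat.findGreatest_spec (P := P) hj0.1.le hj0, ?_⟩
      intro i hi hid
      by_contra hcon
      have h1 : P (Nat.findGreatest P d) := Nat.findGreatest_spec (P := P) hj0.1.le hj0
      have h2 : P i := ⟨hid, by have := h1.2.1; omega, hcon⟩
      exact absurd (Nat.le_findGreatest hid.le h2) (not_le.2 hi)
    obtain ⟨⟨hjd, hjq, hj0⟩, hgap⟩ := hj
    have h1 := coeff_gap hG hjd hgap ρ
    have h2 : ((d.choose j : ℕ) : k[X]) = 0 := by
      rw [← C_eq_natCast, ← Nat.choose_symm hjd.le, hde, choose_q p e d', if_neg, C_0]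
      intro h3
      have h4 := Nat.le_of_dvd (by omega) h3
      omega
    rw [h2, zero_mul, add_zero] at h1
    have h3 := h j hjd
    rw [h1] at h3
    have h4 : (0 : ℝ) < (d : ℝ) - j := by
      have : (j : ℝ) < d := by exact_mod_cast hjd
      linarith
    have h5 := og_le_width hj0 hc (mul_nonneg h4.le hw) (α := ((d : ℝ) - j) * τ) (by
      rw [← mul_add]
      exact hiv j hjd) h3
    exact le_of_mul_le_mul_left h5 h4
  · -- case (i)
    push Not at hcase
    have hgap0 : ∀ i, d - q < i → i < d → G.coeff i = 0 := by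
      intro i hi hid
      by_contra hcon
      exact hcon (hcase i hid (by omega))
    have hchoose : ((d.choose (d - q) : ℕ) : k[X]) = C ((d' : ℕ) : k) := by
      rw [← C_eq_natCast, Nat.choose_symm hqd, hde, choose_q p e d', if_pos dvd_rfl,
        Nat.div_self hq0, Nat.choose_one_right]
    have hdq : d - q < d := by omega
    have hdqR : (d : ℝ) - ((d - q : ℕ) : ℝ) = q := by
      rw [Nat.cast_sub hqd]
      ring
    have hddq : d - (d - q) = q := by omega
    have h1 := coeff_gap hG hdq hgap0 ρ
    rw [hchoose, hGd, hddq, ← mul_assoc, ← C_mul] at h1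
    have h2 := h (d - q) hdq
    have hivq := hiv (d - q) hdq
    rw [hdqR] at h2 hivq
    have hdc0 : ((d' : ℕ) : k) * c0 ≠ 0 := mul_ne_zero hd'k hc0
    set κ : k := ((d' : ℕ) : k) * c0 with hκ
    set G1 : k[X] := C κ⁻¹ * G.coeff (d - q) with hG1def
    have hG1' : G.coeff (d - q) = C κ * G1 := by
      rw [hG1def, ← mul_assoc, ← C_mul, mul_inv_cancel₀ hdc0, C_1, one_mul]
    have hivG1 : iv ((q : ℝ) * τ) ((q : ℝ) * (τ + w)) G1 := by
      intro i hi
      apply hivq
      intro h3
      apply hi
      rw [hG1def, coeff_C_mul, h3, mul_zero]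
    by_cases hpow : ∀ g, G1 ≠ g ^ (p ^ e)
    · right
      rw [h1, hG1', ← mul_add] at h2
      refine key_est p hc hw e G1 ρ ((q : ℝ) * τ) ?_ hpow ?_
      · rw [hqR, ← mul_add]
        exact hivG1
      · rw [hqR]
        rw [taylor_mul, taylor_C] at h2
        intro i hi
        have h5 := h2 i hi
        rw [coeff_C_mul] at h5
        exact (mul_eq_zero.1 h5).resolve_left hdc0
    · left
      push Not at hpow
      obtain ⟨g, hg⟩ := hpow
      -- the root
      set ρ0 : k[X] := -g with hρ0
      have hρ0q : C κ * ρ0 ^ q = -G.coeff (d - q) := by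
        have h3 : (-g) ^ (p ^ e) = -(g ^ (p ^ e)) := by
          have h4 := add_pow_char_pow (p := p) g (-g) (n := e)
          rw [add_neg_cancel, zero_pow (pow_pos hp.pos e).ne'] at h4
          exact (neg_eq_of_add_eq_zero_right h4.symm).symm
        rw [hρ0, hq, h3, ← hg, hG1', mul_neg]
      have hivg : iv τ (τ + w) g := by
        apply iv_of_pow p (e := e)
        rw [hqR, ← hg]
        exact hivG1
      have hivρ0 : iv τ (τ + w) ρ0 := by
        intro i hi
        apply hivg
        intro h3
        apply hi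
        rw [hρ0, coeff_neg, h3, neg_zero]
      set G0 := taylor ρ0 G with hG0
      have hG0d : G0.coeff d = C c0 := by
        have hdeg : G.natDegree < d + 1 := by
          rw [Nat.lt_succ_iff, natDegree_le_iff_coeff_eq_zero]
          exact hG
        rw [hG0, coeff_taylor G ρ0 d (d + 1) hdeg, Finset.sum_range_succ,
          Finset.sum_eq_zero, zero_add, hGd]
        · simp
        · intro i hi
          rw [Nat.choose_eq_zero_of_lt (Finset.mem_range.1 hi)]
          simp
      have hG0' : ∀ j, d < j → G0.coeff j = 0 := by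
        intro j hj
        apply coeff_eq_zero_of_natDegree_lt
        rw [hG0, natDegree_taylor]
        refine lt_of_le_of_lt ?_ hj
        rw [natDegree_le_iff_coeff_eq_zero]
        exact hG
      have hiv0 : ∀ j : ℕ, j < d →
          iv (((d : ℝ) - j) * τ) (((d : ℝ) - j) * (τ + w)) (G0.coeff j) := by
        intro j hj
        have hdeg : G.natDegree < d + 1 := by
          rw [Nat.lt_succ_iff, natDegree_le_iff_coeff_eq_zero]
          exact hG
        rw [hG0, coeff_taylor G ρ0 j (d + 1) hdeg]
        refine iv_sum _ _ fun i hi => ?_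
        rw [Finset.mem_range, Nat.lt_succ_iff] at hi
        by_cases hij : i < j
        · rw [Nat.choose_eq_zero_of_lt hij, Nat.cast_zero, zero_mul]
          exact iv_zero _ _
        · push Not at hij
          apply iv_natCast_mul
          have h3 : iv (((d : ℝ) - i) * τ) (((d : ℝ) - i) * (τ + w)) (G.coeff i) := by
            rcases Nat.lt_or_ge i d with h4 | h4
            · exact hiv i h4
            · have h5 : i = d := le_antisymm hi h4
              subst h5
              rw [hGd, sub_self, zero_mul, zero_mul]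
              exact iv_C c0
          have h4 := iv_mul h3 (iv_pow hivρ0 (i - j))
          have h5 : ((d : ℝ) - i) * τ + ((i - j : ℕ) : ℝ) * τ = ((d : ℝ) - j) * τ := by
            rw [Nat.cast_sub hij]
            ring
          have h6 : ((d : ℝ) - i) * (τ + w) + ((i - j : ℕ) : ℝ) * (τ + w) =
              ((d : ℝ) - j) * (τ + w) := by
            rw [Nat.cast_sub hij]
            ring
          rw [h5, h6] at h4
          exact h4
      have hgapG0 : ∀ i, d - q < i → i < d → G0.coeff i = 0 := by
        intro i hi hid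
        have h3 := coeff_gap hG hid (fun l hl hl' => hgap0 l (by omega) hl') ρ0
        rw [hG0, h3, hgap0 i hi hid, zero_add]
        have h4 : ((d.choose i : ℕ) : k[X]) = 0 := by
          rw [← C_eq_natCast, ← Nat.choose_symm hid.le, hde, choose_q p e d', if_neg, C_0]
          intro h5
          have h6 := Nat.le_of_dvd (by omega) h5
          omega
        rw [h4, zero_mul]
      have hG0q : G0.coeff (d - q) = 0 := by
        have h3 := coeff_gap hG hdq hgap0 ρ0
        rw [hchoose, hGd, hddq, ← mul_assoc, ← C_mul, hρ0q, add_neg_cancel] at h3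
        exact h3
      obtain ⟨j, hjd, hj0⟩ : ∃ j, j < d ∧ G0.coeff j ≠ 0 := by
        by_contra hcon
        push Not at hcon
        have h3 : G0 = C (C c0) * X ^ d := by
          ext1 i
          rw [coeff_C_mul, coeff_X_pow]
          rcases lt_trichotomy i d with h4 | h4 | h4
          · rw [hcon i h4, if_neg h4.ne, mul_zero]
          · subst h4
            rw [hG0d, if_pos rfl, mul_one]
          · rw [hG0' i h4, if_neg h4.ne', mul_zero]
        apply hnp ρ0
        have h4 : taylor (-ρ0) G0 = G := by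
          rw [hG0, taylor_taylor, neg_add_cancel, taylor_zero]
        rw [← h4, h3, taylor_mul, taylor_C, taylor_X_pow, C_neg, sub_eq_add_neg]
      -- the translation
      set ρ1 := ρ - ρ0 with hρ1
      have hG1 : taylor ρ G = taylor ρ1 G0 := by
        rw [hG0, taylor_taylor, hρ1, sub_add_cancel]
      have h3 := coeff_gap hG0' hdq hgapG0 ρ1
      rw [hchoose, hG0d, hG0q, zero_add, hddq, ← mul_assoc, ← C_mul] at h3
      have h4 : og b' (taylor c ρ1) := by
        apply og_of_pow p (e := e)
        rw [hqR]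
        rw [hG1, h3, taylor_mul, taylor_C, taylor_pow] at h2
        intro i hi
        have h5 := h2 i hi
        rw [coeff_C_mul] at h5
        exact (mul_eq_zero.1 h5).resolve_left hdc0
      have h5 : Slc c d b' G0 := by
        have h6 : taylor (-ρ1) (taylor ρ G) = G0 := by
          rw [hG1, taylor_taylor, neg_add_cancel, taylor_zero]
        rw [← h6]
        apply h.taylor hb'
        rw [map_neg]
        exact og_neg h4
      have h6 : (0 : ℝ) < (d : ℝ) - j := by
        have : (j : ℝ) < d := by exact_mod_cast hjd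
        linarith
      have h7 := og_le_width hj0 hc (mul_nonneg h6.le hw) (α := ((d : ℝ) - j) * τ) (by
        rw [← mul_add]
        exact hiv0 j hjd) (h5 j hjd)
      exact le_of_mul_le_mul_left h7 h6

end main

end Pool.Agent.H893
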