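import Pool.Agent.H893.Pt
import Pool.Agent.H893.LB2

/-!
# Points with values in the dual numbers
-/

set_option autoImplicit false
set_option linter.unusedVariables false
set_option linter.unusedSectionVars false

namespace Pool.Agent.H893

open Polynomial
open scoped NNReal

section val

variable {k K L : Type*} [Field k] [Field K] [Algebra k K] [AddCommGroup L]
  {v : Valuation K ℝ≥0}

lemma vk_le (hk : ∀ c : k, c ≠ 0 → v (algebraMap k K c) = 1) (c : k) :
    v (algebraMap k K c) ≤ 1 := by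
  by_cases h : c = 0
  · rw [h, map_zero, map_zero]
    exact zero_le_one
  · exact (hk c h).le

lemma v_nat (n : ℕ) : v (n : K) ≤ 1 := by
  induction n with
  | zero => simp
  | succ n ih =>
    rw [Nat.cast_succ]
    exact (v.map_add _ _).trans (max_le ih (by rw [map_one]))

/-- The values of evaluations. -/
lemma v_ev_le (hk : ∀ c : k, c ≠ 0 → v (algebraMap k K c) = 1) {ω : L →+ ℝ}
    {X : Multiplicative L →* Kˣ} (hX : ∀ β, v (X (.ofAdd β) : K) = ex (ω β)) {y : K} {η : ℝ}
    (hy : v y ≤ ex η) {g : AddMonoidAlgebra k (L × ℕ)} {B : ℝ}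
    (hg : g ∈ ge (k := k) (wW ω η) B) : v (ev k X y g) ≤ ex B := by
  refine ge_induction (p := fun g => v (ev k X y g) ≤ ex B) hg ?_ ?_ ?_
  · rw [map_zero, map_zero]
    exact (ex_pos B).le
  · intro μ c hμ
    rw [ev_single, map_mul, map_mul, map_pow, hX]
    calc v (algebraMap k K c) * (ex (ω μ.1) * v y ^ μ.2)
        ≤ 1 * (ex (ω μ.1) * ex η ^ μ.2) := by
          gcongr
          exact vk_le hk c
      _ = ex (wW ω η μ) := by
          rw [one_mul, ← ex_nmul, ← ex_add, wW_apply]
      _ ≤ ex B := ex_le.2 hμ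
  · intro a b ha hb
    rw [map_add]
    exact (v.map_add _ _).trans (max_le ha hb)

lemma v_ev_lt (hk : ∀ c : k, c ≠ 0 → v (algebraMap k K c) = 1) {ω : L →+ ℝ}
    {X : Multiplicative L →* Kˣ} (hX : ∀ β, v (X (.ofAdd β) : K) = ex (ω β)) {y : K} {η : ℝ}
    (hy : v y ≤ ex η) {g : AddMonoidAlgebra k (L × ℕ)} {B : ℝ}
    (hg : g ∈ gt (k := k) (wW ω η) B) : v (ev k X y g) < ex B := by
  refine gt_induction (p := fun g => v (ev k X y g) < ex B) hg ?_ ?_ ?_
  · rw [map_zero, map_zero]
    exact ex_pos B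
  · intro μ c hμ
    refine lt_of_le_of_lt (v_ev_le hk hX hy (B := wW ω η μ) (single_mem_ge fun _ => le_rfl)) ?_
    exact ex_lt.2 hμ
  · intro a b ha hb
    rw [map_add]
    exact lt_of_le_of_lt (v.map_add _ _) (max_lt ha hb)

/-- The value of a unit. -/
lemma v_ev_unit (hk : ∀ c : k, c ≠ 0 → v (algebraMap k K c) = 1) {ω : L →+ ℝ}
    {X : Multiplicative L →* Kˣ} (hX : ∀ β, v (X (.ofAdd β) : K) = ex (ω β)) {y : K} {η : ℝ}
    (hy : v y ≤ ex η) {g : AddMonoidAlgebra k (L × ℕ)} {c : k} (hc : c ≠ 0)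
    (hg : g - AddMonoidAlgebra.single 0 c ∈ gt (k := k) (wW ω η) 0) : v (ev k X y g) = 1 := by
  have h1 := v_ev_lt hk hX hy hg
  rw [ex_zero] at h1
  have h2 : ev k X y g = ev k X y (g - AddMonoidAlgebra.single 0 c) + algebraMap k K c := by
    rw [map_sub, ev_single]
    simp
  rw [h2]
  rw [← hk c hc] at h1
  rw [v.map_add_eq_of_lt_right h1, hk c hc]

/-- Roots of polynomials of Weierstrass type. -/
lemma v_root {c : ℕ → K} {N d : ℕ} (hdN : d < N) {z : K} {A : ℝ} (hA : 0 ≤ A) (hz : v z < 1)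
    (h0 : ∑ j ∈ Finset.range N, c j * z ^ j = 0) (hcd : v (c d) = 1)
    (hc1 : ∀ j, v (c j) ≤ 1) (hc : ∀ j : ℕ, j < d → v (c j) ≤ ex (((d : ℝ) - j) * A)) :
    v z ≤ ex A := by
  by_contra hcon
  push Not at hcon
  have hz0 : 0 < v z := lt_trans (ex_pos A) hcon
  have h1 : ∑ j ∈ (Finset.range N).erase d, c j * z ^ j = -(c d * z ^ d) := by
    have h2 := Finset.add_sum_erase (Finset.range N) (fun j => c j * z ^ j)
      (Finset.mem_range.2 hdN)
    rw [h0] at h2
    exact eq_neg_of_add_eq_zero_right h2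
  have h2 : v (∑ j ∈ (Finset.range N).erase d, c j * z ^ j) < v z ^ d := by
    refine v.map_sum_lt (pow_pos hz0 d).ne' fun j hj => ?_
    rw [map_mul, map_pow]
    have hjd : j ≠ d := (Finset.mem_erase.1 hj).1
    rcases lt_or_gt_of_ne hjd with h3 | h3
    · have h4 : v z ^ d = v z ^ (d - j) * v z ^ j := by
        rw [← pow_add]
        congr 1
        omega
      rw [h4]
      refine mul_lt_mul_of_pos_right ?_ (pow_pos hz0 j)
      refine (hc j h3).trans_lt ?_
      have h5 : ((d : ℝ) - j) = ((d - j : ℕ) : ℝ) := by rw [Nat.cast_sub h3.le]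
      rw [h5, ex_nmul]
      exact pow_lt_pow_left₀ hcon (ex_pos A).le (by omega)
    · calc v (c j) * v z ^ j ≤ 1 * v z ^ j := mul_le_mul_of_nonneg_right (hc1 j) (by positivity)
        _ = v z ^ j := one_mul _
        _ < v z ^ d := pow_lt_pow_right_of_lt_one₀ hz0 hz h3
  rw [h1, Valuation.map_neg, map_mul, map_pow, hcd, one_mul] at h2
  exact lt_irrefl _ h2

end val

section dual

variable {k K L : Type*} [Field k] [Field K] [Algebra k K] [AddCommGroup L]
  {v : Valuation K ℝ≥0}

/-- The underlying point. -/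
noncomputable def XK (k : Type*) {K L : Type*} [Field k] [Field K] [Algebra k K] [AddCommGroup L]
    (X : Multiplicative L →* (DualNumber K)ˣ) : Multiplicative L →* Kˣ :=
  (Units.map ((TrivSqZeroExt.fstHom k K K : DualNumber K →ₐ[k] K) : DualNumber K →* K)).comp X

lemma XK_apply (X : Multiplicative L →* (DualNumber K)ˣ) (β : Multiplicative L) :
    (XK k X β : K) = (X β : DualNumber K).fst := rfl

lemma fst_ev (X : Multiplicative L →* (DualNumber K)ˣ) (y : DualNumber K)
    (g : AddMonoidAlgebra k (L × ℕ)) : (ev k X y g).fst = ev k (XK k X) y.fst g :=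
  (ev_map (TrivSqZeroExt.fstHom k K K) X y g).symm

lemma fst_evL (X : Multiplicative L →* (DualNumber K)ˣ)
    (g : AddMonoidAlgebra k L) : (evL k X g).fst = evL k (XK k X) g :=
  (evL_map (TrivSqZeroExt.fstHom k K K) X g).symm

lemma snd_mul' (a b : DualNumber K) : (a * b).snd = a.fst * b.snd + b.fst * a.snd := by
  rw [TrivSqZeroExt.snd_mul]; simp [mul_comm]

/-- The bound for both components. -/
def FB (v : Valuation K ℝ≥0) (C : ℝ≥0) (B : ℝ) (a : DualNumber K) : Prop :=
  v a.fst ≤ ex B ∧ v a.snd ≤ C * ex B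

lemma FB.mul {C : ℝ≥0} {B B' : ℝ} {a b : DualNumber K} (ha : FB v C B a) (hb : FB v C B' b) :
    FB v C (B + B') (a * b) := by
  constructor
  · rw [TrivSqZeroExt.fst_mul, map_mul, ex_add]
    exact mul_le_mul' ha.1 hb.1
  · rw [snd_mul', ex_add]
    refine (v.map_add _ _).trans (max_le ?_ ?_)
    · rw [map_mul]
      calc v a.fst * v b.snd ≤ ex B * (C * ex B') := mul_le_mul' ha.1 hb.2
        _ = C * (ex B * ex B') := by ring
    · rw [map_mul]
      calc v b.fst * v a.snd ≤ ex B' * (C * ex B) := mul_le_mul' hb.1 ha.2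
        _ = C * (ex B * ex B') := by ring

lemma FB.add {C : ℝ≥0} {B : ℝ} {a b : DualNumber K} (ha : FB v C B a) (hb : FB v C B b) :
    FB v C B (a + b) := by
  constructor
  · rw [TrivSqZeroExt.fst_add]
    exact (v.map_add _ _).trans (max_le ha.1 hb.1)
  · rw [TrivSqZeroExt.snd_add]
    exact (v.map_add _ _).trans (max_le ha.2 hb.2)

lemma FB.zero {C : ℝ≥0} {B : ℝ} : FB v C B (0 : DualNumber K) := by
  constructor <;> simp

lemma FB.alg (hk : ∀ c : k, c ≠ 0 → v (algebraMap k K c) = 1) {C : ℝ≥0} (c : k) :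
    FB v C 0 (algebraMap k (DualNumber K) c) := by
  have h1 : algebraMap k (DualNumber K) c = TrivSqZeroExt.inl (algebraMap k K c) := rfl
  rw [h1]
  constructor
  · rw [TrivSqZeroExt.fst_inl, ex_zero]
    exact vk_le hk c
  · simp

lemma FB.pow {C : ℝ≥0} {B : ℝ} {a : DualNumber K} (ha : FB v C B a) (n : ℕ) :
    FB v C (n * B) (a ^ n) := by
  induction n with
  | zero => constructor <;> simp
  | succ n ih =>
    rw [pow_succ]
    have h1 := ih.mul ha
    have h2 : ((n + 1 : ℕ) : ℝ) * B = n * B + B := by push_cast; ring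
    rw [h2]
    exact h1

lemma FB.mono {C C' : ℝ≥0} (hC : C ≤ C') {B : ℝ} {a : DualNumber K} (ha : FB v C B a) :
    FB v C' B a := ⟨ha.1, ha.2.trans (mul_le_mul_of_nonneg_right hC (ex_pos B).le)⟩

lemma FB.ev (hk : ∀ c : k, c ≠ 0 → v (algebraMap k K c) = 1) {ω : L →+ ℝ}
    {X : Multiplicative L →* (DualNumber K)ˣ} {C : ℝ≥0}
    (hX : ∀ β, FB v C (ω β) (X (.ofAdd β) : DualNumber K)) {y : DualNumber K} {η : ℝ}
    (hy : FB v C η y) {g : AddMonoidAlgebra k (L × ℕ)} {B : ℝ}
    (hg : g ∈ ge (k := k) (wW ω η) B) : FB v C B (ev k X y g) := by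
  refine ge_induction (p := fun g => FB v C B (Pool.Agent.H893.ev k X y g)) hg ?_ ?_ ?_
  · rw [map_zero]
    exact FB.zero
  · intro μ c hμ
    rw [ev_single]
    have h1 := (FB.alg hk c).mul ((hX μ.1).mul (hy.pow μ.2))
    rw [zero_add, ← wW_apply] at h1
    exact ⟨h1.1.trans (ex_le.2 hμ), h1.2.trans (mul_le_mul_of_nonneg_left (ex_le.2 hμ) C.2)⟩
  · intro a b ha hb
    rw [map_add]
    exact ha.add hb

/-- The existence of a constant. -/
lemma exists_FB [Module.Free ℤ L] [Module.Finite ℤ L] {ω : L →+ ℝ}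
    {X : Multiplicative L →* (DualNumber K)ˣ}
    (hX : ∀ β, v (X (.ofAdd β) : DualNumber K).fst = ex (ω β)) :
    ∃ C : ℝ≥0, ∀ β, FB v C (ω β) (X (.ofAdd β) : DualNumber K) := by
  classical
  let b := Module.Free.chooseBasis ℤ L
  let C : ℝ≥0 := Finset.univ.sup fun i => v (X (.ofAdd (b i)) : DualNumber K).snd / ex (ω (b i))
  refine ⟨C, ?_⟩
  let H : AddSubgroup L :=
    { carrier := {β | FB v C (ω β) (X (.ofAdd β) : DualNumber K)}
      zero_mem' := by
        have h : (X (.ofAdd (0 : L)) : DualNumber K) = 1 := by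
          rw [ofAdd_zero, map_one]
          rfl
        change FB v C (ω 0) (X (.ofAdd (0 : L)) : DualNumber K)
        rw [h]
        constructor <;> simp
      add_mem' := by
        intro x y hx hy
        change FB v C (ω (x + y)) (X (.ofAdd (x + y)) : DualNumber K)
        rw [ofAdd_add, map_mul, Units.val_mul, map_add]
        exact FB.mul hx hy
      neg_mem' := by
        intro x hx
        change FB v C (ω (-x)) (X (.ofAdd (-x)) : DualNumber K)
        refine ⟨(hX _).le, ?_⟩
        have h1 : (X (.ofAdd x) : DualNumber K) * (X (.ofAdd (-x)) : DualNumber K) = 1 := by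
          rw [← Units.val_mul, ← map_mul, ← ofAdd_add, add_neg_cancel, ofAdd_zero, map_one,
            Units.val_one]
        have h2 := congrArg TrivSqZeroExt.snd h1
        rw [snd_mul', TrivSqZeroExt.snd_one] at h2
        have h3 : v ((X (.ofAdd x) : DualNumber K).fst * (X (.ofAdd (-x)) : DualNumber K).snd) =
            v ((X (.ofAdd (-x)) : DualNumber K).fst * (X (.ofAdd x) : DualNumber K).snd) := by
          rw [eq_neg_of_add_eq_zero_left h2, Valuation.map_neg]
        rw [map_mul, map_mul, hX, hX] at h3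
        have h4 := hx.2
        have h5 : v (X (.ofAdd (-x)) : DualNumber K).snd =
            ex (ω (-x)) * v (X (.ofAdd x) : DualNumber K).snd * ex (ω (-x)) := by
          rw [← h3]
          have h6 : ex (ω x) * ex (ω (-x)) = 1 := by
            rw [← ex_add, ← map_add, add_neg_cancel, map_zero, ex_zero]
          calc v (X (.ofAdd (-x)) : DualNumber K).snd
              = (ex (ω x) * ex (ω (-x))) * v (X (.ofAdd (-x)) : DualNumber K).snd := by
                rw [h6, one_mul]
            _ = _ := by ring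
        rw [h5]
        have h6 : ex (ω x) * ex (ω (-x)) = 1 := by
          rw [← ex_add, ← map_add, add_neg_cancel, map_zero, ex_zero]
        calc ex (ω (-x)) * v (X (.ofAdd x) : DualNumber K).snd * ex (ω (-x))
            ≤ ex (ω (-x)) * (C * ex (ω x)) * ex (ω (-x)) := by gcongr
          _ = C * (ex (ω x) * ex (ω (-x))) * ex (ω (-x)) := by ring
          _ = C * ex (ω (-x)) := by rw [h6, mul_one] }
  have hH : ∀ i, b i ∈ H := by
    intro i
    refine ⟨(hX _).le, ?_⟩
    have h1 : v (X (.ofAdd (b i)) : DualNumber K).snd / ex (ω (b i)) ≤ C :=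
      Finset.le_sup (f := fun i => v (X (.ofAdd (b i)) : DualNumber K).snd / ex (ω (b i)))
        (Finset.mem_univ i)
    rwa [div_le_iff₀ (ex_pos _)] at h1
  intro β
  have h1 : β ∈ H := by
    rw [← b.sum_repr β]
    exact sum_mem fun i _ => zsmul_mem (hH i) _
  exact h1

/-- The bound for the levels. -/
theorem level_bound [Module.Free ℤ L] [Module.Finite ℤ L]
    (hk : ∀ c : k, c ≠ 0 → v (algebraMap k K c) = 1) {ω : L →+ ℝ}
    {X : Multiplicative L →* (DualNumber K)ˣ}
    (hX : ∀ β, v (X (.ofAdd β) : DualNumber K).fst = ex (ω β)) {y z : DualNumber K} {η : ℝ}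
    (hη : 0 < η) (hy : v y.fst = ex η) (hz : v z.fst < 1) {d : ℕ} (hd : 2 ≤ d)
    {f : (AddMonoidAlgebra k (L × ℕ))[X]} (hf0 : ∀ j, f.coeff j ∈ ge (k := k) (wW ω η) 0)
    {c0 : k} (hc0 : c0 ≠ 0)
    (hfd : f.coeff d - AddMonoidAlgebra.single 0 c0 ∈ gt (k := k) (wW ω η) 0)
    (hfz : (eval₂ (ev k X y : AddMonoidAlgebra k (L × ℕ) →+* DualNumber K) z f).fst = 0)
    (hfne : eval₂ (ev k X y : AddMonoidAlgebra k (L × ℕ) →+* DualNumber K) z f ≠ 0) :
    ∃ Bd : ℝ, ∀ Φ : AddMonoidAlgebra k (L × ℕ), Φ ∈ gt (k := k) (wW ω η) 0 →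
      ∀ A' : ℝ, Lw (wW ω η) A' d (taylor Φ f) → A' ≤ Bd := by
  obtain ⟨C1, hC1⟩ := exists_FB hX
  set C : ℝ≥0 := C1 ⊔ (v y.snd / ex η) ⊔ v z.snd ⊔ 1 with hC
  have hCpos : 0 < C := lt_of_lt_of_le one_pos le_sup_right
  have hXC : ∀ β, FB v C (ω β) (X (.ofAdd β) : DualNumber K) := fun β =>
    (hC1 β).mono (le_sup_left.trans (le_sup_left.trans le_sup_left))
  have hyC : FB v C η y := by
    refine ⟨hy.le, ?_⟩
    rw [← div_le_iff₀ (ex_pos _)]
    exact le_sup_right.trans (le_sup_left.trans le_sup_left)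
  have hzC : v z.snd ≤ C := le_sup_right.trans le_sup_left
  set κ := eval₂ (ev k X y : AddMonoidAlgebra k (L × ℕ) →+* DualNumber K) z f with hκ
  have hκs : κ.snd ≠ 0 := by
    intro h
    apply hfne
    exact TrivSqZeroExt.ext hfz h
  obtain ⟨K0, hK0⟩ := exists_ex (x := v κ.snd) ((Valuation.ne_zero_iff _).2 hκs)
  obtain ⟨C0, hC0⟩ := exists_ex (x := C) hCpos.ne'
  refine ⟨max 0 ((K0 - C0) / ((d : ℝ) - 1)), ?_⟩
  intro Φ hΦ A' hA'
  by_cases hneg : A' < 0
  · exact hneg.le.trans (le_max_left _ _)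
  push Not at hneg
  refine le_trans ?_ (le_max_right _ _)
  have hd1 : (0 : ℝ) < (d : ℝ) - 1 := by
    have : (2 : ℝ) ≤ d := by exact_mod_cast hd
    linarith
  rw [le_div_iff₀ hd1]
  -- the translation
  set g := taylor Φ f with hg
  set z' := z - ev k X y Φ with hz'
  have hgz : eval₂ (ev k X y : AddMonoidAlgebra k (L × ℕ) →+* DualNumber K) z' g = κ := by
    rw [hg, taylor_apply, eval₂_comp, eval₂_add, eval₂_X, eval₂_C, hκ, hz']
    congr 1
    exact sub_add_cancel _ _
  have hΦK : v (ev k (XK k X) y.fst Φ) < 1 := by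
    rw [← ex_zero]
    exact v_ev_lt hk hX hy.le hΦ
  have hz'1 : v z'.fst < 1 := by
    rw [hz', TrivSqZeroExt.fst_sub, fst_ev]
    exact lt_of_le_of_lt (v.map_sub _ _) (max_lt hz hΦK)
  have hz's : v z'.snd ≤ C := by
    rw [hz', TrivSqZeroExt.snd_sub]
    refine (v.map_sub _ _).trans (max_le hzC ?_)
    have h1 := FB.ev hk hXC hyC (gt_ge hΦ)
    have h2 := h1.2
    rwa [ex_zero, mul_one] at h2
  have hgd : g.coeff d - AddMonoidAlgebra.single 0 c0 ∈ gt (k := k) (wW ω η) 0 := by
    have h1 : (taylor Φ f).coeff d - f.coeff d ∈ gt (k := k) (wW ω η) 0 := by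
      rw [coeff_taylor f Φ d (f.natDegree + d + 1) (by omega),
        Finset.sum_eq_add_sum_sdiff_singleton_of_mem (Finset.mem_range.2 (by omega : d <
          f.natDegree + d + 1))]
      have h1 : ((d.choose d : ℕ) : AddMonoidAlgebra k (L × ℕ)) * (f.coeff d * Φ ^ (d - d)) =
          f.coeff d := by simp
      rw [h1, add_sub_cancel_left]
      refine Submodule.sum_mem _ fun i hi => ?_
      rw [Finset.mem_sdiff, Finset.mem_singleton] at hi
      by_cases hij : i < d
      · rw [Nat.choose_eq_zero_of_lt hij]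
        simp
      · apply natCast_mul_mem_gt
        have hne : i - d ≠ 0 := by omega
        have h2 := ge_mul_gt (hf0 i) (gt_pow hΦ (i - d) hne)
        refine gt_mono ?_ h2
        simp
    have h2 := Submodule.add_mem _ h1 hfd
    rwa [sub_add_sub_cancel] at h2
  have hg0 : ∀ j, g.coeff j ∈ ge (k := k) (wW ω η) 0 := by
    intro j
    rw [hg, coeff_taylor f Φ j _ (Nat.lt_succ_self _)]
    refine Submodule.sum_mem _ fun i _ => natCast_mul_mem_ge _ ?_
    refine ge_mono (le_of_eq ?_) (ge_mul (hf0 i) (ge_pow (gt_ge hΦ) (i - j)))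
    ring
  let N := max g.natDegree d + 1
  have hgN : g.natDegree < N := by omega
  have hdN : d < N := by omega
  have hsum : κ = ∑ j ∈ Finset.range N, ev k X y (g.coeff j) * z' ^ j := by
    rw [← hgz, eval₂_eq_sum_range' _ hgN]
    rfl
  -- the root
  have hroot : v z'.fst ≤ ex A' := by
    refine v_root (c := fun j => ev k (XK k X) y.fst (g.coeff j)) hdN hneg hz'1 ?_ ?_ ?_ ?_
    · have h1 := congrArg TrivSqZeroExt.fst hsum
      rw [hfz] at h1
      have h2 : (∑ j ∈ Finset.range N, ev k X y (g.coeff j) * z' ^ j).fst =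
          ∑ j ∈ Finset.range N, ev k (XK k X) y.fst (g.coeff j) * z'.fst ^ j := by
        have h3 := map_sum (TrivSqZeroExt.fstHom k K K)
          (fun j => ev k X y (g.coeff j) * z' ^ j) (Finset.range N)
        refine h3.trans (Finset.sum_congr rfl fun j _ => ?_)
        rw [map_mul, map_pow]
        change (ev k X y (g.coeff j)).fst * z'.fst ^ j = _
        rw [fst_ev]
      rw [← h2, ← h1]
    · exact v_ev_unit hk hX hy.le hc0 hgd
    · intro j
      rw [← ex_zero]
      exact v_ev_le hk hX hy.le (hg0 j)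
    · intro j hj
      exact v_ev_le hk hX hy.le (hA' j hj)
  -- the second component
  have hsnd : v κ.snd ≤ C * ex (((d : ℝ) - 1) * A') := by
    have h1 : κ.snd = ∑ j ∈ Finset.range N, (ev k X y (g.coeff j) * z' ^ j).snd := by
      rw [hsum]
      exact map_sum (TrivSqZeroExt.sndHom K K) (fun j => ev k X y (g.coeff j) * z' ^ j)
        (Finset.range N)
    rw [h1]
    refine v.map_sum_le fun j _ => ?_
    have hFj := FB.ev hk hXC hyC (hg0 j)
    have hzp : ∀ i : ℕ, v (z'.fst ^ i) ≤ ex (i * A') := by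
      intro i
      rw [map_pow, ex_nmul]
      exact pow_le_pow_left₀ zero_le hroot i
    have hzs : v (z' ^ j).snd ≤ C * ex (((j : ℝ) - 1) * A') := by
      rw [TrivSqZeroExt.snd_pow]
      rcases Nat.eq_zero_or_pos j with h2 | h2
      · subst h2
        simp
      · rw [nsmul_eq_mul, smul_eq_mul, map_mul, map_mul]
        have h3 : ((j : ℝ) - 1) = ((j.pred : ℕ) : ℝ) := by
          rw [Nat.pred_eq_sub_one, Nat.cast_sub h2, Nat.cast_one]
        rw [h3]
        calc v (j : K) * (v (z'.fst ^ j.pred) * v z'.snd)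
            ≤ 1 * (ex (j.pred * A') * C) := by
              gcongr
              · exact v_nat j
              · exact hzp _
          _ = C * ex (j.pred * A') := by ring
    rw [snd_mul']
    refine (v.map_add _ _).trans (max_le ?_ ?_)
    · -- first component times derivative
      rw [map_mul]
      by_cases hj : j < d
      · have h2 := (FB.ev hk hXC hyC (hA' j hj)).1
        calc v (ev k X y (g.coeff j)).fst * v (z' ^ j).snd
            ≤ ex (((d : ℝ) - j) * A') * (C * ex (((j : ℝ) - 1) * A')) := mul_le_mul' h2 hzs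
          _ = C * (ex (((d : ℝ) - j) * A') * ex (((j : ℝ) - 1) * A')) := by ring
          _ = C * ex (((d : ℝ) - 1) * A') := by
              rw [← ex_add]
              congr 2
              ring
      · push Not at hj
        have h2 := hFj.1
        rw [ex_zero] at h2
        calc v (ev k X y (g.coeff j)).fst * v (z' ^ j).snd
            ≤ 1 * (C * ex (((j : ℝ) - 1) * A')) := mul_le_mul' h2 hzs
          _ ≤ C * ex (((d : ℝ) - 1) * A') := by
              rw [one_mul]
              refine mul_le_mul_of_nonneg_left (ex_le.2 ?_) C.2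
              have : (d : ℝ) ≤ j := by exact_mod_cast hj
              exact mul_le_mul_of_nonneg_right (by linarith) hneg
    · rw [map_mul]
      have h3 : v (z' ^ j).fst ≤ ex (j * A') := by
        rw [TrivSqZeroExt.fst_pow]
        exact hzp j
      by_cases hj : j < d
      · have h2 := (FB.ev hk hXC hyC (hA' j hj)).2
        calc v (z' ^ j).fst * v (ev k X y (g.coeff j)).snd
            ≤ ex (j * A') * (C * ex (((d : ℝ) - j) * A')) := mul_le_mul' h3 h2
          _ = C * (ex (j * A') * ex (((d : ℝ) - j) * A')) := by ring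
          _ ≤ C * ex (((d : ℝ) - 1) * A') := by
              rw [← ex_add]
              refine mul_le_mul_of_nonneg_left (ex_le.2 ?_) C.2
              nlinarith
      · push Not at hj
        have h2 := hFj.2
        rw [ex_zero, mul_one] at h2
        calc v (z' ^ j).fst * v (ev k X y (g.coeff j)).snd
            ≤ ex (j * A') * C := mul_le_mul' h3 h2
          _ = C * ex (j * A') := by ring
          _ ≤ C * ex (((d : ℝ) - 1) * A') := by
              refine mul_le_mul_of_nonneg_left (ex_le.2 ?_) C.2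
              have : (d : ℝ) ≤ j := by exact_mod_cast hj
              exact mul_le_mul_of_nonneg_right (by linarith) hneg
  rw [hK0, hC0, ← ex_add, ex_le] at hsnd
  linarith

end dual

end Pool.Agent.H893
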