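import Pool.Agent.H893.P5

/-!
# Points and the ramified step
-/

set_option autoImplicit false
set_option linter.unusedVariables false
set_option linter.unusedSectionVars false

namespace Pool.Agent.H893

open Polynomial
open scoped NNReal

section ord

variable {k L : Type*} [Field k] [AddCommGroup L]

/-- The order of the lowest slice is at most `N`. -/
def Ordle (ω : L →+ ℝ) (N : ℕ) (g : AddMonoidAlgebra k (L × ℕ)) : Prop :=
  ∃ (β : L) (i : ℕ), i ≤ N ∧ g ∈ ge (k := k) (wX ω) (ω β) ∧ g.coeff (β, i) ≠ 0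

lemma Ordle.mono {ω : L →+ ℝ} {N N' : ℕ} (h : N ≤ N') {g : AddMonoidAlgebra k (L × ℕ)}
    (hg : Ordle ω N g) : Ordle ω N' g := by
  obtain ⟨β, i, h1, h2, h3⟩ := hg
  exact ⟨β, i, h1.trans h, h2, h3⟩

lemma Ordle.ne {ω : L →+ ℝ} {N : ℕ} {g : AddMonoidAlgebra k (L × ℕ)} (hg : Ordle ω N g) :
    g ≠ 0 := by
  rintro rfl
  obtain ⟨β, i, h1, h2, h3⟩ := hg
  exact h3 rfl

lemma exists_ordle (ω : L →+ ℝ) {g : AddMonoidAlgebra k (L × ℕ)} (hg : g ≠ 0) :
    ∃ N, Ordle ω N g := by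
  classical
  have h0 : g.coeff.support.Nonempty := by
    rw [Finsupp.support_nonempty_iff]
    intro h
    apply hg
    ext a
    rw [h]
    simp
  obtain ⟨μ, hμ, hmin⟩ := Finset.exists_min_image g.coeff.support (fun μ => ω μ.1) h0
  exact ⟨μ.2, μ.1, μ.2, le_rfl, fun ν hν => hmin ν (Finsupp.mem_support_iff.2 hν),
    Finsupp.mem_support_iff.1 hμ⟩

lemma ordle_single (ω : L →+ ℝ) (μ : L × ℕ) {c : k} (hc : c ≠ 0) :
    Ordle ω μ.2 (AddMonoidAlgebra.single μ c) := by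
  refine ⟨μ.1, μ.2, le_rfl, single_mem_ge fun _ => le_rfl, ?_⟩
  rw [AddMonoidAlgebra.coeff_single, Prod.mk.eta, Finsupp.single_eq_same]
  exact hc

lemma Ordle.mul {ω : L →+ ℝ} (hω : Function.Injective ω) {N M : ℕ}
    {g h : AddMonoidAlgebra k (L × ℕ)} (hg : Ordle ω N g) (hh : Ordle ω M h) :
    Ordle ω (N + M) (g * h) := by
  obtain ⟨β, i, h1, h2, h3⟩ := hg
  obtain ⟨β', i', h1', h2', h3'⟩ := hh
  have hs := slice_mul ω h2 h2'
  rw [← slice_coeff ω hω] at h3 h3'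
  have hg0 : slice ω (ω β) g ≠ 0 := by
    intro h
    rw [h, coeff_zero] at h3
    exact h3 rfl
  have hh0 : slice ω (ω β') h ≠ 0 := by
    intro h
    rw [h, coeff_zero] at h3'
    exact h3' rfl
  have ht : (slice ω (ω β) g * slice ω (ω β') h).natTrailingDegree ≤ N + M := by
    rw [natTrailingDegree_mul hg0 hh0]
    exact add_le_add ((natTrailingDegree_le_of_ne_zero h3).trans h1)
      ((natTrailingDegree_le_of_ne_zero h3').trans h1')
  refine ⟨β + β', _, ht, by rw [map_add]; exact ge_mul h2 h2', ?_⟩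
  have h4 : (slice ω (ω β) g * slice ω (ω β') h).coeff
      (slice ω (ω β) g * slice ω (ω β') h).natTrailingDegree ≠ 0 := by
    have h5 : (slice ω (ω β) g * slice ω (ω β') h).trailingCoeff ≠ 0 :=
      trailingCoeff_nonzero_iff_nonzero.2 (mul_ne_zero hg0 hh0)
    exact h5
  rw [← hs, ← map_add, slice_coeff ω hω] at h4
  rw [← map_add] at hs
  rw [hs] at h4
  exact h4

/-- The order drops. -/
lemma ordle_step {ω ω' : L →+ ℝ} (hω : Function.Injective ω) {η : ℝ} (hη : 0 < η)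
    {e : (L × ℤ) ≃+ (L × ℤ)} {m : ℕ} (ys : YS ω η ω' e m) {g : AddMonoidAlgebra k (L × ℕ)}
    (hgN : g ∈ inP k (Ne' e)) {ψ : AddMonoidAlgebra k (L × ℕ)}
    (hψ : ψ ∈ ge (k := k) (wX ω') 0) {c : k} (hc : c ≠ 0) (hψc : slice ω' 0 ψ = C c) {N : ℕ}
    (hg : Ordle ω N g) : Ordle ω' (N / 2) (tau ψ (Tm e g)) := by
  classical
  obtain ⟨β, i, h1, h2, h3⟩ := hg
  have h0 : g.coeff.support.Nonempty := ⟨_, Finsupp.mem_support_iff.2 h3⟩
  obtain ⟨μ0, hμ0, hmin⟩ := Finset.exists_min_image g.coeff.support (fun μ => wW ω η μ) h0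
  have hμ0' := Finsupp.mem_support_iff.1 hμ0
  have hmin' : ∀ μ, g.coeff μ ≠ 0 → wW ω η μ0 ≤ wW ω η μ := fun μ hμ =>
    hmin μ (Finsupp.mem_support_iff.2 hμ)
  set B := wW ω η μ0 with hB
  have hge : Tm e g ∈ ge (k := k) (wX ω') B := ys.Tm_ge fun μ hμ => hmin' μ hμ
  have hwid : ∀ μ, g.coeff μ ≠ 0 → wW ω η μ = B → μ.2 ≤ N := by
    intro μ hμ hμB
    have h4 := hmin' _ h3
    have h5 := h2 μ hμ
    rw [wX_apply] at h5
    rw [← hμB, wW_apply, wW_apply] at h4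
    have h6 : (μ.2 : ℝ) * η ≤ i * η := by
      simp only at h4
      linarith
    have h7 : (μ.2 : ℝ) ≤ i := le_of_mul_le_mul_right h6 hη
    exact le_trans (by exact_mod_cast h7) h1
  set s1 := slice ω' B (Tm e g) with hs1
  have hs1t : ∀ t, s1.coeff t ≠ 0 → ∃ μ, g.coeff μ ≠ 0 ∧ wW ω η μ = B ∧
      tm e μ = ((tm e μ0).1, t) ∧ μ ∈ Ne' e := by
    intro t ht
    obtain ⟨β', hβ', h4⟩ := slice_ne ω' ys.inj ht
    obtain ⟨μ, hμ, h5⟩ := Tm_coeff_ne e h4
    have h6 : wW ω η μ = B := by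
      rw [← ys.tm_wt, h5]
      exact hβ'
    refine ⟨μ, hμ, h6, ?_, hgN μ hμ⟩
    rw [h5]
    congr 1
    apply ys.inj
    rw [ys.tm_wt, hβ']
  have hs10 : s1 ≠ 0 := by
    intro h
    have h4 := slice_coeff ω' ys.inj (Tm e g) (tm e μ0).1 (tm e μ0).2
    rw [ys.tm_wt, ← hB, ← hs1, h, coeff_zero, Prod.mk.eta, Tm_coeff e hgN (hgN _ hμ0')] at h4
    exact hμ0' h4.symm
  have hm : (0 : ℝ) < m := by
    have := ys.m2
    exact_mod_cast (by omega : 0 < m)
  have hm2 : (2 : ℝ) ≤ m := by exact_mod_cast ys.m2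
  -- the width of the slice
  have hiv : iv (-((e.symm ((tm e μ0).1, 0)).2 : ℝ) / m)
      (-((e.symm ((tm e μ0).1, 0)).2 : ℝ) / m + (N : ℝ) / m) s1 := by
    intro t ht
    obtain ⟨μ, hμ, hμB, hμt, hμN⟩ := hs1t t ht
    have h5 := ys.snd_tm hμN hμt
    have h7 : (μ.2 : ℝ) = (e.symm ((tm e μ0).1, 0)).2 + m * t := by exact_mod_cast h5
    have h8 : (μ.2 : ℝ) ≤ N := by exact_mod_cast hwid μ hμ hμB
    have h9 : (0 : ℝ) ≤ μ.2 := Nat.cast_nonneg _
    constructor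
    · rw [div_le_iff₀ hm]
      nlinarith
    · rw [← add_div, le_div_iff₀ hm]
      nlinarith
  set s2 := taylor c s1 with hs2
  have hs20 : s2 ≠ 0 := by
    intro h
    exact hs10 ((taylor_eq_zero c s1).1 h)
  have hog : og (s2.natTrailingDegree : ℝ) s2 := by
    intro j hj
    exact coeff_eq_zero_of_lt_natTrailingDegree (by exact_mod_cast hj)
  have hle := og_le_width hs10 hc (div_nonneg (Nat.cast_nonneg N) hm.le) hiv hog
  have hle2 : s2.natTrailingDegree ≤ N / 2 := by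
    rw [Nat.le_div_iff_mul_le two_pos]
    have h4 : (s2.natTrailingDegree : ℝ) * m ≤ N := by rwa [le_div_iff₀ hm] at hle
    have h5 : (s2.natTrailingDegree : ℝ) * 2 ≤ N := by
      have h6 : (0 : ℝ) ≤ s2.natTrailingDegree := Nat.cast_nonneg _
      nlinarith
    exact_mod_cast h5
  have hBω : ω' (tm e μ0).1 = B := ys.tm_wt μ0
  refine ⟨(tm e μ0).1, s2.natTrailingDegree, hle2, ?_, ?_⟩
  · rw [hBω]
    exact tau_ge hψ hge
  · have h4 := slice_tau hψ hψc hge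
    rw [← hs1, ← hs2] at h4
    have h5 := slice_coeff ω' ys.inj (tau ψ (Tm e g)) (tm e μ0).1 s2.natTrailingDegree
    rw [hBω, h4] at h5
    rw [← h5]
    have h6 : s2.trailingCoeff ≠ 0 := trailingCoeff_nonzero_iff_nonzero.2 hs20
    exact h6

end ord

section es

variable {k K L : Type*} [Field k] [Field K] [Algebra k K] [AddCommGroup L]
  [Module.Free ℤ L] [Module.Finite ℤ L] {v : Valuation K ℝ≥0}

/-- A point over the valuation. -/
structure ES (k : Type*) {K L : Type*} [Field k] [Field K] [Algebra k K] [AddCommGroup L]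
    (v : Valuation K ℝ≥0) (ω : L →+ ℝ) (X : Multiplicative L →* Kˣ) (y : K) : Prop where
  inj : Function.Injective ω
  hX : ∀ β, v (X (.ofAdd β) : K) = ex (ω β)
  hy : v y < 1
  al : Function.Injective (ev k X y)
  rr : ∀ x : K, x ≠ 0 → ∃ m : ℕ, m ≠ 0 ∧ ∃ a, v x ^ m = ex (ω a)

/-- The element is a quotient of elements of order at most `N` and `0`. -/
def GM (k : Type*) {K L : Type*} [Field k] [Field K] [Algebra k K] [AddCommGroup L]
    (ω : L →+ ℝ) (X : Multiplicative L →* Kˣ) (y : K) (N : ℕ) (t : K) : Prop :=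
  ∃ g h : AddMonoidAlgebra k (L × ℕ), t * ev k X y h = ev k X y g ∧ Ordle ω N g ∧ Ordle ω 0 h

variable {ω : L →+ ℝ} {X : Multiplicative L →* Kˣ} {y : K}

lemma GM.mono {N N' : ℕ} (h : N ≤ N') {t : K} (ht : GM k ω X y N t) : GM k ω X y N' t := by
  obtain ⟨g, h1, h2, h3, h4⟩ := ht
  exact ⟨g, h1, h2, h3.mono h, h4⟩

lemma GM.mul (hω : Function.Injective ω) {N M : ℕ} {t s : K} (ht : GM k ω X y N t)
    (hs : GM k ω X y M s) : GM k ω X y (N + M) (t * s) := by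
  obtain ⟨g, h, h1, h2, h3⟩ := ht
  obtain ⟨g', h', h1', h2', h3'⟩ := hs
  refine ⟨g * g', h * h', ?_, h2.mul hω h2', h3.mul hω h3'⟩
  rw [map_mul, map_mul, ← h1, ← h1']
  ring

lemma ordle_one (hω : Function.Injective ω) : Ordle ω 0 (1 : AddMonoidAlgebra k (L × ℕ)) :=
  ordle_single ω (0 : L × ℕ) one_ne_zero

lemma GM.one (hω : Function.Injective ω) : GM k ω X y 0 (1 : K) :=
  ⟨1, 1, one_mul _, ordle_one hω, ordle_one hω⟩

lemma GM.pow (hω : Function.Injective ω) {t : K} (ht : GM k ω X y 0 t) (n : ℕ) :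
    GM k ω X y 0 (t ^ n) := by
  induction n with
  | zero => rw [pow_zero]; exact GM.one hω
  | succ n ih => rw [pow_succ]; exact ih.mul hω ht

lemma GM.ne (al : Function.Injective (ev k X y)) {N : ℕ} {t : K} (ht : GM k ω X y N t) :
    t ≠ 0 := by
  rintro rfl
  obtain ⟨g, h, h1, h2, h3⟩ := ht
  rw [zero_mul] at h1
  exact h2.ne (al (h1.symm.trans (map_zero _).symm))

lemma GM.inv (al : Function.Injective (ev k X y)) {t : K} (ht : GM k ω X y 0 t) :
    GM k ω X y 0 t⁻¹ := by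
  have h0 := ht.ne al
  obtain ⟨g, h, h1, h2, h3⟩ := ht
  refine ⟨h, g, ?_, h3, h2⟩
  rw [← h1, ← mul_assoc, inv_mul_cancel₀ h0, one_mul]

lemma GM.of_ev (hω : Function.Injective ω) {g : AddMonoidAlgebra k (L × ℕ)} {N : ℕ}
    (hg : Ordle ω N g) : GM k ω X y N (ev k X y g) :=
  ⟨g, 1, by rw [map_one, mul_one], hg, ordle_one hω⟩

lemma GM.ym (hω : Function.Injective ω) : GM k ω X y 1 y := by
  have h1 : ev k X y (Yv k L) = y := by
    rw [Yv, ev_single]
    simp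
  have h2 := GM.of_ev (k := k) (X := X) (y := y) hω
    (ordle_single (k := k) ω ((0 : L), 1) one_ne_zero)
  rw [← Yv, h1] at h2
  exact h2

lemma GM.Xm (hω : Function.Injective ω) (β : L) : GM k ω X y 0 (X (.ofAdd β) : K) := by
  have h1 : ev k X y (AddMonoidAlgebra.single (β, 0) 1) = (X (.ofAdd β) : K) := by
    rw [ev_single]
    simp
  have h2 := GM.of_ev (k := k) (X := X) (y := y) hω
    (ordle_single (k := k) ω (β, 0) one_ne_zero)
  rw [h1] at h2
  exact h2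

/-- The values of the ring. -/
lemma ES.pos (hη : ∃ η : ℝ, 0 < η ∧ v y = ex η) (S : ES k v ω X y) (Cb : ℝ) :
    ∃ a, Cb < ω a := by
  obtain ⟨η, hη, hy⟩ := hη
  have hy0 : y ≠ 0 := by
    rintro rfl
    rw [map_zero] at hy
    exact ex_ne _ hy.symm
  obtain ⟨m, hm, a, ha⟩ := S.rr y hy0
  rw [hy, ← ex_nmul, ex_inj] at ha
  have hm0 : (0 : ℝ) < m := by exact_mod_cast Nat.pos_of_ne_zero hm
  have h1 : 0 < ω a := by
    rw [← ha]
    positivity
  obtain ⟨n, hn⟩ := exists_nat_gt (Cb / ω a)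
  rw [div_lt_iff₀ h1] at hn
  exact ⟨n • a, by rw [map_nsmul, nsmul_eq_mul]; exact hn⟩

/-- The ramified step for points. -/
theorem ES.step (hk : ∀ c : k, c ≠ 0 → v (algebraMap k K c) = 1) (H : HypH k L v)
    (htr : Algebra.trdeg k K = ((Module.finrank ℤ L + 1 : ℕ) : Cardinal))
    (S : ES k v ω X y) {η : ℝ} (hη : 0 < η) (hyη : v y = ex η) (hηω : ∀ a, ω a ≠ η)
    (T : Finset K) (N : K → ℕ) (hT : ∀ t ∈ T, GM k ω X y (N t) t) :
    ∃ (ω' : L →+ ℝ) (X' : Multiplicative L →* Kˣ) (y' : K) (η' : ℝ), ES k v ω' X' y' ∧ 0 < η' ∧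
      v y' = ex η' ∧ (∀ a, ω' a ≠ η') ∧ (∀ t ∈ T, GM k ω' X' y' (N t / 2) t) ∧
      FE k X y ≤ FE k X' y' ∧
      ∀ B : Subring K, (∀ c, algebraMap k K c ∈ B) → (∀ β, (X β : K) ∈ B) → y ∈ B → y⁻¹ ∈ B →
        (∀ β, (X' β : K) ∈ B) ∧ y' ∈ B := by
  classical
  have hrep : ∀ t : K, ∃ g h : AddMonoidAlgebra k (L × ℕ), t ∈ T →
      t * ev k X y h = ev k X y g ∧ Ordle ω (N t) g ∧ Ordle ω 0 h := by
    intro t
    by_cases ht : t ∈ T
    · obtain ⟨g, h, h1⟩ := hT t ht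
      exact ⟨g, h, fun _ => h1⟩
    · exact ⟨0, 0, fun h => absurd h ht⟩
  choose G0 H0 hGH using hrep
  -- the shift
  let F0 : Finset (L × ℕ) := T.biUnion fun t => (G0 t).coeff.support ∪ (H0 t).coeff.support
  obtain ⟨lam, hlam⟩ : ∃ lam : L, ∀ μ ∈ F0, 0 < ω μ.1 + ω lam := by
    obtain ⟨M, hM⟩ := (F0.image fun μ => -ω μ.1).finite_toSet.bddAbove
    obtain ⟨lam, hlam⟩ := S.pos ⟨η, hη, hyη⟩ M
    refine ⟨lam, fun μ hμ => ?_⟩
    have h1 := hM (Finset.mem_coe.2 (Finset.mem_image.2 ⟨μ, hμ, rfl⟩))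
    linarith
  have hF0 : ∀ t ∈ T, ∀ μ, ((G0 t).coeff μ ≠ 0 ∨ (H0 t).coeff μ ≠ 0) → μ ∈ F0 := by
    intro t ht μ hμ
    refine Finset.mem_biUnion.2 ⟨t, ht, Finset.mem_union.2 ?_⟩
    rcases hμ with h | h
    · exact Or.inl (Finsupp.mem_support_iff.2 h)
    · exact Or.inr (Finsupp.mem_support_iff.2 h)
  let F : Finset (L × ℕ) := F0.image fun μ => (lam, 0) + μ
  have hy0 : y ≠ 0 := by
    rintro rfl
    rw [map_zero] at hyη
    exact ex_ne _ hyη.symm
  obtain ⟨m0, hm0, a0, ha0⟩ := S.rr y hy0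
  obtain ⟨ω', e, m, ys, hFe⟩ := exists_YS S.inj hηω ⟨m0, hm0, a0, by
    rw [hyη, ← ex_nmul, ex_inj] at ha0
    exact ha0.symm⟩ F (by
      intro μ hμ
      right
      obtain ⟨ν, hν, rfl⟩ := Finset.mem_image.1 hμ
      have h1 := hlam ν hν
      have h2 : (0 : ℝ) ≤ ν.2 * η := by positivity
      simp only [Prod.fst_add, Prod.snd_add, map_add, zero_add]
      linarith)
  have hshift : ∀ g : AddMonoidAlgebra k (L × ℕ), (∀ μ, g.coeff μ ≠ 0 → μ ∈ F0) →
      AddMonoidAlgebra.single (lam, 0) 1 * g ∈ inP k (Ne' e) := by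
    intro g hg μ hμ
    obtain ⟨a, b, h1, h2, h3⟩ := coeff_mul_ne hμ
    rw [AddMonoidAlgebra.coeff_single, Finsupp.single_apply] at h1
    split_ifs at h1 with h4
    · rw [← h3, ← h4]
      exact hFe _ (Finset.mem_image.2 ⟨b, hg b h2, rfl⟩)
    · exact absurd rfl h1
  set yU : Kˣ := Units.mk0 y hy0 with hyU
  set X' := nX e X yU with hX'
  set u := nu e X yU with hu
  have hX'v : ∀ β, v (X' (.ofAdd β) : K) = ex (ω' β) := by
    intro β
    have h1 := ys.v_Mon (X := X) (y := yU) S.hX hyη (e.symm (β, 0))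
    rw [AddEquiv.apply_symm_apply] at h1
    exact h1
  have huv : v (u : K) = 1 := by
    have h1 := ys.v_Mon (X := X) (y := yU) S.hX hyη (e.symm (0, 1))
    rw [AddEquiv.apply_symm_apply, map_zero, ex_zero] at h1
    exact h1
  have hFE1 : FE k X y ≤ FE k X' (u : K) := by
    have h1 : ((∀ β, (nX e X yU β : K) ∈ FE k X' (u : K)) ∧
        (nu e X yU : K) ∈ FE k X' (u : K)) := ⟨fun β => X_mem_FE _ _ _, y_mem_FE _ _⟩
    rw [← nX_mem] at h1
    exact FE_le h1.1 h1.2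
  have hal : Function.Injective (ev k X' (u : K)) := inj_mono htr hFE1 S.al
  obtain ⟨ψ, c, η', hψ0, hψc, hψη, hη', hηω', hc1⟩ := ready hk H ys.inj hX'v hal huv.le
  have hc : c ≠ 0 := by
    rintro rfl
    rw [map_zero, sub_zero, huv] at hc1
    exact lt_irrefl _ hc1
  have hev : ∀ g : AddMonoidAlgebra k (L × ℕ), g ∈ inP k (Ne' e) →
      ev k X' ((u : K) - evL k X' ψ) (tau (inc k L ψ) (Tm e g)) = ev k X y g := by
    intro g hg
    rw [ev_tau, ev_inc, sub_add_cancel, hX', hu, ev_Tm e X yU hg]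
    rfl
  have hFE2 : FE k X' (u : K) ≤ FE k X' ((u : K) - evL k X' ψ) := by
    refine FE_le (fun β => X_mem_FE _ _ _) ?_
    have h1 : evL k X' ψ ∈ FE k X' ((u : K) - evL k X' ψ) := by
      have h0 := ev_mem_FE X' ((u : K) - evL k X' ψ) (inc k L ψ)
      rwa [ev_inc] at h0
    have h2 := add_mem (y_mem_FE (k := k) X' ((u : K) - evL k X' ψ)) h1
    rwa [sub_add_cancel] at h2
  have hal' : Function.Injective (ev k X' ((u : K) - evL k X' ψ)) := inj_mono htr hFE2 hal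
  refine ⟨ω', X', (u : K) - evL k X' ψ, η', ⟨ys.inj, hX'v, ?_, hal', ?_⟩, hη', hψη, hηω', ?_,
    hFE1.trans hFE2, ?_⟩
  · rw [hψη]
    exact ex_lt_one.2 hη'
  · intro x hx
    obtain ⟨m1, hm1, a1, ha1⟩ := S.rr x hx
    refine ⟨m1, hm1, (e (a1, 0)).1, ?_⟩
    rw [ha1, ys.wt]
    simp
  · intro t ht
    obtain ⟨h1, h2, h3⟩ := hGH t ht
    have hG := hshift (G0 t) fun μ hμ => hF0 t ht μ (Or.inl hμ)
    have hH := hshift (H0 t) fun μ hμ => hF0 t ht μ (Or.inr hμ)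
    have hs : Ordle ω 0 (AddMonoidAlgebra.single (lam, 0) 1 : AddMonoidAlgebra k (L × ℕ)) :=
      ordle_single ω (lam, 0) one_ne_zero
    refine ⟨tau (inc k L ψ) (Tm e (AddMonoidAlgebra.single (lam, 0) 1 * G0 t)),
      tau (inc k L ψ) (Tm e (AddMonoidAlgebra.single (lam, 0) 1 * H0 t)), ?_, ?_, ?_⟩
    · rw [hev _ hG, hev _ hH, map_mul, map_mul, ← h1]
      ring
    · refine ordle_step S.inj hη ys hG hψ0 hc hψc ?_
      have h4 := hs.mul S.inj h2
      rwa [zero_add] at h4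
    · exact ordle_step (N := 0) S.inj hη ys hH hψ0 hc hψc (hs.mul S.inj h3)
  · intro B hB1 hB2 hB3 hB4
    have hyz : ∀ n : ℤ, ((yU ^ n : Kˣ) : K) ∈ B := by
      intro n
      rw [Units.val_zpow_eq_zpow_val]
      rcases n with n | n
      · rw [Int.ofNat_eq_natCast, zpow_natCast]
        exact pow_mem hB3 n
      · rw [zpow_negSucc, ← inv_pow]
        exact pow_mem hB4 _
    have hmon : ∀ l : L × ℤ, (Mon X yU (.ofAdd l) : K) ∈ B := by
      intro l
      rw [Mon_apply, Units.val_mul]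
      exact mul_mem (hB2 _) (hyz _)
    have hX'B : ∀ β, (X' β : K) ∈ B := fun β => hmon _
    refine ⟨hX'B, sub_mem (hmon _) ?_⟩
    have hev' : ∀ χ : AddMonoidAlgebra k L, evL k X' χ ∈ B := by
      intro χ
      induction χ using AddMonoidAlgebra.induction_linear with
      | zero => rw [map_zero]; exact zero_mem _
      | add f g hf hg => rw [map_add]; exact add_mem hf hg
      | single β c' =>
        rw [evL_single]
        exact mul_mem (hB1 _) (hX'B _)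
    exact hev' ψ

end es

end Pool.Agent.H893
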