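import Mathlib

/-!
# A monic polynomial for a simple root (part `gen` of project G3)

If `F = ∑ f_i X ^ i` has coefficients in the valuation ring, `F(z) = 0`, `z` is in the maximal ideal and
`F'(z)` is a unit, then `u = f_0 / z` (or `u = 0` if `z = 0`) is a root of the monic polynomial
`μ = Y ^ n + ∑_{i ≥ 1} f_i f_0 ^ (i - 1) Y ^ (n - i)`, `f_0 μ(Y) = Y ^ n F(f_0 / Y)`, so
`μ'(u) = - u ^ (n - 2) F'(z)`, and `u = - F_1(z)`, `F = f_0 + X F_1`, is a unit.
-/

set_option autoImplicit false

universe u

open Polynomial

namespace Pool.Agent.H893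

theorem exists_monic_generator {E K : Type u} [Field E] [Field K] [Algebra E K]
    (V : ValuationSubring K) (F : E[X]) (z : K) (hF : ∀ i, algebraMap E K (F.coeff i) ∈ V)
    (h0 : aeval z F = 0) (hz : V.valuation z < 1) (h1 : V.valuation (aeval z (derivative F)) = 1)
    (hgen : ∀ w : K, w ∈ Subfield.closure (Set.range (algebraMap E K) ∪ {z})) :
    ∃ (u : K) (μ : E[X]), μ.Monic ∧ (∀ i, algebraMap E K (μ.coeff i) ∈ V) ∧ aeval u μ = 0 ∧
      V.valuation (aeval u (derivative μ)) = 1 ∧
      ∀ w : K, w ∈ Subfield.closure (Set.range (algebraMap E K) ∪ {u}) := by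
  by_cases hz0 : z = 0
  · subst hz0
    refine ⟨0, X, monic_X, fun i => ?_, by simp, by simp, hgen⟩
    rw [coeff_X]
    split_ifs
    · rw [map_one]; exact V.one_mem
    · rw [map_zero]; exact V.zero_mem
  set a := algebraMap E K with ha
  set n := F.natDegree with hn
  have hzV : z ∈ V := (V.valuation_le_one_iff z).1 hz.le
  -- polynomials with coefficients in `V` have values in `V`
  have hval : ∀ G : E[X], (∀ i, a (G.coeff i) ∈ V) → aeval z G ∈ V := by
    intro G hG
    rw [aeval_eq_sum_range]
    refine sum_mem fun i _ => ?_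
    rw [Algebra.smul_def]
    exact V.mul_mem _ _ (hG i) (pow_mem hzV i)
  -- `F = f_0 + X F_1`
  set F1 : E[X] := F.divX with hF1
  have hF1c : ∀ i, a (F1.coeff i) ∈ V := fun i => by
    rw [hF1, coeff_divX]; exact hF _
  have hF1' : ∀ i, a ((derivative F1).coeff i) ∈ V := fun i => by
    rw [coeff_derivative, map_mul, map_add, map_natCast, map_one]
    exact V.mul_mem _ _ (hF1c _) (V.add_mem _ _ (natCast_mem V i) V.one_mem)
  have hdec : F = X * F1 + C (F.coeff 0) := (X_mul_divX_add F).symm
  have e0 : z * aeval z F1 + a (F.coeff 0) = 0 := by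
    have := h0
    rw [hdec] at this
    simpa using this
  have e1 : aeval z (derivative F) = aeval z F1 + z * aeval z (derivative F1) := by
    conv_lhs => rw [hdec]
    simp
  have hvF1 : V.valuation (aeval z F1) = 1 := by
    have h2 : V.valuation (z * aeval z (derivative F1)) < 1 := by
      rw [map_mul]
      have h3 : V.valuation (aeval z (derivative F1)) ≤ 1 :=
        (V.valuation_le_one_iff _).2 (hval _ hF1')
      calc V.valuation z * V.valuation (aeval z (derivative F1)) ≤ V.valuation z * 1 := by gcongr
        _ < 1 := by rw [mul_one]; exact hz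
    have h3 : aeval z F1 = aeval z (derivative F) - z * aeval z (derivative F1) := by
      rw [e1]; ring
    rw [h3, Valuation.map_sub_eq_of_lt_left]
    · exact h1
    · rw [h1]; exact h2
  set u : K := - aeval z F1 with hu
  have hvu : V.valuation u = 1 := by rw [hu, Valuation.map_neg]; exact hvF1
  have hu0 : u ≠ 0 := by
    intro h
    rw [h, map_zero] at hvu
    exact zero_ne_one hvu
  have huz : a (F.coeff 0) = u * z := by
    rw [hu]; linear_combination e0
  have hf0 : a (F.coeff 0) ≠ 0 := by rw [huz]; exact mul_ne_zero hu0 hz0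
  have hn1 : 1 ≤ n := by
    by_contra hlt
    have hn0 : F.natDegree = 0 := by omega
    rw [eq_C_of_natDegree_eq_zero hn0, derivative_C, map_zero, map_zero] at h1
    exact zero_ne_one h1
  -- the polynomial
  set R : E[X] := ∑ i ∈ Finset.range n, C (F.coeff (i + 1) * F.coeff 0 ^ i) * X ^ (n - 1 - i) with hR
  have hRdeg : R.degree < n := by
    rw [← mem_degreeLT]
    refine sum_mem fun i _ => ?_
    rw [mem_degreeLT]
    refine lt_of_le_of_lt (degree_C_mul_X_pow_le _ _) ?_
    exact_mod_cast (by omega : n - 1 - i < n)
  refine ⟨u, X ^ n + R, monic_X_pow_add hRdeg, ?_, ?_, ?_, ?_⟩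
  · intro j
    rw [coeff_add, map_add]
    refine V.add_mem _ _ ?_ ?_
    · rw [coeff_X_pow]
      split_ifs
      · rw [map_one]; exact V.one_mem
      · rw [map_zero]; exact V.zero_mem
    · rw [hR, finsetSum_coeff, map_sum]
      refine sum_mem fun i _ => ?_
      rw [coeff_C_mul_X_pow]
      split_ifs
      · rw [map_mul, map_pow]
        exact V.mul_mem _ _ (hF _) (pow_mem (hF _) _)
      · rw [map_zero]; exact V.zero_mem
  · -- `f_0 μ(u) = u ^ n F(z)`
    have h2 : a (F.coeff 0) * aeval u (X ^ n + R) = u ^ n * aeval z F := by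
      rw [aeval_eq_sum_range (p := F) z, Finset.sum_range_succ', mul_add, map_add, mul_add,
        Finset.mul_sum, hR, map_sum, Finset.mul_sum, add_comm]
      congr 1
      · refine Finset.sum_congr rfl fun i hi => ?_
        rw [Finset.mem_range] at hi
        rw [map_mul, aeval_C, map_pow, aeval_X, map_mul, map_pow, Algebra.smul_def, ← ha, huz]
        have h3 : u ^ n = u ^ (n - 1 - i) * u ^ (i + 1) := by
          rw [← pow_add]; congr 1; omega
        rw [h3]
        ring
      · rw [map_pow, aeval_X, pow_zero, Algebra.smul_def, mul_one, mul_comm]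
    rw [h0, mul_zero] at h2
    exact (mul_eq_zero.1 h2).resolve_left hf0
  · -- `f_0 u μ'(u) = - u ^ n z F'(z)`
    have h2 : a (F.coeff 0) * (u * aeval u (derivative (X ^ n + R))) =
        n * (u ^ n * aeval z F) - u ^ n * (z * aeval z (derivative F)) := by
      have h4 : z * aeval z (derivative F) = ∑ i ∈ Finset.range (n + 1),
          a (F.coeff i) * i * z ^ i := by
        have h5 : derivative F = ∑ i ∈ Finset.range (n + 1), C (F.coeff i * i) * X ^ (i - 1) := by
          conv_lhs => rw [F.as_sum_range_C_mul_X_pow]
          rw [derivative_sum]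
          refine Finset.sum_congr rfl fun i _ => ?_
          rw [derivative_C_mul_X_pow]
        rw [h5, map_sum, Finset.mul_sum]
        refine Finset.sum_congr rfl fun i _ => ?_
        rw [map_mul, aeval_C, map_pow, aeval_X, map_mul, map_natCast, ← ha]
        rcases Nat.eq_zero_or_pos i with rfl | hi
        · simp
        · have h6 : z ^ i = z * z ^ (i - 1) := by
            rw [← pow_succ']; congr 1; omega
          rw [h6]; ring
      rw [h4, aeval_eq_sum_range (p := F) z, Finset.mul_sum, Finset.mul_sum, Finset.mul_sum,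
        ← Finset.sum_sub_distrib, Finset.sum_range_succ', derivative_add, map_add, mul_add,
        mul_add, hR, derivative_sum, map_sum, Finset.mul_sum, Finset.mul_sum, add_comm]
      congr 1
      · refine Finset.sum_congr rfl fun i hi => ?_
        rw [Finset.mem_range] at hi
        rw [derivative_C_mul_X_pow, map_mul, aeval_C, map_pow, aeval_X, map_mul, map_mul, map_pow,
          Algebra.smul_def, ← ha, huz, map_natCast]
        have h3 : u ^ n = u ^ (n - 1 - i) * u ^ (i + 1) := by
          rw [← pow_add]; congr 1; omega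
        have h7 : ((n - 1 - i : ℕ) : K) * u ^ (n - 1 - i) =
            ((n - 1 - i : ℕ) : K) * (u * u ^ (n - 1 - i - 1)) := by
          rcases Nat.eq_zero_or_pos (n - 1 - i) with h | h
          · rw [h]; simp
          · rw [← pow_succ']
            congr 2; omega
        have h8 : ((n - 1 - i : ℕ) : K) = (n : K) - ((i + 1 : ℕ) : K) := by
          rw [eq_sub_iff_add_eq, ← Nat.cast_add]
          congr 1; omega
        have h9 : (u * z) * (u * (a (F.coeff (i + 1)) * (u * z) ^ i * ((n - 1 - i : ℕ) : K) *
            u ^ (n - 1 - i - 1))) = (u * z) * (a (F.coeff (i + 1)) * (u * z) ^ i) *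
              (((n - 1 - i : ℕ) : K) * (u * u ^ (n - 1 - i - 1))) := by ring
        rw [h9, ← h7, h8, h3]
        ring
      · rw [derivative_X_pow, map_mul, aeval_C, map_pow, aeval_X, map_natCast, pow_zero,
          Algebra.smul_def, mul_one, Nat.cast_zero]
        have h3 : u ^ n = u * u ^ (n - 1) := by
          rw [← pow_succ']; congr 1; omega
        rw [h3]
        ring
    rw [h0, mul_zero, mul_zero, zero_sub] at h2
    have h3 := congrArg V.valuation h2
    rw [huz, Valuation.map_neg] at h3
    simp only [map_mul, map_pow, hvu, h1, one_mul, one_pow, mul_one] at h3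
    have h4 : V.valuation z ≠ 0 := (Valuation.ne_zero_iff _).2 hz0
    exact mul_left_cancel₀ h4 (h3.trans (mul_one _).symm)
  · intro w
    have h2 : Subfield.closure (Set.range a ∪ {z}) ≤ Subfield.closure (Set.range a ∪ {u}) := by
      rw [Subfield.closure_le]
      rintro y (hy | hy)
      · exact Subfield.subset_closure (Or.inl hy)
      · rw [Set.mem_singleton_iff] at hy
        subst hy
        have h3 : y = a (F.coeff 0) / u := by
          rw [huz]; field_simp
        rw [h3]
        exact div_mem (Subfield.subset_closure (Or.inl ⟨_, rfl⟩))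
          (Subfield.subset_closure (Or.inr rfl))
    exact h2 (hgen w)

end Pool.Agent.H893
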