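import Pool.Agent.H893.N4

/-!
# Finite ground fields: the linear change and the division of `y` (by helper738)
-/

set_option autoImplicit false
set_option linter.unusedVariables false
set_option linter.unusedSectionVars false

namespace Pool.Agent.H893

open Polynomial
open scoped NNReal

section g3

variable {k K L : Type*} [Field k] [Field K] [Algebra k K] [AddCommGroup L]
  [Module.Free ℤ L] [Module.Finite ℤ L] {v : Valuation K ℝ≥0}
  {d : ℕ} {ω : L →+ ℝ} {X : Multiplicative L →* (DualNumber K)ˣ}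
    {y z : DualNumber K} {f : (AddMonoidAlgebra k (L × ℕ))[X]}

lemma Hp_eval_one (f : (AddMonoidAlgebra k (L × ℕ))[X]) (n : ℕ) :
    (Hp f n).eval 1 = ∑ j ∈ Finset.range (n + 1), (f.coeff j).coeff (0, n - j) := by
  rw [Hp, eval_finsetSum]
  refine Finset.sum_congr rfl fun j _ => ?_
  rw [eval_monomial, one_pow, mul_one]

/-- The linear change if there is only one monomial of the smallest degree. -/
theorem lin_change1 (hk : ∀ c : k, c ≠ 0 → v (algebraMap k K c) = 1)
    (S : PS k v ω X y z f) {i0 j0 : ℕ} (h0 : (f.coeff j0).coeff (0, i0) ≠ 0)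
    (hmin : ∀ i j : ℕ, (f.coeff j).coeff (0, i) ≠ 0 → (i = i0 ∧ j = j0) ∨ i0 + j0 < i + j) :
    ∃ (y' : DualNumber K) (f' : (AddMonoidAlgebra k (L × ℕ))[X]),
      Sys k v (i0 + j0) ω X y' z f' := by
  refine ⟨_, Lc 1 f, (S.lin hk 1).sys ?_ ?_⟩
  · rw [Lc_coeff, Hp_eval_one, Finset.sum_eq_single_of_mem j0 (Finset.mem_range.2 (by omega))]
    · rw [Nat.add_sub_cancel]
      exact h0
    · intro j hj hne
      rw [Finset.mem_range] at hj
      by_contra h1
      rcases hmin _ _ h1 with h2 | h2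
      · exact hne h2.2
      · omega
  · intro n hn
    rw [Lc_coeff, Hp_eval_one]
    refine Finset.sum_eq_zero fun j hj => ?_
    rw [Finset.mem_range] at hj
    by_contra h1
    rcases hmin _ _ h1 with h2 | h2
    · omega
    · omega

/-- Division of `y` by a monomial. -/
theorem Sys.shift (S : Sys k v d ω X y z f) (β : L) (hβ : 0 < ω β) (hy : v y.fst < ex (ω β)) :
    Sys k v d ω X (y * (X (.ofAdd (-β)) : DualNumber K)) z (ShP β f) := by
  have hXX : (X (.ofAdd (-β)) : DualNumber K) * (X (.ofAdd β) : DualNumber K) = 1 := by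
    rw [← Units.val_mul, ← map_mul, ← ofAdd_add, neg_add_cancel, ofAdd_zero, map_one,
      Units.val_one]
  have hEV : EV k X (y * (X (.ofAdd (-β)) : DualNumber K)) z (ShP β f) = EV k X y z f := by
    rw [EV_ShP]
    congr 1
    rw [mul_comm, mul_assoc, hXX, mul_one]
  have hc0 : ∀ j, ((ShP β f).coeff j).coeff 0 = (f.coeff j).coeff 0 := by
    intro j
    rw [ShP_coeff, Sh_coeff']
    congr 1
    apply Prod.ext
    · simp
    · rfl
  refine ⟨S.inj, S.hX, ?_, S.hz, ?_, ?_, ?_, ?_, ?_, ?_, S.rr⟩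
  · rw [TrivSqZeroExt.fst_mul, map_mul, S.hX, map_neg, ex_neg]
    have h1 : 0 < ex (ω β) := ex_pos _
    calc v y.fst * (ex (ω β))⁻¹ < ex (ω β) * (ex (ω β))⁻¹ :=
          mul_lt_mul_of_pos_right hy (inv_pos.2 h1)
      _ = 1 := mul_inv_cancel₀ h1.ne'
  · intro F hF1 hF2 hF3
    refine S.gen F hF1 ?_ hF3
    have h1 := mul_mem hF2 (hF1 (.ofAdd β))
    rw [XK_apply, ← TrivSqZeroExt.fst_mul, mul_assoc, hXX, mul_one] at h1
    exact h1
  · rw [hEV]; exact S.fz
  · rw [hEV]; exact S.fne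
  · intro j
    rw [ShP_coeff]
    refine Sh_ge fun μ hμ => ?_
    have h1 := S.ge0 j μ hμ
    rw [wX_apply] at h1
    rw [wW_apply]
    have h2 : (0 : ℝ) ≤ μ.2 * ω β := mul_nonneg (Nat.cast_nonneg _) hβ.le
    linarith
  · rw [hc0]; exact S.top
  · intro j hj
    rw [hc0]; exact S.low j hj

end g3

end Pool.Agent.H893
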