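import Pool.Agent.H893.Wt

/-!
# Pseudo-convergent sequences
-/

set_option autoImplicit false
set_option linter.unusedVariables false
set_option linter.unusedSectionVars false

namespace Pool.Agent.H893

open Polynomial
open scoped NNReal

section lines

variable {γ : ℕ → ℝ}

lemma pair_lines (hγ : StrictMono γ) {s s' κ κ' : ℝ} (h : s ≠ s' ∨ κ ≠ κ') :
    (∃ J : ℕ, ∀ j, J ≤ j → κ + s * γ j < κ' + s' * γ j) ∨
      (∃ J : ℕ, ∀ j, J ≤ j → κ' + s' * γ j < κ + s * γ j) := by
  rcases lt_trichotomy s s' with h1 | h1 | h1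
  · by_cases h2 : ∃ J, κ + s * γ J < κ' + s' * γ J
    · obtain ⟨J, hJ⟩ := h2
      left
      refine ⟨J, fun j hj => ?_⟩
      have h3 : γ J ≤ γ j := hγ.monotone hj
      nlinarith
    · push Not at h2
      right
      refine ⟨0, fun j _ => ?_⟩
      have h3 := h2 (j + 1)
      have h4 : γ j < γ (j + 1) := hγ (Nat.lt_succ_self j)
      nlinarith
  · subst h1
    have h2 : κ ≠ κ' := by
      rcases h with h | h
      · exact absurd rfl h
      · exact h
    rcases lt_or_gt_of_ne h2 with h3 | h3
    · exact Or.inl ⟨0, fun j _ => by linarith⟩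
    · exact Or.inr ⟨0, fun j _ => by linarith⟩
  · by_cases h2 : ∃ J, κ' + s' * γ J < κ + s * γ J
    · obtain ⟨J, hJ⟩ := h2
      right
      refine ⟨J, fun j hj => ?_⟩
      have h3 : γ J ≤ γ j := hγ.monotone hj
      nlinarith
    · push Not at h2
      left
      refine ⟨0, fun j _ => ?_⟩
      have h3 := h2 (j + 1)
      have h4 : γ j < γ (j + 1) := hγ (Nat.lt_succ_self j)
      nlinarith

lemma exists_dom {ι : Type*} (hγ : StrictMono γ) (I : Finset ι) (hI : I.Nonempty) (s κ : ι → ℝ)
    (hinj : ∀ i ∈ I, ∀ i' ∈ I, s i = s i' → κ i = κ i' → i = i') :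
    ∃ i0 ∈ I, ∃ J : ℕ, ∀ j, J ≤ j → ∀ i ∈ I, i ≠ i0 → κ i0 + s i0 * γ j < κ i + s i * γ j := by
  classical
  induction I using Finset.induction_on with
  | empty => exact absurd hI (by simp)
  | insert a I ha ih =>
    by_cases hI' : I.Nonempty
    · obtain ⟨i0, hi0, J, hJ⟩ := ih hI' fun i hi i' hi' => hinj i (Finset.mem_insert_of_mem hi)
        i' (Finset.mem_insert_of_mem hi')
      have hne : a ≠ i0 := by
        rintro rfl
        exact ha hi0
      have h1 : s a ≠ s i0 ∨ κ a ≠ κ i0 := by
        by_contra hcon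
        push Not at hcon
        exact hne (hinj a (Finset.mem_insert_self _ _) i0 (Finset.mem_insert_of_mem hi0)
          hcon.1 hcon.2)
      rcases pair_lines hγ h1 with ⟨J', hJ'⟩ | ⟨J', hJ'⟩
      · refine ⟨a, Finset.mem_insert_self _ _, max J J', fun j hj i hi hia => ?_⟩
        have h2 := hJ' j (le_trans (le_max_right _ _) hj)
        rcases Finset.mem_insert.1 hi with h3 | h3
        · exact absurd h3 hia
        · by_cases h4 : i = i0
          · rw [h4]; exact h2
          · exact h2.trans (hJ j (le_trans (le_max_left _ _) hj) i h3 h4)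
      · refine ⟨i0, Finset.mem_insert_of_mem hi0, max J J', fun j hj i hi hia => ?_⟩
        rcases Finset.mem_insert.1 hi with h3 | h3
        · rw [h3]
          exact hJ' j (le_trans (le_max_right _ _) hj)
        · exact hJ j (le_trans (le_max_left _ _) hj) i h3 hia
    · rw [Finset.not_nonempty_iff_eq_empty] at hI'
      subst hI'
      refine ⟨a, Finset.mem_insert_self _ _, 0, fun j _ i hi hia => ?_⟩
      rw [Finset.mem_insert] at hi
      rcases hi with h3 | h3
      · exact absurd h3 hia
      · exact absurd h3 (by simp)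

lemma v_sum_dom {K : Type*} [Field K] {v : Valuation K ℝ≥0} {ι : Type*} {I : Finset ι}
    {t : ι → K} {i0 : ι} (hi0 : i0 ∈ I) (h : ∀ i ∈ I, i ≠ i0 → v (t i) < v (t i0))
    (h0 : v (t i0) ≠ 0) : v (∑ i ∈ I, t i) = v (t i0) := by
  classical
  rw [← Finset.add_sum_erase I t hi0]
  refine v.map_add_eq_of_lt_left (v.map_sum_lt h0 fun i hi => ?_)
  exact h i (Finset.mem_of_mem_erase hi) (Finset.ne_of_mem_erase hi)

end lines

section kap

variable {E K : Type*} [Field E] [Field K] [Algebra E K] {v : Valuation K ℝ≥0} {a : ℕ → E}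
  {y : K} {γ : ℕ → ℝ}

/-- The value of the polynomial is eventually constant. -/
def EC (v : Valuation K ℝ≥0) (a : ℕ → E) (g : E[X]) : Prop :=
  ∃ J : ℕ, ∀ j, J ≤ j → v (algebraMap E K (g.eval (a j))) = v (algebraMap E K (g.eval (a J)))

lemma a_inj (hγ : StrictMono γ) (hy : ∀ j, v (y - algebraMap E K (a j)) = ex (γ j)) :
    Function.Injective a := by
  intro i j h
  apply hγ.injective
  rw [← ex_inj, ← hy, ← hy, h]

lemma ev_ne (ha : Function.Injective a) {g : E[X]} (hg : g ≠ 0) :
    ∃ J : ℕ, ∀ j, J ≤ j → g.eval (a j) ≠ 0 := by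
  classical
  have h1 : (a ⁻¹' (g.roots.toFinset : Set E)).Finite :=
    (g.roots.toFinset.finite_toSet).preimage ha.injOn
  obtain ⟨N, hN⟩ := h1.bddAbove
  refine ⟨N + 1, fun j hj h0 => ?_⟩
  have h2 : j ≤ N := hN (by
    rw [Set.mem_preimage, Finset.mem_coe, Multiset.mem_toFinset, mem_roots hg]
    exact h0)
  omega

lemma EC.const (ha : Function.Injective a) {g : E[X]} (hg : g ≠ 0) (h : EC v a g) :
    ∃ (κ : ℝ) (J : ℕ), ∀ j, J ≤ j → v (algebraMap E K (g.eval (a j))) = ex κ := by
  obtain ⟨J, hJ⟩ := h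
  obtain ⟨J', hJ'⟩ := ev_ne ha hg
  have h1 : v (algebraMap E K (g.eval (a J))) ≠ 0 := by
    rw [← hJ (max J J') (le_max_left _ _), Valuation.ne_zero_iff]
    intro h2
    exact hJ' _ (le_max_right _ _) ((map_eq_zero _).1 h2)
  obtain ⟨κ, hκ⟩ := exists_ex h1
  exact ⟨κ, J, fun j hj => by rw [hJ j hj, hκ]⟩

lemma taylor_sum (g : E[X]) (b : E) (y : K) :
    aeval y g - algebraMap E K (g.eval b) = ∑ i ∈ Finset.Icc 1 g.natDegree,
      algebraMap E K ((hasseDeriv i g).eval b) * (y - algebraMap E K b) ^ i := by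
  have h1 : aeval y g = ∑ i ∈ Finset.range (g.natDegree + 1),
      algebraMap E K ((hasseDeriv i g).eval b) * (y - algebraMap E K b) ^ i := by
    have h2 : aeval y g = eval₂ (algebraMap E K) (y - algebraMap E K b) (taylor b g) := by
      rw [taylor_apply, eval₂_comp, eval₂_add, eval₂_X, eval₂_C, sub_add_cancel]
      rfl
    rw [h2, eval₂_eq_sum_range, natDegree_taylor]
    refine Finset.sum_congr rfl fun i _ => ?_
    rw [taylor_coeff]
  rw [h1, Finset.sum_range_succ', pow_zero, mul_one, hasseDeriv_zero', add_sub_cancel_right]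
  have h2 : Finset.Icc 1 g.natDegree = (Finset.range g.natDegree).image (fun i => i + 1) := by
    ext i
    simp only [Finset.mem_Icc, Finset.mem_image, Finset.mem_range]
    constructor
    · rintro ⟨h3, h4⟩
      exact ⟨i - 1, by omega, by omega⟩
    · rintro ⟨j, h3, rfl⟩
      omega
  rw [h2, Finset.sum_image fun i _ j _ h => Nat.succ_injective h]

lemma TY (hγ : StrictMono γ) (hy : ∀ j, v (y - algebraMap E K (a j)) = ex (γ j)) {g : E[X]}
    (hg : 1 ≤ g.natDegree) (hd : ∀ i, 1 ≤ i → EC v a (hasseDeriv i g)) :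
    ∃ (s : ℕ) (κ : ℝ) (J : ℕ), 1 ≤ s ∧ ∀ j, J ≤ j →
      v (aeval y g - algebraMap E K (g.eval (a j))) = ex (κ + s * γ j) := by
  classical
  have ha := a_inj hγ hy
  let I := (Finset.Icc 1 g.natDegree).filter fun i => hasseDeriv i g ≠ 0
  have hI : I.Nonempty := by
    refine ⟨g.natDegree, Finset.mem_filter.2 ⟨Finset.mem_Icc.2 ⟨hg, le_rfl⟩, ?_⟩⟩
    intro h
    have h1 := congrArg (fun q => q.coeff 0) h
    simp only [hasseDeriv_coeff, zero_add, Nat.choose_self, Nat.cast_one, one_mul,
      coeff_zero] at h1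
    have h2 : g.leadingCoeff = 0 := h1
    rw [leadingCoeff_eq_zero] at h2
    rw [h2, natDegree_zero] at hg
    omega
  have h1 : ∀ i, ∃ (κ : ℝ) (J : ℕ), i ∈ I → ∀ j, J ≤ j →
      v (algebraMap E K ((hasseDeriv i g).eval (a j))) = ex κ := by
    intro i
    by_cases hi : i ∈ I
    · obtain ⟨h2, h3⟩ := Finset.mem_filter.1 hi
      obtain ⟨κ, J, h4⟩ := (hd i (Finset.mem_Icc.1 h2).1).const ha h3
      exact ⟨κ, J, fun _ => h4⟩
    · exact ⟨0, 0, fun h => absurd h hi⟩
  choose κ J hκ using h1
  obtain ⟨i0, hi0, J0, hJ0⟩ := exists_dom hγ I hI (fun i => (i : ℝ)) κ (by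
    intro i _ i' _ h _
    exact_mod_cast h)
  refine ⟨i0, κ i0, max J0 (I.sup J), (Finset.mem_Icc.1 (Finset.mem_filter.1 hi0).1).1,
    fun j hj => ?_⟩
  have hjJ : ∀ i ∈ I, J i ≤ j := fun i hi =>
    (Finset.le_sup (f := J) hi).trans (le_trans (le_max_right _ _) hj)
  have hterm : ∀ i ∈ I, v (algebraMap E K ((hasseDeriv i g).eval (a j)) *
      (y - algebraMap E K (a j)) ^ i) = ex (κ i + i * γ j) := by
    intro i hi
    rw [map_mul, map_pow, hy, hκ i hi j (hjJ i hi), ex_add, ex_nmul]
  rw [taylor_sum]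
  have h2 : ∑ i ∈ Finset.Icc 1 g.natDegree, algebraMap E K ((hasseDeriv i g).eval (a j)) *
      (y - algebraMap E K (a j)) ^ i = ∑ i ∈ I, algebraMap E K ((hasseDeriv i g).eval (a j)) *
      (y - algebraMap E K (a j)) ^ i := by
    symm
    refine Finset.sum_subset (Finset.filter_subset _ _) fun i hi hi2 => ?_
    rw [Finset.mem_filter, not_and, not_not] at hi2
    rw [hi2 hi, eval_zero, map_zero, zero_mul]
  rw [h2, v_sum_dom hi0, hterm i0 hi0]
  · intro i hi hne
    rw [hterm i hi, hterm i0 hi0, ex_lt]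
    exact hJ0 j (le_trans (le_max_left _ _) hj) i hi hne
  · rw [hterm i0 hi0]
    exact ex_ne _

lemma DI (hγ : StrictMono γ) {g : E[X]} {s : ℕ} {κ : ℝ} {J : ℕ} (hs : 1 ≤ s)
    (h : ∀ j, J ≤ j → v (aeval y g - algebraMap E K (g.eval (a j))) = ex (κ + s * γ j)) :
    (∃ J' : ℕ, (∀ j, J' ≤ j → v (algebraMap E K (g.eval (a j))) = v (aeval y g)) ∧
      v (aeval y g) ≠ 0) ∨
    (∀ j, J ≤ j → v (algebraMap E K (g.eval (a j))) = ex (κ + s * γ j) ∧
      v (aeval y g) ≤ ex (κ + s * γ j)) := by
  have hs0 : (0 : ℝ) < s := by exact_mod_cast hs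
  by_cases h1 : ∃ j, J ≤ j ∧ ex (κ + s * γ j) < v (aeval y g)
  · obtain ⟨j0, hj0, h2⟩ := h1
    left
    refine ⟨j0, fun j hj => ?_, fun h3 => ?_⟩
    · have h3 : ex (κ + s * γ j) < v (aeval y g) := by
        refine lt_of_le_of_lt (ex_le.2 ?_) h2
        have := hγ.monotone hj
        nlinarith
      have h4 : algebraMap E K (g.eval (a j)) =
          aeval y g + -(aeval y g - algebraMap E K (g.eval (a j))) := by ring
      rw [h4, v.map_add_eq_of_lt_left]
      rw [Valuation.map_neg, h j (hj0.trans hj)]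
      exact h3
    · rw [h3] at h2
      exact not_lt_bot h2
  · push Not at h1
    right
    intro j hj
    refine ⟨?_, h1 j hj⟩
    have h3 : v (aeval y g) < ex (κ + s * γ j) := by
      refine lt_of_le_of_lt (h1 (j + 1) (by omega)) (ex_lt.2 ?_)
      have := hγ (Nat.lt_succ_self j)
      nlinarith
    have h4 : algebraMap E K (g.eval (a j)) =
        aeval y g + -(aeval y g - algebraMap E K (g.eval (a j))) := by ring
    rw [h4, v.map_add_eq_of_lt_right, Valuation.map_neg, h j hj]
    rw [Valuation.map_neg, h j hj]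
    exact h3

lemma not_EC_of_lines (hγ : StrictMono γ) {g : E[X]} {s κ : ℝ} (hs : 0 < s) {J : ℕ}
    (h : ∀ j, J ≤ j → v (algebraMap E K (g.eval (a j))) = ex (κ + s * γ j)) : ¬ EC v a g := by
  rintro ⟨J', hJ'⟩
  have h1 := hJ' (max J J') (le_max_right _ _)
  have h2 := hJ' (max J J' + 1) ((le_max_right _ _).trans (Nat.le_succ _))
  rw [← h1, h _ (le_max_left _ _), h _ ((le_max_left _ _).trans (Nat.le_succ _)), ex_inj] at h2
  have := hγ (Nat.lt_succ_self (max J J'))
  nlinarith

theorem all_EC (hγ : StrictMono γ) (hy : ∀ j, v (y - algebraMap E K (a j)) = ex (γ j))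
    (hadd : ∀ P : E[X], P ≠ 0 → ∃ A : E[X], A ≠ 0 ∧ P ∣ A ∧ EC v a A) (g : E[X]) :
    EC v a g := by
  classical
  have ha := a_inj hγ hy
  suffices H : ∀ n, ∀ g : E[X], g.natDegree = n → EC v a g from H _ g rfl
  intro n
  induction n using Nat.strong_induction_on with
  | _ n ih =>
    intro g hgn
    by_cases hn : n = 0
    · rw [hn] at hgn
      rw [eq_C_of_natDegree_eq_zero hgn]
      exact ⟨0, fun j _ => by rw [eval_C, eval_C]⟩
    have hg0 : g ≠ 0 := by
      rintro rfl
      rw [natDegree_zero] at hgn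
      exact hn hgn.symm
    obtain ⟨s, κ, J, hs, hJ⟩ := TY hγ hy (g := g) (by omega) (by
      intro i hi
      refine ih _ ?_ _ rfl
      have := natDegree_hasseDeriv_le g i
      omega)
    rcases DI hγ hs hJ with ⟨J', hJ', h0⟩ | hB
    · exact ⟨J', fun j hj => by rw [hJ' j hj, hJ' J' le_rfl]⟩
    exfalso
    have hs0 : (0 : ℝ) < s := by exact_mod_cast hs
    have hdeg : 0 < g.degree := natDegree_pos_iff_degree_pos.1 (by omega)
    have claim : ∀ m, ∀ h : E[X], h.natDegree = m → h ≠ 0 → ∃ (σ : ℕ) (κ' : ℝ) (J' : ℕ),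
        (∀ j, J' ≤ j → v (algebraMap E K (h.eval (a j))) = ex (κ' + (σ * s) * γ j)) ∧
        (g ∣ h → 1 ≤ σ) := by
      intro m
      induction m using Nat.strong_induction_on with
      | _ m ihm =>
        intro h hm h0
        by_cases hlt : h.degree < g.degree
        · have h1 : h.natDegree < n := by
            rw [← hgn]
            exact natDegree_lt_natDegree h0 hlt
          obtain ⟨κ', J', h2⟩ := (ih _ h1 h rfl).const ha h0
          refine ⟨0, κ', J', fun j hj => ?_, fun h3 => ?_⟩
          · rw [h2 j hj]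
            congr 1
            push_cast
            ring
          · exact absurd (degree_le_of_dvd h3 h0) (not_le.2 hlt)
        · push Not at hlt
          have hq : h / g ≠ 0 := by
            intro h1
            rw [Polynomial.div_eq_zero_iff hg0] at h1
            exact absurd h1 (not_lt.2 hlt)
          have hqd : (h / g).natDegree < m := by
            rw [← hm]
            exact natDegree_lt_natDegree hq (degree_div_lt h0 hdeg)
          obtain ⟨σ, κ', J', h2, -⟩ := ihm _ hqd (h / g) rfl hq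
          have hsplit : h = g * (h / g) + h % g := (EuclideanDomain.div_add_mod h g).symm
          have hgq : ∀ j, max J J' ≤ j → v (algebraMap E K ((g * (h / g)).eval (a j))) =
              ex ((κ + κ') + ((σ + 1 : ℕ) * s) * γ j) := by
            intro j hj
            rw [eval_mul, map_mul, map_mul, (hB j ((le_max_left _ _).trans hj)).1,
              h2 j ((le_max_right _ _).trans hj), ← ex_add]
            congr 1
            push_cast
            ring
          by_cases hr : h % g = 0
          · refine ⟨σ + 1, κ + κ', max J J', fun j hj => ?_, fun _ => by omega⟩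
            rw [← hgq j hj]
            conv_lhs => rw [hsplit, hr, add_zero]
          · have hrn : (h % g).natDegree < n := by
              rw [← hgn]
              exact natDegree_lt_natDegree hr (EuclideanDomain.mod_lt h hg0)
            obtain ⟨κr, Jr, h3⟩ := (ih _ hrn _ rfl).const ha hr
            have hndvd : ¬ g ∣ h := fun h4 => hr (EuclideanDomain.mod_eq_zero.2 h4)
            have hsum : ∀ j, algebraMap E K (h.eval (a j)) =
                algebraMap E K ((g * (h / g)).eval (a j)) +
                algebraMap E K ((h % g).eval (a j)) := by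
              intro j
              conv_lhs => rw [hsplit]
              rw [eval_add, map_add]
            have hslope : (((σ + 1 : ℕ) * s : ℝ)) ≠ 0 := by positivity
            rcases pair_lines hγ (κ := κ + κ') (κ' := κr)
              (Or.inl hslope : (((σ + 1 : ℕ) * s : ℝ)) ≠ 0 ∨ _) with ⟨J2, h4⟩ | ⟨J2, h4⟩
            · refine ⟨σ + 1, κ + κ', max (max J J') (max Jr J2), fun j hj => ?_,
                fun _ => by omega⟩
              have hj1 := (le_max_left _ _).trans hj
              have hj2 := (le_max_right _ _).trans hj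
              rw [hsum, v.map_add_eq_of_lt_left, hgq j hj1]
              rw [hgq j hj1, h3 j ((le_max_left _ _).trans hj2), ex_lt]
              have := h4 j ((le_max_right _ _).trans hj2)
              linarith
            · refine ⟨0, κr, max (max J J') (max Jr J2), fun j hj => ?_,
                fun h5 => absurd h5 hndvd⟩
              have hj1 := (le_max_left _ _).trans hj
              have hj2 := (le_max_right _ _).trans hj
              rw [hsum, v.map_add_eq_of_lt_right, h3 j ((le_max_left _ _).trans hj2)]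
              · congr 1
                push_cast
                ring
              · rw [hgq j hj1, h3 j ((le_max_left _ _).trans hj2), ex_lt]
                have := h4 j ((le_max_right _ _).trans hj2)
                linarith
    obtain ⟨A, hA0, hgA, hAE⟩ := hadd g hg0
    obtain ⟨σ, κ', J', h1, h2⟩ := claim _ A rfl hA0
    have h3 := h2 hgA
    have h4 : (0 : ℝ) < σ := by exact_mod_cast h3
    exact not_EC_of_lines hγ (mul_pos h4 hs0) h1 hAE

/-- The values of the polynomials at the limit. -/
theorem value_y (hγ : StrictMono γ) (hy : ∀ j, v (y - algebraMap E K (a j)) = ex (γ j))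
    (hall : ∀ g : E[X], EC v a g) {g : E[X]} (hg : g ≠ 0) :
    ∃ j : ℕ, v (aeval y g) = v (algebraMap E K (g.eval (a j))) ∧ g.eval (a j) ≠ 0 := by
  have ha := a_inj hγ hy
  obtain ⟨J1, hJ1⟩ := ev_ne ha hg
  by_cases hn : g.natDegree = 0
  · refine ⟨J1, ?_, hJ1 J1 le_rfl⟩
    rw [eq_C_of_natDegree_eq_zero hn, aeval_C, eval_C]
  · obtain ⟨s, κ, J, hs, hJ⟩ := TY hγ hy (g := g) (by omega) (fun i _ => hall _)
    rcases DI hγ hs hJ with ⟨J', hJ', h0⟩ | hB
    · exact ⟨max J1 J', (hJ' _ (le_max_right _ _)).symm, hJ1 _ (le_max_left _ _)⟩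
    · exfalso
      have hs0 : (0 : ℝ) < s := by exact_mod_cast hs
      exact not_EC_of_lines hγ hs0 (fun j hj => (hB j hj).1) (hall g)

end kap

end Pool.Agent.H893
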