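import Pool.Agent.H893.PA

/-!
# The slope after a ramified step
-/

set_option autoImplicit false
set_option linter.unusedVariables false
set_option linter.unusedSectionVars false

namespace Pool.Agent.H893

open Polynomial

section tmp

variable {k L : Type*} [Field k] [AddCommGroup L] {e : (L × ℤ) ≃+ (L × ℤ)}

/-- The change of monomials, for polynomials with coefficients. -/
noncomputable def TmP (e : (L × ℤ) ≃+ (L × ℤ)) (f : (AddMonoidAlgebra k (L × ℕ))[X]) :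
    (AddMonoidAlgebra k (L × ℕ))[X] :=
  ∑ j ∈ Finset.range (f.natDegree + 1), monomial j (Tm e (f.coeff j))

lemma TmP_coeff (f : (AddMonoidAlgebra k (L × ℕ))[X]) (j : ℕ) :
    (TmP e f).coeff j = Tm e (f.coeff j) := by
  rw [TmP, finsetSum_coeff]
  simp only [coeff_monomial]
  by_cases hj : j ∈ Finset.range (f.natDegree + 1)
  · rw [Finset.sum_eq_single_of_mem j hj fun i _ hi => if_neg hi, if_pos rfl]
  · rw [Finset.sum_eq_zero, coeff_eq_zero_of_natDegree_lt, map_zero]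
    · rw [Finset.mem_range] at hj
      omega
    · intro i hi
      rw [if_neg]
      rintro rfl
      exact hj hi

lemma TmP_natDegree_le (f : (AddMonoidAlgebra k (L × ℕ))[X]) :
    (TmP e f).natDegree ≤ f.natDegree := by
  rw [natDegree_le_iff_coeff_eq_zero]
  intro N hN
  rw [TmP_coeff, coeff_eq_zero_of_natDegree_lt hN, map_zero]

lemma Tm_natCast_mul (n : ℕ) (g : AddMonoidAlgebra k (L × ℕ)) :
    Tm e ((n : AddMonoidAlgebra k (L × ℕ)) * g) = n * Tm e g := by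
  rw [← nsmul_eq_mul, ← nsmul_eq_mul, map_nsmul]

lemma TmP_taylor {f : (AddMonoidAlgebra k (L × ℕ))[X]} (hf : ∀ j, f.coeff j ∈ inP k (Ne' e))
    {Φ : AddMonoidAlgebra k (L × ℕ)} (hΦ : Φ ∈ inP k (Ne' e)) :
    TmP e (taylor Φ f) = taylor (Tm e Φ) (TmP e f) := by
  ext1 j
  rw [TmP_coeff, coeff_taylor f Φ j (f.natDegree + 1) (Nat.lt_succ_self _),
    coeff_taylor (TmP e f) _ j (f.natDegree + 1) (Nat.lt_succ_of_le (TmP_natDegree_le f)),
    map_sum]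
  refine Finset.sum_congr rfl fun i _ => ?_
  rw [Tm_natCast_mul, TmP_coeff, Tm_mul e (hf i) (pow_mem hΦ _), Tm_pow e hΦ]

variable {ω ω' : L →+ ℝ} {η : ℝ} {m : ℕ}

lemma YS.tm_wt (h : YS ω η ω' e m) (μ : L × ℕ) : ω' (tm e μ).1 = wW ω η μ := by
  have h1 := h.wt (μ.1, (μ.2 : ℤ))
  rw [wW_apply]
  change ω' (e (μ.1, (μ.2 : ℤ))).1 = _
  rw [h1]
  norm_cast

lemma YS.Tm_ge (h : YS ω η ω' e m) {B : ℝ} {g : AddMonoidAlgebra k (L × ℕ)}
    (hg : g ∈ ge (k := k) (wW ω η) B) : Tm e g ∈ ge (k := k) (wX ω') B := by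
  intro ν hν
  obtain ⟨μ, hμ, rfl⟩ := Tm_coeff_ne e hν
  rw [wX_apply, h.tm_wt]
  exact hg μ hμ

lemma YS.Tm_gt (h : YS ω η ω' e m) {B : ℝ} {g : AddMonoidAlgebra k (L × ℕ)}
    (hg : g ∈ gt (k := k) (wW ω η) B) : Tm e g ∈ gt (k := k) (wX ω') B := by
  intro ν hν
  obtain ⟨μ, hμ, rfl⟩ := Tm_coeff_ne e hν
  rw [wX_apply, h.tm_wt]
  exact hg μ hμ

lemma YS.of_Tm_gt (h : YS ω η ω' e m) {B : ℝ} {g : AddMonoidAlgebra k (L × ℕ)}
    (hg0 : g ∈ inP k (Ne' e)) (hg : Tm e g ∈ gt (k := k) (wX ω') B) :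
    g ∈ gt (k := k) (wW ω η) B := by
  intro μ hμ
  have h1 := hg (tm e μ) (by rw [Tm_coeff e hg0 (hg0 μ hμ)]; exact hμ)
  rwa [wX_apply, h.tm_wt] at h1

/-- The last exponent in terms of the new coordinates. -/
lemma YS.snd_tm (h : YS ω η ω' e m) {μ : L × ℕ} (hμ : μ ∈ Ne' e) {β : L} {t : ℕ}
    (ht : tm e μ = (β, t)) : (μ.2 : ℤ) = (e.symm (β, 0)).2 + m * t := by
  have h1 := tm_spec e hμ
  rw [ht] at h1
  have h2 : e.symm (β, (t : ℤ)) = (μ.1, (μ.2 : ℤ)) := by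
    rw [← h1, AddEquiv.symm_apply_apply]
  rw [← h.snd, h2]

end tmp

section PB

variable {k L : Type*} [Field k] [AddCommGroup L] [Module.Free ℤ L] [Module.Finite ℤ L]

/-- The data after the first phase. -/
structure Dat (ω : L →+ ℝ) (η : ℝ) (ω' : L →+ ℝ) (e : (L × ℤ) ≃+ (L × ℤ)) (m d : ℕ)
    (f : (AddMonoidAlgebra k (L × ℕ))[X]) (c0 : k) (A' w : ℝ) : Prop where
  inj : Function.Injective ω
  hη : 0 < η
  ys : YS ω η ω' e m
  hd : 0 < d
  hc0 : c0 ≠ 0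
  fd : (f.coeff d).coeff 0 = c0
  pos : ∀ j μ, (f.coeff j).coeff μ ≠ 0 → μ = 0 ∨ 0 < wW ω η μ
  ne : ∀ j, f.coeff j ∈ inP k (Ne' e)
  hA' : 0 < A'
  lw : Lw (wW ω η) A' d f
  att : ∃ j : ℕ, j < d ∧ ∃ μ, (f.coeff j).coeff μ ≠ 0 ∧ wW ω η μ = ((d : ℝ) - j) * A'
  uns : ∀ Φ1 : AddMonoidAlgebra k (L × ℕ), (∀ μ, Φ1.coeff μ ≠ 0 → wW ω η μ = A') →
        ∃ j : ℕ, j < d ∧ (taylor Φ1 f).coeff j ∉ gt (k := k) (wW ω η) (((d : ℝ) - j) * A')
  hw : 0 ≤ w
  wid : ∀ (j : ℕ) (μ : L × ℕ), j < d → (f.coeff j).coeff μ ≠ 0 →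
    wW ω η μ = ((d : ℝ) - j) * A' → (μ.2 : ℝ) ≤ ((d : ℝ) - j) * w

variable {ω : L →+ ℝ} {η : ℝ} {ω' : L →+ ℝ} {e : (L × ℤ) ≃+ (L × ℤ)} {m d : ℕ}
    {f : (AddMonoidAlgebra k (L × ℕ))[X]} {c0 : k} {A' w : ℝ}

lemma Dat.ge0 (h : Dat ω η ω' e m d f c0 A' w) (j : ℕ) : f.coeff j ∈ ge (k := k) (wW ω η) 0 := by
  intro μ hμ
  rcases h.pos j μ hμ with h1 | h1
  · rw [h1, map_zero]
  · exact h1.le

lemma Dat.lv (h : Dat ω η ω' e m d f c0 A' w) : Lv (wX ω') A' d (TmP e f) := by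
  intro j
  rw [TmP_coeff]
  exact h.ys.Tm_ge (h.lw.lv h.hA'.le h.ge0 j)

lemma Dat.G_gt (h : Dat ω η ω' e m d f c0 A' w) (j : ℕ) (hj : d < j) :
    (LF ω' A' d (TmP e f)).coeff j = 0 := by
  rw [LF_coeff, TmP_coeff]
  apply slice_gt
  apply h.ys.Tm_gt
  refine gt_of_ge ?_ (h.ge0 j)
  have h1 : (d : ℝ) < j := by exact_mod_cast hj
  exact mul_neg_of_neg_of_pos (by linarith) h.hA'

lemma Dat.G_ne (h : Dat ω η ω' e m d f c0 A' w) {j t : ℕ}
    (ht : ((LF ω' A' d (TmP e f)).coeff j).coeff t ≠ 0) :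
    ∃ (β : L) (μ : L × ℕ), ω' β = ((d : ℝ) - j) * A' ∧ (f.coeff j).coeff μ ≠ 0 ∧
      tm e μ = (β, t) ∧ μ ∈ Ne' e ∧ wW ω η μ = ((d : ℝ) - j) * A' := by
  rw [LF_coeff, TmP_coeff] at ht
  obtain ⟨β, hβ, h1⟩ := slice_ne ω' h.ys.inj ht
  obtain ⟨μ, hμ, h2⟩ := Tm_coeff_ne e h1
  refine ⟨β, μ, hβ, hμ, h2, h.ne j μ hμ, ?_⟩
  rw [← h.ys.tm_wt, h2, hβ]

lemma Dat.G_d (h : Dat ω η ω' e m d f c0 A' w) :
    (LF ω' A' d (TmP e f)).coeff d = C c0 := by
  ext t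
  rw [coeff_C]
  by_cases ht : t = 0
  · subst ht
    rw [if_pos rfl, LF_coeff, TmP_coeff, sub_self, zero_mul]
    have h1 := slice_coeff ω' h.ys.inj (Tm e (f.coeff d)) 0 0
    rw [map_zero] at h1
    rw [h1]
    have h2 : ((0, 0) : L × ℕ) = tm e 0 := (tm_zero e).symm
    rw [h2, Tm_coeff e (h.ne d) (Ne' e).zero_mem, h.fd]
  · rw [if_neg ht]
    by_contra h1
    obtain ⟨β, μ, hβ, hμ, h2, h3, h4⟩ := h.G_ne h1
    rw [sub_self, zero_mul] at h4
    rcases h.pos d μ hμ with h5 | h5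
    · rw [h5, tm_zero] at h2
      exact ht (congrArg Prod.snd h2).symm
    · rw [h4] at h5
      exact lt_irrefl _ h5

lemma Dat.G_iv (h : Dat ω η ω' e m d f c0 A' w) {a : L} (ha : ω' a = A') (j : ℕ) (hj : j < d) :
    iv (((d : ℝ) - j) * (-((e.symm (a, 0)).2 : ℝ) / m))
      (((d : ℝ) - j) * (-((e.symm (a, 0)).2 : ℝ) / m + w / m))
      ((LF ω' A' d (TmP e f)).coeff j) := by
  intro t ht
  obtain ⟨β, μ, hβ, hμ, h2, h3, h4⟩ := h.G_ne ht
  have h5 := h.ys.snd_tm h3 h2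
  have hβa : β = (d - j) • a := by
    apply h.ys.inj
    rw [hβ, map_nsmul, ha, nsmul_eq_mul, Nat.cast_sub hj.le]
  have h6 : e.symm (β, 0) = (d - j) • e.symm (a, 0) := by
    rw [← map_nsmul]
    congr 1
    rw [hβa]
    ext <;> simp
  rw [h6, Prod.smul_snd, nsmul_eq_mul] at h5
  have h7 : (μ.2 : ℝ) = ((d : ℝ) - j) * (e.symm (a, 0)).2 + m * t := by
    have h8 : ((μ.2 : ℤ) : ℝ) = (((d - j : ℕ) : ℤ) * (e.symm (a, 0)).2 + m * t : ℤ) := by
      rw [h5]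
    push_cast at h8
    rw [Nat.cast_sub hj.le] at h8
    exact h8
  have hm : (0 : ℝ) < m := by
    have := h.ys.m2
    exact_mod_cast (by omega : 0 < m)
  have h8 := h.wid j μ hj hμ h4
  have h9 : (0 : ℝ) ≤ μ.2 := Nat.cast_nonneg _
  constructor
  · rw [← mul_div_assoc, div_le_iff₀ hm]
    nlinarith
  · rw [← add_div, ← mul_div_assoc, le_div_iff₀ hm]
    nlinarith

/-- The width of the coefficients. -/
lemma Dat.G_iv' (h : Dat ω η ω' e m d f c0 A' w) (j : ℕ) (hj : j < d)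
    (hne : (LF ω' A' d (TmP e f)).coeff j ≠ 0) :
    ∃ α : ℝ, iv α (α + ((d : ℝ) - j) * (w / m)) ((LF ω' A' d (TmP e f)).coeff j) := by
  obtain ⟨t0, ht0⟩ : ∃ t, ((LF ω' A' d (TmP e f)).coeff j).coeff t ≠ 0 := by
    by_contra hcon
    push Not at hcon
    apply hne
    ext t
    rw [hcon t, coeff_zero]
  obtain ⟨β0, μ0, hβ0, hμ0, h20, h30, h40⟩ := h.G_ne ht0
  have hm : (0 : ℝ) < m := by
    have := h.ys.m2
    exact_mod_cast (by omega : 0 < m)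
  refine ⟨-((e.symm (β0, 0)).2 : ℝ) / m, ?_⟩
  intro t ht
  obtain ⟨β, μ, hβ, hμ, h2, h3, h4⟩ := h.G_ne ht
  have hββ : β = β0 := h.ys.inj (by rw [hβ, hβ0])
  subst hββ
  have h5 := h.ys.snd_tm h3 h2
  have h7 : (μ.2 : ℝ) = (e.symm (β, 0)).2 + m * t := by exact_mod_cast h5
  have h8 := h.wid j μ hj hμ h4
  have h9 : (0 : ℝ) ≤ μ.2 := Nat.cast_nonneg _
  constructor
  · rw [div_le_iff₀ hm]
    nlinarith
  · rw [← mul_div_assoc, ← add_div, le_div_iff₀ hm]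
    nlinarith

/-- The leading form is not a power. -/
lemma Dat.G_np (p : ℕ) [Fact p.Prime] [CharP k p] (h : Dat ω η ω' e m d f c0 A' w)
    {a : L} (ha : ω' a = A') (ρ : k[X]) :
    LF ω' A' d (TmP e f) ≠ C (C c0) * (X - C ρ) ^ d := by
  classical
  intro hG
  have hp : p.Prime := Fact.out
  obtain ⟨r, d', hpd', hde⟩ := Nat.exists_eq_pow_mul_and_not_dvd h.hd.ne' p hp.ne_one
  set q := p ^ r with hq
  have hq0 : 0 < q := pow_pos hp.pos r
  have hd0 := h.hd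
  have hd'0 : 0 < d' := by
    rcases Nat.eq_zero_or_pos d' with h1 | h1
    · rw [h1, mul_zero] at hde
      omega
    · exact h1
  have hqd : q ≤ d := by
    rw [hde]
    exact Nat.le_mul_of_pos_right _ hd'0
  have hd'k : ((d' : ℕ) : k) ≠ 0 := by
    rw [Ne, CharP.cast_eq_zero_iff k p]
    exact hpd'
  have hdqR : (d : ℝ) - ((d - q : ℕ) : ℝ) = q := by
    rw [Nat.cast_sub hqd]
    ring
  -- the exponents of the coefficient
  have hnn : ∀ s, ρ.coeff s ≠ 0 → 0 ≤ (e.symm (a, (s : ℤ))).2 := by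
    intro s hs
    have h1 : ((LF ω' A' d (TmP e f)).coeff (d - q)).coeff (s * q) ≠ 0 := by
      rw [hG, coeff_C_mul]
      have h2 : ((X - C ρ) ^ d).coeff (d - q) = C ((d' : ℕ) : k) * (-ρ) ^ q := by
        rw [sub_eq_add_neg, ← C_neg, coeff_X_add_C_pow]
        have h3 : d - (d - q) = q := by omega
        have h4 : ((d.choose (d - q) : ℕ) : k[X]) = C ((d' : ℕ) : k) := by
          rw [← C_eq_natCast, Nat.choose_symm hqd, hde, choose_q p r d', if_pos dvd_rfl,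
            Nat.div_self hq0, Nat.choose_one_right]
        rw [h3, h4, mul_comm]
      rw [h2, coeff_C_mul, coeff_C_mul, hq, coeff_pow_q]
      refine mul_ne_zero h.hc0 (mul_ne_zero hd'k (pow_ne_zero _ ?_))
      rw [coeff_neg]
      exact neg_ne_zero.2 hs
    obtain ⟨β, μ, hβ, hμ, h2, h3, h4⟩ := h.G_ne h1
    rw [hdqR] at hβ
    have hβa : β = q • a := by
      apply h.ys.inj
      rw [hβ, map_nsmul, ha, nsmul_eq_mul]
    have h5 := tm_spec e h3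
    rw [h2, hβa] at h5
    have h6 : ((q • a, ((s * q : ℕ) : ℤ)) : L × ℤ) = q • (a, (s : ℤ)) := by
      ext
      · simp
      · simp [mul_comm]
    have h7 : (μ.1, (μ.2 : ℤ)) = q • e.symm (a, (s : ℤ)) := by
      rw [← map_nsmul, ← h6, ← h5, AddEquiv.symm_apply_apply]
    have h8 : (μ.2 : ℤ) = q * (e.symm (a, (s : ℤ))).2 := by
      have h9 := congrArg (fun l : L × ℤ => l.2) h7
      simp only [Prod.smul_snd, nsmul_eq_mul] at h9
      exact h9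
    have h9 : (0 : ℤ) ≤ q * (e.symm (a, (s : ℤ))).2 := by
      rw [← h8]
      exact Int.natCast_nonneg _
    exact nonneg_of_mul_nonneg_right h9 (by exact_mod_cast hq0)
  -- the element `Φ1`
  let lam : ℕ → L × ℕ := fun s => ((e.symm (a, (s : ℤ))).1, (e.symm (a, (s : ℤ))).2.toNat)
  have hlam : ∀ s, ρ.coeff s ≠ 0 →
      ((lam s).1, ((lam s).2 : ℤ)) = e.symm (a, (s : ℤ)) := by
    intro s hs
    apply Prod.ext
    · rfl
    · exact Int.toNat_of_nonneg (hnn s hs)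
  have hlamN : ∀ s, ρ.coeff s ≠ 0 → lam s ∈ Ne' e := by
    intro s hs
    rw [mem_Ne', hlam s hs, AddEquiv.apply_symm_apply]
    exact Int.natCast_nonneg _
  have hlamt : ∀ s, ρ.coeff s ≠ 0 → tm e (lam s) = (a, s) := by
    intro s hs
    have h1 := tm_spec e (hlamN s hs)
    rw [hlam s hs, AddEquiv.apply_symm_apply] at h1
    have h2 : a = (tm e (lam s)).1 := congrArg (fun l : L × ℤ => l.1) h1
    have h3 : (s : ℤ) = ((tm e (lam s)).2 : ℤ) := congrArg (fun l : L × ℤ => l.2) h1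
    apply Prod.ext
    · exact h2.symm
    · exact_mod_cast h3.symm
  let Φ1 : AddMonoidAlgebra k (L × ℕ) := ∑ s ∈ ρ.support, AddMonoidAlgebra.single (lam s)
    (ρ.coeff s)
  have hΦ1N : Φ1 ∈ inP k (Ne' e) := by
    refine sum_mem fun s hs => ?_
    intro μ hμ
    rw [AddMonoidAlgebra.coeff_single, Finsupp.single_apply] at hμ
    split_ifs at hμ with h1
    · rw [← h1]
      exact hlamN s hμ
    · exact absurd rfl hμ
  have hTΦ1 : Tm e Φ1 = ∑ s ∈ ρ.support, AddMonoidAlgebra.single (a, s) (ρ.coeff s) := by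
    rw [map_sum]
    refine Finset.sum_congr rfl fun s hs => ?_
    rw [Tm_single, hlamt s (mem_support_iff.1 hs)]
  have hTge : Tm e Φ1 ∈ ge (k := k) (wX ω') A' := by
    rw [hTΦ1]
    refine Submodule.sum_mem _ fun s _ => single_mem_ge fun _ => ?_
    rw [wX_apply, ha]
  have hTs : slice ω' A' (Tm e Φ1) = ρ := by
    rw [hTΦ1, map_sum]
    conv_rhs => rw [ρ.as_sum_support]
    refine Finset.sum_congr rfl fun s _ => ?_
    rw [slice_single, if_pos ha]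
  have hΦ1w : ∀ μ, Φ1.coeff μ ≠ 0 → wW ω η μ = A' := by
    intro μ hμ
    have h1 : (Tm e Φ1).coeff (tm e μ) ≠ 0 := by
      rw [Tm_coeff e hΦ1N (hΦ1N μ hμ)]
      exact hμ
    rw [hTΦ1, AddMonoidAlgebra.coeff_sum, Finsupp.finsetSum_apply] at h1
    obtain ⟨s, hs, h2⟩ := Finset.exists_ne_zero_of_sum_ne_zero h1
    rw [AddMonoidAlgebra.coeff_single, Finsupp.single_apply] at h2
    split_ifs at h2 with h3
    · rw [← h.ys.tm_wt, ← h3, ha]
    · exact absurd rfl h2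
  obtain ⟨j, hj, h1⟩ := h.uns Φ1 hΦ1w
  apply h1
  have h2 : (taylor Φ1 f).coeff j ∈ inP k (Ne' e) := inP_taylor h.ne hΦ1N j
  apply h.ys.of_Tm_gt h2
  rw [← TmP_coeff, TmP_taylor h.ne hΦ1N]
  apply gt_of_slice ω' h.ys.inj
  · exact h.lv.taylor hTge j
  · rw [← LF_coeff, LF_taylor ω' h.lv hTge, hTs, hG, taylor_mul, taylor_C, taylor_pow, map_sub,
      taylor_X, taylor_C, add_sub_cancel_right, coeff_C_mul, coeff_X_pow, if_neg hj.ne, mul_zero]

/-- The maximal slope. -/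
theorem phaseB (p : ℕ) [Fact p.Prime] [CharP k p]
    (h : Dat ω η ω' e m d f c0 A' w) {c : k} (hc : c ≠ 0) :
    ∃ (ρ : k[X]) (n : ℕ), ((∀ a, ω' a ≠ A') → ρ = 0) ∧
      Slc c d (n / d.factorial) (taylor ρ (LF ω' A' d (TmP e f))) ∧
      (∀ ρ' : k[X], ((∀ a, ω' a ≠ A') → ρ' = 0) → ∃ j : ℕ, j < d ∧ ∃ i : ℕ,
        (i : ℝ) ≤ ((d : ℝ) - j) * (n / d.factorial) ∧
        (taylor c ((taylor (ρ' + ρ) (LF ω' A' d (TmP e f))).coeff j)).coeff i ≠ 0) ∧
      ((∃ a, ω' a = A') → (n : ℝ) / d.factorial ≤ w / m + 1 / 2 ∧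
        (w / m ≤ 1 / 2 → (n : ℝ) / d.factorial < 1)) ∧
      ((∀ a, ω' a ≠ A') → (n : ℝ) / d.factorial ≤ w / m) := by
  classical
  set G := LF ω' A' d (TmP e f) with hG
  have hm : (0 : ℝ) < m := by
    have := h.ys.m2
    exact_mod_cast (by omega : 0 < m)
  have hD : (0 : ℝ) < d.factorial := by exact_mod_cast d.factorial_pos
  have hwm : 0 ≤ w / m := div_nonneg h.hw hm.le
  -- the bounds
  have hb1 : ∀ a, ω' a = A' → ∀ (ρ : k[X]) (b' : ℝ), Slc c d b' (taylor ρ G) →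
      b' ≤ w / m + 1 / 2 ∧ (w / m ≤ 1 / 2 → b' < 1) := by
    intro a ha ρ b' hb'
    exact lemB p h.hd h.hc0 h.G_d h.G_gt hwm (h.G_iv ha) hc (h.G_np p ha) ρ b' hb'
  have hb2 : ∀ b' : ℝ, Slc c d b' G → b' ≤ w / m := by
    intro b' hb'
    obtain ⟨j, hj, μ, hμ, h1⟩ := h.att
    have h2 : G.coeff j ≠ 0 := by
      intro h3
      have h4 := congrArg (fun g : k[X] => g.coeff (tm e μ).2) h3
      simp only [coeff_zero] at h4
      rw [hG, LF_coeff, TmP_coeff, ← h1, ← h.ys.tm_wt, slice_coeff ω' h.ys.inj] at h4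
      rw [Prod.mk.eta, Tm_coeff e (h.ne j) (h.ne j μ hμ)] at h4
      exact hμ h4
    obtain ⟨α, hα⟩ := h.G_iv' j hj h2
    have h3 : (0 : ℝ) < (d : ℝ) - j := by
      have : (j : ℝ) < d := by exact_mod_cast hj
      linarith
    have h4 := og_le_width h2 hc (mul_nonneg h3.le hwm) hα (hb' j hj)
    exact le_of_mul_le_mul_left h4 h3
  have hb3 : ∀ (ρ : k[X]) (b' : ℝ), ((∀ a, ω' a ≠ A') → ρ = 0) → Slc c d b' (taylor ρ G) →
      b' ≤ w / m + 1 / 2 := by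
    intro ρ b' hρ hb'
    by_cases ha : ∃ a, ω' a = A'
    · obtain ⟨a, ha⟩ := ha
      exact (hb1 a ha ρ b' hb').1
    · push Not at ha
      rw [hρ ha, taylor_zero] at hb'
      linarith [hb2 b' hb']
  -- the maximum
  let Q : ℕ → Prop := fun n => ∃ ρ : k[X], ((∀ a, ω' a ≠ A') → ρ = 0) ∧
    Slc c d (n / d.factorial) (taylor ρ G)
  let N := ⌈(w / m + 1 / 2) * d.factorial⌉₊
  have hQN : ∀ n, Q n → n ≤ N := by
    rintro n ⟨ρ, hρ, h1⟩
    have h2 := hb3 ρ _ hρ h1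
    rw [div_le_iff₀ hD] at h2
    exact_mod_cast h2.trans (Nat.le_ceil _)
  have hQ0 : Q 0 := by
    refine ⟨0, fun _ => rfl, ?_⟩
    intro j hj
    exact og_nonpos (by simp) _
  have hmaxQ : Q (Nat.findGreatest Q N) := Nat.findGreatest_spec (P := Q) (Nat.zero_le _) hQ0
  set n := Nat.findGreatest Q N with hn
  have hnQ : ¬ Q (n + 1) := by
    intro h1
    have h2 := Nat.le_findGreatest (hQN _ h1) h1
    omega
  obtain ⟨ρ, hρ, hsl⟩ := hmaxQ
  refine ⟨ρ, n, hρ, hsl, ?_, ?_, ?_⟩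
  · intro ρ' hρ'
    have h1 : ¬ Slc c d ((n + 1 : ℕ) / d.factorial) (taylor (ρ' + ρ) G) := by
      intro h2
      exact hnQ ⟨ρ' + ρ, fun ha => by rw [hρ ha, hρ' ha, add_zero], h2⟩
    unfold Slc og at h1
    push Not at h1
    obtain ⟨j, hj, i, hi, hne⟩ := h1
    refine ⟨j, hj, i, ?_, hne⟩
    -- integrality
    have h3 : (0 : ℝ) < (d : ℝ) - j := by
      have : (j : ℝ) < d := by exact_mod_cast hj
      linarith
    obtain ⟨E, hE⟩ : (d - j) ∣ d.factorial := Nat.dvd_factorial (by omega) (Nat.sub_le _ _)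
    have hER : (d.factorial : ℝ) = ((d : ℝ) - j) * E := by
      rw [hE, Nat.cast_mul, Nat.cast_sub hj.le]
    have hE0 : (0 : ℝ) < E := by
      rw [hER] at hD
      exact (mul_pos_iff_of_pos_left h3).1 hD
    have h4 : ∀ x : ℝ, ((d : ℝ) - j) * (x / d.factorial) = x / E := by
      intro x
      rw [hER]
      field_simp
    rw [h4] at hi ⊢
    rw [lt_div_iff₀ hE0] at hi
    rw [le_div_iff₀ hE0]
    have h5 : i * E < n + 1 := by exact_mod_cast hi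
    exact_mod_cast Nat.lt_succ_iff.1 h5
  · rintro ⟨a, ha⟩
    exact hb1 a ha ρ _ hsl
  · intro ha
    rw [hρ ha, taylor_zero] at hsl
    exact hb2 _ hsl

end PB

end Pool.Agent.H893
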