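import Pool.Agent.H893.Pt

/-!
# Algebraic independence
-/

set_option autoImplicit false
set_option linter.unusedVariables false
set_option linter.unusedSectionVars false

namespace Pool.Agent.H893

open Polynomial

section io

variable {k L : Type*} [Field k] [AddCommGroup L] [Module.Free ℤ L] [Module.Finite ℤ L] {s : ℕ}

/-- The exponents of the chart. -/
noncomputable def iota (b : Module.Basis (Fin s) ℤ L) (n : Option (Fin s) →₀ ℕ) : L × ℕ :=
  (∑ i, n (some i) • b i, n none)

lemma iota_injective (b : Module.Basis (Fin s) ℤ L) : Function.Injective (iota b) := by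
  intro n m h
  have h1 : ∑ i, n (some i) • b i = ∑ i, m (some i) • b i := congrArg Prod.fst h
  have h2 : n none = m none := congrArg Prod.snd h
  ext o
  rcases o with _ | i
  · exact h2
  · have h3 := congrArg (fun x => b.repr x i) h1
    simp only [map_sum, map_nsmul, Module.Basis.repr_self, Finsupp.finsetSum_apply,
      Finsupp.smul_apply] at h3
    rw [Finset.sum_eq_single i, Finset.sum_eq_single i] at h3
    · simpa using h3
    · intro j _ hj
      simp [hj]
    · simp
    · intro j _ hj
      simp [hj]
    · simp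

lemma iota_surj (b : Module.Basis (Fin s) ℤ L) {μ : L × ℕ} (hμ : μ ∈ (chartP b).prod ⊤) :
    ∃ n, iota b n = μ := by
  refine ⟨Finsupp.equivFunOnFinite.symm fun o => Option.elim o μ.2 fun i =>
    (b.repr μ.1 i).toNat, ?_⟩
  apply Prod.ext
  · change ∑ i, (b.repr μ.1 i).toNat • b i = μ.1
    conv_rhs => rw [← b.sum_repr μ.1]
    refine Finset.sum_congr rfl fun i _ => ?_
    rw [← natCast_zsmul, Int.toNat_of_nonneg (mem_chartP.1 hμ.1 i)]
  · rfl

/-- The inclusion of the polynomials. -/
noncomputable def Io (k : Type*) [Field k] (b : Module.Basis (Fin s) ℤ L) :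
    MvPolynomial (Option (Fin s)) k →ₐ[k] AddMonoidAlgebra k (L × ℕ) :=
  MvPolynomial.aeval fun o => Option.elim o (Yv k L) fun i => AddMonoidAlgebra.single (b i, 0) 1

lemma Io_monomial (b : Module.Basis (Fin s) ℤ L) (n : Option (Fin s) →₀ ℕ) (c : k) :
    Io k b (MvPolynomial.monomial n c) = AddMonoidAlgebra.single (iota b n) c := by
  classical
  rw [Io, MvPolynomial.aeval_monomial, Finsupp.prod_fintype _ _ fun i => pow_zero _,
    Fintype.prod_option]
  simp only [Option.elim_none, Option.elim_some, Yv]
  have h1 : ∀ t : Finset (Fin s), ∏ i ∈ t, (AddMonoidAlgebra.single (b i, 0) (1 : k) :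
      AddMonoidAlgebra k (L × ℕ)) ^ n (some i) =
      AddMonoidAlgebra.single (∑ i ∈ t, n (some i) • b i, 0) 1 := by
    intro t
    induction t using Finset.induction_on with
    | empty =>
      rw [Finset.prod_empty, Finset.sum_empty]
      rfl
    | insert a t ha ih =>
      rw [Finset.prod_insert ha, Finset.sum_insert ha, ih, AddMonoidAlgebra.single_pow,
        AddMonoidAlgebra.single_mul_single]
      simp
  rw [h1, AddMonoidAlgebra.single_pow, AddMonoidAlgebra.coe_algebraMap, Function.comp_apply,
    AddMonoidAlgebra.single_mul_single, AddMonoidAlgebra.single_mul_single, iota]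
  simp

lemma Io_injective (b : Module.Basis (Fin s) ℤ L) : Function.Injective (Io k b) := by
  classical
  have h1 : ∀ (P : MvPolynomial (Option (Fin s)) k) (n), (Io k b P).coeff (iota b n) =
      P.coeff n := by
    intro P n
    induction P using MvPolynomial.induction_on' with
    | monomial m c =>
      rw [Io_monomial, AddMonoidAlgebra.coeff_single, Finsupp.single_apply,
        MvPolynomial.coeff_monomial]
      simp only [(iota_injective b).eq_iff]
    | add p q hp hq =>
      rw [map_add, AddMonoidAlgebra.coeff_add, Finsupp.add_apply, hp, hq, MvPolynomial.coeff_add]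
  intro P Q h
  ext n
  rw [← h1, ← h1, h]

lemma Io_surj (b : Module.Basis (Fin s) ℤ L) {g : AddMonoidAlgebra k (L × ℕ)}
    (hg : g ∈ inP k ((chartP b).prod ⊤)) : ∃ P, Io k b P = g := by
  refine inP_induction (p := fun g => ∃ P, Io k b P = g) hg ⟨0, map_zero _⟩ ?_ ?_
  · intro μ c hμ
    obtain ⟨n, rfl⟩ := iota_surj b hμ
    exact ⟨_, Io_monomial b n c⟩
  · rintro _ _ ⟨P, rfl⟩ ⟨Q, rfl⟩
    exact ⟨P + Q, map_add _ _ _⟩

/-- Clearing the denominators. -/
lemma exists_shift (b : Module.Basis (Fin s) ℤ L) (g : AddMonoidAlgebra k (L × ℕ)) :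
    ∃ ν ∈ chartP b, AddMonoidAlgebra.single (ν, 0) 1 * g ∈ inP k ((chartP b).prod ⊤) := by
  classical
  induction g using AddMonoidAlgebra.induction_linear with
  | zero => exact ⟨0, (chartP b).zero_mem, by rw [mul_zero]; exact zero_mem _⟩
  | add f g hf hg =>
    obtain ⟨ν1, h1, h2⟩ := hf
    obtain ⟨ν2, h3, h4⟩ := hg
    have hs : ∀ ν ∈ chartP b, (AddMonoidAlgebra.single (ν, 0) 1 : AddMonoidAlgebra k (L × ℕ)) ∈
        inP k ((chartP b).prod ⊤) := by
      intro ν hν μ hμ
      rw [AddMonoidAlgebra.coeff_single, Finsupp.single_apply] at hμ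
      split_ifs at hμ with h
      · rw [← h]
        exact ⟨hν, trivial⟩
      · exact absurd rfl hμ
    refine ⟨ν1 + ν2, add_mem h1 h3, ?_⟩
    have h5 : AddMonoidAlgebra.single (ν1 + ν2, 0) (1 : k) * (f + g) =
        AddMonoidAlgebra.single (ν2, 0) 1 * (AddMonoidAlgebra.single (ν1, 0) 1 * f) +
        AddMonoidAlgebra.single (ν1, 0) 1 * (AddMonoidAlgebra.single (ν2, 0) 1 * g) := by
      rw [← mul_assoc, ← mul_assoc, AddMonoidAlgebra.single_mul_single,
        AddMonoidAlgebra.single_mul_single, mul_add]
      simp [add_comm]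
    rw [h5]
    exact add_mem (mul_mem (hs _ h3) h2) (mul_mem (hs _ h1) h4)
  | single μ c =>
    refine ⟨∑ i, (b.repr μ.1 i).natAbs • b i, ?_, ?_⟩
    · exact sum_mem fun i _ => nsmul_mem (by
        rw [mem_chartP]
        intro j
        rw [Module.Basis.repr_self, Finsupp.single_apply]
        split_ifs <;> simp) _
    · intro ν hν
      rw [AddMonoidAlgebra.single_mul_single, AddMonoidAlgebra.coeff_single,
        Finsupp.single_apply] at hν
      split_ifs at hν with h
      · rw [← h]
        refine ⟨?_, trivial⟩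
        change _ ∈ chartP b
        rw [mem_chartP]
        intro j
        simp only [Prod.fst_add, map_add, map_sum, map_nsmul, Module.Basis.repr_self,
          Finsupp.add_apply, Finsupp.finsetSum_apply, Finsupp.smul_apply]
        rw [Finset.sum_eq_single j]
        · simp only [Finsupp.single_eq_same, nsmul_eq_mul, mul_one]
          have := neg_abs_le (b.repr μ.1 j)
          rw [Int.abs_eq_natAbs] at this
          simp only [Int.natCast_natAbs] at this ⊢
          omega
        · intro i _ hi
          simp [hi]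
        · simp
      · exact absurd rfl hν

end io

section al

variable {k K L : Type*} [Field k] [Field K] [Algebra k K] [AddCommGroup L]
  [Module.Free ℤ L] [Module.Finite ℤ L] {s : ℕ}

/-- The coordinates. -/
noncomputable def fam (b : Module.Basis (Fin s) ℤ L) (X : Multiplicative L →* Kˣ) (y : K) :
    Option (Fin s) → K := fun o => Option.elim o y fun i => X (.ofAdd (b i))

lemma ev_Io (b : Module.Basis (Fin s) ℤ L) (X : Multiplicative L →* Kˣ) (y : K)
    (P : MvPolynomial (Option (Fin s)) k) :
    ev k X y (Io k b P) = MvPolynomial.aeval (fam b X y) P := by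
  have h : (ev k X y).comp (Io k b) = MvPolynomial.aeval (fam b X y) := by
    apply MvPolynomial.algHom_ext
    rintro (_ | i)
    · rw [AlgHom.comp_apply, Io, MvPolynomial.aeval_X, MvPolynomial.aeval_X, Option.elim_none, Yv,
        ev_single]
      simp [fam]
    · rw [AlgHom.comp_apply, Io, MvPolynomial.aeval_X, MvPolynomial.aeval_X, Option.elim_some,
        ev_single]
      simp [fam]
  rw [← h]
  rfl

lemma inj_iff (b : Module.Basis (Fin s) ℤ L) (X : Multiplicative L →* Kˣ) (y : K) :
    Function.Injective (ev k X y) ↔ AlgebraicIndependent k (fam b X y) := by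
  constructor
  · intro h P Q hPQ
    apply Io_injective b
    apply h
    rw [ev_Io, ev_Io]
    exact hPQ
  · intro h
    rw [injective_iff_map_eq_zero]
    intro g hg
    obtain ⟨ν, -, h1⟩ := exists_shift b g
    obtain ⟨P, hP⟩ := Io_surj b h1
    have h2 : MvPolynomial.aeval (fam b X y) P = 0 := by
      rw [← ev_Io, hP, map_mul, hg, mul_zero]
    have h3 : P = 0 := h (by rw [h2, map_zero])
    rw [h3, map_zero] at hP
    have h4 : g = AddMonoidAlgebra.single (-ν, 0) 1 * (AddMonoidAlgebra.single (ν, 0) 1 * g) := by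
      rw [← mul_assoc, AddMonoidAlgebra.single_mul_single]
      simp only [Prod.mk_add_mk, neg_add_cancel, add_zero, mul_one]
      exact (one_mul g).symm
    rw [h4, ← hP, mul_zero]

/-- The field generated by the coordinates. -/
noncomputable def FE (k : Type*) {K L : Type*} [Field k] [Field K] [Algebra k K] [AddCommGroup L]
    [Module.Free ℤ L] [Module.Finite ℤ L] (X : Multiplicative L →* Kˣ) (y : K) :
    IntermediateField k K :=
  IntermediateField.adjoin k (Set.range (fam (Module.finBasis ℤ L) X y))

lemma y_mem_FE (X : Multiplicative L →* Kˣ) (y : K) : y ∈ FE k X y :=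
  IntermediateField.subset_adjoin _ _ ⟨none, rfl⟩

lemma X_mem_FE (X : Multiplicative L →* Kˣ) (y : K) (β : Multiplicative L) :
    (X β : K) ∈ FE k X y := by
  have h1 : β.toAdd = ∑ i, (Module.finBasis ℤ L).repr β.toAdd i • Module.finBasis ℤ L i :=
    ((Module.finBasis ℤ L).sum_repr _).symm
  let H : AddSubgroup L :=
    { carrier := {β | (X (.ofAdd β) : K) ∈ FE k X y}
      zero_mem' := by
        change (X (.ofAdd 0) : K) ∈ FE k X y
        rw [ofAdd_zero, map_one, Units.val_one]
        exact one_mem _
      add_mem' := by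
        intro a b ha hb
        change (X (.ofAdd (a + b)) : K) ∈ FE k X y
        rw [ofAdd_add, map_mul, Units.val_mul]
        exact mul_mem ha hb
      neg_mem' := by
        intro a ha
        change (X (.ofAdd (-a)) : K) ∈ FE k X y
        rw [ofAdd_neg, map_inv, Units.val_inv_eq_inv_val]
        exact inv_mem ha }
  have h2 : β.toAdd ∈ H := by
    rw [h1]
    refine sum_mem fun i _ => zsmul_mem ?_ _
    exact IntermediateField.subset_adjoin _ _ ⟨some i, rfl⟩
  exact h2

lemma ev_mem_FE (X : Multiplicative L →* Kˣ) (y : K) (g : AddMonoidAlgebra k (L × ℕ)) :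
    ev k X y g ∈ FE k X y := by
  induction g using AddMonoidAlgebra.induction_linear with
  | zero => rw [map_zero]; exact zero_mem _
  | add f g hf hg => rw [map_add]; exact add_mem hf hg
  | single μ c =>
    rw [ev_single]
    exact mul_mem ((FE k X y).algebraMap_mem c) (mul_mem (X_mem_FE X y _)
      (pow_mem (y_mem_FE X y) _))

theorem alg_of_inj (htr : Algebra.trdeg k K = ((Module.finrank ℤ L + 1 : ℕ) : Cardinal))
    {X : Multiplicative L →* Kˣ} {y : K} (h : Function.Injective (ev k X y)) :
    Algebra.IsAlgebraic (FE k X y) K := by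
  have h1 := (inj_iff (Module.finBasis ℤ L) X y).1 h
  have h2 := h1.isTranscendenceBasis_of_lift_trdeg_le_of_finite (by simp [htr])
  exact h2.isAlgebraic_field

open IntermediateField.algebraAdjoinAdjoin in
theorem inj_of_alg (htr : Algebra.trdeg k K = ((Module.finrank ℤ L + 1 : ℕ) : Cardinal))
    {X : Multiplicative L →* Kˣ} {y : K} (h : Algebra.IsAlgebraic (FE k X y) K) :
    Function.Injective (ev k X y) := by
  rw [inj_iff (Module.finBasis ℤ L)]
  have h1 : Algebra.IsAlgebraic (Algebra.adjoin k (Set.range (fam (Module.finBasis ℤ L) X y)))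
      K := by
    exact IntermediateField.isAlgebraic_adjoin_iff_top.1 h
  exact (Algebra.IsAlgebraic.isTranscendenceBasis_of_lift_le_trdeg_of_finite k
    (fam (Module.finBasis ℤ L) X y) (by simp [htr])).1

theorem inj_of_root (htr : Algebra.trdeg k K = ((Module.finrank ℤ L + 1 : ℕ) : Cardinal))
    {X : Multiplicative L →* Kˣ} {y z : K}
    (hgen : ∀ F : IntermediateField k K, (∀ β, (X β : K) ∈ F) → y ∈ F → z ∈ F → F = ⊤)
    {f : (AddMonoidAlgebra k (L × ℕ))[X]} (hf : ∃ d, ev k X y (f.coeff d) ≠ 0)
    (h0 : eval₂ (ev k X y : AddMonoidAlgebra k (L × ℕ) →+* K) z f = 0) :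
    Function.Injective (ev k X y) := by
  apply inj_of_alg htr
  set E := FE k X y with hE
  let φ : AddMonoidAlgebra k (L × ℕ) →+* E :=
    ((ev k X y : AddMonoidAlgebra k (L × ℕ) →+* K)).codRestrict E.toSubring.toSubsemiring
      fun g => ev_mem_FE X y g
  have hφ : (algebraMap E K).comp φ = (ev k X y : AddMonoidAlgebra k (L × ℕ) →+* K) := by
    ext1 <;> rfl
  have hz : IsAlgebraic E z := by
    refine ⟨f.map φ, ?_, ?_⟩
    · obtain ⟨d, hd⟩ := hf
      intro h1
      apply hd
      have h2 := congrArg (fun q => algebraMap E K (q.coeff d)) h1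
      simp only [coeff_map, coeff_zero, map_zero] at h2
      exact h2
    · rw [aeval_def, eval₂_map, hφ, h0]
  have h1 := hgen ((algebraicClosure E K).restrictScalars k) (fun β => ?_) ?_ ?_
  · refine ⟨fun x => ?_⟩
    have h2 : x ∈ (algebraicClosure E K).restrictScalars k := by
      rw [h1]
      trivial
    exact mem_algebraicClosure_iff.1 h2
  · exact (algebraicClosure E K).algebraMap_mem ⟨_, X_mem_FE X y β⟩
  · exact (algebraicClosure E K).algebraMap_mem ⟨_, y_mem_FE X y⟩
  · exact mem_algebraicClosure_iff.2 hz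

end al

end Pool.Agent.H893
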