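import Pool.Agent.H893.Du
import Pool.Agent.H893.Tr
import Pool.Agent.H893.PB

/-!
# Preparation of points
-/

set_option autoImplicit false
set_option linter.unusedVariables false
set_option linter.unusedSectionVars false

namespace Pool.Agent.H893

open Polynomial
open scoped NNReal

section ready

variable {k K L : Type*} [Field k] [Field K] [Algebra k K] [AddCommGroup L]
  {v : Valuation K ℝ≥0}

lemma v_evL_lt (hk : ∀ c : k, c ≠ 0 → v (algebraMap k K c) = 1) {ω : L →+ ℝ}
    {X : Multiplicative L →* Kˣ} (hX : ∀ β, v (X (.ofAdd β) : K) = ex (ω β))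
    {g : AddMonoidAlgebra k L} {B : ℝ}
    (hg : g ∈ gt (k := k) ω B) : v (evL k X g) < ex B := by
  refine gt_induction (p := fun g => v (evL k X g) < ex B) hg ?_ ?_ ?_
  · rw [map_zero, map_zero]
    exact ex_pos B
  · intro μ c hμ
    rw [evL_single, map_mul, hX]
    refine lt_of_le_of_lt (mul_le_of_le_one_left zero_le (vk_le hk c)) (ex_lt.2 hμ)
  · intro a b ha hb
    rw [map_add]
    exact lt_of_le_of_lt (v.map_add _ _) (max_lt ha hb)

lemma v_evL (hk : ∀ c : k, c ≠ 0 → v (algebraMap k K c) = 1) {ω : L →+ ℝ}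
    (hω : Function.Injective ω)
    {X : Multiplicative L →* Kˣ} (hX : ∀ β, v (X (.ofAdd β) : K) = ex (ω β))
    {g : AddMonoidAlgebra k L} (hg : g ≠ 0) :
    ∃ β, g.coeff β ≠ 0 ∧ (∀ γ, g.coeff γ ≠ 0 → ω β ≤ ω γ) ∧ v (evL k X g) = ex (ω β) := by
  classical
  have h0 : g.coeff.support.Nonempty := by
    rw [Finsupp.support_nonempty_iff]
    intro h
    apply hg
    ext a
    rw [h]
    simp
  obtain ⟨β, hβ, hmin⟩ := Finset.exists_min_image g.coeff.support ω h0
  have hβ' := Finsupp.mem_support_iff.1 hβ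
  refine ⟨β, hβ', fun γ hγ => hmin γ (Finsupp.mem_support_iff.2 hγ), ?_⟩
  have h1 : g - AddMonoidAlgebra.single β (g.coeff β) ∈ gt (k := k) ω (ω β) := by
    intro γ hγ
    rw [AddMonoidAlgebra.coeff_sub, Finsupp.sub_apply, AddMonoidAlgebra.coeff_single,
      Finsupp.single_apply] at hγ
    split_ifs at hγ with h2
    · rw [h2, sub_self] at hγ
      exact absurd rfl hγ
    · rw [sub_zero] at hγ
      refine lt_of_le_of_ne (hmin γ (Finsupp.mem_support_iff.2 hγ)) fun h3 => h2 (hω h3)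
  have h2 := v_evL_lt hk hX h1
  have h3 : v (evL k X (AddMonoidAlgebra.single β (g.coeff β))) = ex (ω β) := by
    rw [evL_single, map_mul, hk _ hβ', hX, one_mul]
  have h4 : evL k X g = evL k X (g - AddMonoidAlgebra.single β (g.coeff β)) +
      evL k X (AddMonoidAlgebra.single β (g.coeff β)) := by
    rw [map_sub, sub_add_cancel]
  rw [h4, v.map_add_eq_of_lt_right (by rw [h3]; exact h2), h3]

/-- The value group of `k(X)` is determined by approximation. -/
def HypH (k L : Type*) {K : Type*} [Field k] [Field K] [Algebra k K] [AddCommGroup L]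
    (v : Valuation K ℝ≥0) : Prop :=
  ∀ (ω : L →+ ℝ) (X : Multiplicative L →* Kˣ) (y : K), Function.Injective ω →
    (∀ β, v (X (.ofAdd β) : K) = ex (ω β)) → Function.Injective (ev k X y) →
    ∃ φ : AddMonoidAlgebra k L, ∀ a, v (y - evL k X φ) ≠ ex (ω a)

theorem ready (hk : ∀ c : k, c ≠ 0 → v (algebraMap k K c) = 1) (H : HypH k L v) {ω : L →+ ℝ}
    (hω : Function.Injective ω) {X : Multiplicative L →* Kˣ}
    (hX : ∀ β, v (X (.ofAdd β) : K) = ex (ω β)) {u : K} (hal : Function.Injective (ev k X u))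
    (hu : v u ≤ 1) :
    ∃ (ψ : AddMonoidAlgebra k L) (c : k) (η : ℝ), inc k L ψ ∈ ge (k := k) (wX ω) 0 ∧
      slice ω 0 (inc k L ψ) = C c ∧ v (u - evL k X ψ) = ex η ∧ 0 < η ∧ (∀ a, ω a ≠ η) ∧
      v (u - algebraMap k K c) < 1 := by
  classical
  obtain ⟨φ, hφ⟩ := H ω X u hω hX hal
  have hne : ∀ χ : AddMonoidAlgebra k L, u - evL k X χ ≠ 0 := by
    intro χ h
    have h1 : ev k X u (Yv k L - inc k L χ) = 0 := by
      rw [map_sub, ev_inc, Yv, ev_single]
      simpa using h
    have h2 : Yv k L - inc k L χ = 0 := hal (by rw [h1, map_zero])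
    have h3 := congrArg (fun g => AddMonoidAlgebra.coeff g ((0 : L), 1)) h2
    simp only [AddMonoidAlgebra.coeff_sub, Finsupp.sub_apply, AddMonoidAlgebra.coeff_zero,
      Finsupp.coe_zero, Pi.zero_apply, inc_coeff, one_ne_zero, if_false, sub_zero] at h3
    rw [Yv, AddMonoidAlgebra.coeff_single, Finsupp.single_apply, if_pos rfl] at h3
    exact one_ne_zero h3
  obtain ⟨η, hη⟩ := exists_ex (x := v (u - evL k X φ)) ((Valuation.ne_zero_iff _).2 (hne φ))
  have hηω : ∀ a, ω a ≠ η := by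
    intro a ha
    apply hφ a
    rw [hη, ha]
  have hη0 : 0 < η := by
    by_contra hcon
    push Not at hcon
    have h1 : η < 0 := lt_of_le_of_ne hcon fun h => hηω 0 (by rw [map_zero, h])
    have h2 : v u < v (u - evL k X φ) := by
      rw [hη]
      refine lt_of_le_of_lt hu ?_
      rw [← ex_zero]
      exact ex_lt.2 h1
    have h3 : v (evL k X φ) = ex η := by
      have h4 : evL k X φ = u + -(u - evL k X φ) := by ring
      rw [h4, v.map_add_eq_of_lt_right (by rw [Valuation.map_neg]; exact h2), Valuation.map_neg,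
        hη]
    have h4 : φ ≠ 0 := by
      rintro rfl
      rw [map_zero, map_zero] at h3
      exact (ex_ne _) h3.symm
    obtain ⟨β, -, -, h5⟩ := v_evL hk hω hX h4
    rw [h5] at h3
    exact hηω β (ex_inj.1 h3)
  -- the truncation
  let ψ : AddMonoidAlgebra k L := ∑ β ∈ φ.coeff.support.filter fun β => ω β < η,
    AddMonoidAlgebra.single β (φ.coeff β)
  let χ : AddMonoidAlgebra k L := ∑ β ∈ φ.coeff.support.filter fun β => ¬ ω β < η,
    AddMonoidAlgebra.single β (φ.coeff β)
  have hφψ : φ = ψ + χ := by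
    conv_lhs => rw [sum_single φ]
    exact (Finset.sum_filter_add_sum_filter_not _ _ _).symm
  have hχ : χ ∈ gt (k := k) ω η := by
    refine Submodule.sum_mem _ fun β hβ => single_mem_gt fun _ => ?_
    have h1 := (Finset.mem_filter.1 hβ).2
    push Not at h1
    exact lt_of_le_of_ne h1 (hηω β).symm
  have hv : v (u - evL k X ψ) = ex η := by
    have h1 : u - evL k X ψ = evL k X χ + (u - evL k X φ) := by
      rw [hφψ, map_add]
      ring
    rw [h1, v.map_add_eq_of_lt_right (by rw [hη]; exact v_evL_lt hk hX hχ), hη]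
  have hψ0 : ∀ β, ψ.coeff β ≠ 0 → 0 ≤ ω β := by
    by_cases h0 : ψ = 0
    · intro β hβ
      rw [h0] at hβ
      exact absurd rfl hβ
    · obtain ⟨β, h1, h2, h3⟩ := v_evL hk hω hX h0
      have h4 : v (evL k X ψ) ≤ 1 := by
        have h5 : evL k X ψ = u - (u - evL k X ψ) := by ring
        rw [h5]
        refine (v.map_sub _ _).trans (max_le hu ?_)
        rw [hv]
        exact ex_le_one.2 hη0.le
      rw [h3, ex_le_one] at h4
      intro γ hγ
      exact h4.trans (h2 γ hγ)
  refine ⟨ψ, ψ.coeff 0, η, ?_, ?_, hv, hη0, hηω, ?_⟩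
  · rintro ⟨β, i⟩ h1
    rw [inc_coeff] at h1
    split_ifs at h1 with h2
    · exact hψ0 β h1
    · exact absurd rfl h1
  · ext i
    have h1 := slice_coeff ω hω (inc k L ψ) 0 i
    rw [map_zero] at h1
    rw [h1, inc_coeff, coeff_C]
  · have h1 : u - algebraMap k K (ψ.coeff 0) =
        (u - evL k X ψ) + evL k X (ψ - AddMonoidAlgebra.single 0 (ψ.coeff 0)) := by
      rw [map_sub, evL_single]
      simp
    rw [h1]
    refine lt_of_le_of_lt (v.map_add _ _) (max_lt ?_ ?_)
    · rw [hv]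
      exact ex_lt_one.2 hη0
    · rw [← ex_zero]
      apply v_evL_lt hk hX
      intro β hβ
      rw [AddMonoidAlgebra.coeff_sub, Finsupp.sub_apply, AddMonoidAlgebra.coeff_single,
        Finsupp.single_apply] at hβ
      split_ifs at hβ with h2
      · rw [h2, sub_self] at hβ
        exact absurd rfl hβ
      · rw [sub_zero] at hβ
        refine lt_of_le_of_ne (hψ0 β hβ) fun h3 => h2 ?_
        exact hω (by rw [← h3, map_zero])

end ready

section evals

variable {k L S : Type*} [Field k] [AddCommGroup L] [CommRing S] [Algebra k S]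

/-- The value of the equation. -/
noncomputable def EV (k : Type*) {L S : Type*} [Field k] [AddCommGroup L] [CommRing S]
    [Algebra k S] (X : Multiplicative L →* Sˣ) (y z : S) (f : (AddMonoidAlgebra k (L × ℕ))[X]) :
    S := eval₂ (ev k X y : AddMonoidAlgebra k (L × ℕ) →+* S) z f

lemma EV_eq_sum (X : Multiplicative L →* Sˣ) (y z : S) (f : (AddMonoidAlgebra k (L × ℕ))[X])
    {N : ℕ} (hN : f.natDegree < N) :
    EV k X y z f = ∑ j ∈ Finset.range N, ev k X y (f.coeff j) * z ^ j :=
  eval₂_eq_sum_range' _ hN z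

lemma EV_taylor (X : Multiplicative L →* Sˣ) (y z : S) (f : (AddMonoidAlgebra k (L × ℕ))[X])
    (Φ : AddMonoidAlgebra k (L × ℕ)) :
    EV k X y (z - ev k X y Φ) (taylor Φ f) = EV k X y z f := by
  rw [EV, taylor_apply, eval₂_comp, eval₂_add, eval₂_X, eval₂_C, EV]
  congr 1
  exact sub_add_cancel _ _

lemma EV_TmP {e : (L × ℤ) ≃+ (L × ℤ)} (X : Multiplicative L →* Sˣ) (y : Sˣ) (z : S)
    {f : (AddMonoidAlgebra k (L × ℕ))[X]} (hf : ∀ j, f.coeff j ∈ inP k (Ne' e)) :
    EV k (nX e X y) (nu e X y : S) z (TmP e f) = EV k X (y : S) z f := by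
  rw [EV_eq_sum _ _ _ _ (Nat.lt_succ_of_le (TmP_natDegree_le f)),
    EV_eq_sum _ _ _ _ (Nat.lt_succ_self f.natDegree)]
  refine Finset.sum_congr rfl fun j _ => ?_
  rw [TmP_coeff, ev_Tm e X y (hf j)]

lemma EV_tau (X : Multiplicative L →* Sˣ) (u z : S) (f : (AddMonoidAlgebra k (L × ℕ))[X])
    (ψ : AddMonoidAlgebra k L) :
    EV k X (u - evL k X ψ) z (f.map (tau (inc k L ψ) : AddMonoidAlgebra k (L × ℕ) →+* _)) =
      EV k X u z f := by
  rw [EV, eval₂_map, EV]
  congr 1
  apply RingHom.ext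
  intro g
  change ev k X (u - evL k X ψ) (tau (inc k L ψ) g) = ev k X u g
  rw [ev_tau, ev_inc, sub_add_cancel]

lemma EV_map {S' : Type*} [CommRing S'] [Algebra k S'] (φ : S →ₐ[k] S')
    (X : Multiplicative L →* Sˣ) (y z : S) (f : (AddMonoidAlgebra k (L × ℕ))[X]) :
    EV k ((Units.map (φ : S →* S')).comp X) (φ y) (φ z) f = φ (EV k X y z f) := by
  rw [EV_eq_sum _ _ _ _ (Nat.lt_succ_self f.natDegree),
    EV_eq_sum _ _ _ _ (Nat.lt_succ_self f.natDegree), map_sum]
  refine Finset.sum_congr rfl fun j _ => ?_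
  rw [ev_map, map_mul, map_pow]

end evals

section fst

variable {k K L : Type*} [Field k] [Field K] [Algebra k K] [AddCommGroup L]

lemma fst_EV (X : Multiplicative L →* (DualNumber K)ˣ) (y z : DualNumber K)
    (f : (AddMonoidAlgebra k (L × ℕ))[X]) :
    (EV k X y z f).fst = EV k (XK k X) y.fst z.fst f :=
  (EV_map (TrivSqZeroExt.fstHom k K K) X y z f).symm

variable [Module.Free ℤ L] [Module.Finite ℤ L]

lemma FE_le {X : Multiplicative L →* Kˣ} {y : K} {F : IntermediateField k K}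
    (hX : ∀ β, (X β : K) ∈ F) (hy : y ∈ F) : FE k X y ≤ F := by
  rw [FE, IntermediateField.adjoin_le_iff]
  rintro _ ⟨_ | i, rfl⟩
  · exact hy
  · exact hX _

lemma inj_mono (htr : Algebra.trdeg k K = ((Module.finrank ℤ L + 1 : ℕ) : Cardinal))
    {X X' : Multiplicative L →* Kˣ} {y y' : K} (h : FE k X y ≤ FE k X' y')
    (hi : Function.Injective (ev k X y)) : Function.Injective (ev k X' y') := by
  apply inj_of_alg htr
  have h1 := alg_of_inj htr hi
  refine ⟨fun z => ?_⟩
  obtain ⟨g, hg, hgz⟩ := h1.isAlgebraic z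
  refine ⟨g.map (IntermediateField.inclusion h : FE k X y →+* FE k X' y'), ?_, ?_⟩
  · exact (Polynomial.map_ne_zero_iff (IntermediateField.inclusion h :
      FE k X y →+* FE k X' y').injective).2 hg
  · rw [aeval_def, eval₂_map]
    exact hgz

/-- The fields generated by the coordinates. -/
lemma nX_mem {e : (L × ℤ) ≃+ (L × ℤ)} {X : Multiplicative L →* Kˣ} {y : Kˣ}
    {F : IntermediateField k K} :
    ((∀ β, (X β : K) ∈ F) ∧ (y : K) ∈ F) ↔
      ((∀ β, (nX e X y β : K) ∈ F) ∧ (nu e X y : K) ∈ F) := by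
  have h1 : ((∀ β, (X β : K) ∈ F) ∧ (y : K) ∈ F) ↔ ∀ l, (Mon X y l : K) ∈ F := by
    constructor
    · rintro ⟨h2, h3⟩ l
      have h4 := Mon_apply X y l.toAdd
      change Mon X y l = _ at h4
      rw [h4, Units.val_mul, Units.val_zpow_eq_zpow_val]
      exact mul_mem (h2 _) (zpow_mem h3 _)
    · intro h2
      refine ⟨fun β => ?_, ?_⟩
      · have h3 := h2 (.ofAdd (β.toAdd, 0))
        rw [Mon_apply] at h3
        simpa using h3
      · have h3 := h2 (.ofAdd (0, 1))
        rw [Mon_apply] at h3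
        simpa using h3
  rw [h1]
  constructor
  · intro h2
    exact ⟨fun β => h2 _, h2 _⟩
  · rintro ⟨h2, h3⟩ l
    have h4 := Mon_eq e X y l.toAdd
    change Mon X y l = _ at h4
    rw [h4, Units.val_mul, Units.val_zpow_eq_zpow_val]
    exact mul_mem (h2 _) (zpow_mem h3 _)

end fst

end Pool.Agent.H893
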