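import Pool.Agent.H893.KA
import Pool.Agent.H893.Rd

/-!
# Additive polynomials
-/

set_option autoImplicit false
set_option linter.unusedVariables false
set_option linter.unusedSectionVars false

namespace Pool.Agent.H893

open Polynomial
open scoped NNReal

section comb

variable {L : Type*} [AddCommGroup L] [Module.Free ℤ L] [Module.Finite ℤ L]

/-- Nonzero elements of lattices are not divisible by large powers. -/
lemma exists_pow_bound (p : ℕ) (hp : 2 ≤ p) {θ : L} (hθ : θ ≠ 0) :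
    ∃ N : ℕ, ∀ (S : ℕ) (τ : L), (p ^ S) • τ = θ → S ≤ N := by
  let b := Module.finBasis ℤ L
  obtain ⟨i, hi⟩ : ∃ i, b.repr θ i ≠ 0 := by
    by_contra hcon
    push Not at hcon
    apply hθ
    apply b.repr.injective
    ext i
    rw [hcon i, map_zero]
    rfl
  refine ⟨(b.repr θ i).natAbs, fun S τ h => ?_⟩
  have h1 : b.repr θ i = (p ^ S : ℕ) * b.repr τ i := by
    rw [← h, map_nsmul, Finsupp.smul_apply, nsmul_eq_mul]
  have h2 : (p ^ S : ℕ) ∣ (b.repr θ i).natAbs := by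
    rw [h1, Int.natAbs_mul, Int.natAbs_natCast]
    exact dvd_mul_right _ _
  have h3 : p ^ S ≤ (b.repr θ i).natAbs := Nat.le_of_dvd (Int.natAbs_pos.2 hi) h2
  exact (Nat.lt_pow_self (by omega : 1 < p)).le.trans h3

theorem comb {ω : L →+ ℝ} (hω : Function.Injective ω) (p : ℕ) (hp : 2 ≤ p) (T : Finset (ℕ × L))
    {β : ℕ → L} (hβ : StrictMono fun j => ω (β j)) {Cb : ℝ} (hbd : ∀ j, ω (β j) ≤ Cb)
    {n0 : ℕ} {γ0 : L} {J0 : ℕ}
    (hdom : ∀ j, J0 ≤ j → ∀ t ∈ T, ω γ0 + (p : ℝ) ^ n0 * ω (β j) ≤ ω t.2 + (p : ℝ) ^ t.1 * ω (β j))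
    (hR : ∀ j, J0 ≤ j → ∃ l, l < j ∧ ∃ t ∈ T, t.2 + (p ^ t.1) • β l = γ0 + (p ^ n0) • β j) :
    False := by
  classical
  have hp0 : (0 : ℝ) < p := by
    have : 0 < p := by omega
    exact_mod_cast this
  have hp1 : (1 : ℝ) < p := by
    have : 1 < p := by omega
    exact_mod_cast this
  have hmono : Monotone fun j => ω (β j) := hβ.monotone
  obtain ⟨B, hB⟩ : ∃ B, Filter.Tendsto (fun j => ω (β j)) Filter.atTop (nhds B) :=
    ⟨_, tendsto_atTop_ciSup hmono ⟨Cb, by rintro _ ⟨j, rfl⟩; exact hbd j⟩⟩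
  have hlt : ∀ j, ω (β j) < B := fun j =>
    lt_of_lt_of_le (hβ (Nat.lt_succ_self j)) (hmono.ge_of_tendsto hB (j + 1))
  -- the limit of the inequalities
  have hlim : ∀ t ∈ T, ω γ0 + (p : ℝ) ^ n0 * B ≤ ω t.2 + (p : ℝ) ^ t.1 * B := by
    intro t ht
    refine le_of_tendsto_of_tendsto ((hB.const_mul _).const_add _)
      ((hB.const_mul _).const_add _) ?_
    filter_upwards [Filter.eventually_ge_atTop J0] with j hj
    exact hdom j hj t ht
  -- for `l` large only ties are possible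
  have h1 : ∀ᶠ l in Filter.atTop, ∀ t ∈ T, ω γ0 + (p : ℝ) ^ n0 * B < ω t.2 + (p : ℝ) ^ t.1 * B →
      ω γ0 + (p : ℝ) ^ n0 * B < ω t.2 + (p : ℝ) ^ t.1 * ω (β l) := by
    rw [Filter.eventually_all_finset]
    intro t ht
    by_cases h : ω γ0 + (p : ℝ) ^ n0 * B < ω t.2 + (p : ℝ) ^ t.1 * B
    · filter_upwards [((hB.const_mul ((p : ℝ) ^ t.1)).const_add (ω t.2)).eventually
        (lt_mem_nhds h)] with l hl _
      exact hl
    · exact Filter.Eventually.of_forall fun l hl => absurd hl h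
  obtain ⟨J1, hJ1⟩ := Filter.eventually_atTop.1 h1
  -- the exponents with small `l`
  have hinjβ : Function.Injective β := fun i j h => hβ.injective (congrArg ω h)
  have hfin : {j | ∃ l < J1, ∃ t ∈ T, t.2 + (p ^ t.1) • β l = γ0 + (p ^ n0) • β j}.Finite := by
    have h2 : ((Finset.range J1 ×ˢ T).image fun q : ℕ × (ℕ × L) =>
        q.2.2 + (p ^ q.2.1) • β q.1 - γ0 : Finset L).finite_toSet.preimage
        (f := fun j => (p ^ n0) • β j) (fun i _ j _ h => by
          apply hinjβ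
          apply hω
          have h3 := congrArg ω h
          simp only [map_nsmul, nsmul_eq_mul] at h3
          exact mul_left_cancel₀ (by positivity) h3) = _ := rfl
    refine ((((Finset.range J1 ×ˢ T).image fun q : ℕ × (ℕ × L) =>
        q.2.2 + (p ^ q.2.1) • β q.1 - γ0 : Finset L).finite_toSet.preimage
        (f := fun j => (p ^ n0) • β j) (fun i _ j _ h => by
          apply hinjβ
          apply hω
          have h3 := congrArg ω h
          simp only [map_nsmul, nsmul_eq_mul] at h3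
          exact mul_left_cancel₀ (by positivity) h3))).subset ?_
    rintro j ⟨l, hl, t, ht, h3⟩
    rw [Set.mem_preimage, Finset.mem_coe, Finset.mem_image]
    refine ⟨(l, t), Finset.mem_product.2 ⟨Finset.mem_range.2 hl, ht⟩, ?_⟩
    change t.2 + (p ^ t.1) • β l - γ0 = (p ^ n0) • β j
    rw [h3]
    abel
  obtain ⟨J2', hJ2'⟩ := hfin.bddAbove
  set J2 := max (max J0 J1) (J2' + 1) with hJ2
  have hR2 : ∀ j, J2 ≤ j → ∃ l, J1 ≤ l ∧ l < j ∧ ∃ t ∈ T, t.1 < n0 ∧
      ω t.2 + (p : ℝ) ^ t.1 * B = ω γ0 + (p : ℝ) ^ n0 * B ∧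
      t.2 + (p ^ t.1) • β l = γ0 + (p ^ n0) • β j := by
    intro j hj
    obtain ⟨l, hl, t, ht, h3⟩ := hR j (((le_max_left _ _).trans (le_max_left _ _)).trans hj)
    have hlJ1 : J1 ≤ l := by
      by_contra hcon
      push Not at hcon
      have h4 : j ≤ J2' := hJ2' ⟨l, hcon, t, ht, h3⟩
      have h5 : J2' + 1 ≤ J2 := le_max_right _ _
      omega
    have h4 := congrArg ω h3
    simp only [map_add, map_nsmul, nsmul_eq_mul, Nat.cast_pow] at h4
    have htie : ω t.2 + (p : ℝ) ^ t.1 * B = ω γ0 + (p : ℝ) ^ n0 * B := by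
      by_contra hcon
      have h5 := lt_of_le_of_ne (hlim t ht) (Ne.symm hcon)
      have h6 := hJ1 l hlJ1 t ht h5
      have h7 := hlt j
      have h8 : (p : ℝ) ^ n0 * ω (β j) < (p : ℝ) ^ n0 * B :=
        mul_lt_mul_of_pos_left h7 (by positivity)
      linarith
    refine ⟨l, hlJ1, hl, t, ht, ?_, htie, h3⟩
    -- comparison of the exponents
    have h5 : (p : ℝ) ^ t.1 * (B - ω (β l)) = (p : ℝ) ^ n0 * (B - ω (β j)) := by linarith
    have h6 : ω (β l) < ω (β j) := hβ hl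
    have h7 := hlt j
    by_contra hcon
    push Not at hcon
    have h8 : (p : ℝ) ^ n0 ≤ (p : ℝ) ^ t.1 := pow_le_pow_right₀ hp1.le hcon
    have h9 : (0 : ℝ) < (p : ℝ) ^ n0 := by positivity
    have h10 : (p : ℝ) ^ n0 * (B - ω (β j)) < (p : ℝ) ^ n0 * (B - ω (β l)) :=
      mul_lt_mul_of_pos_left (by linarith) h9
    have h11 : (p : ℝ) ^ n0 * (B - ω (β l)) ≤ (p : ℝ) ^ t.1 * (B - ω (β l)) :=
      mul_le_mul_of_nonneg_right h8 (by linarith)
    linarith
  -- the elements `θ`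
  obtain ⟨-, -, -, t1, -, ht1, htie1, -⟩ := hR2 J2 le_rfl
  set N : ℕ := p ^ n0 - p ^ t1.1 with hN
  have hNlt : p ^ t1.1 < p ^ n0 := Nat.pow_lt_pow_right (by omega) ht1
  have hN0 : 0 < N := by omega
  have hNR : (N : ℝ) = (p : ℝ) ^ n0 - (p : ℝ) ^ t1.1 := by
    rw [hN, Nat.cast_sub hNlt.le]
    push_cast
    ring
  have hNR0 : (0 : ℝ) < N := by exact_mod_cast hN0
  let θ : ℕ → L := fun j => (t1.2 - γ0) - N • β j
  have hθ : ∀ j, ω (θ j) = N * (B - ω (β j)) := by
    intro j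
    change ω ((t1.2 - γ0) - N • β j) = _
    rw [map_sub, map_sub, map_nsmul, nsmul_eq_mul]
    have : ω t1.2 - ω γ0 = N * B := by
      rw [hNR]
      linarith
    rw [this]
    ring
  have hθpos : ∀ j, 0 < ω (θ j) := fun j => by
    rw [hθ]
    have := hlt j
    exact mul_pos hNR0 (by linarith)
  have hstep : ∀ j, J2 ≤ j → ∃ l, J1 ≤ l ∧ l < j ∧ ∃ s : ℕ, (p ^ s) • θ j = θ l := by
    intro j hj
    obtain ⟨l, hl1, hl2, t, ht, htn, htie, h3⟩ := hR2 j hj
    refine ⟨l, hl1, hl2, n0 - t.1, ?_⟩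
    have h4 := congrArg ω h3
    simp only [map_add, map_nsmul, nsmul_eq_mul, Nat.cast_pow] at h4
    have h5 : (p : ℝ) ^ t.1 * (B - ω (β l)) = (p : ℝ) ^ n0 * (B - ω (β j)) := by linarith
    apply hω
    rw [map_nsmul, nsmul_eq_mul, hθ, hθ]
    push_cast
    have h6 : (p : ℝ) ^ n0 = (p : ℝ) ^ t.1 * (p : ℝ) ^ (n0 - t.1) := by
      rw [← pow_add]
      congr 1
      omega
    have h7 : (p : ℝ) ^ t.1 * ((p : ℝ) ^ (n0 - t.1) * (B - ω (β j))) =
        (p : ℝ) ^ t.1 * (B - ω (β l)) := by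
      rw [h5, h6]
      ring
    have h8 := mul_left_cancel₀ (by positivity) h7
    linear_combination (N : ℝ) * h8
  have hchain : ∀ j, J1 ≤ j → ∃ l, l ≤ J2 ∧ ∃ s : ℕ, (p ^ s) • θ j = θ l := by
    intro j
    induction j using Nat.strong_induction_on with
    | _ j ih =>
      intro hj
      by_cases h : j ≤ J2
      · exact ⟨j, h, 0, by rw [pow_zero, one_smul]⟩
      · push Not at h
        obtain ⟨l, hl1, hl2, s, hs⟩ := hstep j h.le
        obtain ⟨l', hl', s', hs'⟩ := ih l hl2 hl1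
        refine ⟨l', hl', s' + s, ?_⟩
        rw [pow_add, mul_smul, hs, hs']
  -- the bound
  have hbound : ∀ l, ∃ M : ℕ, ∀ (S : ℕ) (τ : L), (p ^ S) • τ = θ l → S ≤ M := fun l =>
    exists_pow_bound p hp (by
      intro h
      have := hθpos l
      rw [h, map_zero] at this
      exact lt_irrefl _ this)
  choose M hM using hbound
  set MM := (Finset.range (J2 + 1)).sup M with hMM
  -- the lower bound for the `θ j`
  have hlow : ∀ j, J1 ≤ j → ω (θ J2) ≤ (p : ℝ) ^ MM * ω (θ j) := by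
    intro j hj
    obtain ⟨l, hl, s, hs⟩ := hchain j hj
    have h2 : s ≤ MM := (hM l s (θ j) hs).trans
      (Finset.le_sup (f := M) (Finset.mem_range.2 (Nat.lt_succ_of_le hl)))
    have h3 := congrArg ω hs
    rw [map_nsmul, nsmul_eq_mul] at h3
    push_cast at h3
    have h4 : ω (θ J2) ≤ ω (θ l) := by
      rw [hθ, hθ]
      have := hmono hl
      simp only at this
      exact mul_le_mul_of_nonneg_left (by linarith) hNR0.le
    calc ω (θ J2) ≤ ω (θ l) := h4
      _ = (p : ℝ) ^ s * ω (θ j) := h3.symm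
      _ ≤ (p : ℝ) ^ MM * ω (θ j) := mul_le_mul_of_nonneg_right
          (pow_le_pow_right₀ hp1.le h2) (hθpos j).le
  have hlim2 : Filter.Tendsto (fun j => (p : ℝ) ^ MM * ω (θ j)) Filter.atTop (nhds 0) := by
    have h2 : Filter.Tendsto (fun j => (p : ℝ) ^ MM * (N * (B - ω (β j)))) Filter.atTop
        (nhds ((p : ℝ) ^ MM * (N * (B - B)))) := ((hB.const_sub B).const_mul _).const_mul _
    rw [sub_self, mul_zero, mul_zero] at h2
    exact h2.congr fun j => by rw [hθ]
  have h2 : ω (θ J2) ≤ 0 := by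
    refine le_of_tendsto_of_tendsto tendsto_const_nhds hlim2 ?_
    filter_upwards [Filter.eventually_ge_atTop J1] with j hj
    exact hlow j hj
  exact absurd (hθpos J2) (not_lt.2 h2)

end comb

section add

variable {k L : Type*} [Field k] [AddCommGroup L]

/-- The additive polynomial with the given coefficients. -/
noncomputable def Ad (p : ℕ) [Fact p.Prime] [CharP k p] (A : ℕ → AddMonoidAlgebra k L) (n : ℕ) :
    AddMonoidAlgebra k L →+ AddMonoidAlgebra k L where
  toFun φ := ∑ i ∈ Finset.range n, A i * φ ^ p ^ i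
  map_zero' := by
    refine Finset.sum_eq_zero fun i _ => ?_
    rw [zero_pow (pow_ne_zero _ (Fact.out : p.Prime).ne_zero), mul_zero]
  map_add' := by
    intro φ ψ
    have := charP_ama (k := k) (M := L) p
    rw [← Finset.sum_add_distrib]
    refine Finset.sum_congr rfl fun i _ => ?_
    rw [add_pow_char_pow, mul_add]

lemma Ad_apply (p : ℕ) [Fact p.Prime] [CharP k p] (A : ℕ → AddMonoidAlgebra k L) (n : ℕ)
    (φ : AddMonoidAlgebra k L) : Ad p A n φ = ∑ i ∈ Finset.range n, A i * φ ^ p ^ i := rfl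

/-- The exponents of the additive polynomial. -/
noncomputable def TT (A : ℕ → AddMonoidAlgebra k L) (n : ℕ) : Finset (ℕ × L) := by
  classical
  exact (Finset.range n).biUnion fun i => (A i).coeff.support.image fun γ => (i, γ)

lemma mem_TT {A : ℕ → AddMonoidAlgebra k L} {n : ℕ} {t : ℕ × L} :
    t ∈ TT A n ↔ t.1 < n ∧ (A t.1).coeff t.2 ≠ 0 := by
  classical
  rw [TT, Finset.mem_biUnion]
  constructor
  · rintro ⟨i, hi, h⟩
    obtain ⟨γ, hγ, rfl⟩ := Finset.mem_image.1 h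
    exact ⟨Finset.mem_range.1 hi, Finsupp.mem_support_iff.1 hγ⟩
  · rintro ⟨h1, h2⟩
    exact ⟨t.1, Finset.mem_range.2 h1, Finset.mem_image.2 ⟨t.2, Finsupp.mem_support_iff.2 h2,
      rfl⟩⟩

lemma Ad_single (p : ℕ) [Fact p.Prime] [CharP k p] (A : ℕ → AddMonoidAlgebra k L) (n : ℕ)
    {β e : L} {c : k} (h : (Ad p A n (AddMonoidAlgebra.single β c)).coeff e ≠ 0) :
    ∃ t ∈ TT A n, e = t.2 + (p ^ t.1) • β := by
  classical
  rw [Ad_apply, AddMonoidAlgebra.coeff_sum, Finsupp.finsetSum_apply] at h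
  obtain ⟨i, hi, h1⟩ := Finset.exists_ne_zero_of_sum_ne_zero h
  obtain ⟨a, b, h2, h3, h4⟩ := coeff_mul_ne h1
  rw [AddMonoidAlgebra.single_pow, AddMonoidAlgebra.coeff_single, Finsupp.single_apply] at h3
  split_ifs at h3 with h5
  · refine ⟨(i, a), mem_TT.2 ⟨Finset.mem_range.1 hi, h2⟩, ?_⟩
    rw [← h4, ← h5]
  · exact absurd rfl h3

end add

end Pool.Agent.H893
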