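import Pool.Agent.H893.Wt

/-!
# Orders of polynomials after translations
-/

set_option autoImplicit false
set_option linter.unusedVariables false
set_option linter.unusedSectionVars false

namespace Pool.Agent.H893

open Polynomial

section og

variable {k : Type*} [Field k]

/-- The order at the origin is at least `x`. -/
def og (x : ℝ) (p : k[X]) : Prop := ∀ i : ℕ, (i : ℝ) < x → p.coeff i = 0

lemma og_zero (x : ℝ) : og x (0 : k[X]) := fun i _ => coeff_zero i

lemma og_add {x : ℝ} {p q : k[X]} (hp : og x p) (hq : og x q) : og x (p + q) := by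
  intro i hi
  rw [coeff_add, hp i hi, hq i hi, add_zero]

lemma og_neg {x : ℝ} {p : k[X]} (hp : og x p) : og x (-p) := by
  intro i hi
  rw [coeff_neg, hp i hi, neg_zero]

lemma og_sum {x : ℝ} {ι : Type*} (s : Finset ι) (p : ι → k[X]) (h : ∀ i ∈ s, og x (p i)) :
    og x (∑ i ∈ s, p i) := Finset.sum_induction _ _ (fun _ _ => og_add) (og_zero x) h

lemma og_mono {x y : ℝ} (hxy : x ≤ y) {p : k[X]} (hp : og y p) : og x p :=
  fun i hi => hp i (hi.trans_le hxy)

lemma og_mul {x y : ℝ} {p q : k[X]} (hp : og x p) (hq : og y q) : og (x + y) (p * q) := by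
  intro i hi
  rw [coeff_mul]
  refine Finset.sum_eq_zero fun a ha => ?_
  rw [Finset.HasAntidiagonal.mem_antidiagonal] at ha
  by_cases h1 : (a.1 : ℝ) < x
  · rw [hp _ h1, zero_mul]
  · rw [hq _ _, mul_zero]
    push Not at h1
    have h2 : (a.1 : ℝ) + a.2 = i := by exact_mod_cast ha
    linarith

lemma og_nonpos {x : ℝ} (hx : x ≤ 0) (p : k[X]) : og x p := by
  intro i hi
  have : (0 : ℝ) ≤ i := Nat.cast_nonneg i
  linarith

lemma og_pow {x : ℝ} {p : k[X]} (hp : og x p) (n : ℕ) : og (n * x) (p ^ n) := by
  induction n with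
  | zero => exact og_nonpos (by simp) _
  | succ n ih =>
    rw [pow_succ]
    refine og_mono (le_of_eq ?_) (og_mul ih hp)
    push_cast
    ring

lemma og_natCast_mul {x : ℝ} {p : k[X]} (n : ℕ) (hp : og x p) : og x ((n : k[X]) * p) := by
  intro i hi
  rw [← nsmul_eq_mul, coeff_smul, hp i hi, smul_zero]

/-- Supports in intervals. -/
def iv (a b : ℝ) (p : k[X]) : Prop := ∀ i : ℕ, p.coeff i ≠ 0 → a ≤ i ∧ (i : ℝ) ≤ b

lemma iv_zero (a b : ℝ) : iv a b (0 : k[X]) := fun i h => absurd (coeff_zero i) h

lemma iv_add {a b : ℝ} {p q : k[X]} (hp : iv a b p) (hq : iv a b q) : iv a b (p + q) := by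
  intro i hi
  by_cases h : p.coeff i = 0
  · apply hq
    intro h2
    apply hi
    rw [coeff_add, h, h2, add_zero]
  · exact hp i h

lemma iv_sum {a b : ℝ} {ι : Type*} (s : Finset ι) (p : ι → k[X]) (h : ∀ i ∈ s, iv a b (p i)) :
    iv a b (∑ i ∈ s, p i) := Finset.sum_induction _ _ (fun _ _ => iv_add) (iv_zero a b) h

lemma iv_mul {a b a' b' : ℝ} {p q : k[X]} (hp : iv a b p) (hq : iv a' b' q) :
    iv (a + a') (b + b') (p * q) := by
  intro i hi
  rw [coeff_mul] at hi
  obtain ⟨c, hc, hc'⟩ := Finset.exists_ne_zero_of_sum_ne_zero hi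
  rw [Finset.HasAntidiagonal.mem_antidiagonal] at hc
  obtain ⟨h1, h2⟩ := hp c.1 (left_ne_zero_of_mul hc')
  obtain ⟨h3, h4⟩ := hq c.2 (right_ne_zero_of_mul hc')
  have h5 : (c.1 : ℝ) + c.2 = i := by exact_mod_cast hc
  constructor <;> linarith

lemma iv_C (c : k) : iv 0 0 (C c) := by
  intro i hi
  rw [coeff_C] at hi
  split_ifs at hi with h
  · rw [h]; simp
  · exact absurd rfl hi

lemma iv_pow {a b : ℝ} {p : k[X]} (hp : iv a b p) (n : ℕ) : iv (n * a) (n * b) (p ^ n) := by
  induction n with
  | zero =>
    simpa using iv_C (1 : k)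
  | succ n ih =>
    rw [pow_succ]
    have h := iv_mul ih hp
    have h1 : ((n + 1 : ℕ) : ℝ) * a = n * a + a := by push_cast; ring
    have h2 : ((n + 1 : ℕ) : ℝ) * b = n * b + b := by push_cast; ring
    rw [h1, h2]
    exact h

lemma iv_natCast_mul {a b : ℝ} {p : k[X]} (n : ℕ) (hp : iv a b p) : iv a b ((n : k[X]) * p) := by
  intro i hi
  apply hp
  intro h
  apply hi
  rw [← nsmul_eq_mul, coeff_smul, h, smul_zero]

/-- The order at a nonzero point is bounded by the length of the support. -/
lemma og_le_width {p : k[X]} (hp : p ≠ 0) {c : k} (hc : c ≠ 0) {α l x : ℝ} (hl : 0 ≤ l)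
    (h : iv α (α + l) p) (ho : og x (taylor c p)) : x ≤ l := by
  by_contra hcon
  push Not at hcon
  let n := ⌈x⌉₊
  have h1 : X ^ n ∣ taylor c p := by
    rw [X_pow_dvd_iff]
    intro i hi
    exact ho i (Nat.lt_ceil.1 hi)
  have h2 : (X - C c) ^ n ∣ p := by
    obtain ⟨q, hq⟩ := h1
    refine ⟨taylor (-c) q, ?_⟩
    apply taylor_injective c
    rw [hq, taylor_mul, taylor_pow, taylor_taylor]
    simp [taylor_zero]
  let a := p.natTrailingDegree
  obtain ⟨q, hq⟩ : X ^ a ∣ p := by
    rw [X_pow_dvd_iff]
    intro i hi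
    exact coeff_eq_zero_of_lt_natTrailingDegree hi
  have hq0 : q ≠ 0 := by
    rintro rfl
    apply hp
    rw [hq, mul_zero]
  have hcop : IsCoprime ((X - C c) ^ n) ((X : k[X]) ^ a) := by
    apply IsCoprime.pow
    have h3 := isCoprime_X_sub_C_of_isUnit_sub (a := c) (b := (0 : k))
      (by rw [sub_zero]; exact hc.isUnit)
    rwa [C_0, sub_zero] at h3
  have h3 : (X - C c) ^ n ∣ q := by
    apply hcop.dvd_of_dvd_mul_left
    rw [← hq]
    exact h2
  have h4 := natDegree_le_of_dvd h3 hq0
  rw [natDegree_pow, natDegree_X_sub_C, mul_one] at h4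
  have h5 : p.natDegree = a + q.natDegree := by
    have h6 : (X ^ a * q).natDegree = a + q.natDegree := by
      rw [natDegree_mul (pow_ne_zero _ X_ne_zero) hq0, natDegree_X_pow]
    rw [← h6, ← hq]
  have h6 := h p.natDegree (by rw [coeff_natDegree]; exact leadingCoeff_ne_zero.2 hp)
  have h7 := h a (by
    have := trailingCoeff_nonzero_iff_nonzero.2 hp
    exact this)
  have h8 : (p.natDegree : ℝ) = a + q.natDegree := by exact_mod_cast h5
  have h9 : (q.natDegree : ℝ) ≤ l := by linarith [h6.2, h7.1]
  have h10 : x ≤ n := Nat.le_ceil x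
  have h11 : (n : ℝ) ≤ q.natDegree := by exact_mod_cast h4
  linarith

end og

section char

variable {k : Type*} [Field k] (p : ℕ) [Fact p.Prime] [CharP k p]

lemma coeff_pow_q (f : k[X]) (e i : ℕ) :
    (f ^ (p ^ e)).coeff (i * p ^ e) = f.coeff i ^ (p ^ e) := by
  have hp : 0 < p := (Fact.out : p.Prime).pos
  rw [← map_iterateFrobenius_expand, coeff_map, coeff_expand_mul (pow_pos hp e),
    iterateFrobenius_def]

lemma og_of_pow {f : k[X]} {e : ℕ} {x : ℝ} (h : og ((p : ℝ) ^ e * x) (f ^ (p ^ e))) : og x f := by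
  have hp : 0 < p := (Fact.out : p.Prime).pos
  intro i hi
  have h1 := h (i * p ^ e) (by
    push_cast
    have : (0 : ℝ) < (p : ℝ) ^ e := pow_pos (by exact_mod_cast hp) e
    nlinarith)
  rw [coeff_pow_q] at h1
  exact pow_eq_zero_iff (pow_ne_zero _ hp.ne') |>.1 h1

lemma iv_of_pow {f : k[X]} {e : ℕ} {a b : ℝ}
    (h : iv ((p : ℝ) ^ e * a) ((p : ℝ) ^ e * b) (f ^ (p ^ e))) : iv a b f := by
  have hp : 0 < p := (Fact.out : p.Prime).pos
  have hpe : (0 : ℝ) < (p : ℝ) ^ e := pow_pos (by exact_mod_cast hp) e
  intro i hi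
  have h1 := h (i * p ^ e) (by
    rw [coeff_pow_q]
    exact pow_ne_zero _ hi)
  push_cast at h1
  constructor
  · have := h1.1
    rw [mul_comm (i : ℝ)] at this
    exact le_of_mul_le_mul_left this hpe
  · have := h1.2
    rw [mul_comm (i : ℝ)] at this
    exact le_of_mul_le_mul_left this hpe

/-- The binomial coefficients of a multiple of `q`. -/
lemma choose_q (e d' s : ℕ) : (((p ^ e * d').choose s : ℕ) : k) =
    if p ^ e ∣ s then ((d'.choose (s / p ^ e) : ℕ) : k) else 0 := by
  have hp : 0 < p := (Fact.out : p.Prime).pos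
  have h1 : ((1 + X : k[X]) ^ (p ^ e * d')).coeff s = ((p ^ e * d').choose s : k) :=
    coeff_one_add_X_pow k _ _
  have h2 : (1 + X : k[X]) ^ (p ^ e * d') = expand k (p ^ e) ((1 + X) ^ d') := by
    rw [pow_mul, map_pow, map_add, map_one, expand_X]
    congr 1
    rw [add_pow_char_pow, one_pow]
  rw [← h1, h2, coeff_expand (pow_pos hp e)]
  split_ifs with h
  · rw [coeff_one_add_X_pow]
  · rfl

/-- A linear form on `k` over the subfield of the `p`-th powers. -/
lemma exists_frob_form {a : k} (ha : ∀ b : k, b ^ p ≠ a) :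
    ∃ φ : k →+ k, (∀ b x : k, φ (b ^ p * x) = b ^ p * φ x) ∧ φ 1 = 0 ∧ φ a ≠ 0 := by
  let F : Subfield k := (frobenius k p).fieldRange
  have hF : ∀ b : k, b ^ p ∈ F := fun b => ⟨b, rfl⟩
  have h1 : a ∉ Submodule.span F ({1} : Set k) := by
    intro h
    obtain ⟨c, hc⟩ := Submodule.mem_span_singleton.1 h
    obtain ⟨b, hb⟩ := c.2
    apply ha b
    rw [← hc, Subfield.smul_def, smul_eq_mul, mul_one]
    exact hb
  obtain ⟨f, hf, hker⟩ := Submodule.exists_le_ker_of_notMem h1
  refine ⟨(F.subtype : F →+ k).comp (f : k →+ F), ?_, ?_, ?_⟩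
  · intro b x
    change ((f (b ^ p * x) : F) : k) = b ^ p * (f x : k)
    have h2 : b ^ p * x = (⟨b ^ p, hF b⟩ : F) • x := rfl
    rw [h2, map_smul]
    rfl
  · change ((f 1 : F) : k) = 0
    have h2 : (1 : k) ∈ LinearMap.ker f := hker (Submodule.mem_span_singleton_self 1)
    rw [LinearMap.mem_ker.1 h2]
    rfl
  · change ((f a : F) : k) ≠ 0
    intro h
    apply hf
    exact Subtype.ext h

/-- Additive maps on the coefficients. -/
noncomputable def mapC (φ : k →+ k) (P : k[X]) : k[X] :=
  ∑ i ∈ Finset.range (P.natDegree + 1), monomial i (φ (P.coeff i))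

lemma mapC_coeff (φ : k →+ k) (P : k[X]) (i : ℕ) : (mapC φ P).coeff i = φ (P.coeff i) := by
  rw [mapC, finset_sum_coeff]
  by_cases h : i ∈ Finset.range (P.natDegree + 1)
  · rw [Finset.sum_eq_single_of_mem i h, coeff_monomial, if_pos rfl]
    intro j _ hj
    rw [coeff_monomial, if_neg hj]
  · rw [Finset.sum_eq_zero, coeff_eq_zero_of_natDegree_lt, map_zero]
    · rw [Finset.mem_range] at h
      omega
    · intro j hj
      rw [coeff_monomial, if_neg]
      rintro rfl
      exact h hj

/-- The case of the polynomials with zero derivative which are not powers. -/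
lemma og_le_of_nonpow {c : k} (hc : c ≠ 0) {h g : k[X]} (hd : derivative h = 0)
    (hn : ∀ h1, h ≠ h1 ^ p) {α W M : ℝ} (hW : 0 ≤ W) (hiv : iv α (α + W) h)
    (ho : og M (taylor c (h + g ^ p))) : M ≤ W := by
  have hp0 : p ≠ 0 := (Fact.out : p.Prime).ne_zero
  have hpp : 0 < p := (Fact.out : p.Prime).pos
  have hpR : (0 : ℝ) < p := by exact_mod_cast hpp
  set h' := contract p h with hh'
  have h1 : expand k p h' = h := expand_contract p hd hp0
  have h2 : expand k p (g.map (frobenius k p)) = g ^ p := by
    rw [← map_frobenius_expand, map_expand]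
  obtain ⟨i0, hi0⟩ : ∃ i, ∀ b : k, b ^ p ≠ h'.coeff i := by
    by_contra hcon
    push Not at hcon
    choose b hb using hcon
    have h3 : ∃ h1 : k[X], h' = h1.map (frobenius k p) := by
      refine ⟨∑ i ∈ Finset.range (h'.natDegree + 1), monomial i (b i), ?_⟩
      ext i
      rw [coeff_map, finset_sum_coeff]
      by_cases h : i ∈ Finset.range (h'.natDegree + 1)
      · rw [Finset.sum_eq_single_of_mem i h, coeff_monomial, if_pos rfl, frobenius_def, hb]
        intro j _ hj
        rw [coeff_monomial, if_neg hj]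
      · rw [Finset.sum_eq_zero, coeff_eq_zero_of_natDegree_lt, map_zero]
        · rw [Finset.mem_range] at h
          omega
        · intro j hj
          rw [coeff_monomial, if_neg]
          rintro rfl
          exact h hj
    obtain ⟨h1', hh1⟩ := h3
    apply hn h1'
    rw [← h1, hh1, ← map_expand, map_frobenius_expand]
  obtain ⟨φ, hφ, hφ1, hφa⟩ := exists_frob_form p hi0
  have hφp : ∀ b : k, φ (b ^ p) = 0 := by
    intro b
    have h3 := hφ b 1
    rwa [mul_one, hφ1, mul_zero] at h3
  set P := h' + g.map (frobenius k p) with hP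
  have hexp : h + g ^ p = expand k p P := by rw [hP, map_add, h1, h2]
  have htay : taylor c (expand k p P) = expand k p (taylor (c ^ p) P) := by
    have h3 : (Polynomial.X + C c : k[X]) ^ p = expand k p (Polynomial.X + C (c ^ p)) := by
      rw [add_pow_char, map_add, expand_X, expand_C, C_pow]
    rw [taylor_apply, taylor_apply, expand_eq_comp_X_pow, expand_eq_comp_X_pow, comp_assoc,
      comp_assoc]
    congr 1
    rw [X_pow_comp, h3, expand_eq_comp_X_pow]
  have ho2 : ∀ i : ℕ, (i : ℝ) < M / p → (taylor (c ^ p) P).coeff i = 0 := by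
    intro i hi
    rw [hexp, htay] at ho
    have h3 := ho (i * p) (by
      push_cast
      rwa [lt_div_iff₀ hpR] at hi)
    rwa [coeff_expand_mul hpp] at h3
  have hcomm : ∀ Q : k[X], mapC φ (taylor (c ^ p) Q) = taylor (c ^ p) (mapC φ Q) := by
    intro Q
    ext i
    rw [mapC_coeff]
    obtain ⟨N, hN1, hN2⟩ : ∃ N, Q.natDegree < N ∧ (mapC φ Q).natDegree < N :=
      ⟨max Q.natDegree (mapC φ Q).natDegree + 1, by omega, by omega⟩
    rw [taylor_coeff, taylor_coeff, hasseDeriv_apply, hasseDeriv_apply]
    rw [sum_over_range' _ _ N hN1, sum_over_range' _ _ N hN2]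
    · rw [eval_finset_sum, eval_finset_sum, map_sum]
      refine Finset.sum_congr rfl fun j _ => ?_
      rw [eval_monomial, eval_monomial, mapC_coeff]
      have h3 : ((j.choose i : ℕ) : k) * Q.coeff j * (c ^ p) ^ (j - i) =
          (c ^ (j - i)) ^ p * ((j.choose i : ℕ) • Q.coeff j) := by
        rw [nsmul_eq_mul, ← pow_mul, ← pow_mul, mul_comm p]
        ring
      rw [h3, hφ, map_nsmul, nsmul_eq_mul, ← pow_mul, ← pow_mul, mul_comm p]
      ring
    · intro n
      simp
    · intro n
      simp
  have hmP : mapC φ P = mapC φ h' := by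
    ext i
    rw [mapC_coeff, mapC_coeff, hP, coeff_add, map_add, coeff_map, frobenius_def, hφp, add_zero]
  have hne : mapC φ h' ≠ 0 := by
    intro h3
    apply hφa
    rw [← mapC_coeff, h3, coeff_zero]
  have hiv' : iv (α / p) (α / p + W / p) (mapC φ h') := by
    intro i hi
    rw [mapC_coeff] at hi
    have h3 : h'.coeff i ≠ 0 := by
      intro h4
      rw [h4, map_zero] at hi
      exact hi rfl
    have h4 : h.coeff (i * p) ≠ 0 := by
      rw [← h1, coeff_expand_mul hpp]
      exact h3
    obtain ⟨h5, h6⟩ := hiv _ h4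
    push_cast at h5 h6
    constructor
    · rw [div_le_iff₀ hpR]
      exact h5
    · rw [← add_div, le_div_iff₀ hpR]
      exact h6
  have ho' : og (M / p) (taylor (c ^ p) (mapC φ h')) := by
    intro i hi
    rw [← hmP, ← hcomm, mapC_coeff, ho2 i hi, map_zero]
  have h3 := og_le_width hne (pow_ne_zero p hc) (div_nonneg hW hpR.le) hiv' ho'
  exact (div_le_div_iff_of_pos_right hpR).1 h3

/-- The key estimate. -/
lemma key_est {c : k} (hc : c ≠ 0) {w b' : ℝ} (hw : 0 ≤ w) (e : ℕ) :
    ∀ (h ρ : k[X]) (α : ℝ), iv α (α + (p : ℝ) ^ e * w) h →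
    (∀ g, h ≠ g ^ (p ^ e)) → og ((p : ℝ) ^ e * b') (taylor c (h + ρ ^ (p ^ e))) →
    b' ≤ w + 1 / 2 ∧ (w ≤ 1 / 2 → b' < 1) := by
  have hp : p.Prime := Fact.out
  have hp2 : (2 : ℝ) ≤ p := by exact_mod_cast hp.two_le
  induction e with
  | zero =>
    intro h ρ α _ hn _
    exact absurd (by simp) (hn h)
  | succ e ih =>
    intro h ρ α hiv hn ho
    have hpe : (1 : ℝ) ≤ (p : ℝ) ^ e := one_le_pow₀ (by linarith)
    have hq : (2 : ℝ) ≤ (p : ℝ) ^ (e + 1) := by
      rw [pow_succ]
      nlinarith
    by_cases hd : derivative h = 0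
    · by_cases hpw : ∃ h1, h = h1 ^ p
      · obtain ⟨h1, rfl⟩ := hpw
        have h2 : h1 ^ p + ρ ^ (p ^ (e + 1)) = (h1 + ρ ^ (p ^ e)) ^ p := by
          rw [add_pow_char, ← pow_mul, pow_succ]
        refine ih h1 ρ (α / p) ?_ ?_ ?_
        · have h3 : iv ((p : ℝ) ^ 1 * (α / p)) ((p : ℝ) ^ 1 * (α / p + (p : ℝ) ^ e * w))
              (h1 ^ (p ^ 1)) := by
            rw [pow_one, pow_one]
            have h4 : (p : ℝ) * (α / p) = α := by field_simp
            have h5 : (p : ℝ) * (α / p + (p : ℝ) ^ e * w) = α + (p : ℝ) ^ (e + 1) * w := by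
              rw [pow_succ, mul_add, h4]
              ring
            rw [h4, h5]
            exact hiv
          exact iv_of_pow p h3
        · intro g hg
          apply hn g
          rw [hg, pow_succ, pow_mul]
        · rw [h2, taylor_pow] at ho
          have h3 : og ((p : ℝ) ^ 1 * ((p : ℝ) ^ e * b'))
              (taylor c (h1 + ρ ^ (p ^ e)) ^ (p ^ 1)) := by
            rw [pow_one, pow_one]
            have h4 : (p : ℝ) * ((p : ℝ) ^ e * b') = (p : ℝ) ^ (e + 1) * b' := by
              rw [pow_succ]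
              ring
            rw [h4]
            exact ho
          exact og_of_pow p h3
      · push Not at hpw
        have h2 : h + ρ ^ (p ^ (e + 1)) = h + (ρ ^ (p ^ e)) ^ p := by
          rw [← pow_mul, pow_succ]
        rw [h2] at ho
        have hqw : 0 ≤ (p : ℝ) ^ (e + 1) * w := by positivity
        have h3 := og_le_of_nonpow p hc hd hpw hqw hiv ho
        have h4 : b' ≤ w := le_of_mul_le_mul_left h3 (by positivity)
        exact ⟨by linarith, fun h5 => by linarith⟩
    · have h1 : derivative (taylor c (h + ρ ^ (p ^ (e + 1)))) =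
          taylor c (derivative h) := by
        have h2 : ((p ^ (e + 1) : ℕ) : k) = 0 := by
          rw [Nat.cast_pow, CharP.cast_eq_zero, zero_pow (Nat.succ_ne_zero e)]
        have h3 : derivative (h + ρ ^ (p ^ (e + 1))) = derivative h := by
          rw [derivative_add, derivative_pow, h2, C_0, zero_mul, zero_mul, add_zero]
        rw [taylor_apply, taylor_apply, derivative_comp, h3]
        simp
      have h2 : og ((p : ℝ) ^ (e + 1) * b' - 1) (taylor c (derivative h)) := by
        intro i hi
        rw [← h1, coeff_derivative, ho (i + 1) (by push_cast; linarith), zero_mul]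
      have h3 : iv (α - 1) (α - 1 + (p : ℝ) ^ (e + 1) * w) (derivative h) := by
        intro i hi
        rw [coeff_derivative] at hi
        obtain ⟨h4, h5⟩ := hiv (i + 1) (left_ne_zero_of_mul hi)
        push_cast at h4 h5
        constructor <;> linarith
      have hqw : 0 ≤ (p : ℝ) ^ (e + 1) * w := by positivity
      have h4 := og_le_width hd hc hqw h3 h2
      have h5 : (p : ℝ) ^ (e + 1) * (b' - w) ≤ 1 := by linarith
      constructor
      · by_contra hcon
        push Not at hcon
        nlinarith
      · intro hw2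
        by_cases hq3 : (3 : ℝ) ≤ (p : ℝ) ^ (e + 1)
        · by_contra hcon
          push Not at hcon
          nlinarith
        · -- here `p = 2` and `e = 0`
          push Not at hq3
          have he : e = 0 := by
            by_contra he
            have h6 : (2 : ℝ) ≤ (p : ℝ) ^ e := by
              obtain ⟨m, rfl⟩ := Nat.exists_eq_succ_of_ne_zero he
              rw [Nat.succ_eq_add_one, pow_succ]
              have : (1 : ℝ) ≤ (p : ℝ) ^ m := one_le_pow₀ (by linarith)
              nlinarith
            rw [pow_succ] at hq3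
            nlinarith
          subst he
          rw [zero_add, pow_one] at hq3 h3 h2
          have hp' : p = 2 := by
            have h6 : (p : ℕ) < 3 := by exact_mod_cast hq3
            have := hp.two_le
            omega
          obtain ⟨i₀, hi₀⟩ : ∃ i, (derivative h).coeff i ≠ 0 := by
            by_contra hcon
            push Not at hcon
            apply hd
            ext i
            rw [hcon i, coeff_zero]
          have heven : ∀ i, (derivative h).coeff i ≠ 0 → Even i := by
            intro i hi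
            rw [coeff_derivative] at hi
            by_contra hodd
            rw [Nat.not_even_iff_odd] at hodd
            apply right_ne_zero_of_mul hi
            have h6 : Even (i + 1) := hodd.add_one
            obtain ⟨j, hj⟩ := h6
            have h7 : ((i + 1 : ℕ) : k) = 0 := by
              rw [CharP.cast_eq_zero_iff k p, hp', hj]
              exact ⟨j, by ring⟩
            exact_mod_cast h7
          have huniq : ∀ i, (derivative h).coeff i ≠ 0 → i = i₀ := by
            intro i hi
            obtain ⟨a, ha⟩ := heven i hi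
            obtain ⟨b, hb⟩ := heven i₀ hi₀
            have h6 := h3 i hi
            have h7 := h3 i₀ hi₀
            have h8 : (p : ℝ) * w ≤ 1 := by
              rw [hp']
              push_cast
              linarith
            have h9 : (i : ℝ) ≤ i₀ + 1 := by linarith [h6.2, h7.1]
            have h10 : (i₀ : ℝ) ≤ i + 1 := by linarith [h6.1, h7.2]
            have h11 : i ≤ i₀ + 1 := by exact_mod_cast h9
            have h12 : i₀ ≤ i + 1 := by exact_mod_cast h10
            omega
          have h6 : iv (i₀ : ℝ) (i₀ + 0) (derivative h) := by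
            intro i hi
            rw [huniq i hi]
            simp
          have h7 := og_le_width hd hc le_rfl h6 h2
          nlinarith

end char

end Pool.Agent.H893
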