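import Pool.Agent.H893.Wt
import Pool.Graph.R_seed8.Y454.DT.Ell

/-!
# Lattices with a real weight
-/

set_option autoImplicit false
set_option linter.unusedVariables false
set_option linter.unusedSectionVars false

namespace Pool.Agent.H893

section chart

variable {L : Type*} [AddCommGroup L] [Module.Free ℤ L] [Module.Finite ℤ L]

/-- Bases of positive elements, such that finitely many given positive elements have nonnegative
coordinates. -/
lemma exists_chart (ω : L →+ ℝ) (hω : Function.Injective ω) (D : Finset L)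
    (hD : ∀ d ∈ D, 0 < ω d) : ∃ (s : ℕ) (b : Module.Basis (Fin s) ℤ L),
      (∀ j, 0 < ω (b j)) ∧ ∀ d ∈ D, ∀ j, 0 ≤ b.repr d j := by
  classical
  let B := Module.Free.chooseBasis ℤ L
  let sg : Module.Free.ChooseBasisIndex ℤ L → L := fun i => if 0 < ω (B i) then B i else -B i
  have hsg : ∀ i, 0 < ω (sg i) := by
    intro i
    by_cases h : 0 < ω (B i)
    · simp only [sg, if_pos h]
      exact h
    · simp only [sg, if_neg h, map_neg]
      have h1 : ω (B i) ≠ 0 := by
        rw [Ne, map_eq_zero_iff ω hω]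
        exact B.ne_zero i
      have h2 : ω (B i) < 0 := lt_of_le_of_ne (not_lt.1 h) h1
      linarith
  let D' : Finset ℝ := D.image ω ∪ Finset.univ.image (fun i => ω (sg i))
  obtain ⟨s, η, hη, hlin, hcl, hD'⟩ := Pool.Agent.Y454.DT.ell_core D' (by
    intro d hd
    simp only [D', Finset.mem_union, Finset.mem_image, Finset.mem_univ, true_and] at hd
    rcases hd with ⟨a, ha, rfl⟩ | ⟨i, rfl⟩
    · exact hD a ha
    · exact hsg i)
  have hrange : AddSubgroup.closure (D' : Set ℝ) ≤ ω.range := by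
    rw [AddSubgroup.closure_le]
    intro x hx
    simp only [D', Finset.coe_union, Finset.coe_image, Set.mem_union, Set.mem_image] at hx
    rcases hx with ⟨a, ha, rfl⟩ | ⟨i, _, rfl⟩
    · exact ⟨a, rfl⟩
    · exact ⟨sg i, rfl⟩
  choose b hb using fun j => hrange (hcl j)
  have hωl : (ω.toIntLinearMap : L →ₗ[ℤ] ℝ) ∘ b = η := funext hb
  have hbl : LinearIndependent ℤ b := by
    apply LinearIndependent.of_comp ω.toIntLinearMap
    rw [hωl]
    exact hlin
  have hrep : ∀ x ∈ D', ∃ n : Fin s → ℕ, x = ω (∑ j, (n j : ℤ) • b j) := by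
    intro x hx
    obtain ⟨n, hn⟩ := hD' x hx
    refine ⟨n, ?_⟩
    rw [hn, map_sum]
    refine Finset.sum_congr rfl fun j _ => ?_
    rw [map_zsmul, hb j, natCast_zsmul]
  have hspan : ⊤ ≤ Submodule.span ℤ (Set.range b) := by
    rw [← B.span_eq, Submodule.span_le]
    rintro _ ⟨i, rfl⟩
    obtain ⟨n, hn⟩ := hrep (ω (sg i)) (by
      simp only [D', Finset.mem_union, Finset.mem_image, Finset.mem_univ, true_and]
      exact Or.inr ⟨i, rfl⟩)
    have h1 := hω hn
    have h2 : sg i ∈ Submodule.span ℤ (Set.range b) := by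
      rw [h1]
      exact Submodule.sum_mem _ fun j _ =>
        Submodule.smul_mem _ _ (Submodule.subset_span ⟨j, rfl⟩)
    by_cases h : 0 < ω (B i)
    · simp only [sg, if_pos h] at h2
      exact h2
    · simp only [sg, if_neg h] at h2
      exact (Submodule.neg_mem_iff _).1 h2
  let bb := Module.Basis.mk hbl hspan
  have hbb : ∀ j, bb j = b j := fun j => Module.Basis.mk_apply hbl hspan j
  refine ⟨s, bb, ?_, ?_⟩
  · intro j
    rw [hbb, hb]
    exact hη j
  · intro d hd j
    obtain ⟨n, hn⟩ := hrep (ω d) (by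
      simp only [D', Finset.mem_union, Finset.mem_image]
      exact Or.inl ⟨d, hd, rfl⟩)
    have h1 := hω hn
    have h2 : d = ∑ j, (n j : ℤ) • bb j := by
      rw [h1]
      exact Finset.sum_congr rfl fun j _ => by rw [hbb]
    rw [h2, map_sum, Finsupp.finsetSum_apply, Finset.sum_eq_single j]
    · simp
    · intro i _ hij
      rw [map_zsmul, Finsupp.smul_apply, Module.Basis.repr_self, Finsupp.single_eq_of_ne hij.symm,
        smul_zero]
    · intro h
      exact absurd (Finset.mem_univ j) h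

/-- The submonoid of elements with nonnegative coordinates. -/
def chartP {s : ℕ} (b : Module.Basis (Fin s) ℤ L) : AddSubmonoid L where
  carrier := {β | ∀ j, 0 ≤ b.repr β j}
  zero_mem' := by
    intro j
    simp
  add_mem' := by
    intro x y hx hy j
    rw [map_add, Finsupp.add_apply]
    exact add_nonneg (hx j) (hy j)

lemma mem_chartP {s : ℕ} {b : Module.Basis (Fin s) ℤ L} {β : L} :
    β ∈ chartP b ↔ ∀ j, 0 ≤ b.repr β j := Iff.rfl

lemma ω_eq_sum (ω : L →+ ℝ) {s : ℕ} (b : Module.Basis (Fin s) ℤ L) (β : L) :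
    ω β = ∑ j, (b.repr β j : ℝ) * ω (b j) := by
  conv_lhs => rw [← b.sum_repr β]
  rw [map_sum]
  refine Finset.sum_congr rfl fun j _ => ?_
  rw [map_zsmul, zsmul_eq_mul]

lemma chartP_nonneg {ω : L →+ ℝ} {s : ℕ} {b : Module.Basis (Fin s) ℤ L}
    (hb : ∀ j, 0 < ω (b j)) {β : L} (h : β ∈ chartP b) : 0 ≤ ω β := by
  rw [ω_eq_sum ω b]
  refine Finset.sum_nonneg fun j _ => mul_nonneg ?_ (hb j).le
  exact_mod_cast h j

lemma chartP_root {s : ℕ} {b : Module.Basis (Fin s) ℤ L} {β : L} {n : ℕ} (hn : n ≠ 0)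
    (h : n • β ∈ chartP b) : β ∈ chartP b := by
  intro j
  have h1 := h j
  rw [map_nsmul, Finsupp.smul_apply, nsmul_eq_mul] at h1
  have h2 : (0 : ℤ) < n := by exact_mod_cast Nat.pos_of_ne_zero hn
  exact nonneg_of_mul_nonneg_right h1 h2

lemma chartP_finite {ω : L →+ ℝ} {s : ℕ} {b : Module.Basis (Fin s) ℤ L}
    (hb : ∀ j, 0 < ω (b j)) (C : ℝ) : {β | β ∈ chartP b ∧ ω β ≤ C}.Finite := by
  classical
  let T : Set (Fin s → ℤ) := Set.pi Set.univ fun j => Set.Icc 0 ⌊C / ω (b j)⌋
  have hT : T.Finite := Set.Finite.pi fun j => Set.finite_Icc _ _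
  refine (hT.image fun n => ∑ j, n j • b j).subset ?_
  rintro β ⟨h1, h2⟩
  refine ⟨fun j => b.repr β j, ?_, b.sum_repr β⟩
  intro j _
  refine ⟨h1 j, ?_⟩
  rw [Int.le_floor, le_div_iff₀ (hb j)]
  refine le_trans ?_ h2
  rw [ω_eq_sum ω b β]
  refine Finset.single_le_sum (f := fun j => (b.repr β j : ℝ) * ω (b j)) (fun i _ => ?_)
    (Finset.mem_univ j)
  exact mul_nonneg (by exact_mod_cast h1 i) (hb i).le

end chart

section ystep

variable {L : Type*} [AddCommGroup L] [Module.Free ℤ L] [Module.Finite ℤ L]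

/-- The data of a ramified step. -/
structure YS (ω : L →+ ℝ) (η : ℝ) (ω' : L →+ ℝ) (e : (L × ℤ) ≃+ (L × ℤ)) (m : ℕ) : Prop where
  inj : Function.Injective ω'
  wt : ∀ l : L × ℤ, ω' (e l).1 = ω l.1 + l.2 * η
  m2 : 2 ≤ m
  em : (e.symm (0, 1)).2 = m

omit [Module.Free ℤ L] [Module.Finite ℤ L] in
lemma YS.snd {ω : L →+ ℝ} {η : ℝ} {ω' : L →+ ℝ} {e : (L × ℤ) ≃+ (L × ℤ)} {m : ℕ}
    (h : YS ω η ω' e m) (β : L) (t : ℤ) :
    (e.symm (β, t)).2 = (e.symm (β, 0)).2 + m * t := by
  have h1 : ((β, t) : L × ℤ) = (β, 0) + t • (0, 1) := by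
    ext <;> simp
  rw [h1, map_add, map_zsmul, Prod.snd_add, Prod.smul_snd, h.em, smul_eq_mul, mul_comm]

lemma exists_YS₀ {ω : L →+ ℝ} (hω : Function.Injective ω) {η : ℝ} (hη : ∀ a, ω a ≠ η)
    (hη2 : ∃ n : ℕ, n ≠ 0 ∧ ∃ a, ω a = n * η) :
    ∃ (ω' : L →+ ℝ) (e : (L × ℤ) ≃+ (L × ℤ)) (m : ℕ), YS ω η ω' e m := by
  classical
  let Q : ℕ → Prop := fun n => n ≠ 0 ∧ ∃ a, ω a = n * η
  have hQ : ∃ n, Q n := hη2
  let m := Nat.find hQ
  obtain ⟨hm0, a, ha⟩ : Q m := Nat.find_spec hQ
  have hmin : ∀ n, Q n → m ≤ n := fun n hn => Nat.find_min' hQ hn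
  have hm1 : m ≠ 1 := by
    intro h
    rw [h] at ha
    exact hη a (by rw [ha]; simp)
  have hm2 : 2 ≤ m := by omega
  let W : L × ℤ →ₗ[ℤ] ℝ :=
    { toFun := fun l => ω l.1 + l.2 * η
      map_add' := by
        intro x y
        simp only [Prod.fst_add, Prod.snd_add, map_add]
        push_cast
        ring
      map_smul' := by
        intro c x
        simp only [Prod.smul_fst, Prod.smul_snd, map_zsmul, smul_eq_mul, zsmul_eq_mul, eq_intCast,
          Int.cast_id]
        push_cast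
        ring }
  have hW : ∀ l : L × ℤ, W l = ω l.1 + l.2 * η := fun l => rfl
  let κ : L × ℤ := (-a, m)
  have hWκ : W κ = 0 := by
    rw [hW]
    change ω (-a) + ((m : ℤ) : ℝ) * η = 0
    rw [map_neg, ha]
    push_cast
    ring
  -- the kernel
  have hker : ∀ l : L × ℤ, W l = 0 → ∃ n : ℤ, l = n • κ := by
    intro l hl
    -- `m` divides the last coordinate
    have hdiv : ∀ i : ℤ, (∃ c, ω c = i * η) → (m : ℤ) ∣ i := by
      intro i hi
      obtain ⟨c, hc⟩ := hi
      have h1 : i % m = 0 := by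
        by_contra hne
        have h2 : 0 ≤ i % m := Int.emod_nonneg _ (by exact_mod_cast hm0)
        have h3 : i % m < m := Int.emod_lt_of_pos _ (by exact_mod_cast Nat.pos_of_ne_zero hm0)
        obtain ⟨r, hr⟩ := Int.eq_ofNat_of_zero_le h2
        have h4 : Q r := by
          refine ⟨?_, c - (i / m) • a, ?_⟩
          · rintro rfl
            apply hne
            rw [hr]
            rfl
          · rw [map_sub, map_zsmul, hc, ha]
            have h5 : (i : ℝ) = (i / m : ℤ) * m + r := by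
              have h6 : i = (i / m) * m + r := by
                rw [← hr]
                have := Int.mul_ediv_add_emod i m
                linarith
              exact_mod_cast h6
            rw [h5, zsmul_eq_mul]
            push_cast
            ring
        have h5 := hmin r h4
        rw [hr] at h3
        have h6 : r < m := by exact_mod_cast h3
        omega
      exact Int.dvd_of_emod_eq_zero h1
    obtain ⟨n, hn⟩ := hdiv l.2 ⟨-l.1, by
      rw [hW] at hl
      rw [map_neg]
      linarith⟩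
    refine ⟨n, ?_⟩
    have h1 : W (l - n • κ) = 0 := by
      rw [map_sub, hl, map_smul, hWκ]
      simp
    have h2 : (l - n • κ).2 = 0 := by
      rw [Prod.snd_sub, Prod.smul_snd, hn]
      change (m : ℤ) * n - n • (m : ℤ) = 0
      rw [smul_eq_mul]
      ring
    rw [hW, h2] at h1
    have h3 : (l - n • κ).1 = 0 := by
      apply hω
      rw [map_zero]
      simpa using h1
    have h4 : l - n • κ = 0 := Prod.ext h3 h2
    exact sub_eq_zero.1 h4
  -- the range
  let N : Submodule ℤ ℝ := LinearMap.range W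
  have hfree : Module.Free ℤ N := Module.free_of_finite_type_torsion_free'
  let ι : L →ₗ[ℤ] N :=
    { toFun := fun β => ⟨ω β, (β, 0), by rw [hW]; simp⟩
      map_add' := by
        intro x y
        apply Subtype.ext
        exact map_add ω x y
      map_smul' := by
        intro c x
        apply Subtype.ext
        simp [map_zsmul] }
  have hι : Function.Injective ι := by
    intro x y h
    exact hω (congrArg Subtype.val h)
  have hmN : ∀ x : N, ∃ β : L, ω β = m * (x : ℝ) := by
    rintro ⟨x, l, rfl⟩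
    refine ⟨m • l.1 + l.2 • a, ?_⟩
    rw [map_add, map_nsmul, map_zsmul, ha]
    change _ = (m : ℝ) * W l
    rw [hW, nsmul_eq_mul, zsmul_eq_mul]
    ring
  choose μ hμ using hmN
  let μl : N →ₗ[ℤ] L :=
    { toFun := μ
      map_add' := by
        intro x y
        apply hω
        rw [map_add, hμ, hμ, hμ]
        change (m : ℝ) * ((x : ℝ) + y) = _
        ring
      map_smul' := by
        intro c x
        apply hω
        simp only [map_zsmul, hμ, eq_intCast, Int.cast_id]
        change (m : ℝ) * ((c • x : N) : ℝ) = _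
        simp
        ring }
  have hμl : Function.Injective μl := by
    intro x y h
    have h1 : ω (μ x) = ω (μ y) := congrArg ω h
    rw [hμ, hμ] at h1
    have h2 : (m : ℝ) ≠ 0 := by exact_mod_cast hm0
    exact Subtype.ext (mul_left_cancel₀ h2 h1)
  have hrank : Module.finrank ℤ N = Module.finrank ℤ L :=
    le_antisymm (LinearMap.finrank_le_finrank_of_injective hμl)
      (LinearMap.finrank_le_finrank_of_injective hι)
  let φ : N ≃ₗ[ℤ] L := LinearEquiv.ofFinrankEq N L hrank
  -- the section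
  obtain ⟨s, hs⟩ := Module.projective_lifting_property W.rangeRestrict
    (LinearMap.id : N →ₗ[ℤ] N) W.surjective_rangeRestrict
  have hs' : ∀ x : N, W (s x) = x := by
    intro x
    have := congrArg (fun f => ((f x : N) : ℝ)) hs
    exact this
  let g : L × ℤ →+ L × ℤ :=
    { toFun := fun l => s (φ.symm l.1) + l.2 • κ
      map_zero' := by simp
      map_add' := by
        intro x y
        simp only [Prod.fst_add, Prod.snd_add, map_add, add_smul]
        abel }
  have hg : ∀ l : L × ℤ, g l = s (φ.symm l.1) + l.2 • κ := fun l => rfl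
  have hWg : ∀ l : L × ℤ, W (g l) = (φ.symm l.1 : N) := by
    intro l
    rw [hg, map_add, hs', map_smul, hWκ, smul_zero, add_zero]
  have hinj : Function.Injective g := by
    rw [injective_iff_map_eq_zero]
    intro l hl
    have h1 : W (g l) = 0 := by rw [hl, map_zero]
    rw [hWg] at h1
    have h2 : φ.symm l.1 = 0 := Subtype.ext h1
    have h3 : l.1 = 0 := by simpa using h2
    rw [hg, h2, map_zero, zero_add] at hl
    have h4 : l.2 * (m : ℤ) = 0 := congrArg Prod.snd hl
    have h5 : l.2 = 0 := by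
      rcases mul_eq_zero.1 h4 with h | h
      · exact h
      · exact absurd (by exact_mod_cast h) hm0
    exact Prod.ext h3 h5
  have hsurj : Function.Surjective g := by
    intro l
    let x : N := ⟨W l, l, rfl⟩
    obtain ⟨n, hn⟩ := hker (l - s x) (by
      rw [map_sub, hs', sub_self])
    refine ⟨(φ x, n), ?_⟩
    rw [hg]
    simp only [LinearEquiv.symm_apply_apply]
    rw [← hn]
    abel
  let e := (AddEquiv.ofBijective g ⟨hinj, hsurj⟩).symm
  have he : ∀ l, g (e l) = l := fun l => (AddEquiv.ofBijective g ⟨hinj, hsurj⟩).apply_symm_apply l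
  let ω' : L →+ ℝ := (N.subtype.comp φ.symm.toLinearMap).toAddMonoidHom
  refine ⟨ω', e, m, ?_, ?_, hm2, ?_⟩
  · intro x y h
    exact φ.symm.injective (Subtype.ext h)
  · intro l
    have h1 : ω' (e l).1 = W (g (e l)) := (hWg (e l)).symm
    rw [h1, he, hW]
  · have h1 : e.symm (0, 1) = g (0, 1) := rfl
    rw [h1, hg]
    simp [κ]

lemma exists_YS {ω : L →+ ℝ} (hω : Function.Injective ω) {η : ℝ} (hη : ∀ a, ω a ≠ η)
    (hη2 : ∃ n : ℕ, n ≠ 0 ∧ ∃ a, ω a = n * η) (F : Finset (L × ℕ))
    (hF : ∀ μ ∈ F, μ = 0 ∨ 0 < ω μ.1 + μ.2 * η) :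
    ∃ (ω' : L →+ ℝ) (e : (L × ℤ) ≃+ (L × ℤ)) (m : ℕ), YS ω η ω' e m ∧
      ∀ μ ∈ F, 0 ≤ (e (μ.1, (μ.2 : ℤ))).2 := by
  classical
  obtain ⟨ω', e, m, h⟩ := exists_YS₀ hω hη hη2
  let D : Finset L := (F.filter fun μ => μ ≠ 0).image fun μ => (e (μ.1, (μ.2 : ℤ))).1
  obtain ⟨s, b, hb, hbD⟩ := exists_chart ω' h.inj D (by
    intro d hd
    simp only [D, Finset.mem_image, Finset.mem_filter] at hd
    obtain ⟨μ, ⟨hμ, hμ0⟩, rfl⟩ := hd
    rw [h.wt]
    rcases hF μ hμ with h1 | h1
    · exact absurd h1 hμ0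
    · exact_mod_cast h1)
  -- the size of the shift
  obtain ⟨N0, hN0⟩ : ∃ N0 : ℕ, ∀ μ ∈ F, -(N0 : ℤ) ≤ (e (μ.1, (μ.2 : ℤ))).2 := by
    refine ⟨∑ μ ∈ F, ((e (μ.1, (μ.2 : ℤ))).2).natAbs, fun μ hμ => ?_⟩
    have h1 : ((e (μ.1, (μ.2 : ℤ))).2).natAbs ≤ ∑ μ ∈ F, ((e (μ.1, (μ.2 : ℤ))).2).natAbs :=
      Finset.single_le_sum (f := fun μ : L × ℕ => ((e (μ.1, (μ.2 : ℤ))).2).natAbs)
        (fun _ _ => Nat.zero_le _) hμ
    omega
  let S : L →+ ℤ :=
    { toFun := fun β => N0 * ∑ j, b.repr β j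
      map_zero' := by simp
      map_add' := by
        intro x y
        simp only [map_add, Finsupp.add_apply, Finset.sum_add_distrib]
        ring }
  let sh : (L × ℤ) ≃+ (L × ℤ) :=
    { toFun := fun l => (l.1, l.2 + S l.1)
      invFun := fun l => (l.1, l.2 - S l.1)
      left_inv := by
        intro l
        simp
      right_inv := by
        intro l
        simp
      map_add' := by
        intro x y
        ext
        · simp
        · simp only [Prod.fst_add, Prod.snd_add, map_add]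
          ring }
  refine ⟨ω', e.trans sh, m, ⟨h.inj, h.wt, h.m2, ?_⟩, ?_⟩
  · have h1 : (e.trans sh).symm (0, 1) = e.symm (0, 1 - S 0) := rfl
    rw [h1, map_zero, sub_zero, h.em]
  · intro μ hμ
    change 0 ≤ (e (μ.1, (μ.2 : ℤ))).2 + S (e (μ.1, (μ.2 : ℤ))).1
    by_cases hμ0 : μ = 0
    · subst hμ0
      have h0 : e ((0 : L × ℕ).1, (((0 : L × ℕ).2 : ℕ) : ℤ)) = 0 := by
        have h1 : ((0 : L × ℕ).1, (((0 : L × ℕ).2 : ℕ) : ℤ)) = (0 : L × ℤ) := by
          ext <;> simp
        rw [h1, map_zero]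
      rw [h0]
      simp
    · have hD : (e (μ.1, (μ.2 : ℤ))).1 ∈ D := by
        simp only [D, Finset.mem_image, Finset.mem_filter]
        exact ⟨μ, ⟨hμ, hμ0⟩, rfl⟩
      have h1 := hbD _ hD
      have h2 : (e (μ.1, (μ.2 : ℤ))).1 ≠ 0 := by
        intro h3
        have h4 := h.wt (μ.1, (μ.2 : ℤ))
        rw [h3, map_zero] at h4
        rcases hF μ hμ with h5 | h5
        · exact hμ0 h5
        · have h6 : (0 : ℝ) = ω μ.1 + μ.2 * η := by exact_mod_cast h4
          linarith
      have h3 : 1 ≤ ∑ j, b.repr (e (μ.1, (μ.2 : ℤ))).1 j := by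
        by_contra hcon
        have h4 : ∑ j, b.repr (e (μ.1, (μ.2 : ℤ))).1 j = 0 :=
          le_antisymm (by omega) (Finset.sum_nonneg fun j _ => h1 j)
        apply h2
        apply b.repr.injective
        rw [map_zero]
        ext j
        exact (Finset.sum_eq_zero_iff_of_nonneg fun j _ => h1 j).1 h4 j (Finset.mem_univ j)
      have h4 : (N0 : ℤ) ≤ N0 * ∑ j, b.repr (e (μ.1, (μ.2 : ℤ))).1 j :=
        le_mul_of_one_le_right (by positivity) h3
      have h5 := hN0 μ hμ
      change 0 ≤ (e (μ.1, (μ.2 : ℤ))).2 + N0 * ∑ j, b.repr (e (μ.1, (μ.2 : ℤ))).1 j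
      omega

end ystep

end Pool.Agent.H893
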