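import Pool.Agent.H893.P3

/-!
# Linear changes and divisions
-/

set_option autoImplicit false
set_option linter.unusedVariables false
set_option linter.unusedSectionVars false

namespace Pool.Agent.H893

open Polynomial
open scoped NNReal

section lin

variable {k L : Type*} [Field k] [AddCommGroup L]

/-- The monomials as units of the polynomial ring. -/
noncomputable def XX (k L : Type*) [Field k] [AddCommGroup L] :
    Multiplicative L →* ((AddMonoidAlgebra k (L × ℕ))[X])ˣ :=
  (Units.map ((C : AddMonoidAlgebra k (L × ℕ) →+* (AddMonoidAlgebra k (L × ℕ))[X]) :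
    AddMonoidAlgebra k (L × ℕ) →* (AddMonoidAlgebra k (L × ℕ))[X])).comp (XA k L)

/-- The linear form. -/
noncomputable def WW (L : Type*) {k : Type*} [Field k] [AddCommGroup L] (lam : k) :
    (AddMonoidAlgebra k (L × ℕ))[X] :=
  C (AddMonoidAlgebra.single 0 lam) * X + C (Yv k L)

lemma WW_pow_coeff (lam : k) (i n : ℕ) :
    (WW L lam ^ i).coeff n =
      if n ≤ i then AddMonoidAlgebra.single (0, i - n) ((i.choose n : k) * lam ^ n) else 0 := by
  classical
  rw [WW, add_pow, finsetSum_coeff]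
  have h1 : ∀ m ∈ Finset.range (i + 1), ((C (AddMonoidAlgebra.single (0 : L × ℕ) lam) *
      (X : (AddMonoidAlgebra k (L × ℕ))[X])) ^ m * C (Yv k L) ^ (i - m) *
      ((i.choose m : ℕ) : (AddMonoidAlgebra k (L × ℕ))[X])).coeff n =
      if n = m then AddMonoidAlgebra.single ((0 : L), i - n) ((i.choose n : k) * lam ^ n)
        else 0 := by
    intro m _
    have h2 : (C (AddMonoidAlgebra.single (0 : L × ℕ) lam) *
      (X : (AddMonoidAlgebra k (L × ℕ))[X])) ^ m * C (Yv k L) ^ (i - m) *
      ((i.choose m : ℕ) : (AddMonoidAlgebra k (L × ℕ))[X]) =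
      C (AddMonoidAlgebra.single ((0 : L), i - m) ((i.choose m : k) * lam ^ m)) * X ^ m := by
      have h3 : AddMonoidAlgebra.single ((0 : L), i - m) ((i.choose m : k) * lam ^ m) =
          AddMonoidAlgebra.single (0 : L × ℕ) lam ^ m * Yv k L ^ (i - m) *
            ((i.choose m : ℕ) : AddMonoidAlgebra k (L × ℕ)) := by
        have hnat : ((i.choose m : ℕ) : AddMonoidAlgebra k (L × ℕ)) =
            AddMonoidAlgebra.single 0 ((i.choose m : ℕ) : k) :=
          (map_natCast (algebraMap k (AddMonoidAlgebra k (L × ℕ))) _).symm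
        rw [Yv, AddMonoidAlgebra.single_pow, AddMonoidAlgebra.single_pow,
          AddMonoidAlgebra.single_mul_single, hnat, AddMonoidAlgebra.single_mul_single]
        simp [mul_comm]
      rw [h3, mul_pow, map_mul, map_mul, map_pow, map_pow, map_natCast]
      ring
    rw [h2, coeff_C_mul, coeff_X_pow]
    split_ifs with h3
    · subst h3
      rw [mul_one]
    · rw [mul_zero]
  rw [Finset.sum_congr rfl h1, Finset.sum_ite_eq]
  simp only [Finset.mem_range, Nat.lt_succ_iff]

lemma evW_single_coeff (lam : k) (μ : L × ℕ) (c : k) (n : ℕ) :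
    (ev k (XX k L) (WW L lam) (AddMonoidAlgebra.single μ c)).coeff n =
      if n ≤ μ.2 then AddMonoidAlgebra.single (μ.1, μ.2 - n) (c * ((μ.2.choose n : k) * lam ^ n))
        else 0 := by
  have h1 : ev k (XX k L) (WW L lam) (AddMonoidAlgebra.single μ c) =
      C (AddMonoidAlgebra.single (μ.1, 0) c) * WW L lam ^ μ.2 := by
    rw [ev_single, ← mul_assoc]
    congr 1
    have h2 : ((XX k L (.ofAdd μ.1) : ((AddMonoidAlgebra k (L × ℕ))[X])ˣ) :
        (AddMonoidAlgebra k (L × ℕ))[X]) = C (AddMonoidAlgebra.single (μ.1, 0) 1) := rfl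
    have h3 : algebraMap k (AddMonoidAlgebra k (L × ℕ))[X] c =
        C (AddMonoidAlgebra.single 0 c) := rfl
    rw [h2, h3, ← C_mul, AddMonoidAlgebra.single_mul_single]
    simp
  rw [h1, coeff_C_mul, WW_pow_coeff]
  split_ifs with h2
  · rw [AddMonoidAlgebra.single_mul_single]
    simp
  · rw [mul_zero]

lemma evW_ge {ω : L →+ ℝ} (lam : k) {g : AddMonoidAlgebra k (L × ℕ)} {B : ℝ}
    (hg : g ∈ ge (k := k) (wX ω) B) (n : ℕ) :
    (ev k (XX k L) (WW L lam) g).coeff n ∈ ge (k := k) (wX ω) B := by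
  refine ge_induction (p := fun g => (ev k (XX k L) (WW L lam) g).coeff n ∈
    ge (k := k) (wX ω) B) hg ?_ ?_ ?_
  · rw [map_zero, coeff_zero]
    exact Submodule.zero_mem _
  · intro μ c hμ
    rw [evW_single_coeff]
    split_ifs
    · exact single_mem_ge fun _ => hμ
    · exact Submodule.zero_mem _
  · intro a b ha hb
    rw [map_add, coeff_add]
    exact Submodule.add_mem _ ha hb

lemma evW_coeff (lam : k) (g : AddMonoidAlgebra k (L × ℕ)) (n : ℕ) :
    ((ev k (XX k L) (WW L lam) g).coeff n).coeff 0 = g.coeff (0, n) * lam ^ n := by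
  classical
  induction g using AddMonoidAlgebra.induction_linear with
  | zero => simp
  | add f g hf hg =>
    rw [map_add, coeff_add, AddMonoidAlgebra.coeff_add, AddMonoidAlgebra.coeff_add,
      Finsupp.add_apply, Finsupp.add_apply, hf, hg, add_mul]
  | single μ c =>
    rw [evW_single_coeff]
    split_ifs with h1
    · rw [AddMonoidAlgebra.coeff_single, AddMonoidAlgebra.coeff_single, Finsupp.single_apply,
        Finsupp.single_apply]
      by_cases h2 : μ = (0, n)
      · subst h2
        simp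
      · rw [if_neg h2, if_neg, zero_mul]
        intro h3
        apply h2
        have h4 : μ.1 = 0 := congrArg Prod.fst h3
        have h5 : μ.2 - n = 0 := congrArg Prod.snd h3
        exact Prod.ext h4 (by simp only; omega)
    · rw [AddMonoidAlgebra.coeff_single, Finsupp.single_apply, if_neg, zero_mul]
      · rfl
      · rintro rfl
        exact h1 le_rfl

/-- The linear change. -/
noncomputable def Lc (lam : k) (f : (AddMonoidAlgebra k (L × ℕ))[X]) :
    (AddMonoidAlgebra k (L × ℕ))[X] :=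
  ∑ j ∈ Finset.range (f.natDegree + 1), ev k (XX k L) (WW L lam) (f.coeff j) * X ^ j

lemma Lc_ge {ω : L →+ ℝ} (lam : k) {f : (AddMonoidAlgebra k (L × ℕ))[X]}
    (hf : ∀ j, f.coeff j ∈ ge (k := k) (wX ω) 0) (n : ℕ) :
    (Lc lam f).coeff n ∈ ge (k := k) (wX ω) 0 := by
  rw [Lc, finsetSum_coeff]
  refine Submodule.sum_mem _ fun j _ => ?_
  rw [coeff_mul_X_pow']
  split_ifs
  · exact evW_ge lam (hf j) _
  · exact Submodule.zero_mem _

/-- The part of total degree `n`. -/
noncomputable def Hp (f : (AddMonoidAlgebra k (L × ℕ))[X]) (n : ℕ) : k[X] :=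
  ∑ j ∈ Finset.range (n + 1), monomial (n - j) ((f.coeff j).coeff (0, n - j))

lemma Lc_coeff (lam : k) (f : (AddMonoidAlgebra k (L × ℕ))[X]) (n : ℕ) :
    ((Lc lam f).coeff n).coeff 0 = (Hp f n).eval lam := by
  classical
  rw [Lc, finsetSum_coeff, AddMonoidAlgebra.coeff_sum, Finsupp.finsetSum_apply, Hp,
    eval_finsetSum]
  have h1 : ∀ j, ((ev k (XX k L) (WW L lam) (f.coeff j) * X ^ j).coeff n).coeff 0 =
      if j ≤ n then (f.coeff j).coeff (0, n - j) * lam ^ (n - j) else 0 := by
    intro j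
    rw [coeff_mul_X_pow']
    split_ifs with h
    · exact evW_coeff lam _ _
    · rfl
  simp only [h1, eval_monomial]
  rw [← Finset.sum_filter]
  have h2 : Finset.filter (fun j => j ≤ n) (Finset.range (f.natDegree + 1)) ⊆
      Finset.range (n + 1) := by
    intro j hj
    rw [Finset.mem_filter] at hj
    rw [Finset.mem_range]
    omega
  refine Finset.sum_subset h2 fun j hj hj2 => ?_
  rw [Finset.mem_filter, Finset.mem_range, not_and_or] at hj2
  rw [Finset.mem_range] at hj
  rcases hj2 with h3 | h3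
  · rw [coeff_eq_zero_of_natDegree_lt (by omega : f.natDegree < j)]
    simp
  · omega

lemma Hp_coeff (f : (AddMonoidAlgebra k (L × ℕ))[X]) (i j : ℕ) :
    (Hp f (i + j)).coeff i = (f.coeff j).coeff (0, i) := by
  classical
  rw [Hp, finsetSum_coeff, Finset.sum_eq_single_of_mem j (Finset.mem_range.2 (by omega))]
  · rw [coeff_monomial, Nat.add_sub_cancel, if_pos rfl]
  · intro l hl hlj
    rw [Finset.mem_range] at hl
    rw [coeff_monomial, if_neg (by omega)]

lemma EV_Lc {S : Type*} [CommRing S] [Algebra k S] (X : Multiplicative L →* Sˣ) (y z : S)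
    (f : (AddMonoidAlgebra k (L × ℕ))[X]) (lam : k) :
    EV k X (y - algebraMap k S lam * z) z (Lc lam f) = EV k X y z f := by
  set y' := y - algebraMap k S lam * z with hy'
  let φ : (AddMonoidAlgebra k (L × ℕ))[X] →ₐ[k] S :=
    { toRingHom := eval₂RingHom (ev k X y' : AddMonoidAlgebra k (L × ℕ) →+* S) z
      commutes' := by
        intro c
        change eval₂ (ev k X y' : AddMonoidAlgebra k (L × ℕ) →+* S) z
          (C (algebraMap k (AddMonoidAlgebra k (L × ℕ)) c)) = _
        rw [eval₂_C]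
        exact (ev k X y').commutes c }
  have hφ : ∀ g, φ g = EV k X y' z g := fun g => rfl
  have hφC : ∀ g, φ (C g) = ev k X y' g := by
    intro g
    rw [hφ, EV, eval₂_C]
    rfl
  have hφX : φ Polynomial.X = z := by
    rw [hφ, EV, eval₂_X]
  have h1 : (Units.map (φ : (AddMonoidAlgebra k (L × ℕ))[X] →* S)).comp (XX k L) = X := by
    apply MonoidHom.ext
    intro β
    apply Units.ext
    change φ (C (AddMonoidAlgebra.single (β.toAdd, 0) 1)) = _
    rw [hφC, ev_single]
    simp
  have h2 : φ (WW L lam) = y := by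
    rw [WW, map_add, map_mul, hφC, hφC, hφX, Yv, ev_single, ev_single, hy']
    simp
  have h3 : ∀ g, φ (ev k (XX k L) (WW L lam) g) = ev k X y g := by
    intro g
    rw [← ev_map, h1, h2]
  rw [← hφ, Lc, map_sum, EV_eq_sum _ _ _ _ (Nat.lt_succ_self f.natDegree)]
  refine Finset.sum_congr rfl fun j _ => ?_
  rw [map_mul, map_pow, h3, hφX]

end lin

section div

variable {k L : Type*} [Field k] [AddCommGroup L]

/-- The division of the last variable by a monomial. -/
noncomputable def Zd (a e0 : L) (f : (AddMonoidAlgebra k (L × ℕ))[X]) :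
    (AddMonoidAlgebra k (L × ℕ))[X] :=
  ∑ j ∈ Finset.range (f.natDegree + 1),
    monomial j (AddMonoidAlgebra.single (j • a - e0, 0) 1 * f.coeff j)

lemma Zd_coeff (a e0 : L) (f : (AddMonoidAlgebra k (L × ℕ))[X]) (j : ℕ) :
    (Zd a e0 f).coeff j = AddMonoidAlgebra.single (j • a - e0, 0) 1 * f.coeff j := by
  rw [Zd, finsetSum_coeff]
  simp only [coeff_monomial]
  by_cases hj : j ∈ Finset.range (f.natDegree + 1)
  · rw [Finset.sum_eq_single_of_mem j hj fun i _ hi => if_neg hi, if_pos rfl]
  · rw [Finset.sum_eq_zero, coeff_eq_zero_of_natDegree_lt, mul_zero]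
    · rw [Finset.mem_range] at hj
      omega
    · intro i hi
      rw [if_neg]
      rintro rfl
      exact hj hi

lemma Zd_natDegree_le (a e0 : L) (f : (AddMonoidAlgebra k (L × ℕ))[X]) :
    (Zd a e0 f).natDegree ≤ f.natDegree := by
  rw [natDegree_le_iff_coeff_eq_zero]
  intro N hN
  rw [Zd_coeff, coeff_eq_zero_of_natDegree_lt hN, mul_zero]

lemma EV_Zd {S : Type*} [CommRing S] [Algebra k S] (X : Multiplicative L →* Sˣ) (y z : S)
    (f : (AddMonoidAlgebra k (L × ℕ))[X]) (a e0 : L) :
    EV k X y (z * (X (.ofAdd (-a)) : S)) (Zd a e0 f) = (X (.ofAdd (-e0)) : S) * EV k X y z f := by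
  rw [EV_eq_sum _ _ _ _ (Nat.lt_succ_of_le (Zd_natDegree_le a e0 f)),
    EV_eq_sum _ _ _ _ (Nat.lt_succ_self f.natDegree), Finset.mul_sum]
  refine Finset.sum_congr rfl fun j _ => ?_
  rw [Zd_coeff, map_mul, ev_single, map_one, one_mul, pow_zero, mul_one]
  have h1 : (X (.ofAdd (j • a - e0)) : S) * (X (.ofAdd (-a)) : S) ^ j =
      (X (.ofAdd (-e0)) : S) := by
    rw [← Units.val_pow_eq_pow_val, ← map_pow, ← Units.val_mul, ← map_mul, ← ofAdd_nsmul,
      ← ofAdd_add]
    congr 3
    rw [smul_neg]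
    abel
  rw [mul_pow, ← h1]
  ring

variable {ω : L →+ ℝ}

lemma slice_shift (β : L) (B : ℝ) (g : AddMonoidAlgebra k (L × ℕ)) :
    slice ω (ω β + B) (AddMonoidAlgebra.single (β, 0) 1 * g) = slice ω B g := by
  classical
  induction g using AddMonoidAlgebra.induction_linear with
  | zero => simp
  | add f g hf hg => rw [mul_add, map_add, map_add, hf, hg]
  | single μ c =>
    rw [AddMonoidAlgebra.single_mul_single, slice_single, slice_single]
    simp only [Prod.fst_add, Prod.snd_add, map_add, zero_add, one_mul, add_right_inj]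

lemma shift_ge {β : L} {B : ℝ} {g : AddMonoidAlgebra k (L × ℕ)}
    (hg : g ∈ ge (k := k) (wX ω) B) :
    AddMonoidAlgebra.single (β, 0) 1 * g ∈ ge (k := k) (wX ω) (ω β + B) :=
  ge_mul (single_mem_ge fun _ => le_rfl) hg

lemma Zd_ge {a e0 : L} {f : (AddMonoidAlgebra k (L × ℕ))[X]} {B : ℝ} {j : ℕ}
    (hf : f.coeff j ∈ ge (k := k) (wX ω) B) :
    (Zd a e0 f).coeff j ∈ ge (k := k) (wX ω) (j * ω a - ω e0 + B) := by
  rw [Zd_coeff]
  refine ge_mono (le_of_eq ?_) (shift_ge hf)
  rw [map_sub, map_nsmul, nsmul_eq_mul]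

end div

end Pool.Agent.H893
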