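import Pool.Agent.H893.P6

/-!
# The unramified step: the change of monomials
-/

set_option autoImplicit false
set_option linter.unusedVariables false
set_option linter.unusedSectionVars false

namespace Pool.Agent.H893

open Polynomial
open scoped NNReal

section sh

variable {k L : Type*} [Field k] [AddCommGroup L]

/-- The substitution `Y ↦ X ^ γ * Y`. -/
noncomputable def Sh (γ : L) : AddMonoidAlgebra k (L × ℕ) →ₐ[k] AddMonoidAlgebra k (L × ℕ) :=
  ev k (XA k L) (AddMonoidAlgebra.single (γ, 1) 1)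

/-- The change of the exponents. -/
def shM (γ : L) (μ : L × ℕ) : L × ℕ := (μ.1 + μ.2 • γ, μ.2)

lemma shM_inj (γ : L) : Function.Injective (shM γ) := by
  intro a b h
  have h1 : (shM γ a).2 = (shM γ b).2 := congrArg Prod.snd h
  have h2 : (shM γ a).1 = (shM γ b).1 := congrArg Prod.fst h
  change a.2 = b.2 at h1
  change a.1 + a.2 • γ = b.1 + b.2 • γ at h2
  apply Prod.ext
  · rw [h1] at h2
    exact add_right_cancel h2
  · exact h1

lemma Sh_single (γ : L) (μ : L × ℕ) (c : k) :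
    Sh γ (AddMonoidAlgebra.single μ c) = AddMonoidAlgebra.single (shM γ μ) c := by
  rw [Sh, ev_single, XA_apply, AddMonoidAlgebra.single_pow, AddMonoidAlgebra.single_mul_single,
    AddMonoidAlgebra.coe_algebraMap, Function.comp_apply, AddMonoidAlgebra.single_mul_single]
  congr 1
  · apply Prod.ext
    · simp [shM]
    · simp [shM]
  · simp

lemma Sh_coeff (γ : L) (g : AddMonoidAlgebra k (L × ℕ)) (μ : L × ℕ) :
    (Sh γ g).coeff (shM γ μ) = g.coeff μ := by
  classical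
  induction g using AddMonoidAlgebra.induction_linear with
  | zero => simp
  | add f g hf hg =>
    rw [map_add, AddMonoidAlgebra.coeff_add, AddMonoidAlgebra.coeff_add, Finsupp.add_apply,
      Finsupp.add_apply, hf, hg]
  | single ν c =>
    rw [Sh_single, AddMonoidAlgebra.coeff_single, AddMonoidAlgebra.coeff_single,
      Finsupp.single_apply, Finsupp.single_apply]
    by_cases h : ν = μ
    · rw [if_pos h, if_pos (by rw [h])]
    · rw [if_neg h, if_neg fun h2 => h (shM_inj γ h2)]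

lemma shM_surj (γ : L) (ν : L × ℕ) : shM γ (ν.1 - ν.2 • γ, ν.2) = ν := by
  apply Prod.ext
  · simp [shM]
  · rfl

lemma Sh_coeff' (γ : L) (g : AddMonoidAlgebra k (L × ℕ)) (ν : L × ℕ) :
    (Sh γ g).coeff ν = g.coeff (ν.1 - ν.2 • γ, ν.2) := by
  conv_lhs => rw [← shM_surj γ ν]
  rw [Sh_coeff]

lemma Sh_ne (γ : L) {g : AddMonoidAlgebra k (L × ℕ)} {ν : L × ℕ} (h : (Sh γ g).coeff ν ≠ 0) :
    ∃ μ, g.coeff μ ≠ 0 ∧ ν = shM γ μ := by
  rw [Sh_coeff'] at h
  exact ⟨_, h, (shM_surj γ ν).symm⟩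

variable {ω : L →+ ℝ}

lemma shM_wt (γ : L) (μ : L × ℕ) : ω (shM γ μ).1 = wW ω (ω γ) μ := by
  rw [wW_apply, shM, map_add, map_nsmul, nsmul_eq_mul]

lemma Sh_ge {γ : L} {B : ℝ} {g : AddMonoidAlgebra k (L × ℕ)}
    (hg : g ∈ ge (k := k) (wW ω (ω γ)) B) : Sh γ g ∈ ge (k := k) (wX ω) B := by
  intro ν hν
  obtain ⟨μ, hμ, rfl⟩ := Sh_ne γ hν
  rw [wX_apply, shM_wt]
  exact hg μ hμ

lemma Sh_gt {γ : L} {B : ℝ} {g : AddMonoidAlgebra k (L × ℕ)}
    (hg : g ∈ gt (k := k) (wW ω (ω γ)) B) : Sh γ g ∈ gt (k := k) (wX ω) B := by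
  intro ν hν
  obtain ⟨μ, hμ, rfl⟩ := Sh_ne γ hν
  rw [wX_apply, shM_wt]
  exact hg μ hμ

lemma of_Sh_gt {γ : L} {B : ℝ} {g : AddMonoidAlgebra k (L × ℕ)}
    (hg : Sh γ g ∈ gt (k := k) (wX ω) B) : g ∈ gt (k := k) (wW ω (ω γ)) B := by
  intro μ hμ
  have h1 := hg (shM γ μ) (by rw [Sh_coeff]; exact hμ)
  rwa [wX_apply, shM_wt] at h1

variable {S : Type*} [CommRing S] [Algebra k S]

lemma ev_Sh (X : Multiplicative L →* Sˣ) (u : S) (γ : L) (g : AddMonoidAlgebra k (L × ℕ)) :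
    ev k X u (Sh γ g) = ev k X ((X (.ofAdd γ) : S) * u) g := by
  have h : (ev k X u).comp (Sh γ) = ev k X ((X (.ofAdd γ) : S) * u) := by
    apply AddMonoidAlgebra.algHom_ext
    · intro μ
      rw [AlgHom.comp_apply, Sh_single, ev_single, ev_single]
      simp only [shM, ofAdd_add, map_mul, Units.val_mul, ofAdd_nsmul, map_pow,
        Units.val_pow_eq_pow_val, mul_pow, map_one, one_mul]
      ring
    · apply AlgHom.ext
      intro c
      change ev k X u (Sh γ (AddMonoidAlgebra.single 0 c)) =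
        ev k X _ (AddMonoidAlgebra.single 0 c)
      rw [Sh_single, ev_single, ev_single]
      simp [shM]
  rw [← h]
  rfl

/-- The substitution in the coefficients. -/
noncomputable def ShP (γ : L) (f : (AddMonoidAlgebra k (L × ℕ))[X]) :
    (AddMonoidAlgebra k (L × ℕ))[X] :=
  f.map ((Sh γ : AddMonoidAlgebra k (L × ℕ) →ₐ[k] AddMonoidAlgebra k (L × ℕ)) :
    AddMonoidAlgebra k (L × ℕ) →+* AddMonoidAlgebra k (L × ℕ))

lemma ShP_coeff (γ : L) (f : (AddMonoidAlgebra k (L × ℕ))[X]) (j : ℕ) :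
    (ShP γ f).coeff j = Sh γ (f.coeff j) := by
  rw [ShP, coeff_map]
  rfl

lemma ShP_taylor (γ : L) (f : (AddMonoidAlgebra k (L × ℕ))[X]) (Φ : AddMonoidAlgebra k (L × ℕ)) :
    ShP γ (taylor Φ f) = taylor (Sh γ Φ) (ShP γ f) := by
  rw [ShP, ShP, map_taylor]
  rfl

lemma EV_ShP (X : Multiplicative L →* Sˣ) (u z : S) (γ : L)
    (f : (AddMonoidAlgebra k (L × ℕ))[X]) :
    EV k X u z (ShP γ f) = EV k X ((X (.ofAdd γ) : S) * u) z f := by
  rw [EV, ShP, eval₂_map, EV]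
  congr 1
  apply RingHom.ext
  intro g
  exact ev_Sh X u γ g

end sh

end Pool.Agent.H893
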