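import Pool.Agent.H893.KC
import Pool.Agent.H893.ES

/-!
# Stability of the values
-/

set_option autoImplicit false
set_option linter.unusedVariables false
set_option linter.unusedSectionVars false

namespace Pool.Agent.H893

open Polynomial
open scoped NNReal

section kap

variable {E K : Type*} [Field E] [Field K] [Algebra E K] {v : Valuation K ℝ≥0} {a : ℕ → E}
  {y : K} {γ : ℕ → ℝ}

lemma TY2 (hγ : StrictMono γ) (hy : ∀ j, v (y - algebraMap E K (a j)) = ex (γ j)) {g : E[X]}
    (hg : 1 ≤ g.natDegree) (hd : ∀ i, 1 ≤ i → EC v a (hasseDeriv i g)) :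
    ∃ J : ℕ, ∀ j, J ≤ j → ∀ i : ℕ, 1 ≤ i →
      v (algebraMap E K ((hasseDeriv i g).eval (a (j + 1)))) * ex (i * γ j) ≤
        v (aeval y g - algebraMap E K (g.eval (a j))) := by
  classical
  have ha := a_inj hγ hy
  let I := (Finset.Icc 1 g.natDegree).filter fun i => hasseDeriv i g ≠ 0
  have hI : I.Nonempty := by
    refine ⟨g.natDegree, Finset.mem_filter.2 ⟨Finset.mem_Icc.2 ⟨hg, le_rfl⟩, ?_⟩⟩
    intro h
    have h1 := congrArg (fun q => q.coeff 0) h
    simp only [hasseDeriv_coeff, zero_add, Nat.choose_self, Nat.cast_one, one_mul,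
      coeff_zero] at h1
    have h2 : g.leadingCoeff = 0 := h1
    rw [leadingCoeff_eq_zero] at h2
    rw [h2, natDegree_zero] at hg
    omega
  have h1 : ∀ i, ∃ (κ : ℝ) (J : ℕ), i ∈ I → ∀ j, J ≤ j →
      v (algebraMap E K ((hasseDeriv i g).eval (a j))) = ex κ := by
    intro i
    by_cases hi : i ∈ I
    · obtain ⟨h2, h3⟩ := Finset.mem_filter.1 hi
      obtain ⟨κ, J, h4⟩ := (hd i (Finset.mem_Icc.1 h2).1).const ha h3
      exact ⟨κ, J, fun _ => h4⟩
    · exact ⟨0, 0, fun h => absurd h hi⟩
  choose κ J hκ using h1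
  obtain ⟨i0, hi0, J0, hJ0⟩ := exists_dom hγ I hI (fun i => (i : ℝ)) κ (by
    intro i _ i' _ h _
    exact_mod_cast h)
  refine ⟨max J0 (I.sup J), fun j hj i hi1 => ?_⟩
  have hjJ : ∀ i ∈ I, J i ≤ j := fun i hi =>
    (Finset.le_sup (f := J) hi).trans (le_trans (le_max_right _ _) hj)
  have hterm : ∀ i ∈ I, v (algebraMap E K ((hasseDeriv i g).eval (a j)) *
      (y - algebraMap E K (a j)) ^ i) = ex (κ i + i * γ j) := by
    intro i hi
    rw [map_mul, map_pow, hy, hκ i hi j (hjJ i hi), ex_add, ex_nmul]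
  rw [taylor_sum]
  have h2 : ∑ i ∈ Finset.Icc 1 g.natDegree, algebraMap E K ((hasseDeriv i g).eval (a j)) *
      (y - algebraMap E K (a j)) ^ i = ∑ i ∈ I, algebraMap E K ((hasseDeriv i g).eval (a j)) *
      (y - algebraMap E K (a j)) ^ i := by
    symm
    refine Finset.sum_subset (Finset.filter_subset _ _) fun i hi hi2 => ?_
    rw [Finset.mem_filter, not_and, not_not] at hi2
    rw [hi2 hi, eval_zero, map_zero, zero_mul]
  rw [h2, v_sum_dom hi0, hterm i0 hi0]
  · by_cases hi : i ∈ I
    · rw [hκ i hi (j + 1) ((hjJ i hi).trans (Nat.le_succ _)), ← ex_add, ex_le]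
      by_cases hii : i = i0
      · rw [hii]
      · exact (hJ0 j (le_trans (le_max_left _ _) hj) i hi hii).le
    · have h3 : hasseDeriv i g = 0 := by
        by_contra h4
        apply hi
        refine Finset.mem_filter.2 ⟨Finset.mem_Icc.2 ⟨hi1, ?_⟩, h4⟩
        by_contra h5
        push Not at h5
        exact h4 (hasseDeriv_eq_zero_of_lt_natDegree g i h5)
      rw [h3, eval_zero, map_zero, map_zero, zero_mul]
      exact zero_le
  · intro i hi hne
    rw [hterm i hi, hterm i0 hi0, ex_lt]
    exact hJ0 j (le_trans (le_max_left _ _) hj) i hi hne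
  · rw [hterm i0 hi0]
    exact ex_ne _

/-- The stability. -/
theorem stab (hγ : StrictMono γ) (hy : ∀ j, v (y - algebraMap E K (a j)) = ex (γ j))
    (hall : ∀ g : E[X], EC v a g) {g : E[X]} (hg : g ≠ 0) :
    ∃ J : ℕ, ∀ j, J ≤ j → g.eval (a (j + 1)) ≠ 0 ∧ ∀ i : ℕ,
      v (algebraMap E K ((hasseDeriv i g).eval (a (j + 1)))) * ex (i * γ j) ≤
        v (algebraMap E K (g.eval (a (j + 1)))) := by
  have ha := a_inj hγ hy
  obtain ⟨J1, hJ1⟩ := ev_ne ha hg
  have h0 : ∀ j, v (algebraMap E K ((hasseDeriv 0 g).eval (a (j + 1)))) * ex ((0 : ℕ) * γ j) ≤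
      v (algebraMap E K (g.eval (a (j + 1)))) := by
    intro j
    rw [hasseDeriv_zero', Nat.cast_zero, zero_mul, ex_zero, mul_one]
  by_cases hn : g.natDegree = 0
  · refine ⟨J1, fun j hj => ⟨hJ1 _ (hj.trans (Nat.le_succ _)), fun i => ?_⟩⟩
    rcases Nat.eq_zero_or_pos i with rfl | hi
    · exact h0 j
    · rw [hasseDeriv_eq_zero_of_lt_natDegree g i (by omega), eval_zero, map_zero, map_zero,
        zero_mul]
      exact zero_le
  · obtain ⟨s, κ, J, hs, hJ⟩ := TY hγ hy (g := g) (by omega) (fun i _ => hall _)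
    obtain ⟨J2, hJ2⟩ := TY2 hγ hy (g := g) (by omega) (fun i _ => hall _)
    rcases DI hγ hs hJ with ⟨J', hJ', h0'⟩ | hB
    · refine ⟨max J1 (max J' J2), fun j hj => ⟨hJ1 _ (((le_max_left _ _).trans hj).trans
        (Nat.le_succ _)), fun i => ?_⟩⟩
      have hjJ' : J' ≤ j := ((le_max_left _ _).trans (le_max_right _ _)).trans hj
      have hjJ2 : J2 ≤ j := ((le_max_right _ _).trans (le_max_right _ _)).trans hj
      rcases Nat.eq_zero_or_pos i with rfl | hi
      · exact h0 j
      · refine (hJ2 j hjJ2 i hi).trans ((v.map_sub _ _).trans ?_)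
        rw [hJ' j hjJ', hJ' (j + 1) (hjJ'.trans (Nat.le_succ _)), max_self]
    · exfalso
      have hs0 : (0 : ℝ) < s := by exact_mod_cast hs
      exact not_EC_of_lines hγ hs0 (fun j hj => (hB j hj).1) (hall g)

end kap

section main

variable {k K L : Type*} [Field k] [Field K] [Algebra k K] [AddCommGroup L]
  [Module.Free ℤ L] [Module.Finite ℤ L] {v : Valuation K ℝ≥0}

/-- The values of all polynomials are eventually constant. -/
theorem EC_all (p : ℕ) [Fact p.Prime] [CharP k p]
    (hk : ∀ c : k, c ≠ 0 → v (algebraMap k K c) = 1) {ω : L →+ ℝ}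
    {X : Multiplicative L →* Kˣ} {y : K} (hω : Function.Injective ω)
    (hX : ∀ β, v (X (.ofAdd β) : K) = ex (ω β)) (al : Function.Injective (ev k X y))
    {φs : ℕ → AddMonoidAlgebra k L} {β : ℕ → L} {ct : ℕ → k}
    (hφsum : ∀ n, φs n = ∑ l ∈ Finset.range n, AddMonoidAlgebra.single (β l) (ct l))
    (hβv : ∀ n, v (y - evL k X (φs n)) = ex (ω (β n))) (hγ : StrictMono fun n => ω (β n))
    (g : (E0 k X)[X]) :
    EC v (fun n => (⟨evL k X (φs n), evL_mem_E0 X _⟩ : E0 k X)) g := by
  classical
  have hp : p.Prime := Fact.out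
  have : CharP K p := charP_of_injective_algebraMap (algebraMap k K).injective p
  have hinjL : Function.Injective (evL k X) := by
    intro a b h
    have h1 : ev k X y (inc k L a) = ev k X y (inc k L b) := by rw [ev_inc, ev_inc, h]
    have h2 := al h1
    ext β
    have h3 := congrArg (fun g => AddMonoidAlgebra.coeff g (β, 0)) h2
    simpa [inc_coeff] using h3
  let a : ℕ → E0 k X := fun n => ⟨evL k X (φs n), evL_mem_E0 X _⟩
  have hya : ∀ j, v (y - algebraMap (E0 k X) K (a j)) = ex (ω (β j)) := fun j => hβv j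
  -- additive polynomials
  have hadd : ∀ P : (E0 k X)[X], P ≠ 0 → ∃ A : (E0 k X)[X], A ≠ 0 ∧ P ∣ A ∧ EC v a A := by
    intro P hP
    obtain ⟨c, ⟨i1, hi1, hci1⟩, hdvd⟩ := exists_additive p P hP
    set n := P.natDegree + 1 with hn
    obtain ⟨b, A, hb, hA⟩ := exists_common hinjL n c
    let bE : E0 k X := ⟨evL k X b, evL_mem_E0 X _⟩
    let AE : ℕ → E0 k X := fun i => ⟨evL k X (A i), evL_mem_E0 X _⟩
    have hAE : ∀ i < n, AE i = bE * c i := fun i hi => Subtype.ext (hA i hi)
    have hbE : bE ≠ 0 := fun h => hb (congrArg Subtype.val h)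
    let G : (E0 k X)[X] := ∑ i ∈ Finset.range n, C (AE i) * Polynomial.X ^ p ^ i
    have hG : G = C bE * ∑ i ∈ Finset.range n, C (c i) * Polynomial.X ^ p ^ i := by
      rw [Finset.mul_sum]
      refine Finset.sum_congr rfl fun i hi => ?_
      rw [hAE i (Finset.mem_range.1 hi), C_mul]
      ring
    have hpinj : Function.Injective fun i : ℕ => p ^ i := Nat.pow_right_injective hp.two_le
    have hGc : ∀ i < n, G.coeff (p ^ i) = AE i := by
      intro i hi
      change (∑ i ∈ Finset.range n, C (AE i) * Polynomial.X ^ p ^ i).coeff (p ^ i) = _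
      rw [finsetSum_coeff, Finset.sum_eq_single_of_mem i (Finset.mem_range.2 hi)]
      · rw [coeff_C_mul, coeff_X_pow_self, mul_one]
      · intro j _ hj
        rw [coeff_C_mul, coeff_X_pow, if_neg, mul_zero]
        intro h
        exact hj (hpinj h.symm)
    have hG0 : G ≠ 0 := by
      intro h
      have h3 := hGc i1 hi1
      rw [h, coeff_zero, hAE i1 hi1] at h3
      exact mul_ne_zero hbE hci1 h3.symm
    have hAi1 : A i1 ≠ 0 := by
      intro h
      have h3 := hA i1 hi1
      rw [h, map_zero] at h3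
      have h4 : (c i1 : K) ≠ 0 := fun h5 => hci1 (Subtype.ext h5)
      exact mul_ne_zero hb h4 h3.symm
    refine ⟨G, hG0, hG ▸ hdvd.mul_left _, ?_⟩
    -- the values
    have hGeval : ∀ x : K, aeval x G = ∑ i ∈ Finset.range n, evL k X (A i) * x ^ p ^ i := by
      intro x
      change aeval x (∑ i ∈ Finset.range n, C (AE i) * Polynomial.X ^ p ^ i) = _
      rw [map_sum]
      refine Finset.sum_congr rfl fun i _ => ?_
      rw [map_mul, map_pow, aeval_X, aeval_C]
      rfl
    have hGev : ∀ j, algebraMap (E0 k X) K (G.eval (a j)) = evL k X (Ad p A n (φs j)) := by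
      intro j
      rw [Ad_apply, map_sum]
      change algebraMap (E0 k X) K ((∑ i ∈ Finset.range n, C (AE i) *
        Polynomial.X ^ p ^ i).eval (a j)) = _
      rw [eval_finsetSum, map_sum]
      refine Finset.sum_congr rfl fun i _ => ?_
      rw [eval_mul, eval_pow, eval_X, eval_C, map_mul, map_mul, map_pow, map_pow]
      rfl
    have hTne : (TT A n).Nonempty := by
      obtain ⟨γ, hγ'⟩ : ∃ γ, (A i1).coeff γ ≠ 0 := by
        by_contra hcon2
        push Not at hcon2
        apply hAi1
        ext γ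
        rw [hcon2 γ]
        rfl
      exact ⟨(i1, γ), mem_TT.2 ⟨hi1, hγ'⟩⟩
    obtain ⟨t0, ht0, J0, hJ0⟩ := exists_dom hγ (TT A n) hTne (fun t => (p : ℝ) ^ t.1)
      (fun t => ω t.2) (by
        intro t _ t' _ h3 h4
        apply Prod.ext
        · have h5 : p ^ t.1 = p ^ t'.1 := by exact_mod_cast h3
          exact hpinj h5
        · exact hω h4)
    have hD : ∀ j, J0 ≤ j → v (aeval y G - algebraMap (E0 k X) K (G.eval (a j))) =
        ex (ω t0.2 + (p ^ t0.1 : ℕ) * ω (β j)) := by
      intro j hj
      have h3 : aeval y G - algebraMap (E0 k X) K (G.eval (a j)) =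
          ∑ t ∈ TT A n, algebraMap k K ((A t.1).coeff t.2) * (X (.ofAdd t.2) : K) *
            (y - evL k X (φs j)) ^ p ^ t.1 := by
        have h4 : ∀ i, evL k X (A i) = ∑ γ ∈ (A i).coeff.support,
            algebraMap k K ((A i).coeff γ) * (X (.ofAdd γ) : K) := by
          intro i
          conv_lhs => rw [sum_single (A i)]
          rw [map_sum]
          exact Finset.sum_congr rfl fun γ _ => evL_single _ _ _
        have h5 : aeval y G - algebraMap (E0 k X) K (G.eval (a j)) =
            ∑ i ∈ Finset.range n, evL k X (A i) * (y - evL k X (φs j)) ^ p ^ i := by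
          rw [hGeval, hGev, Ad_apply, map_sum (evL k X), ← Finset.sum_sub_distrib]
          refine Finset.sum_congr rfl fun i _ => ?_
          rw [sub_pow_char_pow, map_mul, map_pow, mul_sub]
        rw [h5, TT, Finset.sum_biUnion]
        · refine Finset.sum_congr rfl fun i _ => ?_
          rw [Finset.sum_image (by
            intro γ _ γ' _ h6
            exact congrArg Prod.snd h6), h4, Finset.sum_mul]
        · intro i _ i' _ hii
          rw [Function.onFun, Finset.disjoint_left]
          intro t ht ht'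
          obtain ⟨γ, -, rfl⟩ := Finset.mem_image.1 ht
          obtain ⟨γ', -, h6⟩ := Finset.mem_image.1 ht'
          exact hii (congrArg Prod.fst h6).symm
      have hterm : ∀ t ∈ TT A n, v (algebraMap k K ((A t.1).coeff t.2) *
          (X (.ofAdd t.2) : K) * (y - evL k X (φs j)) ^ p ^ t.1) =
          ex (ω t.2 + (p : ℝ) ^ t.1 * ω (β j)) := by
        intro t ht
        rw [map_mul, map_mul, map_pow, hk _ (mem_TT.1 ht).2, one_mul, hX, hβv, ex_add]
        congr 1
        rw [← ex_nmul]
        push_cast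
        rfl
      rw [h3, v_sum_dom ht0, hterm t0 ht0]
      · push_cast
        rfl
      · intro t ht hne
        rw [hterm t ht, hterm t0 ht0, ex_lt]
        exact hJ0 j hj t ht hne
      · rw [hterm t0 ht0]
        exact ex_ne _
    rcases DI hγ (Nat.one_le_iff_ne_zero.2 (pow_ne_zero t0.1 hp.ne_zero)) hD with
      ⟨J', hJ', -⟩ | hB
    · exact ⟨J', fun j hj => by rw [hJ' j hj, hJ' J' le_rfl]⟩
    exfalso
    by_cases hbd : ∃ Cb : ℝ, ∀ j, ω (β j) ≤ Cb
    · obtain ⟨Cb, hCb⟩ := hbd
      refine comb hω p hp.two_le (TT A n) hγ hCb (n0 := t0.1) (γ0 := t0.2) (J0 := J0) ?_ ?_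
      · intro j hj t ht
        by_cases htt : t = t0
        · rw [htt]
        · exact (hJ0 j hj t ht htt).le
      · intro j hj
        have h3 := (hB j hj).1
        rw [hGev] at h3
        have h4 : Ad p A n (φs j) ≠ 0 := by
          intro h5
          rw [h5, map_zero, map_zero] at h3
          exact ex_ne _ h3.symm
        obtain ⟨e, he1, -, he2⟩ := v_evL hk hω hX h4
        rw [h3, ex_inj] at he2
        have h5 : e = t0.2 + (p ^ t0.1) • β j := by
          apply hω
          rw [← he2, map_add, map_nsmul, nsmul_eq_mul]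
        rw [hφsum, map_sum, AddMonoidAlgebra.coeff_sum, Finsupp.finsetSum_apply] at he1
        obtain ⟨l, hl, h6⟩ := Finset.exists_ne_zero_of_sum_ne_zero he1
        obtain ⟨t, ht, h7⟩ := Ad_single p A n h6
        exact ⟨l, Finset.mem_range.1 hl, t, ht, by rw [← h7, h5]⟩
    · push Not at hbd
      -- the unbounded case
      have hy0 : aeval y G = 0 := by
        by_contra h3
        obtain ⟨κ, hκ⟩ := exists_ex (x := v (aeval y G)) ((Valuation.ne_zero_iff _).2 h3)
        have hpp : (0 : ℝ) < (p ^ t0.1 : ℕ) := by exact_mod_cast pow_pos hp.pos _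
        obtain ⟨j0, hj0⟩ := hbd ((κ - ω t0.2) / (p ^ t0.1 : ℕ))
        have h4 := (hB (max J0 j0) (le_max_left _ _)).2
        rw [hκ, ex_le] at h4
        have h5 : ω (β j0) ≤ ω (β (max J0 j0)) := hγ.monotone (le_max_right _ _)
        rw [div_lt_iff₀ hpp] at hj0
        nlinarith
      rw [hGeval] at hy0
      have h3 : ev k X y (∑ i ∈ Finset.range n, inc k L (A i) * Yv k L ^ p ^ i) = 0 := by
        rw [map_sum, ← hy0]
        refine Finset.sum_congr rfl fun i _ => ?_
        rw [map_mul, map_pow, ev_inc, Yv, ev_single]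
        simp
      have h4 := al (h3.trans (map_zero (ev k X y)).symm)
      obtain ⟨γ, hγ'⟩ : ∃ γ, (A i1).coeff γ ≠ 0 := by
        by_contra hcon2
        push Not at hcon2
        apply hAi1
        ext γ
        rw [hcon2 γ]
        rfl
      have h5 := congrArg (fun g => AddMonoidAlgebra.coeff g (γ, p ^ i1)) h4
      simp only [AddMonoidAlgebra.coeff_sum, Finsupp.finsetSum_apply] at h5
      have hshift : ∀ (g : AddMonoidAlgebra k L) (m : ℕ) (γ : L) (m' : ℕ),
          (inc k L g * Yv k L ^ m).coeff (γ, m') = if m' = m then g.coeff γ else 0 := by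
        intro g m γ m'
        induction g using AddMonoidAlgebra.induction_linear with
        | zero => simp
        | add f g hf hg =>
          rw [map_add, add_mul, AddMonoidAlgebra.coeff_add, AddMonoidAlgebra.coeff_add,
            Finsupp.add_apply, Finsupp.add_apply, hf, hg]
          split_ifs <;> simp
        | single b' c' =>
          rw [inc_single, Yv, AddMonoidAlgebra.single_pow, AddMonoidAlgebra.single_mul_single,
            AddMonoidAlgebra.coeff_single, AddMonoidAlgebra.coeff_single, Finsupp.single_apply,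
            Finsupp.single_apply]
          simp only [Prod.smul_mk, smul_zero, smul_eq_mul, mul_one, Prod.mk_add_mk, add_zero,
            zero_add, one_pow, Prod.mk.injEq]
          by_cases h6 : b' = γ
          · by_cases h7 : m' = m
            · rw [if_pos ⟨h6, h7.symm⟩, if_pos h7, if_pos h6]
            · rw [if_neg, if_neg h7]
              rintro ⟨-, h8⟩
              exact h7 h8.symm
          · rw [if_neg, if_neg h6, ite_self]
            rintro ⟨h8, -⟩
            exact h6 h8
      simp only [hshift] at h5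
      rw [Finset.sum_eq_single_of_mem i1 (Finset.mem_range.2 hi1)] at h5
      · rw [if_pos rfl] at h5
        exact hγ' h5
      · intro i _ hii
        rw [if_neg]
        intro h6
        exact hii (hpinj h6.symm)
  exact all_EC hγ hya hadd g

end main

end Pool.Agent.H893
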