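import Pool.Agent.H893.N10

/-!
# Unramified steps for points
-/

set_option autoImplicit false
set_option linter.unusedVariables false
set_option linter.unusedSectionVars false

namespace Pool.Agent.H893

open Polynomial
open scoped NNReal

section yc

variable {k L : Type*} [Field k] [AddCommGroup L]

/-- The coefficient of `Y ^ m`. -/
noncomputable def yc (m : ℕ) : AddMonoidAlgebra k (L × ℕ) →+ AddMonoidAlgebra k L where
  toFun g := g.coeff.sum fun μ c => if μ.2 = m then AddMonoidAlgebra.single μ.1 c else 0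
  map_zero' := by simp
  map_add' := by
    classical
    intro g h
    rw [AddMonoidAlgebra.coeff_add]
    apply Finsupp.sum_add_index
    · intro μ _
      split_ifs <;> simp
    · intro μ _ b c
      split_ifs <;> simp

lemma yc_single (m : ℕ) (μ : L × ℕ) (c : k) :
    yc m (AddMonoidAlgebra.single μ c) =
      if μ.2 = m then AddMonoidAlgebra.single μ.1 c else 0 := by
  change (AddMonoidAlgebra.single μ c).coeff.sum
    (fun μ c => if μ.2 = m then AddMonoidAlgebra.single μ.1 c else 0) = _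
  rw [AddMonoidAlgebra.coeff_single, Finsupp.sum_single_index]
  split_ifs <;> simp

lemma yc_coeff (m : ℕ) (g : AddMonoidAlgebra k (L × ℕ)) (β : L) :
    (yc m g).coeff β = g.coeff (β, m) := by
  classical
  induction g using AddMonoidAlgebra.induction_linear with
  | zero => simp
  | add f g hf hg =>
    rw [map_add, AddMonoidAlgebra.coeff_add, AddMonoidAlgebra.coeff_add, Finsupp.add_apply,
      Finsupp.add_apply, hf, hg]
  | single μ c =>
    rw [yc_single, AddMonoidAlgebra.coeff_single, Finsupp.single_apply]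
    by_cases h : μ.2 = m
    · rw [if_pos h, AddMonoidAlgebra.coeff_single, Finsupp.single_apply]
      by_cases h1 : μ.1 = β
      · rw [if_pos h1, if_pos (Prod.ext h1 h)]
      · rw [if_neg h1, if_neg fun h2 => h1 (congrArg Prod.fst h2)]
    · rw [if_neg h, if_neg fun h2 => h (congrArg Prod.snd h2)]
      rfl

/-- The substitution `Y ↦ φ + X ^ Γ * Y`. -/
noncomputable def Sb (φ : AddMonoidAlgebra k L) (Γ : L) :
    AddMonoidAlgebra k (L × ℕ) →ₐ[k] AddMonoidAlgebra k (L × ℕ) :=
  ev k (XA k L) (inc k L φ + AddMonoidAlgebra.single (Γ, 1) 1)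

lemma ev_Sb {S : Type*} [CommRing S] [Algebra k S] (X : Multiplicative L →* Sˣ) (u : S)
    (φ : AddMonoidAlgebra k L) (Γ : L) (g : AddMonoidAlgebra k (L × ℕ)) :
    ev k X u (Sb φ Γ g) = ev k X (evL k X φ + (X (.ofAdd Γ) : S) * u) g := by
  have h := ev_map (ev k X u) (XA k L) (inc k L φ + AddMonoidAlgebra.single (Γ, 1) 1) g
  have h1 : (Units.map ((ev k X u : AddMonoidAlgebra k (L × ℕ) →ₐ[k] S) :
      AddMonoidAlgebra k (L × ℕ) →* S)).comp (XA k L) = X := by
    apply MonoidHom.ext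
    intro β
    apply Units.ext
    change ev k X u (AddMonoidAlgebra.single (β.toAdd, 0) 1) = _
    rw [ev_single]
    simp
  rw [h1, map_add, ev_inc, ev_single, map_one, one_mul, pow_one] at h
  exact h.symm

end yc

section pol

variable {k K L : Type*} [Field k] [Field K] [Algebra k K] [AddCommGroup L]

/-- The coordinates in the field of fractions. -/
noncomputable def X0E (k : Type*) {K L : Type*} [Field k] [Field K] [Algebra k K]
    [AddCommGroup L] (X : Multiplicative L →* Kˣ) : Multiplicative L →* (E0 k X)ˣ :=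
  MonoidHom.toHomUnits
    { toFun := fun β => ⟨X β, IntermediateField.subset_adjoin _ _ ⟨β, rfl⟩⟩
      map_one' := Subtype.ext (congrArg Units.val (map_one X))
      map_mul' := fun a b => Subtype.ext (congrArg Units.val (map_mul X a b)) }

lemma X0E_map (X : Multiplicative L →* Kˣ) :
    (Units.map ((E0 k X).val : E0 k X →* K)).comp (X0E k X) = X := by
  ext β
  rfl

lemma evL_X0E (X : Multiplicative L →* Kˣ) (g : AddMonoidAlgebra k L) :
    ((evL k (X0E k X) g : E0 k X) : K) = evL k X g := by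
  have h := evL_map (E0 k X).val (X0E k X) g
  rw [X0E_map] at h
  exact h.symm

/-- The constant coordinates. -/
noncomputable def XP (k : Type*) {K L : Type*} [Field k] [Field K] [Algebra k K]
    [AddCommGroup L] (X : Multiplicative L →* Kˣ) : Multiplicative L →* ((E0 k X)[X])ˣ :=
  (Units.map ((CAlgHom : E0 k X →ₐ[k] (E0 k X)[X]) : E0 k X →* (E0 k X)[X])).comp (X0E k X)

/-- The polynomial over the field of fractions. -/
noncomputable def PolE (X : Multiplicative L →* Kˣ) :
    AddMonoidAlgebra k (L × ℕ) →ₐ[k] (E0 k X)[X] :=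
  ev k (XP k X) Polynomial.X

lemma PolE_coeff (X : Multiplicative L →* Kˣ) (g : AddMonoidAlgebra k (L × ℕ)) (m : ℕ) :
    (PolE X g).coeff m = evL k (X0E k X) (yc m g) := by
  classical
  induction g using AddMonoidAlgebra.induction_linear with
  | zero => simp
  | add f g hf hg => rw [map_add, coeff_add, hf, hg, map_add, map_add]
  | single μ c =>
    rw [PolE, ev_single, yc_single]
    have h1 : ((XP k X (.ofAdd μ.1) : ((E0 k X)[X])ˣ) : (E0 k X)[X]) =
        C ((X0E k X (.ofAdd μ.1) : (E0 k X)ˣ) : E0 k X) := rfl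
    have h2 : algebraMap k (E0 k X)[X] c = C (algebraMap k (E0 k X) c) := rfl
    rw [h1, h2, coeff_C_mul, coeff_C_mul, coeff_X_pow]
    by_cases h : μ.2 = m
    · rw [if_pos h, if_pos h.symm, evL_single, mul_one]
    · rw [if_neg h, if_neg (Ne.symm h), mul_zero, mul_zero, map_zero]

lemma PolE_Sb (X : Multiplicative L →* Kˣ) (φ : AddMonoidAlgebra k L) (Γ : L)
    (g : AddMonoidAlgebra k (L × ℕ)) (m : ℕ) :
    (PolE X (Sb φ Γ g)).coeff m = (hasseDeriv m (PolE X g)).eval (evL k (X0E k X) φ) *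
      ((X0E k X (.ofAdd Γ) : (E0 k X)ˣ) : E0 k X) ^ m := by
  set a := evL k (X0E k X) φ with ha
  set b := ((X0E k X (.ofAdd Γ) : (E0 k X)ˣ) : E0 k X) with hb
  have h1 : PolE X (Sb φ Γ g) = (PolE X g).comp (C a + C b * Polynomial.X) := by
    rw [PolE, ev_Sb]
    have h2 : evL k (XP k X) φ = C a :=
      evL_map (CAlgHom : E0 k X →ₐ[k] (E0 k X)[X]) (X0E k X) φ
    have h3 : ((XP k X (.ofAdd Γ) : ((E0 k X)[X])ˣ) : (E0 k X)[X]) = C b := rfl
    rw [h2, h3]
    let Θ : (E0 k X)[X] →ₐ[k] (E0 k X)[X] :=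
      (aeval (C a + C b * Polynomial.X) : (E0 k X)[X] →ₐ[E0 k X] (E0 k X)[X]).restrictScalars k
    have h4 := ev_map Θ (XP k X) Polynomial.X g
    have h5 : (Units.map ((Θ : (E0 k X)[X] →ₐ[k] (E0 k X)[X]) :
        (E0 k X)[X] →* (E0 k X)[X])).comp (XP k X) = XP k X := by
      apply MonoidHom.ext
      intro β
      apply Units.ext
      change aeval (C a + C b * Polynomial.X) (C ((X0E k X β : (E0 k X)ˣ) : E0 k X)) = _
      rw [aeval_C]
      rfl
    have h6 : Θ Polynomial.X = C a + C b * Polynomial.X := aeval_X _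
    rw [h5, h6] at h4
    rw [h4]
    change aeval (C a + C b * Polynomial.X) _ = _
    rw [comp_eq_aeval]
  have h2 : (PolE X g).comp (C a + C b * Polynomial.X) =
      (taylor a (PolE X g)).comp (C b * Polynomial.X) := by
    rw [taylor_apply, comp_assoc, add_comp, X_comp, C_comp, add_comm]
  rw [h1, h2, comp_C_mul_X_coeff, taylor_coeff]

variable {v : Valuation K ℝ≥0}

lemma PolE_ne (hk : ∀ c : k, c ≠ 0 → v (algebraMap k K c) = 1) {ω : L →+ ℝ}
    (hω : Function.Injective ω) {X : Multiplicative L →* Kˣ}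
    (hX : ∀ β, v (X (.ofAdd β) : K) = ex (ω β)) {g : AddMonoidAlgebra k (L × ℕ)} (hg : g ≠ 0) :
    PolE X g ≠ 0 := by
  intro h
  apply hg
  ext μ
  by_contra hμ
  have h1 : yc μ.2 g ≠ 0 := by
    intro h2
    apply hμ
    have h3 := yc_coeff μ.2 g μ.1
    rw [h2] at h3
    exact h3.symm
  obtain ⟨β, -, -, h2⟩ := v_evL hk hω hX h1
  have h3 := congrArg (fun q => ((coeff q μ.2 : E0 k X) : K)) h
  simp only [PolE_coeff, evL_X0E, coeff_zero] at h3
  rw [h3] at h2
  change v 0 = _ at h2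
  rw [map_zero] at h2
  exact ex_ne _ h2.symm

lemma ordle_of_vals (hk : ∀ c : k, c ≠ 0 → v (algebraMap k K c) = 1) {ω : L →+ ℝ}
    (hω : Function.Injective ω) {X : Multiplicative L →* Kˣ}
    (hX : ∀ β, v (X (.ofAdd β) : K) = ex (ω β)) {g : AddMonoidAlgebra k (L × ℕ)}
    (h0 : (PolE X g).coeff 0 ≠ 0)
    (h : ∀ m, v (((PolE X g).coeff m : E0 k X) : K) ≤ v (((PolE X g).coeff 0 : E0 k X) : K)) :
    Ordle ω 0 g := by
  have hy0 : yc 0 g ≠ 0 := by
    intro h1
    apply h0
    rw [PolE_coeff, h1, map_zero]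
  obtain ⟨β, hβ, hβmin, hβv⟩ := v_evL hk hω hX hy0
  refine ⟨β, 0, le_rfl, ?_, by rwa [yc_coeff] at hβ⟩
  intro μ hμ
  rw [wX_apply]
  have hym : yc μ.2 g ≠ 0 := by
    intro h2
    apply hμ
    have h3 := yc_coeff μ.2 g μ.1
    rw [h2] at h3
    exact h3.symm
  obtain ⟨e, he, hemin, hev⟩ := v_evL hk hω hX hym
  have h1 := h μ.2
  rw [PolE_coeff, PolE_coeff, evL_X0E, evL_X0E, hβv, hev, ex_le] at h1
  exact h1.trans (hemin μ.1 (by rw [yc_coeff]; exact hμ))

end pol

section stage

variable {k K L : Type*} [Field k] [Field K] [Algebra k K] [AddCommGroup L]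
  [Module.Free ℤ L] [Module.Finite ℤ L] {v : Valuation K ℝ≥0} {ω : L →+ ℝ}
  {X : Multiplicative L →* Kˣ} {y : K}

/-- The unramified step for points. -/
theorem ES.ustep (hk : ∀ c : k, c ≠ 0 → v (algebraMap k K c) = 1)
    (hres : ∀ x : K, v x ≤ 1 → ∃ c : k, v (x - algebraMap k K c) < 1)
    (hG : ∀ x : K, x ≠ 0 → ∃ a, v x = ex (ω a))
    (htr : Algebra.trdeg k K = ((Module.finrank ℤ L + 1 : ℕ) : Cardinal))
    (S : ES k v ω X y) : ∃ (y' : K) (γ : L) (c : k), ES k v ω X y' ∧ 0 < ω γ ∧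
      v y = ex (ω γ) ∧ y = (X (.ofAdd γ) : K) * (y' + algebraMap k K c) := by
  have hy0 : y ≠ 0 := by
    intro h
    have h1 : ev k X y (Yv k L) = ev k X y 0 := by
      rw [map_zero, Yv, ev_single, h]
      simp
    have h2 := S.al h1
    rw [Yv] at h2
    have h3 : (AddMonoidAlgebra.single ((0 : L), 1) (1 : k)).coeff (0, 1) = 0 := by
      rw [h2]
      rfl
    rw [AddMonoidAlgebra.coeff_single, Finsupp.single_eq_same] at h3
    exact one_ne_zero h3
  obtain ⟨γ, hγ⟩ := hG y hy0
  have hγ0 : 0 < ω γ := by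
    have h1 := S.hy
    rw [hγ] at h1
    exact ex_lt_one.1 h1
  have hXX : (X (.ofAdd γ) : K) * (X (.ofAdd (-γ)) : K) = 1 := by
    rw [← Units.val_mul, ← map_mul, ← ofAdd_add, add_neg_cancel, ofAdd_zero, map_one,
      Units.val_one]
  set u : K := (X (.ofAdd (-γ)) : K) * y with hu
  have hyu : y = (X (.ofAdd γ) : K) * u := by
    rw [hu, ← mul_assoc, hXX, one_mul]
  have huv : v u = 1 := by
    rw [hu, map_mul, S.hX, hγ, ← ex_add, map_neg, neg_add_cancel, ex_zero]
  obtain ⟨c, hc⟩ := hres u huv.le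
  have hy' : y = (X (.ofAdd γ) : K) * ((u - algebraMap k K c) + algebraMap k K c) := by
    rw [sub_add_cancel]
    exact hyu
  refine ⟨u - algebraMap k K c, γ, c, ⟨S.inj, S.hX, hc, ?_, S.rr⟩, hγ0, hγ, hy'⟩
  refine inj_mono htr (FE_le (fun β => X_mem_FE _ _ _) ?_) S.al
  have h1 : (X (.ofAdd γ) : K) * ((u - algebraMap k K c) + algebraMap k K c) ∈
      FE k X (u - algebraMap k K c) :=
    mul_mem (X_mem_FE _ _ _) (add_mem (y_mem_FE _ _) ((FE k X _).algebraMap_mem c))
  rw [← hy'] at h1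
  exact h1

/-- After finitely many steps the elements have the order zero. -/
theorem es_stage (p : ℕ) [Fact p.Prime] [CharP k p]
    (hk : ∀ c : k, c ≠ 0 → v (algebraMap k K c) = 1)
    (hres : ∀ x : K, v x ≤ 1 → ∃ c : k, v (x - algebraMap k K c) < 1)
    (hG : ∀ x : K, x ≠ 0 → ∃ a, v x = ex (ω a))
    (htr : Algebra.trdeg k K = ((Module.finrank ℤ L + 1 : ℕ) : Cardinal))
    (S : ES k v ω X y) (T : Finset K)
    (hT : ∀ t ∈ T, ∃ g : AddMonoidAlgebra k (L × ℕ), g ≠ 0 ∧ t = ev k X y g) :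
    ∃ y' : K, ES k v ω X y' ∧ FE k X y ≤ FE k X y' ∧ (∀ t ∈ T, GM k ω X y' 0 t) ∧
      ∀ B : Subring K, (∀ c, algebraMap k K c ∈ B) → (∀ β, (X β : K) ∈ B) → y ∈ B → y' ∈ B := by
  classical
  let Q := {z : K // ES k v ω X z}
  have hQ : ∀ s : Q, ∃ (s' : Q) (γ : L) (c : k), 0 < ω γ ∧ v s.1 = ex (ω γ) ∧
      s.1 = (X (.ofAdd γ) : K) * (s'.1 + algebraMap k K c) := by
    rintro ⟨z, hz⟩
    obtain ⟨y', γ, c, h1, h2, h3, h4⟩ := hz.ustep hk hres hG htr
    exact ⟨⟨y', h1⟩, γ, c, h2, h3, h4⟩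
  choose nx γ c hγ hv hy using hQ
  let s : ℕ → Q := fun m => nx^[m] ⟨y, S⟩
  have hs : ∀ m, s (m + 1) = nx (s m) := fun m => Function.iterate_succ_apply' nx m _
  let Γ : ℕ → L := fun m => ∑ i ∈ Finset.range m, γ (s i)
  have hΓ : ∀ m, Γ (m + 1) = Γ m + γ (s m) := fun m => Finset.sum_range_succ _ _
  let φs : ℕ → AddMonoidAlgebra k L := fun m =>
    ∑ l ∈ Finset.range m, AddMonoidAlgebra.single (Γ (l + 1)) (c (s l))
  have hφs : ∀ m, φs (m + 1) = φs m + AddMonoidAlgebra.single (Γ (m + 1)) (c (s m)) :=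
    fun m => Finset.sum_range_succ _ _
  have hrep : ∀ m, y = evL k X (φs m) + (X (.ofAdd (Γ m)) : K) * (s m).1 := by
    intro m
    induction m with
    | zero =>
      have h1 : φs 0 = 0 := Finset.sum_range_zero _
      have h2 : Γ 0 = 0 := Finset.sum_range_zero _
      rw [h1, h2, map_zero, zero_add, ofAdd_zero, map_one, Units.val_one, one_mul]
      rfl
    | succ m ih =>
      have h1 := hy (s m)
      rw [← hs m] at h1
      have h2 : (X (.ofAdd (Γ (m + 1))) : K) = (X (.ofAdd (Γ m)) : K) *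
          (X (.ofAdd (γ (s m))) : K) := by
        rw [hΓ, ofAdd_add, map_mul, Units.val_mul]
      rw [h1] at ih
      rw [hφs, map_add, evL_single, h2]
      linear_combination ih
  have hβv : ∀ m, v (y - evL k X (φs m)) = ex (ω (Γ (m + 1))) := by
    intro m
    have h1 : y - evL k X (φs m) = (X (.ofAdd (Γ m)) : K) * (s m).1 := by
      have := hrep m
      linear_combination this
    rw [h1, map_mul, S.hX, hv (s m), ← ex_add, ← map_add, ← hΓ]
  have hmono : StrictMono fun m => ω (Γ (m + 1)) := by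
    refine strictMono_nat_of_lt_succ fun m => ?_
    have h1 := hγ (s (m + 1))
    change ω (Γ (m + 1)) < ω (Γ (m + 1 + 1))
    rw [hΓ (m + 1), map_add]
    linarith
  have hall := fun g => EC_all p hk S.inj S.hX S.al (φs := φs) (β := fun m => Γ (m + 1))
    (ct := fun m => c (s m)) (fun m => rfl) hβv hmono g
  -- the stage
  have hst : ∀ t : K, ∃ J : ℕ, t ∈ T → ∀ j, J ≤ j → GM k ω X (s (j + 1)).1 0 t := by
    intro t
    by_cases ht : t ∈ T
    · obtain ⟨g, hg, hgt⟩ := hT t ht
      obtain ⟨J, hJ⟩ := stab (y := y) hmono (fun j => hβv j) hall (PolE_ne hk S.inj S.hX hg)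
      refine ⟨J, fun _ j hj => ?_⟩
      obtain ⟨h1, h2⟩ := hJ j hj
      have ha : (⟨evL k X (φs (j + 1)), evL_mem_E0 X _⟩ : E0 k X) =
          evL k (X0E k X) (φs (j + 1)) := Subtype.ext (evL_X0E X _).symm
      rw [ha] at h1
      have hord : Ordle ω 0 (Sb (φs (j + 1)) (Γ (j + 1)) g) := by
        apply ordle_of_vals hk S.inj S.hX
        · rw [PolE_Sb, hasseDeriv_zero', pow_zero, mul_one]
          exact h1
        · intro m
          rw [PolE_Sb, PolE_Sb, hasseDeriv_zero', pow_zero, mul_one]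
          have h3 := h2 m
          rw [ha] at h3
          refine le_trans (le_of_eq ?_) h3
          have h4 : v ((((X0E k X (.ofAdd (Γ (j + 1))) : (E0 k X)ˣ) : E0 k X) ^ m : E0 k X) : K) =
              ex (m * ω (Γ (j + 1))) := by
            rw [IntermediateField.coe_pow, map_pow, ex_nmul]
            congr 1
            exact S.hX _
          rw [IntermediateField.coe_mul, map_mul, h4]
          rfl
      have h3 := GM.of_ev (k := k) (X := X) (y := (s (j + 1)).1) S.inj hord
      rw [ev_Sb, ← hrep, ← hgt] at h3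
      exact h3
    · exact ⟨0, fun h => absurd h ht⟩
  choose J hJ using hst
  set n := T.sup J + 1 with hn
  refine ⟨(s n).1, (s n).2, ?_, ?_, ?_⟩
  · refine FE_le (fun β => X_mem_FE _ _ _) ?_
    have h1 : evL k X (φs n) + (X (.ofAdd (Γ n)) : K) * (s n).1 ∈ FE k X (s n).1 := by
      refine add_mem ?_ (mul_mem (X_mem_FE _ _ _) (y_mem_FE _ _))
      have h2 := ev_mem_FE X (s n).1 (inc k L (φs n))
      rwa [ev_inc] at h2
    rw [← hrep n] at h1
    exact h1
  · intro t ht
    exact hJ t ht _ (Finset.le_sup (f := J) ht)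
  · intro B hB1 hB2 hB3
    have h1 : ∀ m, (s m).1 ∈ B := by
      intro m
      induction m with
      | zero => exact hB3
      | succ m ih =>
        have h2 := hy (s m)
        rw [← hs m] at h2
        have h3 : (s (m + 1)).1 = (X (.ofAdd (-γ (s m))) : K) * (s m).1 -
            algebraMap k K (c (s m)) := by
          rw [h2, ← mul_assoc, ← Units.val_mul, ← map_mul, ← ofAdd_add, neg_add_cancel,
            ofAdd_zero, map_one, Units.val_one, one_mul, add_sub_cancel_right]
        rw [h3]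
        exact sub_mem (mul_mem (hB2 _) ih) (hB1 _)
    exact h1 n

end stage

end Pool.Agent.H893
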