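import Pool.Agent.H893.N11
import Pool.Agent.H893.SU

/-!
# Strong uniformization of the fields of the points: the finitely generated case
-/

set_option autoImplicit false
set_option linter.unusedVariables false
set_option linter.unusedSectionVars false

universe u w

namespace Pool.Agent.H893

open Pool.Agent.W418.LU2 Polynomial
open scoped NNReal

section su

variable {k F : Type u} {L : Type w} [Field k] [Field F] [Algebra k F] [AddCommGroup L]
  [Module.Free ℤ L] [Module.Finite ℤ L] {v : Valuation F ℝ≥0}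

theorem su_of_es' (p : ℕ) [Fact p.Prime] [CharP k p]
    (hk : ∀ c : k, c ≠ 0 → v (algebraMap k F c) = 1)
    (hres : ∀ x : F, v x ≤ 1 → ∃ c : k, v (x - algebraMap k F c) < 1) {ω : L →+ ℝ}
    (hGr : ∀ x : F, x ≠ 0 → ∃ a, v x = ex (ω a))
    (htr : Algebra.trdeg k F = ((Module.finrank ℤ L + 1 : ℕ) : Cardinal))
    {X : Multiplicative L →* Fˣ} {y : F} (S : ES k v ω X y)
    (hgen : ∀ z : F, ∃ g h : AddMonoidAlgebra k (L × ℕ), ev k X y h ≠ 0 ∧
      z * ev k X y h = ev k X y g) :
    ∃ U : Set F, U.Finite ∧ Pool.Agent.H176.DT.Mod v.valuationSubring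
      (Subring.closure (Set.range (algebraMap k F) ∪ U)) ∧
      Pool.Agent.H176.DT.SU v.valuationSubring
      (Subring.closure (Set.range (algebraMap k F) ∪ U)) := by
  classical
  obtain ⟨s0, b0, hb0, -⟩ := exists_chart ω S.inj ∅ (by simp)
  have hA0 := AC_le hk S b0 hb0
  refine ⟨Set.range (fam b0 X y), Set.finite_range _, ⟨hA0, ?_⟩, ?_⟩
  · intro z
    obtain ⟨g, h, h0, hz⟩ := hgen z
    obtain ⟨ν1, hν1, h1⟩ := exists_shift b0 g
    obtain ⟨ν2, hν2, h2⟩ := exists_shift b0 h
    have hs : ∀ (ν : L) (g : AddMonoidAlgebra k (L × ℕ)),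
        ev k X y (AddMonoidAlgebra.single (ν, 0) 1 * g) = (X (.ofAdd ν) : F) * ev k X y g := by
      intro ν g
      rw [map_mul, ev_single]
      simp
    have h3 := ev_mem_AC (X := X) (y := y) b0 h1
    have h4 := ev_mem_AC (X := X) (y := y) b0 h2
    rw [hs] at h3 h4
    refine ⟨(X (.ofAdd ν2) : F) * ((X (.ofAdd ν1) : F) * ev k X y g),
      mul_mem (X_mem_AC b0 hν2) h3,
      (X (.ofAdd ν1) : F) * ((X (.ofAdd ν2) : F) * ev k X y h),
      mul_mem (X_mem_AC b0 hν1) h4, ?_, ?_⟩
    · exact mul_ne_zero (Units.ne_zero _) (mul_ne_zero (Units.ne_zero _) h0)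
    · rw [← hz]
      have h5 : (X (.ofAdd ν1) : F) ≠ 0 := Units.ne_zero _
      have h6 : (X (.ofAdd ν2) : F) ≠ 0 := Units.ne_zero _
      field_simp
  · intro G hG hG0
    set A := AC k b0 X y with hA
    change ∃ (T : Set F) (n : ℕ) (x : Fin n → F), Pool.Agent.H176.DT.St v.valuationSubring A T x ∧
      ∀ g ∈ G, PMon (Pool.Agent.H176.DT.PP v.valuationSubring A T) x g ∧
        (g ∈ v.valuationSubring → g ∈ Pool.Agent.H176.DT.PP v.valuationSubring A T)
    choose a b hb hab using hgen
    -- the elements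
    let G1 : Finset F := hG.toFinset ∪ Finset.univ.image (fam b0 X y)
    have hG1 : ∀ z ∈ G1, z ≠ 0 := by
      intro z hz
      rcases Finset.mem_union.1 hz with h | h
      · exact hG0 z (hG.mem_toFinset.1 h)
      · obtain ⟨o, -, rfl⟩ := Finset.mem_image.1 h
        rcases o with _ | j
        · exact ((inj_iff b0 X y).1 S.al).ne_zero none
        · exact Units.ne_zero _
    let T : Finset F := G1.biUnion fun z => {ev k X y (a z), ev k X y (b z)}
    have hT : ∀ t ∈ T, ∃ g : AddMonoidAlgebra k (L × ℕ), g ≠ 0 ∧ t = ev k X y g := by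
      intro t ht
      obtain ⟨z, hz, h1⟩ := Finset.mem_biUnion.1 ht
      rcases Finset.mem_insert.1 h1 with h2 | h2
      · refine ⟨a z, ?_, h2⟩
        intro h3
        have h4 := hab z
        rw [h3, map_zero] at h4
        exact (mul_ne_zero (hG1 z hz) (hb z)) h4
      · refine ⟨b z, ?_, Finset.mem_singleton.1 h2⟩
        intro h3
        apply hb z
        rw [h3, map_zero]
    -- the denominators
    set σ : L := ∑ j, b0 j with hσ
    have hreprσ : ∀ j, b0.repr σ j = 1 := by
      intro j
      rw [hσ, map_sum, Finsupp.finsetSum_apply, Finset.sum_eq_single j]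
      · rw [Module.Basis.repr_self, Finsupp.single_eq_same]
      · intro i _ hi
        rw [Module.Basis.repr_self, Finsupp.single_eq_of_ne]
        exact fun h => hi h.symm
      · simp
    have hσA : (X (.ofAdd σ) : F) ∈ A := X_mem_AC b0 (by
      rw [mem_chartP]
      intro j
      rw [hreprσ]
      exact zero_le_one)
    have hXσ : ∀ l, (X l : F) ∈ denR A (X (.ofAdd σ) : F) hσA := by
      intro l
      refine ⟨∑ j, (b0.repr l.toAdd j).natAbs, ?_⟩
      have h1 : (X (.ofAdd σ) : F) ^ (∑ j, (b0.repr l.toAdd j).natAbs) * (X l : F) =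
          (X (.ofAdd ((∑ j, (b0.repr l.toAdd j).natAbs) • σ + l.toAdd)) : F) := by
        rw [ofAdd_add, map_mul, Units.val_mul, ofAdd_nsmul, map_pow, Units.val_pow_eq_pow_val]
        rfl
      rw [h1]
      refine X_mem_AC b0 ?_
      rw [mem_chartP]
      intro j
      rw [map_add, map_nsmul, Finsupp.add_apply, Finsupp.smul_apply, hreprσ, nsmul_eq_mul,
        mul_one]
      have h2 := neg_abs_le (b0.repr l.toAdd j)
      rw [Int.abs_eq_natAbs] at h2
      have h3 : (b0.repr l.toAdd j).natAbs ≤ ∑ j, (b0.repr l.toAdd j).natAbs :=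
        Finset.single_le_sum (f := fun j => (b0.repr l.toAdd j).natAbs)
          (fun _ _ => Nat.zero_le _) (Finset.mem_univ j)
      have h4 : (((b0.repr l.toAdd j).natAbs : ℕ) : ℤ) ≤
          ((∑ j, (b0.repr l.toAdd j).natAbs : ℕ) : ℤ) := by exact_mod_cast h3
      linarith
    obtain ⟨y', S', -, hT', hB'⟩ := es_stage p hk hres hGr htr S T hT
    have hyσ : y' ∈ denR A (X (.ofAdd σ) : F) hσA :=
      hB' _ (fun c => ⟨0, by rw [pow_zero, one_mul]; exact alg_mem_AC b0 c⟩) hXσ
        ⟨0, by rw [pow_zero, one_mul]; exact y_mem_AC b0⟩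
    obtain ⟨β, hβ, hβG, hXβ, hyβ⟩ : ∃ (β : F) (hβ : β ∈ A), GM k ω X y' 0 β ∧
        (∀ l, (X l : F) ∈ denR A β hβ) ∧ y' ∈ denR A β hβ :=
      ⟨(X (.ofAdd σ) : F), hσA, GM.Xm S'.inj σ, hXσ, hyσ⟩
    have hG2 : ∀ z ∈ G1, GM k ω X y' 0 z := by
      intro z hz
      refine GM.mo S' (ev k X y (a z)) (ev k X y (b z)) (hT' _ ?_) (hT' _ ?_) (hab z)
      · exact Finset.mem_biUnion.2 ⟨z, hz, Finset.mem_insert_self _ _⟩
      · exact Finset.mem_biUnion.2 ⟨z, hz, Finset.mem_insert_of_mem (Finset.mem_singleton_self _)⟩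
    obtain ⟨s, b', hb', hch⟩ := chart hk S' (insert β G1) (by
      intro t ht
      rcases Finset.mem_insert.1 ht with h | h
      · rw [h]
        exact hβG
      · exact hG2 t h)
    have hS' := AC_le hk S' b' hb'
    have hPP : Pool.Agent.H176.DT.PP v.valuationSubring A (Set.range (fam b' X y')) =
        PC k v b' X y' := by
      refine lo_eq hS' ?_ ?_
      · unfold AC
        rw [Subring.closure_le]
        rintro z (⟨c, rfl⟩ | hz)
        · exact Subring.subset_closure (Or.inl (alg_mem_AC b0 c))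
        · exact Subring.subset_closure (Or.inr hz)
      · rw [Subring.closure_le]
        rintro z (hz | hz)
        · have h1 : A ≤ PC k v b' X y' := by
            rw [hA, AC, Subring.closure_le]
            rintro z (⟨c, rfl⟩ | ⟨o, rfl⟩)
            · exact le_lo _ _ (alg_mem_AC b' c)
            · refine (hch _ (Finset.mem_insert_of_mem (Finset.mem_union_right _
                (Finset.mem_image.2 ⟨o, Finset.mem_univ _, rfl⟩)))).2 ?_
              exact hA0 (fam_mem_AC b0 o)
          exact h1 hz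
        · exact le_lo _ _ (Subring.subset_closure (Or.inr hz))
    let e : Fin (s + 1) ≃ Option (Fin s) := finSuccEquiv s
    have hrange : Set.range (fun i => fam b' X y' (e i)) = Set.range (fam b' X y') := by
      ext z
      constructor
      · rintro ⟨i, rfl⟩
        exact ⟨_, rfl⟩
      · rintro ⟨o, rfl⟩
        exact ⟨e.symm o, by simp⟩
    have hPM : ∀ z, PMon (PC k v b' X y') (fam b' X y') z →
        PMon (PC k v b' X y') (fun i => fam b' X y' (e i)) z := by
      rintro z ⟨u, u0, u1, u2, δ, hz⟩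
      refine ⟨u, u0, u1, u2, fun i => δ (e i), ?_⟩
      rw [hz]
      congr 1
      unfold mo
      exact (Equiv.prod_comp e fun o => fam b' X y' o ^ δ o).symm
    refine ⟨Set.range (fam b' X y'), s + 1, fun i => fam b' X y' (e i), ⟨?_, ?_, ?_⟩, ?_⟩
    · exact Set.finite_range _
    · rw [hPP]
      have h1 : AlgebraicIndependent k (fun i => fam b' X y' (e i)) :=
        ((inj_iff b' X y').1 S'.al).comp e e.injective
      have h2 := regP_alg v.valuationSubring (k := k) (fun c => vk_le hk c) (s + 1)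
        (fun i => fam b' X y' (e i)) (fun i => hS' (fam_mem_AC b' _)) h1
      rw [hrange] at h2
      exact h2
    · -- the denominator
      have h1 : ∀ o, ∃ N : ℕ, β ^ N * fam b' X y' o ∈ A := by
        rintro (_ | j)
        · exact hyβ
        · exact hXβ _
      choose M hM using h1
      have h2 : ∀ o, β ^ (∑ o, M o) * fam b' X y' o ∈ A := by
        intro o
        have h3 : M o ≤ ∑ o, M o :=
          Finset.single_le_sum (f := M) (fun _ _ => Nat.zero_le _) (Finset.mem_univ o)
        obtain ⟨q, hq⟩ := Nat.exists_eq_add_of_le h3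
        rw [hq, pow_add, mul_comm (β ^ M o), mul_assoc]
        exact mul_mem (pow_mem hβ _) (hM o)
      refine ⟨β ^ (∑ o, M o), pow_mem hβ _, ?_, ?_, fun i => h2 _⟩
      · rw [hPP]
        apply hPM
        have h3 := (hch β (Finset.mem_insert_self _ _)).1
        have h4 : ∀ o, fam b' X y' o ≠ 0 := ((inj_iff b' X y').1 S'.al).ne_zero
        generalize (∑ o, M o) = n
        induction n with
        | zero => rw [pow_zero]; exact PMon.one
        | succ n ihn => rw [pow_succ]; exact ihn.mul h4 h3
      · rintro _ ⟨o, rfl⟩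
        exact h2 o
    · intro g hg
      rw [hPP]
      have h1 := hch g (Finset.mem_insert_of_mem (Finset.mem_union_left _
        (hG.mem_toFinset.2 hg)))
      exact ⟨hPM _ h1.1, h1.2⟩

end su

end Pool.Agent.H893
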