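import Pool.Agent.H893.P8
import Pool.Agent.H893.G3_gen

/-!
# From a hypersurface of order one to strong uniformization, continued
-/

set_option autoImplicit false
set_option linter.unusedVariables false
set_option linter.unusedSectionVars false

universe u w

namespace Pool.Agent.H893

open Pool.Agent.W418.LU2 Polynomial
open Pool.Agent.H176.DT (Mod SU PP St)
open scoped NNReal

section gen

variable {E K : Type u} [Field E] [Field K] [Algebra E K] {v : Valuation K ℝ≥0}

lemma v_aeval_le {z : K} (hz : v z ≤ 1) {q : E[X]}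
    (hq : ∀ i, v (algebraMap E K (q.coeff i)) ≤ 1) : v (aeval z q) ≤ 1 := by
  rw [aeval_eq_sum_range]
  refine v.map_sum_le fun i _ => ?_
  rw [Algebra.smul_def, map_mul, map_pow]
  exact mul_le_one₀ (hq i) zero_le (pow_le_one₀ zero_le hz)

lemma v_aeval_sub {z : K} (hz : v z < 1) {q : E[X]}
    (hq : ∀ i, v (algebraMap E K (q.coeff i)) ≤ 1) :
    v (aeval z q - algebraMap E K (q.coeff 0)) < 1 := by
  have h1 : aeval z q - algebraMap E K (q.coeff 0) = aeval z q.divX * z := by
    conv_lhs => rw [← q.divX_mul_X_add]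
    rw [map_add, map_mul, aeval_X, aeval_C, coeff_add, coeff_mul_X_zero, coeff_C_zero, zero_add]
    ring
  rw [h1, map_mul]
  have h2 : v (aeval z q.divX) ≤ 1 := by
    refine v_aeval_le hz.le fun i => ?_
    rw [coeff_divX]
    exact hq _
  calc v (aeval z q.divX) * v z ≤ 1 * v z := mul_le_mul_of_nonneg_right h2 zero_le
    _ = v z := one_mul _
    _ < 1 := hz

lemma val_one {x : K} (hx : v x = 1) : v.valuationSubring.valuation x = 1 := by
  rw [Pool.Agent.H176.DT.val_one_iff]
  refine ⟨?_, ?_, ?_⟩
  · rintro rfl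
    rw [map_zero] at hx
    exact zero_ne_one hx
  · exact hx.le
  · change v x⁻¹ ≤ 1
    rw [map_inv₀, hx, inv_one]

lemma v_taylor {c : E} (hc : v (algebraMap E K c) ≤ 1) {q : E[X]}
    (hq : ∀ i, v (algebraMap E K (q.coeff i)) ≤ 1) (i : ℕ) :
    v (algebraMap E K ((taylor c q).coeff i)) ≤ 1 := by
  rw [coeff_taylor q c i (q.natDegree + 1) (Nat.lt_succ_self _), map_sum]
  refine v.map_sum_le fun j _ => ?_
  rw [map_mul, map_mul, map_mul, map_mul, map_natCast, map_pow, map_pow]
  exact mul_le_one₀ (v_nat _) zero_le (mul_le_one₀ (hq j) zero_le (pow_le_one₀ zero_le hc))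

end gen

section part2

variable {k K : Type u} {L : Type w} [Field k] [Field K] [Algebra k K] [AddCommGroup L]
  [Module.Free ℤ L] [Module.Finite ℤ L] {v : Valuation K ℝ≥0}

/-- From the field generated by the monomials and `y` to the whole field. -/
theorem part2_of (hk : ∀ c : k, c ≠ 0 → v (algebraMap k K c) = 1) {ω : L →+ ℝ}
    {X : Multiplicative L →* (DualNumber K)ˣ} {y z : DualNumber K}
    {f : (AddMonoidAlgebra k (L × ℕ))[X]} (S : Sys k v 1 ω X y z f)
    (hEU : ∃ U : Set (FE k (XK k X) y.fst), U.Finite ∧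
      Mod (v.valuationSubring.comap (algebraMap (FE k (XK k X) y.fst) K))
        (Subring.closure (Set.range (algebraMap k (FE k (XK k X) y.fst)) ∪ U)) ∧
      SU (v.valuationSubring.comap (algebraMap (FE k (XK k X) y.fst) K))
        (Subring.closure (Set.range (algebraMap k (FE k (XK k X) y.fst)) ∪ U))) :
    ∃ U : Set K, U.Finite ∧
      Mod v.valuationSubring (Subring.closure (Set.range (algebraMap k K) ∪ U)) ∧
      SU v.valuationSubring (Subring.closure (Set.range (algebraMap k K) ∪ U)) := by
  classical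
  set X0 := XK k X with hX0
  set y0 := y.fst with hy0
  set z0 := z.fst with hz0
  obtain ⟨η, hη, hyη⟩ := exists_pos_ex S.hy
  set E := FE k X0 y0 with hE
  obtain ⟨U, hU, hM, hSU⟩ := hEU
  let φ : AddMonoidAlgebra k (L × ℕ) →+* E :=
    ((ev k X0 y0 : AddMonoidAlgebra k (L × ℕ) →+* K)).codRestrict E.toSubring.toSubsemiring
      fun g => ev_mem_FE X0 y0 g
  have hφ : (algebraMap E K).comp φ = (ev k X0 y0 : AddMonoidAlgebra k (L × ℕ) →+* K) := by
    ext1 <;> rfl
  have hφ' : ∀ g, algebraMap E K (φ g) = ev k X0 y0 g := fun g => rfl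
  set F : E[X] := f.map φ with hF
  have hFc : ∀ j, algebraMap E K (F.coeff j) = ev k X0 y0 (f.coeff j) := by
    intro j
    rw [hF, coeff_map]
    exact hφ' _
  have hFr : aeval z0 F = 0 := by
    rw [aeval_def, hF, eval₂_map, hφ]
    exact (fst_EV X y z f).symm.trans S.fz
  have hev1 : ∀ j, v (ev k X0 y0 (f.coeff j)) ≤ 1 := by
    intro j
    rw [← ex_zero]
    refine v_ev_le hk S.hX hyη ?_
    intro μ hμ
    have h4 := S.ge0 j μ hμ
    rw [wX_apply] at h4
    rw [wW_apply]
    positivity
  have hFV : ∀ j, v (algebraMap E K (F.coeff j)) ≤ 1 := fun j => by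
    rw [hFc]
    exact hev1 j
  have hd1 : v (aeval z0 (derivative F)) = 1 := by
    have h1 : ∀ i, v (algebraMap E K ((derivative F).coeff i)) ≤ 1 := by
      intro i
      rw [coeff_derivative, map_mul, map_mul, map_add, map_natCast, map_one]
      refine mul_le_one₀ (hFV _) zero_le ?_
      have := v_nat (v := v) (i + 1)
      push_cast at this
      exact this
    have h2 := v_aeval_sub S.hz h1
    have h3 : v (algebraMap E K ((derivative F).coeff 0)) = 1 := by
      rw [coeff_derivative, hF, coeff_map, Nat.cast_zero, zero_add, zero_add, mul_one]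
      exact S.v_d hk
    have h4 : aeval z0 (derivative F) = (aeval z0 (derivative F) -
        algebraMap E K ((derivative F).coeff 0)) + algebraMap E K ((derivative F).coeff 0) := by
      ring
    rw [h4, v.map_add_eq_of_lt_right (by rw [h3]; exact h2), h3]
  have hclos0 : ∀ w : K, w ∈ Subfield.closure (Set.range (algebraMap E K) ∪ {z0}) := by
    let F0 : IntermediateField k K :=
      (Subfield.closure (Set.range (algebraMap E K) ∪ {z0})).toIntermediateField
        (fun c => Subfield.subset_closure (Or.inl ⟨algebraMap k E c, rfl⟩))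
    have hF0 : ∀ w : K, w ∈ F0 ↔ w ∈ Subfield.closure (Set.range (algebraMap E K) ∪ {z0}) :=
      fun w => Iff.rfl
    have h1 : F0 = ⊤ := by
      refine S.gen F0 (fun β => ?_) ?_ ?_
      · exact (hF0 _).2 (Subfield.subset_closure (Or.inl ⟨⟨_, X_mem_FE X0 y0 β⟩, rfl⟩))
      · exact (hF0 _).2 (Subfield.subset_closure (Or.inl ⟨⟨_, y_mem_FE X0 y0⟩, rfl⟩))
      · exact (hF0 _).2 (Subfield.subset_closure (Or.inr rfl))
    intro w
    rw [← hF0, h1]
    trivial
  obtain ⟨x, μ, hμ1, hμ2, hμ3, hμ4, hclos⟩ := exists_monic_generator v.valuationSubring F z0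
    (fun i => hFV i) hFr
    ((Valuation.isEquiv_valuation_valuationSubring v).lt_one_iff_lt_one.1 S.hz)
    (val_one hd1) hclos0
  have hint : IsIntegral E x := ⟨μ, hμ1, by rw [← aeval_def]; exact hμ3⟩
  obtain ⟨μ', g', h', hunr⟩ := Pool.Agent.H176.DT.p_et (E := E) v.valuationSubring x μ hμ1 hμ2
    hμ3 hμ4
  obtain ⟨U1, hU1, hM1, hSU1⟩ := Pool.Agent.H176.DT.key_unr (E := E) (F := K)
    (V := v.valuationSubring) _ hM hSU x
    (fun w => Pool.Agent.H176.DT.gen_alg hint (hclos w)) hunr
  have hcl : Subring.closure (((Subring.closure (Set.range (algebraMap k E) ∪ U)).map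
      (algebraMap E K) : Set K) ∪ U1) = Subring.closure (Set.range (algebraMap k K) ∪
      (algebraMap E K '' U ∪ U1)) := by
    have h1 : algebraMap E K '' Set.range (algebraMap k E) = Set.range (algebraMap k K) := by
      ext w
      constructor
      · rintro ⟨_, ⟨c, rfl⟩, rfl⟩
        exact ⟨c, rfl⟩
      · rintro ⟨c, rfl⟩
        exact ⟨_, ⟨c, rfl⟩, rfl⟩
    rw [RingHom.map_closure, Set.image_union, h1, ← Set.union_assoc]
    apply le_antisymm
    · rw [Subring.closure_le]
      rintro w (hw | hw)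
      · exact Subring.closure_mono Set.subset_union_left hw
      · exact Subring.subset_closure (Or.inr hw)
    · rw [Subring.closure_le]
      rintro w (hw | hw)
      · exact Subring.subset_closure (Or.inl (Subring.subset_closure hw))
      · exact Subring.subset_closure (Or.inr hw)
  rw [hcl] at hM1 hSU1
  exact ⟨_, (hU.image _).union hU1, hM1, hSU1⟩

theorem part2 (hk : ∀ c : k, c ≠ 0 → v (algebraMap k K c) = 1) (H : HypH k L v)
    (htr : Algebra.trdeg k K = ((Module.finrank ℤ L + 1 : ℕ) : Cardinal)) {ω : L →+ ℝ}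
    {X : Multiplicative L →* (DualNumber K)ˣ} {y z : DualNumber K}
    {f : (AddMonoidAlgebra k (L × ℕ))[X]} (S : Sys k v 1 ω X y z f) :
    ∃ U : Set K, U.Finite ∧
      Mod v.valuationSubring (Subring.closure (Set.range (algebraMap k K) ∪ U)) ∧
      SU v.valuationSubring (Subring.closure (Set.range (algebraMap k K) ∪ U)) := by
  have al := S.al hk htr
  exact part2_of hk S (su_E hk H htr S.inj S.hX S.hy al S.rr)

end part2

end Pool.Agent.H893
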