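import Pool.Agent.H893.N12
import Pool.Agent.H893.P9

/-!
# From a hypersurface of order one to strong uniformization: the finitely generated case
-/

set_option autoImplicit false
set_option linter.unusedVariables false
set_option linter.unusedSectionVars false

universe u w

namespace Pool.Agent.H893

open Pool.Agent.W418.LU2 Polynomial
open Pool.Agent.H176.DT (Mod SU PP St)
open scoped NNReal

section res

variable {k K : Type u} {L : Type w} [Field k] [Field K] [Algebra k K] [AddCommGroup L]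
  [Module.Free ℤ L] [Module.Finite ℤ L] {v : Valuation K ℝ≥0}

/-- Strong uniformization of the field generated by the coordinates. -/
theorem su_E' (p : ℕ) [Fact p.Prime] [CharP k p]
    (hk : ∀ c : k, c ≠ 0 → v (algebraMap k K c) = 1)
    (hres : ∀ x : K, v x ≤ 1 → ∃ c : k, v (x - algebraMap k K c) < 1) {ω : L →+ ℝ}
    (hGr : ∀ x : K, x ≠ 0 → ∃ a, v x = ex (ω a))
    (htr : Algebra.trdeg k K = ((Module.finrank ℤ L + 1 : ℕ) : Cardinal))
    {X : Multiplicative L →* Kˣ} {y : K} (inj : Function.Injective ω)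
    (hX : ∀ β, v (X (.ofAdd β) : K) = ex (ω β)) (hy : v y < 1)
    (al : Function.Injective (ev k X y)) :
    ∃ U : Set (FE k X y), U.Finite ∧
      Mod (v.valuationSubring.comap (algebraMap (FE k X y) K))
        (Subring.closure (Set.range (algebraMap k (FE k X y)) ∪ U)) ∧
      SU (v.valuationSubring.comap (algebraMap (FE k X y) K))
        (Subring.closure (Set.range (algebraMap k (FE k X y)) ∪ U)) := by
  classical
  have hk' : ∀ c : k, c ≠ 0 → (v.comap (algebraMap (FE k X y) K))
      (algebraMap k (FE k X y) c) = 1 := fun c hc => hk c hc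
  have hres' : ∀ x : FE k X y, (v.comap (algebraMap (FE k X y) K)) x ≤ 1 →
      ∃ c : k, (v.comap (algebraMap (FE k X y) K)) (x - algebraMap k (FE k X y) c) < 1 :=
    fun x hx => hres x hx
  have hGr' : ∀ x : FE k X y, x ≠ 0 → ∃ a, (v.comap (algebraMap (FE k X y) K)) x = ex (ω a) :=
    fun x hx => hGr x fun h => hx (Subtype.ext h)
  have htr' := trdeg_FE htr al
  have hX' : ∀ β, (v.comap (algebraMap (FE k X y) K)) (XE k X y (.ofAdd β) : FE k X y) =
      ex (ω β) := fun β => hX β
  have hev : ∀ g, (FE k X y).val (ev k (XE k X y) ⟨y, y_mem_FE X y⟩ g) = ev k X y g := by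
    intro g
    rw [← ev_map (FE k X y).val (XE k X y) ⟨y, y_mem_FE X y⟩ g, XE_map]
    rfl
  have al' : Function.Injective (ev k (XE k X y) (⟨y, y_mem_FE X y⟩ : FE k X y)) := by
    intro a b h
    apply al
    rw [← hev, ← hev, h]
  set y2 : FE k X y := ⟨y, y_mem_FE X y⟩ with hy2
  have hFE : ∀ F : IntermediateField k (FE k X y), (∀ β, (XE k X y β : FE k X y) ∈ F) →
      y2 ∈ F → F = ⊤ := by
    intro F hF1 hF2
    have h3 : FE k X y ≤ IntermediateField.lift F :=
      FE_le (fun β => (IntermediateField.mem_lift (XE k X y β : FE k X y)).2 (hF1 β))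
        ((IntermediateField.mem_lift (⟨y, y_mem_FE X y⟩ : FE k X y)).2 hF2)
    rw [eq_top_iff]
    intro z _
    exact (IntermediateField.mem_lift z).1 (h3 z.2)
  have hFt : FE k (XE k X y) y2 = ⊤ := hFE _ (fun β => X_mem_FE _ _ _) (y_mem_FE _ _)
  have S : ES k (v.comap (algebraMap (FE k X y) K)) ω (XE k X y) y2 := by
    refine ⟨inj, hX', hy, al', ?_⟩
    intro x hx
    obtain ⟨a, ha⟩ := hGr' x hx
    exact ⟨1, one_ne_zero, a, by rw [pow_one]; exact ha⟩
  have hgen : ∀ z : FE k X y, ∃ g h : AddMonoidAlgebra k (L × ℕ),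
      ev k (XE k X y) y2 h ≠ 0 ∧ z * ev k (XE k X y) y2 h = ev k (XE k X y) y2 g := by
    intro z
    have hle : Algebra.adjoin k (Set.range (fam (Module.finBasis ℤ L) (XE k X y) y2)) ≤
        (ev k (XE k X y) y2).range := by
      rw [Algebra.adjoin_le_iff]
      rintro _ ⟨_ | j, rfl⟩
      · refine ⟨AddMonoidAlgebra.single (0, 1) 1, ?_⟩
        change ev k _ _ _ = y2
        rw [ev_single]
        simp
      · refine ⟨AddMonoidAlgebra.single (Module.finBasis ℤ L j, 0) 1, ?_⟩
        change ev k _ _ _ = (XE k X y (.ofAdd (Module.finBasis ℤ L j)) : FE k X y)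
        rw [ev_single]
        simp
    have hz : z ∈ FE k (XE k X y) y2 := by
      rw [hFt]
      trivial
    obtain ⟨r, hr, s, hs, rfl⟩ := IntermediateField.mem_adjoin_iff_div.1 hz
    obtain ⟨g, rfl⟩ := hle hr
    obtain ⟨h, rfl⟩ := hle hs
    by_cases h0 : ev k (XE k X y) y2 h = 0
    · refine ⟨0, 1, ?_, ?_⟩
      · rw [map_one]
        exact one_ne_zero
      · change ev k (XE k X y) y2 g / ev k (XE k X y) y2 h * _ = _
        rw [h0, div_zero, zero_mul, map_zero]
    · exact ⟨g, h, h0, div_mul_cancel₀ _ h0⟩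
  obtain ⟨U, hU, h1, h2⟩ := su_of_es' p hk' hres' hGr' htr' S hgen
  exact ⟨U, hU, h1, h2⟩

theorem part2' (p : ℕ) [Fact p.Prime] [CharP k p]
    (hk : ∀ c : k, c ≠ 0 → v (algebraMap k K c) = 1)
    (hres : ∀ x : K, v x ≤ 1 → ∃ c : k, v (x - algebraMap k K c) < 1) {ω : L →+ ℝ}
    (hGr : ∀ x : K, x ≠ 0 → ∃ a, v x = ex (ω a))
    (htr : Algebra.trdeg k K = ((Module.finrank ℤ L + 1 : ℕ) : Cardinal))
    {X : Multiplicative L →* (DualNumber K)ˣ} {y z : DualNumber K}
    {f : (AddMonoidAlgebra k (L × ℕ))[X]} (S : Sys k v 1 ω X y z f) :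
    ∃ U : Set K, U.Finite ∧
      Mod v.valuationSubring (Subring.closure (Set.range (algebraMap k K) ∪ U)) ∧
      SU v.valuationSubring (Subring.closure (Set.range (algebraMap k K) ∪ U)) := by
  have al := S.al hk htr
  exact part2_of hk S (su_E' p hk hres hGr htr S.inj S.hX S.hy al)

end res

end Pool.Agent.H893
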