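import Pool.Agent.H893.N8

/-!
# The order drops: the finitely generated case
-/

set_option autoImplicit false
set_option linter.unusedVariables false
set_option linter.unusedSectionVars false

namespace Pool.Agent.H893

open Polynomial
open scoped NNReal

section bnd

variable {k K L : Type*} [Field k] [Field K] [Algebra k K] [AddCommGroup L]
  [Module.Free ℤ L] [Module.Finite ℤ L] {v : Valuation K ℝ≥0}
  {d : ℕ} {ω : L →+ ℝ} {X : Multiplicative L →* (DualNumber K)ˣ}
    {y z : DualNumber K} {f : (AddMonoidAlgebra k (L × ℕ))[X]}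

lemma Stp.evEq {γ : L} {A A' b' w : ℝ} {y' z' : DualNumber K}
    {f' : (AddMonoidAlgebra k (L × ℕ))[X]} {u : DualNumber K}
    {Φ R : AddMonoidAlgebra k (L × ℕ)} {c : k}
    (h : Stp k v d ω X γ A A' b' w y z f y' z' f' u Φ R c) :
    EV k X y' z' f' = EV k X y z f := by
  have hevc : ∀ t : DualNumber K, ev k X t (AddMonoidAlgebra.single 0 c) =
      algebraMap k (DualNumber K) c := by
    intro t
    rw [ev_single]
    simp
  have h1 : EV k X y' z' f' = EV k X u z' (taylor R (ShP γ (taylor Φ f))) := by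
    rw [h.hf', mapTau, EV, eval₂_map, EV]
    congr 1
    apply RingHom.ext
    intro t
    change ev k X y' (tau (AddMonoidAlgebra.single 0 c) t) = ev k X u t
    rw [ev_tau, hevc, h.hy', sub_add_cancel]
  rw [h1, h.hz', EV_taylor, EV_ShP, ← h.hu, EV_taylor]

/-- The bounds of the second components. -/
structure Bs (v : Valuation K ℝ≥0) (C : ℝ≥0) (g : ℝ) (y z : DualNumber K) : Prop where
  y : v y.snd ≤ C * ex (-g)
  z : v z.snd ≤ C

lemma Bs.step (hk : ∀ c : k, c ≠ 0 → v (algebraMap k K c) = 1) {C : ℝ≥0}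
    (hXC : ∀ β, FB v C (ω β) (X (.ofAdd β) : DualNumber K))
    {γ : L} (hη : 0 < ω γ) (hyη : v y.fst = ex (ω γ)) {A A' b' w : ℝ} {y' z' : DualNumber K}
    {f' : (AddMonoidAlgebra k (L × ℕ))[X]} {u : DualNumber K}
    {Φ R : AddMonoidAlgebra k (L × ℕ)} {c : k}
    (h : Stp k v d ω X γ A A' b' w y z f y' z' f' u Φ R c) {g : ℝ} (hg : 0 ≤ g) (hgA : g ≤ A)
    (hgA' : g + ω γ ≤ A') (hB : Bs v C g y z) : Bs v C (g + ω γ) y' z' := by
  set C' : ℝ≥0 := C * ex (-(g + ω γ)) with hC'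
  have hCC' : C ≤ C' := by
    have h1 : (1 : ℝ≥0) ≤ ex (-(g + ω γ)) := by
      rw [← ex_zero]
      exact ex_le.2 (by linarith)
    calc C = C * 1 := (mul_one _).symm
      _ ≤ C * ex (-(g + ω γ)) := mul_le_mul_of_nonneg_left h1 C.2
  have hXC' : ∀ β, FB v C' (ω β) (X (.ofAdd β) : DualNumber K) := fun β => (hXC β).mono hCC'
  have hyF : FB v C' (ω γ) y := by
    refine ⟨hyη.le, ?_⟩
    rw [hC', mul_assoc, ← ex_add]
    have h1 : -(g + ω γ) + ω γ = -g := by ring
    rw [h1]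
    exact hB.y
  have hu : u = (X (.ofAdd (-γ)) : DualNumber K) * y := by
    rw [h.hu, ← mul_assoc, ← Units.val_mul, ← map_mul, ← ofAdd_add, neg_add_cancel, ofAdd_zero,
      map_one, Units.val_one, one_mul]
  have huF : FB v C' 0 u := by
    have h1 := (hXC' (-γ)).mul hyF
    rw [map_neg, neg_add_cancel] at h1
    rw [hu]
    exact h1
  have hRF : v (ev k X u R).snd ≤ C := by
    have h1 := FB.ev (B := A') hk hXC' huF (g := R) (by
      rw [wW_zero]
      intro μ hμ
      exact (h.R0 μ hμ).1.ge)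
    refine h1.2.trans ?_
    rw [hC', mul_assoc, ← ex_add]
    have h2 : ex (-(g + ω γ) + A') ≤ 1 := by
      rw [← ex_zero]
      exact ex_le.2 (by linarith)
    calc C * ex (-(g + ω γ) + A') ≤ C * 1 := mul_le_mul_of_nonneg_left h2 C.2
      _ = C := mul_one _
  have hC2 : C ≤ C * ex (-g) := by
    have h1 : (1 : ℝ≥0) ≤ ex (-g) := by
      rw [← ex_zero]
      exact ex_le.2 (by linarith)
    calc C = C * 1 := (mul_one _).symm
      _ ≤ C * ex (-g) := mul_le_mul_of_nonneg_left h1 C.2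
  have hΦF : v (ev k X y Φ).snd ≤ C := by
    have hy0 : FB v (C * ex (-g)) 0 y := by
      refine ⟨?_, ?_⟩
      · rw [hyη]
        exact ex_le.2 hη.le
      · rw [ex_zero, mul_one]
        exact hB.y
    have h1 := FB.ev (B := A) hk (fun β => (hXC β).mono hC2) hy0 (g := Φ) (by
      rw [wW_zero]
      intro μ hμ
      exact h.ΦA μ hμ)
    refine h1.2.trans ?_
    rw [mul_assoc, ← ex_add]
    have h2 : ex (-g + A) ≤ 1 := by
      rw [← ex_zero]
      exact ex_le.2 (by linarith)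
    calc C * ex (-g + A) ≤ C * 1 := mul_le_mul_of_nonneg_left h2 C.2
      _ = C := mul_one _
  refine ⟨?_, ?_⟩
  · have h1 := huF.2
    rw [ex_zero, mul_one] at h1
    have h2 : y'.snd = u.snd := by
      rw [h.hy', TrivSqZeroExt.snd_sub]
      have h3 : (algebraMap k (DualNumber K) c).snd = 0 := rfl
      rw [h3, sub_zero]
    rw [h2]
    exact h1
  · rw [h.hz', TrivSqZeroExt.snd_sub, TrivSqZeroExt.snd_sub]
    refine (v.map_sub _ _).trans (max_le ((v.map_sub _ _).trans (max_le hB.z hΦF)) hRF)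

theorem kap_bound (hk : ∀ c : k, c ≠ 0 → v (algebraMap k K c) = 1) (S : Sys k v d ω X y z f)
    {C : ℝ≥0} (hXC : ∀ β, FB v C (ω β) (X (.ofAdd β) : DualNumber K))
    {g A : ℝ} (hg : 0 ≤ g) (hgA : g ≤ A) (hlv : Lv (wX ω) A d f) (hB : Bs v C g y z) :
    v (EV k X y z f).snd ≤ C * ex (((d : ℝ) - 1) * A) := by
  have hA0 : 0 ≤ A := hg.trans hgA
  have hd : 0 < d := S.d_pos hk
  have hroot := S.root hk hA0 hlv
  have hC2 : C ≤ C * ex (-g) := by
    have h1 : (1 : ℝ≥0) ≤ ex (-g) := by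
      rw [← ex_zero]
      exact ex_le.2 (by linarith)
    calc C = C * 1 := (mul_one _).symm
      _ ≤ C * ex (-g) := mul_le_mul_of_nonneg_left h1 C.2
  have hy0 : FB v (C * ex (-g)) 0 y := by
    refine ⟨?_, ?_⟩
    · rw [ex_zero]
      exact S.hy.le
    · rw [ex_zero, mul_one]
      exact hB.y
  have hF : ∀ (j : ℕ) (B : ℝ), f.coeff j ∈ ge (k := k) (wX ω) B →
      FB v (C * ex (-g)) B (ev k X y (f.coeff j)) := by
    intro j B hB
    refine FB.ev hk (fun β => (hXC β).mono hC2) hy0 ?_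
    rw [wW_zero]
    exact hB
  rw [EV_eq_sum _ _ _ _ (Nat.lt_succ_self f.natDegree)]
  have h1 : (∑ j ∈ Finset.range (f.natDegree + 1), ev k X y (f.coeff j) * z ^ j).snd =
      ∑ j ∈ Finset.range (f.natDegree + 1), (ev k X y (f.coeff j) * z ^ j).snd :=
    map_sum (TrivSqZeroExt.sndHom K K) (fun j => ev k X y (f.coeff j) * z ^ j)
        (Finset.range (f.natDegree + 1))
  rw [h1]
  refine v.map_sum_le fun j _ => ?_
  have hzp : ∀ i : ℕ, v (z.fst ^ i) ≤ ex (i * A) := by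
    intro i
    rw [map_pow, ex_nmul]
    exact pow_le_pow_left₀ zero_le hroot i
  have hzs : v (z ^ j).snd ≤ C * ex (((j : ℝ) - 1) * A) := by
    rw [TrivSqZeroExt.snd_pow]
    rcases Nat.eq_zero_or_pos j with h2 | h2
    · subst h2
      simp
    · rw [nsmul_eq_mul, smul_eq_mul, map_mul, map_mul]
      have h3 : ((j : ℝ) - 1) = ((j.pred : ℕ) : ℝ) := by
        rw [Nat.pred_eq_sub_one, Nat.cast_sub h2, Nat.cast_one]
      rw [h3]
      calc v (j : K) * (v (z.fst ^ j.pred) * v z.snd)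
          ≤ 1 * (ex (j.pred * A) * C) := by
            gcongr
            · exact v_nat j
            · exact hzp _
            · exact hB.z
        _ = C * ex (j.pred * A) := by ring
  rw [snd_mul']
  refine (v.map_add _ _).trans (max_le ?_ ?_)
  · rw [map_mul]
    by_cases hj : j < d
    · have h2 := (hF j _ (hlv j)).1
      calc v (ev k X y (f.coeff j)).fst * v (z ^ j).snd
          ≤ ex (((d : ℝ) - j) * A) * (C * ex (((j : ℝ) - 1) * A)) := mul_le_mul' h2 hzs
        _ = C * (ex (((d : ℝ) - j) * A) * ex (((j : ℝ) - 1) * A)) := by ring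
        _ = C * ex (((d : ℝ) - 1) * A) := by
            rw [← ex_add]
            congr 2
            ring
    · push Not at hj
      have h2 := (hF j 0 (S.ge0 j)).1
      rw [ex_zero] at h2
      calc v (ev k X y (f.coeff j)).fst * v (z ^ j).snd
          ≤ 1 * (C * ex (((j : ℝ) - 1) * A)) := mul_le_mul' h2 hzs
        _ ≤ C * ex (((d : ℝ) - 1) * A) := by
            rw [one_mul]
            refine mul_le_mul_of_nonneg_left (ex_le.2 ?_) C.2
            have : (d : ℝ) ≤ j := by exact_mod_cast hj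
            exact mul_le_mul_of_nonneg_right (by linarith) hA0
  · rw [map_mul]
    have h3 : v (z ^ j).fst ≤ ex (j * A) := by
      rw [TrivSqZeroExt.fst_pow]
      exact hzp j
    by_cases hj : j < d
    · have h2 := (hF j _ (hlv j)).2
      calc v (z ^ j).fst * v (ev k X y (f.coeff j)).snd
          ≤ ex (j * A) * (C * ex (-g) * ex (((d : ℝ) - j) * A)) := mul_le_mul' h3 h2
        _ = C * (ex (j * A) * ex (-g) * ex (((d : ℝ) - j) * A)) := by ring
        _ ≤ C * ex (((d : ℝ) - 1) * A) := by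
            rw [← ex_add, ← ex_add]
            refine mul_le_mul_of_nonneg_left (ex_le.2 ?_) C.2
            linarith
    · push Not at hj
      have h2 := (hF j 0 (S.ge0 j)).2
      rw [ex_zero, mul_one] at h2
      calc v (z ^ j).fst * v (ev k X y (f.coeff j)).snd
          ≤ ex (j * A) * (C * ex (-g)) := mul_le_mul' h3 h2
        _ = C * (ex (j * A) * ex (-g)) := by ring
        _ ≤ C * ex (((d : ℝ) - 1) * A) := by
            rw [← ex_add]
            refine mul_le_mul_of_nonneg_left (ex_le.2 ?_) C.2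
            have h4 : (d : ℝ) ≤ j := by exact_mod_cast hj
            have h5 : (d : ℝ) * A ≤ j * A := mul_le_mul_of_nonneg_right h4 hA0
            linarith

/-- The value of the second variable. -/
lemma Sys.val (hk : ∀ c : k, c ≠ 0 → v (algebraMap k K c) = 1)
    (hG : ∀ x : K, x ≠ 0 → ∃ a, v x = ex (ω a))
    (htr : Algebra.trdeg k K = ((Module.finrank ℤ L + 1 : ℕ) : Cardinal))
    (S : Sys k v d ω X y z f) : ∃ γ, 0 < ω γ ∧ v y.fst = ex (ω γ) := by
  have h0 : y.fst ≠ 0 := by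
    intro h
    have h1 : ev k (XK k X) y.fst (Yv k L) = ev k (XK k X) y.fst 0 := by
      rw [map_zero, Yv, ev_single, h]
      simp
    have h2 := S.al hk htr h1
    rw [Yv] at h2
    have h3 : (AddMonoidAlgebra.single ((0 : L), 1) (1 : k)).coeff (0, 1) = 0 := by
      rw [h2]
      rfl
    rw [AddMonoidAlgebra.coeff_single, Finsupp.single_eq_same] at h3
    exact one_ne_zero h3
  obtain ⟨γ, hγ⟩ := hG _ h0
  refine ⟨γ, ?_, hγ⟩
  have h1 := S.hy
  rw [hγ] at h1
  exact ex_lt_one.1 h1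

/-- The order drops. -/
theorem noLow (p : ℕ) [Fact p.Prime] [CharP k p]
    (hk : ∀ c : k, c ≠ 0 → v (algebraMap k K c) = 1)
    (hres : ∀ x : K, v x ≤ 1 → ∃ c : k, v (x - algebraMap k K c) < 1)
    (hG : ∀ x : K, x ≠ 0 → ∃ a, v x = ex (ω a))
    (htr : Algebra.trdeg k K = ((Module.finrank ℤ L + 1 : ℕ) : Cardinal))
    (hden : ∀ x y : ℝ, x < y → ∃ a, x < ω a ∧ ω a < y) (hd : 2 ≤ d)
    (hno : ¬ ∃ (y' z' : DualNumber K) (f' : (AddMonoidAlgebra k (L × ℕ))[X]) (d1 : ℕ), d1 < d ∧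
      Sys k v d1 ω X y' z' f')
    (hR : ∃ (n : ℕ) (y z : DualNumber K) (f : (AddMonoidAlgebra k (L × ℕ))[X]) (A : ℝ),
      Sys k v d ω X y z f ∧ Vtx ω A (n / d.factorial) d f) : False := by
  classical
  have hD0 : (0 : ℝ) < d.factorial := by exact_mod_cast d.factorial_pos
  set n := Nat.find hR with hn
  obtain ⟨y0, z0, f0, A0, hS0, hV0⟩ := Nat.find_spec hR
  rw [← hn] at hV0
  have hmin : ∀ (n' : ℕ) (y z : DualNumber K) (f : (AddMonoidAlgebra k (L × ℕ))[X]) (A : ℝ),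
      Sys k v d ω X y z f → Vtx ω A (n' / d.factorial) d f → n ≤ n' :=
    fun n' y z f A h1 h2 => Nat.find_min' hR ⟨y, z, f, A, h1, h2⟩
  set b : ℝ := n / d.factorial with hb
  -- the steps
  have hstep : ∀ (y z : DualNumber K) (f : (AddMonoidAlgebra k (L × ℕ))[X]) (A : ℝ),
      Sys k v d ω X y z f → Vtx ω A b d f →
      ∃ (y' z' : DualNumber K) (f' : (AddMonoidAlgebra k (L × ℕ))[X]) (A' : ℝ) (γ : L)
        (u : DualNumber K) (Φ R : AddMonoidAlgebra k (L × ℕ)) (c : k),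
        0 < ω γ ∧ v y.fst = ex (ω γ) ∧ A' = A + b * ω γ ∧
        Stp k v d ω X γ A A' b b y z f y' z' f' u Φ R c := by
    intro y z f A S hV
    obtain ⟨γ, hγ, hyγ⟩ := S.val hk hG htr
    obtain ⟨y', z', f', u, Φ, R, c, A', w, n', h1, h2, h3, h4⟩ := stepV p hk hres S hγ hyγ hV
    have h5 := hmin n' y' z' f' A' h4.sys h4.vtx
    have h6 : b ≤ n' / d.factorial := by
      rw [hb, div_le_div_iff_of_pos_right hD0]
      exact_mod_cast h5
    have h7 := h4.bw
    have h8 : (n' : ℝ) / d.factorial = b := by linarith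
    have h9 : w = b := by linarith
    rw [h8, h9] at h4
    rw [h9] at h1
    exact ⟨y', z', f', A', γ, u, Φ, R, c, hγ, hyγ, h1, h4⟩
  by_cases hb1 : b < 1
  · obtain ⟨y', z', f', A', γ, u, Φ, R, c, h1, h2, h3, h4⟩ := hstep y0 z0 f0 A0 hS0 hV0
    exact hno (dropP hk hres hG hden h4.sys h4.vtx hb1 (fun j hj i hi => h4.pure j hj i hi)
      ⟨n, hb⟩)
  push Not at hb1
  have hb0 : 0 < b := by linarith
  -- the sequence
  let T := {s : DualNumber K × DualNumber K × (AddMonoidAlgebra k (L × ℕ))[X] × ℝ //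
    Sys k v d ω X s.1 s.2.1 s.2.2.1 ∧ Vtx ω s.2.2.2 b d s.2.2.1}
  have hT : ∀ s : T, ∃ (s' : T) (γ : L) (u : DualNumber K)
      (Φ R : AddMonoidAlgebra k (L × ℕ)) (c : k), 0 < ω γ ∧ v s.1.1.fst = ex (ω γ) ∧
      s'.1.2.2.2 = s.1.2.2.2 + b * ω γ ∧
      Stp k v d ω X γ s.1.2.2.2 s'.1.2.2.2 b b s.1.1 s.1.2.1 s.1.2.2.1 s'.1.1 s'.1.2.1
        s'.1.2.2.1 u Φ R c := by
    rintro ⟨⟨y, z, f, A⟩, hS, hV⟩
    obtain ⟨y', z', f', A', γ, u, Φ, R, c, h1, h2, h3, h4⟩ := hstep y z f A hS hV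
    exact ⟨⟨(y', z', f', A'), h4.sys, h4.vtx⟩, γ, u, Φ, R, c, h1, h2, h3, h4⟩
  choose nx γ u Φ R c hγ hv hA hSt using hT
  let s : ℕ → T := fun m => nx^[m] ⟨(y0, z0, f0, A0), hS0, hV0⟩
  have hs : ∀ m, s (m + 1) = nx (s m) := fun m => Function.iterate_succ_apply' nx m _
  let Γ : ℕ → L := fun m => ∑ i ∈ Finset.range m, γ (s i)
  have hΓ : ∀ m, Γ (m + 1) = Γ m + γ (s m) := fun m => Finset.sum_range_succ _ _
  have hSt' : ∀ m, Stp k v d ω X (γ (s m)) (s m).1.2.2.2 (s (m + 1)).1.2.2.2 b b (s m).1.1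
      (s m).1.2.1 (s m).1.2.2.1 (s (m + 1)).1.1 (s (m + 1)).1.2.1 (s (m + 1)).1.2.2.1
      (u (s m)) (Φ (s m)) (R (s m)) (c (s m)) := by
    intro m
    rw [hs m]
    exact hSt (s m)
  have hA' : ∀ m, (s (m + 1)).1.2.2.2 = (s m).1.2.2.2 + b * ω (γ (s m)) := by
    intro m
    rw [hs m]
    exact hA (s m)
  have hP : PSeq d ω b (fun m => (s m).1.2.2.1) Γ (fun m => γ (s m)) (fun m => Φ (s m))
      (fun m => R (s m)) (fun m => c (s m)) (fun m => (s m).1.2.2.2) :=
    { inj := hS0.inj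
      Γs := hΓ
      δp := fun m => hγ (s m)
      As := hA'
      A0 := fun m => (s m).2.2.A0
      fs := fun m => (hSt' m).hf'
      lv := fun m => (s m).2.2.lv
      ge0 := fun m => (s m).2.1.ge0
      top := fun m => (s m).2.1.top
      Φ0 := fun m => (hSt' m).Φ0
      ΦA := fun m => (hSt' m).ΦA
      lw := fun m => (hSt' m).lw
      R0 := fun m => (hSt' m).R0
      vert := fun m => (s m).2.2.vert hS0.inj
      low := fun m => Stp.low p (by omega) (s m).2.1.top (hSt' m) hb1 }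
  refine hP.false p d.factorial_pos hb hb0 (by omega) ?_
  -- the bound
  obtain ⟨C1, hC1⟩ := exists_FB hS0.hX
  set C : ℝ≥0 := C1 ⊔ v y0.snd ⊔ v z0.snd ⊔ 1 with hC
  have hCpos : 0 < C := lt_of_lt_of_le one_pos le_sup_right
  have hXC : ∀ β, FB v C (ω β) (X (.ofAdd β) : DualNumber K) := fun β =>
    (hC1 β).mono (le_sup_left.trans (le_sup_left.trans le_sup_left))
  set κ := EV k X y0 z0 f0 with hκ
  have hκs : κ.snd ≠ 0 := by
    intro h
    apply hS0.fne
    exact TrivSqZeroExt.ext hS0.fz h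
  obtain ⟨K0, hK0⟩ := exists_ex (x := v κ.snd) ((Valuation.ne_zero_iff _).2 hκs)
  obtain ⟨C0, hC0⟩ := exists_ex (x := C) hCpos.ne'
  have hEV : ∀ m, EV k X (s m).1.1 (s m).1.2.1 (s m).1.2.2.1 = κ := by
    intro m
    induction m with
    | zero => rfl
    | succ m ih => rw [(hSt' m).evEq, ih]
  have hΓA : ∀ m, 0 ≤ ω (Γ m) ∧ ω (Γ m) ≤ (s m).1.2.2.2 := by
    intro m
    induction m with
    | zero =>
      have h1 : Γ 0 = 0 := Finset.sum_range_zero _
      rw [h1, map_zero]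
      exact ⟨le_rfl, (s 0).2.2.A0.le⟩
    | succ m ih =>
      rw [hΓ, map_add, hA' m]
      have h1 := hγ (s m)
      have h2 : ω (γ (s m)) ≤ b * ω (γ (s m)) := by nlinarith
      exact ⟨by linarith [ih.1], by linarith [ih.2]⟩
  have hB : ∀ m, Bs v C (ω (Γ m)) (s m).1.1 (s m).1.2.1 := by
    intro m
    induction m with
    | zero =>
      have h1 : Γ 0 = 0 := Finset.sum_range_zero _
      rw [h1, map_zero]
      refine ⟨?_, ?_⟩
      · rw [neg_zero, ex_zero, mul_one]
        exact le_sup_right.trans (le_sup_left.trans le_sup_left)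
      · exact le_sup_right.trans le_sup_left
    | succ m ih =>
      have h1 := (hΓA (m + 1)).2
      rw [hΓ, map_add] at h1
      rw [hΓ, map_add]
      exact ih.step hk hXC (hγ (s m)) (hv (s m)) (hSt' m) (hΓA m).1 (hΓA m).2 h1
  refine ⟨(K0 - C0) / ((d : ℝ) - 1), fun m => ?_⟩
  have hd1 : (0 : ℝ) < (d : ℝ) - 1 := by
    have : (2 : ℝ) ≤ d := by exact_mod_cast hd
    linarith
  rw [le_div_iff₀ hd1]
  have h1 := kap_bound hk (s m).2.1 hXC (hΓA m).1 (hΓA m).2 (s m).2.2.lv (hB m)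
  rw [hEV m, hK0, hC0, ← ex_add, ex_le] at h1
  have h2 := mul_le_mul_of_nonneg_left (hΓA m).2 hd1.le
  linarith

/-- The first vertex. -/
theorem firstV (p : ℕ) [Fact p.Prime] [CharP k p]
    (hk : ∀ c : k, c ≠ 0 → v (algebraMap k K c) = 1)
    (hres : ∀ x : K, v x ≤ 1 → ∃ c : k, v (x - algebraMap k K c) < 1)
    (hG : ∀ x : K, x ≠ 0 → ∃ a, v x = ex (ω a))
    (htr : Algebra.trdeg k K = ((Module.finrank ℤ L + 1 : ℕ) : Cardinal))
    (hd : 2 ≤ d) (S : Sys k v d ω X y z f) :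
    ∃ (n : ℕ) (y z : DualNumber K) (f : (AddMonoidAlgebra k (L × ℕ))[X]) (A : ℝ),
      Sys k v d ω X y z f ∧ Vtx ω A (n / d.factorial) d f := by
  classical
  obtain ⟨γ, hη, hyη⟩ := S.val hk hG htr
  have hf0W : ∀ j, f.coeff j ∈ ge (k := k) (wW ω (ω γ)) 0 := by
    intro j μ hμ
    have h1 := S.ge0 j μ hμ
    rw [wX_apply] at h1
    rw [wW_apply]
    positivity
  obtain ⟨Bd, hBd⟩ := level_bound hk S.hX hη hyη S.hz hd hf0W S.top
    (sub_single_gt S.inj hη (S.ge0 d)) S.fz S.fne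
  obtain ⟨y', z', f', u, Φ, R, c, A', w, n, -, -, h1⟩ :=
    core1 p hk hres S hη hyη le_rfl le_rfl (A := 0) (b := 0) (by
      intro j
      rw [mul_zero]
      exact S.ge0 j) (by
      intro j _
      rw [mul_zero]
      exact og_nonpos le_rfl _) Bd (fun Φ hΦ _ _ A' h => hBd Φ hΦ A' h)
      (fun _ _ => True) (by
      intro Φ hΦ hs A' hA' hLw hatt
      set f1 := taylor Φ f with hf1
      let F : Finset (L × ℕ) := (Finset.range (f1.natDegree + 1)).biUnion
        fun j => (f1.coeff j).coeff.support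
      have hF : ∀ j μ, (f1.coeff j).coeff μ ≠ 0 → μ ∈ F := by
        intro j μ hμ
        refine Finset.mem_biUnion.2 ⟨j, ?_, Finsupp.mem_support_iff.2 hμ⟩
        rw [Finset.mem_range]
        by_contra h
        apply hμ
        rw [coeff_eq_zero_of_natDegree_lt (by omega)]
        rfl
      refine ⟨(F.sup Prod.snd : ℕ), Nat.cast_nonneg _, trivial, ?_⟩
      intro j μ hj hμ _
      have h1 : μ.2 ≤ F.sup Prod.snd := Finset.le_sup (f := Prod.snd) (hF j μ hμ)
      have h2 : (1 : ℝ) ≤ (d : ℝ) - j := by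
        have h3 : j + 1 ≤ d := hj
        have h4 : ((j : ℝ) + 1) ≤ d := by exact_mod_cast h3
        linarith
      calc (μ.2 : ℝ) ≤ (F.sup Prod.snd : ℕ) := by exact_mod_cast h1
        _ = 1 * (F.sup Prod.snd : ℕ) := (one_mul _).symm
        _ ≤ ((d : ℝ) - j) * (F.sup Prod.snd : ℕ) :=
          mul_le_mul_of_nonneg_right h2 (Nat.cast_nonneg _))
  exact ⟨n, y', z', f', A', h1.sys, h1.vtx⟩

/-- The first part: there is a hypersurface of order one. -/
theorem part1' (p : ℕ) [Fact p.Prime] [CharP k p]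
    (hk : ∀ c : k, c ≠ 0 → v (algebraMap k K c) = 1)
    (hres : ∀ x : K, v x ≤ 1 → ∃ c : k, v (x - algebraMap k K c) < 1)
    (hG : ∀ x : K, x ≠ 0 → ∃ a, v x = ex (ω a))
    (htr : Algebra.trdeg k K = ((Module.finrank ℤ L + 1 : ℕ) : Cardinal))
    (hden : ∀ x y : ℝ, x < y → ∃ a, x < ω a ∧ ω a < y)
    (d : ℕ) : ∀ {y z : DualNumber K} {f : (AddMonoidAlgebra k (L × ℕ))[X]}
    (S : Sys k v d ω X y z f),
    ∃ (y' z' : DualNumber K) (f' : (AddMonoidAlgebra k (L × ℕ))[X]),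
      Sys k v 1 ω X y' z' f' := by
  induction d using Nat.strong_induction_on with
  | _ d ih =>
    intro y z f S
    have hd := S.d_pos hk
    by_cases hd1 : d = 1
    · subst hd1
      exact ⟨y, z, f, S⟩
    · have hd2 : 2 ≤ d := by omega
      by_contra hcon
      refine noLow p hk hres hG htr hden hd2 ?_ (firstV p hk hres hG htr hd2 S)
      rintro ⟨y', z', f', d1, h1, h2⟩
      exact hcon (ih d1 h1 h2)

end bnd

end Pool.Agent.H893
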