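import Pool.Agent.H893.N14

/-!
# Log uniformization: the finitely generated case, continued
-/

set_option autoImplicit false
set_option linter.unusedVariables false
set_option linter.unusedSectionVars false

universe u

namespace Pool.Agent.H893

open Polynomial
open Pool.Agent.W418.LU2
open Pool.Agent.H176.DT (Mod SU PP St)
open scoped NNReal

section rank

lemma finrank_eq {M : Type*} [AddCommGroup M] [Module.Finite ℤ M] [Module.Free ℤ M]
    (l : M →+ ℝ) (hl : Function.Injective l) {r : ℕ} (gx : Fin r → M)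
    (hli : LinearIndependent ℤ gx)
    (htor : ∀ a : M, ∃ n : ℤ, n ≠ 0 ∧ n • a ∈ Submodule.span ℤ (Set.range gx)) :
    Module.finrank ℤ M = r := by
  classical
  apply le_antisymm
  · set W := Submodule.span ℤ (Set.range gx) with hW
    obtain ⟨N, hN0, hN⟩ : ∃ N : ℤ, N ≠ 0 ∧ ∀ a : M, N • a ∈ W := by
      let b := Module.finBasis ℤ M
      choose n hn hnW using fun i => htor (b i)
      refine ⟨∏ i, n i, Finset.prod_ne_zero_iff.2 fun i _ => hn i, fun a => ?_⟩
      rw [← b.sum_repr a, Finset.smul_sum]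
      refine Submodule.sum_mem _ fun i _ => ?_
      rw [smul_comm]
      refine W.smul_mem _ ?_
      rw [← Finset.prod_erase_mul _ _ (Finset.mem_univ i), mul_smul]
      exact W.smul_mem _ (hnW i)
    let F : M →ₗ[ℤ] W :=
      { toFun := fun a => ⟨N • a, hN a⟩
        map_add' := fun a b => Subtype.ext (smul_add N a b)
        map_smul' := fun c a => Subtype.ext (smul_comm N c a) }
    have hF : Function.Injective F := by
      intro a b h
      have h1 : N • a = N • b := congrArg Subtype.val h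
      apply hl
      have h2 := congrArg l h1
      rw [map_zsmul, map_zsmul, zsmul_eq_mul, zsmul_eq_mul] at h2
      exact mul_left_cancel₀ (by exact_mod_cast hN0) h2
    have h1 := LinearMap.finrank_le_finrank_of_injective hF
    have h2 : Module.finrank ℤ W ≤ Fintype.card (Fin r) := finrank_range_le_card gx
    rw [Fintype.card_fin] at h2
    exact h1.trans h2
  · have h1 := hli.fintype_card_le_finrank
    rwa [Fintype.card_fin] at h1

end rank

section basis

variable {K : Type u} [Field K]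

/-- The logarithm on the value group. -/
noncomputable def lgv (v : Valuation K ℝ≥0) : Additive (valGroup v) →+ ℝ where
  toFun a := Real.log ((((Additive.toMul a : valGroup v) : ℝ≥0ˣ) : ℝ≥0) : ℝ)
  map_zero' := by simp
  map_add' := by
    intro a b
    rw [toMul_add, Subgroup.coe_mul, Units.val_mul, NNReal.coe_mul, Real.log_mul]
    · exact NNReal.coe_ne_zero.2 (Units.ne_zero _)
    · exact NNReal.coe_ne_zero.2 (Units.ne_zero _)

lemma lgv_inj (v : Valuation K ℝ≥0) : Function.Injective (lgv v) := by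
  intro a b h
  change Real.log ((((Additive.toMul a : valGroup v) : ℝ≥0ˣ) : ℝ≥0) : ℝ) =
    Real.log ((((Additive.toMul b : valGroup v) : ℝ≥0ˣ) : ℝ≥0) : ℝ) at h
  have hp : ∀ a : Additive (valGroup v),
      0 < ((((Additive.toMul a : valGroup v) : ℝ≥0ˣ) : ℝ≥0) : ℝ) := fun a =>
    NNReal.coe_pos.2 (zero_lt_iff.2 (Units.ne_zero _))
  have h1 := Real.log_injOn_pos (hp a) (hp b) h
  apply Additive.toMul.injective
  apply Subtype.ext
  apply Units.ext
  exact NNReal.coe_injective h1

/-- The class of an element. -/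
noncomputable def cls (v : Valuation K ℝ≥0) : Kˣ →* valGroup v :=
  (Units.map (v.toMonoidWithZeroHom : K →* ℝ≥0)).rangeRestrict

lemma cls_val (v : Valuation K ℝ≥0) (u : Kˣ) : (((cls v u : valGroup v) : ℝ≥0ˣ) : ℝ≥0) = v (u : K) :=
  rfl

lemma sum_cls (v : Valuation K ℝ≥0) {r : ℕ} (u : Fin r → Kˣ) (m : Fin r → ℤ) :
    (((Additive.toMul (∑ i, m i • Additive.ofMul (cls v (u i))) : valGroup v) : ℝ≥0ˣ) : ℝ≥0) =
      ∏ i, v (u i : K) ^ m i := by
  have h1 : Additive.toMul (∑ i, m i • Additive.ofMul (cls v (u i))) =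
      cls v (∏ i, u i ^ m i) := by
    rw [toMul_sum, map_prod]
    refine Finset.prod_congr rfl fun i _ => ?_
    rw [toMul_zsmul, toMul_ofMul, map_zpow]
  rw [h1, cls_val, Units.coe_prod, map_prod]
  refine Finset.prod_congr rfl fun i _ => ?_
  rw [Units.val_zpow_eq_zpow_val, map_zpow₀]

theorem exists_basis (v : Valuation K ℝ≥0) (hFG : (valGroup v).FG) {r : ℕ} (x : Fin r → K)
    (hx0 : ∀ i, x i ≠ 0) (hind : ∀ m : Fin r → ℤ, ∏ i, v (x i) ^ m i = 1 → m = 0)
    (hrr : ∀ z : K, z ≠ 0 → ∃ n : ℕ, n ≠ 0 ∧ ∃ m : Fin r → ℤ, v z ^ n = ∏ i, v (x i) ^ m i) :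
    ∃ x' : Fin r → K, (∀ i, x' i ≠ 0) ∧ (∀ m : Fin r → ℤ, ∏ i, v (x' i) ^ m i = 1 → m = 0) ∧
      ∀ z : K, z ≠ 0 → ∃ m : Fin r → ℤ, v z = ∏ i, v (x' i) ^ m i := by
  classical
  have hfg : Group.FG (valGroup v) := (Group.fg_iff_subgroup_fg _).2 hFG
  have hfin : Module.Finite ℤ (Additive (valGroup v)) :=
    Module.Finite.iff_addGroup_fg.2 inferInstance
  have htf : Module.IsTorsionFree ℤ (Additive (valGroup v)) :=
    (lgv_inj v).moduleIsTorsionFree (lgv v) fun n a => by
      rw [map_zsmul]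
  have hfree : Module.Free ℤ (Additive (valGroup v)) := inferInstance
  -- the elements
  have hval : ∀ a b : Additive (valGroup v),
      (((Additive.toMul a : valGroup v) : ℝ≥0ˣ) : ℝ≥0) =
        (((Additive.toMul b : valGroup v) : ℝ≥0ˣ) : ℝ≥0) → a = b := by
    intro a b h
    apply Additive.toMul.injective
    apply Subtype.ext
    exact Units.ext h
  set u : Fin r → Kˣ := fun i => Units.mk0 (x i) (hx0 i) with hu
  set gx : Fin r → Additive (valGroup v) := fun i => Additive.ofMul (cls v (u i)) with hgx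
  have hli : LinearIndependent ℤ gx := by
    rw [Fintype.linearIndependent_iff]
    intro m hm i
    have h1 := sum_cls v u m
    have h2 : ∑ i, m i • Additive.ofMul (cls v (u i)) = 0 := hm
    rw [h2] at h1
    have h3 : m = 0 := hind m h1.symm
    rw [h3]
    rfl
  have hrank : Module.finrank ℤ (Additive (valGroup v)) = r := by
    refine finrank_eq (lgv v) (lgv_inj v) gx hli fun a => ?_
    obtain ⟨t, ht⟩ : ∃ t : Kˣ, Units.map (v.toMonoidWithZeroHom : K →* ℝ≥0) t =
        ((Additive.toMul a : valGroup v) : ℝ≥0ˣ) := (Additive.toMul a).2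
    obtain ⟨n, hn, m, hm⟩ := hrr (t : K) t.ne_zero
    refine ⟨n, by exact_mod_cast hn, ?_⟩
    have h1 : (n : ℤ) • a = ∑ i, m i • gx i := by
      apply hval
      rw [hgx, sum_cls, natCast_zsmul, toMul_nsmul, Subgroup.coe_pow,
        Units.val_pow_eq_pow_val, ← ht]
      exact hm
    rw [h1]
    exact Submodule.sum_mem _ fun i _ =>
      Submodule.smul_mem _ _ (Submodule.subset_span ⟨i, rfl⟩)
  let b := (Module.finBasis ℤ (Additive (valGroup v))).reindex (finCongr hrank)
  have hex : ∀ i, ∃ t : Kˣ, Additive.ofMul (cls v t) = b i := by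
    intro i
    obtain ⟨t, ht⟩ : ∃ t : Kˣ, Units.map (v.toMonoidWithZeroHom : K →* ℝ≥0) t =
        ((Additive.toMul (b i) : valGroup v) : ℝ≥0ˣ) := (Additive.toMul (b i)).2
    exact ⟨t, hval _ _ (congrArg Units.val ht)⟩
  choose t ht using hex
  refine ⟨fun i => (t i : K), fun i => (t i).ne_zero, ?_, ?_⟩
  · intro m hm
    have h1 : ∑ i, m i • b i = 0 := by
      apply hval
      have h2 := sum_cls v t m
      simp only [ht] at h2
      rw [h2]
      exact hm
    funext i
    exact Fintype.linearIndependent_iff.1 b.linearIndependent m h1 i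
  · intro z hz
    refine ⟨fun i => b.repr (Additive.ofMul (cls v (Units.mk0 z hz))) i, ?_⟩
    rw [← sum_cls v t]
    simp only [ht]
    rw [b.sum_repr]
    rfl

end basis

theorem main_su' {k K : Type u} [Field k] (p : ℕ) [Fact p.Prime] [CharP k p]
    [Field K] [Algebra k K] [Algebra.EssFiniteType k K] (v : Valuation K ℝ≥0)
    (hk : ∀ c : k, c ≠ 0 → v (algebraMap k K c) = 1)
    (hres : ∀ x : K, v x ≤ 1 → ∃ c : k, v (x - algebraMap k K c) < 1)
    (r : ℕ) (hr : 2 ≤ r) (htr : Algebra.trdeg k K = ((r + 1 : ℕ) : Cardinal))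
    (x : Fin r → K) (hx0 : ∀ i, x i ≠ 0)
    (hind : ∀ m : Fin r → ℤ, ∏ i, v (x i) ^ m i = 1 → m = 0)
    (hrr : ∀ z : K, z ≠ 0 → ∃ n : ℕ, n ≠ 0 ∧ ∃ m : Fin r → ℤ, v z ^ n = ∏ i, v (x i) ^ m i)
    (hFG : (valGroup v).FG) :
    ∃ U : Set K, U.Finite ∧
      Mod v.valuationSubring (Subring.closure (Set.range (algebraMap k K) ∪ U)) ∧
      SU v.valuationSubring (Subring.closure (Set.range (algebraMap k K) ∪ U)) := by
  have hp1 : ExpChar k p := inferInstance
  have htr' : Algebra.trdeg k K = ((Module.finrank ℤ (Fin r → ℤ) + 1 : ℕ) : Cardinal) := by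
    rw [Module.finrank_fin_fun]
    exact htr
  obtain ⟨x', hx0', hind', hgr⟩ := exists_basis v hFG x hx0 hind hrr
  obtain ⟨d, ω, X, y, z, f, S, hGr⟩ := part0' p hk hres (by omega) htr x' hx0' hind' hgr
  obtain ⟨y', z', f', S'⟩ := part1' p hk hres hGr htr' (dense_of_rank hr ω S.inj) d S
  exact part2' p hk hres hGr htr' S'

theorem main' {k K : Type u} [Field k] (p : ℕ) [Fact p.Prime] [CharP k p]
    [Field K] [Algebra k K] [Algebra.EssFiniteType k K] (v : Valuation K ℝ≥0)
    (hk : ∀ c : k, c ≠ 0 → v (algebraMap k K c) = 1)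
    (hres : ∀ x : K, v x ≤ 1 → ∃ c : k, v (x - algebraMap k K c) < 1)
    (r : ℕ) (hr : 2 ≤ r) (htr : Algebra.trdeg k K = ((r + 1 : ℕ) : Cardinal))
    (x : Fin r → K) (hx0 : ∀ i, x i ≠ 0)
    (hind : ∀ m : Fin r → ℤ, ∏ i, v (x i) ^ m i = 1 → m = 0)
    (hrr : ∀ z : K, z ≠ 0 → ∃ n : ℕ, n ≠ 0 ∧ ∃ m : Fin r → ℤ, v z ^ n = ∏ i, v (x i) ^ m i)
    (hFG : (valGroup v).FG) (G : Set K) (hG : G.Finite) (A : Subring K)
    (hA : A = Subring.closure (Set.range (algebraMap k K) ∪ G))
    (hAM : Mod v.valuationSubring A) : LogUnif v.valuationSubring A := by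
  obtain ⟨U, hU, hM, hSU⟩ := main_su' p v hk hres r hr htr x hx0 hind hrr hFG
  have hR : ((algebraMap k K).range : Set K) = Set.range (algebraMap k K) := rfl
  rw [← hR] at hM hSU hA
  exact fin_of_su v.valuationSubring (algebraMap k K).range U hU hM hSU A G hG hA hAM

/-- Strong uniformization of an affine model: the value group can be arbitrary. -/
theorem su_res {k K : Type u} [Field k] (p : ℕ) [Fact p.Prime] [CharP k p]
    [Field K] [Algebra k K] [Algebra.EssFiniteType k K] (v : Valuation K ℝ≥0)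
    (hk : ∀ c : k, c ≠ 0 → v (algebraMap k K c) = 1)
    (hres : ∀ x : K, v x ≤ 1 → ∃ c : k, v (x - algebraMap k K c) < 1)
    (r : ℕ) (hr : 2 ≤ r) (htr : Algebra.trdeg k K = ((r + 1 : ℕ) : Cardinal))
    (x : Fin r → K) (hx0 : ∀ i, x i ≠ 0)
    (hind : ∀ m : Fin r → ℤ, ∏ i, v (x i) ^ m i = 1 → m = 0)
    (hrr : ∀ z : K, z ≠ 0 → ∃ n : ℕ, n ≠ 0 ∧ ∃ m : Fin r → ℤ, v z ^ n = ∏ i, v (x i) ^ m i) :
    ∃ U : Set K, U.Finite ∧
      Mod v.valuationSubring (Subring.closure (Set.range (algebraMap k K) ∪ U)) ∧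
      SU v.valuationSubring (Subring.closure (Set.range (algebraMap k K) ∪ U)) := by
  by_cases hFG : (valGroup v).FG
  · exact main_su' p v hk hres r hr htr x hx0 hind hrr hFG
  · exact main_su p v hk hres r hr htr x hx0 hind hrr hFG

end Pool.Agent.H893
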