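import Pool.Agent.H893.N1

/-!
# Supports and translations
-/

set_option autoImplicit false
set_option linter.unusedVariables false
set_option linter.unusedSectionVars false

namespace Pool.Agent.H893

open Polynomial
open scoped NNReal

section cl

variable {k M : Type*} [Field k] [AddCommMonoid M]

/-- The exponents of `f` belong to `N`. -/
def SuN (N : ℕ → M → Prop) (f : (AddMonoidAlgebra k M)[X]) : Prop :=
  ∀ (j : ℕ) (μ : M), (f.coeff j).coeff μ ≠ 0 → N j μ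

lemma coeff_natCast_mul_ne {n : ℕ} {g : AddMonoidAlgebra k M} {μ : M}
    (h : ((n : AddMonoidAlgebra k M) * g).coeff μ ≠ 0) : (n : k) ≠ 0 ∧ g.coeff μ ≠ 0 := by
  have h1 : (n : AddMonoidAlgebra k M) * g = (n : k) • g := by
    rw [Algebra.smul_def, map_natCast]
  rw [h1, AddMonoidAlgebra.coeff_smul, Finsupp.smul_apply, smul_eq_mul] at h
  exact ⟨left_ne_zero_of_mul h, right_ne_zero_of_mul h⟩

lemma mul_pow_supp {N : ℕ → M → Prop} {P : M → Prop}
    (hcl : ∀ j μ ν, N (j + 1) μ → P ν → N j (μ + ν)) {Φ : AddMonoidAlgebra k M}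
    (hΦ : ∀ ν, Φ.coeff ν ≠ 0 → P ν) (j : ℕ) : ∀ (i : ℕ) (g : AddMonoidAlgebra k M),
    (∀ μ, g.coeff μ ≠ 0 → N (j + i) μ) → ∀ μ, (g * Φ ^ i).coeff μ ≠ 0 → N j μ := by
  intro i
  induction i with
  | zero =>
    intro g hg μ hμ
    rw [pow_zero, mul_one] at hμ
    exact hg μ hμ
  | succ i ih =>
    intro g hg μ hμ
    rw [pow_succ', ← mul_assoc] at hμ
    refine ih (g * Φ) ?_ μ hμ
    intro ν hν
    obtain ⟨a, b, ha, hb, rfl⟩ := coeff_mul_ne hν
    exact hcl _ _ _ (hg a ha) (hΦ b hb)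

/-- The exponents after a translation. -/
lemma SuN.taylor {N : ℕ → M → Prop} {P : M → Prop}
    (hcl : ∀ j μ ν, N (j + 1) μ → P ν → N j (μ + ν)) {Φ : AddMonoidAlgebra k M}
    (hΦ : ∀ ν, Φ.coeff ν ≠ 0 → P ν) {f : (AddMonoidAlgebra k M)[X]} (hf : SuN N f) :
    SuN N (taylor Φ f) := by
  classical
  intro j μ hμ
  rw [coeff_taylor f Φ j _ (Nat.lt_succ_self _), AddMonoidAlgebra.coeff_sum,
    Finsupp.finsetSum_apply] at hμ
  obtain ⟨i, -, h1⟩ := Finset.exists_ne_zero_of_sum_ne_zero hμ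
  obtain ⟨h2, h3⟩ := coeff_natCast_mul_ne h1
  have hij : j ≤ i := by
    by_contra hcon
    push Not at hcon
    rw [Nat.choose_eq_zero_of_lt hcon, Nat.cast_zero] at h2
    exact h2 rfl
  refine mul_pow_supp hcl hΦ j (i - j) (f.coeff i) ?_ μ h3
  intro ν hν
  rw [Nat.add_sub_cancel' hij]
  exact hf i ν hν

/-- The part of weight less than `B`. -/
noncomputable def lowp (w : M → ℝ) (B : ℝ) (Φ : AddMonoidAlgebra k M) : AddMonoidAlgebra k M := by
  classical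
  exact ∑ μ ∈ Φ.coeff.support.filter fun μ => w μ < B, AddMonoidAlgebra.single μ (Φ.coeff μ)

lemma sum_single_coeff (s : Finset M) (c : M → k) (μ : M) [Decidable (μ ∈ s)] :
    (∑ ν ∈ s, AddMonoidAlgebra.single ν (c ν) : AddMonoidAlgebra k M).coeff μ =
      if μ ∈ s then c μ else 0 := by
  classical
  rw [AddMonoidAlgebra.coeff_sum, Finsupp.finsetSum_apply]
  simp only [AddMonoidAlgebra.coeff_single, Finsupp.single_apply]
  rw [Finset.sum_ite_eq']
  split_ifs <;> rfl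

lemma lowp_coeff (w : M → ℝ) (B : ℝ) (Φ : AddMonoidAlgebra k M) (μ : M) :
    (w μ < B → (lowp w B Φ).coeff μ = Φ.coeff μ) ∧ (B ≤ w μ → (lowp w B Φ).coeff μ = 0) := by
  classical
  unfold lowp
  rw [sum_single_coeff]
  constructor
  · intro h
    split_ifs with h1
    · rfl
    · by_contra h2
      apply h1
      rw [Finset.mem_filter]
      refine ⟨?_, h⟩
      rw [Finsupp.mem_support_iff]
      exact Ne.symm h2
  · intro h
    rw [if_neg]
    rw [Finset.mem_filter]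
    rintro ⟨-, h1⟩
    exact absurd h1 (not_lt.2 h)

lemma lowp_ne {w : M → ℝ} {B : ℝ} {Φ : AddMonoidAlgebra k M} {μ : M}
    (h : (lowp w B Φ).coeff μ ≠ 0) : Φ.coeff μ ≠ 0 ∧ w μ < B := by
  by_cases h1 : w μ < B
  · rw [(lowp_coeff w B Φ μ).1 h1] at h
    exact ⟨h, h1⟩
  · exact absurd ((lowp_coeff w B Φ μ).2 (not_lt.1 h1)) h

lemma sub_lowp_ne {w : M → ℝ} {B : ℝ} {Φ : AddMonoidAlgebra k M} {μ : M}
    (h : (Φ - lowp w B Φ).coeff μ ≠ 0) : Φ.coeff μ ≠ 0 ∧ B ≤ w μ := by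
  rw [AddMonoidAlgebra.coeff_sub, Finsupp.sub_apply] at h
  by_cases h1 : w μ < B
  · rw [(lowp_coeff w B Φ μ).1 h1, sub_self] at h
    exact absurd rfl h
  · rw [(lowp_coeff w B Φ μ).2 (not_lt.1 h1), sub_zero] at h
    exact ⟨h, not_lt.1 h1⟩

end cl

section root

variable {k M : Type*} [Field k] [AddCommMonoid M]

/-- The exponents of the translations are roots of exponents. -/
theorem rootN (p : ℕ) [Fact p.Prime] [CharP k p] {w : M →+ ℝ} (e : ℕ)
    (hinj : Function.Injective fun μ : M => (p ^ e) • μ) {d d' : ℕ} (hd : d = p ^ e * d')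
    (hd' : ¬ p ∣ d') (hd0 : 0 < d) {f : (AddMonoidAlgebra k M)[X]} {c0 : k} (hc0 : c0 ≠ 0)
    (hfd : f.coeff d - AddMonoidAlgebra.single 0 c0 ∈ gt (k := k) w 0)
    (hf0 : ∀ j, f.coeff j ∈ ge (k := k) w 0) {Φ : AddMonoidAlgebra k M} {A' : ℝ}
    (hΦ : ∀ μ, Φ.coeff μ ≠ 0 → 0 < w μ ∧ w μ < A') (hlv : Lw w A' d (taylor Φ f))
    {N : ℕ → M → Prop} (hfN : SuN N f) {P : M → Prop}
    (hP : ∀ μ, Φ.coeff μ ≠ 0 → N (d - p ^ e) ((p ^ e) • μ) → P μ)
    (hcl : ∀ j μ ν, N (j + 1) μ → P ν → N j (μ + ν)) :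
    (∀ μ, Φ.coeff μ ≠ 0 → P μ) ∧ SuN N (taylor Φ f) := by
  classical
  have hp : p.Prime := Fact.out
  set q := p ^ e with hq
  have hq0 : 0 < q := pow_pos hp.pos e
  have hd'0 : 0 < d' := by
    rcases Nat.eq_zero_or_pos d' with h1 | h1
    · rw [h1, mul_zero] at hd
      omega
    · exact h1
  have hqd : q ≤ d := by
    rw [hd]
    exact Nat.le_mul_of_pos_right _ hd'0
  have hd'k : ((d' : ℕ) : k) ≠ 0 := by
    rw [Ne, CharP.cast_eq_zero_iff k p]
    exact hd'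
  suffices h : ∀ μ, Φ.coeff μ ≠ 0 → P μ from ⟨h, hfN.taylor hcl h⟩
  by_contra hcon
  push Not at hcon
  obtain ⟨μ1, hμ1, hμ1P⟩ := hcon
  let Bad : Finset M := Φ.coeff.support.filter fun μ => ¬ P μ
  have hBad : Bad.Nonempty := ⟨μ1, Finset.mem_filter.2 ⟨Finsupp.mem_support_iff.2 hμ1, hμ1P⟩⟩
  obtain ⟨μ0, hμ0, hmin⟩ := Finset.exists_min_image Bad w hBad
  obtain ⟨hμ0s, hμ0P⟩ := Finset.mem_filter.1 hμ0
  have hμ0c := Finsupp.mem_support_iff.1 hμ0s
  set B := w μ0 with hB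
  have hB0 : 0 < B := (hΦ μ0 hμ0c).1
  have hBA : B < A' := (hΦ μ0 hμ0c).2
  set Ψ := lowp w B Φ with hΨ
  have hΨP : ∀ μ, Ψ.coeff μ ≠ 0 → P μ := by
    intro μ hμ
    obtain ⟨h1, h2⟩ := lowp_ne hμ
    by_contra h3
    have h4 := hmin μ (Finset.mem_filter.2 ⟨Finsupp.mem_support_iff.2 h1, h3⟩)
    linarith
  set Θ := Φ - Ψ with hΘ
  have hΘge : Θ ∈ ge (k := k) w B := fun μ hμ => (sub_lowp_ne hμ).2
  have hΦge : Φ ∈ ge (k := k) w 0 := fun μ hμ => (hΦ μ hμ).1.le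
  have hΦgt : Φ ∈ gt (k := k) w 0 := fun μ hμ => (hΦ μ hμ).1
  have hgN : SuN N (taylor Ψ f) := hfN.taylor hcl hΨP
  set g := taylor Ψ f with hg
  set h := taylor Φ f with hh
  have hgh : g = taylor (-Θ) h := by
    rw [hg, hh, taylor_taylor, hΘ]
    congr 1
    ring
  have hnegge : -Θ ∈ ge (k := k) w B := Submodule.neg_mem _ hΘge
  have hhge : ∀ j, h.coeff j ∈ ge (k := k) w 0 := ge_zero_taylor hf0 hΦge
  have hhd : h.coeff d - AddMonoidAlgebra.single 0 c0 ∈ gt (k := k) w 0 := by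
    have h1 := coeff_taylor_top le_rfl hf0 hΦgt d
    have h2 := Submodule.add_mem _ h1 hfd
    rwa [sub_add_sub_cancel] at h2
  have hBw : w (q • μ0) = q * B := by rw [map_nsmul, nsmul_eq_mul]
  have hvan : ∀ t ∈ gt (k := k) w (q * B), AddMonoidAlgebra.coeff t (q • μ0) = 0 := by
    intro t ht
    by_contra h1
    have h2 := ht _ h1
    rw [hBw] at h2
    exact lt_irrefl _ h2
  apply hμ0P
  apply hP μ0 hμ0c
  apply hgN
  rw [hgh, coeff_taylor h (-Θ) (d - q) (h.natDegree + d + 1) (by omega),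
      AddMonoidAlgebra.coeff_sum, Finsupp.finsetSum_apply, Finset.sum_eq_single_of_mem d
        (Finset.mem_range.2 (by omega))]
  · have h2 : ((d.choose (d - q) : ℕ) : AddMonoidAlgebra k M) =
        algebraMap k _ ((d' : ℕ) : k) := by
      have h3 : ((d.choose (d - q) : ℕ) : k) = ((d' : ℕ) : k) := by
        rw [Nat.choose_symm hqd, hd, choose_q p e d', if_pos dvd_rfl,
          Nat.div_self hq0, Nat.choose_one_right]
      rw [← h3, map_natCast]
    have h3 : d - (d - q) = q := by omega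
    rw [h2, h3, ← Algebra.smul_def, AddMonoidAlgebra.coeff_smul, Finsupp.smul_apply,
      smul_eq_mul]
    refine mul_ne_zero hd'k ?_
    have h5 : h.coeff d * (-Θ) ^ q = c0 • (-Θ) ^ q +
        (h.coeff d - AddMonoidAlgebra.single 0 c0) * (-Θ) ^ q := by
      have h6 : AddMonoidAlgebra.single (0 : M) c0 = algebraMap k (AddMonoidAlgebra k M) c0 := by
        rw [AddMonoidAlgebra.coe_algebraMap]
        rfl
      rw [sub_mul, Algebra.smul_def, h6]
      ring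
    have h6 := gt_mul hhd (ge_pow hnegge q)
    rw [zero_add] at h6
    have h7 := hvan _ h6
    rw [h5, AddMonoidAlgebra.coeff_add, Finsupp.add_apply, h7, add_zero,
      AddMonoidAlgebra.coeff_smul, Finsupp.smul_apply,
      smul_eq_mul, hq, coeff_pow_frob p e hinj]
    refine mul_ne_zero hc0 (pow_ne_zero _ ?_)
    rw [AddMonoidAlgebra.coeff_neg, Finsupp.neg_apply, hΘ, AddMonoidAlgebra.coeff_sub,
      Finsupp.sub_apply, (lowp_coeff w B Φ μ0).2 le_rfl, sub_zero]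
    exact neg_ne_zero.2 hμ0c
  · intro i _ hid
    by_cases hij : i < d - q
    · rw [Nat.choose_eq_zero_of_lt hij]
      simp
    · push Not at hij
      apply hvan
      apply natCast_mul_mem_gt
      have h2 : ((i - (d - q) : ℕ) : ℝ) = i - d + q := by
        rw [Nat.cast_sub hij, Nat.cast_sub hqd]
        ring
      rcases lt_or_gt_of_ne hid with h3 | h3
      · refine gt_of_ge ?_ (ge_mul (hlv i h3) (ge_pow hnegge (i - (d - q))))
        rw [h2]
        have h4 : (i : ℝ) < d := by exact_mod_cast h3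
        nlinarith
      · refine gt_of_ge ?_ (ge_mul (hhge i) (ge_pow hnegge (i - (d - q))))
        rw [h2, zero_add]
        have h4 : (d : ℝ) < i := by exact_mod_cast h3
        nlinarith

/-- Translations by elements of large weight. -/
lemma gt_level_taylor {w : M →+ ℝ} {A' : ℝ} (hA' : 0 ≤ A') {d : ℕ}
    {g : (AddMonoidAlgebra k M)[X]} (hg0 : ∀ j, g.coeff j ∈ ge (k := k) w 0)
    (hg : ∀ j : ℕ, j < d → g.coeff j ∈ gt (k := k) w (((d : ℝ) - j) * A'))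
    {Θ : AddMonoidAlgebra k M} (hΘ : Θ ∈ gt (k := k) w A') (j : ℕ) (hj : j < d) :
    (taylor Θ g).coeff j ∈ gt (k := k) w (((d : ℝ) - j) * A') := by
  rw [coeff_taylor g Θ j _ (Nat.lt_succ_self _)]
  refine Submodule.sum_mem _ fun i _ => ?_
  by_cases hij : i < j
  · rw [Nat.choose_eq_zero_of_lt hij]
    simp
  · push Not at hij
    apply natCast_mul_mem_gt
    have h2 : ((i - j : ℕ) : ℝ) = i - j := Nat.cast_sub hij
    by_cases hid : i < d
    · refine gt_mono (le_of_eq ?_) (gt_mul (hg i hid) (ge_pow (gt_ge hΘ) (i - j)))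
      rw [h2]
      ring
    · push Not at hid
      have h3 : i - j ≠ 0 := by omega
      refine gt_mono ?_ (ge_mul_gt (hg0 i) (gt_pow hΘ (i - j) h3))
      rw [h2, zero_add]
      have h4 : (d : ℝ) ≤ i := by exact_mod_cast hid
      exact mul_le_mul_of_nonneg_right (by linarith) hA'

end root

section PA1

variable {k L : Type*} [Field k] [AddCommGroup L] [Module.Free ℤ L] [Module.Finite ℤ L]

/-- The maximal level, with a translation of weight less than the level. -/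
theorem phaseA1 (p : ℕ) [Fact p.Prime] [CharP k p] {ω : L →+ ℝ} (hω : Function.Injective ω)
    {η : ℝ} (hη : 0 < η) {s : ℕ} (bs : Module.Basis (Fin s) ℤ L) (hbs : ∀ j, 0 < ω (bs j))
    {d : ℕ} (hd : 0 < d) {f : (AddMonoidAlgebra k (L × ℕ))[X]} {c0 : k} (hc0 : c0 ≠ 0)
    (hfd : (f.coeff d).coeff 0 = c0) (hfP : ∀ j, f.coeff j ∈ inP k ((chartP bs).prod ⊤))
    (hf0 : ∀ j < d, (f.coeff j).coeff 0 = 0) {A b : ℝ} (hA : 0 ≤ A) (hb : 0 ≤ b)
    (hlv : Lv (wX ω) A d f) (hsl : Slc 0 d b (LF ω A d f)) (Bd : ℝ)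
    (hBd : ∀ Φ, Reg ω ((chartP bs).prod ⊤) A b Φ → ∀ A', Lw (wW ω η) A' d (taylor Φ f) → A' ≤ Bd) :
    ∃ (Φ : AddMonoidAlgebra k (L × ℕ)) (A' : ℝ), Reg ω ((chartP bs).prod ⊤) A b Φ ∧ 0 < A' ∧
      (∀ μ, Φ.coeff μ ≠ 0 → wW ω η μ < A') ∧
      Lw (wW ω η) A' d (taylor Φ f) ∧
      (∃ j : ℕ, j < d ∧ ∃ μ, ((taylor Φ f).coeff j).coeff μ ≠ 0 ∧
        wW ω η μ = ((d : ℝ) - j) * A') ∧
      ∀ Φ1 : AddMonoidAlgebra k (L × ℕ), (∀ μ, Φ1.coeff μ ≠ 0 → wW ω η μ = A') →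
        ∃ j : ℕ, j < d ∧ (taylor Φ1 (taylor Φ f)).coeff j ∉
          gt (k := k) (wW ω η) (((d : ℝ) - j) * A') := by
  classical
  obtain ⟨Φ, A', hReg, hA', hLw, -, huns⟩ := phaseA p hω hη bs hbs hd hc0 hfd hfP hf0 hA hb hlv
    hsl Bd hBd
  have hge : ∀ g ∈ inP k ((chartP bs).prod (⊤ : AddSubmonoid ℕ)),
      g ∈ ge (k := k) (wW ω η) 0 := by
    intro g hg μ hμ
    have h1 := chartP_nonneg hbs (hg μ hμ).1
    rw [wW_apply]
    positivity
  set Ψ := lowp (wW ω η) A' Φ with hΨ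
  set Θ := Φ - Ψ with hΘ
  have hΘge : Θ ∈ ge (k := k) (wW ω η) A' := fun μ hμ => (sub_lowp_ne hμ).2
  have hΨP : Ψ ∈ inP k ((chartP bs).prod ⊤) := fun μ hμ => hReg.1 μ (lowp_ne hμ).1
  have hΨReg : Reg ω ((chartP bs).prod ⊤) A b Ψ := by
    refine ⟨hΨP, fun μ hμ => hReg.2.1 μ (lowp_ne hμ).1, ?_, ?_⟩
    · intro i hi
      by_contra h1
      obtain ⟨β, hβ, h2⟩ := slice_ne ω hω h1
      have h3 := hReg.2.2.1 i hi
      rw [← hβ, slice_coeff ω hω] at h3
      exact (lowp_ne h2).1 h3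
    · by_contra h1
      exact (lowp_ne h1).1 hReg.2.2.2
  have h1 : taylor Ψ f = taylor (-Θ) (taylor Φ f) := by
    rw [taylor_taylor, hΘ]
    congr 1
    ring
  have hfge : ∀ j, f.coeff j ∈ ge (k := k) (wW ω η) 0 := fun j => hge _ (hfP j)
  have hΨge0 : ∀ j, (taylor Ψ f).coeff j ∈ ge (k := k) (wW ω η) 0 :=
    fun j => hge _ (inP_taylor hfP hΨP j)
  have hΦge0 : ∀ j, (taylor Φ f).coeff j ∈ ge (k := k) (wW ω η) 0 :=
    fun j => hge _ (inP_taylor hfP hReg.1 j)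
  have hLvΨ : Lv (wW ω η) A' d (taylor Ψ f) := by
    rw [h1]
    exact (hLw.lv hA'.le hΦge0).taylor (Submodule.neg_mem _ hΘge)
  have hLwΨ : Lw (wW ω η) A' d (taylor Ψ f) := fun j _ => hLvΨ j
  have hunsΨ : ∀ Φ1 : AddMonoidAlgebra k (L × ℕ), (∀ μ, Φ1.coeff μ ≠ 0 → wW ω η μ = A') →
        ∃ j : ℕ, j < d ∧ (taylor Φ1 (taylor Ψ f)).coeff j ∉
          gt (k := k) (wW ω η) (((d : ℝ) - j) * A') := by
    intro Φ1 hΦ1
    by_contra hcon
    push Not at hcon
    -- the parts of weight `A'` and greater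
    set Θ0 := lowp (wW ω η) (A' + 1) (0 : AddMonoidAlgebra k (L × ℕ)) with hΘ0
    let Θe : AddMonoidAlgebra k (L × ℕ) := ∑ μ ∈ Θ.coeff.support.filter fun μ => wW ω η μ = A',
      AddMonoidAlgebra.single μ (Θ.coeff μ)
    have hΘe : ∀ μ, Θe.coeff μ = if wW ω η μ = A' then Θ.coeff μ else 0 := by
      intro μ
      have h2 := sum_single_coeff (k := k) (Θ.coeff.support.filter fun μ => wW ω η μ = A')
        (fun μ => Θ.coeff μ) μ
      change Θe.coeff μ = _ at h2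
      rw [h2]
      by_cases h3 : wW ω η μ = A'
      · rw [if_pos h3]
        split_ifs with h4
        · rfl
        · by_contra h5
          exact h4 (Finset.mem_filter.2 ⟨Finsupp.mem_support_iff.2 (Ne.symm h5), h3⟩)
      · rw [if_neg h3, if_neg]
        intro h4
        exact h3 (Finset.mem_filter.1 h4).2
    have hΘgt : Θ - Θe ∈ gt (k := k) (wW ω η) A' := by
      intro μ hμ
      rw [AddMonoidAlgebra.coeff_sub, Finsupp.sub_apply, hΘe] at hμ
      split_ifs at hμ with h3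
      · rw [sub_self] at hμ
        exact absurd rfl hμ
      · rw [sub_zero] at hμ
        exact lt_of_le_of_ne (hΘge μ hμ) (Ne.symm h3)
    obtain ⟨j, hj, h2⟩ := huns (Φ1 - Θe) (by
      intro μ hμ
      rw [AddMonoidAlgebra.coeff_sub, Finsupp.sub_apply, hΘe] at hμ
      split_ifs at hμ with h3
      · exact h3
      · rw [sub_zero] at hμ
        exact hΦ1 μ hμ)
    apply h2
    have h3 : taylor (Φ1 - Θe) (taylor Φ f) = taylor (Θ - Θe) (taylor Φ1 (taylor Ψ f)) := by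
      rw [h1, taylor_taylor, taylor_taylor, taylor_taylor, taylor_taylor]
      congr 1
      ring
    rw [h3]
    refine gt_level_taylor hA'.le ?_ hcon hΘgt j hj
    refine ge_zero_taylor hΨge0 ?_
    intro μ hμ
    rw [hΦ1 μ hμ]
    exact hA'.le
  refine ⟨Ψ, A', hΨReg, hA', fun μ hμ => (lowp_ne hμ).2, hLwΨ, ?_, hunsΨ⟩
  obtain ⟨j, hj, h2⟩ := hunsΨ 0 (by
    intro μ hμ
    exact absurd rfl hμ)
  rw [taylor_zero] at h2
  rw [mem_gt] at h2
  push Not at h2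
  obtain ⟨μ, hμ, h3⟩ := h2
  exact ⟨j, hj, μ, hμ, le_antisymm h3 (hLwΨ j hj μ hμ)⟩

end PA1

end Pool.Agent.H893
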