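import Pool.Agent.H893.N2

/-!
# The slope after an unramified step
-/

set_option autoImplicit false
set_option linter.unusedVariables false
set_option linter.unusedSectionVars false

namespace Pool.Agent.H893

open Polynomial
open scoped NNReal

section trunc

variable {k : Type*} [Field k]

lemma og_eq_zero {c : k} {g : k[X]} {x y : ℝ} (hdeg : ∀ i, g.coeff i ≠ 0 → (i : ℝ) ≤ x)
    (hxy : x < y) (ho : og y (taylor c g)) : g = 0 := by
  by_contra hg
  have h1 := hdeg g.natDegree (by rw [coeff_natDegree]; exact leadingCoeff_ne_zero.2 hg)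
  have h2 := ho g.natDegree (by linarith)
  have h3 : (taylor c g).leadingCoeff = 0 := by
    rw [leadingCoeff, natDegree_taylor]
    exact h2
  exact hg ((taylor_eq_zero c g).1 (leadingCoeff_eq_zero.1 h3))

/-- The truncation at the point `c`. -/
lemma exists_trunc (c : k) (ρ : k[X]) {w : ℝ} (hw : 0 ≤ w) :
    ∃ ρ0 ρ1 : k[X], ρ = ρ0 + ρ1 ∧ (∀ i, ρ0.coeff i ≠ 0 → (i : ℝ) ≤ w) ∧
      og ((⌊w⌋₊ : ℝ) + 1) (taylor c ρ1) ∧ (ρ = 0 → ρ0 = 0) := by
  classical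
  set τ := taylor c ρ with hτ
  set τ0 : k[X] := ∑ i ∈ Finset.range (⌊w⌋₊ + 1), monomial i (τ.coeff i) with hτ0
  have hτ0c : ∀ i, τ0.coeff i = if i < ⌊w⌋₊ + 1 then τ.coeff i else 0 := by
    intro i
    rw [hτ0, finsetSum_coeff]
    simp only [coeff_monomial]
    rw [Finset.sum_ite_eq']
    simp only [Finset.mem_range]
  have hτ0d : τ0.natDegree ≤ ⌊w⌋₊ := by
    rw [natDegree_le_iff_coeff_eq_zero]
    intro i hi
    rw [hτ0c, if_neg (by omega)]
  refine ⟨taylor (-c) τ0, ρ - taylor (-c) τ0, by ring, ?_, ?_, ?_⟩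
  · intro i hi
    have h1 : i ≤ ⌊w⌋₊ := by
      have h2 := le_natDegree_of_ne_zero hi
      rw [natDegree_taylor] at h2
      omega
    exact (by exact_mod_cast h1 : (i : ℝ) ≤ (⌊w⌋₊ : ℝ)).trans (Nat.floor_le hw)
  · intro i hi
    have h1 : i < ⌊w⌋₊ + 1 := by exact_mod_cast hi
    rw [map_sub, taylor_taylor, add_neg_cancel, taylor_zero, coeff_sub, hτ0c, if_pos h1, hτ,
      sub_self]
  · intro h
    have h1 : τ0 = 0 := by
      ext i
      rw [hτ0c, hτ, h, map_zero, coeff_zero, ite_self]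
    rw [h1, map_zero]

/-- Truncated translations. -/
lemma slc_trunc {c : k} {d : ℕ} {b' x : ℝ} {G : k[X][X]} {ρ ρ0 ρ1 : k[X]} (hρ : ρ = ρ0 + ρ1)
    (hx0 : 0 ≤ x) (hxb : x ≤ b') (hρ1 : og x (taylor c ρ1)) (h : Slc c d b' (taylor ρ G)) :
    Slc c d x (taylor ρ0 G) := by
  have h1 : Slc c d x (taylor ρ G) := by
    intro j hj
    refine og_mono ?_ (h j hj)
    have h2 : (0 : ℝ) ≤ (d : ℝ) - j := by
      have : (j : ℝ) ≤ d := by exact_mod_cast hj.le
      linarith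
    exact mul_le_mul_of_nonneg_left hxb h2
  have h2 : taylor ρ0 G = taylor (-ρ1) (taylor ρ G) := by
    rw [taylor_taylor, hρ]
    congr 1
    ring
  rw [h2]
  refine h1.taylor hx0 ?_
  rw [map_neg]
  exact og_neg hρ1

/-- The degrees of the coefficients. -/
lemma deg_taylor {d : ℕ} {G : k[X][X]} {c0 : k} (hGd : G.coeff d = C c0)
    (hG : ∀ j, d < j → G.coeff j = 0) {w : ℝ}
    (hdeg : ∀ j : ℕ, j < d → ∀ i, (G.coeff j).coeff i ≠ 0 → (i : ℝ) ≤ ((d : ℝ) - j) * w)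
    {ρ : k[X]} (hρ : ∀ i, ρ.coeff i ≠ 0 → (i : ℝ) ≤ w) (j : ℕ) (hj : j < d) (i : ℕ)
    (hi : ((taylor ρ G).coeff j).coeff i ≠ 0) : (i : ℝ) ≤ ((d : ℝ) - j) * w := by
  have hρ' : iv 0 w ρ := fun i hi => ⟨Nat.cast_nonneg i, hρ i hi⟩
  have h1 : iv 0 (((d : ℝ) - j) * w) ((taylor ρ G).coeff j) := by
    rw [coeff_taylor G ρ j _ (Nat.lt_succ_self _)]
    refine iv_sum _ _ fun t _ => ?_
    by_cases htj : t < j
    · rw [Nat.choose_eq_zero_of_lt htj]
      simpa using iv_zero _ _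
    · push Not at htj
      apply iv_natCast_mul
      have h2 : ((t - j : ℕ) : ℝ) = t - j := Nat.cast_sub htj
      rcases lt_trichotomy t d with h3 | h3 | h3
      · have h4 : iv 0 (((d : ℝ) - t) * w) (G.coeff t) := fun i hi =>
          ⟨Nat.cast_nonneg i, hdeg t h3 i hi⟩
        have h5 := iv_mul h4 (iv_pow hρ' (t - j))
        have h6 : (0 : ℝ) + ((t - j : ℕ) : ℝ) * 0 = 0 := by ring
        have h7 : ((d : ℝ) - t) * w + ((t - j : ℕ) : ℝ) * w = ((d : ℝ) - j) * w := by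
          rw [h2]
          ring
        rw [h6, h7] at h5
        exact h5
      · subst h3
        rw [hGd]
        have h5 := iv_mul (iv_C c0) (iv_pow hρ' (t - j))
        have h6 : (0 : ℝ) + ((t - j : ℕ) : ℝ) * 0 = 0 := by ring
        have h7 : 0 + ((t - j : ℕ) : ℝ) * w = ((t : ℝ) - j) * w := by
          rw [h2]
          ring
        rw [h6, h7] at h5
        exact h5
      · rw [hG t h3, zero_mul]
        exact iv_zero _ _
  exact (h1 i hi).2

/-- The maximal slope is at most the width. -/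
theorem slopeB {d : ℕ} (hd : 0 < d) {G : k[X][X]} {c0 : k} (hGd : G.coeff d = C c0)
    (hG : ∀ j, d < j → G.coeff j = 0) {w : ℝ} (hw : 0 ≤ w)
    (hdeg : ∀ j : ℕ, j < d → ∀ i, (G.coeff j).coeff i ≠ 0 → (i : ℝ) ≤ ((d : ℝ) - j) * w)
    (c : k) {T : Prop} (huns : ∀ ρ : k[X], (T → ρ = 0) → ∃ j < d, (taylor ρ G).coeff j ≠ 0) :
    ∃ (ρ : k[X]) (n : ℕ), (T → ρ = 0) ∧ (∀ i, ρ.coeff i ≠ 0 → (i : ℝ) ≤ w) ∧
      Slc c d (n / d.factorial) (taylor ρ G) ∧
      (∀ ρ' : k[X], (T → ρ' = 0) → ∃ j : ℕ, j < d ∧ ∃ i : ℕ,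
        (i : ℝ) ≤ ((d : ℝ) - j) * (n / d.factorial) ∧
        (taylor c ((taylor (ρ' + ρ) G).coeff j)).coeff i ≠ 0) ∧
      (n : ℝ) / d.factorial ≤ w := by
  classical
  have hD : (0 : ℝ) < d.factorial := by exact_mod_cast d.factorial_pos
  have hbd : ∀ (ρ : k[X]) (b' : ℝ), (T → ρ = 0) → Slc c d b' (taylor ρ G) → b' ≤ w := by
    intro ρ b' hρ hb'
    by_contra hcon
    push Not at hcon
    obtain ⟨ρ0, ρ1, h1, h2, h3, h4⟩ := exists_trunc c ρ hw
    have hx : w < min b' ((⌊w⌋₊ : ℝ) + 1) := lt_min hcon (Nat.lt_floor_add_one w)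
    have h5 := slc_trunc h1 (hw.trans hx.le) (min_le_left _ _)
      (og_mono (min_le_right _ _) h3) hb'
    obtain ⟨j, hj, h6⟩ := huns ρ0 fun hT => h4 (hρ hT)
    apply h6
    have h7 : (0 : ℝ) < (d : ℝ) - j := by
      have : (j : ℝ) < d := by exact_mod_cast hj
      linarith
    exact og_eq_zero (deg_taylor hGd hG hdeg h2 j hj) (mul_lt_mul_of_pos_left hx h7) (h5 j hj)
  let Q : ℕ → Prop := fun n => ∃ ρ : k[X], (T → ρ = 0) ∧ (∀ i, ρ.coeff i ≠ 0 → (i : ℝ) ≤ w) ∧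
    Slc c d (n / d.factorial) (taylor ρ G)
  let N := ⌈w * d.factorial⌉₊
  have hQN : ∀ n, Q n → n ≤ N := by
    rintro n ⟨ρ, hρ, -, h1⟩
    have h2 := hbd ρ _ hρ h1
    rw [div_le_iff₀ hD] at h2
    exact_mod_cast h2.trans (Nat.le_ceil _)
  have hQ0 : Q 0 := by
    refine ⟨0, fun _ => rfl, fun i hi => absurd (coeff_zero i) hi, ?_⟩
    intro j hj
    exact og_nonpos (by simp) _
  have hmaxQ : Q (Nat.findGreatest Q N) := Nat.findGreatest_spec (P := Q) (Nat.zero_le _) hQ0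
  set n := Nat.findGreatest Q N with hn
  have hnQ : ¬ Q (n + 1) := by
    intro h1
    have h2 := Nat.le_findGreatest (hQN _ h1) h1
    omega
  obtain ⟨ρ, hρ, hρd, hsl⟩ := hmaxQ
  refine ⟨ρ, n, hρ, hρd, hsl, ?_, hbd ρ _ hρ hsl⟩
  intro ρ' hρ'
  have hT' : T → ρ' + ρ = 0 := fun ha => by rw [hρ ha, hρ' ha, add_zero]
  have h1 : ¬ Slc c d ((n + 1 : ℕ) / d.factorial) (taylor (ρ' + ρ) G) := by
    intro h2
    have h3 := hbd _ _ hT' h2
    obtain ⟨ρ0, ρ1, h4, h5, h6, h7⟩ := exists_trunc c (ρ' + ρ) hw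
    refine hnQ ⟨ρ0, fun hT => h7 (hT' hT), h5, ?_⟩
    refine slc_trunc h4 (by positivity) le_rfl (og_mono ?_ h6) h2
    exact h3.trans (Nat.lt_floor_add_one w).le
  unfold Slc og at h1
  push Not at h1
  obtain ⟨j, hj, i, hi, hne⟩ := h1
  refine ⟨j, hj, i, ?_, hne⟩
  have h3 : (0 : ℝ) < (d : ℝ) - j := by
    have : (j : ℝ) < d := by exact_mod_cast hj
    linarith
  obtain ⟨E, hE⟩ : (d - j) ∣ d.factorial := Nat.dvd_factorial (by omega) (Nat.sub_le _ _)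
  have hER : (d.factorial : ℝ) = ((d : ℝ) - j) * E := by
    rw [hE, Nat.cast_mul, Nat.cast_sub hj.le]
  have hE0 : (0 : ℝ) < E := by
    rw [hER] at hD
    exact (mul_pos_iff_of_pos_left h3).1 hD
  have h4 : ∀ x : ℝ, ((d : ℝ) - j) * (x / d.factorial) = x / E := by
    intro x
    rw [hER]
    field_simp
  rw [h4] at hi ⊢
  rw [lt_div_iff₀ hE0] at hi
  rw [le_div_iff₀ hE0]
  have h5 : i * E < n + 1 := by exact_mod_cast hi
  exact_mod_cast Nat.lt_succ_iff.1 h5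

end trunc

end Pool.Agent.H893
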