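import Pool.Agent.H893.N3

/-!
# The unramified step for systems
-/

set_option autoImplicit false
set_option linter.unusedVariables false
set_option linter.unusedSectionVars false

namespace Pool.Agent.H893

open Polynomial
open scoped NNReal

section R1

variable {k L : Type*} [Field k] [AddCommGroup L]

/-- Elements with given slice. -/
lemma exists_R1 {ω : L →+ ℝ} {A : ℝ} (ρ : k[X]) (hρ : (∀ a, ω a ≠ A) → ρ = 0) :
    ∃ R : AddMonoidAlgebra k (L × ℕ), (∀ μ, R.coeff μ ≠ 0 → ω μ.1 = A ∧ ρ.coeff μ.2 ≠ 0) ∧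
      slice ω A R = ρ := by
  classical
  by_cases ha : ∃ a, ω a = A
  · obtain ⟨a, ha⟩ := ha
    refine ⟨∑ t ∈ ρ.support, AddMonoidAlgebra.single (a, t) (ρ.coeff t), ?_, ?_⟩
    · intro μ hμ
      rw [AddMonoidAlgebra.coeff_sum, Finsupp.finsetSum_apply] at hμ
      obtain ⟨t, ht, h1⟩ := Finset.exists_ne_zero_of_sum_ne_zero hμ
      rw [AddMonoidAlgebra.coeff_single, Finsupp.single_apply] at h1
      split_ifs at h1 with h2
      · rw [← h2]
        exact ⟨ha, mem_support_iff.1 ht⟩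
      · exact absurd rfl h1
    · rw [map_sum]
      conv_rhs => rw [ρ.as_sum_support]
      refine Finset.sum_congr rfl fun s _ => ?_
      rw [slice_single, if_pos ha]
  · push Not at ha
    refine ⟨0, fun μ hμ => absurd rfl hμ, ?_⟩
    rw [hρ ha, map_zero]

lemma Sh_neg (γ : L) (g : AddMonoidAlgebra k (L × ℕ)) : Sh γ (Sh (-γ) g) = g := by
  ext μ
  rw [Sh_coeff', Sh_coeff']
  congr 1
  apply Prod.ext
  · simp
  · rfl

end R1

section stp

variable {k K L : Type*} [Field k] [Field K] [Algebra k K] [AddCommGroup L]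
  [Module.Free ℤ L] [Module.Finite ℤ L] {v : Valuation K ℝ≥0}

/-- The data of an unramified step. -/
structure Stp (k : Type*) {K L : Type*} [Field k] [Field K] [Algebra k K] [AddCommGroup L]
    (v : Valuation K ℝ≥0) (d : ℕ) (ω : L →+ ℝ) (X : Multiplicative L →* (DualNumber K)ˣ)
    (γ : L) (A A' b' w : ℝ) (y z : DualNumber K) (f : (AddMonoidAlgebra k (L × ℕ))[X])
    (y' z' : DualNumber K) (f' : (AddMonoidAlgebra k (L × ℕ))[X]) (u : DualNumber K)
    (Φ R : AddMonoidAlgebra k (L × ℕ)) (c : k) : Prop where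
  hc : c ≠ 0
  hu : y = (X (.ofAdd γ) : DualNumber K) * u
  hy' : y' = u - algebraMap k (DualNumber K) c
  hz' : z' = z - ev k X y Φ - ev k X u R
  hf' : f' = mapTau (AddMonoidAlgebra.single 0 c) (taylor R (ShP γ (taylor Φ f)))
  hA' : 0 < A'
  Φ0 : ∀ μ, Φ.coeff μ ≠ 0 → 0 < wW ω (ω γ) μ ∧ wW ω (ω γ) μ < A'
  ΦA : ∀ μ, Φ.coeff μ ≠ 0 → A ≤ ω μ.1
  lw : Lw (wW ω (ω γ)) A' d (taylor Φ f)
  att : ∃ j : ℕ, j < d ∧ ∃ μ, ((taylor Φ f).coeff j).coeff μ ≠ 0 ∧
        wW ω (ω γ) μ = ((d : ℝ) - j) * A'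
  R0 : ∀ μ, R.coeff μ ≠ 0 → ω μ.1 = A' ∧ (μ.2 : ℝ) ≤ w
  sys : Sys k v d ω X y' z' f'
  vtx : Vtx ω A' b' d f'
  gdeg : ∀ j : ℕ, j < d → ∀ i, ((LF ω A' d (ShP γ (taylor Φ f))).coeff j).coeff i ≠ 0 →
    (i : ℝ) ≤ ((d : ℝ) - j) * w
  gd : (LF ω A' d (ShP γ (taylor Φ f))).coeff d = C ((f.coeff d).coeff 0)
  ggt : ∀ j, d < j → (LF ω A' d (ShP γ (taylor Φ f))).coeff j = 0
  gnp : ∀ ρ : k[X], ((∀ a, ω a ≠ A') → ρ = 0) →
    ∃ j < d, (taylor ρ (LF ω A' d (ShP γ (taylor Φ f)))).coeff j ≠ 0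
  glv : Lv (wX ω) A' d (ShP γ (taylor Φ f))
  gsl : Slc c d b' (taylor (slice ω A' R) (LF ω A' d (ShP γ (taylor Φ f))))
  bw : b' ≤ w

theorem core1 (p : ℕ) [Fact p.Prime] [CharP k p]
    (hk : ∀ c : k, c ≠ 0 → v (algebraMap k K c) = 1)
    (hres : ∀ x : K, v x ≤ 1 → ∃ c : k, v (x - algebraMap k K c) < 1)
    {d : ℕ} {ω : L →+ ℝ} {X : Multiplicative L →* (DualNumber K)ˣ}
    {y z : DualNumber K} {f : (AddMonoidAlgebra k (L × ℕ))[X]} (S : Sys k v d ω X y z f)
    {γ : L} (hη : 0 < ω γ) (hyη : v y.fst = ex (ω γ))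
    {A b : ℝ} (hA : 0 ≤ A) (hb : 0 ≤ b) (hlv : Lv (wX ω) A d f) (hsl : Slc 0 d b (LF ω A d f))
    (Bd : ℝ) (hBd : ∀ Φ : AddMonoidAlgebra k (L × ℕ), Φ ∈ gt (k := k) (wW ω (ω γ)) 0 →
      Φ ∈ ge (k := k) (wX ω) A → og b (slice ω A Φ) → ∀ A', Lw (wW ω (ω γ)) A' d (taylor Φ f) →
      A' ≤ Bd)
    (Q : ℝ → ℝ → Prop)
    (hw : ∀ Φ : AddMonoidAlgebra k (L × ℕ), Φ ∈ ge (k := k) (wX ω) A → og b (slice ω A Φ) →
      ∀ A', 0 < A' → Lw (wW ω (ω γ)) A' d (taylor Φ f) →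
      (∃ j : ℕ, j < d ∧ ∃ μ, ((taylor Φ f).coeff j).coeff μ ≠ 0 ∧
        wW ω (ω γ) μ = ((d : ℝ) - j) * A') →
      ∃ w : ℝ, 0 ≤ w ∧ Q A' w ∧ ∀ (j : ℕ) (μ : L × ℕ), j < d →
        ((taylor Φ f).coeff j).coeff μ ≠ 0 → wW ω (ω γ) μ = ((d : ℝ) - j) * A' →
        (μ.2 : ℝ) ≤ ((d : ℝ) - j) * w) :
    ∃ (y' z' : DualNumber K) (f' : (AddMonoidAlgebra k (L × ℕ))[X]) (u : DualNumber K)
      (Φ R : AddMonoidAlgebra k (L × ℕ)) (c : k) (A' w : ℝ) (n : ℕ),
      Q A' w ∧ 0 ≤ w ∧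
      Stp k v d ω X γ A A' (n / d.factorial) w y z f y' z' f' u Φ R c := by
  classical
  have hd : 0 < d := S.d_pos hk
  obtain ⟨s, bs, hbs, hfP⟩ := exists_chart_f S.inj f S.ge0
  obtain ⟨Φ, A', hReg, hA', hΦA', hLw, hatt, huns⟩ := phaseA1 p S.inj hη bs hbs hd S.top rfl hfP
    S.low hA hb hlv hsl Bd (fun Φ hΦ A' h => hBd Φ (gt_of_coeff_zero S.inj hη
      (ge_mono hA hΦ.2.1) hΦ.2.2.2) hΦ.2.1 hΦ.2.2.1 A' h)
  obtain ⟨w, hw0, hQ, hwid⟩ := hw Φ hReg.2.1 hReg.2.2.1 A' hA' hLw hatt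
  have hΦgt : Φ ∈ gt (k := k) (wW ω (ω γ)) 0 := gt_of_coeff_zero S.inj hη
    (ge_mono hA hReg.2.1) hReg.2.2.2
  set f1 := taylor Φ f with hf1
  have hf1P : ∀ j, f1.coeff j ∈ inP k ((chartP bs).prod ⊤) := fun j => inP_taylor hfP hReg.1 j
  have hpos : ∀ j μ, (f1.coeff j).coeff μ ≠ 0 → μ = 0 ∨ 0 < wW ω (ω γ) μ := by
    intro j μ hμ
    have h1 := hf1P j μ hμ
    have h2 := chartP_nonneg hbs h1.1
    by_cases h3 : μ = 0
    · exact Or.inl h3
    · right
      have h4 : AddMonoidAlgebra.single μ (1 : k) ∈ gt (k := k) (wW ω (ω γ)) 0 := by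
        apply gt_of_coeff_zero S.inj hη
        · exact single_mem_ge fun _ => h2
        · rw [AddMonoidAlgebra.coeff_single, Finsupp.single_apply, if_neg h3]
      exact h4 μ (by
        rw [AddMonoidAlgebra.coeff_single, Finsupp.single_eq_same]
        exact one_ne_zero)
  have hf1ge : ∀ j, f1.coeff j ∈ ge (k := k) (wW ω (ω γ)) 0 := by
    intro j μ hμ
    rcases hpos j μ hμ with h1 | h1
    · rw [h1, map_zero]
    · exact h1.le
  have hf0W : ∀ j, f.coeff j ∈ ge (k := k) (wW ω (ω γ)) 0 := by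
    intro j μ hμ
    have h1 := S.ge0 j μ hμ
    rw [wX_apply] at h1
    rw [wW_apply]
    positivity
  have hfd : (f1.coeff d).coeff 0 = (f.coeff d).coeff 0 := by
    have h1 := coeff_taylor_top le_rfl hf0W hΦgt d
    by_contra h2
    have h3 := h1 0 (by
      rw [AddMonoidAlgebra.coeff_sub, Finsupp.sub_apply]
      exact sub_ne_zero.2 h2)
    rw [map_zero] at h3
    exact lt_irrefl _ h3
  set g := ShP γ f1 with hg
  have hg0 : ∀ j, g.coeff j ∈ ge (k := k) (wX ω) 0 := by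
    intro j
    rw [hg, ShP_coeff]
    exact Sh_ge (hf1ge j)
  have hglv : Lv (wX ω) A' d g := by
    intro j
    rw [hg, ShP_coeff]
    exact Sh_ge (hLw.lv hA'.le hf1ge j)
  set G := LF ω A' d g with hG
  have hGne : ∀ j t, (G.coeff j).coeff t ≠ 0 → ∃ μ, (f1.coeff j).coeff μ ≠ 0 ∧
      wW ω (ω γ) μ = ((d : ℝ) - j) * A' ∧ μ.2 = t := by
    intro j t ht
    rw [hG, LF_coeff, hg, ShP_coeff] at ht
    obtain ⟨β, hβ, h1⟩ := slice_ne ω S.inj ht
    obtain ⟨μ, hμ, h2⟩ := Sh_ne γ h1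
    refine ⟨μ, hμ, ?_, ?_⟩
    · rw [← shM_wt, ← h2, hβ]
    · exact (congrArg Prod.snd h2).symm
  have hGdeg : ∀ j : ℕ, j < d → ∀ i, (G.coeff j).coeff i ≠ 0 → (i : ℝ) ≤ ((d : ℝ) - j) * w := by
    intro j hj i hi
    obtain ⟨μ, hμ, h1, h2⟩ := hGne j i hi
    rw [← h2]
    exact hwid j μ hj hμ h1
  have hGgt : ∀ j, d < j → G.coeff j = 0 := by
    intro j hj
    rw [hG, LF_coeff]
    apply slice_gt
    refine gt_of_ge ?_ (hg0 j)
    have h1 : (d : ℝ) < j := by exact_mod_cast hj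
    exact mul_neg_of_neg_of_pos (by linarith) hA'
  have hGd : G.coeff d = C ((f.coeff d).coeff 0) := by
    ext t
    rw [coeff_C]
    by_cases ht : t = 0
    · subst ht
      rw [if_pos rfl, hG, LF_coeff, hg, ShP_coeff, sub_self, zero_mul]
      have h1 := slice_coeff ω S.inj (Sh γ (f1.coeff d)) 0 0
      rw [map_zero] at h1
      rw [h1, Sh_coeff', ← hfd]
      simp
      rfl
    · rw [if_neg ht]
      by_contra h1
      obtain ⟨μ, hμ, h2, h3⟩ := hGne d t h1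
      rw [sub_self, zero_mul] at h2
      rcases hpos d μ hμ with h5 | h5
      · rw [h5] at h3
        exact ht h3.symm
      · rw [h2] at h5
        exact lt_irrefl _ h5
  have hGnp : ∀ ρ : k[X], ((∀ a, ω a ≠ A') → ρ = 0) → ∃ j < d, (taylor ρ G).coeff j ≠ 0 := by
    intro ρ hρ
    obtain ⟨R, hR, hRs⟩ := exists_R1 (L := L) (ω := ω) (A := A') ρ hρ
    have hRge : R ∈ ge (k := k) (wX ω) A' := fun μ hμ => (hR μ hμ).1.ge
    obtain ⟨j, hj, h1⟩ := huns (Sh (-γ) R) (by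
      intro μ hμ
      obtain ⟨ν, hν, rfl⟩ := Sh_ne (-γ) hμ
      rw [← (hR ν hν).1, wW_apply]
      simp only [shM, map_add, map_nsmul, map_neg, nsmul_eq_mul]
      ring)
    refine ⟨j, hj, fun h2 => h1 ?_⟩
    have h3 : ShP γ (taylor (Sh (-γ) R) f1) = taylor R g := by
      rw [ShP_taylor, Sh_neg]
    have h4 : (taylor R g).coeff j ∈ gt (k := k) (wX ω) (((d : ℝ) - j) * A') := by
      apply gt_of_slice ω S.inj
      · exact hglv.taylor hRge j
      · rw [← LF_coeff, LF_taylor ω hglv hRge, hRs]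
        exact h2
    rw [← h3, ShP_coeff] at h4
    exact of_Sh_gt h4
  -- the new point
  set u : DualNumber K := (X (.ofAdd (-γ)) : DualNumber K) * y with hu
  have hXX : (X (.ofAdd γ) : DualNumber K) * (X (.ofAdd (-γ)) : DualNumber K) = 1 := by
    rw [← Units.val_mul, ← map_mul, ← ofAdd_add, add_neg_cancel, ofAdd_zero, map_one,
      Units.val_one]
  have hyu : y = (X (.ofAdd γ) : DualNumber K) * u := by
    rw [hu, ← mul_assoc, hXX, one_mul]
  have huv : v u.fst = 1 := by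
    rw [hu, TrivSqZeroExt.fst_mul, map_mul, S.hX, hyη, ← ex_add, map_neg, neg_add_cancel, ex_zero]
  obtain ⟨c, hc1⟩ := hres u.fst huv.le
  have hc : c ≠ 0 := by
    rintro rfl
    rw [map_zero, sub_zero, huv] at hc1
    exact lt_irrefl _ hc1
  obtain ⟨ρ, n, hρ0, hρd, hρs, hρu, hnw⟩ := slopeB (T := ∀ a, ω a ≠ A') hd hGd hGgt hw0
    hGdeg c hGnp
  obtain ⟨R, hR, hRs⟩ := exists_R1 (L := L) (ω := ω) (A := A') ρ hρ0
  have hRge : R ∈ ge (k := k) (wX ω) A' := fun μ hμ => (hR μ hμ).1.ge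
  have hψ0 : (AddMonoidAlgebra.single 0 c : AddMonoidAlgebra k (L × ℕ)) ∈
      ge (k := k) (wX ω) 0 := single_mem_ge fun _ => by rw [map_zero]
  have hψc : slice ω 0 (AddMonoidAlgebra.single (0 : L × ℕ) c) = C c := by
    rw [slice_single, if_pos (by simp)]
    rfl
  have hD0 : (0 : ℝ) < d.factorial := by exact_mod_cast d.factorial_pos
  obtain ⟨hVtx, hge0, htop, hlow⟩ := step_poly S.inj hA' hg0 hglv S.top hGd hGgt
    hRge hRs (c := c) (b := (n : ℝ) / d.factorial) (by positivity) hρs hρ0 hρu hψ0 hψc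
  set f' := mapTau (AddMonoidAlgebra.single 0 c) (taylor R g) with hf'
  set z2 := z - ev k X y Φ - ev k X u R with hz2
  set y2 := u - algebraMap k (DualNumber K) c with hy2
  have hevc : ∀ t : DualNumber K, ev k X t (AddMonoidAlgebra.single 0 c) =
      algebraMap k (DualNumber K) c := by
    intro t
    rw [ev_single]
    simp
  have hEV : EV k X y2 z2 f' = EV k X y z f := by
    have h1 : EV k X y2 z2 f' = EV k X u z2 (taylor R g) := by
      rw [hf', mapTau, EV, eval₂_map, EV]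
      congr 1
      apply RingHom.ext
      intro t
      change ev k X y2 (tau (AddMonoidAlgebra.single 0 c) t) = ev k X u t
      rw [ev_tau, hevc, hy2, sub_add_cancel]
    rw [h1, hz2, EV_taylor, hg, EV_ShP, ← hyu, EV_taylor]
  have hevR : v (ev k X u R).fst ≤ ex A' := by
    rw [fst_ev]
    refine v_ev_le (η := 0) hk S.hX (by rw [huv, ex_zero]) ?_
    rw [wW_zero]
    exact hRge
  have hevΦ : v (ev k X y Φ).fst < 1 := by
    rw [fst_ev, ← ex_zero]
    exact v_ev_lt hk S.hX hyη.le hΦgt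
  have hc' : (algebraMap k (DualNumber K) c).fst = algebraMap k K c := rfl
  refine ⟨y2, z2, f', u, Φ, R, c, A', w, n, hQ, hw0, ?_⟩
  exact
    { hc := hc
      hu := hyu
      hy' := rfl
      hz' := rfl
      hf' := rfl
      hA' := hA'
      Φ0 := fun μ hμ => ⟨hΦgt μ hμ, hΦA' μ hμ⟩
      ΦA := fun μ hμ => hReg.2.1 μ hμ
      lw := hLw
      att := hatt
      R0 := fun μ hμ => ⟨(hR μ hμ).1, hρd _ (hR μ hμ).2⟩
      sys :=
        { inj := S.inj
          hX := S.hX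
          hy := by
            rw [hy2, TrivSqZeroExt.fst_sub, hc']
            exact hc1
          hz := by
            rw [hz2, TrivSqZeroExt.fst_sub, TrivSqZeroExt.fst_sub]
            refine lt_of_le_of_lt (v.map_sub _ _) (max_lt ?_ ?_)
            · exact lt_of_le_of_lt (v.map_sub _ _) (max_lt S.hz hevΦ)
            · exact lt_of_le_of_lt hevR (ex_lt_one.2 hA')
          gen := by
            intro F' hF1 hF2 hF3
            rw [hy2, TrivSqZeroExt.fst_sub, hc'] at hF2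
            have h2 : u.fst ∈ F' := by
              have h3 := add_mem hF2 (F'.algebraMap_mem c)
              rwa [sub_add_cancel] at h3
            have h4 : y.fst ∈ F' := by
              rw [hyu, TrivSqZeroExt.fst_mul]
              exact mul_mem (hF1 (.ofAdd γ)) h2
            refine S.gen F' hF1 h4 ?_
            have h5 : z.fst = z2.fst + (ev k X y Φ).fst + (ev k X u R).fst := by
              rw [hz2, TrivSqZeroExt.fst_sub, TrivSqZeroExt.fst_sub]
              ring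
            rw [h5, fst_ev, fst_ev]
            exact add_mem (add_mem hF3 (ev_mem hF1 h4 _)) (ev_mem hF1 h2 _)
          fz := by rw [hEV]; exact S.fz
          fne := by rw [hEV]; exact S.fne
          ge0 := hge0
          top := htop
          low := hlow
          rr := S.rr }
      vtx := hVtx
      gdeg := hGdeg
      gd := hGd
      ggt := hGgt
      gnp := hGnp
      glv := hglv
      gsl := by rw [hRs]; exact hρs
      bw := hnw }

end stp

end Pool.Agent.H893
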