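import Pool.Agent.H893.G3_drop

/-!
# Consequences of the unramified step
-/

set_option autoImplicit false
set_option linter.unusedVariables false
set_option linter.unusedSectionVars false

namespace Pool.Agent.H893

open Polynomial
open scoped NNReal

section a

variable {k L : Type*} [Field k] [AddCommGroup L] [Module.Free ℤ L] [Module.Finite ℤ L]

/-- The leading form after a step. -/
lemma LF_step {ω : L →+ ℝ} {A' : ℝ} {d : ℕ} {g : (AddMonoidAlgebra k (L × ℕ))[X]}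
    (hglv : Lv (wX ω) A' d g) {R : AddMonoidAlgebra k (L × ℕ)}
    (hR : R ∈ ge (k := k) (wX ω) A') (c : k) :
    LF ω A' d (mapTau (AddMonoidAlgebra.single 0 c) (taylor R g)) =
      (taylor (slice ω A' R) (LF ω A' d g)).map (taylorAlgHom c : k[X] →+* k[X]) := by
  have hψ : (AddMonoidAlgebra.single 0 c : AddMonoidAlgebra k (L × ℕ)) ∈
      ge (k := k) (wX ω) 0 := single_mem_ge fun _ => by rw [map_zero]
  have hψc : slice ω 0 (AddMonoidAlgebra.single (0 : L × ℕ) c) = C c := by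
    rw [slice_single, if_pos (by simp)]
    rfl
  have hg2lv : Lv (wX ω) A' d (taylor R g) := hglv.taylor hR
  ext1 j
  rw [LF_coeff, mapTau_coeff, slice_tau hψ hψc (hg2lv j), ← LF_coeff, LF_taylor ω hglv hR,
    coeff_map]
  rfl

end a

section b

variable {k K L : Type*} [Field k] [Field K] [Algebra k K] [AddCommGroup L]
  [Module.Free ℤ L] [Module.Finite ℤ L] {v : Valuation K ℝ≥0}
  {d : ℕ} {ω : L →+ ℝ} {X : Multiplicative L →* (DualNumber K)ˣ}
    {y z : DualNumber K} {f : (AddMonoidAlgebra k (L × ℕ))[X]}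

/-- The unramified step for a vertex. -/
theorem stepV (p : ℕ) [Fact p.Prime] [CharP k p]
    (hk : ∀ c : k, c ≠ 0 → v (algebraMap k K c) = 1)
    (hres : ∀ x : K, v x ≤ 1 → ∃ c : k, v (x - algebraMap k K c) < 1)
    (S : Sys k v d ω X y z f) {γ : L} (hη : 0 < ω γ) (hyη : v y.fst = ex (ω γ))
    {A b : ℝ} (hV : Vtx ω A b d f) :
    ∃ (y' z' : DualNumber K) (f' : (AddMonoidAlgebra k (L × ℕ))[X]) (u : DualNumber K)
      (Φ R : AddMonoidAlgebra k (L × ℕ)) (c : k) (A' w : ℝ) (n : ℕ),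
      A' = A + w * ω γ ∧ w ≤ b ∧ 0 ≤ w ∧
      Stp k v d ω X γ A A' (n / d.factorial) w y z f y' z' f' u Φ R c := by
  obtain ⟨y', z', f', u, Φ, R, c, A', w, n, ⟨h1, h2⟩, h3, h4⟩ := core1 p hk hres S hη hyη
    hV.A0.le hV.b0 hV.lv hV.sl (A + b * ω γ)
    (fun Φ _ hΦ _ A' h => vtx_bound S.inj hη hV hΦ h)
    (fun A' w => A' = A + w * ω γ ∧ w ≤ b) (by
      intro Φ hΦ hs A' hA' hLw hatt
      have hup := vtx_bound S.inj hη hV hΦ hLw
      have hlv1 : Lv (wX ω) A d (taylor Φ f) := hV.lv.taylor hΦ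
      have hAA' : A ≤ A' := by
        obtain ⟨j, hj, μ, hμ, h1⟩ := hatt
        have h2 := hlv1 j μ hμ
        rw [wX_apply] at h2
        rw [wW_apply] at h1
        have h4 : (0 : ℝ) < (d : ℝ) - j := by
          have : (j : ℝ) < d := by exact_mod_cast hj
          linarith
        have h5 : (0 : ℝ) ≤ μ.2 * ω γ := by positivity
        exact le_of_mul_le_mul_left (by linarith) h4
      refine ⟨(A' - A) / ω γ, div_nonneg (by linarith) hη.le, ⟨?_, ?_⟩, ?_⟩
      · rw [div_mul_cancel₀ _ hη.ne']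
        ring
      · rw [div_le_iff₀ hη]
        linarith
      · intro j μ hj hμ h1
        have h2 := hlv1 j μ hμ
        rw [wX_apply] at h2
        rw [wW_apply] at h1
        rw [← mul_div_assoc, le_div_iff₀ hη]
        linarith)
  exact ⟨y', z', f', u, Φ, R, c, A', w, n, h1, h2, h3, h4⟩

/-- The leading form is a sum of monomials if the slope does not drop. -/
lemma Stp.pure {γ : L} {A A' b : ℝ} {y' z' : DualNumber K}
    {f' : (AddMonoidAlgebra k (L × ℕ))[X]} {u : DualNumber K}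
    {Φ R : AddMonoidAlgebra k (L × ℕ)} {c : k}
    (h : Stp k v d ω X γ A A' b b y z f y' z' f' u Φ R c) (j : ℕ) (hj : j < d) (i : ℕ)
    (hi : ((LF ω A' d f').coeff j).coeff i ≠ 0) : (i : ℝ) = ((d : ℝ) - j) * b := by
  have hRge : R ∈ ge (k := k) (wX ω) A' := fun μ hμ => (h.R0 μ hμ).1.ge
  have hρ : ∀ i, (slice ω A' R).coeff i ≠ 0 → (i : ℝ) ≤ b := by
    intro i hi
    obtain ⟨β, hβ, h1⟩ := slice_ne ω h.sys.inj hi
    exact (h.R0 _ h1).2
  have hdeg := deg_taylor h.gd h.ggt h.gdeg hρ j hj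
  rw [h.hf', LF_step h.glv hRge, coeff_map] at hi
  set g := (taylor (slice ω A' R) (LF ω A' d (ShP γ (taylor Φ f)))).coeff j with hg
  change (taylor c g).coeff i ≠ 0 at hi
  apply le_antisymm
  · have hg0 : g ≠ 0 := by
      intro h0
      rw [h0, map_zero, coeff_zero] at hi
      exact hi rfl
    have h1 := le_natDegree_of_ne_zero hi
    rw [natDegree_taylor] at h1
    have h2 := hdeg g.natDegree (by rw [coeff_natDegree]; exact leadingCoeff_ne_zero.2 hg0)
    exact (by exact_mod_cast h1 : (i : ℝ) ≤ g.natDegree).trans h2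
  · by_contra hcon
    push Not at hcon
    exact hi (h.gsl j hj i hcon)

/-- The order drops if the value of the root is greater than the level. -/
theorem dropB1 (hk : ∀ c : k, c ≠ 0 → v (algebraMap k K c) = 1)
    (hden : ∀ x y : ℝ, x < y → ∃ a, x < ω a ∧ ω a < y)
    (S : Sys k v d ω X y z f) {A b : ℝ} (hV : Vtx ω A b d f) (hb : b < 1)
    (hpure : ∀ j < d, ∀ i, ((LF ω A d f).coeff j).coeff i ≠ 0 → (i : ℝ) = ((d : ℝ) - j) * b)
    (hz : v z.fst < ex A) :
    ∃ (y' z' : DualNumber K) (f' : (AddMonoidAlgebra k (L × ℕ))[X]) (d1 : ℕ), d1 < d ∧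
      Sys k v d1 ω X y' z' f' := by
  classical
  -- the smallest index
  obtain ⟨j1, hj1, i1, hi1, h1⟩ := hV.uns 0 fun _ => rfl
  rw [taylor_zero] at h1
  have hex : ∃ j : ℕ, (LF ω A d f).coeff j ≠ 0 := by
    refine ⟨j1, ?_⟩
    intro h
    rw [h, coeff_zero] at h1
    exact h1 rfl
  set j0 := Nat.find hex with hj0
  have hj0s : (LF ω A d f).coeff j0 ≠ 0 := Nat.find_spec hex
  have hlow : ∀ j : ℕ, j < j0 → (LF ω A d f).coeff j = 0 := fun n hn => by
    by_contra h2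
    exact Nat.find_min hex hn h2
  have hj0d : j0 < d := by
    refine lt_of_le_of_lt (Nat.find_min' hex ?_) hj1
    intro h
    rw [h, coeff_zero] at h1
    exact h1 rfl
  obtain ⟨i0, hi0⟩ : ∃ i, ((LF ω A d f).coeff j0).coeff i ≠ 0 := by
    by_contra hcon
    push Not at hcon
    exact hj0s (Polynomial.ext fun i => by rw [hcon i, coeff_zero])
  have hi0b := hpure j0 hj0d i0 hi0
  rw [LF_coeff] at hi0
  obtain ⟨β0, hβ0, hcst⟩ := slice_ne ω S.inj hi0
  obtain ⟨ε, hε, hgε⟩ := exists_ge_of_gt' (k := k) (w := wX ω)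
    (B := fun j : ℕ => ((d : ℝ) - j) * A) (g := fun j => f.coeff j) j0
    (fun j hj => gt_of_slice ω S.inj (hV.lv j) (by rw [← LF_coeff]; exact hlow j hj))
  obtain ⟨ζ, hζA, hzζ⟩ : ∃ ζ : ℝ, A < ζ ∧ v z.fst ≤ ex ζ := by
    by_cases h3 : v z.fst = 0
    · exact ⟨A + 1, by linarith, by rw [h3]; exact zero_le⟩
    · obtain ⟨ζ, hζ⟩ := exists_ex h3
      refine ⟨ζ, ?_, hζ.le⟩
      rw [hζ] at hz
      exact ex_lt.1 hz
  have hd1 : (0 : ℝ) < (d : ℝ) + 1 := by positivity
  obtain ⟨a0, ha1, ha2⟩ := hden A (min ζ (A + ε / (d + 1)))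
    (lt_min hζA (by have := div_pos hε hd1; linarith))
  have ha3 : ω a0 < ζ := lt_of_lt_of_le ha2 (min_le_left _ _)
  have ha4 : ω a0 < A + ε / (d + 1) := lt_of_lt_of_le ha2 (min_le_right _ _)
  set δ := ω a0 - A with hδ
  have hδ0 : 0 < δ := by linarith
  have hδε : ((d : ℝ) + 1) * δ < ε := by
    have h3 : δ < ε / (d + 1) := by linarith
    rw [lt_div_iff₀ hd1] at h3
    linarith
  set e0 : L := β0 + j0 • a0 with he0
  have he0v : ω e0 = ((d : ℝ) - j0) * A + j0 * ω a0 := by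
    rw [he0, map_add, hβ0, map_nsmul, nsmul_eq_mul]
  have hωa : ω a0 = A + δ := by rw [hδ]; ring
  have hj0R : (j0 : ℝ) < d := by exact_mod_cast hj0d
  have hpos : ∀ j : ℕ, j ≠ j0 → (Zd a0 e0 f).coeff j ∈ gt (k := k) (wX ω) 0 := by
    intro j hj
    rcases lt_or_gt_of_ne hj with h3 | h3
    · refine gt_of_ge ?_ (Zd_ge (hgε j h3))
      rw [he0v, hωa]
      have h4 : (j : ℝ) < j0 := by exact_mod_cast h3
      have h5 : (0 : ℝ) ≤ j := Nat.cast_nonneg j
      nlinarith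
    · refine gt_of_ge ?_ (Zd_ge (hV.lv j))
      rw [he0v, hωa]
      have h4 : (j0 : ℝ) < j := by exact_mod_cast h3
      nlinarith
  have hj0ge : (Zd a0 e0 f).coeff j0 ∈ ge (k := k) (wX ω) 0 := by
    refine ge_mono (le_of_eq ?_) (Zd_ge (hV.lv j0))
    rw [he0v]
    ring
  have hge : ∀ j : ℕ, (Zd a0 e0 f).coeff j ∈ ge (k := k) (wX ω) 0 := by
    intro j
    by_cases hj : j = j0
    · rw [hj]; exact hj0ge
    · exact gt_ge (hpos j hj)
  have hdiv := S.ps.div a0 e0 hge 0 (by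
    rw [map_zero, sub_zero, TrivSqZeroExt.fst_mul, map_mul, S.hX, map_neg]
    have h3 : v z.fst < ex (ω a0) := lt_of_le_of_lt hzζ (ex_lt.2 ha3)
    calc v z.fst * ex (-(ω a0)) < ex (ω a0) * ex (-(ω a0)) :=
          mul_lt_mul_of_pos_right h3 (ex_pos _)
      _ = 1 := by rw [← ex_add, add_neg_cancel, ex_zero])
  rw [AddMonoidAlgebra.single_zero, taylor_zero] at hdiv
  have hcf : ((Zd a0 e0 f).coeff j0).coeff (0, i0) ≠ 0 := by
    have h3 := slice_shift (ω := ω) (j0 • a0 - e0) (((d : ℝ) - j0) * A) (f.coeff j0)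
    have h4 : ω (j0 • a0 - e0) + ((d : ℝ) - j0) * A = 0 := by
      rw [map_sub, he0v, map_nsmul, nsmul_eq_mul]
      ring
    rw [h4, ← Zd_coeff] at h3
    have h5 := slice_coeff ω S.inj ((Zd a0 e0 f).coeff j0) 0 i0
    rw [map_zero, h3] at h5
    rw [← h5]
    exact hi0
  have hij : i0 + j0 < d := by
    have h3 : (0 : ℝ) < (d : ℝ) - j0 := by linarith
    have h4 : ((i0 + j0 : ℕ) : ℝ) < d := by
      push_cast
      rw [hi0b]
      nlinarith
    exact_mod_cast h4
  have hmin : ∀ i j : ℕ, ((Zd a0 e0 f).coeff j).coeff (0, i) ≠ 0 →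
      (i = i0 ∧ j = j0) ∨ i0 + j0 < i + j := by
    intro i j hij'
    left
    by_cases hj : j = j0
    · subst hj
      refine ⟨?_, rfl⟩
      have h3 := slice_shift (ω := ω) (j0 • a0 - e0) (((d : ℝ) - j0) * A) (f.coeff j0)
      have h4 : ω (j0 • a0 - e0) + ((d : ℝ) - j0) * A = 0 := by
        rw [map_sub, he0v, map_nsmul, nsmul_eq_mul]
        ring
      rw [h4, ← Zd_coeff] at h3
      have h5 := slice_coeff ω S.inj ((Zd a0 e0 f).coeff j0) 0 i
      rw [map_zero, h3] at h5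
      rw [← h5, ← LF_coeff] at hij'
      have h6 := hpure j0 hj0d i hij'
      rw [← hi0b] at h6
      exact_mod_cast h6
    · exfalso
      have h3 := hpos j hj (0, i) hij'
      rw [wX_apply, map_zero] at h3
      exact lt_irrefl _ h3
  obtain ⟨y', f', h7⟩ := lin_change1 hk hdiv hcf hmin
  exact ⟨y', _, f', i0 + j0, hij, h7⟩

/-- The order drops if the leading form is a sum of monomials and the slope is less than one. -/
theorem dropP (hk : ∀ c : k, c ≠ 0 → v (algebraMap k K c) = 1)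
    (hres : ∀ x : K, v x ≤ 1 → ∃ c : k, v (x - algebraMap k K c) < 1)
    (hG : ∀ x : K, x ≠ 0 → ∃ a, v x = ex (ω a))
    (hden : ∀ x y : ℝ, x < y → ∃ a, x < ω a ∧ ω a < y)
    (S : Sys k v d ω X y z f) {A b : ℝ} (hV : Vtx ω A b d f) (hb : b < 1)
    (hpure : ∀ j < d, ∀ i, ((LF ω A d f).coeff j).coeff i ≠ 0 → (i : ℝ) = ((d : ℝ) - j) * b)
    (hbn : ∃ n : ℕ, b = n / d.factorial) :
    ∃ (y' z' : DualNumber K) (f' : (AddMonoidAlgebra k (L × ℕ))[X]) (d1 : ℕ), d1 < d ∧
      Sys k v d1 ω X y' z' f' := by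
  by_cases hA : ∃ a, ω a = A
  · exact dropA1 hk hres hden S hV hb hA hbn
  · push Not at hA
    have hroot := S.root hk hV.A0.le hV.lv
    refine dropB1 hk hden S hV hb hpure (lt_of_le_of_ne hroot ?_)
    intro h
    have h0 : z.fst ≠ 0 := by
      intro h1
      rw [h1, map_zero] at h
      exact ex_ne _ h.symm
    obtain ⟨a, ha⟩ := hG _ h0
    rw [ha, ex_inj] at h
    exact hA a h

/-- A monomial of small degree. -/
lemma Stp.low (p : ℕ) [Fact p.Prime] [CharP k p] (hd : 0 < d)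
    (htop : (f.coeff d).coeff 0 ≠ 0) {γ : L} {A A' b : ℝ} {y' z' : DualNumber K}
    {f' : (AddMonoidAlgebra k (L × ℕ))[X]} {u : DualNumber K}
    {Φ R : AddMonoidAlgebra k (L × ℕ)} {c : k}
    (h : Stp k v d ω X γ A A' b b y z f y' z' f' u Φ R c) (hb : 1 ≤ b) :
    ∃ j < d, ∃ (i : ℕ) (β : L), (i : ℝ) < ((d : ℝ) - j) * b ∧ ω β = ((d : ℝ) - j) * A' ∧
      ((ShP γ (taylor Φ f)).coeff j).coeff (β, i) ≠ 0 := by
  set G := LF ω A' d (ShP γ (taylor Φ f)) with hG
  suffices hs : ∃ j < d, ∃ i : ℕ, (i : ℝ) < ((d : ℝ) - j) * b ∧ (G.coeff j).coeff i ≠ 0 by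
    obtain ⟨j, hj, i, hi, h1⟩ := hs
    rw [hG, LF_coeff] at h1
    obtain ⟨β, hβ, h2⟩ := slice_ne ω h.sys.inj h1
    exact ⟨j, hj, i, β, hi, hβ, h2⟩
  by_contra hcon
  push Not at hcon
  have hiv : ∀ j : ℕ, j < d → iv (((d : ℝ) - j) * b) (((d : ℝ) - j) * (b + 0)) (G.coeff j) := by
    intro j hj i hi
    rw [add_zero]
    refine ⟨?_, h.gdeg j hj i hi⟩
    by_contra h1
    push Not at h1
    exact hi (hcon j hj i h1)
  by_cases hA : ∃ a, ω a = A'
  · obtain ⟨a, ha⟩ := hA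
    have hnp : ∀ ρ, G ≠ C (C ((f.coeff d).coeff 0)) * (Polynomial.X - C ρ) ^ d := by
      intro ρ hρ
      obtain ⟨j, hj, h1⟩ := h.gnp ρ fun h2 => absurd ha (h2 a)
      apply h1
      rw [← hG, hρ, taylor_mul, taylor_C, taylor_pow, map_sub, taylor_X, taylor_C,
        add_sub_cancel_right, coeff_C_mul, coeff_X_pow, if_neg hj.ne, mul_zero]
    have h2 := lemB p hd htop h.gd h.ggt le_rfl hiv h.hc hnp _ _ h.gsl
    have h3 := h2.2 (by norm_num)
    linarith
  · push Not at hA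
    have hR0 : R = 0 := by
      ext μ
      by_contra h1
      exact hA _ (h.R0 μ h1).1
    have h1 := h.gsl
    rw [hR0, map_zero, taylor_zero] at h1
    obtain ⟨j, hj, h2⟩ := h.gnp 0 fun _ => rfl
    rw [taylor_zero] at h2
    have h3 : (0 : ℝ) < (d : ℝ) - j := by
      have : (j : ℝ) < d := by exact_mod_cast hj
      linarith
    have h4 := og_le_width h2 h.hc le_rfl (α := ((d : ℝ) - j) * b) (by
      have h5 := hiv j hj
      rw [add_zero] at h5
      rw [add_zero]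
      exact h5) (h1 j hj)
    nlinarith

end b

end Pool.Agent.H893
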