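import Pool.Agent.H893.N5

/-!
# Well ordered sets of real numbers
-/

set_option autoImplicit false
set_option linter.unusedVariables false
set_option linter.unusedSectionVars false

namespace Pool.Agent.H893

open Polynomial
open scoped NNReal Pointwise

section pwo

lemma pwo_gap {S : Set ℝ} (hS : S.IsPWO) (t : ℝ) : ∃ e : ℝ, 0 < e ∧ ∀ x ∈ S, t < x → t + e ≤ x := by
  by_cases h : (S ∩ Set.Ioi t).Nonempty
  · have h1 : (S ∩ Set.Ioi t).IsWF := (hS.mono Set.inter_subset_left).isWF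
    have h2 := h1.min_mem h
    refine ⟨h1.min h - t, by have := h2.2; rw [Set.mem_Ioi] at this; linarith, ?_⟩
    intro x hx htx
    have h3 := h1.min_le h ⟨hx, htx⟩
    linarith
  · refine ⟨1, one_pos, fun x hx htx => ?_⟩
    exact absurd ⟨x, hx, htx⟩ h

lemma pwo_neg {S : Set ℝ} (h0 : ∀ x ∈ S, x < 0)
    (hf : ∀ θ : ℝ, 0 < θ → {x ∈ S | x ≤ -θ}.Finite) : S.IsPWO := by
  rw [Set.isPWO_iff_isWF, Set.isWF_iff_no_descending_seq]
  intro f hfa hfS
  have h1 : ∀ n, f n ∈ S := fun n => hfS n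
  have h2 := h0 _ (h1 0)
  have h3 := hf (-(f 0)) (by linarith)
  rw [neg_neg] at h3
  refine Set.infinite_of_injective_forall_mem hfa.injective (fun n => ?_) h3
  exact ⟨h1 n, hfa.antitone (Nat.zero_le n)⟩

/-- Sums of at most `m` elements. -/
def Us (S0 D : Set ℝ) : ℕ → Set ℝ
  | 0 => S0
  | (m + 1) => Us S0 D m + D

lemma Us_pwo {S0 D : Set ℝ} (h0 : S0.IsPWO) (hD : D.IsPWO) (m : ℕ) : (Us S0 D m).IsPWO := by
  induction m with
  | zero => exact h0
  | succ m ih => exact ih.add hD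

lemma Us_gap {S0 D : Set ℝ} (h0 : S0.IsPWO) (hD : D.IsPWO) (t : ℝ) (M : ℕ) :
    ∃ e : ℝ, 0 < e ∧ ∀ m ≤ M, ∀ x ∈ Us S0 D m, t < x → t + e ≤ x := by
  induction M with
  | zero =>
    obtain ⟨e, he, h⟩ := pwo_gap (Us_pwo h0 hD 0) t
    refine ⟨e, he, fun m hm => ?_⟩
    obtain rfl : m = 0 := by omega
    exact h
  | succ M ih =>
    obtain ⟨e, he, h⟩ := ih
    obtain ⟨e', he', h'⟩ := pwo_gap (Us_pwo h0 hD (M + 1)) t
    refine ⟨min e e', lt_min he he', fun m hm x hx htx => ?_⟩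
    rcases Nat.lt_succ_iff_lt_or_eq.1 (Nat.lt_succ_of_le hm) with h1 | h1
    · have h2 := h m (by omega) x hx htx
      have := min_le_left e e'
      linarith
    · subst h1
      have h2 := h' x hx htx
      have := min_le_right e e'
      linarith

end pwo

section unb

variable {L : Type*} [AddCommGroup L] [Module.Free ℤ L] [Module.Finite ℤ L]

/-- The coordinates as real functionals. -/
noncomputable def nuF (s : ℤ) (i : Fin (Module.finrank ℤ L)) : L →+ ℝ where
  toFun l := ((s * (Module.finBasis ℤ L).repr l i : ℤ) : ℝ)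
  map_zero' := by simp
  map_add' := by
    intro a b
    rw [map_add, Finsupp.add_apply]
    push_cast
    ring

lemma exists_unbdd {Γ : ℕ → L} (hΓ : Function.Injective Γ) :
    ∃ ν : L →+ ℝ, ∀ (T : ℝ) (n0 : ℕ), ∃ n > n0, T < ν (Γ n) := by
  classical
  by_contra hcon
  push Not at hcon
  choose T n0 hT using hcon
  let I := Fin (Module.finrank ℤ L)
  -- the common bounds
  let N : ℕ := Finset.univ.sup fun i : I => max (n0 (nuF 1 i)) (n0 (nuF (-1) i))
  let B : ℤ := ∑ i : I, (|⌈T (nuF 1 i)⌉| + |⌈T (nuF (-1) i)⌉|)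
  have hB : ∀ i : I, |⌈T (nuF 1 i)⌉| + |⌈T (nuF (-1) i)⌉| ≤ B := fun i =>
    Finset.single_le_sum (f := fun i : I => |⌈T (nuF 1 i)⌉| + |⌈T (nuF (-1) i)⌉|)
      (fun j _ => by positivity) (Finset.mem_univ i)
  have hN : ∀ i : I, max (n0 (nuF 1 i)) (n0 (nuF (-1) i)) ≤ N := fun i =>
    Finset.le_sup (f := fun i : I => max (n0 (nuF 1 i)) (n0 (nuF (-1) i))) (Finset.mem_univ i)
  have hbd : ∀ n, N < n → ∀ i : I, |(Module.finBasis ℤ L).repr (Γ n) i| ≤ B := by
    intro n hn i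
    have h1 := hT (nuF 1 i) n (lt_of_le_of_lt ((le_max_left _ _).trans (hN i)) hn)
    have h2 := hT (nuF (-1) i) n (lt_of_le_of_lt ((le_max_right _ _).trans (hN i)) hn)
    have h3 : (Module.finBasis ℤ L).repr (Γ n) i ≤ ⌈T (nuF 1 i)⌉ := by
      have h4 : (((1 * (Module.finBasis ℤ L).repr (Γ n) i : ℤ)) : ℝ) ≤ T (nuF 1 i) := h1
      rw [one_mul] at h4
      exact_mod_cast h4.trans (Int.le_ceil _)
    have h5 : -(Module.finBasis ℤ L).repr (Γ n) i ≤ ⌈T (nuF (-1) i)⌉ := by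
      have h4 : (((-1 * (Module.finBasis ℤ L).repr (Γ n) i : ℤ)) : ℝ) ≤ T (nuF (-1) i) := h2
      rw [neg_one_mul] at h4
      exact_mod_cast h4.trans (Int.le_ceil _)
    have h6 := hB i
    have h7 := le_abs_self ⌈T (nuF 1 i)⌉
    have h8 := le_abs_self ⌈T (nuF (-1) i)⌉
    have h9 := abs_nonneg ⌈T (nuF 1 i)⌉
    have h10 := abs_nonneg ⌈T (nuF (-1) i)⌉
    rw [abs_le]
    constructor <;> omega
  have hfin : {l : L | ∀ i : I, |(Module.finBasis ℤ L).repr l i| ≤ B}.Finite := by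
    have h1 : (Set.Icc (fun _ : I => -B) (fun _ : I => B)).Finite := Set.finite_Icc _ _
    refine (h1.preimage (f := fun l : L => fun i : I => (Module.finBasis ℤ L).repr l i)
      (fun a _ b _ h => ?_)).subset ?_
    · apply (Module.finBasis ℤ L).repr.injective
      ext i
      exact congrFun h i
    · intro l hl
      rw [Set.mem_preimage, Set.mem_Icc]
      exact ⟨fun i => (abs_le.1 (hl i)).1, fun i => (abs_le.1 (hl i)).2⟩
  have h1 : Function.Injective fun n => Γ (N + 1 + n) := by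
    intro a b h
    have := hΓ h
    omega
  have h2 : ∀ n, (fun n => Γ (N + 1 + n)) n ∈
      {l : L | ∀ i : I, |(Module.finBasis ℤ L).repr l i| ≤ B} := by
    intro n
    exact hbd (N + 1 + n) (by omega)
  exact Set.infinite_of_injective_forall_mem h1 h2 hfin

end unb

end Pool.Agent.H893
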