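import Pool.Agent.H893.N6

/-!
# Sequences of unramified steps
-/

set_option autoImplicit false
set_option linter.unusedVariables false
set_option linter.unusedSectionVars false

namespace Pool.Agent.H893

open Polynomial
open scoped NNReal Pointwise

section supp

variable {k L : Type*} [Field k] [AddCommGroup L] [Module.Free ℤ L] [Module.Finite ℤ L]

lemma Yc_pow_supp (c : k) (n : ℕ) : ∀ ν : L × ℕ,
    ((Yv k L + AddMonoidAlgebra.single 0 c) ^ n).coeff ν ≠ 0 → ν.1 = 0 ∧ ν.2 ≤ n := by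
  classical
  induction n with
  | zero =>
    intro ν hν
    rw [pow_zero, AddMonoidAlgebra.one_def, AddMonoidAlgebra.coeff_single,
      Finsupp.single_apply] at hν
    split_ifs at hν with h
    · rw [← h]
      exact ⟨rfl, le_rfl⟩
    · exact absurd rfl hν
  | succ n ih =>
    intro ν hν
    rw [pow_succ] at hν
    obtain ⟨a, b, ha, hb, rfl⟩ := coeff_mul_ne hν
    obtain ⟨h1, h2⟩ := ih a ha
    have h3 : b.1 = 0 ∧ b.2 ≤ 1 := by
      rw [Yv, AddMonoidAlgebra.coeff_add, Finsupp.add_apply, AddMonoidAlgebra.coeff_single,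
        AddMonoidAlgebra.coeff_single, Finsupp.single_apply, Finsupp.single_apply] at hb
      by_cases h4 : ((0 : L), 1) = b
      · rw [← h4]
        exact ⟨rfl, le_rfl⟩
      · rw [if_neg h4, zero_add] at hb
        split_ifs at hb with h5
        · rw [← h5]
          exact ⟨rfl, Nat.zero_le _⟩
        · exact absurd rfl hb
    refine ⟨?_, ?_⟩
    · rw [Prod.fst_add, h1, h3.1, add_zero]
    · rw [Prod.snd_add]
      omega

lemma tau_supp {c : k} {g : AddMonoidAlgebra k (L × ℕ)} {ν : L × ℕ}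
    (h : (tau (AddMonoidAlgebra.single 0 c) g).coeff ν ≠ 0) :
    ∃ i, g.coeff (ν.1, ν.2 + i) ≠ 0 := by
  classical
  rw [sum_single g, map_sum, AddMonoidAlgebra.coeff_sum, Finsupp.finsetSum_apply] at h
  obtain ⟨μ, hμ, h1⟩ := Finset.exists_ne_zero_of_sum_ne_zero h
  rw [tau_single] at h1
  obtain ⟨a, b, ha, hb, hab⟩ := coeff_mul_ne h1
  rw [AddMonoidAlgebra.coeff_single, Finsupp.single_apply] at ha
  split_ifs at ha with h2
  · obtain ⟨h3, h4⟩ := Yc_pow_supp c μ.2 b hb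
    refine ⟨μ.2 - ν.2, ?_⟩
    have h5 : (ν.1, ν.2 + (μ.2 - ν.2)) = μ := by
      apply Prod.ext
      · rw [← hab, ← h2]
        simp [h3]
      · rw [← hab, ← h2]
        simp only [Prod.snd_add, zero_add]
        omega
    rw [h5]
    exact Finsupp.mem_support_iff.1 hμ
  · exact absurd rfl ha

lemma SuN.mapTau {N : ℕ → L × ℕ → Prop} (hcl : ∀ j β i, N j (β, i + 1) → N j (β, i)) {c : k}
    {f : (AddMonoidAlgebra k (L × ℕ))[X]} (hf : SuN N f) :
    SuN N (mapTau (AddMonoidAlgebra.single 0 c) f) := by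
  intro j ν hν
  rw [mapTau_coeff] at hν
  obtain ⟨i, hi⟩ := tau_supp hν
  have h1 := hf j _ hi
  clear hi hν
  induction i with
  | zero => exact h1
  | succ i ih => exact ih (hcl _ _ _ h1)

lemma SuN.ShP {N N' : ℕ → L × ℕ → Prop} {γ : L} (hcl : ∀ j μ, N j μ → N' j (shM γ μ))
    {f : (AddMonoidAlgebra k (L × ℕ))[X]} (hf : SuN N f) : SuN N' (ShP γ f) := by
  intro j ν hν
  rw [ShP_coeff] at hν
  obtain ⟨μ, hμ, rfl⟩ := Sh_ne γ hν
  exact hcl j μ (hf j μ hμ)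

end supp

section pseq

variable {k L : Type*} [Field k] [AddCommGroup L]  [Module.Free ℤ L] [Module.Finite ℤ L]

/-- A sequence of unramified steps with the same slope. -/
structure PSeq (d : ℕ) (ω : L →+ ℝ) (b : ℝ)
    (f : ℕ → (AddMonoidAlgebra k (L × ℕ))[X]) (Γ δ : ℕ → L)
    (Φ R : ℕ → AddMonoidAlgebra k (L × ℕ)) (c : ℕ → k) (A : ℕ → ℝ) : Prop where
  inj : Function.Injective ω
  Γs : ∀ n, Γ (n + 1) = Γ n + δ n
  δp : ∀ n, 0 < ω (δ n)
  As : ∀ n, A (n + 1) = A n + b * ω (δ n)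
  A0 : ∀ n, 0 < A n
  fs : ∀ n, f (n + 1) = mapTau (AddMonoidAlgebra.single 0 (c n))
    (taylor (R n) (ShP (δ n) (taylor (Φ n) (f n))))
  lv : ∀ n, Lv (wX ω) (A n) d (f n)
  ge0 : ∀ n j, (f n).coeff j ∈ ge (k := k) (wX ω) 0
  top : ∀ n, ((f n).coeff d).coeff 0 ≠ 0
  Φ0 : ∀ n μ, (Φ n).coeff μ ≠ 0 → 0 < wW ω (ω (δ n)) μ ∧ wW ω (ω (δ n)) μ < A (n + 1)
  ΦA : ∀ n μ, (Φ n).coeff μ ≠ 0 → A n ≤ ω μ.1
  lw : ∀ n, Lw (wW ω (ω (δ n))) (A (n + 1)) d (taylor (Φ n) (f n))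
  R0 : ∀ n μ, (R n).coeff μ ≠ 0 → ω μ.1 = A (n + 1) ∧ (μ.2 : ℝ) ≤ b
  vert : ∀ n, ∃ j < d, ∃ (i : ℕ) (β : L), (i : ℝ) = ((d : ℝ) - j) * b ∧
    ω β = ((d : ℝ) - j) * A n ∧ ((f n).coeff j).coeff (β, i) ≠ 0
  low : ∀ n, ∃ j < d, ∃ (i : ℕ) (β : L), (i : ℝ) < ((d : ℝ) - j) * b ∧
    ω β = ((d : ℝ) - j) * A (n + 1) ∧
    ((ShP (δ n) (taylor (Φ n) (f n))).coeff j).coeff (β, i) ≠ 0

variable {d : ℕ} {ω : L →+ ℝ} {b : ℝ} {f : ℕ → (AddMonoidAlgebra k (L × ℕ))[X]} {Γ δ : ℕ → L}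
    {Φ R : ℕ → AddMonoidAlgebra k (L × ℕ)} {c : ℕ → k} {A : ℕ → ℝ}

lemma PSeq.ωs (P : PSeq d ω b f Γ δ Φ R c A) (n : ℕ) : ω (Γ (n + 1)) = ω (Γ n) + ω (δ n) := by
  rw [P.Γs, map_add]

lemma PSeq.mono (P : PSeq d ω b f Γ δ Φ R c A) : StrictMono fun n => ω (Γ n) := by
  refine strictMono_nat_of_lt_succ fun n => ?_
  have h1 := P.ωs n
  have h2 := P.δp n
  change ω (Γ n) < ω (Γ (n + 1))
  linarith

lemma PSeq.Ai (P : PSeq d ω b f Γ δ Φ R c A) (Λ : ℝ) (n : ℕ) :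
    A n = (A 0 + b * (Λ - ω (Γ 0))) - b * (Λ - ω (Γ n)) := by
  induction n with
  | zero => ring
  | succ n ih =>
    rw [P.As, P.ωs, ih]
    ring

theorem PSeq.gap (P : PSeq d ω b f Γ δ Φ R c A) {B D : ℕ} (hD : 0 < D) (hb : b = B / D)
    (hb0 : 0 < b) {Λ : ℝ} (hΛ : ∀ n, ω (Γ n) < Λ)
    (hlim : ∀ θ : ℝ, 0 < θ → ∃ n0, ∀ n, n0 ≤ n → Λ - ω (Γ n) < θ) {Ai : ℝ}
    (hAi : Ai = A 0 + b * (Λ - ω (Γ 0))) :
    ∃ (M : ℕ) (e : ℝ), 0 < e ∧ ∀ (n j : ℕ) (μ : L × ℕ), ((f n).coeff j).coeff μ ≠ 0 →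
      D * μ.2 + B * j ≤ M ∧ (d * Ai < ω μ.1 + μ.2 * (Λ - ω (Γ n)) + j * Ai →
        d * Ai + e ≤ ω μ.1 + μ.2 * (Λ - ω (Γ n)) + j * Ai) := by
  classical
  have hDR : (0 : ℝ) < D := by exact_mod_cast hD
  have hbD : b * D = B := by rw [hb]; field_simp
  let ε : ℕ → ℝ := fun n => Λ - ω (Γ n)
  have hεdef : ∀ n, ε n = Λ - ω (Γ n) := fun n => rfl
  have hε : ∀ n, 0 < ε n := fun n => by rw [hεdef]; linarith [hΛ n]
  have hεs : ∀ n, ε n = ε (n + 1) + ω (δ n) := fun n => by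
    rw [hεdef, hεdef, P.ωs]
    ring
  have hεle : ∀ n, ε (n + 1) ≤ ε n := fun n => by
    have := hεs n
    have := P.δp n
    linarith
  have hAn : ∀ n, A n = Ai - b * ε n := fun n => by
    rw [hAi, hεdef]
    exact P.Ai Λ n
  -- the pieces
  let Dv : ℕ → L × ℕ → ℝ := fun n ν => Ai - (ω ν.1 + ν.2 * ε n)
  have hΦ1 : ∀ n ν, (Φ n).coeff ν ≠ 0 → (ν.2 : ℝ) < b ∧ (b - ν.2) * ε (n + 1) < Dv n ν ∧
      Dv n ν ≤ (b - ν.2) * ε n := by
    intro n ν hν
    have h1 := (P.Φ0 n ν hν).2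
    have h2 := P.ΦA n ν hν
    rw [wW_apply, hAn] at h1
    rw [hAn] at h2
    have h3 := hεs n
    have h4 := P.δp n
    have h5 : (ν.2 : ℝ) < b := by
      have h6 : (ν.2 : ℝ) * ω (δ n) < b * ω (δ n) := by
        rw [h3] at h2
        linarith
      exact lt_of_mul_lt_mul_right h6 h4.le
    refine ⟨h5, ?_, ?_⟩
    · change (b - ν.2) * ε (n + 1) < Ai - (ω ν.1 + ν.2 * ε n)
      rw [h3]
      linarith
    · change Ai - (ω ν.1 + ν.2 * ε n) ≤ (b - ν.2) * ε n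
      linarith
  let Ds : Set ℝ := {x | ∃ n, x = -ε (n + 1) ∨ (∃ ν, (Φ n).coeff ν ≠ 0 ∧ x = -Dv n ν) ∨
    (∃ i : ℕ, D * i < B ∧ x = -((b - i) * ε (n + 1)))}
  have hiB : ∀ i : ℕ, D * i < B → (i : ℝ) < b := by
    intro i hi
    have h1 : (D : ℝ) * i < B := by exact_mod_cast hi
    rw [← hbD] at h1
    nlinarith
  have hDneg : ∀ x ∈ Ds, x < 0 := by
    rintro x ⟨n, h | ⟨ν, hν, h⟩ | ⟨i, hi, h⟩⟩
    · rw [h]
      linarith [hε (n + 1)]
    · obtain ⟨h1, h2, h3⟩ := hΦ1 n ν hν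
      rw [h]
      have h4 := mul_pos (by linarith : 0 < b - ν.2) (hε (n + 1))
      linarith
    · rw [h]
      have h4 := mul_pos (by linarith [hiB i hi] : 0 < b - i) (hε (n + 1))
      linarith
  have hDfin : ∀ θ : ℝ, 0 < θ → {x ∈ Ds | x ≤ -θ}.Finite := by
    intro θ hθ
    obtain ⟨n0, hn0⟩ := hlim (θ / (b + 1)) (by positivity)
    have hsmall : ∀ n, n0 ≤ n → b * ε n < θ ∧ ε n < θ := by
      intro n hn
      have h1 := hn0 n hn
      change ε n < _ at h1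
      rw [lt_div_iff₀ (by linarith)] at h1
      have h2 := hε n
      constructor
      · nlinarith
      · nlinarith [mul_pos hb0 h2]
    let Fn : ℕ → Finset ℝ := fun n => {-ε (n + 1)} ∪ (Φ n).coeff.support.image (fun ν => -Dv n ν) ∪
      (Finset.range (B + 1)).image fun i : ℕ => -((b - i) * ε (n + 1))
    refine ((Finset.range n0).biUnion Fn).finite_toSet.subset ?_
    rintro x ⟨⟨n, hx⟩, hxθ⟩
    have hn : n < n0 := by
      by_contra hcon
      push Not at hcon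
      obtain ⟨h1, h2⟩ := hsmall n hcon
      have h3 := hεle n
      rcases hx with h | ⟨ν, hν, h⟩ | ⟨i, hi, h⟩
      · rw [h] at hxθ
        linarith
      · obtain ⟨h4, h5, h6⟩ := hΦ1 n ν hν
        rw [h] at hxθ
        have h7 : (0 : ℝ) ≤ ν.2 * ε n := mul_nonneg (Nat.cast_nonneg _) (hε n).le
        linarith
      · rw [h] at hxθ
        have h7 : (0 : ℝ) ≤ i * ε (n + 1) := mul_nonneg (Nat.cast_nonneg _) (hε _).le
        have h8 : b * ε (n + 1) ≤ b * ε n := mul_le_mul_of_nonneg_left h3 hb0.le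
        linarith
    rw [Finset.mem_coe, Finset.mem_biUnion]
    refine ⟨n, Finset.mem_range.2 hn, ?_⟩
    rw [Finset.mem_union, Finset.mem_union]
    rcases hx with h | ⟨ν, hν, h⟩ | ⟨i, hi, h⟩
    · exact Or.inl (Or.inl (Finset.mem_singleton.2 h))
    · exact Or.inl (Or.inr (Finset.mem_image.2 ⟨ν, Finsupp.mem_support_iff.2 hν, h.symm⟩))
    · refine Or.inr (Finset.mem_image.2 ⟨i, ?_, h.symm⟩)
      rw [Finset.mem_range]
      have h9 : i ≤ D * i := Nat.le_mul_of_pos_left _ hD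
      omega
  have hDpwo := pwo_neg hDneg hDfin
  -- the initial exponents
  let F : Finset (Σ _ : ℕ, L × ℕ) := (Finset.range ((f 0).natDegree + 1)).sigma
    fun j => ((f 0).coeff j).coeff.support
  have hF : ∀ j μ, ((f 0).coeff j).coeff μ ≠ 0 → (⟨j, μ⟩ : Σ _ : ℕ, L × ℕ) ∈ F := by
    intro j μ hμ
    refine Finset.mem_sigma.2 ⟨?_, Finsupp.mem_support_iff.2 hμ⟩
    rw [Finset.mem_range]
    by_contra h
    apply hμ
    have h2 : (f 0).natDegree < j := by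
      change ¬ j < (f 0).natDegree + 1 at h
      omega
    rw [coeff_eq_zero_of_natDegree_lt h2]
    rfl
  let S0 : Set ℝ := (F.image fun t : (Σ _ : ℕ, L × ℕ) =>
    ω t.2.1 + t.2.2 * ε 0 + t.1 * Ai : Finset ℝ)
  have hS0 : S0.IsPWO := (Finset.finite_toSet _).isPWO
  set M : ℕ := F.sup fun t => D * t.2.2 + B * t.1 with hM
  obtain ⟨e, he, hgap⟩ := Us_gap hS0 hDpwo (d * Ai) M
  -- the invariant
  let UN : ℝ → ℕ → L × ℕ → Prop := fun η j μ => ∃ m : ℕ, m + (D * μ.2 + B * j) ≤ M ∧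
    ω μ.1 + μ.2 * η + j * Ai ∈ Us S0 Ds m
  -- the closure under the pieces
  have hcl : ∀ (η : ℝ) (j : ℕ) (μ ν : L × ℕ), UN η (j + 1) μ →
      ((D * ν.2 < B ∧ (ω ν.1 + ν.2 * η) - Ai ∈ Ds) ∨
        (D * ν.2 = B ∧ ω ν.1 + ν.2 * η = Ai)) → UN η j (μ + ν) := by
    rintro η j μ ν ⟨m, hm, hmU⟩ (⟨h1, h2⟩ | ⟨h1, h2⟩)
    · refine ⟨m + 1, ?_, ?_⟩
      · rw [Prod.snd_add, mul_add]
        rw [mul_add, mul_one] at hm
        omega
      · have h3 := Set.add_mem_add hmU h2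
        have h4 : ω (μ + ν).1 + ((μ + ν).2 : ℕ) * η + j * Ai =
            (ω μ.1 + μ.2 * η + ((j + 1 : ℕ) : ℝ) * Ai) + ((ω ν.1 + ν.2 * η) - Ai) := by
          rw [Prod.fst_add, Prod.snd_add, map_add]
          push_cast
          ring
        rw [h4]
        exact h3
    · refine ⟨m, ?_, ?_⟩
      · rw [Prod.snd_add, mul_add, h1]
        rw [mul_add, mul_one] at hm
        omega
      · have h4 : ω (μ + ν).1 + ((μ + ν).2 : ℕ) * η + j * Ai =
            (ω μ.1 + μ.2 * η + ((j + 1 : ℕ) : ℝ) * Ai) := by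
          rw [Prod.fst_add, Prod.snd_add, map_add]
          push_cast
          linear_combination h2
        rw [h4]
        exact hmU
  have hmain : ∀ n, SuN (UN (ε n)) (f n) := by
    intro n
    induction n with
    | zero =>
      intro j μ hμ
      have h1 := hF j μ hμ
      refine ⟨0, ?_, ?_⟩
      · rw [zero_add]
        exact Finset.le_sup (f := fun t : (Σ _ : ℕ, L × ℕ) => D * t.2.2 + B * t.1) h1
      · exact Finset.mem_coe.2 (Finset.mem_image.2 ⟨_, h1, rfl⟩)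
    | succ n ih =>
      have h1 : SuN (UN (ε n)) (taylor (Φ n) (f n)) := by
        refine ih.taylor (hcl (ε n)) fun ν hν => ?_
        obtain ⟨h2, h3, h4⟩ := hΦ1 n ν hν
        left
        refine ⟨?_, n, Or.inr (Or.inl ⟨ν, hν, ?_⟩)⟩
        · have h5 : ((D * ν.2 : ℕ) : ℝ) < (B : ℕ) := by
            push_cast
            rw [← hbD]
            nlinarith
          exact_mod_cast h5
        · change _ = -(Ai - (ω ν.1 + ν.2 * ε n))
          ring
      have h2 : SuN (UN (ε (n + 1))) (ShP (δ n) (taylor (Φ n) (f n))) := by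
        refine h1.ShP ?_
        rintro j μ ⟨m, hm, hmU⟩
        refine ⟨m, hm, ?_⟩
        have h3 : ω (shM (δ n) μ).1 + ((shM (δ n) μ).2 : ℕ) * ε (n + 1) + j * Ai =
            ω μ.1 + μ.2 * ε n + j * Ai := by
          simp only [shM, map_add, map_nsmul, nsmul_eq_mul]
          rw [hεs n]
          ring
        rw [h3]
        exact hmU
      have h3 : SuN (UN (ε (n + 1))) (taylor (R n) (ShP (δ n) (taylor (Φ n) (f n)))) := by
        refine h2.taylor (hcl (ε (n + 1))) fun ν hν => ?_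
        obtain ⟨h4, h5⟩ := P.R0 n ν hν
        have h6 : D * ν.2 ≤ B := by
          have h7 : ((D * ν.2 : ℕ) : ℝ) ≤ (B : ℕ) := by
            push_cast
            rw [← hbD]
            nlinarith
          exact_mod_cast h7
        rw [h4, hAn]
        rcases h6.lt_or_eq with h7 | h7
        · left
          exact ⟨h7, n, Or.inr (Or.inr ⟨ν.2, h7, by ring⟩)⟩
        · right
          refine ⟨h7, ?_⟩
          have h8 : (D : ℝ) * ν.2 = B := by exact_mod_cast h7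
          have h9 : (ν.2 : ℝ) = b := by
            rw [← hbD] at h8
            have h10 : (D : ℝ) * (ν.2 - b) = 0 := by linarith
            rcases mul_eq_zero.1 h10 with h11 | h11
            · exact absurd h11 hDR.ne'
            · linarith
          rw [h9]
          ring
      rw [P.fs]
      refine h3.mapTau ?_
      rintro j β i ⟨m, hm, hmU⟩
      refine ⟨m + 1, ?_, ?_⟩
      · simp only at hm ⊢
        rw [mul_add, mul_one] at hm
        omega
      · have h4 : -ε (n + 1) ∈ Ds := ⟨n, Or.inl rfl⟩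
        have h5 := Set.add_mem_add hmU h4
        have h6 : ω β + (i : ℕ) * ε (n + 1) + j * Ai =
            (ω β + ((i + 1 : ℕ) : ℝ) * ε (n + 1) + j * Ai) + -ε (n + 1) := by
          push_cast
          ring
        change ω β + (i : ℕ) * ε (n + 1) + j * Ai ∈ _
        rw [h6]
        exact h5
  refine ⟨M, e, he, fun n j μ hμ => ?_⟩
  obtain ⟨m, hm, hmU⟩ := hmain n j μ hμ
  exact ⟨by omega, fun h => hgap m (by omega) _ hmU h⟩

end pseq

end Pool.Agent.H893
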