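import Pool.Agent.H893.N7

/-!
# The contraction argument
-/

set_option autoImplicit false
set_option linter.unusedVariables false
set_option linter.unusedSectionVars false

namespace Pool.Agent.H893

open Polynomial
open scoped NNReal Pointwise

section nn

variable {L : Type*} [AddCommGroup L]

/-- The possible exponents. -/
def NN (ω ν : L →+ ℝ) (d : ℕ) (b Ai Mr e εs C T Di : ℝ) (s : Prop) (ε g E : ℝ) (j : ℕ)
    (μ : L × ℕ) : Prop :=
  ((μ.2 : ℝ) + b * j ≤ Mr ∧
    d * Ai + e - (Mr - (μ.2 + b * j)) * εs ≤ ω μ.1 + μ.2 * ε + j * Ai) ∨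
  ((μ.2 : ℝ) + b * j ≤ d * b ∧
    ω μ.1 + μ.2 * ε + j * Ai ≤ d * Ai - (d * b - (μ.2 + b * j)) * E ∧
    (s → (μ.2 : ℝ) + b * j < d * b →
      ω μ.1 + μ.2 * ε + j * Ai < d * Ai - (d * b - (μ.2 + b * j)) * E) ∧
    ν μ.1 - μ.2 * g ≤ ((d : ℝ) - j) * C + (d * b - (μ.2 + b * j)) * T) ∨
  (ν μ.1 - μ.2 * g ≤ ((d : ℝ) - j) * C + (d * b - Di - (μ.2 + b * j)) * T)

variable {ω ν : L →+ ℝ} {d : ℕ} {b Ai Mr e εs C T Di : ℝ} {s : Prop} {ε g E : ℝ}

lemma NN.piece {j : ℕ} {μ ν0 : L × ℕ} (h : NN ω ν d b Ai Mr e εs C T Di s ε g E (j + 1) μ)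
    (h1 : (ν0.2 : ℝ) ≤ b) (hlo : (b - ν0.2) * E ≤ Ai - (ω ν0.1 + ν0.2 * ε))
    (hs : s → (b - ν0.2) * E < Ai - (ω ν0.1 + ν0.2 * ε))
    (hhi : Ai - (ω ν0.1 + ν0.2 * ε) ≤ (b - ν0.2) * εs)
    (hν : ν ν0.1 - ν0.2 * g ≤ C + (b - ν0.2) * T) :
    NN ω ν d b Ai Mr e εs C T Di s ε g E j (μ + ν0) := by
  unfold NN at h ⊢
  simp only [Prod.fst_add, Prod.snd_add, map_add, Nat.cast_add, Nat.cast_one] at h ⊢
  rcases h with ⟨h2, h3⟩ | ⟨h2, h3, h4, h5⟩ | h2
  · left
    constructor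
    · linarith
    · linarith
  · right; left
    refine ⟨by linarith, by linarith, fun hs' _ => ?_, by linarith⟩
    have := hs hs'
    linarith
  · right; right
    linarith

lemma NN.tau {j : ℕ} {β : L} {i : ℕ} (h : NN ω ν d b Ai Mr e εs C T Di False ε g E j (β, i + 1))
    (hE : E ≤ ε) (hε : ε ≤ εs) (hg : g ≤ T) :
    NN ω ν d b Ai Mr e εs C T Di False ε g E j (β, i) := by
  unfold NN at h ⊢
  simp only [Nat.cast_add, Nat.cast_one] at h ⊢
  rcases h with ⟨h2, h3⟩ | ⟨h2, h3, h4, h5⟩ | h2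
  · left
    constructor
    · linarith
    · linarith
  · right; left
    refine ⟨by linarith, by linarith, fun hs' _ => hs'.elim, by linarith⟩
  · right; right
    linarith

lemma NN.sh {j : ℕ} {μ : L × ℕ} {δ : L} {ε' g' : ℝ}
    (h : NN ω ν d b Ai Mr e εs C T Di s ε g E j μ) (hε : ε = ε' + ω δ) (hg : g' = g + ν δ) :
    NN ω ν d b Ai Mr e εs C T Di s ε' g' E j (shM δ μ) := by
  subst hε
  subst hg
  unfold NN at h ⊢
  simp only [shM, map_add, map_nsmul, nsmul_eq_mul]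
  have h1 : ω μ.1 + μ.2 * ω δ + μ.2 * ε' + j * Ai = ω μ.1 + μ.2 * (ε' + ω δ) + j * Ai := by ring
  have h2 : ν μ.1 + μ.2 * ν δ - μ.2 * (g + ν δ) = ν μ.1 - μ.2 * g := by ring
  rw [h1, h2]
  exact h

lemma NN.weak {j : ℕ} {μ : L × ℕ} (h : NN ω ν d b Ai Mr e εs C T Di s ε g E j μ) :
    NN ω ν d b Ai Mr e εs C T Di False ε g E j μ := by
  rcases h with h | ⟨h2, h3, h4, h5⟩ | h
  · exact Or.inl h
  · exact Or.inr (Or.inl ⟨h2, h3, fun h => h.elim, h5⟩)
  · exact Or.inr (Or.inr h)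

lemma NN.strict {j : ℕ} {μ : L × ℕ} {E' : ℝ} (h : NN ω ν d b Ai Mr e εs C T Di s ε g E j μ)
    (hE : E' < E) : NN ω ν d b Ai Mr e εs C T Di True ε g E' j μ := by
  rcases h with h | ⟨h2, h3, h4, h5⟩ | h
  · exact Or.inl h
  · refine Or.inr (Or.inl ⟨h2, ?_, fun _ h6 => ?_, h5⟩)
    · have h7 : (d * b - (μ.2 + b * j)) * E' ≤ (d * b - (μ.2 + b * j)) * E :=
        mul_le_mul_of_nonneg_left hE.le (by linarith)
      linarith
    · have h7 : (d * b - (μ.2 + b * j)) * E' < (d * b - (μ.2 + b * j)) * E :=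
        mul_lt_mul_of_pos_left hE (by linarith)
      linarith
  · exact Or.inr (Or.inr h)

end nn

section contr

variable {k L : Type*} [Field k] [AddCommGroup L] [Module.Free ℤ L] [Module.Finite ℤ L]
  {d : ℕ} {ω : L →+ ℝ} {b : ℝ} {f : ℕ → (AddMonoidAlgebra k (L × ℕ))[X]} {Γ δ : ℕ → L}
    {Φ R : ℕ → AddMonoidAlgebra k (L × ℕ)} {c : ℕ → k} {A : ℕ → ℝ}

theorem PSeq.false (p : ℕ) [Fact p.Prime] [CharP k p] (P : PSeq d ω b f Γ δ Φ R c A) {B D : ℕ}
    (hD : 0 < D) (hb : b = B / D) (hb0 : 0 < b) (hd : 0 < d)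
    (hbd : ∃ Cb : ℝ, ∀ n, ω (Γ n) ≤ Cb) : False := by
  classical
  have hp : p.Prime := Fact.out
  have hDR : (0 : ℝ) < D := by exact_mod_cast hD
  have hdR : (0 : ℝ) < d := by exact_mod_cast hd
  have hbD : b * D = B := by rw [hb]; field_simp
  -- the limit
  obtain ⟨Cb, hCb⟩ := hbd
  have hbdd : BddAbove (Set.range fun n => ω (Γ n)) := ⟨Cb, by rintro _ ⟨n, rfl⟩; exact hCb n⟩
  set Λ := ⨆ n, ω (Γ n) with hΛdef
  have htend : Filter.Tendsto (fun n => ω (Γ n)) Filter.atTop (nhds Λ) :=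
    tendsto_atTop_ciSup P.mono.monotone hbdd
  have hΛ : ∀ n, ω (Γ n) < Λ := fun n =>
    lt_of_lt_of_le (P.mono (Nat.lt_succ_self n)) (le_ciSup hbdd (n + 1))
  have hlim : ∀ θ : ℝ, 0 < θ → ∃ n0, ∀ n, n0 ≤ n → Λ - ω (Γ n) < θ := by
    intro θ hθ
    have h1 := htend.eventually (lt_mem_nhds (by linarith : Λ - θ < Λ))
    obtain ⟨n0, hn0⟩ := Filter.eventually_atTop.1 h1
    exact ⟨n0, fun n hn => by have := hn0 n hn; linarith⟩
  set Ai := A 0 + b * (Λ - ω (Γ 0)) with hAi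
  obtain ⟨M, e, he, hgap⟩ := P.gap hD hb hb0 hΛ hlim hAi
  set ε : ℕ → ℝ := fun n => Λ - ω (Γ n) with hεf
  have hεdef : ∀ n, ε n = Λ - ω (Γ n) := fun n => rfl
  have hε : ∀ n, 0 < ε n := fun n => by rw [hεdef]; linarith [hΛ n]
  have hεs : ∀ n, ε n = ε (n + 1) + ω (δ n) := fun n => by
    rw [hεdef, hεdef, P.ωs]
    ring
  have hεlt : ∀ n, ε (n + 1) < ε n := fun n => by
    have := hεs n
    have := P.δp n
    linarith
  have hεanti : ∀ m n, m ≤ n → ε n ≤ ε m := by
    intro m n hmn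
    rw [hεdef, hεdef]
    have : ω (Γ m) ≤ ω (Γ n) := P.mono.monotone hmn
    linarith
  have hAn : ∀ n, A n = Ai - b * ε n := fun n => by
    rw [hAi, hεdef]
    exact P.Ai Λ n
  -- the stage
  set Mr : ℝ := M / D with hMr
  have hMr0 : 0 ≤ Mr := by positivity
  obtain ⟨ns, hns⟩ := hlim (e / (Mr + 1)) (by positivity)
  have hns' := hns ns le_rfl
  set εs := ε ns with hεs'
  have hεs0 : 0 < εs := hε ns
  have hMe : Mr * εs < e := by
    rw [← hεdef, lt_div_iff₀ (by linarith)] at hns'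
    have h1 : ε ns = εs := rfl
    rw [h1] at hns'
    nlinarith
  -- the functional
  have hΓinj : Function.Injective Γ := fun m n h => P.mono.injective (congrArg ω h)
  obtain ⟨ν, hν⟩ := exists_unbdd hΓinj
  -- the constants
  let F : Finset (Σ _ : ℕ, L × ℕ) := (Finset.range ((f ns).natDegree + 1)).sigma
    fun j => ((f ns).coeff j).coeff.support
  have hF : ∀ j μ, ((f ns).coeff j).coeff μ ≠ 0 → (⟨j, μ⟩ : Σ _ : ℕ, L × ℕ) ∈ F := by
    intro j μ hμ
    refine Finset.mem_sigma.2 ⟨?_, Finsupp.mem_support_iff.2 hμ⟩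
    rw [Finset.mem_range]
    by_contra h
    apply hμ
    have h2 : (f ns).natDegree < j := by
      change ¬ j < (f ns).natDegree + 1 at h
      omega
    rw [coeff_eq_zero_of_natDegree_lt h2]
    rfl
  set C : ℝ := ∑ t ∈ F, |ν t.2.1 - t.2.2 * ν (Γ ns)| with hC
  have hC0 : 0 ≤ C := Finset.sum_nonneg fun t _ => abs_nonneg _
  have hCle : ∀ j μ, ((f ns).coeff j).coeff μ ≠ 0 → |ν μ.1 - μ.2 * ν (Γ ns)| ≤ C := by
    intro j μ hμ
    exact Finset.single_le_sum (f := fun t : (Σ _ : ℕ, L × ℕ) => |ν t.2.1 - t.2.2 * ν (Γ ns)|)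
      (fun t _ => abs_nonneg _) (hF j μ hμ)
  set T : ℝ := 2 * d * C * D + 1 with hT
  have hT0 : 0 < T := by positivity
  obtain ⟨N, hNns, hNT, hNmin⟩ : ∃ N, ns ≤ N ∧ T < ν (Γ (N + 1)) ∧
      ∀ n, ns < n → n ≤ N → ν (Γ n) ≤ T := by
    have hex : ∃ n, ns < n ∧ T < ν (Γ n) := by
      obtain ⟨n, hn1, hn2⟩ := hν T ns
      exact ⟨n, hn1, hn2⟩
    obtain ⟨h1, h2⟩ := Nat.find_spec hex
    refine ⟨Nat.find hex - 1, by omega, ?_, ?_⟩
    · rw [Nat.sub_add_cancel (by omega)]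
      exact h2
    · intro n hn1 hn2
      by_contra hcon
      push Not at hcon
      have h3 := Nat.find_min' hex ⟨hn1, hcon⟩
      omega
  -- the vertex
  obtain ⟨jv, hjv, iv', βv, hiv, hβv, hcv⟩ := P.vert ns
  have hjvR : (0 : ℝ) < (d : ℝ) - jv := by
    have : (jv : ℝ) < d := by exact_mod_cast hjv
    linarith
  set κ := ν βv - iv' * ν (Γ ns) with hκ
  have hκC : |κ| ≤ C := hCle jv (βv, iv') hcv
  have hjv1 : (1 : ℝ) ≤ (d : ℝ) - jv := by
    have h1 : ((jv + 1 : ℕ) : ℝ) ≤ d := by exact_mod_cast hjv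
    push_cast at h1
    linarith
  have hκd : |κ / ((d : ℝ) - jv)| ≤ C := by
    rw [abs_div, abs_of_pos hjvR, div_le_iff₀ hjvR]
    nlinarith [abs_nonneg κ]
  have hvert : ∀ (n : ℕ) (x : L) (t : ℕ), ω x = t * A n →
      ν x = t * (κ / ((d : ℝ) - jv) + b * ν (Γ n)) := by
    intro n x t hx
    -- the vertex in the coordinates of the stage `n`
    have h1 : ω (βv + iv' • (Γ n - Γ ns)) = ((d : ℝ) - jv) * A n := by
      rw [map_add, hβv, map_nsmul, map_sub, nsmul_eq_mul, hiv, hAn, hAn, hεdef, hεdef]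
      ring
    have hd' : ((d - jv : ℕ) : ℝ) = (d : ℝ) - jv := Nat.cast_sub hjv.le
    have h2 : (d - jv) • x = t • (βv + iv' • (Γ n - Γ ns)) := by
      apply P.inj
      rw [map_nsmul, map_nsmul, hx, h1, nsmul_eq_mul, nsmul_eq_mul, hd']
      ring
    have h3 := congrArg ν h2
    rw [map_nsmul, map_nsmul, nsmul_eq_mul, nsmul_eq_mul, hd', map_add, map_nsmul, map_sub,
      nsmul_eq_mul] at h3
    have h4 : ((d : ℝ) - jv) * ν x =
        ((d : ℝ) - jv) * (t * (κ / ((d : ℝ) - jv) + b * ν (Γ n))) := by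
      rw [h3, hκ, hiv]
      field_simp
      ring
    exact mul_left_cancel₀ hjvR.ne' h4
  -- the exponents
  obtain ⟨r, d', hpd', hde⟩ := Nat.exists_eq_pow_mul_and_not_dvd hd.ne' p hp.ne_one
  have hd'0 : 0 < d' := by
    rcases Nat.eq_zero_or_pos d' with h1 | h1
    · rw [h1, mul_zero] at hde
      omega
    · exact h1
  have hq0 : 0 < p ^ r := pow_pos hp.pos r
  have hqd : p ^ r ≤ d := by
    rw [hde]
    exact Nat.le_mul_of_pos_right _ hd'0
  have hinj : Function.Injective fun μ : L × ℕ => (p ^ r) • μ := by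
    intro μ ν h
    have h1 : (p ^ r) • μ.1 = (p ^ r) • ν.1 := congrArg Prod.fst h
    have h2 : (p ^ r) • μ.2 = (p ^ r) • ν.2 := congrArg Prod.snd h
    apply Prod.ext
    · apply P.inj
      have h3 := congrArg ω h1
      rw [map_nsmul, map_nsmul, nsmul_eq_mul, nsmul_eq_mul] at h3
      exact mul_left_cancel₀ (by exact_mod_cast hq0.ne') h3
    · rw [smul_eq_mul, smul_eq_mul] at h2
      exact Nat.eq_of_mul_eq_mul_left hq0 h2
  have hΦ1 : ∀ n ν, (Φ n).coeff ν ≠ 0 → (ν.2 : ℝ) < b ∧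
      (b - ν.2) * ε (n + 1) < Ai - (ω ν.1 + ν.2 * ε n) ∧
      Ai - (ω ν.1 + ν.2 * ε n) ≤ (b - ν.2) * ε n := by
    intro n ν hν
    have h1 := (P.Φ0 n ν hν).2
    have h2 := P.ΦA n ν hν
    rw [wW_apply, hAn] at h1
    rw [hAn] at h2
    have h3 := hεs n
    have h4 := P.δp n
    have h5 : (ν.2 : ℝ) < b := by
      have h6 : (ν.2 : ℝ) * ω (δ n) < b * ω (δ n) := by
        rw [h3] at h2
        linarith
      exact lt_of_mul_lt_mul_right h6 h4.le
    refine ⟨h5, ?_, ?_⟩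
    · rw [h3]
      linarith
    · linarith
  let Q : Prop → ℝ → ℝ → ℝ → ℕ → L × ℕ → Prop := NN ω ν d b Ai Mr e εs C T (1 / D)
  -- the start
  have hstart : SuN (Q False (ε ns) (ν (Γ ns)) (ε ns)) (f ns) := by
    intro j μ hμ
    obtain ⟨h1, h2⟩ := hgap ns j μ hμ
    have h1R : (μ.2 : ℝ) + b * j ≤ Mr := by
      rw [hMr, le_div_iff₀ hDR]
      have h3 : ((D * μ.2 + B * j : ℕ) : ℝ) ≤ M := by exact_mod_cast h1
      push_cast at h3
      rw [← hbD] at h3
      linarith
    rw [← hεdef] at h2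
    by_cases hW : d * Ai < ω μ.1 + μ.2 * ε ns + j * Ai
    · left
      refine ⟨h1R, ?_⟩
      have h3 := h2 hW
      have h4 : 0 ≤ (Mr - (μ.2 + b * j)) * εs := mul_nonneg (by linarith) hεs0.le
      linarith
    · push Not at hW
      right
      have h3 := P.lv ns j μ hμ
      rw [wX_apply, hAn] at h3
      have h4 : (μ.2 : ℝ) + b * j ≤ d * b := by
        have h5 : ((μ.2 : ℝ) + b * j) * ε ns ≤ d * b * ε ns := by linarith
        exact le_of_mul_le_mul_right h5 (hε ns)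
      have hνC := (le_abs_self _).trans (hCle j μ hμ)
      rcases h4.lt_or_eq with h5 | h5
      · right
        have h6 : (μ.2 : ℝ) + b * j ≤ d * b - 1 / D := by
          have h7 : ((D * μ.2 + B * j : ℕ) : ℝ) < (B * d : ℕ) := by
            push_cast
            rw [← hbD]
            have := mul_lt_mul_of_pos_left h5 hDR
            linarith
          have h8 : D * μ.2 + B * j + 1 ≤ B * d := by exact_mod_cast h7
          have h9 : ((D * μ.2 + B * j + 1 : ℕ) : ℝ) ≤ (B * d : ℕ) := by exact_mod_cast h8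
          push_cast at h9
          rw [← hbD] at h9
          have h10 : (μ.2 : ℝ) + b * j + 1 / D ≤ d * b := by
            have h11 : ((μ.2 : ℝ) + b * j + 1 / D) * D ≤ (d * b) * D := by
              have h12 : (1 / (D : ℝ)) * D = 1 := by field_simp
              linarith
            exact le_of_mul_le_mul_right h11 hDR
          linarith
        have hjd : j < d := by
          have h7 : b * j < b * d := by
            have : (0 : ℝ) ≤ μ.2 := Nat.cast_nonneg _
            linarith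
          have h8 := lt_of_mul_lt_mul_left h7 hb0.le
          exact_mod_cast h8
        have h7 : (1 : ℝ) ≤ (d : ℝ) - j := by
          have h8 : ((j + 1 : ℕ) : ℝ) ≤ d := by exact_mod_cast hjd
          push_cast at h8
          linarith
        have h8 : C ≤ ((d : ℝ) - j) * C := by nlinarith
        have h9 : 0 ≤ (d * b - 1 / D - (μ.2 + b * j)) * T := mul_nonneg (by linarith) hT0.le
        linarith
      · left
        refine ⟨h4, ?_, fun h => h.elim, ?_⟩
        · rw [h5]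
          linarith
        · rw [h5, sub_self, zero_mul, add_zero]
          have hjd : j ≤ d := by
            have h7 : b * j ≤ b * d := by
              have : (0 : ℝ) ≤ μ.2 := Nat.cast_nonneg _
              linarith
            have h8 := le_of_mul_le_mul_left h7 hb0
            exact_mod_cast h8
          rcases hjd.lt_or_eq with h6 | h6
          · have h7 : (1 : ℝ) ≤ (d : ℝ) - j := by
              have h8 : ((j + 1 : ℕ) : ℝ) ≤ d := by exact_mod_cast h6
              push_cast at h8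
              linarith
            nlinarith
          · subst h6
            have h7 : (μ.2 : ℝ) = 0 := by linarith
            have h8 := P.ge0 ns j μ hμ
            rw [wX_apply] at h8
            rw [h7] at hW
            have h9 : ω μ.1 = 0 := by linarith
            have h10 : μ.1 = 0 := P.inj (by rw [h9, map_zero])
            rw [h10, h7, map_zero]
            simp
  -- the translations
  have hΦstep : ∀ n, ns ≤ n → SuN (Q False (ε n) (ν (Γ n)) (ε n)) (f n) →
      SuN (Q True (ε (n + 1)) (ν (Γ (n + 1))) (ε (n + 1)))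
        (ShP (δ n) (taylor (Φ n) (f n))) := by
    intro n hn hf
    have h1 : SuN (Q True (ε n) (ν (Γ n)) (ε (n + 1))) (f n) := fun j μ hμ =>
      (hf j μ hμ).strict (hεlt n)
    have hge : ∀ j, (f n).coeff j ∈ ge (k := k) (wW ω (ω (δ n))) 0 := by
      intro j μ hμ
      have h2 := P.ge0 n j μ hμ
      have h3 := P.δp n
      rw [wX_apply] at h2
      rw [wW_apply]
      positivity
    have h2 := (rootN p r hinj hde hpd' hd (P.top n)
      (sub_single_gt P.inj (P.δp n) (P.ge0 n d)) hge (P.Φ0 n) (P.lw n) h1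
      (P := fun x => (x.2 : ℝ) < b ∧
        (b - x.2) * ε (n + 1) < Ai - (ω x.1 + x.2 * ε n) ∧
        Ai - (ω x.1 + x.2 * ε n) ≤ (b - x.2) * ε n ∧
        ν x.1 - x.2 * ν (Γ n) ≤ C + (b - x.2) * T) ?_ ?_).2
    · refine h2.ShP ?_
      intro j μ h
      exact h.sh (hεs n) (by rw [P.Γs, map_add])
    · intro x hx hN
      obtain ⟨h3, h4, h5⟩ := hΦ1 n x hx
      refine ⟨h3, h4, h5, ?_⟩
      have hqR : (0 : ℝ) < ((p ^ r : ℕ) : ℝ) := by exact_mod_cast hq0
      have hdq : ((d - p ^ r : ℕ) : ℝ) = (d : ℝ) - ((p ^ r : ℕ) : ℝ) := Nat.cast_sub hqd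
      set q : ℝ := ((p ^ r : ℕ) : ℝ) with hq
      have hx1 : ((p ^ r) • x).1 = (p ^ r) • x.1 := rfl
      have hx2 : (((p ^ r) • x).2 : ℝ) = q * x.2 := by
        have : ((p ^ r) • x).2 = p ^ r * x.2 := rfl
        rw [this]
        push_cast
        rw [hq]
        push_cast
        ring
      change NN ω ν d b Ai Mr e εs C T (1 / D) True (ε n) (ν (Γ n)) (ε (n + 1))
        (d - p ^ r) ((p ^ r) • x) at hN
      unfold NN at hN
      rw [hx1, hx2, map_nsmul, map_nsmul, nsmul_eq_mul, nsmul_eq_mul, hdq, ← hq] at hN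
      have h6 : 0 < b - x.2 := by linarith
      have h7 : 0 < (b - x.2) * ε (n + 1) := mul_pos h6 (hε _)
      have h8 : 0 < Ai - (ω x.1 + x.2 * ε n) := by linarith
      rcases hN with ⟨h9, h10⟩ | ⟨h9, h10, h11, h12⟩ | h9
      · exfalso
        have h13 : (Mr - (q * x.2 + b * (d - q))) * εs ≤ Mr * εs := by
          refine mul_le_mul_of_nonneg_right ?_ hεs0.le
          have h14 : 0 ≤ q * x.2 := mul_nonneg hqR.le (Nat.cast_nonneg _)
          have h15 : (0 : ℝ) ≤ b * (d - q) := mul_nonneg hb0.le (by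
            have : q ≤ d := by
              rw [hq]
              exact_mod_cast hqd
            linarith)
          linarith
        have h14 := mul_pos hqR h8
        linarith
      · have h13 : q * (ν x.1 - x.2 * ν (Γ n)) ≤ q * (C + (b - x.2) * T) := by linarith
        exact le_of_mul_le_mul_left h13 hqR
      · have h14 : 0 ≤ (1 / (D : ℝ)) * T := by positivity
        have h13 : q * (ν x.1 - x.2 * ν (Γ n)) ≤ q * (C + (b - x.2) * T) := by linarith
        exact le_of_mul_le_mul_left h13 hqR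
    · rintro j μ x hμ ⟨h3, h4, h5, h6⟩
      refine hμ.piece h3.le h4.le (fun _ => h4) (h5.trans ?_) h6
      exact mul_le_mul_of_nonneg_left (hεanti ns n hn) (by linarith)
  have hstep : ∀ n, ns ≤ n → n + 1 ≤ N → SuN (Q False (ε n) (ν (Γ n)) (ε n)) (f n) →
      SuN (Q False (ε (n + 1)) (ν (Γ (n + 1))) (ε (n + 1))) (f (n + 1)) := by
    intro n hn hnN hf
    have h1 := hΦstep n hn hf
    have hg := hNmin (n + 1) (by omega) hnN
    have h2 : SuN (Q False (ε (n + 1)) (ν (Γ (n + 1))) (ε (n + 1)))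
        (ShP (δ n) (taylor (Φ n) (f n))) := fun j μ hμ => (h1 j μ hμ).weak
    have h3 : SuN (Q False (ε (n + 1)) (ν (Γ (n + 1))) (ε (n + 1)))
        (taylor (R n) (ShP (δ n) (taylor (Φ n) (f n)))) := by
      refine h2.taylor (P := fun x => ω x.1 = A (n + 1) ∧ (x.2 : ℝ) ≤ b) ?_ (P.R0 n)
      rintro j μ x hμ ⟨h4, h5⟩
      have h6 : Ai - (ω x.1 + x.2 * ε (n + 1)) = (b - x.2) * ε (n + 1) := by
        rw [h4, hAn]
        ring
      refine hμ.piece h5 h6.ge (fun h => h.elim) (h6.le.trans ?_) ?_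
      · exact mul_le_mul_of_nonneg_left (hεanti ns (n + 1) (by omega)) (by linarith)
      · have h7 := hvert (n + 1) x.1 1 (by rw [h4, Nat.cast_one, one_mul])
        rw [Nat.cast_one, one_mul] at h7
        rw [h7]
        have h8 := (le_abs_self _).trans hκd
        have h9 : (b - x.2) * ν (Γ (n + 1)) ≤ (b - x.2) * T :=
          mul_le_mul_of_nonneg_left hg (by linarith)
        linarith
    rw [P.fs]
    refine h3.mapTau ?_
    intro j β i h4
    exact h4.tau le_rfl (hεanti ns (n + 1) (by omega)) hg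
  have hall : ∀ n, ns ≤ n → n ≤ N → SuN (Q False (ε n) (ν (Γ n)) (ε n)) (f n) := by
    intro n hn
    induction n, hn using Nat.le_induction with
    | base => intro _; exact hstart
    | succ n hn ih => intro hnN; exact hstep n hn hnN (ih (by omega))
  have hfin := hΦstep N hNns (hall N hNns le_rfl)
  obtain ⟨j, hj, i, β, hi, hβ, hcf⟩ := P.low N
  have h1 := hfin j (β, i) hcf
  have hm : 0 < ((d : ℝ) - j) * b - i := by linarith
  have hWeq : ω β + i * ε (N + 1) + j * Ai = d * Ai - (d * b - (i + b * j)) * ε (N + 1) := by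
    rw [hβ, hAn]
    ring
  have hν1 := hvert (N + 1) β (d - j) (by rw [hβ, Nat.cast_sub hj.le])
  rw [Nat.cast_sub hj.le] at hν1
  change NN ω ν d b Ai Mr e εs C T (1 / D) True (ε (N + 1)) (ν (Γ (N + 1))) (ε (N + 1)) j
    (β, i) at h1
  unfold NN at h1
  simp only at h1
  rw [hWeq] at h1
  have h0 : 0 < (d * b - (i + b * j)) * ε (N + 1) := mul_pos (by linarith) (hε _)
  rcases h1 with ⟨h2, h3⟩ | ⟨h2, h3, h4, h5⟩ | h2
  · have h6 : (Mr - (i + b * j)) * εs ≤ Mr * εs := by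
      refine mul_le_mul_of_nonneg_right ?_ hεs0.le
      have h14 : (0 : ℝ) ≤ i := Nat.cast_nonneg _
      have h15 : (0 : ℝ) ≤ b * j := by positivity
      linarith
    linarith
  · exact lt_irrefl _ (h4 trivial (by linarith))
  · rw [hν1] at h2
    have hjR : (0 : ℝ) < (d : ℝ) - j := by
      have : (j : ℝ) < d := by exact_mod_cast hj
      linarith
    have h3 : -C ≤ κ / ((d : ℝ) - jv) := (abs_le.1 hκd).1
    have h4 : ((d : ℝ) - j) * (-C) ≤ ((d : ℝ) - j) * (κ / ((d : ℝ) - jv)) :=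
      mul_le_mul_of_nonneg_left h3 hjR.le
    have h5 : (((d : ℝ) - j) * b - i) * T ≤ (((d : ℝ) - j) * b - i) * ν (Γ (N + 1)) :=
      mul_le_mul_of_nonneg_left hNT.le hm.le
    have h6 : (1 / (D : ℝ)) * T ≤ 2 * ((d : ℝ) - j) * C := by linarith
    have h7 : 2 * ((d : ℝ) - j) * C ≤ 2 * d * C := by
      have : (0 : ℝ) ≤ j * C := by positivity
      linarith
    have h8 : T ≤ 2 * d * C * D := by
      have h9 : (1 / (D : ℝ)) * T ≤ 2 * d * C := h6.trans h7
      rw [one_div, inv_mul_le_iff₀ hDR] at h9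
      linarith
    rw [hT] at h8
    linarith

end contr

end Pool.Agent.H893
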