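import Pool.Agent.H893.Sy

/-!
# The ramified step
-/

set_option autoImplicit false
set_option linter.unusedVariables false
set_option linter.unusedSectionVars false

namespace Pool.Agent.H893

open Polynomial
open scoped NNReal

section core

variable {k K L : Type*} [Field k] [Field K] [Algebra k K] [AddCommGroup L]
  [Module.Free ℤ L] [Module.Finite ℤ L] {v : Valuation K ℝ≥0}

/-- The chart which contains the exponents. -/
lemma exists_chart_f {ω : L →+ ℝ} (hω : Function.Injective ω)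
    (f : (AddMonoidAlgebra k (L × ℕ))[X]) (hf : ∀ j, f.coeff j ∈ ge (k := k) (wX ω) 0) :
    ∃ (s : ℕ) (b : Module.Basis (Fin s) ℤ L), (∀ j, 0 < ω (b j)) ∧
      ∀ j, f.coeff j ∈ inP k ((chartP b).prod ⊤) := by
  classical
  let F : Finset (L × ℕ) := (Finset.range (f.natDegree + 1)).biUnion
    fun j => (f.coeff j).coeff.support
  let D : Finset L := (F.image Prod.fst).filter fun β => β ≠ 0
  have hF : ∀ j μ, (f.coeff j).coeff μ ≠ 0 → μ ∈ F := by
    intro j μ hμ
    refine Finset.mem_biUnion.2 ⟨j, ?_, Finsupp.mem_support_iff.2 hμ⟩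
    rw [Finset.mem_range]
    by_contra h
    apply hμ
    rw [coeff_eq_zero_of_natDegree_lt (by omega)]
    rfl
  obtain ⟨s, b, hb, hD⟩ := exists_chart ω hω D (by
    intro d hd
    obtain ⟨h1, h2⟩ := Finset.mem_filter.1 hd
    obtain ⟨μ, hμ, rfl⟩ := Finset.mem_image.1 h1
    obtain ⟨j, -, hj⟩ := Finset.mem_biUnion.1 hμ
    have h3 := hf j μ (Finsupp.mem_support_iff.1 hj)
    rw [wX_apply] at h3
    refine lt_of_le_of_ne h3 fun h4 => h2 (hω ?_)
    rw [← h4, map_zero])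
  refine ⟨s, b, hb, fun j μ hμ => ⟨?_, trivial⟩⟩
  by_cases h0 : μ.1 = 0
  · change μ.1 ∈ chartP b
    rw [h0]
    exact (chartP b).zero_mem
  · exact hD μ.1 (Finset.mem_filter.2 ⟨Finset.mem_image.2 ⟨μ, hF j μ hμ, rfl⟩, h0⟩)

/-- The substitution in the coefficients. -/
noncomputable def mapTau (ψ : AddMonoidAlgebra k (L × ℕ)) (f : (AddMonoidAlgebra k (L × ℕ))[X]) :
    (AddMonoidAlgebra k (L × ℕ))[X] :=
  f.map (tau ψ : AddMonoidAlgebra k (L × ℕ) →+* AddMonoidAlgebra k (L × ℕ))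

lemma mapTau_coeff (ψ : AddMonoidAlgebra k (L × ℕ)) (f : (AddMonoidAlgebra k (L × ℕ))[X])
    (j : ℕ) : (mapTau ψ f).coeff j = tau ψ (f.coeff j) := by
  rw [mapTau, coeff_map]
  rfl

/-- The step on polynomials. -/
lemma step_poly {ω' : L →+ ℝ} (hω' : Function.Injective ω') {A' : ℝ} (hA' : 0 < A') {d : ℕ}
    {g : (AddMonoidAlgebra k (L × ℕ))[X]} (hg0 : ∀ j, g.coeff j ∈ ge (k := k) (wX ω') 0)
    (hglv : Lv (wX ω') A' d g) {c0 : k} (hc0 : c0 ≠ 0) (hgd : (LF ω' A' d g).coeff d = C c0)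
    (hggt : ∀ j, d < j → (LF ω' A' d g).coeff j = 0)
    {ρ : k[X]} {R : AddMonoidAlgebra k (L × ℕ)} (hR : R ∈ ge (k := k) (wX ω') A')
    (hRs : slice ω' A' R = ρ) {c : k} {b : ℝ} (hb : 0 ≤ b)
    (hsl : Slc c d b (taylor ρ (LF ω' A' d g)))
    (hρ : (∀ a, ω' a ≠ A') → ρ = 0)
    (huns : ∀ ρ' : k[X], ((∀ a, ω' a ≠ A') → ρ' = 0) → ∃ j : ℕ, j < d ∧ ∃ i : ℕ,
        (i : ℝ) ≤ ((d : ℝ) - j) * b ∧
        (taylor c ((taylor (ρ' + ρ) (LF ω' A' d g)).coeff j)).coeff i ≠ 0)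
    {ψ : AddMonoidAlgebra k (L × ℕ)} (hψ : ψ ∈ ge (k := k) (wX ω') 0)
    (hψc : slice ω' 0 ψ = C c) :
    Vtx ω' A' b d (mapTau ψ (taylor R g)) ∧
    (∀ j, (mapTau ψ (taylor R g)).coeff j ∈
      ge (k := k) (wX ω') 0) ∧
    ((mapTau ψ (taylor R g)).coeff d).coeff 0 ≠ 0 ∧
    ∀ j < d, ((mapTau ψ (taylor R g)).coeff j).coeff 0 =
      0 := by
  set g2 := taylor R g with hg2
  set f' := mapTau ψ g2 with hf'
  have hcoef : ∀ j, f'.coeff j = tau ψ (g2.coeff j) := fun j => mapTau_coeff ψ g2 j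
  have hg2lv : Lv (wX ω') A' d g2 := hglv.taylor hR
  have hlv : Lv (wX ω') A' d f' := by
    intro j
    rw [hcoef]
    exact tau_ge hψ (hg2lv j)
  have hLF2 : LF ω' A' d g2 = taylor ρ (LF ω' A' d g) := by
    rw [hg2, LF_taylor ω' hglv hR, hRs]
  have hLF : LF ω' A' d f' = (taylor ρ (LF ω' A' d g)).map
      (taylorAlgHom c : k[X] →+* k[X]) := by
    ext1 j
    rw [LF_coeff, hcoef, slice_tau hψ hψc (hg2lv j), ← LF_coeff, hLF2, coeff_map]
    rfl
  have hge0 : ∀ j, f'.coeff j ∈ ge (k := k) (wX ω') 0 := by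
    intro j
    rw [hcoef]
    exact tau_ge hψ (ge_zero_taylor hg0 (ge_mono hA'.le hR) j)
  refine ⟨⟨hA', hb, hlv, ?_, ?_⟩, hge0, ?_, ?_⟩
  · intro j hj
    rw [hLF, coeff_map, taylor_zero]
    exact hsl j hj
  · intro ρ'' hρ''
    obtain ⟨j, hj, i, hi, h1⟩ := huns (taylor (-c) ρ'') (fun ha => by rw [hρ'' ha, map_zero])
    refine ⟨j, hj, i, hi, ?_⟩
    have h2 : ρ'' = (taylorAlgHom c : k[X] →+* k[X]) (taylor (-c) ρ'') := by
      change ρ'' = taylor c (taylor (-c) ρ'')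
      rw [taylor_taylor, add_neg_cancel, taylor_zero]
    rw [hLF, h2, ← map_taylor, taylor_taylor, coeff_map]
    exact h1
  · have h1 : (LF ω' A' d f').coeff d = C c0 := by
      rw [hLF, coeff_map]
      have h2 : (taylor ρ (LF ω' A' d g)).coeff d = C c0 := by
        rw [coeff_taylor _ ρ d ((LF ω' A' d g).natDegree + d + 1) (by omega),
          Finset.sum_eq_single_of_mem d (Finset.mem_range.2 (by omega))]
        · rw [hgd]
          simp
        · intro i _ hid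
          rcases lt_or_gt_of_ne hid with h3 | h3
          · rw [Nat.choose_eq_zero_of_lt h3]
            simp
          · rw [hggt i h3]
            simp
      rw [h2]
      exact taylor_C _ _
    rw [LF_coeff, sub_self, zero_mul] at h1
    have h2 := slice_coeff ω' hω' (f'.coeff d) 0 0
    rw [map_zero, h1, coeff_C_zero] at h2
    rw [← Prod.zero_eq_mk] at h2
    rw [← h2]
    exact hc0
  · intro j hj
    by_contra h1
    have h2 := hlv j 0 h1
    rw [map_zero] at h2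
    have h3 : (0 : ℝ) < (d : ℝ) - j := by
      have : (j : ℝ) < d := by exact_mod_cast hj
      linarith
    have h4 : 0 < ((d : ℝ) - j) * A' := mul_pos h3 hA'
    linarith

end core

end Pool.Agent.H893
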