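import Pool.Agent.H893.P1

/-!
# The ramified step for systems
-/

set_option autoImplicit false
set_option linter.unusedVariables false
set_option linter.unusedSectionVars false

namespace Pool.Agent.H893

open Polynomial
open scoped NNReal

section core

variable {k K L : Type*} [Field k] [Field K] [Algebra k K] [AddCommGroup L]
  [Module.Free ℤ L] [Module.Finite ℤ L] {v : Valuation K ℝ≥0}

theorem core (p : ℕ) [Fact p.Prime] [CharP k p]
    (hk : ∀ c : k, c ≠ 0 → v (algebraMap k K c) = 1) (H : HypH k L v)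
    (htr : Algebra.trdeg k K = ((Module.finrank ℤ L + 1 : ℕ) : Cardinal))
    {d : ℕ} {ω : L →+ ℝ} {X : Multiplicative L →* (DualNumber K)ˣ}
    {y z : DualNumber K} {f : (AddMonoidAlgebra k (L × ℕ))[X]} (S : Sys k v d ω X y z f)
    {η : ℝ} (hη : 0 < η) (hyη : v y.fst = ex η) (hηω : ∀ a, ω a ≠ η)
    {A b : ℝ} (hA : 0 ≤ A) (hb : 0 ≤ b) (hlv : Lv (wX ω) A d f) (hsl : Slc 0 d b (LF ω A d f))
    (Bd : ℝ) (hBd : ∀ Φ : AddMonoidAlgebra k (L × ℕ), Φ ∈ gt (k := k) (wW ω η) 0 →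
      Φ ∈ ge (k := k) (wX ω) A → og b (slice ω A Φ) → ∀ A', Lw (wW ω η) A' d (taylor Φ f) →
      A' ≤ Bd)
    (Q : ℝ → ℝ → Prop)
    (hw : ∀ Φ : AddMonoidAlgebra k (L × ℕ), Φ ∈ ge (k := k) (wX ω) A → og b (slice ω A Φ) →
      ∀ A', 0 < A' → Lw (wW ω η) A' d (taylor Φ f) →
      (∃ j : ℕ, j < d ∧ ∃ μ, ((taylor Φ f).coeff j).coeff μ ≠ 0 ∧
        wW ω η μ = ((d : ℝ) - j) * A') →
      ∃ w : ℝ, 0 ≤ w ∧ Q A' w ∧ ∀ (j : ℕ) (μ : L × ℕ), j < d →
        ((taylor Φ f).coeff j).coeff μ ≠ 0 → wW ω η μ = ((d : ℝ) - j) * A' →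
        (μ.2 : ℝ) ≤ ((d : ℝ) - j) * w) :
    ∃ (ω' : L →+ ℝ) (X' : Multiplicative L →* (DualNumber K)ˣ) (y' z' : DualNumber K)
      (f' : (AddMonoidAlgebra k (L × ℕ))[X]) (η' A' w : ℝ) (n : ℕ),
      Sys k v d ω' X' y' z' f' ∧ 0 < η' ∧ v y'.fst = ex η' ∧ (∀ a, ω' a ≠ η') ∧
      (∃ a, ω' a = η) ∧ Q A' w ∧ 0 ≤ w ∧ Vtx ω' A' (n / d.factorial) d f' ∧
      ((∃ a, ω' a = A') → (n : ℝ) / d.factorial ≤ w / 2 + 1 / 2 ∧
        (w ≤ 1 → (n : ℝ) / d.factorial < 1)) ∧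
      ((∀ a, ω' a ≠ A') → (n : ℝ) / d.factorial ≤ w / 2) := by
  classical
  have hd : 0 < d := S.d_pos hk
  obtain ⟨s, bs, hbs, hfP⟩ := exists_chart_f S.inj f S.ge0
  obtain ⟨Φ, A', hReg, hA', hLw, hatt, huns⟩ := phaseA p S.inj hη bs hbs hd S.top rfl hfP S.low
    hA hb hlv hsl Bd (fun Φ hΦ A' h => hBd Φ (gt_of_coeff_zero S.inj hη
      (ge_mono hA hΦ.2.1) hΦ.2.2.2) hΦ.2.1 hΦ.2.2.1 A' h)
  obtain ⟨w, hw0, hQ, hwid⟩ := hw Φ hReg.2.1 hReg.2.2.1 A' hA' hLw hatt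
  have hΦgt : Φ ∈ gt (k := k) (wW ω η) 0 := gt_of_coeff_zero S.inj hη
    (ge_mono hA hReg.2.1) hReg.2.2.2
  set f1 := taylor Φ f with hf1
  have hf1P : ∀ j, f1.coeff j ∈ inP k ((chartP bs).prod ⊤) := fun j => inP_taylor hfP hReg.1 j
  have hpos : ∀ j μ, (f1.coeff j).coeff μ ≠ 0 → μ = 0 ∨ 0 < wW ω η μ := by
    intro j μ hμ
    have h1 := hf1P j μ hμ
    have h2 := chartP_nonneg hbs h1.1
    by_cases h3 : μ = 0
    · exact Or.inl h3
    · right
      have h4 : AddMonoidAlgebra.single μ (1 : k) ∈ gt (k := k) (wW ω η) 0 := by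
        apply gt_of_coeff_zero S.inj hη
        · exact single_mem_ge fun _ => h2
        · rw [AddMonoidAlgebra.coeff_single, Finsupp.single_apply, if_neg h3]
      exact h4 μ (by
        rw [AddMonoidAlgebra.coeff_single, Finsupp.single_eq_same]
        exact one_ne_zero)
  -- the change of monomials
  let F : Finset (L × ℕ) := (Finset.range (f1.natDegree + 1)).biUnion
    fun j => (f1.coeff j).coeff.support
  have hF : ∀ j μ, (f1.coeff j).coeff μ ≠ 0 → μ ∈ F := by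
    intro j μ hμ
    refine Finset.mem_biUnion.2 ⟨j, ?_, Finsupp.mem_support_iff.2 hμ⟩
    rw [Finset.mem_range]
    by_contra h
    apply hμ
    rw [coeff_eq_zero_of_natDegree_lt (by omega)]
    rfl
  have hy0 : y.fst ≠ 0 := by
    intro h
    rw [h, map_zero] at hyη
    exact ex_ne _ hyη.symm
  obtain ⟨m0, hm0, a0, ha0⟩ := S.rr y.fst hy0
  obtain ⟨ω', e, m, ys, hFe⟩ := exists_YS S.inj hηω ⟨m0, hm0, a0, by
    rw [hyη, ← ex_nmul, ex_inj] at ha0
    exact ha0.symm⟩ F (by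
      intro μ hμ
      obtain ⟨j, -, hj⟩ := Finset.mem_biUnion.1 hμ
      exact hpos j μ (Finsupp.mem_support_iff.1 hj))
  have hne : ∀ j, f1.coeff j ∈ inP k (Ne' e) := fun j μ hμ => hFe μ (hF j μ hμ)
  have hf0W : ∀ j, f.coeff j ∈ ge (k := k) (wW ω η) 0 := by
    intro j μ hμ
    have h1 := S.ge0 j μ hμ
    rw [wX_apply] at h1
    rw [wW_apply]
    positivity
  have hfd : (f1.coeff d).coeff 0 = (f.coeff d).coeff 0 := by
    have h1 := coeff_taylor_top le_rfl hf0W hΦgt d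
    by_contra h2
    have h3 := h1 0 (by
      rw [AddMonoidAlgebra.coeff_sub, Finsupp.sub_apply]
      exact sub_ne_zero.2 h2)
    rw [map_zero] at h3
    exact lt_irrefl _ h3
  have hDat : Dat ω η ω' e m d f1 ((f.coeff d).coeff 0) A' w :=
    { inj := S.inj
      hη := hη
      ys := ys
      hd := hd
      hc0 := S.top
      fd := hfd
      pos := hpos
      ne := hne
      hA' := hA'
      lw := hLw
      att := hatt
      uns := huns
      hw := hw0
      wid := hwid }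
  -- the new point
  obtain ⟨yU, hyU⟩ : ∃ yU : (DualNumber K)ˣ, (yU : DualNumber K) = y := by
    have h1 : IsUnit y := by
      rw [TrivSqZeroExt.isUnit_iff_isUnit_fst]
      exact isUnit_iff_ne_zero.2 hy0
    exact h1
  set yK : Kˣ := Units.map ((TrivSqZeroExt.fstHom k K K : DualNumber K →ₐ[k] K) :
    DualNumber K →* K) yU with hyK
  have hyKv : (yK : K) = y.fst := by
    rw [← hyU]
    rfl
  set X' := nX e X yU with hX'
  set u := nu e X yU with hu
  have hXK : XK k X' = nX e (XK k X) yK := XK_nX e X yU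
  have huK : (u : DualNumber K).fst = (nu e (XK k X) yK : K) := fst_nu e X yU
  have hX'v : ∀ β, v (X' (.ofAdd β) : DualNumber K).fst = ex (ω' β) := by
    intro β
    have h1 := ys.v_Mon (X := XK k X) (y := yK) S.hX (by rw [hyKv, hyη]) (e.symm (β, 0))
    rw [AddEquiv.apply_symm_apply] at h1
    rw [← h1, ← XK_apply (k := k), hXK]
    rfl
  have huv : v (u : DualNumber K).fst = 1 := by
    have h1 := ys.v_Mon (X := XK k X) (y := yK) S.hX (by rw [hyKv, hyη]) (e.symm (0, 1))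
    rw [AddEquiv.apply_symm_apply, map_zero, ex_zero] at h1
    rw [huK, ← h1]
    rfl
  have hal : Function.Injective (ev k (XK k X') (u : DualNumber K).fst) := by
    refine inj_mono htr ?_ (S.al hk htr)
    have h1 : ((∀ β, (nX e (XK k X) yK β : K) ∈ FE k (XK k X') (u : DualNumber K).fst) ∧
        (nu e (XK k X) yK : K) ∈ FE k (XK k X') (u : DualNumber K).fst) := by
      rw [← hXK, ← huK]
      exact ⟨fun β => X_mem_FE _ _ _, y_mem_FE _ _⟩
    rw [← nX_mem] at h1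
    exact FE_le h1.1 (by rw [← hyKv]; exact h1.2)
  obtain ⟨ψ, c, η', hψ0, hψc, hψη, hη', hηω', hc1⟩ := ready hk H ys.inj hX'v hal huv.le
  have hc : c ≠ 0 := by
    rintro rfl
    rw [map_zero, sub_zero, huv] at hc1
    exact lt_irrefl _ hc1
  obtain ⟨ρ, n, hρ0, hρs, hρu, hcase1, hcase2⟩ := phaseB p hDat hc
  obtain ⟨R, hR, hRs⟩ := exists_R (L := L) (ω := ω') (A := A') ρ hρ0
  have hD0 : (0 : ℝ) < d.factorial := by exact_mod_cast d.factorial_pos
  have hTm0 : ∀ j, (TmP e f1).coeff j ∈ ge (k := k) (wX ω') 0 := by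
    intro j
    rw [TmP_coeff]
    exact ys.Tm_ge (hDat.ge0 j)
  obtain ⟨hVtx, hge0, htop, hlow⟩ := step_poly ys.inj hA' hTm0 hDat.lv S.top hDat.G_d hDat.G_gt
    hR hRs (c := c) (b := (n : ℝ) / d.factorial) (by positivity) hρs hρ0 hρu hψ0 hψc
  set f' := mapTau (inc k L ψ) (taylor R (TmP e f1)) with hf'
  set z2 := z - ev k X y Φ - ev k X' (u : DualNumber K) R with hz2
  have hEV : EV k X' (u - evL k X' ψ) z2 f' = EV k X y z f := by
    rw [hf', mapTau, EV_tau, hz2, EV_taylor, hX', hu, EV_TmP X yU _ hne, hyU, EV_taylor]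
  have hevR : v (ev k X' (u : DualNumber K) R).fst ≤ ex A' := by
    rw [fst_ev]
    refine v_ev_le (η := 0) hk hX'v (by rw [huv, ex_zero]) ?_
    rw [wW_zero]
    exact hR
  have hevΦ : v (ev k X y Φ).fst < 1 := by
    rw [fst_ev, ← ex_zero]
    exact v_ev_lt hk S.hX hyη.le hΦgt
  have hm2 : (2 : ℝ) ≤ m := by exact_mod_cast ys.m2
  have hwm : w / m ≤ w / 2 := div_le_div_of_nonneg_left hw0 two_pos hm2
  refine ⟨ω', X', u - evL k X' ψ, z2, f', η', A', w, n, ?_, hη', ?_, hηω', ?_, hQ, hw0, hVtx, ?_,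
    ?_⟩
  · refine ⟨ys.inj, hX'v, ?_, ?_, ?_, ?_, ?_, hge0, htop, hlow, ?_⟩
    · rw [TrivSqZeroExt.fst_sub, fst_evL, hψη]
      exact ex_lt_one.2 hη'
    · rw [hz2, TrivSqZeroExt.fst_sub, TrivSqZeroExt.fst_sub]
      refine lt_of_le_of_lt (v.map_sub _ _) (max_lt ?_ ?_)
      · exact lt_of_le_of_lt (v.map_sub _ _) (max_lt S.hz hevΦ)
      · exact lt_of_le_of_lt hevR (ex_lt_one.2 hA')
    · intro F' hF1 hF2 hF3
      rw [TrivSqZeroExt.fst_sub, fst_evL] at hF2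
      have h1 : evL k (XK k X') ψ ∈ F' := by
        rw [← ev_inc (XK k X') 0]
        exact ev_mem hF1 (zero_mem _) _
      have h2 : (u : DualNumber K).fst ∈ F' := by
        have h3 := add_mem hF2 h1
        rwa [sub_add_cancel] at h3
      have h3 : ((∀ β, (nX e (XK k X) yK β : K) ∈ F') ∧ (nu e (XK k X) yK : K) ∈ F') := by
        rw [← hXK, ← huK]
        exact ⟨hF1, h2⟩
      rw [← nX_mem] at h3
      have h4 : y.fst ∈ F' := by rw [← hyKv]; exact h3.2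
      refine S.gen F' h3.1 h4 ?_
      have h5 : z.fst = z2.fst + (ev k X y Φ).fst + (ev k X' (u : DualNumber K) R).fst := by
        rw [hz2, TrivSqZeroExt.fst_sub, TrivSqZeroExt.fst_sub]
        ring
      rw [h5, fst_ev, fst_ev]
      exact add_mem (add_mem hF3 (ev_mem h3.1 h4 _)) (ev_mem hF1 h2 _)
    · rw [hEV]
      exact S.fz
    · rw [hEV]
      exact S.fne
    · intro x hx
      obtain ⟨m1, hm1, a1, ha1⟩ := S.rr x hx
      refine ⟨m1, hm1, (e (a1, 0)).1, ?_⟩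
      rw [ha1, ys.wt]
      simp
  · rw [TrivSqZeroExt.fst_sub, fst_evL, hψη]
  · refine ⟨(e (0, 1)).1, ?_⟩
    rw [ys.wt]
    simp
  · intro ha
    obtain ⟨h1, h2⟩ := hcase1 ha
    refine ⟨h1.trans (by linarith), fun h3 => h2 ?_⟩
    linarith
  · intro ha
    exact (hcase2 ha).trans hwm

end core

end Pool.Agent.H893
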