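import Pool.Agent.H893.P2

/-!
# Consequences of the ramified step
-/

set_option autoImplicit false
set_option linter.unusedVariables false
set_option linter.unusedSectionVars false

namespace Pool.Agent.H893

open Polynomial
open scoped NNReal

section steps

variable {k K L : Type*} [Field k] [Field K] [Algebra k K] [AddCommGroup L]
  [Module.Free ℤ L] [Module.Finite ℤ L] {v : Valuation K ℝ≥0}

/-- The bound for the level in terms of the vertex. -/
lemma vtx_bound {ω : L →+ ℝ} (hω : Function.Injective ω) {η : ℝ} (hη : 0 < η) {A b : ℝ} {d : ℕ}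
    {f : (AddMonoidAlgebra k (L × ℕ))[X]} (hV : Vtx ω A b d f)
    {Φ : AddMonoidAlgebra k (L × ℕ)} (hΦ : Φ ∈ ge (k := k) (wX ω) A)
    {A' : ℝ} (hLw : Lw (wW ω η) A' d (taylor Φ f)) : A' ≤ A + b * η := by
  obtain ⟨j, hj, i, hi, h1⟩ := hV.uns (slice ω A Φ) fun ha => slice_eq_zero_of_forall ω ha Φ
  rw [← LF_taylor ω hV.lv hΦ, LF_coeff] at h1
  obtain ⟨β, hβ, h2⟩ := slice_ne ω hω h1
  have h3 := hLw j hj _ h2
  rw [wW_apply] at h3
  change ((d : ℝ) - j) * A' ≤ ω β + (i : ℝ) * η at h3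
  have h4 : (0 : ℝ) < (d : ℝ) - j := by
    have : (j : ℝ) < d := by exact_mod_cast hj
    linarith
  have h5 : (i : ℝ) * η ≤ ((d : ℝ) - j) * b * η := mul_le_mul_of_nonneg_right hi hη.le
  have h6 : ((d : ℝ) - j) * A' ≤ ((d : ℝ) - j) * (A + b * η) := by
    rw [hβ] at h3
    linarith
  exact le_of_mul_le_mul_left h6 h4

theorem P1v (p : ℕ) [Fact p.Prime] [CharP k p]
    (hk : ∀ c : k, c ≠ 0 → v (algebraMap k K c) = 1) (H : HypH k L v)
    (htr : Algebra.trdeg k K = ((Module.finrank ℤ L + 1 : ℕ) : Cardinal))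
    {d : ℕ} {ω : L →+ ℝ} {X : Multiplicative L →* (DualNumber K)ˣ}
    {y z : DualNumber K} {f : (AddMonoidAlgebra k (L × ℕ))[X]} (S : Sys k v d ω X y z f)
    {η : ℝ} (hη : 0 < η) (hyη : v y.fst = ex η) (hηω : ∀ a, ω a ≠ η)
    {A b : ℝ} (hV : Vtx ω A b d f) :
    ∃ (ω' : L →+ ℝ) (X' : Multiplicative L →* (DualNumber K)ˣ) (y' z' : DualNumber K)
      (f' : (AddMonoidAlgebra k (L × ℕ))[X]) (η' A' : ℝ) (n : ℕ),
      Sys k v d ω' X' y' z' f' ∧ 0 < η' ∧ v y'.fst = ex η' ∧ (∀ a, ω' a ≠ η') ∧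
      (∃ a, ω' a = η) ∧ A ≤ A' ∧ A' ≤ A + b * η ∧ Vtx ω' A' (n / d.factorial) d f' ∧
      ((∃ a, ω' a = A') → (n : ℝ) / d.factorial ≤ b / 2 + 1 / 2 ∧
        (b ≤ 1 → (n : ℝ) / d.factorial < 1)) ∧
      ((∀ a, ω' a ≠ A') → (n : ℝ) / d.factorial ≤ b / 2) := by
  obtain ⟨ω', X', y', z', f', η', A', w, n, h1, h2, h3, h4, h5, ⟨rfl, h6, h7⟩, h8, h9, h10,
    h11⟩ := core p hk H htr S hη hyη hηω hV.A0.le hV.b0 hV.lv hV.sl (A + b * η)
    (fun Φ _ hΦ _ A' h => vtx_bound S.inj hη hV hΦ h)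
    (fun A' w => w = b ∧ A ≤ A' ∧ A' ≤ A + b * η) (by
      intro Φ hΦ hs A' hA' hLw hatt
      have hup := vtx_bound S.inj hη hV hΦ hLw
      have hlv1 : Lv (wX ω) A d (taylor Φ f) := hV.lv.taylor hΦ
      refine ⟨b, hV.b0, ⟨rfl, ?_, hup⟩, ?_⟩
      · obtain ⟨j, hj, μ, hμ, h1⟩ := hatt
        have h2 := hlv1 j μ hμ
        rw [wX_apply] at h2
        rw [wW_apply] at h1
        have h4 : (0 : ℝ) < (d : ℝ) - j := by
          have : (j : ℝ) < d := by exact_mod_cast hj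
          linarith
        have h5 : (0 : ℝ) ≤ μ.2 * η := by positivity
        exact le_of_mul_le_mul_left (by linarith) h4
      · intro j μ hj hμ h1
        have h2 := hlv1 j μ hμ
        rw [wX_apply] at h2
        rw [wW_apply] at h1
        have h4 : (0 : ℝ) < (d : ℝ) - j := by
          have : (j : ℝ) < d := by exact_mod_cast hj
          linarith
        have h5 : ((d : ℝ) - j) * A' ≤ ((d : ℝ) - j) * (A + b * η) :=
          mul_le_mul_of_nonneg_left hup h4.le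
        have h6 : (μ.2 : ℝ) * η ≤ ((d : ℝ) - j) * b * η := by linarith
        exact le_of_mul_le_mul_right h6 hη)
  exact ⟨ω', X', y', z', f', η', A', n, h1, h2, h3, h4, h5, h6, h7, h9, h10, h11⟩

theorem P1s (p : ℕ) [Fact p.Prime] [CharP k p]
    (hk : ∀ c : k, c ≠ 0 → v (algebraMap k K c) = 1) (H : HypH k L v)
    (htr : Algebra.trdeg k K = ((Module.finrank ℤ L + 1 : ℕ) : Cardinal))
    {d : ℕ} (hd : 2 ≤ d) {ω : L →+ ℝ} {X : Multiplicative L →* (DualNumber K)ˣ}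
    {y z : DualNumber K} {f : (AddMonoidAlgebra k (L × ℕ))[X]} (S : Sys k v d ω X y z f)
    {η : ℝ} (hη : 0 < η) (hyη : v y.fst = ex η) (hηω : ∀ a, ω a ≠ η) :
    ∃ (ω' : L →+ ℝ) (X' : Multiplicative L →* (DualNumber K)ˣ) (y' z' : DualNumber K)
      (f' : (AddMonoidAlgebra k (L × ℕ))[X]) (η' A' : ℝ) (n : ℕ),
      Sys k v d ω' X' y' z' f' ∧ 0 < η' ∧ v y'.fst = ex η' ∧ (∀ a, ω' a ≠ η') ∧
      Vtx ω' A' (n / d.factorial) d f' := by
  classical
  have hf0W : ∀ j, f.coeff j ∈ ge (k := k) (wW ω η) 0 := by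
    intro j μ hμ
    have h1 := S.ge0 j μ hμ
    rw [wX_apply] at h1
    rw [wW_apply]
    positivity
  obtain ⟨Bd, hBd⟩ := level_bound hk S.hX hη hyη S.hz hd hf0W S.top
    (sub_single_gt S.inj hη (S.ge0 d)) S.fz S.fne
  obtain ⟨ω', X', y', z', f', η', A', w, n, h1, h2, h3, h4, -, -, -, h9, -, -⟩ :=
    core p hk H htr S hη hyη hηω le_rfl le_rfl (A := 0) (b := 0) (by
      intro j
      rw [mul_zero]
      exact S.ge0 j) (by
      intro j _
      rw [mul_zero]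
      exact og_nonpos le_rfl _) Bd (fun Φ hΦ _ _ A' h => hBd Φ hΦ A' h)
      (fun _ _ => True) (by
      intro Φ hΦ hs A' hA' hLw hatt
      set f1 := taylor Φ f with hf1
      let F : Finset (L × ℕ) := (Finset.range (f1.natDegree + 1)).biUnion
        fun j => (f1.coeff j).coeff.support
      have hF : ∀ j μ, (f1.coeff j).coeff μ ≠ 0 → μ ∈ F := by
        intro j μ hμ
        refine Finset.mem_biUnion.2 ⟨j, ?_, Finsupp.mem_support_iff.2 hμ⟩
        rw [Finset.mem_range]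
        by_contra h
        apply hμ
        rw [coeff_eq_zero_of_natDegree_lt (by omega)]
        rfl
      refine ⟨(F.sup Prod.snd : ℕ), Nat.cast_nonneg _, trivial, ?_⟩
      intro j μ hj hμ _
      have h1 : μ.2 ≤ F.sup Prod.snd := Finset.le_sup (f := Prod.snd) (hF j μ hμ)
      have h2 : (1 : ℝ) ≤ (d : ℝ) - j := by
        have h3 : j + 1 ≤ d := hj
        have h4 : ((j : ℝ) + 1) ≤ d := by exact_mod_cast h3
        linarith
      calc (μ.2 : ℝ) ≤ (F.sup Prod.snd : ℕ) := by exact_mod_cast h1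
        _ = 1 * (F.sup Prod.snd : ℕ) := (one_mul _).symm
        _ ≤ ((d : ℝ) - j) * (F.sup Prod.snd : ℕ) :=
          mul_le_mul_of_nonneg_right h2 (Nat.cast_nonneg _))
  exact ⟨ω', X', y', z', f', η', A', n, h1, h2, h3, h4, h9⟩

/-- Preparation of a system. -/
theorem P0 (hk : ∀ c : k, c ≠ 0 → v (algebraMap k K c) = 1) (H : HypH k L v)
    (htr : Algebra.trdeg k K = ((Module.finrank ℤ L + 1 : ℕ) : Cardinal))
    {d : ℕ} {ω : L →+ ℝ} {X : Multiplicative L →* (DualNumber K)ˣ}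
    {y z : DualNumber K} {f : (AddMonoidAlgebra k (L × ℕ))[X]} (S : Sys k v d ω X y z f) :
    ∃ (y' : DualNumber K) (f' : (AddMonoidAlgebra k (L × ℕ))[X]) (η' : ℝ),
      Sys k v d ω X y' z f' ∧ 0 < η' ∧ v y'.fst = ex η' ∧ (∀ a, ω a ≠ η') := by
  obtain ⟨ψ, c, η', hψ0, hψc, hψη, hη', hηω', hc1⟩ :=
    ready hk H S.inj S.hX (S.al hk htr) S.hy.le
  have hc : c = 0 := by
    by_contra hc
    have h1 := hk c hc
    have h2 : algebraMap k K c = y.fst + -(y.fst - algebraMap k K c) := by ring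
    rw [h2] at h1
    have h3 : v (y.fst + -(y.fst - algebraMap k K c)) < 1 := by
      refine lt_of_le_of_lt (v.map_add _ _) (max_lt S.hy ?_)
      rw [Valuation.map_neg]
      exact hc1
    rw [h1] at h3
    exact lt_irrefl _ h3
  subst hc
  have hcoef : ∀ j, slice ω 0 ((mapTau (inc k L ψ) f).coeff j) = slice ω 0 (f.coeff j) := by
    intro j
    rw [mapTau_coeff, slice_tau hψ0 hψc (S.ge0 j), taylor_zero]
  have hcoef0 : ∀ j, ((mapTau (inc k L ψ) f).coeff j).coeff 0 = (f.coeff j).coeff 0 := by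
    intro j
    have h1 := slice_coeff ω S.inj ((mapTau (inc k L ψ) f).coeff j) 0 0
    have h2 := slice_coeff ω S.inj (f.coeff j) 0 0
    rw [map_zero] at h1 h2
    rw [← Prod.zero_eq_mk] at h1 h2
    rw [← h1, ← h2, hcoef]
  have hEV : EV k X (y - evL k X ψ) z (mapTau (inc k L ψ) f) = EV k X y z f := by
    rw [mapTau, EV_tau]
  refine ⟨y - evL k X ψ, mapTau (inc k L ψ) f, η', ⟨S.inj, S.hX, ?_, S.hz, ?_, ?_, ?_, ?_, ?_, ?_,
    S.rr⟩, hη', ?_, hηω'⟩
  · rw [TrivSqZeroExt.fst_sub, fst_evL, hψη]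
    exact ex_lt_one.2 hη'
  · intro F hF1 hF2 hF3
    refine S.gen F hF1 ?_ hF3
    rw [TrivSqZeroExt.fst_sub, fst_evL] at hF2
    have h1 : evL k (XK k X) ψ ∈ F := by
      rw [← ev_inc (XK k X) 0]
      exact ev_mem hF1 (zero_mem _) _
    have h3 := add_mem hF2 h1
    rwa [sub_add_cancel] at h3
  · rw [hEV]; exact S.fz
  · rw [hEV]; exact S.fne
  · intro j
    rw [mapTau_coeff]
    exact tau_ge hψ0 (S.ge0 j)
  · rw [hcoef0]; exact S.top
  · intro j hj
    rw [hcoef0]; exact S.low j hj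
  · rw [TrivSqZeroExt.fst_sub, fst_evL, hψη]

end steps

end Pool.Agent.H893
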