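import Pool.Agent.H893.Lc

/-!
# The order drops
-/

set_option autoImplicit false
set_option linter.unusedVariables false
set_option linter.unusedSectionVars false

namespace Pool.Agent.H893

open Polynomial
open scoped NNReal

section drop

variable {k K L : Type*} [Field k] [Field K] [Algebra k K] [AddCommGroup L]
  [Module.Free ℤ L] [Module.Finite ℤ L] {v : Valuation K ℝ≥0}

/-- A hypersurface through the point, without distinguished order. -/
structure PS (k : Type*) {K L : Type*} [Field k] [Field K] [Algebra k K] [AddCommGroup L]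
    (v : Valuation K ℝ≥0) (ω : L →+ ℝ) (X : Multiplicative L →* (DualNumber K)ˣ)
    (y z : DualNumber K) (f : (AddMonoidAlgebra k (L × ℕ))[X]) : Prop where
  inj : Function.Injective ω
  hX : ∀ β, v (X (.ofAdd β) : DualNumber K).fst = ex (ω β)
  hy : v y.fst < 1
  hz : v z.fst < 1
  gen : ∀ F : IntermediateField k K, (∀ β, (XK k X β : K) ∈ F) → y.fst ∈ F → z.fst ∈ F → F = ⊤
  fz : (EV k X y z f).fst = 0
  fne : EV k X y z f ≠ 0
  ge0 : ∀ j, f.coeff j ∈ ge (k := k) (wX ω) 0
  rr : ∀ x : K, x ≠ 0 → ∃ m : ℕ, m ≠ 0 ∧ ∃ a, v x ^ m = ex (ω a)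

variable {d : ℕ} {ω : L →+ ℝ} {X : Multiplicative L →* (DualNumber K)ˣ}
    {y z : DualNumber K} {f : (AddMonoidAlgebra k (L × ℕ))[X]}

lemma PS.sys (S : PS k v ω X y z f) (top : (f.coeff d).coeff 0 ≠ 0)
    (low : ∀ j < d, (f.coeff j).coeff 0 = 0) : Sys k v d ω X y z f :=
  ⟨S.inj, S.hX, S.hy, S.hz, S.gen, S.fz, S.fne, S.ge0, top, low, S.rr⟩

lemma Sys.ps (S : Sys k v d ω X y z f) : PS k v ω X y z f :=
  ⟨S.inj, S.hX, S.hy, S.hz, S.gen, S.fz, S.fne, S.ge0, S.rr⟩

/-- The generic linear change. -/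
theorem PS.lin (hk : ∀ c : k, c ≠ 0 → v (algebraMap k K c) = 1) (S : PS k v ω X y z f) (lam : k) :
    PS k v ω X (y - algebraMap k (DualNumber K) lam * z) z (Lc lam f) := by
  have hfst : (y - algebraMap k (DualNumber K) lam * z).fst =
      y.fst - algebraMap k K lam * z.fst := by
    rw [TrivSqZeroExt.fst_sub, TrivSqZeroExt.fst_mul]
    rfl
  refine ⟨S.inj, S.hX, ?_, S.hz, ?_, ?_, ?_, Lc_ge lam S.ge0, S.rr⟩
  · rw [hfst]
    refine lt_of_le_of_lt (v.map_sub _ _) (max_lt S.hy ?_)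
    rw [map_mul]
    exact lt_of_le_of_lt (mul_le_of_le_one_left zero_le (vk_le hk lam)) S.hz
  · intro F hF1 hF2 hF3
    refine S.gen F hF1 ?_ hF3
    rw [hfst] at hF2
    have h1 := add_mem hF2 (mul_mem (F.algebraMap_mem lam) hF3)
    rwa [sub_add_cancel] at h1
  · rw [EV_Lc]; exact S.fz
  · rw [EV_Lc]; exact S.fne

/-- The value of the root. -/
lemma Sys.root (hk : ∀ c : k, c ≠ 0 → v (algebraMap k K c) = 1) (S : Sys k v d ω X y z f)
    {A : ℝ} (hA : 0 ≤ A) (hlv : Lv (wX ω) A d f) : v z.fst ≤ ex A := by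
  obtain ⟨η, hη, hyη⟩ := exists_pos_ex S.hy
  have hle : ∀ (j : ℕ) (B : ℝ), f.coeff j ∈ ge (k := k) (wX ω) B →
      v (ev k (XK k X) y.fst (f.coeff j)) ≤ ex B := by
    intro j B hB
    refine v_ev_le hk S.hX hyη ?_
    intro μ hμ
    have h4 := hB μ hμ
    rw [wX_apply] at h4
    rw [wW_apply]
    have h5 : (0 : ℝ) ≤ μ.2 * η := by positivity
    linarith
  refine v_root (c := fun j => ev k (XK k X) y.fst (f.coeff j)) (N := max f.natDegree d + 1)
    (by omega : d < max f.natDegree d + 1) hA S.hz ?_ (S.v_d hk) ?_ ?_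
  · have h1 := S.fz
    rw [fst_EV, EV_eq_sum _ _ _ _ (by omega : f.natDegree < max f.natDegree d + 1)] at h1
    exact h1
  · intro j
    rw [← ex_zero]
    exact hle j 0 (S.ge0 j)
  · intro j hj
    exact hle j _ (hlv j)

/-- Division of the last variable. -/
theorem PS.div (S : PS k v ω X y z f) (a e0 : L) (h0 : ∀ j, (Zd a e0 f).coeff j ∈
    ge (k := k) (wX ω) 0) (c1 : k) (hz : v ((z * (X (.ofAdd (-a)) : DualNumber K)).fst -
      algebraMap k K c1) < 1) :
    PS k v ω X y (z * (X (.ofAdd (-a)) : DualNumber K) - algebraMap k (DualNumber K) c1)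
      (taylor (AddMonoidAlgebra.single 0 c1) (Zd a e0 f)) := by
  have hev : ev k X y (AddMonoidAlgebra.single 0 c1) = algebraMap k (DualNumber K) c1 := by
    rw [ev_single]
    simp
  have hEV : EV k X y (z * (X (.ofAdd (-a)) : DualNumber K) - algebraMap k (DualNumber K) c1)
      (taylor (AddMonoidAlgebra.single 0 c1) (Zd a e0 f)) =
      (X (.ofAdd (-e0)) : DualNumber K) * EV k X y z f := by
    rw [← hev, EV_taylor, EV_Zd]
  refine ⟨S.inj, S.hX, S.hy, ?_, ?_, ?_, ?_, ?_, S.rr⟩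
  · rw [TrivSqZeroExt.fst_sub]
    exact hz
  · intro F hF1 hF2 hF3
    refine S.gen F hF1 hF2 ?_
    rw [TrivSqZeroExt.fst_sub, TrivSqZeroExt.fst_mul] at hF3
    have h1 : z.fst * (X (.ofAdd (-a)) : DualNumber K).fst ∈ F := by
      have h2 := add_mem hF3 (F.algebraMap_mem c1)
      have h3 : (algebraMap k (DualNumber K) c1).fst = algebraMap k K c1 := rfl
      rwa [h3, sub_add_cancel] at h2
    have h2 := mul_mem h1 (hF1 (.ofAdd a))
    have h3 : z.fst * (X (.ofAdd (-a)) : DualNumber K).fst * (XK k X (.ofAdd a) : K) = z.fst := by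
      have h4 : (X (.ofAdd (-a)) : DualNumber K).fst = (XK k X (.ofAdd (-a)) : K) := rfl
      rw [h4, mul_assoc, ← Units.val_mul, ← map_mul, ← ofAdd_add, neg_add_cancel, ofAdd_zero,
        map_one, Units.val_one, mul_one]
    rwa [h3] at h2
  · rw [hEV, TrivSqZeroExt.fst_mul, S.fz, mul_zero]
  · rw [hEV]
    intro h
    apply S.fne
    have h1 := congrArg (fun t => (X (.ofAdd e0) : DualNumber K) * t) h
    simp only [mul_zero] at h1
    rw [← mul_assoc, ← Units.val_mul, ← map_mul, ← ofAdd_add, add_neg_cancel, ofAdd_zero,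
      map_one, Units.val_one, one_mul] at h1
    exact h1
  · intro j
    refine ge_zero_taylor h0 (single_mem_ge fun _ => ?_) j
    rw [map_zero]

end drop

end Pool.Agent.H893
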