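import Pool.Agent.H893.P4

/-!
# The order drops, continued
-/

set_option autoImplicit false
set_option linter.unusedVariables false
set_option linter.unusedSectionVars false

namespace Pool.Agent.H893

open Polynomial
open scoped NNReal

section ystep

variable {k K L : Type*} [Field k] [Field K] [Algebra k K] [AddCommGroup L]
  [Module.Free ℤ L] [Module.Finite ℤ L] {v : Valuation K ℝ≥0}

variable {d : ℕ} {ω : L →+ ℝ} {X : Multiplicative L →* (DualNumber K)ˣ}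
    {y z : DualNumber K} {f : (AddMonoidAlgebra k (L × ℕ))[X]}

/-- The ramified step without translation of the last variable. -/
theorem PS.ystep (hk : ∀ c : k, c ≠ 0 → v (algebraMap k K c) = 1) (H : HypH k L v)
    (htr : Algebra.trdeg k K = ((Module.finrank ℤ L + 1 : ℕ) : Cardinal))
    (S : PS k v ω X y z f) (al : Function.Injective (ev k (XK k X) y.fst))
    {η : ℝ} (hη : 0 < η) (hyη : v y.fst = ex η) (hηω : ∀ a, ω a ≠ η) :
    ∃ (ω' : L →+ ℝ) (e : (L × ℤ) ≃+ (L × ℤ)) (m : ℕ) (X' : Multiplicative L →* (DualNumber K)ˣ)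
      (y' : DualNumber K) (ψ : AddMonoidAlgebra k (L × ℕ)) (c : k) (η' : ℝ),
      YS ω η ω' e m ∧ (∀ j, f.coeff j ∈ inP k (Ne' e)) ∧ c ≠ 0 ∧ ψ ∈ ge (k := k) (wX ω') 0 ∧
      slice ω' 0 ψ = C c ∧ PS k v ω' X' y' z (mapTau ψ (TmP e f)) ∧ 0 < η' ∧
      v y'.fst = ex η' ∧ (∀ a, ω' a ≠ η') := by
  classical
  have hpos : ∀ j μ, (f.coeff j).coeff μ ≠ 0 → μ = 0 ∨ 0 < wW ω η μ := by
    intro j μ hμ
    by_cases h3 : μ = 0
    · exact Or.inl h3
    · right
      have h4 : AddMonoidAlgebra.single μ (1 : k) ∈ gt (k := k) (wW ω η) 0 := by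
        apply gt_of_coeff_zero S.inj hη
        · exact single_mem_ge fun _ => S.ge0 j μ hμ
        · rw [AddMonoidAlgebra.coeff_single, Finsupp.single_apply, if_neg h3]
      exact h4 μ (by
        rw [AddMonoidAlgebra.coeff_single, Finsupp.single_eq_same]
        exact one_ne_zero)
  let F : Finset (L × ℕ) := (Finset.range (f.natDegree + 1)).biUnion
    fun j => (f.coeff j).coeff.support
  have hF : ∀ j μ, (f.coeff j).coeff μ ≠ 0 → μ ∈ F := by
    intro j μ hμ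
    refine Finset.mem_biUnion.2 ⟨j, ?_, Finsupp.mem_support_iff.2 hμ⟩
    rw [Finset.mem_range]
    by_contra h
    apply hμ
    rw [coeff_eq_zero_of_natDegree_lt (by omega)]
    rfl
  have hy0 : y.fst ≠ 0 := by
    intro h
    rw [h, map_zero] at hyη
    exact ex_ne _ hyη.symm
  obtain ⟨m0, hm0, a0, ha0⟩ := S.rr y.fst hy0
  obtain ⟨ω', e, m, ys, hFe⟩ := exists_YS S.inj hηω ⟨m0, hm0, a0, by
    rw [hyη, ← ex_nmul, ex_inj] at ha0
    exact ha0.symm⟩ F (by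
      intro μ hμ
      obtain ⟨j, -, hj⟩ := Finset.mem_biUnion.1 hμ
      exact hpos j μ (Finsupp.mem_support_iff.1 hj))
  have hne : ∀ j, f.coeff j ∈ inP k (Ne' e) := fun j μ hμ => hFe μ (hF j μ hμ)
  obtain ⟨yU, hyU⟩ : ∃ yU : (DualNumber K)ˣ, (yU : DualNumber K) = y := by
    have h1 : IsUnit y := by
      rw [TrivSqZeroExt.isUnit_iff_isUnit_fst]
      exact isUnit_iff_ne_zero.2 hy0
    exact h1
  set yK : Kˣ := Units.map ((TrivSqZeroExt.fstHom k K K : DualNumber K →ₐ[k] K) :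
    DualNumber K →* K) yU with hyK
  have hyKv : (yK : K) = y.fst := by
    rw [← hyU]
    rfl
  set X' := nX e X yU with hX'
  set u := nu e X yU with hu
  have hXK : XK k X' = nX e (XK k X) yK := XK_nX e X yU
  have huK : (u : DualNumber K).fst = (nu e (XK k X) yK : K) := fst_nu e X yU
  have hX'v : ∀ β, v (X' (.ofAdd β) : DualNumber K).fst = ex (ω' β) := by
    intro β
    have h1 := ys.v_Mon (X := XK k X) (y := yK) S.hX (by rw [hyKv, hyη]) (e.symm (β, 0))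
    rw [AddEquiv.apply_symm_apply] at h1
    rw [← h1, ← XK_apply (k := k), hXK]
    rfl
  have huv : v (u : DualNumber K).fst = 1 := by
    have h1 := ys.v_Mon (X := XK k X) (y := yK) S.hX (by rw [hyKv, hyη]) (e.symm (0, 1))
    rw [AddEquiv.apply_symm_apply, map_zero, ex_zero] at h1
    rw [huK, ← h1]
    rfl
  have hal : Function.Injective (ev k (XK k X') (u : DualNumber K).fst) := by
    refine inj_mono htr ?_ al
    have h1 : ((∀ β, (nX e (XK k X) yK β : K) ∈ FE k (XK k X') (u : DualNumber K).fst) ∧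
        (nu e (XK k X) yK : K) ∈ FE k (XK k X') (u : DualNumber K).fst) := by
      rw [← hXK, ← huK]
      exact ⟨fun β => X_mem_FE _ _ _, y_mem_FE _ _⟩
    rw [← nX_mem] at h1
    exact FE_le h1.1 (by rw [← hyKv]; exact h1.2)
  obtain ⟨ψ, c, η', hψ0, hψc, hψη, hη', hηω', hc1⟩ := ready hk H ys.inj hX'v hal huv.le
  have hc : c ≠ 0 := by
    rintro rfl
    rw [map_zero, sub_zero, huv] at hc1
    exact lt_irrefl _ hc1
  have hf0W : ∀ j, f.coeff j ∈ ge (k := k) (wW ω η) 0 := by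
    intro j μ hμ
    rcases hpos j μ hμ with h1 | h1
    · rw [h1, map_zero]
    · exact h1.le
  have hEV : EV k X' (u - evL k X' ψ) z (mapTau (inc k L ψ) (TmP e f)) = EV k X y z f := by
    rw [mapTau, EV_tau, hX', hu, EV_TmP X yU _ hne, hyU]
  refine ⟨ω', e, m, X', u - evL k X' ψ, inc k L ψ, c, η', ys, hne, hc, hψ0, hψc,
    ⟨ys.inj, hX'v, ?_, S.hz, ?_, ?_, ?_, ?_, ?_⟩, hη', ?_, hηω'⟩
  · rw [TrivSqZeroExt.fst_sub, fst_evL, hψη]
    exact ex_lt_one.2 hη'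
  · intro F' hF1 hF2 hF3
    rw [TrivSqZeroExt.fst_sub, fst_evL] at hF2
    have h1 : evL k (XK k X') ψ ∈ F' := by
      rw [← ev_inc (XK k X') 0]
      exact ev_mem hF1 (zero_mem _) _
    have h2 : (u : DualNumber K).fst ∈ F' := by
      have h3 := add_mem hF2 h1
      rwa [sub_add_cancel] at h3
    have h3 : ((∀ β, (nX e (XK k X) yK β : K) ∈ F') ∧ (nu e (XK k X) yK : K) ∈ F') := by
      rw [← hXK, ← huK]
      exact ⟨hF1, h2⟩
    rw [← nX_mem] at h3
    have h4 : y.fst ∈ F' := by rw [← hyKv]; exact h3.2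
    exact S.gen F' h3.1 h4 hF3
  · rw [hEV]
    exact S.fz
  · rw [hEV]
    exact S.fne
  · intro j
    rw [mapTau_coeff, TmP_coeff]
    exact tau_ge hψ0 (ys.Tm_ge (hf0W j))
  · intro x hx
    obtain ⟨m1, hm1, a1, ha1⟩ := S.rr x hx
    refine ⟨m1, hm1, (e (a1, 0)).1, ?_⟩
    rw [ha1, ys.wt]
    simp
  · rw [TrivSqZeroExt.fst_sub, fst_evL, hψη]

/-- The slices after the step. -/
lemma slice_Tm_ne {ω' : L →+ ℝ} {η : ℝ} (hη : 0 < η) {e : (L × ℤ) ≃+ (L × ℤ)} {m : ℕ}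
    (ys : YS ω η ω' e m) {g : AddMonoidAlgebra k (L × ℕ)} {B : ℝ}
    (hg : g ∈ ge (k := k) (wX ω) B) {t : ℕ} (h : (slice ω' B (Tm e g)).coeff t ≠ 0) :
    ∃ β, ω β = B ∧ g.coeff (β, 0) ≠ 0 ∧ (tm e (β, 0)).2 = t := by
  obtain ⟨β', hβ', h1⟩ := slice_ne ω' ys.inj h
  obtain ⟨μ, hμ, h2⟩ := Tm_coeff_ne e h1
  have h3 := ys.tm_wt μ
  rw [h2, wW_apply] at h3
  have h4 := hg μ hμ
  rw [wX_apply] at h4
  change ω' β' = _ at h3
  have h5 : (0 : ℝ) ≤ μ.2 * η := by positivity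
  have h6 : (μ.2 : ℝ) * η = 0 := by linarith
  have h7 : μ.2 = 0 := by
    rcases mul_eq_zero.1 h6 with h7 | h7
    · exact_mod_cast h7
    · exact absurd h7 hη.ne'
  have h8 : μ = (μ.1, 0) := Prod.ext rfl h7
  refine ⟨μ.1, by linarith, by rw [← h8]; exact hμ, ?_⟩
  rw [← h8, h2]

lemma slice_Tm_eq {ω' : L →+ ℝ} (hω : Function.Injective ω) {η : ℝ} (hη : 0 < η)
    {e : (L × ℤ) ≃+ (L × ℤ)} {m : ℕ}
    (ys : YS ω η ω' e m) {g : AddMonoidAlgebra k (L × ℕ)} (hgN : g ∈ inP k (Ne' e)) {B : ℝ}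
    (hg : g ∈ ge (k := k) (wX ω) B) {β : L} (hβ : ω β = B) (h : g.coeff (β, 0) ≠ 0) :
    slice ω' B (Tm e g) = monomial (tm e (β, 0)).2 (g.coeff (β, 0)) := by
  ext t
  rw [coeff_monomial]
  split_ifs with h1
  · subst h1
    have h2 := ys.tm_wt (β, 0)
    rw [wW_apply, hβ] at h2
    simp only [Nat.cast_zero, zero_mul, add_zero] at h2
    have h3 := slice_coeff ω' ys.inj (Tm e g) (tm e (β, 0)).1 (tm e (β, 0)).2
    rw [h2, Prod.mk.eta, Tm_coeff e hgN (hgN _ h)] at h3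
    exact h3
  · by_contra h2
    obtain ⟨β', h3, h4, h5⟩ := slice_Tm_ne hη ys hg h2
    have h6 : β' = β := hω (by rw [h3, hβ])
    rw [h6] at h5
    exact h1 h5

lemma exists_ge_of_gt {M : Type*} [AddCommMonoid M] {w : M → ℝ} {B : ℝ}
    {g : AddMonoidAlgebra k M} (hg : g ∈ gt (k := k) w B) :
    ∃ ε : ℝ, 0 < ε ∧ g ∈ ge (k := k) w (B + ε) := by
  classical
  by_cases h0 : g.coeff.support.Nonempty
  · obtain ⟨μ, hμ, hmin⟩ := Finset.exists_min_image g.coeff.support w h0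
    have h1 := hg μ (Finsupp.mem_support_iff.1 hμ)
    refine ⟨w μ - B, by linarith, ?_⟩
    intro ν hν
    have h2 := hmin ν (Finsupp.mem_support_iff.2 hν)
    linarith
  · refine ⟨1, one_pos, ?_⟩
    intro ν hν
    exact absurd ⟨ν, Finsupp.mem_support_iff.2 hν⟩ h0

lemma exists_ge_of_gt' {M : Type*} [AddCommMonoid M] {w : M → ℝ} {B : ℕ → ℝ}
    {g : ℕ → AddMonoidAlgebra k M} (N : ℕ) (hg : ∀ j < N, g j ∈ gt (k := k) w (B j)) :
    ∃ ε : ℝ, 0 < ε ∧ ∀ j < N, g j ∈ ge (k := k) w (B j + ε) := by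
  induction N with
  | zero => exact ⟨1, one_pos, fun j hj => absurd hj (Nat.not_lt_zero j)⟩
  | succ N ih =>
    obtain ⟨ε, hε, h1⟩ := ih fun j hj => hg j (by omega)
    obtain ⟨ε', hε', h2⟩ := exists_ge_of_gt (hg N (by omega))
    refine ⟨min ε ε', lt_min hε hε', ?_⟩
    intro j hj
    rcases Nat.lt_succ_iff_lt_or_eq.1 hj with h3 | h3
    · exact ge_mono (by have := min_le_left ε ε'; linarith) (h1 j h3)
    · subst h3
      exact ge_mono (by have := min_le_right ε ε'; linarith) h2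

/-- The order drops if the value of the root is greater than the level. -/
theorem dropB (hk : ∀ c : k, c ≠ 0 → v (algebraMap k K c) = 1) (H : HypH k L v)
    (htr : Algebra.trdeg k K = ((Module.finrank ℤ L + 1 : ℕ) : Cardinal))
    (hden : ∀ ω : L →+ ℝ, Function.Injective ω → ∀ x y : ℝ, x < y → ∃ a, x < ω a ∧ ω a < y)
    (S : Sys k v d ω X y z f) {η : ℝ} (hη : 0 < η) (hyη : v y.fst = ex η)
    (hηω : ∀ a, ω a ≠ η) {A : ℝ} (hV : Vtx ω A 0 d f) (hz : v z.fst < ex A) :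
    ∃ (ω' : L →+ ℝ) (X' : Multiplicative L →* (DualNumber K)ˣ) (y' z' : DualNumber K)
      (f' : (AddMonoidAlgebra k (L × ℕ))[X]) (d1 : ℕ), d1 < d ∧
      Sys k v d1 ω' X' y' z' f' := by
  classical
  obtain ⟨ω', e, m, X', y', ψ, c, η', ys, hne, hc, hψ0, hψc, hPS, -, -, -⟩ :=
    S.ps.ystep hk H htr (S.al hk htr) hη hyη hηω
  set g := mapTau ψ (TmP e f) with hg
  have hTge : ∀ j : ℕ, Tm e (f.coeff j) ∈ ge (k := k) (wX ω') (((d : ℝ) - j) * A) := by
    intro j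
    apply ys.Tm_ge
    intro μ hμ
    have h1 := hV.lv j μ hμ
    rw [wX_apply] at h1
    rw [wW_apply]
    have h5 : (0 : ℝ) ≤ μ.2 * η := by positivity
    linarith
  have hglv : ∀ j : ℕ, g.coeff j ∈ ge (k := k) (wX ω') (((d : ℝ) - j) * A) := by
    intro j
    rw [hg, mapTau_coeff, TmP_coeff]
    exact tau_ge hψ0 (hTge j)
  have hgs : ∀ j : ℕ, slice ω' (((d : ℝ) - j) * A) (g.coeff j) =
      taylor c (slice ω' (((d : ℝ) - j) * A) (Tm e (f.coeff j))) := by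
    intro j
    rw [hg, mapTau_coeff, TmP_coeff, slice_tau hψ0 hψc (hTge j)]
  -- the smallest index
  obtain ⟨j1, hj1, i, hi, h1⟩ := hV.uns 0 fun _ => rfl
  have hi0 : i = 0 := by
    have h2 : (i : ℝ) ≤ 0 := by rwa [mul_zero] at hi
    exact_mod_cast le_antisymm h2 (Nat.cast_nonneg i)
  subst hi0
  rw [taylor_zero, LF_coeff] at h1
  obtain ⟨β1, hβ1, h2⟩ := slice_ne ω S.inj h1
  have hex : ∃ j : ℕ, slice ω' (((d : ℝ) - j) * A) (g.coeff j) ≠ 0 := by
    refine ⟨j1, ?_⟩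
    rw [hgs, slice_Tm_eq S.inj hη ys (hne j1) (hV.lv j1) hβ1 h2]
    intro h3
    apply h2
    have h4 := (taylor_eq_zero c (monomial (tm e (β1, 0)).2
      ((f.coeff j1).coeff (β1, 0)))).1 h3
    exact (monomial_eq_zero_iff _ _).1 h4
  set j0 := Nat.find hex with hj0
  have hj0s : slice ω' (((d : ℝ) - j0) * A) (g.coeff j0) ≠ 0 := Nat.find_spec hex
  have hlow : ∀ j : ℕ, j < j0 → slice ω' (((d : ℝ) - j) * A) (g.coeff j) = 0 := fun n hn => by
    by_contra h2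
    exact Nat.find_min hex hn h2
  have hj0d : j0 < d := by
    refine lt_of_le_of_lt (Nat.find_min' hex ?_) hj1
    rw [hgs, slice_Tm_eq S.inj hη ys (hne j1) (hV.lv j1) hβ1 h2]
    intro h3
    apply h2
    have h4 := (taylor_eq_zero c (monomial (tm e (β1, 0)).2
      ((f.coeff j1).coeff (β1, 0)))).1 h3
    exact (monomial_eq_zero_iff _ _).1 h4
  -- the constant coefficient
  obtain ⟨β0, hβ0, hcst⟩ : ∃ β0, ω' β0 = ((d : ℝ) - j0) * A ∧
      (slice ω' (((d : ℝ) - j0) * A) (g.coeff j0)).coeff 0 ≠ 0 := by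
    have h3 : slice ω' (((d : ℝ) - j0) * A) (Tm e (f.coeff j0)) ≠ 0 := by
      intro h4
      apply hj0s
      rw [hgs, h4, map_zero]
    obtain ⟨t, ht⟩ : ∃ t, (slice ω' (((d : ℝ) - j0) * A) (Tm e (f.coeff j0))).coeff t ≠ 0 := by
      by_contra hcon
      push Not at hcon
      apply h3
      ext t
      rw [hcon t, coeff_zero]
    obtain ⟨β', hβ', -⟩ := slice_ne ω' ys.inj ht
    obtain ⟨β, h4, h5, h6⟩ := slice_Tm_ne hη ys (hV.lv j0) ht
    refine ⟨β', hβ', ?_⟩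
    rw [hgs, slice_Tm_eq S.inj hη ys (hne j0) (hV.lv j0) h4 h5, taylor_coeff_zero,
      eval_monomial]
    exact mul_ne_zero h5 (pow_ne_zero _ hc)
  obtain ⟨ε, hε, hgε⟩ := exists_ge_of_gt' (k := k) (w := wX ω')
    (B := fun j : ℕ => ((d : ℝ) - j) * A) (g := fun j => g.coeff j) j0
    (fun j hj => gt_of_slice ω' ys.inj (hglv j) (hlow j hj))
  obtain ⟨ζ, hζA, hzζ⟩ : ∃ ζ : ℝ, A < ζ ∧ v z.fst ≤ ex ζ := by
    by_cases h3 : v z.fst = 0
    · exact ⟨A + 1, by linarith, by rw [h3]; exact zero_le⟩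
    · obtain ⟨ζ, hζ⟩ := exists_ex h3
      refine ⟨ζ, ?_, hζ.le⟩
      rw [hζ] at hz
      exact ex_lt.1 hz
  have hd1 : (0 : ℝ) < (d : ℝ) + 1 := by positivity
  obtain ⟨a0, ha1, ha2⟩ := hden ω' ys.inj A (min ζ (A + ε / (d + 1)))
    (lt_min hζA (by have := div_pos hε hd1; linarith))
  have ha3 : ω' a0 < ζ := lt_of_lt_of_le ha2 (min_le_left _ _)
  have ha4 : ω' a0 < A + ε / (d + 1) := lt_of_lt_of_le ha2 (min_le_right _ _)
  set δ := ω' a0 - A with hδ
  have hδ0 : 0 < δ := by linarith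
  have hδε : ((d : ℝ) + 1) * δ < ε := by
    have h3 : δ < ε / (d + 1) := by linarith
    rw [lt_div_iff₀ hd1] at h3
    linarith
  set e0 : L := β0 + j0 • a0 with he0
  have he0v : ω' e0 = ((d : ℝ) - j0) * A + j0 * ω' a0 := by
    rw [he0, map_add, hβ0, map_nsmul, nsmul_eq_mul]
  have hωa : ω' a0 = A + δ := by rw [hδ]; ring
  have hj0R : (j0 : ℝ) < d := by exact_mod_cast hj0d
  have hpos : ∀ j : ℕ, j ≠ j0 → (Zd a0 e0 g).coeff j ∈ gt (k := k) (wX ω') 0 := by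
    intro j hj
    rcases lt_or_gt_of_ne hj with h3 | h3
    · refine gt_of_ge ?_ (Zd_ge (hgε j h3))
      rw [he0v, hωa]
      have h4 : (j : ℝ) < j0 := by exact_mod_cast h3
      have h5 : (0 : ℝ) ≤ j := Nat.cast_nonneg j
      nlinarith
    · refine gt_of_ge ?_ (Zd_ge (hglv j))
      rw [he0v, hωa]
      have h4 : (j0 : ℝ) < j := by exact_mod_cast h3
      nlinarith
  have hj0ge : (Zd a0 e0 g).coeff j0 ∈ ge (k := k) (wX ω') 0 := by
    refine ge_mono (le_of_eq ?_) (Zd_ge (hglv j0))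
    rw [he0v]
    ring
  have hge : ∀ j : ℕ, (Zd a0 e0 g).coeff j ∈ ge (k := k) (wX ω') 0 := by
    intro j
    by_cases hj : j = j0
    · rw [hj]; exact hj0ge
    · exact gt_ge (hpos j hj)
  have hdiv := hPS.div a0 e0 hge 0 (by
    rw [map_zero, sub_zero, TrivSqZeroExt.fst_mul, map_mul, hPS.hX, map_neg]
    have h3 : v z.fst < ex (ω' a0) := lt_of_le_of_lt hzζ (ex_lt.2 ha3)
    calc v z.fst * ex (-(ω' a0)) < ex (ω' a0) * ex (-(ω' a0)) :=
          mul_lt_mul_of_pos_right h3 (ex_pos _)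
      _ = 1 := by rw [← ex_add, add_neg_cancel, ex_zero])
  rw [AddMonoidAlgebra.single_zero, taylor_zero] at hdiv
  refine ⟨ω', X', y', _, _, j0, hj0d, hdiv.sys ?_ ?_⟩
  · have h3 := slice_shift (ω := ω') (j0 • a0 - e0) (((d : ℝ) - j0) * A) (g.coeff j0)
    have h4 : ω' (j0 • a0 - e0) + ((d : ℝ) - j0) * A = 0 := by
      rw [map_sub, he0v, map_nsmul, nsmul_eq_mul]
      ring
    rw [h4, ← Zd_coeff] at h3
    have h5 := slice_coeff ω' ys.inj ((Zd a0 e0 g).coeff j0) 0 0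
    rw [map_zero, h3, ← Prod.zero_eq_mk] at h5
    rw [← h5]
    exact hcst
  · intro j hj
    by_contra h3
    have h4 := hpos j hj.ne 0 h3
    rw [map_zero] at h4
    exact lt_irrefl _ h4

end ystep

end Pool.Agent.H893
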