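import Pool.Agent.H893.P5

/-!
# The first part
-/

set_option autoImplicit false
set_option linter.unusedVariables false
set_option linter.unusedSectionVars false

namespace Pool.Agent.H893

open Polynomial
open scoped NNReal

section lc

variable {k L : Type*} [Field k] [AddCommGroup L]

lemma evW_coeff_zero (lam : k) (g : AddMonoidAlgebra k (L × ℕ)) :
    (ev k (XX k L) (WW L lam) g).coeff 0 = g := by
  classical
  induction g using AddMonoidAlgebra.induction_linear with
  | zero => simp
  | add f g hf hg => rw [map_add, coeff_add, hf, hg]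
  | single μ c =>
    rw [evW_single_coeff, if_pos (Nat.zero_le _)]
    simp

lemma Lc_coeff' (lam : k) (f : (AddMonoidAlgebra k (L × ℕ))[X]) (n : ℕ) :
    (Lc lam f).coeff n = ∑ j ∈ Finset.range (n + 1),
      (ev k (XX k L) (WW L lam) (f.coeff j)).coeff (n - j) := by
  classical
  rw [Lc, finsetSum_coeff]
  have h1 : ∀ j, (ev k (XX k L) (WW L lam) (f.coeff j) * X ^ j).coeff n =
      if j ≤ n then (ev k (XX k L) (WW L lam) (f.coeff j)).coeff (n - j) else 0 := by
    intro j
    rw [coeff_mul_X_pow']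
  simp only [h1]
  rw [← Finset.sum_filter]
  have h2 : Finset.filter (fun j => j ≤ n) (Finset.range (f.natDegree + 1)) ⊆
      Finset.range (n + 1) := by
    intro j hj
    rw [Finset.mem_filter] at hj
    rw [Finset.mem_range]
    omega
  refine Finset.sum_subset h2 fun j hj hj2 => ?_
  rw [Finset.mem_filter, Finset.mem_range, not_and_or] at hj2
  rw [Finset.mem_range] at hj
  rcases hj2 with h3 | h3
  · rw [coeff_eq_zero_of_natDegree_lt (by omega : f.natDegree < j)]
    simp
  · omega

lemma Lc_lv {ω : L →+ ℝ} (lam : k) {A : ℝ} (hA : 0 ≤ A) {d : ℕ}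
    {f : (AddMonoidAlgebra k (L × ℕ))[X]}
    (hf : Lv (wX ω) A d f) : Lv (wX ω) A d (Lc lam f) := by
  intro n
  rw [Lc_coeff']
  refine Submodule.sum_mem _ fun j hj => ?_
  refine ge_mono ?_ (evW_ge lam (hf j) _)
  rw [Finset.mem_range] at hj
  have h1 : (j : ℝ) ≤ n := by exact_mod_cast Nat.lt_succ_iff.1 hj
  exact mul_le_mul_of_nonneg_right (by linarith) hA

lemma LF_Lc {ω : L →+ ℝ} (lam : k) {A : ℝ} (hA : 0 < A) {d : ℕ}
    {f : (AddMonoidAlgebra k (L × ℕ))[X]}
    (hf : Lv (wX ω) A d f) : LF ω A d (Lc lam f) = LF ω A d f := by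
  ext1 n
  rw [LF_coeff, LF_coeff, Lc_coeff', map_sum, Finset.sum_eq_single_of_mem n
    (Finset.mem_range.2 (Nat.lt_succ_self n))]
  · rw [Nat.sub_self, evW_coeff_zero]
  · intro j hj hjn
    rw [Finset.mem_range] at hj
    apply slice_gt
    refine gt_of_ge ?_ (evW_ge lam (hf j) _)
    have h1 : (j : ℝ) < n := by exact_mod_cast (by omega : j < n)
    exact mul_lt_mul_of_pos_right (by linarith) hA

end lc

end Pool.Agent.H893
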