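import Pool.Agent.H893.SU
import Pool.Agent.H893.P6

/-!
# The unramified step
-/

set_option autoImplicit false
set_option linter.unusedVariables false
set_option linter.unusedSectionVars false

universe u w

namespace Pool.Agent.H893

open Pool.Agent.W418.LU2 Polynomial
open Pool.Agent.H176.DT (Mod SU PP St)
open scoped NNReal

/-- The inverse of a root. -/
lemma inv_root {E K : Type u} [Field E] [Field K] [Algebra E K] (V : ValuationSubring K)
    (g : E[X]) (x : K) (hgV : ∀ i, algebraMap E K (g.coeff i) ∈ V) (hx : V.valuation x = 1)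
    (h0 : V.valuation (algebraMap E K (g.coeff 0)) = 1) (hr : aeval x g = 0)
    (hd : V.valuation (aeval x (derivative g)) = 1) :
    ∃ μ : E[X], μ.Monic ∧ (∀ i, algebraMap E K (μ.coeff i) ∈ V) ∧ aeval x⁻¹ μ = 0 ∧
      V.valuation (aeval x⁻¹ (derivative μ)) = 1 := by
  classical
  set n := g.natDegree with hn
  have hx0 : x ≠ 0 := by
    rintro rfl
    rw [map_zero] at hx
    exact zero_ne_one hx
  have hg0 : g.coeff 0 ≠ 0 := by
    intro h
    rw [h, map_zero, map_zero] at h0
    exact zero_ne_one h0
  have hS0 : ∑ j ∈ Finset.range (n + 1), algebraMap E K (g.coeff j) * x ^ j = 0 := by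
    rw [← hr, aeval_eq_sum_range]
    exact Finset.sum_congr rfl fun j _ => (Algebra.smul_def _ _).symm
  have hS1 : x * aeval x (derivative g) =
      ∑ j ∈ Finset.range (n + 1), (j : K) * (algebraMap E K (g.coeff j) * x ^ j) := by
    have h1 : derivative g = ∑ j ∈ Finset.range (n + 1), C (g.coeff j * j) * X ^ (j - 1) := by
      conv_lhs => rw [g.as_sum_range_C_mul_X_pow]
      rw [derivative_sum]
      exact Finset.sum_congr rfl fun j _ => derivative_C_mul_X_pow _ _
    rw [h1, map_sum, Finset.mul_sum]
    refine Finset.sum_congr rfl fun j _ => ?_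
    rcases j with _ | j
    · simp
    · rw [map_mul, aeval_C, map_mul, map_natCast, map_pow, aeval_X, Nat.add_sub_cancel, pow_succ]
      ring
  have hn0 : n ≠ 0 := by
    intro h
    rw [h, zero_add, Finset.sum_range_one, pow_zero, mul_one] at hS0
    exact hg0 ((algebraMap E K).injective (by rw [hS0, map_zero]))
  set R : E[X] := ∑ j ∈ Finset.range (n + 1), C (g.coeff j) * X ^ (n - j) with hR
  have hR0 : aeval x⁻¹ R * x ^ n = 0 := by
    rw [← hS0, hR, map_sum, Finset.sum_mul]
    refine Finset.sum_congr rfl fun j hj => ?_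
    rw [map_mul, aeval_C, map_pow, aeval_X]
    have h1 : j ≤ n := by
      have := Finset.mem_range.1 hj
      omega
    have h2 : x ^ n = x ^ (n - j) * x ^ j := by rw [← pow_add, Nat.sub_add_cancel h1]
    rw [h2, inv_pow, mul_assoc, ← mul_assoc (x ^ (n - j))⁻¹,
      inv_mul_cancel₀ (pow_ne_zero _ hx0), one_mul]
  have hR1 : aeval x⁻¹ (derivative R) * x ^ n = -(x * (x * aeval x (derivative g))) := by
    have h1 : aeval x⁻¹ (derivative R) * x ^ n =
        ∑ j ∈ Finset.range (n + 1), x * (((n : K) - j) * (algebraMap E K (g.coeff j) * x ^ j)) := by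
      rw [hR, derivative_sum, map_sum, Finset.sum_mul]
      refine Finset.sum_congr rfl fun j hj => ?_
      rw [derivative_C_mul_X_pow, map_mul, aeval_C, map_mul, map_natCast, map_pow, aeval_X]
      have h1 : j ≤ n := by
        have := Finset.mem_range.1 hj
        omega
      rcases h1.eq_or_lt with h2 | h2
      · rw [h2]
        simp
      · have h3 : x ^ n = x ^ (n - j - 1) * (x ^ j * x) := by
          rw [← pow_succ, ← pow_add]
          congr 1
          omega
        rw [h3, inv_pow, Nat.cast_sub h1]
        have h4 : x ^ (n - j - 1) ≠ 0 := pow_ne_zero _ hx0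
        field_simp
    rw [h1, hS1, ← Finset.mul_sum]
    have h2 : ∑ j ∈ Finset.range (n + 1), ((n : K) - j) * (algebraMap E K (g.coeff j) * x ^ j) =
        n * ∑ j ∈ Finset.range (n + 1), algebraMap E K (g.coeff j) * x ^ j -
        ∑ j ∈ Finset.range (n + 1), (j : K) * (algebraMap E K (g.coeff j) * x ^ j) := by
      rw [Finset.mul_sum, ← Finset.sum_sub_distrib]
      exact Finset.sum_congr rfl fun j _ => by ring
    rw [h2, hS0]
    ring
  have hRdec : C (g.coeff 0)⁻¹ * R = X ^ n +
      ∑ j ∈ Finset.range n, C ((g.coeff 0)⁻¹ * g.coeff (j + 1)) * X ^ (n - (j + 1)) := by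
    rw [hR, Finset.sum_range_succ', mul_add, Finset.mul_sum, add_comm]
    congr 1
    · rw [Nat.sub_zero, ← mul_assoc, ← C_mul, inv_mul_cancel₀ hg0, C_1, one_mul]
    · refine Finset.sum_congr rfl fun j _ => ?_
      rw [C_mul]
      ring
  have hg0V : V.valuation (algebraMap E K (g.coeff 0)⁻¹) = 1 := by
    rw [map_inv₀, map_inv₀, h0, inv_one]
  refine ⟨C (g.coeff 0)⁻¹ * R, ?_, ?_, ?_, ?_⟩
  · rw [hRdec]
    apply monic_X_pow_add
    refine (degree_sum_le _ _).trans_lt ?_
    refine (Finset.sup_lt_iff (WithBot.bot_lt_coe n)).2 ?_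
    intro j hj
    refine (degree_C_mul_X_pow_le _ _).trans_lt ?_
    have := Finset.mem_range.1 hj
    exact WithBot.coe_lt_coe.2 (by omega : n - (j + 1) < n)
  · intro i
    rw [coeff_C_mul, map_mul]
    refine mul_mem ?_ ?_
    · rw [← ValuationSubring.valuation_le_one_iff, hg0V]
    · rw [hR, finsetSum_coeff, map_sum]
      refine sum_mem fun j _ => ?_
      rw [coeff_C_mul, coeff_X_pow]
      split_ifs
      · rw [mul_one]
        exact hgV j
      · rw [mul_zero, map_zero]
        exact zero_mem _
  · rw [map_mul, (mul_eq_zero.1 hR0).resolve_right (pow_ne_zero _ hx0), mul_zero]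
  · rw [derivative_C_mul, map_mul, aeval_C, map_mul, hg0V, one_mul]
    have h1 := congrArg V.valuation hR1
    rw [Valuation.map_neg, map_mul, map_mul, map_mul, map_pow, hx, hd, one_pow, mul_one, mul_one,
      mul_one] at h1
    exact h1

/-- From strong uniformization to log uniformization. -/
theorem fin_of_su {K : Type u} [Field K] (V : ValuationSubring K) (R : Subring K)
    [IsNoetherianRing R] (U : Set K) (hU : U.Finite)
    (hM : Mod V (Subring.closure ((R : Set K) ∪ U)))
    (hSU : SU V (Subring.closure ((R : Set K) ∪ U))) (A : Subring K)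
    (G : Set K) (hG : G.Finite) (hA : A = Subring.closure ((R : Set K) ∪ G))
    (hAM : Mod V A) : LogUnif V A := by
  have hGA : ∀ g ∈ G, g ∈ V := fun g hg => hAM.1 (by
    rw [hA]
    exact Subring.subset_closure (Or.inr hg))
  have hUA : ∀ g ∈ U, g ∈ V := fun g hg => hM.1 (Subring.subset_closure (Or.inr hg))
  have h2 := (Pool.Agent.H176.DT.p_move V _ hM G hG hGA).1 hSU
  have h3 : Subring.closure ((Subring.closure ((R : Set K) ∪ U) : Set K) ∪ G) =
      Subring.closure ((A : Set K) ∪ U) := by
    rw [hA]
    apply le_antisymm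
    · rw [Subring.closure_le]
      rintro z (hz | hz)
      · refine (?_ : Subring.closure ((R : Set K) ∪ U) ≤ _) hz
        rw [Subring.closure_le]
        rintro z (hz | hz)
        · exact Subring.subset_closure (Or.inl (Subring.subset_closure (Or.inl hz)))
        · exact Subring.subset_closure (Or.inr hz)
      · exact Subring.subset_closure (Or.inl (Subring.subset_closure (Or.inr hz)))
    · rw [Subring.closure_le]
      rintro z (hz | hz)
      · refine (?_ : Subring.closure ((R : Set K) ∪ G) ≤ _) hz
        rw [Subring.closure_le]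
        rintro z (hz | hz)
        · exact Subring.subset_closure (Or.inl (Subring.subset_closure (Or.inl hz)))
        · exact Subring.subset_closure (Or.inr hz)
      · exact Subring.subset_closure (Or.inl (Subring.subset_closure (Or.inr hz)))
  rw [h3] at h2
  have h4 : SU V A := (Pool.Agent.H176.DT.p_move V A hAM U hU hUA).2 h2
  have hN : IsNoetherianRing A := by
    rw [hA]
    exact Pool.Agent.H176.DT.p_noe R G hG
  exact Pool.Agent.H176.DT.p_fin V A hAM.1 h4

end Pool.Agent.H893
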