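import Pool.Agent.H893.P7

/-!
# From a hypersurface of order one to strong uniformization
-/

set_option autoImplicit false
set_option linter.unusedVariables false
set_option linter.unusedSectionVars false

universe u w

namespace Pool.Agent.H893

open Pool.Agent.W418.LU2 Polynomial
open Pool.Agent.H176.DT (Mod SU PP St)
open scoped NNReal

section res

variable {k K : Type u} {L : Type w} [Field k] [Field K] [Algebra k K] [AddCommGroup L]
  [Module.Free ℤ L] [Module.Finite ℤ L] {v : Valuation K ℝ≥0}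

/-- The coordinates in the field they generate. -/
noncomputable def XE (k : Type u) {K : Type u} {L : Type w} [Field k] [Field K] [Algebra k K]
    [AddCommGroup L] [Module.Free ℤ L] [Module.Finite ℤ L] (X : Multiplicative L →* Kˣ) (y : K) :
    Multiplicative L →* (FE k X y)ˣ :=
  MonoidHom.toHomUnits
    { toFun := fun β => ⟨X β, X_mem_FE X y β⟩
      map_one' := Subtype.ext (congrArg Units.val (map_one X))
      map_mul' := fun a b => Subtype.ext (congrArg Units.val (map_mul X a b)) }

lemma XE_coe (X : Multiplicative L →* Kˣ) (y : K) (β : Multiplicative L) :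
    (((XE k X y β : (FE k X y)ˣ) : FE k X y) : K) = X β := rfl

lemma XE_map (X : Multiplicative L →* Kˣ) (y : K) :
    (Units.map ((FE k X y).val : FE k X y →* K)).comp (XE k X y) = X := by
  ext β
  rfl

lemma HypH.sub (H : HypH k L v) (E : IntermediateField k K) :
    HypH k L (v.comap (algebraMap E K)) := by
  intro ω X y hω hX hinj
  have hinj' : Function.Injective (ev k ((Units.map (E.val : E →* K)).comp X) (E.val y)) := by
    intro a b h
    rw [ev_map, ev_map] at h
    exact hinj (E.val.injective h)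
  obtain ⟨φ, hφ⟩ := H ω ((Units.map (E.val : E →* K)).comp X) (E.val y) hω hX hinj'
  refine ⟨φ, fun a => ?_⟩
  have h1 := hφ a
  rw [evL_map, ← map_sub] at h1
  exact h1

lemma trdeg_FE (htr : Algebra.trdeg k K = ((Module.finrank ℤ L + 1 : ℕ) : Cardinal))
    {X : Multiplicative L →* Kˣ} {y : K} (hi : Function.Injective (ev k X y)) :
    Algebra.trdeg k (FE k X y) = ((Module.finrank ℤ L + 1 : ℕ) : Cardinal) := by
  have h1 := alg_of_inj htr hi
  have h2 := trdeg_add_eq k (FE k X y) (A := K)
  rw [trdeg_eq_zero_iff.2 h1, add_zero] at h2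
  rw [h2, htr]

/-- Strong uniformization of the field generated by the coordinates. -/
theorem su_E (hk : ∀ c : k, c ≠ 0 → v (algebraMap k K c) = 1) (H : HypH k L v)
    (htr : Algebra.trdeg k K = ((Module.finrank ℤ L + 1 : ℕ) : Cardinal)) {ω : L →+ ℝ}
    {X : Multiplicative L →* Kˣ} {y : K} (inj : Function.Injective ω)
    (hX : ∀ β, v (X (.ofAdd β) : K) = ex (ω β)) (hy : v y < 1)
    (al : Function.Injective (ev k X y))
    (rr : ∀ x : K, x ≠ 0 → ∃ m : ℕ, m ≠ 0 ∧ ∃ a, v x ^ m = ex (ω a)) :
    ∃ U : Set (FE k X y), U.Finite ∧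
      Mod (v.valuationSubring.comap (algebraMap (FE k X y) K))
        (Subring.closure (Set.range (algebraMap k (FE k X y)) ∪ U)) ∧
      SU (v.valuationSubring.comap (algebraMap (FE k X y) K))
        (Subring.closure (Set.range (algebraMap k (FE k X y)) ∪ U)) := by
  classical
  have hk' : ∀ c : k, c ≠ 0 → (v.comap (algebraMap (FE k X y) K))
      (algebraMap k (FE k X y) c) = 1 := fun c hc => hk c hc
  have H' := H.sub (FE k X y)
  have htr' := trdeg_FE htr al
  have hX' : ∀ β, (v.comap (algebraMap (FE k X y) K)) (XE k X y (.ofAdd β) : FE k X y) =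
      ex (ω β) := fun β => hX β
  have hev : ∀ g, (FE k X y).val (ev k (XE k X y) ⟨y, y_mem_FE X y⟩ g) = ev k X y g := by
    intro g
    rw [← ev_map (FE k X y).val (XE k X y) ⟨y, y_mem_FE X y⟩ g, XE_map]
    rfl
  have al' : Function.Injective (ev k (XE k X y) (⟨y, y_mem_FE X y⟩ : FE k X y)) := by
    intro a b h
    apply al
    rw [← hev, ← hev, h]
  obtain ⟨ψ, c, η, hψ0, hψc, hψη, hη, hηω, hc1⟩ := ready hk' H' inj hX' al' hy.le
  set y2 : FE k X y := ⟨y, y_mem_FE X y⟩ - evL k (XE k X y) ψ with hy2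
  have hFE : ∀ F : IntermediateField k (FE k X y), (∀ β, (XE k X y β : FE k X y) ∈ F) →
      y2 ∈ F → F = ⊤ := by
    intro F hF1 hF2
    have h1 : evL k (XE k X y) ψ ∈ F := by
      rw [← ev_inc (XE k X y) y2]
      exact ev_mem hF1 hF2 _
    have h2 : (⟨y, y_mem_FE X y⟩ : FE k X y) ∈ F := by
      have h3 := add_mem hF2 h1
      rwa [hy2, sub_add_cancel] at h3
    have h3 : FE k X y ≤ IntermediateField.lift F :=
      FE_le (fun β => (IntermediateField.mem_lift (XE k X y β : FE k X y)).2 (hF1 β))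
        ((IntermediateField.mem_lift (⟨y, y_mem_FE X y⟩ : FE k X y)).2 h2)
    rw [eq_top_iff]
    intro z _
    exact (IntermediateField.mem_lift z).1 (h3 z.2)
  have hFt : FE k (XE k X y) y2 = ⊤ := hFE _ (fun β => X_mem_FE _ _ _) (y_mem_FE _ _)
  have S : ES k (v.comap (algebraMap (FE k X y) K)) ω (XE k X y) y2 := by
    refine ⟨inj, hX', ?_, ?_, ?_⟩
    · rw [hψη]
      exact ex_lt_one.2 hη
    · refine inj_mono htr' ?_ al'
      rw [hFt]
      exact le_top
    · intro x hx
      exact rr x fun h => hx (Subtype.ext h)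
  have hgen : ∀ z : FE k X y, ∃ g h : AddMonoidAlgebra k (L × ℕ),
      ev k (XE k X y) y2 h ≠ 0 ∧ z * ev k (XE k X y) y2 h = ev k (XE k X y) y2 g := by
    intro z
    have hle : Algebra.adjoin k (Set.range (fam (Module.finBasis ℤ L) (XE k X y) y2)) ≤
        (ev k (XE k X y) y2).range := by
      rw [Algebra.adjoin_le_iff]
      rintro _ ⟨_ | j, rfl⟩
      · refine ⟨AddMonoidAlgebra.single (0, 1) 1, ?_⟩
        change ev k _ _ _ = y2
        rw [ev_single]
        simp
      · refine ⟨AddMonoidAlgebra.single (Module.finBasis ℤ L j, 0) 1, ?_⟩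
        change ev k _ _ _ = (XE k X y (.ofAdd (Module.finBasis ℤ L j)) : FE k X y)
        rw [ev_single]
        simp
    have hz : z ∈ FE k (XE k X y) y2 := by
      rw [hFt]
      trivial
    obtain ⟨r, hr, s, hs, rfl⟩ := IntermediateField.mem_adjoin_iff_div.1 hz
    obtain ⟨g, rfl⟩ := hle hr
    obtain ⟨h, rfl⟩ := hle hs
    by_cases h0 : ev k (XE k X y) y2 h = 0
    · refine ⟨0, 1, ?_, ?_⟩
      · rw [map_one]
        exact one_ne_zero
      · change ev k (XE k X y) y2 g / ev k (XE k X y) y2 h * _ = _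
        rw [h0, div_zero, zero_mul, map_zero]
    · exact ⟨g, h, h0, div_mul_cancel₀ _ h0⟩
  obtain ⟨U, hU, h1, h2⟩ := su_of_es hk' H' htr' S hη hψη hηω hgen
  exact ⟨U, hU, h1, h2⟩

end res

end Pool.Agent.H893
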