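import Pool.Agent.H893.Pt
import Pool.Agent.H893.LB2

/-!
# The maximal level
-/

set_option autoImplicit false
set_option linter.unusedVariables false
set_option linter.unusedSectionVars false

namespace Pool.Agent.H893

open Polynomial

section frob

variable {k M : Type*} [Field k] [AddCommMonoid M] (p : ℕ) [Fact p.Prime] [CharP k p]

lemma charP_ama : CharP (AddMonoidAlgebra k M) p := by
  refine charP_of_injective_algebraMap (R := k) (A := AddMonoidAlgebra k M) ?_ p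
  exact (algebraMap k (AddMonoidAlgebra k M)).injective

lemma coeff_pow_frob (e : ℕ) (hinj : Function.Injective fun μ : M => (p ^ e) • μ)
    (g : AddMonoidAlgebra k M) (μ : M) :
    (g ^ (p ^ e)).coeff ((p ^ e) • μ) = g.coeff μ ^ (p ^ e) := by
  classical
  have hp : p.Prime := Fact.out
  have hc : CharP (AddMonoidAlgebra k M) p := charP_ama p
  have hpe : p ^ e ≠ 0 := pow_ne_zero _ hp.ne_zero
  conv_lhs => rw [sum_single g]
  rw [sum_pow_char_pow, AddMonoidAlgebra.coeff_sum, Finsupp.finsetSum_apply]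
  have h1 : ∀ ν, ((AddMonoidAlgebra.single ν (g.coeff ν)) ^ (p ^ e)).coeff ((p ^ e) • μ) =
      if ν = μ then g.coeff ν ^ (p ^ e) else 0 := by
    intro ν
    rw [AddMonoidAlgebra.single_pow, AddMonoidAlgebra.coeff_single, Finsupp.single_apply]
    by_cases h : ν = μ
    · rw [if_pos h, if_pos (by rw [h])]
    · rw [if_neg h, if_neg fun h2 => h (hinj h2)]
  simp_rw [h1]
  rw [Finset.sum_ite_eq']
  split_ifs with h
  · rfl
  · rw [Finsupp.notMem_support_iff.1 h, zero_pow hpe]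

end frob

section exact

variable {k M : Type*} [Field k] [AddCommMonoid M] {w : M → ℝ}

/-- The exact level. -/
lemma exact_level {d : ℕ} {g : (AddMonoidAlgebra k M)[X]} (h : ∃ j < d, g.coeff j ≠ 0) :
    ∃ A' : ℝ, Lw w A' d g ∧ ∃ j : ℕ, j < d ∧ ∃ μ, (g.coeff j).coeff μ ≠ 0 ∧
      w μ = ((d : ℝ) - j) * A' := by
  classical
  let T : Finset (Σ _ : ℕ, M) := (Finset.range d).sigma fun j => (g.coeff j).coeff.support
  have hT : T.Nonempty := by
    obtain ⟨j, hj, h1⟩ := h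
    have h2 : (g.coeff j).coeff ≠ 0 := by
      rwa [Ne, AddMonoidAlgebra.coeff_eq_zero]
    obtain ⟨μ, hμ⟩ := Finsupp.support_nonempty_iff.2 h2
    exact ⟨⟨j, μ⟩, Finset.mem_sigma.2 ⟨Finset.mem_range.2 hj, hμ⟩⟩
  obtain ⟨⟨j, μ⟩, hjμ, hmin⟩ := T.exists_min_image (fun t => w t.2 / ((d : ℝ) - t.1)) hT
  rw [Finset.mem_sigma, Finset.mem_range, Finsupp.mem_support_iff] at hjμ
  have hpos : ∀ i : ℕ, i < d → (0 : ℝ) < (d : ℝ) - i := by
    intro i hi
    have : (i : ℝ) < d := by exact_mod_cast hi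
    linarith
  refine ⟨w μ / ((d : ℝ) - j), ?_, j, hjμ.1, μ, hjμ.2, ?_⟩
  · intro i hi ν hν
    have h1 := hmin ⟨i, ν⟩ (Finset.mem_sigma.2 ⟨Finset.mem_range.2 hi,
      Finsupp.mem_support_iff.2 hν⟩)
    simp only at h1
    rw [le_div_iff₀ (hpos i hi)] at h1
    linarith
  · rw [mul_div_cancel₀]
    exact (hpos j hjμ.1).ne'

end exact

section PA

variable {k L : Type*} [Field k] [AddCommGroup L] [Module.Free ℤ L] [Module.Finite ℤ L]

/-- The admissible translations. -/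
def Reg (ω : L →+ ℝ) (P : AddSubmonoid (L × ℕ)) (A b : ℝ) (Φ : AddMonoidAlgebra k (L × ℕ)) :
    Prop :=
  Φ ∈ inP k P ∧ Φ ∈ ge (k := k) (wX ω) A ∧ og b (slice ω A Φ) ∧ Φ.coeff 0 = 0

lemma Reg.add {ω : L →+ ℝ} {P : AddSubmonoid (L × ℕ)} {A b : ℝ}
    {Φ Ψ : AddMonoidAlgebra k (L × ℕ)} (h1 : Reg ω P A b Φ) (h2 : Reg ω P A b Ψ) :
    Reg ω P A b (Φ + Ψ) := by
  refine ⟨add_mem h1.1 h2.1, Submodule.add_mem _ h1.2.1 h2.2.1, ?_, ?_⟩
  · rw [map_add]
    exact og_add h1.2.2.1 h2.2.2.1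
  · rw [AddMonoidAlgebra.coeff_add, Finsupp.add_apply, h1.2.2.2, h2.2.2.2, add_zero]

lemma inP_taylor {P : AddSubmonoid (L × ℕ)} {f : (AddMonoidAlgebra k (L × ℕ))[X]}
    {Φ : AddMonoidAlgebra k (L × ℕ)} (hf : ∀ j, f.coeff j ∈ inP k P) (hΦ : Φ ∈ inP k P) (j : ℕ) :
    (taylor Φ f).coeff j ∈ inP k P := by
  rw [coeff_taylor f Φ j _ (Nat.lt_succ_self _)]
  refine sum_mem fun i _ => mul_mem ?_ (mul_mem (hf i) (pow_mem hΦ _))
  exact natCast_mem _ _

lemma ge_zero_taylor {M : Type*} [AddCommMonoid M] {w : M →+ ℝ} {f : (AddMonoidAlgebra k M)[X]}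
    {Φ : AddMonoidAlgebra k M} (hf : ∀ j, f.coeff j ∈ ge (k := k) w 0)
    (hΦ : Φ ∈ ge (k := k) w 0) (j : ℕ) : (taylor Φ f).coeff j ∈ ge (k := k) w 0 := by
  rw [coeff_taylor f Φ j _ (Nat.lt_succ_self _)]
  refine Submodule.sum_mem _ fun i _ => natCast_mul_mem_ge _ ?_
  refine ge_mono (le_of_eq ?_) (ge_mul (hf i) (ge_pow hΦ (i - j)))
  ring

/-- The coefficient of degree `d` after a translation by an element of positive weight. -/
lemma coeff_taylor_top {M : Type*} [AddCommMonoid M] {w : M →+ ℝ}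
    {f : (AddMonoidAlgebra k M)[X]} {Φ : AddMonoidAlgebra k M} {A : ℝ} (hA : 0 ≤ A)
    (hf : ∀ j, f.coeff j ∈ ge (k := k) w 0) (hΦ : Φ ∈ gt (k := k) w A) (j : ℕ) :
    (taylor Φ f).coeff j - f.coeff j ∈ gt (k := k) w A := by
  rw [coeff_taylor f Φ j (f.natDegree + j + 1) (by omega),
    Finset.sum_eq_add_sum_sdiff_singleton_of_mem (Finset.mem_range.2 (by omega : j <
      f.natDegree + j + 1))]
  have h1 : ((j.choose j : ℕ) : AddMonoidAlgebra k M) * (f.coeff j * Φ ^ (j - j)) =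
      f.coeff j := by simp
  rw [h1, add_sub_cancel_left]
  refine Submodule.sum_mem _ fun i hi => ?_
  rw [Finset.mem_sdiff, Finset.mem_singleton] at hi
  by_cases hij : i < j
  · rw [Nat.choose_eq_zero_of_lt hij]
    simp
  · apply natCast_mul_mem_gt
    have hne : i - j ≠ 0 := by omega
    have h2 := ge_mul_gt (hf i) (gt_pow hΦ (i - j) hne)
    refine gt_mono ?_ h2
    have h3 : (1 : ℝ) ≤ ((i - j : ℕ) : ℝ) := by
      exact_mod_cast Nat.one_le_iff_ne_zero.2 hne
    nlinarith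

theorem phaseA (p : ℕ) [Fact p.Prime] [CharP k p] {ω : L →+ ℝ} (hω : Function.Injective ω)
    {η : ℝ} (hη : 0 < η) {s : ℕ} (bs : Module.Basis (Fin s) ℤ L) (hbs : ∀ j, 0 < ω (bs j))
    {d : ℕ} (hd : 0 < d) {f : (AddMonoidAlgebra k (L × ℕ))[X]} {c0 : k} (hc0 : c0 ≠ 0)
    (hfd : (f.coeff d).coeff 0 = c0) (hfP : ∀ j, f.coeff j ∈ inP k ((chartP bs).prod ⊤))
    (hf0 : ∀ j < d, (f.coeff j).coeff 0 = 0) {A b : ℝ} (hA : 0 ≤ A) (hb : 0 ≤ b)
    (hlv : Lv (wX ω) A d f) (hsl : Slc 0 d b (LF ω A d f)) (Bd : ℝ)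
    (hBd : ∀ Φ, Reg ω ((chartP bs).prod ⊤) A b Φ → ∀ A', Lw (wW ω η) A' d (taylor Φ f) → A' ≤ Bd) :
    ∃ (Φ : AddMonoidAlgebra k (L × ℕ)) (A' : ℝ), Reg ω ((chartP bs).prod ⊤) A b Φ ∧ 0 < A' ∧
      Lw (wW ω η) A' d (taylor Φ f) ∧
      (∃ j : ℕ, j < d ∧ ∃ μ, ((taylor Φ f).coeff j).coeff μ ≠ 0 ∧
        wW ω η μ = ((d : ℝ) - j) * A') ∧
      ∀ Φ1 : AddMonoidAlgebra k (L × ℕ), (∀ μ, Φ1.coeff μ ≠ 0 → wW ω η μ = A') →
        ∃ j : ℕ, j < d ∧ (taylor Φ1 (taylor Φ f)).coeff j ∉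
          gt (k := k) (wW ω η) (((d : ℝ) - j) * A') := by
  classical
  have hp : p.Prime := Fact.out
  set P : AddSubmonoid (L × ℕ) := (chartP bs).prod ⊤ with hP
  have hPw : ∀ μ ∈ P, 0 ≤ wW ω η μ := by
    intro μ hμ
    rw [wW_apply]
    have h1 := chartP_nonneg hbs hμ.1
    positivity
  have hPw0 : ∀ μ ∈ P, μ ≠ 0 → 0 < wW ω η μ := by
    intro μ hμ h0
    have h1 := chartP_nonneg hbs hμ.1
    refine lt_of_le_of_ne (hPw μ hμ) fun h2 => h0 ?_
    rw [wW_apply] at h2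
    have h3 : (0 : ℝ) ≤ μ.2 * η := by positivity
    have h4 : ω μ.1 = 0 := by linarith
    have h5 : (μ.2 : ℝ) * η = 0 := by linarith
    apply Prod.ext
    · exact hω (by rw [h4]; simp)
    · rcases mul_eq_zero.1 h5 with h6 | h6
      · exact_mod_cast h6
      · exact absurd h6 hη.ne'
  have hPge : ∀ g ∈ inP k P, g ∈ ge (k := k) (wW ω η) 0 := fun g hg μ hμ => hPw μ (hg μ hμ)
  have hPgt : ∀ g ∈ inP k P, g.coeff 0 = 0 → g ∈ gt (k := k) (wW ω η) 0 := by
    intro g hg h0 μ hμ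
    refine hPw0 μ (hg μ hμ) ?_
    rintro rfl
    exact hμ h0
  have hpos : ∀ i : ℕ, i < d → (0 : ℝ) < (d : ℝ) - i := by
    intro i hi
    have : (i : ℝ) < d := by exact_mod_cast hi
    linarith
  -- existence of exact levels
  have hex : ∀ Φ, Reg ω P A b Φ → ∃ A' : ℝ, Lw (wW ω η) A' d (taylor Φ f) ∧
      ∃ j : ℕ, j < d ∧ ∃ μ, ((taylor Φ f).coeff j).coeff μ ≠ 0 ∧
        wW ω η μ = ((d : ℝ) - j) * A' := by
    intro Φ hΦ
    apply exact_level
    by_contra hcon
    push Not at hcon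
    have h1 := hBd Φ hΦ (Bd + 1) (by
      intro j hj
      rw [hcon j hj]
      exact Submodule.zero_mem _)
    linarith
  -- the set of the exact levels
  let S : Set ℝ := {A' | ∃ Φ, Reg ω P A b Φ ∧ Lw (wW ω η) A' d (taylor Φ f) ∧
      ∃ j : ℕ, j < d ∧ ∃ μ, ((taylor Φ f).coeff j).coeff μ ≠ 0 ∧
        wW ω η μ = ((d : ℝ) - j) * A'}
  have hSfin : S.Finite := by
    let C : ℝ := d * |Bd|
    have h1 : ({μ : L × ℕ | μ ∈ P ∧ wW ω η μ ≤ C}).Finite := by
      refine ((chartP_finite hbs C).prod (Set.finite_Iic ⌊C / η⌋₊)).subset ?_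
      rintro μ ⟨h2, h3⟩
      rw [wW_apply] at h3
      have h4 := chartP_nonneg hbs h2.1
      have h5 : (0 : ℝ) ≤ μ.2 * η := by positivity
      refine ⟨⟨h2.1, by linarith⟩, ?_⟩
      refine Nat.le_floor ?_
      rw [le_div_iff₀ hη]
      linarith
    refine ((h1.prod (Set.finite_Iio d)).image
      (fun t : (L × ℕ) × ℕ => wW ω η t.1 / ((d : ℝ) - t.2))).subset ?_
    rintro A' ⟨Φ, hΦ, h2, j, hj, μ, hμ, h3⟩
    refine ⟨(μ, j), ⟨⟨inP_taylor hfP hΦ.1 j μ hμ, ?_⟩, hj⟩, ?_⟩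
    · change wW ω η μ ≤ C
      rw [h3]
      have h4 := hBd Φ hΦ A' h2
      have h5 : ((d : ℝ) - j) ≤ d := by
        have : (0 : ℝ) ≤ j := Nat.cast_nonneg j
        linarith
      have h6 : A' ≤ |Bd| := h4.trans (le_abs_self _)
      calc ((d : ℝ) - j) * A' ≤ ((d : ℝ) - j) * |Bd| :=
            mul_le_mul_of_nonneg_left h6 (hpos j hj).le
        _ ≤ d * |Bd| := mul_le_mul_of_nonneg_right h5 (abs_nonneg _)
    · change wW ω η μ / ((d : ℝ) - j) = A'
      rw [h3, mul_div_cancel_left₀]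
      exact (hpos j hj).ne'
  have hReg0 : Reg ω P A b (0 : AddMonoidAlgebra k (L × ℕ)) := by
    refine ⟨zero_mem _, Submodule.zero_mem _, ?_, ?_⟩
    · rw [map_zero]
      exact og_zero b
    · simp
  have hSne : S.Nonempty := by
    obtain ⟨A', h1, h2⟩ := hex 0 hReg0
    exact ⟨A', 0, hReg0, h1, h2⟩
  obtain ⟨A', hA'S, hmax⟩ := Set.exists_max_image S id hSfin hSne
  obtain ⟨Φ, hΦ, hLw, hatt⟩ := hA'S
  have hA'pos : 0 < A' := by
    obtain ⟨A0, h1, j, hj, μ, hμ, h2⟩ := hex 0 hReg0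
    have h3 := hmax A0 ⟨0, hReg0, h1, j, hj, μ, hμ, h2⟩
    simp only [id] at h3
    rw [taylor_zero] at hμ
    have h4 : μ ≠ 0 := by
      rintro rfl
      exact hμ (hf0 j hj)
    have h5 := hPw0 μ (hfP j μ hμ) h4
    rw [h2] at h5
    have h6 : 0 < A0 := (mul_pos_iff_of_pos_left (hpos j hj)).1 h5
    linarith
  refine ⟨Φ, A', hΦ, hA'pos, hLw, hatt, ?_⟩
  intro Φ1 hΦ1
  by_contra hcon
  push Not at hcon
  set g := taylor Φ f with hg
  set g2 := taylor Φ1 g with hg2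
  have hgP : ∀ j, g.coeff j ∈ inP k P := fun j => inP_taylor hfP hΦ.1 j
  have hΦ1ge : Φ1 ∈ ge (k := k) (wW ω η) A' := fun μ hμ => (hΦ1 μ hμ).ge
  have hΦ1gt : Φ1 ∈ gt (k := k) (wW ω η) 0 := gt_of_ge hA'pos hΦ1ge
  have hg2ge : ∀ j, g2.coeff j ∈ ge (k := k) (wW ω η) 0 :=
    ge_zero_taylor (fun j => hPge _ (hgP j)) (gt_ge hΦ1gt)
  have hΦgt : Φ ∈ gt (k := k) (wW ω η) 0 := hPgt Φ hΦ.1 hΦ.2.2.2
  have hg2f : g2 = taylor (Φ1 + Φ) f := by rw [hg2, hg, taylor_taylor]
  have hgt0 : ∀ h ∈ gt (k := k) (wW ω η) 0, AddMonoidAlgebra.coeff h 0 = 0 := by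
    intro h hh
    by_contra h1
    have h2 := hh 0 h1
    rw [map_zero] at h2
    exact lt_irrefl _ h2
  have hg2d : (g2.coeff d).coeff 0 = c0 := by
    have h1 := coeff_taylor_top le_rfl (fun j => hPge _ (hfP j))
      (Submodule.add_mem _ hΦ1gt hΦgt) d
    rw [← hg2f] at h1
    have h2 := hgt0 _ h1
    rw [AddMonoidAlgebra.coeff_sub, Finsupp.sub_apply, hfd] at h2
    exact sub_eq_zero.1 h2
  -- the exponents
  obtain ⟨e, d', hpd', hde⟩ := Nat.exists_eq_pow_mul_and_not_dvd hd.ne' p hp.ne_one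
  set q := p ^ e with hq
  have hq0 : 0 < q := pow_pos hp.pos e
  have hd'0 : 0 < d' := by
    rcases Nat.eq_zero_or_pos d' with h1 | h1
    · rw [h1, mul_zero] at hde
      omega
    · exact h1
  have hqd : q ≤ d := by
    rw [hde]
    exact Nat.le_mul_of_pos_right _ hd'0
  have hd'k : ((d' : ℕ) : k) ≠ 0 := by
    rw [Ne, CharP.cast_eq_zero_iff k p]
    exact hpd'
  have hdqR : (d : ℝ) - ((d - q : ℕ) : ℝ) = q := by
    rw [Nat.cast_sub hqd]
    ring
  have hinj : Function.Injective fun μ : L × ℕ => (p ^ e) • μ := by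
    intro μ ν h
    have h1 : (p ^ e) • μ.1 = (p ^ e) • ν.1 := congrArg Prod.fst h
    have h2 : (p ^ e) • μ.2 = (p ^ e) • ν.2 := congrArg Prod.snd h
    apply Prod.ext
    · apply hω
      have h3 := congrArg ω h1
      rw [map_nsmul, map_nsmul, nsmul_eq_mul, nsmul_eq_mul] at h3
      exact mul_left_cancel₀ (by exact_mod_cast hq0.ne') h3
    · rw [smul_eq_mul, smul_eq_mul] at h2
      exact Nat.eq_of_mul_eq_mul_left hq0 h2
  have hroot : ∀ μ, Φ1.coeff μ ≠ 0 → (g.coeff (d - q)).coeff (q • μ) ≠ 0 := by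
    intro μ hμ
    have h1 : g = taylor (-Φ1) g2 := by
      rw [hg2, taylor_taylor, neg_add_cancel, taylor_zero]
    have hνw : wW ω η (q • μ) = q * A' := by
      rw [map_nsmul, hΦ1 μ hμ, nsmul_eq_mul]
    have hnegge : -Φ1 ∈ ge (k := k) (wW ω η) A' := Submodule.neg_mem _ hΦ1ge
    have hvan : ∀ h ∈ gt (k := k) (wW ω η) (q * A'), AddMonoidAlgebra.coeff h (q • μ) = 0 := by
      intro h hh
      by_contra h1
      have h2 := hh _ h1
      rw [hνw] at h2
      exact lt_irrefl _ h2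
    rw [h1, coeff_taylor g2 (-Φ1) (d - q) (g2.natDegree + d + 1) (by omega),
      AddMonoidAlgebra.coeff_sum, Finsupp.finsetSum_apply, Finset.sum_eq_single_of_mem d
        (Finset.mem_range.2 (by omega))]
    · have h2 : ((d.choose (d - q) : ℕ) : AddMonoidAlgebra k (L × ℕ)) =
          algebraMap k _ ((d' : ℕ) : k) := by
        have h3 : ((d.choose (d - q) : ℕ) : k) = ((d' : ℕ) : k) := by
          rw [Nat.choose_symm hqd, hde, choose_q p e d', if_pos dvd_rfl,
            Nat.div_self hq0, Nat.choose_one_right]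
        rw [← h3, map_natCast]
      have h3 : d - (d - q) = q := by omega
      rw [h2, h3, ← Algebra.smul_def, AddMonoidAlgebra.coeff_smul, Finsupp.smul_apply,
        smul_eq_mul]
      refine mul_ne_zero hd'k ?_
      -- split off the constant
      have h4 : g2.coeff d - algebraMap k _ c0 ∈ gt (k := k) (wW ω η) 0 := by
        intro ν hν
        have hν0 : ν ≠ 0 := by
          rintro rfl
          apply hν
          rw [AddMonoidAlgebra.coeff_sub, Finsupp.sub_apply, hg2d]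
          simp [AddMonoidAlgebra.coe_algebraMap]
        have h5 : (g2.coeff d).coeff ν ≠ 0 := by
          intro h6
          apply hν
          rw [AddMonoidAlgebra.coeff_sub, Finsupp.sub_apply, h6]
          simp [AddMonoidAlgebra.coe_algebraMap, Finsupp.single_apply, hν0.symm]
        have h6 := hg2ge d ν h5
        refine lt_of_le_of_ne h6 fun h7 => ?_
        -- weights in `g2` which vanish
        have h8 := coeff_taylor_top le_rfl (fun j => hPge _ (hfP j))
          (Submodule.add_mem _ hΦ1gt hΦgt) d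
        rw [← hg2f] at h8
        have h9 : (f.coeff d).coeff ν = 0 := by
          by_contra h10
          have h11 := hPw0 ν (hfP d ν h10) hν0
          rw [← h7] at h11
          exact lt_irrefl _ h11
        have h10 := h8 ν (by
          rw [AddMonoidAlgebra.coeff_sub, Finsupp.sub_apply, h9, sub_zero]
          exact h5)
        rw [← h7] at h10
        exact lt_irrefl _ h10
      have h5 : g2.coeff d * (-Φ1) ^ q = c0 • (-Φ1) ^ q +
          (g2.coeff d - algebraMap k _ c0) * (-Φ1) ^ q := by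
        rw [sub_mul, Algebra.smul_def]
        ring
      have h6 := gt_mul h4 (ge_pow hnegge q)
      rw [zero_add] at h6
      have h7 := hvan _ h6
      rw [h5, AddMonoidAlgebra.coeff_add, Finsupp.add_apply, h7, add_zero,
        AddMonoidAlgebra.coeff_smul, Finsupp.smul_apply,
        smul_eq_mul, hq, coeff_pow_frob p e hinj]
      refine mul_ne_zero hc0 (pow_ne_zero _ ?_)
      rw [AddMonoidAlgebra.coeff_neg, Finsupp.neg_apply]
      exact neg_ne_zero.2 hμ
    · intro i _ hid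
      by_cases hij : i < d - q
      · rw [Nat.choose_eq_zero_of_lt hij]
        simp
      · push Not at hij
        apply hvan
        apply natCast_mul_mem_gt
        have h2 : ((i - (d - q) : ℕ) : ℝ) = i - d + q := by
          rw [Nat.cast_sub hij, Nat.cast_sub hqd]
          ring
        rcases lt_or_gt_of_ne hid with h3 | h3
        · refine gt_mono (le_of_eq ?_) (gt_mul (hcon i h3) (ge_pow hnegge (i - (d - q))))
          rw [h2]
          ring
        · refine gt_of_ge ?_ (ge_mul (hg2ge i) (ge_pow hnegge (i - (d - q))))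
          rw [h2, zero_add]
          have h4 : (d : ℝ) < i := by exact_mod_cast h3
          have h5 : (q : ℝ) < i - d + q := by linarith
          exact mul_lt_mul_of_pos_right h5 hA'pos
  -- `Φ1` is admissible
  have hlvg : Lv (wX ω) A d g := hlv.taylor hΦ.2.1
  have hslg : Slc 0 d b (LF ω A d g) := by
    rw [hg, LF_taylor ω hlv hΦ.2.1]
    exact hsl.taylor hb (by rw [taylor_zero]; exact hΦ.2.2.1)
  have hΦ1Reg : Reg ω P A b Φ1 := by
    refine ⟨?_, ?_, ?_, ?_⟩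
    · intro μ hμ
      have h1 := hgP _ _ (hroot μ hμ)
      refine ⟨?_, trivial⟩
      exact chartP_root hq0.ne' h1.1
    · intro μ hμ
      have h1 := hlvg _ _ (hroot μ hμ)
      rw [hdqR, wX_apply, Prod.smul_fst, map_nsmul, nsmul_eq_mul] at h1
      exact le_of_mul_le_mul_left h1 (by exact_mod_cast hq0)
    · intro i hi
      by_contra h1
      obtain ⟨β, hβ, h2⟩ := slice_ne ω hω h1
      have h3 := hroot _ h2
      have h4 := hslg (d - q) (by omega)
      rw [taylor_zero, LF_coeff, hdqR] at h4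
      have h5 : (q : ℝ) * A = ω (q • β) := by rw [map_nsmul, hβ, nsmul_eq_mul]
      have h6 := h4 (q * i) (by
        push_cast
        exact mul_lt_mul_of_pos_left hi (by exact_mod_cast hq0))
      rw [h5, slice_coeff ω hω] at h6
      exact h3 h6
    · by_contra h1
      have h2 := hΦ1 0 h1
      rw [map_zero] at h2
      exact hA'pos.ne h2
  have hReg2 := hΦ1Reg.add hΦ
  obtain ⟨A2, h1, j, hj, μ, hμ, h2⟩ := hex _ hReg2
  have h3 := hmax A2 ⟨_, hReg2, h1, j, hj, μ, hμ, h2⟩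
  rw [← hg2f] at hμ
  have h4 := hcon j hj μ hμ
  rw [h2] at h4
  have h5 := lt_of_mul_lt_mul_left h4 (hpos j hj).le
  simp only [id] at h3
  linarith

end PA

end Pool.Agent.H893
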