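import Pool.Agent.H893.Sl
import Pool.Agent.H893.Lat

/-!
# Points and coordinate changes
-/

set_option autoImplicit false
set_option linter.unusedVariables false
set_option linter.unusedSectionVars false

namespace Pool.Agent.H893

open Polynomial

section ev

variable {k L S : Type*} [Field k] [AddCommGroup L] [CommRing S] [Algebra k S]

/-- The monomials at a point. -/
def monHom (X : Multiplicative L →* Sˣ) (y : S) : Multiplicative (L × ℕ) →* S where
  toFun μ := (X (.ofAdd μ.toAdd.1) : S) * y ^ μ.toAdd.2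
  map_one' := by simp
  map_mul' := by
    intro a b
    simp only [toAdd_mul, Prod.fst_add, Prod.snd_add, ofAdd_add, map_mul, Units.val_mul, pow_add]
    ring

/-- The evaluation at a point. -/
noncomputable def ev (k : Type*) {L S : Type*} [Field k] [AddCommGroup L] [CommRing S]
    [Algebra k S] (X : Multiplicative L →* Sˣ) (y : S) : AddMonoidAlgebra k (L × ℕ) →ₐ[k] S :=
  AddMonoidAlgebra.lift k S (L × ℕ) (monHom X y)

lemma ev_single (X : Multiplicative L →* Sˣ) (y : S) (μ : L × ℕ) (c : k) :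
    ev k X y (AddMonoidAlgebra.single μ c) =
      algebraMap k S c * ((X (.ofAdd μ.1) : S) * y ^ μ.2) := by
  rw [ev, AddMonoidAlgebra.lift_single, Algebra.smul_def]
  rfl

/-- The evaluation of Laurent polynomials. -/
noncomputable def evL (k : Type*) {L S : Type*} [Field k] [AddCommGroup L] [CommRing S]
    [Algebra k S] (X : Multiplicative L →* Sˣ) : AddMonoidAlgebra k L →ₐ[k] S :=
  AddMonoidAlgebra.lift k S L ((Units.coeHom S).comp X)

lemma evL_single (X : Multiplicative L →* Sˣ) (β : L) (c : k) :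
    evL k X (AddMonoidAlgebra.single β c) = algebraMap k S c * (X (.ofAdd β) : S) := by
  rw [evL, AddMonoidAlgebra.lift_single, Algebra.smul_def]
  rfl

/-- The inclusion of Laurent polynomials. -/
noncomputable def inc (k L : Type*) [Field k] [AddCommGroup L] :
    AddMonoidAlgebra k L →ₐ[k] AddMonoidAlgebra k (L × ℕ) :=
  AddMonoidAlgebra.lift k _ L
    { toFun := fun β => AddMonoidAlgebra.single (β.toAdd, 0) 1
      map_one' := rfl
      map_mul' := by
        intro a b
        rw [AddMonoidAlgebra.single_mul_single]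
        simp }

lemma inc_single (β : L) (c : k) :
    inc k L (AddMonoidAlgebra.single β c) = AddMonoidAlgebra.single (β, 0) c := by
  rw [inc, AddMonoidAlgebra.lift_single]
  change c • AddMonoidAlgebra.single (β, 0) (1 : k) = _
  rw [AddMonoidAlgebra.smul_single, smul_eq_mul, mul_one]

lemma ev_inc (X : Multiplicative L →* Sˣ) (y : S) (g : AddMonoidAlgebra k L) :
    ev k X y (inc k L g) = evL k X g := by
  have h : ((ev k X y).comp (inc k L)) = evL k X := by
    apply AddMonoidAlgebra.algHom_ext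
    · intro β
      rw [AlgHom.comp_apply, inc_single, ev_single, evL_single]
      simp
    · apply AlgHom.ext
      intro c
      change ev k X y (inc k L (AddMonoidAlgebra.single 0 c)) =
        evL k X (AddMonoidAlgebra.single 0 c)
      rw [inc_single, ev_single, evL_single]
      simp
  rw [← h]
  rfl

lemma inc_coeff (g : AddMonoidAlgebra k L) (β : L) (i : ℕ) :
    (inc k L g).coeff (β, i) = if i = 0 then g.coeff β else 0 := by
  classical
  induction g using AddMonoidAlgebra.induction_linear with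
  | zero => simp
  | add f g hf hg =>
    rw [map_add, AddMonoidAlgebra.coeff_add, AddMonoidAlgebra.coeff_add, Finsupp.add_apply,
      Finsupp.add_apply, hf, hg]
    split_ifs <;> simp
  | single a b =>
    rw [inc_single, AddMonoidAlgebra.coeff_single, AddMonoidAlgebra.coeff_single,
      Finsupp.single_apply, Finsupp.single_apply]
    by_cases h1 : a = β
    · subst h1
      by_cases h2 : i = 0
      · subst h2; simp
      · rw [if_neg, if_neg h2]
        intro h3
        exact h2 (congrArg Prod.snd h3).symm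
    · rw [if_neg, if_neg h1, ite_self]
      intro h3
      exact h1 (congrArg Prod.fst h3)

/-- Ring homomorphisms and points. -/
lemma ev_map {S' : Type*} [CommRing S'] [Algebra k S'] (φ : S →ₐ[k] S')
    (X : Multiplicative L →* Sˣ) (y : S) (g : AddMonoidAlgebra k (L × ℕ)) :
    ev k ((Units.map (φ : S →* S')).comp X) (φ y) g = φ (ev k X y g) := by
  have h : ev k ((Units.map (φ : S →* S')).comp X) (φ y) = φ.comp (ev k X y) := by
    apply AddMonoidAlgebra.algHom_ext
    · intro β
      rw [AlgHom.comp_apply, ev_single, ev_single]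
      simp
    · apply AlgHom.ext
      intro c
      change ev k _ _ (AddMonoidAlgebra.single 0 c) = φ (ev k X y (AddMonoidAlgebra.single 0 c))
      rw [ev_single, ev_single]
      simp
  rw [h]
  rfl

lemma evL_map {S' : Type*} [CommRing S'] [Algebra k S'] (φ : S →ₐ[k] S')
    (X : Multiplicative L →* Sˣ) (g : AddMonoidAlgebra k L) :
    evL k ((Units.map (φ : S →* S')).comp X) g = φ (evL k X g) := by
  have h := ev_map φ X 0 (inc k L g)
  rwa [ev_inc, ev_inc] at h

end ev

section tau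

variable {k L : Type*} [Field k] [AddCommGroup L]

/-- The monomials in the first coordinates as units. -/
noncomputable def XA (k L : Type*) [Field k] [AddCommGroup L] :
    Multiplicative L →* (AddMonoidAlgebra k (L × ℕ))ˣ where
  toFun β := ⟨AddMonoidAlgebra.single (β.toAdd, 0) 1, AddMonoidAlgebra.single (-β.toAdd, 0) 1, by
      rw [AddMonoidAlgebra.single_mul_single, AddMonoidAlgebra.one_def]
      simp
      rfl, by
      rw [AddMonoidAlgebra.single_mul_single, AddMonoidAlgebra.one_def]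
      simp
      rfl⟩
  map_one' := by
    apply Units.ext
    rfl
  map_mul' := by
    intro a b
    apply Units.ext
    change AddMonoidAlgebra.single ((a * b).toAdd, 0) (1 : k) =
      AddMonoidAlgebra.single (a.toAdd, 0) 1 * AddMonoidAlgebra.single (b.toAdd, 0) 1
    rw [AddMonoidAlgebra.single_mul_single]
    simp

lemma XA_apply (β : L) : ((XA k L (.ofAdd β) : (AddMonoidAlgebra k (L × ℕ))ˣ) :
    AddMonoidAlgebra k (L × ℕ)) = AddMonoidAlgebra.single (β, 0) 1 := rfl

/-- The last variable. -/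
noncomputable def Yv (k L : Type*) [Field k] [AddCommGroup L] : AddMonoidAlgebra k (L × ℕ) :=
  AddMonoidAlgebra.single (0, 1) 1

/-- The substitution `Y ↦ Y + ψ`. -/
noncomputable def tau (ψ : AddMonoidAlgebra k (L × ℕ)) :
    AddMonoidAlgebra k (L × ℕ) →ₐ[k] AddMonoidAlgebra k (L × ℕ) :=
  ev k (XA k L) (Yv k L + ψ)

lemma tau_single (ψ : AddMonoidAlgebra k (L × ℕ)) (μ : L × ℕ) (c : k) :
    tau ψ (AddMonoidAlgebra.single μ c) =
      AddMonoidAlgebra.single (μ.1, 0) c * (Yv k L + ψ) ^ μ.2 := by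
  rw [tau, ev_single, XA_apply, ← mul_assoc]
  congr 1
  rw [AddMonoidAlgebra.coe_algebraMap, Function.comp_apply,
    AddMonoidAlgebra.single_mul_single]
  simp

lemma ev_tau {S : Type*} [CommRing S] [Algebra k S] (X : Multiplicative L →* Sˣ) (y : S)
    (ψ g : AddMonoidAlgebra k (L × ℕ)) :
    ev k X y (tau ψ g) = ev k X (y + ev k X y ψ) g := by
  have h : (ev k X y).comp (tau ψ) = ev k X (y + ev k X y ψ) := by
    apply AddMonoidAlgebra.algHom_ext
    · intro μ
      rw [AlgHom.comp_apply, tau_single, map_mul, map_pow, map_add, ev_single, ev_single, Yv,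
        ev_single]
      simp
    · apply AlgHom.ext
      intro c
      change ev k X y (tau ψ (AddMonoidAlgebra.single 0 c)) =
        ev k X _ (AddMonoidAlgebra.single 0 c)
      rw [tau_single, map_mul, map_pow, ev_single, ev_single]
      simp
  rw [← h]
  rfl

variable {ω : L →+ ℝ}

lemma tau_ge {ψ : AddMonoidAlgebra k (L × ℕ)} (hψ : ψ ∈ ge (k := k) (wX ω) 0) {B : ℝ}
    {g : AddMonoidAlgebra k (L × ℕ)} (hg : g ∈ ge (k := k) (wX ω) B) :
    tau ψ g ∈ ge (k := k) (wX ω) B := by
  have hY : Yv k L + ψ ∈ ge (k := k) (wX ω) 0 :=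
    Submodule.add_mem _ (single_mem_ge fun _ => by simp [wX_apply]) hψ
  refine ge_induction (p := fun g => tau ψ g ∈ ge (k := k) (wX ω) B) hg ?_ ?_ ?_
  · rw [map_zero]
    exact Submodule.zero_mem _
  · intro μ c hμ
    rw [tau_single]
    have h1 := ge_mul (single_mem_ge (k := k) (w := wX ω) (μ := (μ.1, 0)) (c := c) (B := B)
      fun _ => hμ) (ge_pow hY μ.2)
    refine ge_mono (le_of_eq ?_) h1
    ring
  · intro a b ha hb
    rw [map_add]
    exact Submodule.add_mem _ ha hb

lemma tau_gt {ψ : AddMonoidAlgebra k (L × ℕ)} (hψ : ψ ∈ ge (k := k) (wX ω) 0) {B : ℝ}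
    {g : AddMonoidAlgebra k (L × ℕ)} (hg : g ∈ gt (k := k) (wX ω) B) :
    tau ψ g ∈ gt (k := k) (wX ω) B := by
  have hY : Yv k L + ψ ∈ ge (k := k) (wX ω) 0 :=
    Submodule.add_mem _ (single_mem_ge fun _ => by simp [wX_apply]) hψ
  refine gt_induction (p := fun g => tau ψ g ∈ gt (k := k) (wX ω) B) hg ?_ ?_ ?_
  · rw [map_zero]
    exact Submodule.zero_mem _
  · intro μ c hμ
    rw [tau_single]
    have h1 := gt_mul (single_mem_gt (k := k) (w := wX ω) (μ := (μ.1, 0)) (c := c) (B := B)
      fun _ => hμ) (ge_pow hY μ.2)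
    refine gt_mono (le_of_eq ?_) h1
    ring
  · intro a b ha hb
    rw [map_add]
    exact Submodule.add_mem _ ha hb

lemma slice_tau {ψ : AddMonoidAlgebra k (L × ℕ)} (hψ : ψ ∈ ge (k := k) (wX ω) 0) {c : k}
    (hc : slice ω 0 ψ = C c) {B : ℝ} {g : AddMonoidAlgebra k (L × ℕ)}
    (hg : g ∈ ge (k := k) (wX ω) B) :
    slice ω B (tau ψ g) = taylor c (slice ω B g) := by
  classical
  have hY : Yv k L + ψ ∈ ge (k := k) (wX ω) 0 :=
    Submodule.add_mem _ (single_mem_ge fun _ => by simp [wX_apply]) hψ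
  have hYs : slice ω 0 (Yv k L + ψ) = X + C c := by
    rw [map_add, hc, Yv, slice_single, if_pos (by simp)]
    rfl
  refine ge_induction (p := fun g => slice ω B (tau ψ g) = taylor c (slice ω B g)) hg ?_ ?_ ?_
  · simp
  · intro μ a hμ
    rw [tau_single]
    have h2 := slice_mul ω (single_mem_ge (k := k) (w := wX ω) (μ := (μ.1, 0)) (c := a) (B := B)
      fun _ => hμ) (ge_pow hY μ.2)
    rw [slice_pow ω hY, hYs] at h2
    have h3 : B + (μ.2 : ℝ) * 0 = B := by ring
    rw [h3] at h2
    rw [h2, slice_single, slice_single]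
    split_ifs with h4
    · rw [taylor_monomial]
      rfl
    · simp
  · intro a b ha hb
    rw [map_add, map_add, ha, hb, map_add, map_add]

end tau

section tm

variable {k L : Type*} [Field k] [AddCommGroup L] (e : (L × ℤ) ≃+ (L × ℤ))

/-- The submonoid of the monomials with nonnegative last coordinate after the change. -/
def Ne' : AddSubmonoid (L × ℕ) where
  carrier := {μ | 0 ≤ (e (μ.1, (μ.2 : ℤ))).2}
  zero_mem' := by
    have h1 : ((0 : L × ℕ).1, (((0 : L × ℕ).2 : ℕ) : ℤ)) = (0 : L × ℤ) := by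
      ext <;> simp
    change 0 ≤ (e ((0 : L × ℕ).1, (((0 : L × ℕ).2 : ℕ) : ℤ))).2
    rw [h1, map_zero]
    simp
  add_mem' := by
    intro a b ha hb
    change 0 ≤ (e ((a + b).1, (((a + b).2 : ℕ) : ℤ))).2
    have h1 : ((a + b).1, (((a + b).2 : ℕ) : ℤ)) = (a.1, (a.2 : ℤ)) + (b.1, (b.2 : ℤ)) := by
      ext <;> simp
    rw [h1, map_add, Prod.snd_add]
    exact add_nonneg ha hb

lemma mem_Ne' {μ : L × ℕ} : μ ∈ Ne' e ↔ 0 ≤ (e (μ.1, (μ.2 : ℤ))).2 := Iff.rfl

/-- The change of monomials. -/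
def tm (μ : L × ℕ) : L × ℕ := ((e (μ.1, (μ.2 : ℤ))).1, (e (μ.1, (μ.2 : ℤ))).2.toNat)

lemma tm_spec {μ : L × ℕ} (h : μ ∈ Ne' e) :
    e (μ.1, (μ.2 : ℤ)) = ((tm e μ).1, ((tm e μ).2 : ℤ)) := by
  apply Prod.ext
  · rfl
  · exact (Int.toNat_of_nonneg h).symm

lemma tm_injOn : Set.InjOn (tm e) (Ne' e : Set (L × ℕ)) := by
  intro a ha b hb h
  have h1 := tm_spec e ha
  have h2 := tm_spec e hb
  rw [h, ← h2] at h1
  have h3 : ((a.1, (a.2 : ℤ)) : L × ℤ) = (b.1, (b.2 : ℤ)) := e.injective h1
  have h4 : a.1 = b.1 := congrArg (fun l : L × ℤ => l.1) h3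
  have h5 : (a.2 : ℤ) = b.2 := congrArg (fun l : L × ℤ => l.2) h3
  apply Prod.ext
  · exact h4
  · exact_mod_cast h5

lemma tm_zero : tm e 0 = 0 := by
  have h1 : ((0 : L × ℕ).1, (((0 : L × ℕ).2 : ℕ) : ℤ)) = (0 : L × ℤ) := by
    ext <;> simp
  unfold tm
  rw [h1, map_zero]
  rfl

lemma tm_add {a b : L × ℕ} (ha : a ∈ Ne' e) (hb : b ∈ Ne' e) :
    tm e (a + b) = tm e a + tm e b := by
  have h1 := tm_spec e ((Ne' e).add_mem ha hb)
  have h2 : ((a + b).1, (((a + b).2 : ℕ) : ℤ)) = (a.1, (a.2 : ℤ)) + (b.1, (b.2 : ℤ)) := by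
    ext <;> simp
  rw [h2, map_add, tm_spec e ha, tm_spec e hb] at h1
  apply Prod.ext
  · exact (congrArg Prod.fst h1).symm
  · have h3 := congrArg Prod.snd h1
    simp only [Prod.snd_add] at h3 ⊢
    exact_mod_cast h3.symm

/-- The change of monomials, on polynomials. -/
noncomputable def Tm : AddMonoidAlgebra k (L × ℕ) →+ AddMonoidAlgebra k (L × ℕ) where
  toFun := AddMonoidAlgebra.mapDomain (tm e)
  map_zero' := AddMonoidAlgebra.mapDomain_zero _
  map_add' := AddMonoidAlgebra.mapDomain_add _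

lemma Tm_single (μ : L × ℕ) (c : k) :
    Tm e (AddMonoidAlgebra.single μ c) = AddMonoidAlgebra.single (tm e μ) c :=
  AddMonoidAlgebra.mapDomain_single

lemma Tm_one : Tm e (1 : AddMonoidAlgebra k (L × ℕ)) = 1 := by
  rw [AddMonoidAlgebra.one_def, Tm_single, tm_zero]

lemma Tm_coeff {g : AddMonoidAlgebra k (L × ℕ)} (hg : g ∈ inP k (Ne' e)) {μ : L × ℕ}
    (hμ : μ ∈ Ne' e) : (Tm e g).coeff (tm e μ) = g.coeff μ := by
  change (Finsupp.mapDomain (tm e) g.coeff) (tm e μ) = _
  refine Finsupp.mapDomain_apply' (S := (Ne' e : Set (L × ℕ))) _ ?_ (tm_injOn e) hμ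
  intro ν hν
  exact hg ν (Finsupp.mem_support_iff.1 hν)

lemma Tm_coeff_ne {g : AddMonoidAlgebra k (L × ℕ)} {ν : L × ℕ} (h : (Tm e g).coeff ν ≠ 0) :
    ∃ μ, g.coeff μ ≠ 0 ∧ tm e μ = ν := by
  classical
  have h1 : ν ∈ (Finsupp.mapDomain (tm e) g.coeff).support := Finsupp.mem_support_iff.2 h
  have h2 := Finsupp.mapDomain_support h1
  rw [Finset.mem_image] at h2
  obtain ⟨μ, hμ, rfl⟩ := h2
  exact ⟨μ, Finsupp.mem_support_iff.1 hμ, rfl⟩

lemma inP_induction {M : Type*} [AddCommMonoid M] {P : AddSubmonoid M}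
    {p : AddMonoidAlgebra k M → Prop} {g : AddMonoidAlgebra k M}
    (hg : g ∈ inP k P) (h0 : p 0)
    (hs : ∀ μ c, μ ∈ P → p (AddMonoidAlgebra.single μ c)) (ha : ∀ a b, p a → p b → p (a + b)) :
    p g := by
  rw [sum_single g]
  refine Finset.sum_induction _ p (fun a b => ha a b) h0 fun μ hμ => ?_
  exact hs _ _ (hg μ (Finsupp.mem_support_iff.1 hμ))

lemma Tm_mul {g h : AddMonoidAlgebra k (L × ℕ)} (hg : g ∈ inP k (Ne' e))
    (hh : h ∈ inP k (Ne' e)) : Tm e (g * h) = Tm e g * Tm e h := by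
  refine inP_induction (p := fun g => Tm e (g * h) = Tm e g * Tm e h) hg (by simp) ?_ ?_
  · intro μ c hμ
    refine inP_induction (p := fun h => Tm e (AddMonoidAlgebra.single μ c * h) =
      Tm e (AddMonoidAlgebra.single μ c) * Tm e h) hh (by simp) ?_ ?_
    · intro ν d hν
      rw [AddMonoidAlgebra.single_mul_single, Tm_single, Tm_single, Tm_single,
        AddMonoidAlgebra.single_mul_single, tm_add e hμ hν]
    · intro a b ha hb
      rw [mul_add, map_add, map_add, ha, hb, mul_add]
  · intro a b ha hb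
    rw [add_mul, map_add, map_add, ha, hb, add_mul]

lemma Tm_pow {g : AddMonoidAlgebra k (L × ℕ)} (hg : g ∈ inP k (Ne' e)) (n : ℕ) :
    Tm e (g ^ n) = Tm e g ^ n := by
  induction n with
  | zero => simpa using Tm_one e
  | succ n ih => rw [pow_succ, pow_succ, Tm_mul e (pow_mem hg n) hg, ih]

variable {S : Type*} [CommRing S] [Algebra k S]

/-- The Laurent monomials at a point. -/
def Mon (X : Multiplicative L →* Sˣ) (y : Sˣ) : Multiplicative (L × ℤ) →* Sˣ where
  toFun l := X (.ofAdd l.toAdd.1) * y ^ l.toAdd.2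
  map_one' := by simp
  map_mul' := by
    intro a b
    simp only [toAdd_mul, Prod.fst_add, Prod.snd_add, ofAdd_add, map_mul, zpow_add]
    exact mul_mul_mul_comm _ _ _ _

lemma Mon_apply (X : Multiplicative L →* Sˣ) (y : Sˣ) (l : L × ℤ) :
    Mon X y (.ofAdd l) = X (.ofAdd l.1) * y ^ l.2 := rfl

/-- The new coordinates. -/
def nX (X : Multiplicative L →* Sˣ) (y : Sˣ) : Multiplicative L →* Sˣ where
  toFun β := Mon X y (.ofAdd (e.symm (β.toAdd, 0)))
  map_one' := by
    have h1 : (((1 : Multiplicative L).toAdd, 0) : L × ℤ) = 0 := rfl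
    rw [h1, map_zero]
    exact map_one _
  map_mul' := by
    intro a b
    have h1 : (((a * b).toAdd, 0) : L × ℤ) = (a.toAdd, 0) + (b.toAdd, 0) := by
      ext <;> simp
    rw [h1, map_add, ofAdd_add, map_mul]

/-- The new unit. -/
def nu (X : Multiplicative L →* Sˣ) (y : Sˣ) : Sˣ := Mon X y (.ofAdd (e.symm (0, 1)))

lemma Mon_eq (X : Multiplicative L →* Sˣ) (y : Sˣ) (l : L × ℤ) :
    Mon X y (.ofAdd l) = nX e X y (.ofAdd (e l).1) * nu e X y ^ (e l).2 := by
  change _ = Mon X y (.ofAdd (e.symm ((e l).1, 0))) * Mon X y (.ofAdd (e.symm (0, 1))) ^ (e l).2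
  rw [← map_zpow, ← map_mul, ← ofAdd_zsmul, ← ofAdd_add, ← map_zsmul, ← map_add]
  congr 2
  apply e.injective
  rw [AddEquiv.apply_symm_apply]
  ext <;> simp

lemma ev_Tm (X : Multiplicative L →* Sˣ) (y : Sˣ) {g : AddMonoidAlgebra k (L × ℕ)}
    (hg : g ∈ inP k (Ne' e)) :
    ev k (nX e X y) (nu e X y : S) (Tm e g) = ev k X (y : S) g := by
  refine inP_induction (p := fun g => ev k (nX e X y) (nu e X y : S) (Tm e g) =
    ev k X (y : S) g) hg (by simp) ?_ ?_
  · intro μ c hμ
    rw [Tm_single, ev_single, ev_single]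
    congr 1
    have h1 := Mon_eq e X y (μ.1, (μ.2 : ℤ))
    rw [tm_spec e hμ, Mon_apply] at h1
    have h2 := congrArg Units.val h1
    simp only [Units.val_mul, zpow_natCast, Units.val_pow_eq_pow_val] at h2
    exact h2.symm
  · intro a b ha hb
    rw [map_add, map_add, ha, hb, map_add]

end tm

end Pool.Agent.H893
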