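import Pool.Graph.R_seed8.H176.DT.H8
import Pool.Agent.H893.ES

/-!
# Regular local rings of algebraically independent elements
-/

set_option autoImplicit false
set_option linter.unusedVariables false
set_option linter.unusedSectionVars false

universe u

namespace Pool.Agent.H893

open Pool.Agent.W418.LU2 Polynomial
open scoped NNReal

section sa

variable {k F : Type u} [Field k] [Field F] [Algebra k F]

lemma regP_k (V : ValuationSubring F) (hkV : ∀ c : k, algebraMap k F c ∈ V) (U : Set F)
    (hU : U ⊆ Set.range (algebraMap k F)) (w : Fin 0 → F) :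
    RegP V.toSubring (lo V.toSubring (Subring.closure (Set.range (algebraMap k F) ∪ U))) w := by
  have hS : Subring.closure (Set.range (algebraMap k F) ∪ U) ≤ (algebraMap k F).range := by
    rw [Subring.closure_le]
    rintro z (⟨c, rfl⟩ | hz)
    · exact ⟨c, rfl⟩
    · obtain ⟨c, rfl⟩ := hU hz
      exact ⟨c, rfl⟩
  have hSV : Subring.closure (Set.range (algebraMap k F) ∪ U) ≤ V.toSubring := by
    intro z hz
    obtain ⟨c, rfl⟩ := hS hz
    exact hkV c
  set P := lo V.toSubring (Subring.closure (Set.range (algebraMap k F) ∪ U)) with hP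
  have hPk : ∀ z ∈ P, ∃ c : k, algebraMap k F c = z := by
    rintro z ⟨a, ha, b, hb, -, -, rfl⟩
    obtain ⟨a, rfl⟩ := hS ha
    obtain ⟨b, rfl⟩ := hS hb
    exact ⟨a * b⁻¹, by rw [map_mul, map_inv₀]⟩
  have hkP : ∀ c : k, algebraMap k F c ∈ P := fun c =>
    le_lo _ _ (Subring.subset_closure (Or.inl ⟨c, rfl⟩))
  have hfield : IsField P := by
    refine ⟨⟨0, 1, zero_ne_one⟩, fun a b => mul_comm a b, ?_⟩
    rintro ⟨z, hz⟩ h0
    obtain ⟨c, rfl⟩ := hPk z hz
    refine ⟨⟨algebraMap k F c⁻¹, hkP _⟩, Subtype.ext ?_⟩
    change algebraMap k F c * algebraMap k F c⁻¹ = 1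
    rw [map_inv₀]
    exact mul_inv_cancel₀ fun h => h0 (Subtype.ext h)
  have hloc : IsLocalRing P := isLocalRing_lo (loc_V V) hSV
  have hPID : IsPrincipalIdealRing P := hfield.isPrincipalIdealRing
  have hreg : IsRegularLocalRing P := inferInstance
  exact
    { PA := lo_le hSV
      ne := fun i => i.elim0
      mem := fun i => i.elim0
      reg := hreg
      inv := fun z hz h0 h1 => inv_mem_lo hSV hz h0 h1
      ind := fun c _ _ i => i.elim0 }

theorem regP_alg (V : ValuationSubring F) (hkV : ∀ c : k, algebraMap k F c ∈ V) :
    ∀ (n : ℕ) (w : Fin n → F), (∀ i, w i ∈ V) → AlgebraicIndependent k w →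
    RegP V.toSubring
      (lo V.toSubring (Subring.closure (Set.range (algebraMap k F) ∪ Set.range w))) w := by
  intro n
  induction n with
  | zero =>
    intro w _ _
    exact regP_k V hkV _ (by
      rintro z ⟨i, rfl⟩
      exact i.elim0) w
  | succ n ih =>
    intro w hw hal
    have h1 : AlgebraicIndependent k (fun i : Fin n => w i.castSucc) :=
      hal.comp _ (Fin.castSucc_injective n)
    have h2 := ih (fun i : Fin n => w i.castSucc) (fun i => hw _) h1
    set U := Set.range (algebraMap k F) ∪ Set.range (fun i : Fin n => w i.castSucc) with hU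
    have hS : Subring.closure U ≤ V.toSubring := by
      rw [Subring.closure_le]
      rintro z (⟨c, rfl⟩ | ⟨i, rfl⟩)
      · exact hkV c
      · exact hw _
    have hE : Set.range (fun i : Fin n => w i.castSucc) = w '' {i | i ≠ Fin.last n} := by
      ext z
      constructor
      · rintro ⟨i, rfl⟩
        exact ⟨i.castSucc, (Fin.castSucc_lt_last i).ne, rfl⟩
      · rintro ⟨i, hi, rfl⟩
        exact ⟨i.castPred hi, by simp⟩
    have h3 : Transcendental (IntermediateField.adjoin k (w '' {i | i ≠ Fin.last n}))
        (w (Fin.last n)) := by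
      rw [IntermediateField.transcendental_adjoin_iff]
      exact hal.transcendental_adjoin (s := {i | i ≠ Fin.last n}) (fun h => h rfl)
    set M := IntermediateField.adjoin k (w '' {i | i ≠ Fin.last n}) with hM
    have hloM : lo V.toSubring (Subring.closure U) ≤ M.toSubfield.toSubring := by
      have h4 : Subring.closure U ≤ M.toSubfield.toSubring := by
        rw [Subring.closure_le]
        rintro z (⟨c, rfl⟩ | hz)
        · exact M.algebraMap_mem c
        · rw [hE] at hz
          exact IntermediateField.subset_adjoin _ _ hz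
      rintro z ⟨a, ha, b, hb, -, -, rfl⟩
      exact mul_mem (h4 ha) (M.toSubfield.inv_mem (h4 hb))
    have h5 := h2.trans (loc_V V) hS (hw (Fin.last n)) (hal.ne_zero _) (by
      intro g hg
      let φ : lo V.toSubring (Subring.closure U) →+* M := Subring.inclusion hloM
      have h6 : aeval (w (Fin.last n)) (g.map φ) = 0 := by
        rw [aeval_def, eval₂_map]
        exact hg
      have h7 : g.map φ = 0 := by
        by_contra h8
        exact h3 ⟨_, h8, h6⟩
      exact (Polynomial.map_eq_zero_iff (Subring.inclusion_injective hloM)).1 h7)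
    rw [closure_insert_closure] at h5
    have h6 : insert (w (Fin.last n)) U = Set.range (algebraMap k F) ∪ Set.range w := by
      ext z
      constructor
      · rintro (rfl | hz | ⟨i, rfl⟩)
        · exact Or.inr ⟨_, rfl⟩
        · exact Or.inl hz
        · exact Or.inr ⟨_, rfl⟩
      · rintro (hz | ⟨i, rfl⟩)
        · exact Or.inr (Or.inl hz)
        · refine Fin.lastCases ?_ (fun j => ?_) i
          · exact Or.inl rfl
          · exact Or.inr (Or.inr ⟨j, rfl⟩)
    rw [h6] at h5
    let e : Fin (n + 1) → Fin n ⊕ Unit := fun i =>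
      if h : i = Fin.last n then Sum.inr () else Sum.inl (i.castPred h)
    have he : Function.Injective e := by
      intro i j hij
      simp only [e] at hij
      split_ifs at hij with h7 h8 h8
      · rw [h7, h8]
      · exact Fin.castPred_inj.1 (Sum.inl_injective hij)
    have h7 := Pool.Agent.H176.DT.RegP_comp h5 e he
    have h8 : (fun i => Sum.elim (fun i : Fin n => w i.castSucc)
        (fun _ : Unit => w (Fin.last n)) (e i)) = w := by
      funext i
      simp only [e]
      split_ifs with h9
      · rw [h9]
        rfl
      · simp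
    rw [h8] at h7
    exact h7

end sa

end Pool.Agent.H893
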