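import Pool.Agent.H893.Wt

/-!
# Slices
-/

set_option autoImplicit false
set_option linter.unusedVariables false
set_option linter.unusedSectionVars false

namespace Pool.Agent.H893

open Polynomial

section slice

variable {k L : Type*} [Field k] [AddCommGroup L] (ω : L →+ ℝ)

/-- The weight of a monomial for the first coordinates. -/
def wX : L × ℕ →+ ℝ := ω.comp (AddMonoidHom.fst L ℕ)

lemma wX_apply (μ : L × ℕ) : wX ω μ = ω μ.1 := rfl

/-- The weight of a monomial, with the weight `η` for the last coordinate. -/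
def wW (η : ℝ) : L × ℕ →+ ℝ where
  toFun μ := ω μ.1 + μ.2 * η
  map_zero' := by simp
  map_add' := by
    intro a b
    simp only [Prod.fst_add, Prod.snd_add, map_add]
    push_cast
    ring

lemma wW_apply (η : ℝ) (μ : L × ℕ) : wW ω η μ = ω μ.1 + μ.2 * η := rfl

/-- The slice of level `B`, as a polynomial in the last coordinate. -/
noncomputable def slice (B : ℝ) : AddMonoidAlgebra k (L × ℕ) →ₗ[k] k[X] where
  toFun g := by
    classical
    exact g.coeff.sum fun μ c => if ω μ.1 = B then monomial μ.2 c else 0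
  map_add' := by
    classical
    intro g h
    rw [AddMonoidAlgebra.coeff_add]
    apply Finsupp.sum_add_index
    · intro μ _
      split_ifs <;> simp
    · intro μ _ b c
      split_ifs <;> simp
  map_smul' := by
    classical
    intro c g
    rw [AddMonoidAlgebra.coeff_smul, Finsupp.sum_smul_index', Finsupp.smul_sum]
    · apply Finsupp.sum_congr
      intro μ _
      split_ifs <;> simp [smul_monomial]
    · intro μ
      split_ifs <;> simp

open Classical in
lemma slice_def (B : ℝ) (g : AddMonoidAlgebra k (L × ℕ)) :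
    slice ω B g = g.coeff.sum fun μ c => if ω μ.1 = B then monomial μ.2 c else 0 := rfl

open Classical in
lemma slice_single (B : ℝ) (μ : L × ℕ) (c : k) :
    slice ω B (AddMonoidAlgebra.single μ c) = if ω μ.1 = B then monomial μ.2 c else 0 := by
  rw [slice_def, AddMonoidAlgebra.coeff_single, Finsupp.sum_single_index]
  split_ifs <;> simp

lemma slice_coeff (hω : Function.Injective ω) (g : AddMonoidAlgebra k (L × ℕ)) (β : L) (i : ℕ) :
    (slice ω (ω β) g).coeff i = g.coeff (β, i) := by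
  classical
  rw [slice_def, Finsupp.sum, finsetSum_coeff]
  have h1 : ∀ μ ∈ g.coeff.support, μ ≠ (β, i) →
      (if ω μ.1 = ω β then (monomial μ.2) (g.coeff μ) else 0 : k[X]).coeff i = 0 := by
    intro μ _ hμ
    split_ifs with h
    · rw [coeff_monomial, if_neg]
      intro h2
      exact hμ (Prod.ext (hω h) h2)
    · simp
  by_cases h2 : (β, i) ∈ g.coeff.support
  · rw [Finset.sum_eq_single_of_mem _ h2 h1]
    simp
  · rw [Finset.sum_eq_zero fun μ hμ => h1 μ hμ fun h3 => h2 (h3 ▸ hμ)]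
    exact (Finsupp.notMem_support_iff.1 h2).symm

lemma slice_eq_zero_of_forall {B : ℝ} (h : ∀ β, ω β ≠ B) (g : AddMonoidAlgebra k (L × ℕ)) :
    slice ω B g = 0 := by
  classical
  rw [slice_def, Finsupp.sum, Finset.sum_eq_zero]
  intro μ _
  rw [if_neg (h _)]

/-- A nonzero coefficient of a slice. -/
lemma slice_ne {B : ℝ} (hω : Function.Injective ω) {g : AddMonoidAlgebra k (L × ℕ)} {i : ℕ}
    (h : (slice ω B g).coeff i ≠ 0) : ∃ β, ω β = B ∧ g.coeff (β, i) ≠ 0 := by
  by_cases hB : ∃ β, ω β = B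
  · obtain ⟨β, rfl⟩ := hB
    rw [slice_coeff ω hω] at h
    exact ⟨β, rfl, h⟩
  · push Not at hB
    rw [slice_eq_zero_of_forall ω hB] at h
    simp at h

lemma slice_gt {B : ℝ} {g : AddMonoidAlgebra k (L × ℕ)} (h : g ∈ gt (k := k) (wX ω) B) :
    slice ω B g = 0 := by
  classical
  rw [slice_def, Finsupp.sum, Finset.sum_eq_zero]
  intro μ hμ
  rw [if_neg]
  exact (h μ (Finsupp.mem_support_iff.1 hμ)).ne'

lemma gt_of_slice {B : ℝ} (hω : Function.Injective ω) {g : AddMonoidAlgebra k (L × ℕ)}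
    (h : g ∈ ge (k := k) (wX ω) B) (h0 : slice ω B g = 0) : g ∈ gt (k := k) (wX ω) B := by
  intro μ hμ
  refine lt_of_le_of_ne (h μ hμ) ?_
  intro h1
  apply hμ
  rw [wX_apply] at h1
  rw [h1] at h0
  have h2 := slice_coeff ω hω g μ.1 μ.2
  rw [h0] at h2
  simpa using h2.symm

/-- Slices are multiplicative. -/
lemma slice_mul {A B : ℝ} {g h : AddMonoidAlgebra k (L × ℕ)} (hg : g ∈ ge (k := k) (wX ω) A)
    (hh : h ∈ ge (k := k) (wX ω) B) : slice ω (A + B) (g * h) = slice ω A g * slice ω B h := by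
  classical
  refine ge_induction (p := fun g => slice ω (A + B) (g * h) = slice ω A g * slice ω B h) hg
    (by simp) ?_ ?_
  · intro μ c hμ
    refine ge_induction (p := fun h => slice ω (A + B) (AddMonoidAlgebra.single μ c * h) =
      slice ω A (AddMonoidAlgebra.single μ c) * slice ω B h) hh (by simp) ?_ ?_
    · intro ν e hν
      rw [AddMonoidAlgebra.single_mul_single, slice_single, slice_single, slice_single]
      rw [wX_apply] at hμ hν
      simp only [Prod.fst_add, Prod.snd_add, map_add]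
      by_cases h1 : ω μ.1 = A
      · by_cases h2 : ω ν.1 = B
        · rw [if_pos (by rw [h1, h2]), if_pos h1, if_pos h2, monomial_mul_monomial]
        · rw [if_neg, if_neg h2, mul_zero]
          intro h3
          apply h2
          linarith
      · rw [if_neg, if_neg h1, zero_mul]
        intro h3
        apply h1
        linarith
    · intro a b ha hb
      rw [mul_add, map_add, map_add, ha, hb, mul_add]
  · intro a b ha hb
    rw [add_mul, map_add, map_add, ha, hb, add_mul]

lemma slice_one : slice ω 0 (1 : AddMonoidAlgebra k (L × ℕ)) = 1 := by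
  classical
  have h : ω (0 : L × ℕ).1 = 0 := by simp
  rw [AddMonoidAlgebra.one_def, slice_single, if_pos h]
  rfl

lemma slice_pow {A : ℝ} {g : AddMonoidAlgebra k (L × ℕ)} (hg : g ∈ ge (k := k) (wX ω) A) (n : ℕ) :
    slice ω (n * A) (g ^ n) = slice ω A g ^ n := by
  induction n with
  | zero => simpa using slice_one ω
  | succ n ih =>
    have h1 : ((n + 1 : ℕ) : ℝ) * A = n * A + A := by
      push_cast
      ring
    rw [pow_succ, pow_succ, ← ih, ← slice_mul ω (ge_pow hg n) hg, h1]

/-- The natural number multiples. -/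
lemma natCast_mul_mem_ge {M : Type*} [AddCommMonoid M] {w : M → ℝ} {B : ℝ} (n : ℕ)
    {g : AddMonoidAlgebra k M} (hg : g ∈ ge (k := k) w B) :
    (n : AddMonoidAlgebra k M) * g ∈ ge (k := k) w B := by
  rw [← nsmul_eq_mul]
  exact nsmul_mem hg n

lemma natCast_mul_mem_gt {M : Type*} [AddCommMonoid M] {w : M → ℝ} {B : ℝ} (n : ℕ)
    {g : AddMonoidAlgebra k M} (hg : g ∈ gt (k := k) w B) :
    (n : AddMonoidAlgebra k M) * g ∈ gt (k := k) w B := by
  rw [← nsmul_eq_mul]
  exact nsmul_mem hg n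

lemma slice_natCast_mul (B : ℝ) (n : ℕ) (g : AddMonoidAlgebra k (L × ℕ)) :
    slice ω B ((n : AddMonoidAlgebra k (L × ℕ)) * g) = n * slice ω B g := by
  rw [← nsmul_eq_mul, ← nsmul_eq_mul, map_nsmul]

end slice

section level

variable {k L : Type*} [Field k] [AddCommGroup L] (ω : L →+ ℝ)

/-- The leading form of level `A`. -/
noncomputable def LF (A : ℝ) (d : ℕ) (f : (AddMonoidAlgebra k (L × ℕ))[X]) : k[X][X] :=
  ∑ j ∈ Finset.range (f.natDegree + 1), monomial j (slice ω (((d : ℝ) - j) * A) (f.coeff j))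

lemma LF_coeff (A : ℝ) (d : ℕ) (f : (AddMonoidAlgebra k (L × ℕ))[X]) (j : ℕ) :
    (LF ω A d f).coeff j = slice ω (((d : ℝ) - j) * A) (f.coeff j) := by
  rw [LF, finsetSum_coeff]
  simp only [coeff_monomial]
  by_cases hj : j ∈ Finset.range (f.natDegree + 1)
  · rw [Finset.sum_eq_single_of_mem j hj fun i _ hi => if_neg hi, if_pos rfl]
  · rw [Finset.sum_eq_zero, coeff_eq_zero_of_natDegree_lt, map_zero]
    · rw [Finset.mem_range] at hj
      omega
    · intro i hi
      rw [if_neg]
      rintro rfl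
      exact hj hi

/-- The polynomial `f` has level at least `A` with respect to the weight `w`. -/
def Lv {M : Type*} [AddCommMonoid M] (w : M → ℝ) (A : ℝ) (d : ℕ)
    (f : (AddMonoidAlgebra k M)[X]) : Prop :=
  ∀ j : ℕ, f.coeff j ∈ ge (k := k) w (((d : ℝ) - (j : ℝ)) * A)

lemma LF_natDegree_le (A : ℝ) (d : ℕ) (f : (AddMonoidAlgebra k (L × ℕ))[X]) :
    (LF ω A d f).natDegree ≤ f.natDegree := by
  rw [natDegree_le_iff_coeff_eq_zero]
  intro N hN
  rw [LF_coeff, coeff_eq_zero_of_natDegree_lt hN, map_zero]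

lemma Lv.taylor {M : Type*} [AddCommMonoid M] {w : M →+ ℝ} {A : ℝ} {d : ℕ}
    {f : (AddMonoidAlgebra k M)[X]} (hf : Lv w A d f) {Φ : AddMonoidAlgebra k M}
    (hΦ : Φ ∈ ge (k := k) w A) : Lv w A d (taylor Φ f) := by
  intro j
  rw [coeff_taylor f Φ j _ (Nat.lt_succ_self _)]
  refine Submodule.sum_mem _ fun i _ => ?_
  by_cases hij : i < j
  · rw [Nat.choose_eq_zero_of_lt hij]
    simp
  · push Not at hij
    apply natCast_mul_mem_ge
    refine ge_mono (le_of_eq ?_) (ge_mul (hf i) (ge_pow hΦ (i - j)))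
    rw [Nat.cast_sub hij]
    ring

lemma LF_taylor {A : ℝ} {d : ℕ} {f : (AddMonoidAlgebra k (L × ℕ))[X]} (hf : Lv (wX ω) A d f)
    {Φ : AddMonoidAlgebra k (L × ℕ)} (hΦ : Φ ∈ ge (k := k) (wX ω) A) :
    LF ω A d (taylor Φ f) = taylor (slice ω A Φ) (LF ω A d f) := by
  ext1 j
  rw [LF_coeff, coeff_taylor f Φ j (f.natDegree + 1) (Nat.lt_succ_self _),
    coeff_taylor (LF ω A d f) _ j (f.natDegree + 1)
      (Nat.lt_succ_of_le (LF_natDegree_le ω A d f)), map_sum]
  refine Finset.sum_congr rfl fun i _ => ?_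
  rw [slice_natCast_mul, LF_coeff]
  by_cases hij : i < j
  · rw [Nat.choose_eq_zero_of_lt hij]
    simp
  · push Not at hij
    have h1 : ((d : ℝ) - j) * A = ((d : ℝ) - i) * A + ((i - j : ℕ) : ℝ) * A := by
      rw [Nat.cast_sub hij]
      ring
    rw [← slice_pow ω hΦ, h1, ← slice_mul ω (hf i) (ge_pow hΦ (i - j))]

/-- The weak level condition, for the coefficients of small degree. -/
def Lw {M : Type*} [AddCommMonoid M] (w : M → ℝ) (A : ℝ) (d : ℕ)
    (f : (AddMonoidAlgebra k M)[X]) : Prop :=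
  ∀ j : ℕ, j < d → f.coeff j ∈ ge (k := k) w (((d : ℝ) - (j : ℝ)) * A)

lemma Lw.lv {M : Type*} [AddCommMonoid M] {w : M → ℝ} {A : ℝ} {d : ℕ}
    {f : (AddMonoidAlgebra k M)[X]} (hf : Lw w A d f) (hA : 0 ≤ A)
    (h0 : ∀ j : ℕ, f.coeff j ∈ ge (k := k) w 0) : Lv w A d f := by
  intro j
  by_cases hj : j < d
  · exact hf j hj
  · refine ge_mono ?_ (h0 j)
    push Not at hj
    have h1 : (d : ℝ) ≤ j := by exact_mod_cast hj
    exact mul_nonpos_of_nonpos_of_nonneg (by linarith) hA

end level

end Pool.Agent.H893
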