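import Pool.Agent.H893.KB

/-!
# Value groups of finite extensions
-/

set_option autoImplicit false
set_option linter.unusedVariables false
set_option linter.unusedSectionVars false

namespace Pool.Agent.H893

open Polynomial
open scoped NNReal

/-- The value group of a real valuation. -/
noncomputable def valGroup {K : Type*} [Field K] (v : Valuation K ℝ≥0) : Subgroup ℝ≥0ˣ :=
  (Units.map (v.toMonoidWithZeroHom : K →* ℝ≥0)).range

section vg

variable {K L : Type*} [Field K] [AddCommGroup L] [Module.Free ℤ L] [Module.Finite ℤ L]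
  {v : Valuation K ℝ≥0}

/-- The exponential on a lattice. -/
noncomputable def exHom (ω : L →+ ℝ) : Multiplicative L →* ℝ≥0ˣ where
  toFun a := Units.mk0 (ex (ω a.toAdd)) (ex_ne _)
  map_one' := by
    apply Units.ext
    change ex (ω 0) = 1
    rw [map_zero, ex_zero]
  map_mul' := by
    intro a b
    apply Units.ext
    change ex (ω (a.toAdd + b.toAdd)) = ex (ω a.toAdd) * ex (ω b.toAdd)
    rw [map_add, ex_add]

lemma exHom_fg (ω : L →+ ℝ) : (exHom ω).range.FG := by
  have h1 : AddGroup.FG L := Module.Finite.iff_addGroup_fg.1 inferInstance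
  rw [← Group.fg_iff_subgroup_fg]
  infer_instance

theorem vg_fg {E : Type*} [Field E] [Algebra E K] [Module.Finite E K] {ω : L →+ ℝ}
    (hE : ∀ x : E, x ≠ 0 → ∃ a, v (algebraMap E K x) = ex (ω a))
    (hω : ∀ a, ∃ x : K, v x = ex (ω a)) : (valGroup v).FG := by
  classical
  set Γ0 := (exHom ω).range with hΓ0
  have hvu : ∀ x : Kˣ, ((Units.map (v.toMonoidWithZeroHom : K →* ℝ≥0) x : ℝ≥0ˣ) : ℝ≥0) =
      v (x : K) := fun x => rfl
  let q : Kˣ →* ℝ≥0ˣ ⧸ Γ0 := (QuotientGroup.mk' Γ0).comp
    (Units.map (v.toMonoidWithZeroHom : K →* ℝ≥0))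
  let r : q.range → Kˣ := fun t => t.2.choose
  have hr : ∀ t : q.range, q (r t) = t := fun t => t.2.choose_spec
  have hli : LinearIndependent E fun t : q.range => ((r t : Kˣ) : K) := by
    rw [linearIndependent_iff']
    intro s g hsum
    by_contra hcon
    push Not at hcon
    obtain ⟨i1, hi1, hgi1⟩ := hcon
    set s' := s.filter fun i => g i ≠ 0 with hs'
    have hne : s'.Nonempty := ⟨i1, Finset.mem_filter.2 ⟨hi1, hgi1⟩⟩
    obtain ⟨i0, hi0, hmax⟩ := Finset.exists_max_image s'
      (fun i => v (algebraMap E K (g i) * (r i : K))) hne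
    have hg0 := (Finset.mem_filter.1 hi0).2
    have hv0 : v (algebraMap E K (g i0) * (r i0 : K)) ≠ 0 := by
      rw [Valuation.ne_zero_iff]
      exact mul_ne_zero (by rwa [Ne, map_eq_zero]) (r i0).ne_zero
    have hsum' : ∑ i ∈ s', algebraMap E K (g i) * (r i : K) = 0 := by
      rw [← hsum]
      simp only [Algebra.smul_def]
      refine Finset.sum_subset (Finset.filter_subset _ _) fun i hi hi2 => ?_
      rw [hs', Finset.mem_filter, not_and, not_not] at hi2
      rw [hi2 hi, map_zero, zero_mul]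
    have h1 := v_sum_dom (v := v) (t := fun i : q.range => algebraMap E K (g i) * (r i : K))
      hi0 (fun i hi hii => ?_) hv0
    · rw [hsum', map_zero] at h1
      exact hv0 h1.symm
    · refine lt_of_le_of_ne (hmax i hi) fun h2 => hii ?_
      obtain ⟨a, ha⟩ := hE (g i) (Finset.mem_filter.1 hi).2
      obtain ⟨b, hb⟩ := hE (g i0) hg0
      rw [map_mul, map_mul, ha, hb] at h2
      apply Subtype.ext
      rw [← hr i, ← hr i0]
      change QuotientGroup.mk' Γ0 _ = QuotientGroup.mk' Γ0 _
      rw [QuotientGroup.mk'_eq_mk']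
      refine ⟨exHom ω (.ofAdd (a - b)), ⟨_, rfl⟩, ?_⟩
      apply Units.ext
      rw [Units.val_mul, hvu, hvu]
      change v (r i : K) * ex (ω (a - b)) = v (r i0 : K)
      have h3 : ex (ω (a - b)) * ex (ω b) = ex (ω a) := by
        rw [← ex_add, ← map_add, sub_add_cancel]
      have h4 : v (r i : K) * ex (ω (a - b)) * ex (ω b) = v (r i0 : K) * ex (ω b) := by
        rw [mul_assoc, h3, mul_comm, h2, mul_comm]
      exact mul_right_cancel₀ (ex_ne _) h4
  have hfin : Finite q.range := hli.finite_of_isNoetherian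
  have hsup : valGroup v = Γ0 ⊔ Subgroup.closure
      (Set.range fun t : q.range => Units.map (v.toMonoidWithZeroHom : K →* ℝ≥0) (r t)) := by
    apply le_antisymm
    · rintro _ ⟨x, rfl⟩
      have h1 := hr ⟨q x, x, rfl⟩
      change QuotientGroup.mk' Γ0 _ = QuotientGroup.mk' Γ0 _ at h1
      rw [QuotientGroup.mk'_eq_mk'] at h1
      obtain ⟨z, hz, h2⟩ := h1
      rw [← h2]
      rw [mul_comm]
      exact Subgroup.mul_mem_sup hz (Subgroup.subset_closure ⟨_, rfl⟩)
    · rw [sup_le_iff, Subgroup.closure_le]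
      constructor
      · rintro _ ⟨a, rfl⟩
        obtain ⟨x, hx⟩ := hω a.toAdd
        have hx0 : x ≠ 0 := by
          rintro rfl
          rw [map_zero] at hx
          exact ex_ne _ hx.symm
        refine ⟨Units.mk0 x hx0, ?_⟩
        apply Units.ext
        exact hx
      · rintro _ ⟨t, rfl⟩
        exact ⟨_, rfl⟩
  rw [hsup]
  refine Subgroup.FG.sup (exHom_fg ω) ?_
  rw [Subgroup.fg_iff]
  exact ⟨_, rfl, Set.finite_range _⟩

end vg

end Pool.Agent.H893
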