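import Mathlib

/-!
# Weights on monoid algebras
-/

set_option autoImplicit false
set_option linter.unusedVariables false
set_option linter.unusedSectionVars false

namespace Pool.Agent.H893

open Polynomial

section ex

/-- The real number `exp (-B)`. -/
noncomputable def ex (B : ℝ) : NNReal := ⟨Real.exp (-B), (Real.exp_pos _).le⟩

lemma ex_add (A B : ℝ) : ex (A + B) = ex A * ex B := by
  apply NNReal.coe_injective
  change Real.exp (-(A + B)) = Real.exp (-A) * Real.exp (-B)
  rw [← Real.exp_add]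
  congr 1
  ring

@[simp] lemma ex_zero : ex 0 = 1 := by
  apply NNReal.coe_injective
  change Real.exp (-0) = 1
  simp

lemma ex_pos (A : ℝ) : 0 < ex A := by
  change (0 : ℝ) < Real.exp (-A)
  exact Real.exp_pos _

lemma ex_ne (A : ℝ) : ex A ≠ 0 := (ex_pos A).ne'

lemma ex_le {A B : ℝ} : ex A ≤ ex B ↔ B ≤ A := by
  change Real.exp (-A) ≤ Real.exp (-B) ↔ _
  rw [Real.exp_le_exp]
  constructor <;> intro h <;> linarith

lemma ex_lt {A B : ℝ} : ex A < ex B ↔ B < A := by
  rw [← not_le, ex_le, not_le]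

lemma ex_inj {A B : ℝ} : ex A = ex B ↔ A = B :=
  ⟨fun h => le_antisymm (ex_le.1 h.ge) (ex_le.1 h.le), fun h => by rw [h]⟩

lemma ex_le_one {A : ℝ} : ex A ≤ 1 ↔ 0 ≤ A := by rw [← ex_zero, ex_le]

lemma ex_lt_one {A : ℝ} : ex A < 1 ↔ 0 < A := by rw [← ex_zero, ex_lt]

lemma ex_eq_one {A : ℝ} : ex A = 1 ↔ A = 0 := by rw [← ex_zero, ex_inj]

lemma ex_nmul (n : ℕ) (A : ℝ) : ex (n * A) = ex A ^ n := by
  induction n with
  | zero => simp
  | succ n ih =>
    rw [pow_succ, ← ih, ← ex_add]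
    congr 1
    push_cast
    ring

lemma ex_neg (A : ℝ) : ex (-A) = (ex A)⁻¹ := by
  have h : ex (-A) * ex A = 1 := by rw [← ex_add]; simp
  exact eq_inv_of_mul_eq_one_left h

lemma ex_zmul (n : ℤ) (A : ℝ) : ex (n * A) = ex A ^ n := by
  obtain ⟨m, rfl | rfl⟩ := n.eq_nat_or_neg
  · rw [zpow_natCast, ← ex_nmul]
    norm_cast
  · rw [zpow_neg, zpow_natCast, ← ex_nmul, ← ex_neg]
    congr 1
    push_cast
    ring

lemma exists_ex {x : NNReal} (hx : x ≠ 0) : ∃ A : ℝ, x = ex A := by
  refine ⟨-Real.log x, ?_⟩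
  apply NNReal.coe_injective
  change (x : ℝ) = Real.exp (- -Real.log x)
  rw [neg_neg, Real.exp_log]
  exact lt_of_le_of_ne x.2 (fun h => hx (NNReal.coe_injective h.symm))

end ex

section wt

variable {k M : Type*} [Field k] [AddCommMonoid M]

/-- The elements of weight at least `B`. -/
def ge (w : M → ℝ) (B : ℝ) : Submodule k (AddMonoidAlgebra k M) where
  carrier := {g | ∀ μ, g.coeff μ ≠ 0 → B ≤ w μ}
  add_mem' := by
    intro a b ha hb μ h
    by_cases h1 : a.coeff μ = 0
    · apply hb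
      intro h2
      apply h
      simp [h1, h2]
    · exact ha μ h1
  zero_mem' := by
    intro μ h
    simp at h
  smul_mem' := by
    intro c a ha μ h
    apply ha
    intro h1
    apply h
    simp [h1]

/-- The elements of weight greater than `B`. -/
def gt (w : M → ℝ) (B : ℝ) : Submodule k (AddMonoidAlgebra k M) where
  carrier := {g | ∀ μ, g.coeff μ ≠ 0 → B < w μ}
  add_mem' := by
    intro a b ha hb μ h
    by_cases h1 : a.coeff μ = 0
    · apply hb
      intro h2
      apply h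
      simp [h1, h2]
    · exact ha μ h1
  zero_mem' := by
    intro μ h
    simp at h
  smul_mem' := by
    intro c a ha μ h
    apply ha
    intro h1
    apply h
    simp [h1]

variable {w : M → ℝ} {A B : ℝ} {g h : AddMonoidAlgebra k M}

lemma mem_ge : g ∈ ge (k := k) w B ↔ ∀ μ, g.coeff μ ≠ 0 → B ≤ w μ := Iff.rfl

lemma mem_gt : g ∈ gt (k := k) w B ↔ ∀ μ, g.coeff μ ≠ 0 → B < w μ := Iff.rfl

lemma ge_mono (hAB : A ≤ B) (hg : g ∈ ge (k := k) w B) : g ∈ ge (k := k) w A :=
  fun μ h => hAB.trans (hg μ h)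

lemma gt_ge (hg : g ∈ gt (k := k) w B) : g ∈ ge (k := k) w B := fun μ h => (hg μ h).le

lemma gt_of_ge (hAB : A < B) (hg : g ∈ ge (k := k) w B) : g ∈ gt (k := k) w A :=
  fun μ h => hAB.trans_le (hg μ h)

lemma gt_mono (hAB : A ≤ B) (hg : g ∈ gt (k := k) w B) : g ∈ gt (k := k) w A :=
  fun μ h => hAB.trans_lt (hg μ h)

lemma coeff_mul_ne {μ : M} (h1 : (g * h).coeff μ ≠ 0) :
    ∃ a b, g.coeff a ≠ 0 ∧ h.coeff b ≠ 0 ∧ a + b = μ := by
  classical
  have h2 := AddMonoidAlgebra.support_coeff_mul_subset g h (Finsupp.mem_support_iff.2 h1)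
  obtain ⟨a, ha, b, hb, rfl⟩ := Finset.mem_add.1 h2
  exact ⟨a, b, Finsupp.mem_support_iff.1 ha, Finsupp.mem_support_iff.1 hb, rfl⟩

lemma single_mem_ge {μ : M} {c : k} (h : c ≠ 0 → B ≤ w μ) :
    AddMonoidAlgebra.single μ c ∈ ge (k := k) w B := by
  classical
  intro ν hν
  rw [AddMonoidAlgebra.coeff_single, Finsupp.single_apply] at hν
  split_ifs at hν with h1
  · subst h1
    exact h hν
  · exact absurd rfl hν

lemma single_mem_gt {μ : M} {c : k} (h : c ≠ 0 → B < w μ) :
    AddMonoidAlgebra.single μ c ∈ gt (k := k) w B := by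
  classical
  intro ν hν
  rw [AddMonoidAlgebra.coeff_single, Finsupp.single_apply] at hν
  split_ifs at hν with h1
  · subst h1
    exact h hν
  · exact absurd rfl hν

/-- The decomposition into monomials. -/
lemma sum_single (g : AddMonoidAlgebra k M) :
    g = ∑ μ ∈ g.coeff.support, AddMonoidAlgebra.single μ (g.coeff μ) :=
  (AddMonoidAlgebra.sum_coeff_single g).symm

lemma ge_induction {p : AddMonoidAlgebra k M → Prop} (hg : g ∈ ge (k := k) w B) (h0 : p 0)
    (hs : ∀ μ c, B ≤ w μ → p (AddMonoidAlgebra.single μ c)) (ha : ∀ a b, p a → p b → p (a + b)) :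
    p g := by
  rw [sum_single g]
  refine Finset.sum_induction _ p (fun a b => ha a b) h0 fun μ hμ => ?_
  exact hs _ _ (hg μ (Finsupp.mem_support_iff.1 hμ))

lemma gt_induction {p : AddMonoidAlgebra k M → Prop} (hg : g ∈ gt (k := k) w B) (h0 : p 0)
    (hs : ∀ μ c, B < w μ → p (AddMonoidAlgebra.single μ c)) (ha : ∀ a b, p a → p b → p (a + b)) :
    p g := by
  rw [sum_single g]
  refine Finset.sum_induction _ p (fun a b => ha a b) h0 fun μ hμ => ?_
  exact hs _ _ (hg μ (Finsupp.mem_support_iff.1 hμ))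

end wt

section hom

variable {k M : Type*} [Field k] [AddCommMonoid M] {w : M →+ ℝ} {A B : ℝ}
  {g h : AddMonoidAlgebra k M}

lemma ge_mul (hg : g ∈ ge (k := k) w A) (hh : h ∈ ge (k := k) w B) :
    g * h ∈ ge (k := k) w (A + B) := by
  intro μ hμ
  obtain ⟨a, b, ha, hb, rfl⟩ := coeff_mul_ne hμ
  rw [map_add]
  exact add_le_add (hg a ha) (hh b hb)

lemma gt_mul (hg : g ∈ gt (k := k) w A) (hh : h ∈ ge (k := k) w B) :
    g * h ∈ gt (k := k) w (A + B) := by
  intro μ hμ
  obtain ⟨a, b, ha, hb, rfl⟩ := coeff_mul_ne hμ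
  rw [map_add]
  exact add_lt_add_of_lt_of_le (hg a ha) (hh b hb)

lemma ge_mul_gt (hg : g ∈ ge (k := k) w A) (hh : h ∈ gt (k := k) w B) :
    g * h ∈ gt (k := k) w (A + B) := by
  rw [mul_comm, add_comm]
  exact gt_mul hh hg

lemma one_mem_ge : (1 : AddMonoidAlgebra k M) ∈ ge (k := k) w 0 :=
  single_mem_ge fun _ => by rw [map_zero]

lemma ge_pow (hg : g ∈ ge (k := k) w A) (n : ℕ) : g ^ n ∈ ge (k := k) w (n * A) := by
  induction n with
  | zero => simpa using one_mem_ge
  | succ n ih =>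
    rw [pow_succ]
    refine ge_mono (le_of_eq ?_) (ge_mul ih hg)
    push_cast
    ring

lemma gt_pow (hg : g ∈ gt (k := k) w A) (n : ℕ) (hn : n ≠ 0) :
    g ^ n ∈ gt (k := k) w (n * A) := by
  obtain ⟨m, rfl⟩ := Nat.exists_eq_succ_of_ne_zero hn
  rw [Nat.succ_eq_add_one, pow_succ]
  refine gt_mono (le_of_eq ?_) (ge_mul_gt (ge_pow (gt_ge hg) m) hg)
  push_cast
  ring

/-- The elements supported in a submonoid. -/
def inP (k : Type*) [Field k] (P : AddSubmonoid M) : Subalgebra k (AddMonoidAlgebra k M) where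
  carrier := {g | ∀ μ, g.coeff μ ≠ 0 → μ ∈ P}
  add_mem' := by
    intro a b ha hb μ h
    by_cases h1 : a.coeff μ = 0
    · apply hb
      intro h2
      apply h
      simp [h1, h2]
    · exact ha μ h1
  mul_mem' := by
    intro a b ha hb μ h
    obtain ⟨c, d, hc, hd, rfl⟩ := coeff_mul_ne h
    exact P.add_mem (ha c hc) (hb d hd)
  algebraMap_mem' := by
    classical
    intro c μ h
    have h1 : (algebraMap k (AddMonoidAlgebra k M)) c = AddMonoidAlgebra.single 0 c := by
      simp [AddMonoidAlgebra.coe_algebraMap]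
    rw [h1, AddMonoidAlgebra.coeff_single, Finsupp.single_apply] at h
    split_ifs at h with h2
    · rw [← h2]; exact P.zero_mem
    · exact absurd rfl h

lemma mem_inP {P : AddSubmonoid M} : g ∈ inP k P ↔ ∀ μ, g.coeff μ ≠ 0 → μ ∈ P := Iff.rfl

end hom

section taylor

variable {R : Type*} [CommRing R]

lemma coeff_taylor (f : R[X]) (Φ : R) (n N : ℕ) (hN : f.natDegree < N) :
    (taylor Φ f).coeff n =
      ∑ i ∈ Finset.range N, (i.choose n : R) * (f.coeff i * Φ ^ (i - n)) := by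
  rw [taylor_coeff, hasseDeriv_apply, sum_def, eval_finsetSum]
  have h1 : ∀ i ∈ Finset.range N, i ∉ f.support →
      (i.choose n : R) * (f.coeff i * Φ ^ (i - n)) = 0 := by
    intro i _ hi
    rw [notMem_support_iff.1 hi]
    ring
  have h2 : f.support ⊆ Finset.range N := by
    intro i hi
    rw [Finset.mem_range]
    exact (le_natDegree_of_mem_supp i hi).trans_lt hN
  rw [← Finset.sum_subset h2 h1]
  refine Finset.sum_congr rfl fun i _ => ?_
  rw [eval_monomial]
  ring

lemma natDegree_taylor_lt (f : R[X]) (Φ : R) : (taylor Φ f).natDegree = f.natDegree := by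
  rw [natDegree_taylor]

end taylor

end Pool.Agent.H893
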